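import Pool.Agent.Lib.MP_1b9aaa_al.Defs

/-!
The monoid of Brauer classes `BrM k` of all algebras over a field `k`, and base change.
-/

set_option autoImplicit false

open scoped TensorProduct

namespace Pool.Agent.MP_1b9aaa_al

variable {k : Type} [Field k]

theorem BEq.refl (A : Al k) : BEq A A := ⟨1, 1, one_ne_zero, one_ne_zero, ⟨AlgEquiv.refl⟩⟩

theorem BEq.symm {A B : Al k} (h : BEq A B) : BEq B A := by
  obtain ⟨m, n, hm, hn, ⟨e⟩⟩ := h
  exact ⟨n, m, hn, hm, ⟨e.symm⟩⟩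

open Matrix in
theorem BEq.trans {A B C : Al k} (hAB : BEq A B) (hBC : BEq B C) : BEq A C := by
  obtain ⟨n, m, hn, hm, ⟨iso1⟩⟩ := hAB
  obtain ⟨p, q, hp, hq, ⟨iso2⟩⟩ := hBC
  exact ⟨p * n, m * q, by simp_all, by simp_all,
    ⟨reindexAlgEquiv _ _ finProdFinEquiv |>.symm.trans <| compAlgEquiv _ _ _ _|>.symm.trans <|
    iso1.mapMatrix (m := Fin p)|>.trans <| compAlgEquiv _ _ _ _|>.trans <|
    reindexAlgEquiv k B.C (.prodComm (Fin p) (Fin m))|>.trans <| compAlgEquiv _ _ _ _|>.symm.trans <|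
    iso2.mapMatrix.trans <| compAlgEquiv _ _ _ _|>.trans <| reindexAlgEquiv _ _ finProdFinEquiv⟩⟩

/-- Isomorphic algebras are Brauer equivalent. -/
theorem BEq.of_equiv {A B : Al k} (e : A.C ≃ₐ[k] B.C) : BEq A B :=
  ⟨1, 1, one_ne_zero, one_ne_zero, ⟨e.mapMatrix⟩⟩

/-- `M_1(C) ≅ C`. -/
def oneMat (k : Type) [Field k] (C : Type) [Ring C] [Algebra k C] :
    Matrix (Fin 1) (Fin 1) C ≃ₐ[k] C :=
  AlgEquiv.ofRingEquiv (f := { toFun := fun M => M 0 0
                               invFun := fun c => Matrix.of fun _ _ => c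
                               left_inv := fun M => by
                                 ext i j
                                 fin_cases i; fin_cases j; rfl
                               right_inv := fun c => rfl
                               map_mul' := fun M N => by simp [Matrix.mul_apply]
                               map_add' := fun M N => rfl }) (fun r => by
    show (algebraMap k (Matrix (Fin 1) (Fin 1) C) r) 0 0 = algebraMap k C r
    rw [Matrix.algebraMap_matrix_apply, if_pos rfl])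

instance alSetoid (k : Type) [Field k] : Setoid (Al k) where
  r := BEq
  iseqv := ⟨BEq.refl, BEq.symm, BEq.trans⟩

/-- The Brauer classes of algebras over `k`. -/
def BrM (k : Type) [Field k] : Type 1 := Quotient (alSetoid k)

/-- The Brauer class of an algebra. -/
def cls (k : Type) [Field k] (C : Type) [Ring C] [Algebra k C] : BrM k :=
  Quotient.mk (alSetoid k) ⟨C⟩

theorem cls_eq_of_equiv {C D : Type} [Ring C] [Algebra k C] [Ring D] [Algebra k D]
    (e : C ≃ₐ[k] D) : cls k C = cls k D :=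
  Quotient.sound (BEq.of_equiv (A := ⟨C⟩) (B := ⟨D⟩) e)

theorem cls_matrix {C : Type} [Ring C] [Algebra k C] {n : ℕ} (hn : n ≠ 0) :
    cls k (Matrix (Fin n) (Fin n) C) = cls k C :=
  Quotient.sound (s := alSetoid k) (a := ⟨Matrix (Fin n) (Fin n) C⟩) (b := ⟨C⟩)
    ⟨1, n, one_ne_zero, hn, ⟨oneMat k _⟩⟩

theorem mul_aux {A A' B : Al k} (h : BEq A A') :
    BEq (⟨A.C ⊗[k] B.C⟩ : Al k) (⟨A'.C ⊗[k] B.C⟩ : Al k) := by
  obtain ⟨m, n, hm, hn, ⟨e⟩⟩ := h
  have E : ∀ (m : ℕ) (C : Type) [Ring C] [Algebra k C],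
      Nonempty (Matrix (Fin m) (Fin m) (C ⊗[k] B.C) ≃ₐ[k] Matrix (Fin m) (Fin m) C ⊗[k] B.C) := by
    intro m C _ _
    exact ⟨(Matrix.reindexAlgEquiv k (C ⊗[k] B.C) (Equiv.prodUnique (Fin m) (Fin 1))).symm.trans
      ((Matrix.kroneckerTMulAlgEquiv (Fin m) (Fin 1) k k C B.C).symm.trans
        (Algebra.TensorProduct.congr AlgEquiv.refl (oneMat k B.C)))⟩
  obtain ⟨e1⟩ := E m A.C
  obtain ⟨e2⟩ := E n A'.C
  exact ⟨m, n, hm, hn, ⟨e1.trans ((Algebra.TensorProduct.congr e AlgEquiv.refl).trans e2.symm)⟩⟩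

theorem comm_aux (A B : Al k) : BEq (⟨A.C ⊗[k] B.C⟩ : Al k) (⟨B.C ⊗[k] A.C⟩ : Al k) :=
  BEq.of_equiv (A := ⟨A.C ⊗[k] B.C⟩) (B := ⟨B.C ⊗[k] A.C⟩)
    (Algebra.TensorProduct.comm k A.C B.C)

/-- the product of Brauer classes -/
noncomputable def BrM.mul : BrM k → BrM k → BrM k :=
  Quotient.map₂ (fun A B => (⟨A.C ⊗[k] B.C⟩ : Al k)) (by
    intro A A' h B B' h'
    exact (mul_aux (B := B) h).trans ((comm_aux A' B).trans ((mul_aux (B := A') h').trans
      (comm_aux B' A'))))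

/-- `BrM k` is a commutative monoid with the tensor product. -/
noncomputable instance : CommMonoid (BrM k) where
  mul := BrM.mul
  mul_assoc a b c := by
    induction a using Quotient.ind with | _ a => ?_
    induction b using Quotient.ind with | _ b => ?_
    induction c using Quotient.ind with | _ c => ?_
    exact cls_eq_of_equiv (C := (a.C ⊗[k] b.C) ⊗[k] c.C) (D := a.C ⊗[k] (b.C ⊗[k] c.C))
      (Algebra.TensorProduct.assoc k k k a.C b.C c.C)
  one := cls k k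
  one_mul a := by
    induction a using Quotient.ind with | _ a => ?_
    exact cls_eq_of_equiv (C := k ⊗[k] a.C) (D := a.C) (Algebra.TensorProduct.lid k a.C)
  mul_one a := by
    induction a using Quotient.ind with | _ a => ?_
    exact cls_eq_of_equiv (C := a.C ⊗[k] k) (D := a.C) (Algebra.TensorProduct.rid k k a.C)
  mul_comm a b := by
    induction a using Quotient.ind with | _ a => ?_
    induction b using Quotient.ind with | _ b => ?_
    exact cls_eq_of_equiv (C := a.C ⊗[k] b.C) (D := b.C ⊗[k] a.C)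
      (Algebra.TensorProduct.comm k a.C b.C)

theorem cls_mul {C D : Type} [Ring C] [Algebra k C] [Ring D] [Algebra k D] :
    cls k C * cls k D = cls k (C ⊗[k] D) := rfl

theorem cls_self : cls k k = 1 := rfl

section BaseChange

variable {Ω : Type} [Field Ω] [Algebra k Ω]

/-- `(Ω ⊗_k C) ⊗_Ω (Ω ⊗_k D) ≅ Ω ⊗_k (C ⊗_k D)`. -/
noncomputable def bcMulEquiv (C D : Type) [Ring C] [Algebra k C] [Ring D] [Algebra k D] :
    (Ω ⊗[k] C) ⊗[Ω] (Ω ⊗[k] D) ≃ₐ[Ω] Ω ⊗[k] (C ⊗[k] D) :=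
  (AlgEquiv.symm <| AlgEquiv.ofLinearEquiv
    (TensorProduct.AlgebraTensorModule.cancelBaseChange k Ω Ω (Ω ⊗[k] C) D).symm
    (by simp [Algebra.TensorProduct.one_def]) <|
      LinearMap.map_mul_of_map_mul_tmul (fun _ _ _ _ ↦ by simp)).trans
    (Algebra.TensorProduct.assoc k k Ω Ω C D)

theorem bc_aux {A B : Al k} (h : BEq A B) :
    BEq (⟨Ω ⊗[k] A.C⟩ : Al Ω) (⟨Ω ⊗[k] B.C⟩ : Al Ω) := by
  obtain ⟨m, n, hm, hn, ⟨e⟩⟩ := h
  have E : ∀ (m : ℕ) (C : Type) [Ring C] [Algebra k C],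
      Nonempty (Matrix (Fin m) (Fin m) (Ω ⊗[k] C) ≃ₐ[Ω] Ω ⊗[k] Matrix (Fin m) (Fin m) C) := by
    intro m C _ _
    exact ⟨(Matrix.reindexAlgEquiv Ω (Ω ⊗[k] C) (Equiv.uniqueProd (Fin m) (Fin 1))).symm.trans
      ((Matrix.kroneckerTMulAlgEquiv (Fin 1) (Fin m) k Ω Ω C).symm.trans
        (Algebra.TensorProduct.congr (oneMat Ω Ω) AlgEquiv.refl))⟩
  obtain ⟨e1⟩ := E m A.C
  obtain ⟨e2⟩ := E n B.C
  exact ⟨m, n, hm, hn, ⟨e1.trans ((Algebra.TensorProduct.congr AlgEquiv.refl e).trans e2.symm)⟩⟩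

end BaseChange

/-- base change of the classes along `f : k → Ω`: a homomorphism of monoids with
`bcM f (cls k C) = cls Ω (Ω ⊗[k] C)`, where `Ω` is a `k`-algebra by `f`. -/
theorem exists_bcM {Ω : Type} [Field Ω] (f : k →+* Ω) :
    ∃ φ : BrM k →* BrM Ω, ∀ (C : Type) [Ring C] [Algebra k C],
      φ (cls k C) = (letI := f.toAlgebra; cls Ω (Ω ⊗[k] C)) := by
  let _ := f.toAlgebra
  refine ⟨⟨⟨Quotient.map (fun A => (⟨Ω ⊗[k] A.C⟩ : Al Ω)) (fun A B h => bc_aux h), ?_⟩, ?_⟩,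
    fun C _ _ => rfl⟩
  · exact cls_eq_of_equiv (C := Ω ⊗[k] k) (D := Ω) (Algebra.TensorProduct.rid k Ω Ω)
  · intro a b
    induction a using Quotient.ind with | _ a => ?_
    induction b using Quotient.ind with | _ b => ?_
    exact cls_eq_of_equiv (C := Ω ⊗[k] (a.C ⊗[k] b.C)) (D := (Ω ⊗[k] a.C) ⊗[Ω] (Ω ⊗[k] b.C))
      (bcMulEquiv a.C b.C).symm

end Pool.Agent.MP_1b9aaa_al
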