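import Mathlib

/-!
A matrix algebra over `B` which is a matrix algebra over the field.
-/

set_option autoImplicit false

open scoped TensorProduct

namespace Pool.Agent.MP_1b9aaa_al

/-- If a matrix algebra over `B` is a matrix algebra over the field `Ω`, then so is `B`.
PROOF. `V = Ω^n` is a module over `M_m(B)` by `e`. Let `W = e(E_{00}) V`. `V ≅ W^m` by
`v ↦ (e(E_{0i}) v)_i`, with inverse `(w_i) ↦ ∑ e(E_{i0}) w_i`, so `n = m dim W`. `B` acts on `W`
by `β ↦ e(β E_{00})`, faithfully (`e(β E_{00}) = 0` on `W` gives `β E_{00} = 0`), and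
`dim B = n²/m² = (dim W)²`. So `B → End(W)` is bijective. -/
theorem matrix_of_matrix {Ω : Type} [Field Ω] {B : Type} [Ring B] [Algebra Ω B] {m n : ℕ}
    (hm : m ≠ 0) (hn : n ≠ 0) (e : Matrix (Fin m) (Fin m) B ≃ₐ[Ω] Matrix (Fin n) (Fin n) Ω) :
    ∃ r : ℕ, Nonempty (B ≃ₐ[Ω] Matrix (Fin r) (Fin r) Ω) := by
  classical
  obtain ⟨i0⟩ : Nonempty (Fin m) := ⟨⟨0, Nat.pos_of_ne_zero hm⟩⟩
  obtain ⟨Φ, -⟩ : ∃ Φ : Matrix (Fin m) (Fin m) B ≃ₐ[Ω] ((Fin n → Ω) →ₗ[Ω] (Fin n → Ω)),
      Φ = e.trans Matrix.toLinAlgEquiv' := ⟨_, rfl⟩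
  obtain ⟨s, hs⟩ : ∃ s : B → Matrix (Fin m) (Fin m) B, s = fun β => Matrix.single i0 i0 β :=
    ⟨_, rfl⟩
  have hmul : ∀ β γ, s (β * γ) = s β * s γ := fun β γ => by
    rw [hs]
    exact (Matrix.single_mul_single_same (i := i0) (j := i0) (k := i0) β γ).symm
  have hadd : ∀ β γ, s (β + γ) = s β + s γ := fun β γ => by
    rw [hs]
    exact Matrix.single_add i0 i0 β γ
  have hsmul : ∀ (r : Ω) β, s (r • β) = r • s β := fun r β => by
    rw [hs]
    exact (Matrix.smul_single r i0 i0 β).symm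
  have hinj : ∀ β, s β = 0 → β = 0 := fun β h => by
    have h1 := congrFun (congrFun h i0) i0
    rw [hs] at h1
    simpa using h1
  have hcut : ∀ M : Matrix (Fin m) (Fin m) B, s 1 * M * s 1 = s (M i0 i0) := fun M => by
    rw [hs]
    rw [Matrix.single_mul_mul_single, one_mul, mul_one]
  have hPP : Φ (s 1) * Φ (s 1) = Φ (s 1) := by rw [← map_mul, ← hmul, one_mul]
  obtain ⟨W, hW⟩ : ∃ W : Submodule Ω (Fin n → Ω), W = LinearMap.range (Φ (s 1)) := ⟨_, rfl⟩
  have hPW : ∀ w ∈ W, Φ (s 1) w = w := by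
    intro w hw
    rw [hW] at hw
    obtain ⟨v, rfl⟩ := hw
    exact congrArg (fun T : (Fin n → Ω) →ₗ[Ω] (Fin n → Ω) => T v) hPP
  have hsW : ∀ β v, Φ (s β) v ∈ W := by
    intro β v
    rw [hW]
    refine ⟨Φ (s β) v, ?_⟩
    have h1 : Φ (s 1) * Φ (s β) = Φ (s β) := by rw [← map_mul, ← hmul, one_mul]
    exact congrArg (fun T : (Fin n → Ω) →ₗ[Ω] (Fin n → Ω) => T v) h1
  let ψ : B →ₐ[Ω] (W →ₗ[Ω] W) :=
    { toFun := fun β => (Φ (s β)).restrict fun w _ => hsW β w
      map_one' := by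
        ext w : 2
        exact hPW w w.2
      map_mul' := fun β γ => by
        ext w : 2
        change Φ (s (β * γ)) w = Φ (s β) (Φ (s γ) w)
        rw [hmul, map_mul]
        rfl
      map_zero' := by
        ext w : 2
        change Φ (s 0) w = 0
        have h1 : s 0 = 0 := by
          have h2 := hsmul 0 0
          rwa [zero_smul, zero_smul] at h2
        rw [h1, map_zero]
        rfl
      map_add' := fun β γ => by
        ext w : 2
        change Φ (s (β + γ)) w = Φ (s β) w + Φ (s γ) w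
        rw [hadd, map_add]
        rfl
      commutes' := fun r => by
        ext w : 2
        change Φ (s (algebraMap Ω B r)) w = r • (w : Fin n → Ω)
        rw [Algebra.algebraMap_eq_smul_one, hsmul, map_smul]
        change r • Φ (s 1) w = r • (w : Fin n → Ω)
        rw [hPW w w.2] }
  have hψ : ∀ β (w : W), ((ψ β w : W) : Fin n → Ω) = Φ (s β) w := fun β w => rfl
  have hbij : Function.Bijective ψ := by
    constructor
    · rw [injective_iff_map_eq_zero]
      intro β hβ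
      refine hinj β (Φ.injective ?_)
      rw [map_zero]
      have h1 : Φ (s β) * Φ (s 1) = Φ (s β) := by rw [← map_mul, ← hmul, mul_one]
      rw [← h1]
      refine LinearMap.ext fun v => ?_
      have h2 := hψ β ⟨Φ (s 1) v, hsW 1 v⟩
      rw [hβ] at h2
      exact h2.symm
    · intro g
      obtain ⟨M, hM⟩ := Φ.surjective
        (W.subtype.comp (g.comp ((Φ (s 1)).codRestrict W fun v => hsW 1 v)))
      refine ⟨M i0 i0, ?_⟩
      ext w : 2
      rw [hψ, ← hcut, map_mul, map_mul, hM]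
      change Φ (s 1) ((g ⟨Φ (s 1) (Φ (s 1) w), _⟩ : W) : Fin n → Ω) = (g w : Fin n → Ω)
      rw [hPW _ (g _).2]
      congr 2
      ext1
      change Φ (s 1) (Φ (s 1) w) = (w : Fin n → Ω)
      rw [hPW w w.2, hPW w w.2]
  exact ⟨Module.finrank Ω W, ⟨(AlgEquiv.ofBijective ψ hbij).trans
    (LinearMap.toMatrixAlgEquiv (Module.finBasis Ω W))⟩⟩

end Pool.Agent.MP_1b9aaa_al
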