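import Mathlib

/-!
Descent of splittings.
-/

set_option autoImplicit false

open scoped TensorProduct

namespace Pool.Agent.MP_1b9aaa_al

/-- If `Ω ⊗ A` is a matrix algebra, `Ω / F` algebraic and `A / F` finite dimensional, then so is
`L ⊗ A` for some finite subextension `L`. PROOF. Let `f : A → M_r(Ω)` be the restriction of `e`. The
entries of the images of a basis of `A` generate a finite extension `L ⊆ Ω`, `f` has its image in
`M_r(L)`, this gives `L ⊗ A → M_r(L)`, which is injective (after composition with
`M_r(L) → M_r(Ω)` it is `L ⊗ A → Ω ⊗ A ≅ M_r(Ω)`), and the dimensions are equal. -/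
theorem descent {F E : Type} [Field F] [Field E] [Algebra F E] [Algebra.IsAlgebraic F E]
    (Ω : IntermediateField F E) {A : Type} [Ring A] [Algebra F A] [FiniteDimensional F A] {r : ℕ}
    (e : (Ω ⊗[F] A) ≃ₐ[Ω] Matrix (Fin r) (Fin r) Ω) :
    ∃ L : IntermediateField F E, L ≤ Ω ∧ FiniteDimensional F L ∧
      Nonempty ((L ⊗[F] A) ≃ₐ[L] Matrix (Fin r) (Fin r) L) := by
  classical
  let f : A →ₐ[F] Matrix (Fin r) (Fin r) Ω :=
    (e.toAlgHom.restrictScalars F).comp Algebra.TensorProduct.includeRight
  have hf : ∀ a, f a = e (1 ⊗ₜ a) := fun a => rfl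
  let b := Module.finBasis F A
  let T : Set E := Set.range fun p : Fin (Module.finrank F A) × Fin r × Fin r =>
    ((f (b p.1) p.2.1 p.2.2 : Ω) : E)
  have hT : T.Finite := Set.finite_range _
  have : Finite T := hT
  let L : IntermediateField F E := IntermediateField.adjoin F T
  have hLΩ : L ≤ Ω := by
    refine IntermediateField.adjoin_le_iff.2 ?_
    rintro _ ⟨p, rfl⟩
    exact (f (b p.1) p.2.1 p.2.2).2
  have hfin : FiniteDimensional F L :=
    IntermediateField.finiteDimensional_adjoin fun x _ => Algebra.IsIntegral.isIntegral x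
  refine ⟨L, hLΩ, hfin, ?_⟩
  let j : L →ₐ[F] Ω := IntermediateField.inclusion hLΩ
  have hj : Function.Injective j := IntermediateField.inclusion_injective hLΩ
  have hj' : ∀ x : L, ((j x : Ω) : E) = x := fun x => rfl
  let m : Matrix (Fin r) (Fin r) L →ₐ[F] Matrix (Fin r) (Fin r) Ω := j.mapMatrix
  have hm : Function.Injective m := by
    intro M N h
    ext s t
    have h1 := congrFun (congrFun h s) t
    exact congrArg Subtype.val (hj h1)
  have hent : ∀ (a : A) (s t : Fin r), ((f a s t : Ω) : E) ∈ L := by
    intro a s t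
    rw [← b.sum_repr a, map_sum, Matrix.sum_apply]
    rw [AddSubmonoidClass.coe_finsetSum]
    refine sum_mem fun i _ => ?_
    rw [map_smul, Matrix.smul_apply]
    have h1 : ((b.repr a i • f (b i) s t : Ω) : E) = b.repr a i • ((f (b i) s t : Ω) : E) := rfl
    rw [h1]
    exact L.smul_mem (IntermediateField.subset_adjoin F T ⟨(i, s, t), rfl⟩)
  have hrange : ∀ a, f a ∈ m.range := by
    intro a
    refine ⟨Matrix.of fun s t => ⟨(f a s t : Ω), hent a s t⟩, ?_⟩
    ext s t
    rfl
  let g : A →ₐ[F] Matrix (Fin r) (Fin r) L :=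
    ((AlgEquiv.ofInjective m hm).symm : m.range →ₐ[F] Matrix (Fin r) (Fin r) L).comp
      (f.codRestrict m.range hrange)
  have hg : ∀ a, m (g a) = f a := by
    intro a
    have h1 := (AlgEquiv.ofInjective m hm).apply_symm_apply (f.codRestrict m.range hrange a)
    exact congrArg Subtype.val h1
  let G : (L ⊗[F] A) →ₐ[L] Matrix (Fin r) (Fin r) L :=
    Algebra.TensorProduct.lift (Algebra.ofId L _) g fun x y => Algebra.commutes x (g y)
  have hG : ∀ (x : L) (a : A), G (x ⊗ₜ a) = x • g a := by
    intro x a
    rw [Algebra.TensorProduct.lift_tmul, Algebra.ofId_apply, Algebra.smul_def]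
  have hcomp : ∀ z, m (G z) = e (LinearMap.rTensor A j.toLinearMap z) := by
    intro z
    induction z using TensorProduct.induction_on with
    | zero => simp
    | add x y hx hy => rw [map_add, map_add, hx, hy, map_add, map_add]
    | tmul x a =>
      rw [hG, LinearMap.rTensor_tmul]
      have h1 : (j.toLinearMap x ⊗ₜ[F] a : Ω ⊗[F] A) = (j x) • ((1 : Ω) ⊗ₜ[F] a) := by
        rw [TensorProduct.smul_tmul', smul_eq_mul, mul_one]
        rfl
      have h2 : e ((j x) • ((1 : Ω) ⊗ₜ[F] a)) = j x • f a := by
        rw [map_smul, hf]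
      rw [h1, h2, ← hg]
      ext s t
      simp [m, Matrix.smul_apply]
  have hGi : Function.Injective G := by
    intro z w h
    have h1 : Function.Injective (LinearMap.rTensor A j.toLinearMap) :=
      Module.Flat.rTensor_preserves_injective_linearMap _ hj
    apply h1
    apply e.injective
    rw [← hcomp, ← hcomp, h]
  have hd : Module.finrank F A = r * r := by
    have h1 := e.toLinearEquiv.finrank_eq
    rw [Module.finrank_baseChange, Module.finrank_matrix] at h1
    simpa using h1
  have hd' : Module.finrank L (L ⊗[F] A) = Module.finrank L (Matrix (Fin r) (Fin r) L) := by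
    rw [Module.finrank_baseChange, Module.finrank_matrix, hd]
    simp
  have hGs : Function.Surjective G :=
    (LinearMap.injective_iff_surjective_of_finrank_eq_finrank (f := G.toLinearMap) hd').1 hGi
  exact ⟨AlgEquiv.ofBijective G ⟨hGi, hGs⟩⟩

end Pool.Agent.MP_1b9aaa_al
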