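import Mathlib

/-!
Brauer classes of algebras over a field (as a monoid), and symbol algebras.
-/

set_option autoImplicit false

open scoped TensorProduct

namespace Pool.Agent.MP_1b9aaa_al

/-- An algebra over the field `k`. -/
structure Al (k : Type) [Field k] : Type 1 where
  /-- the underlying type -/
  C : Type
  [ring : Ring C]
  [alg : Algebra k C]

attribute [instance] Al.ring Al.alg

/-- Two `k`-algebras are Brauer equivalent if they have isomorphic (nonempty) matrix algebras. -/
def BEq {k : Type} [Field k] (A B : Al k) : Prop :=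
  ∃ m n : ℕ, m ≠ 0 ∧ n ≠ 0 ∧
    Nonempty (Matrix (Fin m) (Fin m) A.C ≃ₐ[k] Matrix (Fin n) (Fin n) B.C)

section Symbol

/-- The relations `x^n = a`, `y^n = b`, `x y = ζ y x`. -/
inductive SymRel {k : Type} [Field k] (n : ℕ) (ζ a b : k) :
    FreeAlgebra k (Fin 2) → FreeAlgebra k (Fin 2) → Prop
  | powX : SymRel n ζ a b (FreeAlgebra.ι k 0 ^ n) (algebraMap k _ a)
  | powY : SymRel n ζ a b (FreeAlgebra.ι k 1 ^ n) (algebraMap k _ b)
  | comm : SymRel n ζ a b (FreeAlgebra.ι k 0 * FreeAlgebra.ι k 1)
      (ζ • (FreeAlgebra.ι k 1 * FreeAlgebra.ι k 0))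

/-- The symbol algebra `(a, b)_ζ` of degree `n` over `k`, generated by `x` and `y` with the
relations `x^n = a`, `y^n = b`, `x y = ζ y x`. -/
abbrev SymAlg {k : Type} [Field k] (n : ℕ) (ζ a b : k) : Type := RingQuot (SymRel n ζ a b)

end Symbol

end Pool.Agent.MP_1b9aaa_al
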