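import Mathlib

/-!
The maximal abelian subextension of a Galois extension.
-/

set_option autoImplicit false

namespace Pool.Agent.MP_1b9aaa_al

variable (F E : Type) [Field F] [Field E] [Algebra F E]

/-- The maximal abelian subextension of `E / F`: the elements `x` with `s (t x) = t (s x)` for all
automorphisms `s, t`. -/
def abS : IntermediateField F E where
  carrier := {x | ∀ s t : E ≃ₐ[F] E, s (t x) = t (s x)}
  mul_mem' {x y} hx hy s t := by
    have h1 := hx s t
    have h2 := hy s t
    simp only [map_mul, h1, h2]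
  one_mem' s t := by simp
  add_mem' {x y} hx hy s t := by
    have h1 := hx s t
    have h2 := hy s t
    simp only [map_add, h1, h2]
  zero_mem' s t := by simp
  algebraMap_mem' r s t := by simp
  inv_mem' x hx s t := by
    have h1 := hx s t
    simp only [map_inv₀, h1]

variable {F E}

theorem mem_abS {x : E} : x ∈ abS F E ↔ ∀ s t : E ≃ₐ[F] E, s (t x) = t (s x) := Iff.rfl

/-- Every subextension of `abS F E` is Galois with a commutative Galois group.
PROOF: `L` is the fixed field of `H = L.fixingSubgroup`; for `s ∈ Gal(E/F)`, `t ∈ H`, `x ∈ L` we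
have `t (s x) = s (t x) = s x`, so `s L ⊆ L`: `L` is normal
(`IntermediateField.normal_iff_forall_map_le'`). Automorphisms of `L` lift to `E`. -/
theorem abS_sub [IsGalois F E] (L : IntermediateField F E) (hL : L ≤ abS F E) :
    IsGalois F L ∧ ∀ σ τ : L ≃ₐ[F] L, σ * τ = τ * σ := by
  have hfix : IntermediateField.fixedField L.fixingSubgroup = L :=
    InfiniteGalois.fixedField_fixingSubgroup L
  have hN : Normal F L := by
    rw [IntermediateField.normal_iff_forall_map_le']
    rintro s y ⟨x, hx, rfl⟩
    rw [← hfix]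
    rintro ⟨t, ht⟩
    have h1 : t (s x) = s (t x) := hL hx t s
    have h2 : t x = x := (IntermediateField.mem_fixingSubgroup_iff _ _).1 ht x hx
    change t (s x) = s x
    rw [h1, h2]
  refine ⟨{ to_normal := hN }, fun σ τ ↦ ?_⟩
  obtain ⟨s, rfl⟩ := AlgEquiv.restrictNormalHom_surjective (F := F) (K₁ := L) E σ
  obtain ⟨t, rfl⟩ := AlgEquiv.restrictNormalHom_surjective (F := F) (K₁ := L) E τ
  ext x
  simp only [AlgEquiv.mul_apply, AlgEquiv.restrictNormalHom_apply]
  exact hL x.2 s t

/-- Every abelian extension embeds into `abS F E`. -/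
theorem range_abS {K : Type} [Field K] [Algebra F K] [Normal F K]
    (hab : ∀ σ τ : K ≃ₐ[F] K, σ * τ = τ * σ) (ι : K →ₐ[F] E) (x : K) : ι x ∈ abS F E := by
  intro s t
  let _ : Algebra K E := ι.toRingHom.toAlgebra
  have _ : IsScalarTower F K E := IsScalarTower.of_algebraMap_eq fun r ↦ (ι.commutes r).symm
  have hs : ∀ (s : E ≃ₐ[F] E) (y : K), s (ι y) = ι (s.restrictNormal K y) := fun s y ↦
    (AlgEquiv.restrictNormal_commutes s K y).symm
  rw [hs t, hs s, hs s, hs t]
  have := congrArg (fun f : K ≃ₐ[F] K ↦ ι (f x)) (hab (s.restrictNormal K) (t.restrictNormal K))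
  exact this

end Pool.Agent.MP_1b9aaa_al
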