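import Pool.Agent.Lib.MP_1b9aaa_al.KuA

/-!
Kummer extensions in the maximal abelian subextension.
-/

set_option autoImplicit false

namespace Pool.Agent.MP_1b9aaa_al

variable {F E : Type} [Field F] [Field E] [Algebra F E]

/-- The automorphisms which commute with `t` on the stable set `M`. -/
private def cent (M : Set E) (hM : ∀ (s : E ≃ₐ[F] E), ∀ x ∈ M, s x ∈ M) (t : E ≃ₐ[F] E) :
    Submonoid (E ≃ₐ[F] E) where
  carrier := {s | ∀ x ∈ M, s (t x) = t (s x)}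
  one_mem' := fun x _ => rfl
  mul_mem' := by
    intro s s' hs hs' x hx
    show s (s' (t x)) = t (s (s' x))
    rw [hs' x hx, hs _ (hM s' x hx)]

private theorem comm_all {M : Set E} (hM : ∀ (s : E ≃ₐ[F] E), ∀ x ∈ M, s x ∈ M)
    {H : Set (E ≃ₐ[F] E)} {G : E ≃ₐ[F] E} (hdec : ∀ s, ∃ (a : ℕ) (η : E ≃ₐ[F] E), η ∈ H ∧
      s = G ^ a * η) (hHH : ∀ η ∈ H, ∀ η' ∈ H, ∀ x ∈ M, η' (η x) = η (η' x))
    (hGH : ∀ η ∈ H, ∀ x ∈ M, G (η x) = η (G x)) (s t : E ≃ₐ[F] E) :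
    ∀ x ∈ M, s (t x) = t (s x) := by
  have key : ∀ t : E ≃ₐ[F] E, G ∈ cent M hM t → (∀ η ∈ H, η ∈ cent M hM t) →
      ∀ s, s ∈ cent M hM t := by
    intro t h1 h2 s
    obtain ⟨a, η, hη, rfl⟩ := hdec s
    exact (cent M hM t).mul_mem ((cent M hM t).pow_mem h1 a) (h2 η hη)
  have h1 : ∀ η ∈ H, ∀ s, s ∈ cent M hM η := fun η hη =>
    key η (hGH η hη) (hHH η hη)
  have h2 : ∀ s, s ∈ cent M hM G := key G (fun x _ => rfl)
    (fun η hη x hx => (hGH η hη x hx).symm)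
  exact key t (fun x hx => (h2 t x hx).symm) (fun η hη x hx => (h1 η hη t x hx).symm) s

/-- **Kummer extensions.** Let `K / F` be finite Galois with Galois group generated by `g`,
`ζ ∈ K` a primitive `n`-th root of unity, `g ζ = ζ^w`, and `κ ∈ K*` with `g κ = κ^w c^n`. Then every
`n`-th root of `κ` in `E ⊇ K` is in `abS F E`.
PROOF. Lift `g` to `G ∈ Gal(E/F)` (`E/F` normal). (1) If `η ∈ Gal(E/F)` is trivial on `K`, then
`η θ = ζ^j θ`. (2) `G θ = c' θ^w` with `c' ∈ K`, as `(G θ)^n = κ^w c^n`. Let `S` be the set of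
`d θ^v`, `d ∈ K`, `v : ℕ`; `S` is stable under `G` and all `η`. (3) `η` and `G` commute on `S`:
on `K` clear, and `G η θ = G (ζ^j θ) = ζ^{jw} c' θ^w = η (c' θ^w) = η G θ`. (4) Every
`s ∈ Gal(E/F)` is `G^a η` with `η` trivial on `K` (`s` acts on the image of `K` as some `g^a`,
`a : ℕ`). (5) `s t θ = G^a η G^b η' θ = G^a G^b η η' θ = G^b G^a η' η θ = t s θ`. -/
theorem kummer_abS [IsGalois F E] {K : Type} [Field K] [Algebra F K] [FiniteDimensional F K]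
    [IsGalois F K] (g : K ≃ₐ[F] K) (hg : ∀ σ : K ≃ₐ[F] K, ∃ a : ℕ, σ = g ^ a) (ι : K →ₐ[F] E)
    {n : ℕ} (hn : n ≠ 0) {ζ : K} (hζ : IsPrimitiveRoot ζ n) {w : ℕ} (hw : g ζ = ζ ^ w) {κ c : K}
    (hκ : κ ≠ 0) (h : g κ = κ ^ w * c ^ n) {θ : E} (hθ : θ ^ n = ι κ) : θ ∈ abS F E := by
  let _ : Algebra K E := ι.toRingHom.toAlgebra
  have _ : IsScalarTower F K E := IsScalarTower.of_algebraMap_eq fun x => (ι.commutes x).symm
  obtain ⟨G, hG⟩ : ∃ G : E ≃ₐ[F] E, ∀ x, G (ι x) = ι (g x) :=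
    ⟨g.liftNormal E, fun x => g.liftNormal_commutes E x⟩
  have hres : ∀ s : E ≃ₐ[F] E, ∃ σ : K ≃ₐ[F] K, ∀ x, s (ι x) = ι (σ x) :=
    fun s => ⟨s.restrictNormal K, fun x => (s.restrictNormal_commutes K x).symm⟩
  have hGa : ∀ (a : ℕ) (x : K), (G ^ a) (ι x) = ι ((g ^ a) x) := by
    intro a
    induction a with
    | zero => exact fun x => rfl
    | succ a ih =>
      intro x
      rw [pow_succ, pow_succ, AlgEquiv.mul_apply, AlgEquiv.mul_apply, hG, ih]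
  have hθ0 : θ ≠ 0 := by
    rintro rfl
    rw [zero_pow hn] at hθ
    exact hκ ((map_eq_zero ι).1 hθ.symm)
  have hc : c ≠ 0 := by
    rintro rfl
    rw [zero_pow hn, mul_zero] at h
    exact hκ ((map_eq_zero g).1 h)
  have : NeZero n := ⟨hn⟩
  have hζ' : IsPrimitiveRoot (ι ζ) n := hζ.map_of_injective ι.injective
  have hroot : ∀ x y : E, y ≠ 0 → x ^ n = y ^ n → ∃ i : ℕ, x = ι (ζ ^ i) * y := by
    intro x y hy hxy
    have h1 : (x / y) ^ n = 1 := by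
      rw [div_pow, hxy, div_self (pow_ne_zero _ hy)]
    obtain ⟨i, -, hi⟩ := hζ'.eq_pow_of_pow_eq_one h1
    refine ⟨i, ?_⟩
    rw [map_pow, hi, div_mul_cancel₀ _ hy]
  obtain ⟨i0, hi0⟩ := hroot (G θ) (ι c * θ ^ w) (mul_ne_zero ((map_ne_zero ι).2 hc)
    (pow_ne_zero _ hθ0)) (by
      rw [← map_pow, hθ, hG, h, mul_pow, ← pow_mul, mul_comm w, pow_mul, hθ, map_mul, map_pow,
        map_pow]
      ring)
  have hGθ : G θ = ι (ζ ^ i0 * c) * θ ^ w := by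
    rw [hi0, map_mul]
    ring
  let H : Set (E ≃ₐ[F] E) := {η | ∀ x, η (ι x) = ι x}
  have hHθ : ∀ η ∈ H, ∃ i : ℕ, η θ = ι (ζ ^ i) * θ := by
    intro η hη
    exact hroot _ _ hθ0 (by rw [← map_pow, hθ, hη])
  have hdec : ∀ s, ∃ (a : ℕ) (η : E ≃ₐ[F] E), η ∈ H ∧ s = G ^ a * η := by
    intro s
    obtain ⟨σ, hσ⟩ := hres s
    obtain ⟨a, rfl⟩ := hg σ
    refine ⟨a, (G ^ a)⁻¹ * s, fun x => ?_, by rw [mul_inv_cancel_left]⟩
    rw [AlgEquiv.mul_apply, hσ, ← hGa]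
    exact (G ^ a).symm_apply_apply _
  let M : Set E := {x | ∃ (d : K) (v : ℕ), x = ι d * θ ^ v}
  have hHM : ∀ η ∈ H, ∀ x ∈ M, η x ∈ M := by
    rintro η hη _ ⟨d, v, rfl⟩
    obtain ⟨i, hi⟩ := hHθ η hη
    refine ⟨d * (ζ ^ i) ^ v, v, ?_⟩
    have h1 : η (ι d) = ι d := hη d
    simp only [map_mul, map_pow, h1, hi, mul_pow]
    ring
  have hGM : ∀ x ∈ M, G x ∈ M := by
    rintro _ ⟨d, v, rfl⟩
    refine ⟨g d * (ζ ^ i0 * c) ^ v, w * v, ?_⟩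
    simp only [map_mul, map_pow, hG, hGθ, mul_pow]
    ring
  have hGaM : ∀ a : ℕ, ∀ x ∈ M, (G ^ a) x ∈ M := by
    intro a
    induction a with
    | zero => exact fun x hx => hx
    | succ a ih =>
      intro x hx
      rw [pow_succ, AlgEquiv.mul_apply]
      exact ih _ (hGM x hx)
  have hM : ∀ (s : E ≃ₐ[F] E), ∀ x ∈ M, s x ∈ M := by
    intro s x hx
    obtain ⟨a, η, hη, rfl⟩ := hdec s
    exact hGaM a _ (hHM η hη x hx)
  have hext : ∀ s t : E ≃ₐ[F] E, (∀ d, s (t (ι d)) = t (s (ι d))) → s (t θ) = t (s θ) →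
      ∀ x ∈ M, s (t x) = t (s x) := by
    rintro s t h1 h2 _ ⟨d, v, rfl⟩
    rw [map_mul, map_mul, map_mul, map_mul, map_pow, map_pow, map_pow, map_pow, h1, h2]
  have hHH : ∀ η ∈ H, ∀ η' ∈ H, ∀ x ∈ M, η' (η x) = η (η' x) := by
    intro η hη η' hη'
    obtain ⟨i, hi⟩ := hHθ η hη
    obtain ⟨i', hi'⟩ := hHθ η' hη'
    refine hext η' η (fun d => by rw [hη, hη', hη]) ?_
    rw [hi, hi', map_mul, map_mul, hη', hη, hi, hi']
    ring
  have hGH : ∀ η ∈ H, ∀ x ∈ M, G (η x) = η (G x) := by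
    intro η hη
    obtain ⟨i, hi⟩ := hHθ η hη
    refine hext G η (fun d => by rw [hη, hG, hη]) ?_
    have h1 : η (ι (ζ ^ i0 * c)) = ι (ζ ^ i0 * c) := hη _
    rw [hi, hGθ, map_mul G, map_mul η, hG, hGθ, h1, map_pow η, hi, mul_pow, map_pow g, hw]
    simp only [map_mul, map_pow]
    ring
  rw [mem_abS]
  intro s t
  exact comm_all hM hdec hHH hGH s t θ ⟨1, 1, by simp⟩

end Pool.Agent.MP_1b9aaa_al
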