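import Pool.Agent.Lib.MP_1b9aaa_al.SyA

/-!
Symbol algebras: base change.
-/

set_option autoImplicit false

open scoped TensorProduct

namespace Pool.Agent.MP_1b9aaa_al

/-- `Ω ⊗_k (a,b)_ζ ≅ (f a, f b)_{f ζ}` for `f : k → Ω`. -/
theorem sy_bc {k : Type} [Field k] {n : ℕ} {ζ a b : k} {Ω : Type} [Field Ω] (f : k →+* Ω) :
    (letI := f.toAlgebra; cls Ω (Ω ⊗[k] SymAlg n ζ a b)) = cls Ω (SymAlg n (f ζ) (f a) (f b)) := by
  let _ := f.toAlgebra
  have hf : ∀ x : k, algebraMap k Ω x = f x := fun x => rfl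
  have hst : IsScalarTower k Ω (SymAlg n (f ζ) (f a) (f b)) := inferInstance
  have hc : ∀ x : k, algebraMap k (SymAlg n (f ζ) (f a) (f b)) x
      = algebraMap Ω (SymAlg n (f ζ) (f a) (f b)) (f x) := by
    intro x
    rw [IsScalarTower.algebraMap_apply k Ω, hf]
  let g : SymAlg n ζ a b →ₐ[k] SymAlg n (f ζ) (f a) (f b) :=
    SymAlg.lift (SymAlg.X n (f ζ) (f a) (f b)) (SymAlg.Y n (f ζ) (f a) (f b))
      (by rw [SymAlg.X_pow, hc]) (by rw [SymAlg.Y_pow, hc])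
      (by rw [SymAlg.X_mul_Y, Algebra.smul_def, Algebra.smul_def, hc])
  let φ : (Ω ⊗[k] SymAlg n ζ a b) →ₐ[Ω] SymAlg n (f ζ) (f a) (f b) :=
    Algebra.TensorProduct.lift (Algebra.ofId Ω _) g (fun x y => Algebra.commutes x (g y))
  let ψ : SymAlg n (f ζ) (f a) (f b) →ₐ[Ω] (Ω ⊗[k] SymAlg n ζ a b) :=
    SymAlg.lift (1 ⊗ₜ SymAlg.X n ζ a b) (1 ⊗ₜ SymAlg.Y n ζ a b)
      (by
        rw [Algebra.TensorProduct.tmul_pow, one_pow, SymAlg.X_pow, Algebra.algebraMap_eq_smul_one,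
          ← TensorProduct.smul_tmul, Algebra.smul_def, mul_one, hf]
        rfl)
      (by
        rw [Algebra.TensorProduct.tmul_pow, one_pow, SymAlg.Y_pow, Algebra.algebraMap_eq_smul_one,
          ← TensorProduct.smul_tmul, Algebra.smul_def, mul_one, hf]
        rfl)
      (by
        rw [Algebra.TensorProduct.tmul_mul_tmul, Algebra.TensorProduct.tmul_mul_tmul, one_mul,
          SymAlg.X_mul_Y, TensorProduct.tmul_smul]
        exact (algebraMap_smul Ω ζ _).symm)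
  have hφX : φ (1 ⊗ₜ SymAlg.X n ζ a b) = SymAlg.X n (f ζ) (f a) (f b) := by
    refine (Algebra.TensorProduct.lift_tmul _ _ _ _ _).trans ?_
    rw [map_one, one_mul]
    exact SymAlg.lift_X _ _ _ _ _
  have hφY : φ (1 ⊗ₜ SymAlg.Y n ζ a b) = SymAlg.Y n (f ζ) (f a) (f b) := by
    refine (Algebra.TensorProduct.lift_tmul _ _ _ _ _).trans ?_
    rw [map_one, one_mul]
    exact SymAlg.lift_Y _ _ _ _ _
  have h1 : φ.comp ψ = AlgHom.id Ω _ := by
    apply SymAlg.hom_ext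
    · simp [ψ, hφX]
    · simp [ψ, hφY]
  have h2 : ψ.comp φ = AlgHom.id Ω _ := by
    apply Algebra.TensorProduct.ext
    · ext
    · apply SymAlg.hom_ext
      · simp [ψ, hφX]
      · simp [ψ, hφY]
  exact cls_eq_of_equiv (AlgEquiv.ofAlgHom φ ψ h1 h2)

end Pool.Agent.MP_1b9aaa_al
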