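import Pool.Agent.Lib.MP_1b9aaa_al.SyC

/-!
Symbol algebras: the Steinberg relation.
-/

set_option autoImplicit false

open scoped TensorProduct

namespace Pool.Agent.MP_1b9aaa_al

variable {k : Type} [Field k] {n : ℕ} {ζ a b : k}

/-- the Gaussian binomial coefficients -/
private def gb (ζ : k) : ℕ → ℕ → k
  | 0, 0 => 1
  | 0, _ + 1 => 0
  | _ + 1, 0 => 1
  | m + 1, i + 1 => ζ ^ (i + 1) * gb ζ m (i + 1) + gb ζ m i

private theorem gb_zero_right (m : ℕ) : gb ζ m 0 = 1 := by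
  cases m <;> simp [gb]

private theorem gb_succ (m i : ℕ) :
    gb ζ (m + 1) (i + 1) = ζ ^ (i + 1) * gb ζ m (i + 1) + gb ζ m i := by
  simp [gb]

private theorem gb_of_lt (m : ℕ) : ∀ i, m < i → gb ζ m i = 0 := by
  induction m with
  | zero =>
    intro i hi
    obtain ⟨j, rfl⟩ : ∃ j, i = j + 1 := ⟨i - 1, by omega⟩
    simp [gb]
  | succ m ih =>
    intro i hi
    obtain ⟨j, rfl⟩ : ∃ j, i = j + 1 := ⟨i - 1, by omega⟩
    rw [gb_succ, ih _ (by omega), ih _ (by omega)]
    simp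

private theorem gb_self (m : ℕ) : gb ζ m m = 1 := by
  induction m with
  | zero => simp [gb]
  | succ m ih => rw [gb_succ, gb_of_lt m _ (by omega), ih]; simp

private theorem gb_key (m : ℕ) :
    (∀ i r, i + r = m → (1 - ζ ^ (i + 1)) * gb ζ (m + 1) (i + 1) = (1 - ζ ^ (m + 1)) * gb ζ m i) ∧
    (∀ j r, j + r = m + 1 → (1 - ζ ^ r) * gb ζ (m + 1) j = (1 - ζ ^ (m + 1)) * gb ζ m j) := by
  induction m with
  | zero =>
    refine ⟨?_, ?_⟩
    · intro i r h
      obtain rfl : i = 0 := by omega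
      simp [gb]
    · intro j r h
      rcases Nat.eq_zero_or_pos j with rfl | hj
      · obtain rfl : r = 1 := by omega
        simp [gb]
      · obtain rfl : j = 1 := by omega
        obtain rfl : r = 0 := by omega
        simp [gb]
  | succ m ih =>
    obtain ⟨hA, hB⟩ := ih
    have hA' : ∀ i r, i + r = m + 1 →
        (1 - ζ ^ (i + 1)) * gb ζ (m + 1) (i + 1) = (1 - ζ ^ (m + 1)) * gb ζ m i := by
      intro i r h
      rcases Nat.eq_zero_or_pos r with rfl | hr
      · obtain rfl : i = m + 1 := by omega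
        rw [gb_of_lt (m + 1) _ (by omega), gb_of_lt m _ (by omega)]
        simp
      · exact hA i (r - 1) (by omega)
    refine ⟨?_, ?_⟩
    · intro i r h
      have h1 := hA' i r h
      have h2 := hB i r h
      rw [gb_succ]
      have h3 : ζ ^ (m + 1 + 1) = ζ ^ (i + 1) * ζ ^ r := by
        rw [← pow_add]; congr 1; omega
      rw [h3]
      linear_combination ζ ^ (i + 1) * h1 - ζ ^ (i + 1) * h2
    · intro j r h
      rcases Nat.eq_zero_or_pos j with rfl | hj
      · obtain rfl : r = m + 1 + 1 := by omega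
        rw [gb_zero_right, gb_zero_right]
      · obtain ⟨i, rfl⟩ : ∃ i, j = i + 1 := ⟨j - 1, by omega⟩
        have h1 := hA' i r (by omega)
        have h2 := hB i r (by omega)
        rw [gb_succ]
        have h3 : ζ ^ (m + 1 + 1) = ζ ^ (i + 1) * ζ ^ r := by
          rw [← pow_add]; congr 1; omega
        rw [h3]
        linear_combination h2 - h1

private theorem x_mul_y_pow {A : Type} [Ring A] [Algebra k A] (x y : A)
    (h : x * y = ζ • (y * x)) (i : ℕ) : x * y ^ i = ζ ^ i • (y ^ i * x) := by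
  induction i with
  | zero => simp
  | succ i ih =>
    rw [pow_succ, ← mul_assoc, ih, smul_mul_assoc, mul_assoc, h, mul_smul_comm, smul_smul,
      ← pow_succ, ← mul_assoc, mul_assoc]

private theorem expand {A : Type} [Ring A] [Algebra k A] (x y : A)
    (h : x * y = ζ • (y * x)) (m : ℕ) :
    (x + y) ^ m = ∑ i ∈ Finset.range (m + 1), gb ζ m i • (y ^ i * x ^ (m - i)) := by
  induction m with
  | zero => simp [gb]
  | succ m ih =>
    rw [pow_succ', ih, add_mul, Finset.mul_sum, Finset.mul_sum]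
    rw [Finset.sum_range_succ' _ (m + 1)]
    have e1 : ∑ i ∈ Finset.range (m + 1), x * gb ζ m i • (y ^ i * x ^ (m - i))
        = ∑ i ∈ Finset.range (m + 2), (ζ ^ i * gb ζ m i) • (y ^ i * x ^ (m + 1 - i)) := by
      rw [Finset.sum_range_succ _ (m + 1), gb_of_lt m (m + 1) (by omega)]
      rw [mul_zero, zero_smul, add_zero]
      refine Finset.sum_congr rfl fun i hi => ?_
      rw [Finset.mem_range] at hi
      rw [mul_smul_comm, ← mul_assoc, x_mul_y_pow x y h, smul_mul_assoc, smul_smul, mul_assoc,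
        ← pow_succ', mul_comm (gb ζ m i)]
      congr 3
      omega
    rw [e1, Finset.sum_range_succ' _ (m + 1)]
    have e2 : ∑ i ∈ Finset.range (m + 1), y * gb ζ m i • (y ^ i * x ^ (m - i))
        = ∑ i ∈ Finset.range (m + 1), gb ζ m i • (y ^ (i + 1) * x ^ (m + 1 - (i + 1))) := by
      refine Finset.sum_congr rfl fun i hi => ?_
      rw [mul_smul_comm, ← mul_assoc, ← pow_succ']
      congr 3
      omega
    rw [e2]
    have e3 : ∑ i ∈ Finset.range (m + 1),
          gb ζ (m + 1) (i + 1) • (y ^ (i + 1) * x ^ (m + 1 - (i + 1)))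
        = ∑ i ∈ Finset.range (m + 1),
          (ζ ^ (i + 1) * gb ζ m (i + 1)) • (y ^ (i + 1) * x ^ (m + 1 - (i + 1)))
          + ∑ i ∈ Finset.range (m + 1), gb ζ m i • (y ^ (i + 1) * x ^ (m + 1 - (i + 1))) := by
      rw [← Finset.sum_add_distrib]
      refine Finset.sum_congr rfl fun i _ => ?_
      rw [gb_succ, add_smul]
    rw [e3, gb_zero_right, gb_zero_right]
    simp only [pow_zero, one_mul]
    abel

/-- `(x + y)^n = x^n + y^n` if `x y = ζ y x` with a primitive `n`-th root of unity `ζ`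
(the Gaussian binomial coefficients `[n choose i]_ζ` vanish for `0 < i < n`). -/
theorem add_pow_of_comm {A : Type} [Ring A] [Algebra k A] (hn : n ≠ 0)
    (hζ : IsPrimitiveRoot ζ n) (x y : A) (h : x * y = ζ • (y * x)) :
    (x + y) ^ n = x ^ n + y ^ n := by
  obtain ⟨m, rfl⟩ : ∃ m, n = m + 1 := ⟨n - 1, by omega⟩
  rw [expand x y h, Finset.sum_range_succ' _ (m + 1), Finset.sum_range_succ _ m]
  have h0 : ∑ i ∈ Finset.range m,
      gb ζ (m + 1) (i + 1) • (y ^ (i + 1) * x ^ (m + 1 - (i + 1))) = 0 := by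
    refine Finset.sum_eq_zero fun i hi => ?_
    rw [Finset.mem_range] at hi
    have h1 := (gb_key (ζ := ζ) m).1 i (m - i) (by omega)
    rw [hζ.pow_eq_one, sub_self, zero_mul] at h1
    have h2 : 1 - ζ ^ (i + 1) ≠ 0 := by
      intro h3
      have h4 : ζ ^ (i + 1) = 1 := (sub_eq_zero.1 h3).symm
      exact hζ.pow_ne_one_of_pos_of_lt (by omega) (by omega) h4
    rw [(mul_eq_zero.1 h1).resolve_left h2, zero_smul]
  rw [h0, gb_self, gb_zero_right]
  simp [add_comm]

/-- `(x y)^n = ζ^{-n(n-1)/2} x^n y^n = x^n y^n` for `n` odd. -/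
theorem mul_pow_of_comm {A : Type} [Ring A] [Algebra k A] (hn : Odd n)
    (hζ : ζ ^ n = 1) (x y : A) (h : x * y = ζ • (y * x)) :
    (x * y) ^ n = x ^ n * y ^ n := by
  have key : ∀ m : ℕ, ζ ^ (∑ i ∈ Finset.range m, i) • (x * y) ^ m = x ^ m * y ^ m := by
    intro m
    induction m with
    | zero => simp
    | succ m ih =>
      rw [Finset.sum_range_succ, pow_add, pow_succ (x * y), mul_comm (ζ ^ _), mul_smul,
        ← smul_mul_assoc, ih, mul_assoc, ← mul_assoc (y ^ m), ← mul_smul_comm,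
        ← smul_mul_assoc, ← x_mul_y_pow x y h, pow_succ, pow_succ]
      simp only [mul_assoc]
  have h1 := key n
  obtain ⟨r, hr⟩ := hn
  have h2 : ∑ i ∈ Finset.range n, i = n * r := by
    have h3 := Finset.sum_range_id_mul_two n
    have h4 : n - 1 = 2 * r := by omega
    rw [h4] at h3
    nlinarith
  rw [h2, pow_mul, hζ, one_pow, one_smul] at h1
  exact h1

private theorem steinberg_aux {S : Type} [Ring S] [Algebra k S] (hn : Odd n)
    (hζ : IsPrimitiveRoot ζ n) (ha : a ≠ 0) (x y : S)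
    (hxn : x ^ n = algebraMap k S a) (hyn : y ^ n = algebraMap k S (1 - a))
    (hxy : x * y = ζ • (y * x)) :
    ∃ w z : S, w ^ n = algebraMap k S 1 ∧ z ^ n = algebraMap k S (a⁻¹ * (1 - a)) ∧
      w * z = ζ • (z * w) ∧ ∀ R : Subalgebra k S, w ∈ R → z ∈ R → x ∈ R ∧ y ∈ R := by
  have hn0 : n ≠ 0 := by rcases hn with ⟨r, rfl⟩; omega
  have hζ1 : ζ ^ n = 1 := hζ.pow_eq_one
  obtain ⟨m, hm⟩ : ∃ m, n = m + 1 := ⟨n - 1, by omega⟩
  set xi : S := a⁻¹ • x ^ m with hxi
  have h1 : x * xi = 1 := by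
    rw [hxi, mul_smul_comm, ← pow_succ', ← hm, hxn, Algebra.algebraMap_eq_smul_one, smul_smul,
      inv_mul_cancel₀ ha, one_smul]
  have h2 : xi * x = 1 := by
    rw [hxi, smul_mul_assoc, ← pow_succ, ← hm, hxn, Algebra.algebraMap_eq_smul_one, smul_smul,
      inv_mul_cancel₀ ha, one_smul]
  set z : S := xi * y with hz
  have hxz : x * z = y := by rw [hz, ← mul_assoc, h1, one_mul]
  have hzx : x * z = ζ • (z * x) := by
    rw [hxz, hz, mul_assoc, ← mul_smul_comm, ← hxy, ← mul_assoc, h2, one_mul]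
  have hyz : y * z = ζ • (z * y) := by
    calc y * z = x * z * z := by rw [hxz]
      _ = ζ • (z * x) * z := by rw [hzx]
      _ = ζ • (z * (x * z)) := by rw [smul_mul_assoc, mul_assoc]
      _ = ζ • (z * y) := by rw [hxz]
  have hwz : (x + y) * z = ζ • (z * (x + y)) := by
    rw [add_mul, mul_add, smul_add, ← hzx, ← hyz]
  have hwn : (x + y) ^ n = algebraMap k S 1 := by
    rw [add_pow_of_comm hn0 hζ x y hxy, hxn, hyn, ← map_add]
    congr 1
    ring
  have hzn : z ^ n = algebraMap k S (a⁻¹ * (1 - a)) := by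
    have h3 := mul_pow_of_comm hn hζ1 x z hzx
    rw [hxz, hyn, hxn] at h3
    rw [map_mul, h3, ← mul_assoc, ← map_mul, inv_mul_cancel₀ ha, map_one, one_mul]
  refine ⟨x + y, z, hwn, hzn, hwz, ?_⟩
  intro R hwmem hzmem
  have hgeom : (1 + z) * ∑ i ∈ Finset.range n, (-z) ^ i = algebraMap k S a⁻¹ := by
    have h3 := mul_geom_sum (-z) n
    have h4 : (-z) ^ n = - algebraMap k S (a⁻¹ * (1 - a)) := by rw [hn.neg_pow, hzn]
    have h5 : (1 + z) * ∑ i ∈ Finset.range n, (-z) ^ i
        = -((-z - 1) * ∑ i ∈ Finset.range n, (-z) ^ i) := by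
      have h6 : 1 + z = -(-z - 1) := by rw [neg_sub, sub_neg_eq_add]
      rw [h6]
      exact neg_mul (-z - 1) _
    rw [h5, h3, h4]
    have h6 : -(-(algebraMap k S (a⁻¹ * (1 - a))) - 1)
        = algebraMap k S (a⁻¹ * (1 - a) + 1) := by
      rw [map_add, map_one]; abel
    rw [h6]
    congr 1
    field_simp
    ring
  have hxmem : x ∈ R := by
    have h3 : x = a • ((x + y) * ∑ i ∈ Finset.range n, (-z) ^ i) := by
      have h4 : x + y = x * (1 + z) := by rw [mul_add, mul_one, hxz]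
      rw [h4, mul_assoc, hgeom, Algebra.algebraMap_eq_smul_one, mul_smul_comm, mul_one, smul_smul,
        mul_inv_cancel₀ ha, one_smul]
    rw [h3]
    exact Subalgebra.smul_mem _ (mul_mem hwmem (sum_mem fun i _ => pow_mem (neg_mem hzmem) i)) a
  refine ⟨hxmem, ?_⟩
  rw [← hxz]
  exact mul_mem hxmem hzmem

private theorem symAlg_gen (R : Subalgebra k (SymAlg n ζ a b)) (hX : SymAlg.X n ζ a b ∈ R)
    (hY : SymAlg.Y n ζ a b ∈ R) (t : SymAlg n ζ a b) : t ∈ R := by
  obtain ⟨f, rfl⟩ := RingQuot.mkAlgHom_surjective k (SymRel n ζ a b) t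
  induction f using FreeAlgebra.induction with
  | grade0 r => rw [AlgHom.commutes]; exact R.algebraMap_mem r
  | grade1 i =>
    fin_cases i
    · exact hX
    · exact hY
  | mul f g hf hg => rw [map_mul]; exact mul_mem hf hg
  | add f g hf hg => rw [map_add]; exact add_mem hf hg

/-- The Steinberg relation: `(a, 1 - a) ∼ 1`.  PROOF: let `b = 1 - a`, `z = x⁻¹ y`
(`x⁻¹ = a⁻¹ x^{n-1}`), `w = x + y`; then `w z = ζ z w`, `w^n = a + b = 1`, `z^n = a⁻¹ b`,
so there is a homomorphism `(1, a⁻¹ b) → (a, b)`, `X ↦ w`, `Y ↦ z`. It is surjective: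
`w = x (1 + z)` and `(1 + z) ∑_{i < n} (-z)^i = 1 + z^n = a⁻¹`, so `x` and `y = x z` are in the
image. It is injective as `(1, a⁻¹ b) ≅ M_n(k)` is simple and the target is not zero. -/
theorem sy_steinberg (hn : Odd n) (hζ : IsPrimitiveRoot ζ n) (ha : a ≠ 0) (ha1 : a ≠ 1) :
    cls k (SymAlg n ζ a (1 - a)) = 1 := by
  have hn0 : n ≠ 0 := by rcases hn with ⟨r, rfl⟩; omega
  have hb : (1 : k) - a ≠ 0 := sub_ne_zero.2 (Ne.symm ha1)
  obtain ⟨w, z, hwn, hzn, hwz, hgen⟩ := steinberg_aux hn hζ ha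
    (SymAlg.X n ζ a (1 - a)) (SymAlg.Y n ζ a (1 - a)) SymAlg.X_pow SymAlg.Y_pow SymAlg.X_mul_Y
  have hc0 : a⁻¹ * (1 - a) ≠ 0 := mul_ne_zero (inv_ne_zero ha) hb
  generalize a⁻¹ * (1 - a) = c at hzn hc0
  let φ : SymAlg n ζ 1 c →ₐ[k] SymAlg n ζ a (1 - a) := SymAlg.lift w z hwn hzn hwz
  have hφX : φ (SymAlg.X n ζ 1 c) = w := SymAlg.lift_X _ _ hwn hzn hwz
  have hφY : φ (SymAlg.Y n ζ 1 c) = z := SymAlg.lift_Y _ _ hwn hzn hwz
  have hsurj : Function.Surjective φ := by
    intro t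
    obtain ⟨hx, hy⟩ := hgen φ.range ⟨_, hφX⟩ ⟨_, hφY⟩
    exact symAlg_gen φ.range hx hy t
  have hinj : Function.Injective φ := by
    obtain ⟨e⟩ := SymAlg.equiv_matrix hn0 hζ hc0
    have : Nontrivial (SymAlg n ζ a (1 - a)) := SymAlg.nontriv hn0 hζ
    have : Nonempty (Fin n) := ⟨⟨0, by omega⟩⟩
    let f : Matrix (Fin n) (Fin n) k →+* SymAlg n ζ a (1 - a) :=
      (φ.comp e.symm.toAlgHom).toRingHom
    have hf : Function.Injective f := f.injective
    intro s t hst
    have : f (e s) = f (e t) := by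
      change φ (e.symm (e s)) = φ (e.symm (e t))
      rw [e.symm_apply_apply, e.symm_apply_apply, hst]
    exact e.injective (hf this)
  have e := AlgEquiv.ofBijective φ ⟨hinj, hsurj⟩
  rw [← cls_eq_of_equiv e]
  exact sy_one hn0 hζ hc0

end Pool.Agent.MP_1b9aaa_al
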