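import Pool.Agent.Lib.MP_1b9aaa_al.SyB
import Pool.Agent.Lib.MP_1b9aaa_al.SyD

/-!
The classes of symbol algebras: bimultiplicativity, torsion.
-/

set_option autoImplicit false

open scoped TensorProduct

namespace Pool.Agent.MP_1b9aaa_al

variable {k : Type} [Field k] {n : ℕ} {ζ a b b' : k}

/-- The Brauer class of the symbol algebra `(a,b)_ζ`. -/
noncomputable def sy (n : ℕ) (ζ a b : k) : BrM k := cls k (SymAlg n ζ a b)

theorem sy_mul_right (hn : n ≠ 0) (hζ : IsPrimitiveRoot ζ n) (ha : a ≠ 0) (hb : b ≠ 0)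
    (hb' : b' ≠ 0) : sy n ζ a (b * b') = sy n ζ a b * sy n ζ a b' := by
  rw [sy, sy, sy, sy_mul_aux hn hζ.pow_eq_one ha hb hb', sy_one hn hζ hb', mul_one]

theorem sy_mul_left (hn : n ≠ 0) (hζ : IsPrimitiveRoot ζ n) {a' : k} (ha : a ≠ 0) (ha' : a' ≠ 0)
    (hb : b ≠ 0) : sy n ζ (a * a') b = sy n ζ a b * sy n ζ a' b := by
  have h0 : ζ ≠ 0 := hζ.ne_zero hn
  have hζ' : IsPrimitiveRoot ζ⁻¹ n := hζ.inv
  rw [sy, sy, sy, sy_swap h0, sy_swap h0 (a := a), sy_swap h0 (a := a')]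
  exact sy_mul_right hn hζ' hb ha ha'

theorem sy_pow_left (hn : n ≠ 0) (hζ : IsPrimitiveRoot ζ n) (ha : a ≠ 0) (hb : b ≠ 0) (m : ℕ) :
    sy n ζ (a ^ m) b = sy n ζ a b ^ m := by
  induction m with
  | zero => rw [pow_zero, pow_zero, sy, sy_one hn hζ hb]
  | succ m ih => rw [pow_succ, pow_succ, sy_mul_left hn hζ (pow_ne_zero m ha) ha hb, ih]

theorem sy_nth (hn : n ≠ 0) (hζ : IsPrimitiveRoot ζ n) {c : k} (hc : c ≠ 0) (hb : b ≠ 0) :
    sy n ζ (c ^ n) b = 1 := by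
  have h := sy_scale (n := n) (ζ := ζ) (a := 1) (b := b) hc
  rw [mul_one, sy_one hn hζ hb] at h
  exact h

theorem sy_tors (hn : n ≠ 0) (hζ : IsPrimitiveRoot ζ n) (ha : a ≠ 0) (hb : b ≠ 0) :
    sy n ζ a b ^ n = 1 := by
  rw [← sy_pow_left hn hζ ha hb, sy_nth hn hζ ha hb]

/-- `(a,b)_{ζ^w} = w'(a,b)_ζ` if `w w' = 1 + n j`. -/
theorem sy_root (hn : n ≠ 0) (hζ : IsPrimitiveRoot ζ n) {w w' j : ℕ} (h : w * w' = 1 + n * j)
    (ha : a ≠ 0) (hb : b ≠ 0) : sy n (ζ ^ w) a b = sy n ζ a b ^ w' := by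
  have hw : w.Coprime n := by
    have h1 : Nat.Coprime (w * w') n := by
      rw [h]
      simp
    exact Nat.Coprime.coprime_mul_right h1
  have hζw : IsPrimitiveRoot (ζ ^ w) n := hζ.pow_of_coprime w hw
  have h1 : sy n (ζ ^ w) a b ^ w = sy n ζ a b := by
    rw [← sy_pow_left hn hζw ha hb]
    exact sy_pow_iso hζ.pow_eq_one h ha
  rw [← h1, ← pow_mul, h, pow_add, pow_one, pow_mul, sy_tors hn hζw ha hb, one_pow, mul_one]

theorem sy_st (hn : Odd n) (hζ : IsPrimitiveRoot ζ n) (ha : a ≠ 0) (ha1 : a ≠ 1) :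
    sy n ζ a (1 - a) = 1 := sy_steinberg hn hζ ha ha1

end Pool.Agent.MP_1b9aaa_al
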