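import Pool.Agent.Lib.MP_1b9aaa_al.St3
import Pool.Agent.Lib.MP_1b9aaa_al.SyF
import Pool.Agent.Lib.MP_1b9aaa_al.SyE
import Pool.Agent.Lib.MP_1b9aaa_al.KuB
import Pool.Agent.Lib.MP_1b9aaa_al.DeA
import Pool.Agent.Lib.MP_1b9aaa_al.DeB

/-!
Abelian splitting fields, quartic case.
-/

set_option autoImplicit false

open scoped TensorProduct

namespace Pool.Agent.MP_1b9aaa_al

/-- The submonoid of the classes of tensor products of symbol algebras. -/
noncomputable def symClasses (k : Type) [Field k] (n : ℕ) (ζ : k) : Submonoid (BrM k) :=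
  Submonoid.closure {c | ∃ a b : k, a ≠ 0 ∧ b ≠ 0 ∧ c = cls k (SymAlg n ζ a b)}

section Abstract

variable {K Ω : Type} [Field K] [Field Ω] {n : ℕ} {ζ : K} {w j : ℕ}

/-- the embeddings `ι ∘ g^i` -/
def emb (ι : K →+* Ω) (g : K ≃+* K) : ℕ → (K →+* Ω)
  | 0 => ι
  | (i + 1) => (emb ι g i).comp (g : K →+* K)

theorem emb_root (ι : K →+* Ω) (g : K ≃+* K) (hw : g ζ = ζ ^ w) (i : ℕ) :
    emb ι g i ζ = (ι ζ) ^ (w ^ i) := by
  induction i with
  | zero => rw [pow_zero, pow_one]; rfl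
  | succ i ih =>
    show emb ι g i (g ζ) = _
    rw [hw, map_pow, ih, ← pow_mul, pow_succ]

theorem emb_fix (ι : K →+* Ω) (g : K ≃+* K) {f : K} (hf : g f = f) (i : ℕ) :
    emb ι g i f = ι f := by
  induction i with
  | zero => rfl
  | succ i ih =>
    show emb ι g i (g f) = _
    rw [hf, ih]

/-- The key statement: if the eigenvectors `κ (g κ)^{w^3} …` become `n`-th powers in `Ω`, then the
product of the four base changes of every class of symbol algebras is trivial. -/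
theorem key (hn : Odd n) (hζ : IsPrimitiveRoot ζ n) (ι : K →+* Ω) (g : K ≃+* K)
    (h4 : ∀ x, g (g (g (g x))) = x) (hw : g ζ = ζ ^ w) (hj : w ^ 4 = 1 + n * j)
    (hΩ : ∀ κ : K, κ ≠ 0 → ∃ θ : Ω, θ ^ n =
      ι (κ ^ (w ^ 4) * g κ ^ (w ^ 3) * g (g κ) ^ (w ^ 2) * g (g (g κ)) ^ w))
    (β : ℕ → BrM K →* BrM Ω)
    (hβ : ∀ i a b, β i (sy n ζ a b) = sy n (emb ι g i ζ) (emb ι g i a) (emb ι g i b))
    {a b : K} (ha : a ≠ 0) (hb : b ≠ 0) :
    β 0 (sy n ζ a b) * β 1 (sy n ζ a b) * β 2 (sy n ζ a b) * β 3 (sy n ζ a b) = 1 := by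
  have hn0 : n ≠ 0 := by rintro rfl; exact absurd hn (by decide)
  set P : BrM K →* BrM Ω := β 0 * β 1 * β 2 * β 3 with hP
  have hP1 : ∀ x, P x = β 0 x * β 1 x * β 2 x * β 3 x := fun x => rfl
  rw [← hP1]
  have htors : ∀ a b : K, a ≠ 0 → b ≠ 0 → P (sy n ζ a b) ^ n = 1 := by
    intro a b ha hb
    rw [← map_pow, sy_tors hn0 hζ ha hb, map_one]
  classical
  set c : K → K → Additive (BrM Ω)ˣ := fun a b =>
    if h : a ≠ 0 ∧ b ≠ 0 then
      Additive.ofMul (Units.ofPowEqOne (P (sy n ζ a b)) n (htors a b h.1 h.2) hn0)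
    else 0 with hc
  have hcv : ∀ a b : K, a ≠ 0 → b ≠ 0 →
      ((Additive.toMul (c a b) : (BrM Ω)ˣ) : BrM Ω) = P (sy n ζ a b) := by
    intro a b ha hb
    simp only [hc]
    rw [dif_pos ⟨ha, hb⟩]
    rfl
  have hext : ∀ s t : Additive (BrM Ω)ˣ,
      ((Additive.toMul s : (BrM Ω)ˣ) : BrM Ω) = ((Additive.toMul t : (BrM Ω)ˣ) : BrM Ω) →
      s = t := by
    intro s t h
    exact Additive.toMul.injective (Units.ext h)
  have hG : Good g c := by
    refine ⟨⟨?_, ?_, ?_⟩, ?_⟩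
    · intro a b x ha hb hx
      apply hext
      rw [hcv _ _ (mul_ne_zero ha hb) hx, toMul_add, Units.val_mul, hcv _ _ ha hx, hcv _ _ hb hx,
        sy_mul_left hn0 hζ ha hb hx, map_mul]
    · intro x a b hx ha hb
      apply hext
      rw [hcv _ _ hx (mul_ne_zero ha hb), toMul_add, Units.val_mul, hcv _ _ hx ha, hcv _ _ hx hb,
        sy_mul_right hn0 hζ hx ha hb, map_mul]
    · intro a ha h1
      apply hext
      rw [hcv _ _ ha (sub_ne_zero.mpr (Ne.symm h1)), sy_st hn hζ ha h1, map_one]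
      rfl
    · intro x hx f hf hf0
      have hf' : g f = f := hf
      apply hext
      rw [hcv _ _ hx hf0, hP1, hβ, hβ, hβ, hβ, emb_fix ι g hf', emb_fix ι g hf',
        emb_fix ι g hf', emb_fix ι g hf', emb_root ι g hw, emb_root ι g hw, emb_root ι g hw,
        emb_root ι g hw]
      have hζΩ : IsPrimitiveRoot (ι ζ) n := hζ.map_of_injective ι.injective
      have hιf : ι f ≠ 0 := (map_ne_zero ι).mpr hf0
      have hgx : g x ≠ 0 := (map_ne_zero_iff g g.injective).mpr hx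
      have hggx : g (g x) ≠ 0 := (map_ne_zero_iff g g.injective).mpr hgx
      have hgggx : g (g (g x)) ≠ 0 := (map_ne_zero_iff g g.injective).mpr hggx
      have e0 : emb ι g 0 x = ι x := rfl
      have e1 : emb ι g 1 x = ι (g x) := rfl
      have e2 : emb ι g 2 x = ι (g (g x)) := rfl
      have e3 : emb ι g 3 x = ι (g (g (g x))) := rfl
      have i0 : ι x ≠ 0 := (map_ne_zero ι).mpr hx
      have i1 : ι (g x) ≠ 0 := (map_ne_zero ι).mpr hgx
      have i2 : ι (g (g x)) ≠ 0 := (map_ne_zero ι).mpr hggx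
      have i3 : ι (g (g (g x))) ≠ 0 := (map_ne_zero ι).mpr hgggx
      rw [e0, e1, e2, e3,
        sy_root hn0 hζΩ (w := w ^ 0) (w' := w ^ 4) (j := j) (by rw [← pow_add, ← hj]) i0 hιf,
        sy_root hn0 hζΩ (w := w ^ 1) (w' := w ^ 3) (j := j) (by rw [← pow_add, ← hj]) i1 hιf,
        sy_root hn0 hζΩ (w := w ^ 2) (w' := w ^ 2) (j := j) (by rw [← pow_add, ← hj]) i2 hιf,
        sy_root hn0 hζΩ (w := w ^ 3) (w' := w) (j := j) (by rw [← pow_succ, ← hj]) i3 hιf,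
        ← sy_pow_left hn0 hζΩ i0 hιf, ← sy_pow_left hn0 hζΩ i1 hιf,
        ← sy_pow_left hn0 hζΩ i2 hιf, ← sy_pow_left hn0 hζΩ i3 hιf,
        ← sy_mul_left hn0 hζΩ (pow_ne_zero _ i0) (pow_ne_zero _ i1) hιf,
        ← sy_mul_left hn0 hζΩ (mul_ne_zero (pow_ne_zero _ i0) (pow_ne_zero _ i1))
          (pow_ne_zero _ i2) hιf,
        ← sy_mul_left hn0 hζΩ (mul_ne_zero (mul_ne_zero (pow_ne_zero _ i0) (pow_ne_zero _ i1))
          (pow_ne_zero _ i2)) (pow_ne_zero _ i3) hιf]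
      obtain ⟨θ, hθ⟩ := hΩ x hx
      have hθ0 : θ ≠ 0 := by
        rintro rfl
        rw [zero_pow hn0] at hθ
        have h0 : ι (x ^ w ^ 4 * g x ^ w ^ 3 * g (g x) ^ w ^ 2 * g (g (g x)) ^ w) ≠ 0 :=
          (map_ne_zero ι).mpr (mul_ne_zero (mul_ne_zero (mul_ne_zero (pow_ne_zero _ hx)
            (pow_ne_zero _ hgx)) (pow_ne_zero _ hggx)) (pow_ne_zero _ hgggx))
        exact h0 hθ.symm
      rw [map_mul, map_mul, map_mul, map_pow, map_pow, map_pow, map_pow] at hθ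
      rw [← hθ, sy_nth hn0 hζΩ hθ0 hιf]
      rfl
  have hcn : ∀ u v, n • c u v = 0 := by
    intro u v
    by_cases h : u ≠ 0 ∧ v ≠ 0
    · apply hext
      rw [toMul_nsmul, Units.val_pow_eq_pow_val, hcv _ _ h.1 h.2, htors _ _ h.1 h.2]
      rfl
    · simp only [hc]
      rw [dif_neg h, smul_zero]
  have h0 := hG.eq_zero_of_odd h4 hn hcn ha hb
  rw [← hcv a b ha hb, h0]
  rfl

end Abstract

/-- `Ω ⊗_K (K ⊗_F A) ≅ Ω ⊗_F A`. -/
theorem bc_tower {F K Ω : Type} [Field F] [Field K] [Field Ω] [Algebra F K] [Algebra F Ω]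
    (f : K →+* Ω) (hf : ∀ x : F, f (algebraMap F K x) = algebraMap F Ω x)
    (A : Type) [Ring A] [Algebra F A] :
    (letI := f.toAlgebra; cls Ω (Ω ⊗[K] (K ⊗[F] A))) = cls Ω (Ω ⊗[F] A) := by
  let _ := f.toAlgebra
  have : IsScalarTower F K Ω := IsScalarTower.of_algebraMap_eq (fun x => (hf x).symm)
  exact cls_eq_of_equiv (AlgEquiv.symm <| AlgEquiv.ofLinearEquiv
    (TensorProduct.AlgebraTensorModule.cancelBaseChange F K Ω Ω A).symm
    (by simp [Algebra.TensorProduct.one_def]) <|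
      LinearMap.map_mul_of_map_mul_tmul (fun _ _ _ _ ↦ by simp))

/-- **Theorem.** Let `n` be odd, `K / F` a cyclic Galois extension of degree dividing 4 which
contains a primitive `n`-th root of unity `ζ`, and `A` a finite-dimensional `F`-algebra such that
the Brauer class of `K ⊗ A` is a product of classes of symbol algebras `(a,b)_ζ` of degree `n`.
Then `A` is split by a finite abelian extension of `F`. -/
theorem abelian_splitting (F : Type) [Field F] {n : ℕ} (hn : Odd n) (K : Type) [Field K]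
    [Algebra F K] [FiniteDimensional F K] [IsGalois F K] [IsCyclic (K ≃ₐ[F] K)]
    (h4 : Module.finrank F K ∣ 4) {ζ : K} (hζ : IsPrimitiveRoot ζ n) (A : Type) [Ring A]
    [Algebra F A] [FiniteDimensional F A] (hA : cls K (K ⊗[F] A) ∈ symClasses K n ζ) :
    ∃ (L : Type) (_ : Field L) (_ : Algebra F L),
      FiniteDimensional F L ∧ IsGalois F L ∧ (∀ σ τ : L ≃ₐ[F] L, σ * τ = τ * σ) ∧
      ∃ r : ℕ, Nonempty ((L ⊗[F] A) ≃ₐ[L] Matrix (Fin r) (Fin r) L) := by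
  have hn0 : n ≠ 0 := by rintro rfl; exact absurd hn (by decide)
  have : NeZero n := ⟨hn0⟩
  obtain ⟨γ, hγ⟩ := IsCyclic.exists_generator (α := K ≃ₐ[F] K)
  have hγ4 : γ ^ 4 = 1 := by
    have h1 : γ ^ Nat.card (K ≃ₐ[F] K) = 1 := pow_card_eq_one'
    rw [IsGalois.card_aut_eq_finrank] at h1
    obtain ⟨d, hd⟩ := h4
    rw [hd, pow_mul, h1, one_pow]
  have hγ4' : ∀ x : K, γ (γ (γ (γ x))) = x := by
    intro x
    have h := congrArg (fun s : K ≃ₐ[F] K => s x) hγ4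
    exact h
  have hγ' : ∀ σ : K ≃ₐ[F] K, ∃ a : ℕ, σ = γ ^ a := by
    intro σ
    obtain ⟨z, hz⟩ := Subgroup.mem_zpowers_iff.mp (hγ σ)
    refine ⟨(z % 4).toNat, ?_⟩
    rw [← hz]
    have h1 : z = 4 * (z / 4) + z % 4 := (Int.mul_ediv_add_emod z 4).symm
    have h2 : γ ^ z = γ ^ (z % 4) := by
      conv_lhs => rw [h1]
      rw [zpow_add, zpow_mul]
      have : γ ^ (4 : ℤ) = 1 := by exact_mod_cast hγ4
      rw [this, one_zpow, one_mul]
    rw [h2, ← zpow_natCast, Int.toNat_of_nonneg (Int.emod_nonneg z (by norm_num))]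
  have hab : ∀ σ τ : K ≃ₐ[F] K, σ * τ = τ * σ := by
    intro σ τ
    obtain ⟨a, rfl⟩ := hγ' σ
    obtain ⟨b, rfl⟩ := hγ' τ
    rw [← pow_add, ← pow_add, add_comm]
  -- the cyclotomic exponent
  obtain ⟨i, -, hi⟩ := hζ.eq_pow_of_pow_eq_one (ξ := γ ζ)
    (by rw [← map_pow, hζ.pow_eq_one, map_one])
  set w : ℕ := i + n with hw
  have hγζ : γ ζ = ζ ^ w := by rw [hw, pow_add, hζ.pow_eq_one, mul_one, hi]
  have hw1 : 1 ≤ w := by omega
  have hj : ∃ j : ℕ, w ^ 4 = 1 + n * j := by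
    have h1 : ζ ^ (w ^ 4) = ζ := by
      have h := hγ4' ζ
      have c1 : ∀ m : ℕ, γ (ζ ^ m) = ζ ^ (w * m) := by
        intro m
        rw [map_pow, hγζ, ← pow_mul]
      rw [hγζ, c1, c1, c1] at h
      rw [show w ^ 4 = w * (w * (w * w)) by ring]
      exact h
    have h2 : 1 ≤ w ^ 4 := Nat.one_le_pow _ _ hw1
    have h3 : ζ ^ (w ^ 4 - 1) = 1 := by
      have h4 : ζ ^ (w ^ 4 - 1) * ζ = ζ := by
        rw [← pow_succ, Nat.sub_add_cancel h2, h1]
      have hζ0 : ζ ≠ 0 := hζ.ne_zero hn0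
      exact mul_right_cancel₀ hζ0 (by rw [h4, one_mul])
    obtain ⟨j, hj⟩ := hζ.dvd_of_pow_eq_one _ h3
    exact ⟨j, by omega⟩
  obtain ⟨j, hj⟩ := hj
  -- the abelian closure
  let E := SeparableClosure F
  let ι0 : K →ₐ[F] E := IsSepClosed.lift
  let ι : K →ₐ[F] (abS F E) := ι0.codRestrict (abS F E).toSubalgebra
    (fun x => range_abS hab ι0 x)
  have hι : ∀ x, ((ι x : abS F E) : E) = ι0 x := fun x => rfl
  let g : K ≃+* K := γ
  have hΩ : ∀ κ : K, κ ≠ 0 → ∃ θ : abS F E, θ ^ n =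
      (ι : K →+* abS F E) (κ ^ (w ^ 4) * g κ ^ (w ^ 3) * g (g κ) ^ (w ^ 2) * g (g (g κ)) ^ w) := by
    intro κ hκ
    have hζE : IsPrimitiveRoot (ι0 ζ) n := hζ.map_of_injective ι0.injective
    have : NeZero (n : E) := hζE.neZero'
    set κ' : K := κ ^ (w ^ 4) * γ κ ^ (w ^ 3) * γ (γ κ) ^ (w ^ 2) * γ (γ (γ κ)) ^ w with hκ'
    obtain ⟨θ, hθ⟩ := IsSepClosed.exists_pow_nat_eq (ι0 κ') n
    have h1 : γ κ ≠ 0 := (map_ne_zero γ).mpr hκ
    have h2 : γ (γ κ) ≠ 0 := (map_ne_zero γ).mpr h1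
    have h3 : γ (γ (γ κ)) ≠ 0 := (map_ne_zero γ).mpr h2
    have hκ0 : κ' ≠ 0 := mul_ne_zero (mul_ne_zero (mul_ne_zero (pow_ne_zero _ hκ)
      (pow_ne_zero _ h1)) (pow_ne_zero _ h2)) (pow_ne_zero _ h3)
    have hrel : γ κ' = κ' ^ w * ((κ ^ (w * j))⁻¹) ^ n := by
      have e1 : γ κ' = γ κ ^ (w ^ 4) * γ (γ κ) ^ (w ^ 3) * γ (γ (γ κ)) ^ (w ^ 2) * κ ^ w := by
        rw [hκ', map_mul, map_mul, map_mul, map_pow, map_pow, map_pow, map_pow, hγ4']
      have e2 : κ' ^ w = (κ ^ w * (κ ^ (w * j)) ^ n) * γ κ ^ (w ^ 4) * γ (γ κ) ^ (w ^ 3) *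
          γ (γ (γ κ)) ^ (w ^ 2) := by
        have e3 : κ ^ w * (κ ^ (w * j)) ^ n = (κ ^ (w ^ 4)) ^ w := by
          rw [← pow_mul, ← pow_add, ← pow_mul, hj]
          congr 1
          ring
        rw [e3, hκ', mul_pow, mul_pow, mul_pow]
        ring
      have hne : (κ ^ (w * j)) ^ n ≠ 0 := pow_ne_zero _ (pow_ne_zero _ hκ)
      rw [e1, e2, inv_pow]
      field_simp
    have hθΩ : θ ∈ abS F E := kummer_abS γ hγ' ι0 hn0 hζ hγζ hκ0 hrel hθ
    exact ⟨⟨θ, hθΩ⟩, Subtype.ext hθ⟩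
  choose β hβ using fun i : ℕ => exists_bcM (emb (ι : K →+* abS F E) g i)
  have hβs : ∀ i a b, β i (sy n ζ a b) = sy n (emb (ι : K →+* abS F E) g i ζ)
      (emb (ι : K →+* abS F E) g i a) (emb (ι : K →+* abS F E) g i b) := by
    intro i a b
    rw [sy, hβ]
    exact sy_bc _
  have hkey := fun {a b : K} (ha : a ≠ 0) (hb : b ≠ 0) =>
    key hn hζ (ι : K →+* abS F E) g hγ4' hγζ hj hΩ β hβs ha hb
  -- on all classes of symbol algebras
  have hall : ∀ x ∈ symClasses K n ζ, β 0 x * β 1 x * β 2 x * β 3 x = 1 ∧ x ^ n = 1 := by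
    intro x hx
    induction hx using Submonoid.closure_induction with
    | mem x h =>
      obtain ⟨a, b, ha, hb, rfl⟩ := h
      exact ⟨hkey ha hb, sy_tors hn0 hζ ha hb⟩
    | one => simp
    | mul x y _ _ hx hy =>
      refine ⟨?_, by rw [mul_pow, hx.2, hy.2, one_mul]⟩
      rw [map_mul, map_mul, map_mul, map_mul]
      rw [mul_mul_mul_comm (β 0 x) (β 0 y) (β 1 x) (β 1 y),
        mul_mul_mul_comm (β 0 x * β 1 x) (β 0 y * β 1 y) (β 2 x) (β 2 y),
        mul_mul_mul_comm (β 0 x * β 1 x * β 2 x) (β 0 y * β 1 y * β 2 y) (β 3 x) (β 3 y),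
        hx.1, hy.1, one_mul]
  obtain ⟨hx1, hx2⟩ := hall _ hA
  have hbase : ∀ i, β i (cls K (K ⊗[F] A)) = cls (abS F E) ((abS F E) ⊗[F] A) := by
    intro i
    rw [hβ]
    refine bc_tower _ ?_ A
    intro x
    have hgx : g (algebraMap F K x) = algebraMap F K x := γ.commutes x
    rw [emb_fix _ g hgx]
    exact ι.commutes x
  rw [hbase, hbase, hbase, hbase] at hx1
  set α : BrM (abS F E) := cls (abS F E) ((abS F E) ⊗[F] A) with hα
  have hα4 : α ^ 4 = 1 := by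
    rw [← hx1]; simp only [pow_succ, pow_zero, one_mul]
  have hαn : α ^ n = 1 := by
    rw [← hbase 0, ← map_pow, hx2, map_one]
  have hα1 : α = 1 := by
    have h1 := orderOf_dvd_of_pow_eq_one hα4
    have h2 := orderOf_dvd_of_pow_eq_one hαn
    have h3 : Nat.Coprime 4 n := by
      have : Nat.Coprime 2 n := (Nat.coprime_two_left).mpr hn
      exact Nat.Coprime.pow_left 2 this
    have h4 : orderOf α = 1 := Nat.eq_one_of_dvd_coprimes h3 h1 h2
    exact orderOf_eq_one_iff.mp h4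
  obtain ⟨m, r, hm, hr, ⟨e⟩⟩ := Quotient.exact (s := alSetoid (abS F E)) hα1
  obtain ⟨r', ⟨e'⟩⟩ := matrix_of_matrix hm hr e
  obtain ⟨L, hL, hLf, ⟨e''⟩⟩ := descent (abS F E) e'
  obtain ⟨hG, hc⟩ := abS_sub L hL
  exact ⟨L, inferInstance, inferInstance, hLf, hG, hc, r', ⟨e''⟩⟩

end Pool.Agent.MP_1b9aaa_al
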