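import Pool.Agent.Lib.MP_1b9aaa_al.Main

/-!
Abelian splitting fields, for cyclic extensions `K / F` of degree dividing `d`, from a statement
about Steinberg symbols on `K` which are killed by `n` and vanish on `K* × F*`.
-/

set_option autoImplicit false

open scoped TensorProduct

namespace Pool.Agent.MP_1b9aaa_al

/-- Every Steinberg symbol on `K`, with values in an abelian group, which is killed by `n` and
vanishes on `K* × F*`, `F` the fixed field of `g`, is zero. -/
def SymTriv {K : Type} [Field K] (n : ℕ) (g : K ≃+* K) : Prop :=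
  ∀ (T : Type 1) [AddCommGroup T] (c : K → K → T), Good g c → (∀ u v, n • c u v = 0) →
    ∀ u v : K, u ≠ 0 → v ≠ 0 → c u v = 0

/-- It suffices to treat abelian groups without `m`-torsion, for some `m` prime to `n`. -/
theorem SymTriv.of {K : Type} [Field K] {n m : ℕ} {g : K ≃+* K} (hmn : Nat.Coprime m n)
    (h : ∀ (T : Type 1) [AddCommGroup T] (c : K → K → T), (∀ t : T, m • t = 0 → t = 0) →
      Good g c → ∀ u v : K, u ≠ 0 → v ≠ 0 → c u v = 0) : SymTriv n g := by
  intro T _ c hc hcn u v hu hv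
  set S : AddSubgroup T := (nsmulAddMonoidHom (α := T) n).ker with hS
  set c' : K → K → S := fun u v => ⟨c u v, hcn u v⟩ with hc'
  have hg : Good g c' := by
    refine ⟨⟨?_, ?_, ?_⟩, ?_⟩
    · intro a b x ha hb hx
      exact Subtype.ext (hc.st.mul_left a b x ha hb hx)
    · intro x a b hx ha hb
      exact Subtype.ext (hc.st.mul_right x a b hx ha hb)
    · intro a ha h1
      exact Subtype.ext (hc.st.steinberg a ha h1)
    · intro x hx f hf hf0
      exact Subtype.ext (hc.van x hx f hf hf0)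
  have h2 : ∀ t : S, m • t = 0 → t = 0 := by
    intro t ht
    have ht' : n • t = 0 := Subtype.ext t.2
    have h1 := addOrderOf_dvd_of_nsmul_eq_zero ht
    have h2 := addOrderOf_dvd_of_nsmul_eq_zero ht'
    have h4 : addOrderOf t = 1 := Nat.eq_one_of_dvd_coprimes hmn h1 h2
    exact AddMonoid.addOrderOf_eq_one_iff.mp h4
  exact congrArg Subtype.val (h S c' h2 hg u v hu hv)

section Abstract

variable {K Ω : Type} [Field K] [Field Ω] {n : ℕ} {ζ : K} {w j d : ℕ}

theorem emb_eq (ι : K →+* Ω) (g : K ≃+* K) (i : ℕ) (x : K) : emb ι g i x = ι (g^[i] x) := by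
  induction i generalizing x with
  | zero => rfl
  | succ i ih =>
    show emb ι g i (g x) = _
    rw [ih, Function.iterate_succ_apply]

theorem iter_ne (g : K ≃+* K) (i : ℕ) {x : K} (hx : x ≠ 0) : g^[i] x ≠ 0 := by
  induction i with
  | zero => exact hx
  | succ i ih =>
    rw [Function.iterate_succ_apply']
    exact (map_ne_zero_iff g g.injective).mpr ih

theorem sy_prod_left {k : Type} [Field k] {ζ b : k} (hn : n ≠ 0) (hζ : IsPrimitiveRoot ζ n)
    (hb : b ≠ 0) (s : Finset ℕ) (f : ℕ → k) (hf : ∀ i ∈ s, f i ≠ 0) :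
    ∏ i ∈ s, sy n ζ (f i) b = sy n ζ (∏ i ∈ s, f i) b := by
  induction s using Finset.induction_on with
  | empty =>
    rw [Finset.prod_empty, Finset.prod_empty]
    have h := sy_nth (ζ := ζ) (b := b) hn hζ (one_ne_zero (α := k)) hb
    rw [one_pow] at h
    exact h.symm
  | insert a s ha ih =>
    rw [Finset.prod_insert ha, Finset.prod_insert ha,
      ih (fun i hi => hf i (Finset.mem_insert_of_mem hi)),
      sy_mul_left hn hζ (hf a (Finset.mem_insert_self a s))
        (Finset.prod_ne_zero_iff.mpr fun i hi => hf i (Finset.mem_insert_of_mem hi)) hb]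

/-- the eigenvector `κ^(w^d) (g κ)^(w^(d-1)) … (g^(d-1) κ)^w` -/
def eig (g : K ≃+* K) (w d : ℕ) (κ : K) : K := ∏ i ∈ Finset.range d, g^[i] κ ^ w ^ (d - i)

theorem eig_ne (g : K ≃+* K) {κ : K} (hκ : κ ≠ 0) : eig g w d κ ≠ 0 :=
  Finset.prod_ne_zero_iff.mpr fun i _ => pow_ne_zero _ (iter_ne g i hκ)

theorem eig_rel (g : K ≃+* K) (hd : ∀ x, g^[d] x = x) (hj : w ^ d = 1 + n * j) {κ : K}
    (hκ : κ ≠ 0) : g (eig g w d κ) = eig g w d κ ^ w * ((κ ^ (w * j))⁻¹) ^ n := by
  have hne : (κ ^ (w * j)) ^ n ≠ 0 := pow_ne_zero _ (pow_ne_zero _ hκ)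
  have hw' : κ ^ w ≠ 0 := pow_ne_zero _ hκ
  have e1 : g (eig g w d κ) = ∏ i ∈ Finset.range d, g^[i + 1] κ ^ w ^ (d + 1 - (i + 1)) := by
    rw [eig, map_prod]
    refine Finset.prod_congr rfl fun i _ => ?_
    rw [map_pow, Function.iterate_succ_apply', Nat.add_sub_add_right]
  have e2 : eig g w d κ ^ w = ∏ i ∈ Finset.range d, g^[i] κ ^ w ^ (d + 1 - i) := by
    rw [eig, ← Finset.prod_pow]
    refine Finset.prod_congr rfl fun i hi => ?_
    have hi' : i < d := Finset.mem_range.mp hi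
    rw [← pow_mul, ← pow_succ, Nat.sub_add_comm hi'.le]
  have e3 := Finset.prod_range_succ (fun i => g^[i] κ ^ w ^ (d + 1 - i)) d
  have e4 := Finset.prod_range_succ' (fun i => g^[i] κ ^ w ^ (d + 1 - i)) d
  have e5 : g^[d] κ ^ w ^ (d + 1 - d) = κ ^ w := by
    rw [hd, Nat.add_sub_cancel_left, pow_one]
  have e6 : g^[0] κ ^ w ^ (d + 1 - 0) = κ ^ w * (κ ^ (w * j)) ^ n := by
    rw [Function.iterate_zero_apply, Nat.sub_zero, ← pow_mul, ← pow_add, pow_succ, hj]
    congr 1
    ring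
  have e7 : g (eig g w d κ) * (κ ^ w * (κ ^ (w * j)) ^ n) = eig g w d κ ^ w * κ ^ w := by
    rw [e1, e2, ← e5, ← e3, e5, ← e6]
    exact e4.symm
  have e8 : g (eig g w d κ) * (κ ^ (w * j)) ^ n = eig g w d κ ^ w := by
    refine mul_right_cancel₀ hw' ?_
    rw [← e7]
    ring
  rw [← e8, inv_pow, mul_assoc, mul_inv_cancel₀ hne, mul_one]

/-- The key statement: if the eigenvectors `eig g w d κ` become `n`-th powers in `Ω`, then the
product of the `d` base changes of every class of symbol algebras is trivial. -/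
theorem key_of (hn : Odd n) (hζ : IsPrimitiveRoot ζ n) (ι : K →+* Ω) (g : K ≃+* K)
    (hSt : SymTriv n g) (hw : g ζ = ζ ^ w) (hj : w ^ d = 1 + n * j)
    (hΩ : ∀ κ : K, κ ≠ 0 → ∃ θ : Ω, θ ^ n = ι (eig g w d κ))
    (β : ℕ → BrM K →* BrM Ω)
    (hβ : ∀ i a b, β i (sy n ζ a b) = sy n (emb ι g i ζ) (emb ι g i a) (emb ι g i b))
    {a b : K} (ha : a ≠ 0) (hb : b ≠ 0) :
    ∏ i ∈ Finset.range d, β i (sy n ζ a b) = 1 := by
  have hn0 : n ≠ 0 := by rintro rfl; exact absurd hn (by decide)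
  set P : BrM K →* BrM Ω := ∏ i ∈ Finset.range d, β i with hP
  have hP1 : ∀ x, P x = ∏ i ∈ Finset.range d, β i x := fun x =>
    MonoidHom.finsetProd_apply _ _ x
  rw [← hP1]
  have htors : ∀ a b : K, a ≠ 0 → b ≠ 0 → P (sy n ζ a b) ^ n = 1 := by
    intro a b ha hb
    rw [← map_pow, sy_tors hn0 hζ ha hb, map_one]
  classical
  set c : K → K → Additive (BrM Ω)ˣ := fun a b =>
    if h : a ≠ 0 ∧ b ≠ 0 then
      Additive.ofMul (Units.ofPowEqOne (P (sy n ζ a b)) n (htors a b h.1 h.2) hn0)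
    else 0 with hc
  have hcv : ∀ a b : K, a ≠ 0 → b ≠ 0 →
      ((Additive.toMul (c a b) : (BrM Ω)ˣ) : BrM Ω) = P (sy n ζ a b) := by
    intro a b ha hb
    simp only [hc]
    rw [dif_pos ⟨ha, hb⟩]
    rfl
  have hext : ∀ s t : Additive (BrM Ω)ˣ,
      ((Additive.toMul s : (BrM Ω)ˣ) : BrM Ω) = ((Additive.toMul t : (BrM Ω)ˣ) : BrM Ω) →
      s = t := by
    intro s t h
    exact Additive.toMul.injective (Units.ext h)
  have hG : Good g c := by
    refine ⟨⟨?_, ?_, ?_⟩, ?_⟩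
    · intro a b x ha hb hx
      apply hext
      rw [hcv _ _ (mul_ne_zero ha hb) hx, toMul_add, Units.val_mul, hcv _ _ ha hx, hcv _ _ hb hx,
        sy_mul_left hn0 hζ ha hb hx, map_mul]
    · intro x a b hx ha hb
      apply hext
      rw [hcv _ _ hx (mul_ne_zero ha hb), toMul_add, Units.val_mul, hcv _ _ hx ha, hcv _ _ hx hb,
        sy_mul_right hn0 hζ hx ha hb, map_mul]
    · intro a ha h1
      apply hext
      rw [hcv _ _ ha (sub_ne_zero.mpr (Ne.symm h1)), sy_st hn hζ ha h1, map_one]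
      rfl
    · intro x hx f hf hf0
      have hf' : g f = f := hf
      apply hext
      have hζΩ : IsPrimitiveRoot (ι ζ) n := hζ.map_of_injective ι.injective
      have hιf : ι f ≠ 0 := (map_ne_zero ι).mpr hf0
      have hix : ∀ i, ι (g^[i] x) ≠ 0 := fun i => (map_ne_zero ι).mpr (iter_ne g i hx)
      have h1 : ∀ i ∈ Finset.range d, β i (sy n ζ x f) =
          sy n (ι ζ) (ι (g^[i] x ^ w ^ (d - i))) (ι f) := by
        intro i hi
        have hi' : i < d := Finset.mem_range.mp hi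
        rw [hβ, emb_fix ι g hf', emb_root ι g hw, emb_eq,
          sy_root hn0 hζΩ (w := w ^ i) (w' := w ^ (d - i)) (j := j)
            (by rw [← pow_add, Nat.add_sub_cancel' hi'.le, hj]) (hix i) hιf,
          ← sy_pow_left hn0 hζΩ (hix i) hιf, map_pow]
      obtain ⟨θ, hθ⟩ := hΩ x hx
      have hθ0 : θ ≠ 0 := by
        rintro rfl
        rw [zero_pow hn0] at hθ
        exact (map_ne_zero ι).mpr (eig_ne (w := w) (d := d) g hx) hθ.symm
      rw [hcv _ _ hx hf0, hP1, Finset.prod_congr rfl h1,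
        sy_prod_left hn0 hζΩ hιf _ _ (fun i _ => by
          rw [map_pow]
          exact pow_ne_zero _ (hix i)), ← map_prod]
      show sy n (ι ζ) (ι (eig g w d x)) (ι f) = _
      rw [← hθ, sy_nth hn0 hζΩ hθ0 hιf]
      rfl
  have hcn : ∀ u v, n • c u v = 0 := by
    intro u v
    by_cases h : u ≠ 0 ∧ v ≠ 0
    · apply hext
      rw [toMul_nsmul, Units.val_pow_eq_pow_val, hcv _ _ h.1 h.2, htors _ _ h.1 h.2]
      rfl
    · simp only [hc]
      rw [dif_neg h, smul_zero]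
  have h0 := hSt (Additive (BrM Ω)ˣ) c hG hcn a b ha hb
  rw [← hcv a b ha hb, h0]
  rfl

end Abstract

/-- **Theorem.** Let `n` be odd and prime to `d`, `K / F` a cyclic Galois extension of degree
dividing `d` which contains a primitive `n`-th root of unity `ζ`, such that every Steinberg symbol
on `K` killed by `n` and vanishing on `K* × F*` is zero, and let `A` be a finite-dimensional
`F`-algebra such that the Brauer class of `K ⊗ A` is a product of classes of symbol algebras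
`(a,b)_ζ` of degree `n`. Then `A` is split by a finite abelian extension of `F`. -/
theorem abelian_splitting_of (F : Type) [Field F] {n d : ℕ} (hn : Odd n) (hnd : Nat.Coprime d n)
    (K : Type) [Field K] [Algebra F K] [FiniteDimensional F K] [IsGalois F K]
    [IsCyclic (K ≃ₐ[F] K)] (hd : Module.finrank F K ∣ d)
    (hSt : ∀ g : K ≃+* K, (∀ x, g^[d] x = x) → SymTriv n g)
    {ζ : K} (hζ : IsPrimitiveRoot ζ n) (A : Type) [Ring A]
    [Algebra F A] [FiniteDimensional F A] (hA : cls K (K ⊗[F] A) ∈ symClasses K n ζ) :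
    ∃ (L : Type) (_ : Field L) (_ : Algebra F L),
      FiniteDimensional F L ∧ IsGalois F L ∧ (∀ σ τ : L ≃ₐ[F] L, σ * τ = τ * σ) ∧
      ∃ r : ℕ, Nonempty ((L ⊗[F] A) ≃ₐ[L] Matrix (Fin r) (Fin r) L) := by
  have hn0 : n ≠ 0 := by rintro rfl; exact absurd hn (by decide)
  have : NeZero n := ⟨hn0⟩
  obtain ⟨γ, hγ⟩ := IsCyclic.exists_generator (α := K ≃ₐ[F] K)
  have hγd : γ ^ d = 1 := by
    have h1 : γ ^ Nat.card (K ≃ₐ[F] K) = 1 := pow_card_eq_one'
    rw [IsGalois.card_aut_eq_finrank] at h1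
    obtain ⟨e, he⟩ := hd
    rw [he, pow_mul, h1, one_pow]
  let g : K ≃+* K := γ
  have hgi : ∀ (i : ℕ) (x : K), g^[i] x = (γ ^ i) x := by
    intro i
    induction i with
    | zero => intro x; rfl
    | succ i ih =>
      intro x
      rw [Function.iterate_succ_apply', ih, pow_succ']
      rfl
  have hgd : ∀ x : K, g^[d] x = x := by
    intro x
    rw [hgi, hγd]
    rfl
  have hγ' : ∀ σ : K ≃ₐ[F] K, ∃ a : ℕ, σ = γ ^ a := by
    intro σ
    obtain ⟨a, ha⟩ := (mem_powers_iff_mem_zpowers).mpr (hγ σ)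
    exact ⟨a, ha.symm⟩
  have hab : ∀ σ τ : K ≃ₐ[F] K, σ * τ = τ * σ := by
    intro σ τ
    obtain ⟨a, rfl⟩ := hγ' σ
    obtain ⟨b, rfl⟩ := hγ' τ
    rw [← pow_add, ← pow_add, add_comm]
  -- the cyclotomic exponent
  obtain ⟨i, -, hi⟩ := hζ.eq_pow_of_pow_eq_one (ξ := γ ζ)
    (by rw [← map_pow, hζ.pow_eq_one, map_one])
  set w : ℕ := i + n with hw
  have hγζ : γ ζ = ζ ^ w := by rw [hw, pow_add, hζ.pow_eq_one, mul_one, hi]
  have hw1 : 1 ≤ w := by omega
  have hj : ∃ j : ℕ, w ^ d = 1 + n * j := by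
    have h0 : ∀ m : ℕ, g^[m] ζ = ζ ^ (w ^ m) := by
      intro m
      induction m with
      | zero => rw [pow_zero, pow_one]; rfl
      | succ m ih =>
        rw [Function.iterate_succ_apply', ih, map_pow]
        show γ ζ ^ w ^ m = _
        rw [hγζ, ← pow_mul, pow_succ']
    have h1 : ζ ^ (w ^ d) = ζ := by rw [← h0, hgd]
    have h2 : 1 ≤ w ^ d := Nat.one_le_pow _ _ hw1
    have h3 : ζ ^ (w ^ d - 1) = 1 := by
      have h4 : ζ ^ (w ^ d - 1) * ζ = ζ := by
        rw [← pow_succ, Nat.sub_add_cancel h2, h1]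
      have hζ0 : ζ ≠ 0 := hζ.ne_zero hn0
      exact mul_right_cancel₀ hζ0 (by rw [h4, one_mul])
    obtain ⟨j, hj⟩ := hζ.dvd_of_pow_eq_one _ h3
    exact ⟨j, by omega⟩
  obtain ⟨j, hj⟩ := hj
  -- the abelian closure
  let E := SeparableClosure F
  let ι0 : K →ₐ[F] E := IsSepClosed.lift
  let ι : K →ₐ[F] (abS F E) := ι0.codRestrict (abS F E).toSubalgebra
    (fun x => range_abS hab ι0 x)
  have hι : ∀ x, ((ι x : abS F E) : E) = ι0 x := fun x => rfl
  have hΩ : ∀ κ : K, κ ≠ 0 → ∃ θ : abS F E, θ ^ n = (ι : K →+* abS F E) (eig g w d κ) := by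
    intro κ hκ
    have hζE : IsPrimitiveRoot (ι0 ζ) n := hζ.map_of_injective ι0.injective
    have : NeZero (n : E) := hζE.neZero'
    obtain ⟨θ, hθ⟩ := IsSepClosed.exists_pow_nat_eq (ι0 (eig g w d κ)) n
    have hrel : γ (eig g w d κ) = eig g w d κ ^ w * ((κ ^ (w * j))⁻¹) ^ n :=
      eig_rel g hgd hj hκ
    have hθΩ : θ ∈ abS F E := kummer_abS γ hγ' ι0 hn0 hζ hγζ (eig_ne g hκ) hrel hθ
    exact ⟨⟨θ, hθΩ⟩, Subtype.ext hθ⟩
  choose β hβ using fun i : ℕ => exists_bcM (emb (ι : K →+* abS F E) g i)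
  have hβs : ∀ i a b, β i (sy n ζ a b) = sy n (emb (ι : K →+* abS F E) g i ζ)
      (emb (ι : K →+* abS F E) g i a) (emb (ι : K →+* abS F E) g i b) := by
    intro i a b
    rw [sy, hβ]
    exact sy_bc _
  have hkey := fun {a b : K} (ha : a ≠ 0) (hb : b ≠ 0) =>
    key_of (d := d) hn hζ (ι : K →+* abS F E) g (hSt g hgd) hγζ hj hΩ β hβs ha hb
  -- on all classes of symbol algebras
  have hall : ∀ x ∈ symClasses K n ζ, ∏ i ∈ Finset.range d, β i x = 1 ∧ x ^ n = 1 := by
    intro x hx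
    induction hx using Submonoid.closure_induction with
    | mem x h =>
      obtain ⟨a, b, ha, hb, rfl⟩ := h
      exact ⟨hkey ha hb, sy_tors hn0 hζ ha hb⟩
    | one => simp
    | mul x y _ _ hx hy =>
      refine ⟨?_, by rw [mul_pow, hx.2, hy.2, one_mul]⟩
      simp only [map_mul]
      rw [Finset.prod_mul_distrib, hx.1, hy.1, one_mul]
  obtain ⟨hx1, hx2⟩ := hall _ hA
  have hbase : ∀ i, β i (cls K (K ⊗[F] A)) = cls (abS F E) ((abS F E) ⊗[F] A) := by
    intro i
    rw [hβ]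
    refine bc_tower _ ?_ A
    intro x
    have hgx : g (algebraMap F K x) = algebraMap F K x := γ.commutes x
    rw [emb_fix _ g hgx]
    exact ι.commutes x
  set α : BrM (abS F E) := cls (abS F E) ((abS F E) ⊗[F] A) with hα
  have hαd : α ^ d = 1 := by
    rw [← hx1, Finset.prod_congr rfl fun i _ => hbase i, Finset.prod_const, Finset.card_range]
  have hαn : α ^ n = 1 := by
    rw [← hbase 0, ← map_pow, hx2, map_one]
  have hα1 : α = 1 := by
    have h1 := orderOf_dvd_of_pow_eq_one hαd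
    have h2 := orderOf_dvd_of_pow_eq_one hαn
    have h4 : orderOf α = 1 := Nat.eq_one_of_dvd_coprimes hnd h1 h2
    exact orderOf_eq_one_iff.mp h4
  obtain ⟨m, r, hm, hr, ⟨e⟩⟩ := Quotient.exact (s := alSetoid (abS F E)) hα1
  obtain ⟨r', ⟨e'⟩⟩ := matrix_of_matrix hm hr e
  obtain ⟨L, hL, hLf, ⟨e''⟩⟩ := descent (abS F E) e'
  obtain ⟨hG, hc⟩ := abS_sub L hL
  exact ⟨L, inferInstance, inferInstance, hLf, hG, hc, r', ⟨e''⟩⟩

end Pool.Agent.MP_1b9aaa_al
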