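import Pool.Agent.Lib.MP_1b9aaa_al.Main

/-!
Abelian splitting fields, from vanishing theorems for Steinberg symbols: the general reduction for
a cyclic extension of any degree `m` prime to `n`.
-/

set_option autoImplicit false

open scoped TensorProduct

namespace Pool.Agent.MP_1b9aaa_al

/-- `T(K, g, n)`: a Steinberg symbol on `K`, killed by `n`, which is zero on `K* × F*`, `F` the fixed
field of `g`, is zero. -/
def Van (K : Type) [Field K] (g : K ≃+* K) (n : ℕ) : Prop :=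
  ∀ (T : Type 1) [AddCommGroup T] (c : K → K → T), Good g c → (∀ u v, n • c u v = 0) →
    ∀ u v : K, u ≠ 0 → v ≠ 0 → c u v = 0

section Abstract

variable {K Ω : Type} [Field K] [Field Ω] {n : ℕ} {ζ : K} {w j m : ℕ}

theorem emb_apply (ι : K →+* Ω) (g : K ≃+* K) (i : ℕ) (x : K) :
    emb ι g i x = ι (g^[i] x) := by
  induction i generalizing x with
  | zero => rfl
  | succ i ih =>
    show emb ι g i (g x) = _
    rw [ih, Function.iterate_succ_apply]

theorem iter_ne (g : K ≃+* K) {x : K} (hx : x ≠ 0) (i : ℕ) : g^[i] x ≠ 0 := by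
  induction i generalizing x with
  | zero => exact hx
  | succ i ih =>
    rw [Function.iterate_succ_apply]
    exact ih ((map_ne_zero_iff g g.injective).mpr hx)

theorem sy_prod_left (hn : n ≠ 0) {ζ : Ω} (hζ : IsPrimitiveRoot ζ n) {a : ℕ → Ω} {b : Ω}
    (ha : ∀ i, a i ≠ 0) (hb : b ≠ 0) (s : Finset ℕ) :
    sy n ζ (∏ i ∈ s, a i) b = ∏ i ∈ s, sy n ζ (a i) b := by
  classical
  induction s using Finset.induction_on with
  | empty =>
    rw [Finset.prod_empty, Finset.prod_empty, ← one_pow n]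
    exact sy_nth hn hζ one_ne_zero hb
  | insert i s hi ih =>
    rw [Finset.prod_insert hi, Finset.prod_insert hi, sy_mul_left hn hζ (ha i)
      (Finset.prod_ne_zero_iff.mpr fun i _ => ha i) hb, ih]

/-- The key statement: if the eigenvectors `∏ (g^i κ)^{w^{m-i}}` become `n`-th powers in `Ω`, then
the product of the `m` base changes of every class of symbol algebras is trivial. -/
theorem keyG (hn : Odd n) (hζ : IsPrimitiveRoot ζ n) (ι : K →+* Ω) (g : K ≃+* K)
    (hV : Van K g n) (hw : g ζ = ζ ^ w) (hj : w ^ m = 1 + n * j)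
    (hΩ : ∀ κ : K, κ ≠ 0 → ∃ θ : Ω, θ ^ n = ι (∏ i ∈ Finset.range m, (g^[i] κ) ^ (w ^ (m - i))))
    (β : ℕ → BrM K →* BrM Ω)
    (hβ : ∀ i a b, β i (sy n ζ a b) = sy n (emb ι g i ζ) (emb ι g i a) (emb ι g i b))
    {a b : K} (ha : a ≠ 0) (hb : b ≠ 0) :
    ∏ i ∈ Finset.range m, β i (sy n ζ a b) = 1 := by
  have hn0 : n ≠ 0 := by rintro rfl; exact absurd hn (by decide)
  set P : BrM K →* BrM Ω := ∏ i ∈ Finset.range m, β i with hP
  have hP1 : ∀ x, P x = ∏ i ∈ Finset.range m, β i x := fun x => by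
    rw [hP, MonoidHom.finsetProd_apply]
  rw [← hP1]
  have htors : ∀ a b : K, a ≠ 0 → b ≠ 0 → P (sy n ζ a b) ^ n = 1 := by
    intro a b ha hb
    rw [← map_pow, sy_tors hn0 hζ ha hb, map_one]
  classical
  set c : K → K → Additive (BrM Ω)ˣ := fun a b =>
    if h : a ≠ 0 ∧ b ≠ 0 then
      Additive.ofMul (Units.ofPowEqOne (P (sy n ζ a b)) n (htors a b h.1 h.2) hn0)
    else 0 with hc
  have hcv : ∀ a b : K, a ≠ 0 → b ≠ 0 →
      ((Additive.toMul (c a b) : (BrM Ω)ˣ) : BrM Ω) = P (sy n ζ a b) := by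
    intro a b ha hb
    simp only [hc]
    rw [dif_pos ⟨ha, hb⟩]
    rfl
  have hext : ∀ s t : Additive (BrM Ω)ˣ,
      ((Additive.toMul s : (BrM Ω)ˣ) : BrM Ω) = ((Additive.toMul t : (BrM Ω)ˣ) : BrM Ω) →
      s = t := by
    intro s t h
    exact Additive.toMul.injective (Units.ext h)
  have hG : Good g c := by
    refine ⟨⟨?_, ?_, ?_⟩, ?_⟩
    · intro a b x ha hb hx
      apply hext
      rw [hcv _ _ (mul_ne_zero ha hb) hx, toMul_add, Units.val_mul, hcv _ _ ha hx, hcv _ _ hb hx,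
        sy_mul_left hn0 hζ ha hb hx, map_mul]
    · intro x a b hx ha hb
      apply hext
      rw [hcv _ _ hx (mul_ne_zero ha hb), toMul_add, Units.val_mul, hcv _ _ hx ha, hcv _ _ hx hb,
        sy_mul_right hn0 hζ hx ha hb, map_mul]
    · intro a ha h1
      apply hext
      rw [hcv _ _ ha (sub_ne_zero.mpr (Ne.symm h1)), sy_st hn hζ ha h1, map_one]
      rfl
    · intro x hx f hf hf0
      have hf' : g f = f := hf
      apply hext
      have hζΩ : IsPrimitiveRoot (ι ζ) n := hζ.map_of_injective ι.injective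
      have hιf : ι f ≠ 0 := (map_ne_zero ι).mpr hf0
      have hi0 : ∀ i, ι (g^[i] x) ≠ 0 := fun i => (map_ne_zero ι).mpr (iter_ne g hx i)
      rw [hcv _ _ hx hf0, hP1]
      have hterm : ∀ i ∈ Finset.range m, β i (sy n ζ x f)
          = sy n (ι ζ) ((ι (g^[i] x)) ^ (w ^ (m - i))) (ι f) := by
        intro i hi
        have him : i ≤ m := (Finset.mem_range.mp hi).le
        rw [hβ, emb_fix ι g hf', emb_root ι g hw, emb_apply,
          sy_root hn0 hζΩ (w := w ^ i) (w' := w ^ (m - i)) (j := j)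
            (by rw [← pow_add, Nat.add_sub_cancel' him, hj]) (hi0 i) hιf,
          ← sy_pow_left hn0 hζΩ (hi0 i) hιf]
      rw [Finset.prod_congr rfl hterm, ← sy_prod_left hn0 hζΩ (fun i => pow_ne_zero _ (hi0 i)) hιf]
      obtain ⟨θ, hθ⟩ := hΩ x hx
      have hθ0 : θ ≠ 0 := by
        rintro rfl
        rw [zero_pow hn0] at hθ
        refine (map_ne_zero ι).mpr ?_ hθ.symm
        exact Finset.prod_ne_zero_iff.mpr fun i _ => pow_ne_zero _ (iter_ne g hx i)
      rw [map_prod] at hθ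
      simp only [map_pow] at hθ
      rw [← hθ, sy_nth hn0 hζΩ hθ0 hιf]
      rfl
  have hcn : ∀ u v, n • c u v = 0 := by
    intro u v
    by_cases h : u ≠ 0 ∧ v ≠ 0
    · apply hext
      rw [toMul_nsmul, Units.val_pow_eq_pow_val, hcv _ _ h.1 h.2, htors _ _ h.1 h.2]
      rfl
    · simp only [hc]
      rw [dif_neg h, smul_zero]
  have h0 := hV _ c hG hcn a b ha hb
  rw [← hcv a b ha hb, h0]
  rfl

end Abstract

/-- **Theorem.** Let `n` be odd, `K / F` a cyclic Galois extension of degree dividing `m`, `m`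
prime to `n`, which contains a primitive `n`-th root of unity `ζ`, and assume `Van` for the
generators of the Galois group. Let `A` be a finite-dimensional `F`-algebra such that
the Brauer class of `K ⊗ A` is a product of classes of symbol algebras `(a,b)_ζ` of degree `n`.
Then `A` is split by a finite abelian extension of `F`. -/
theorem abelian_splittingG (F : Type) [Field F] {n m : ℕ} (hn : Odd n) (hm : Nat.Coprime m n)
    (hm0 : m ≠ 0) (K : Type) [Field K]
    [Algebra F K] [FiniteDimensional F K] [IsGalois F K] [IsCyclic (K ≃ₐ[F] K)]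
    (hdm : Module.finrank F K ∣ m)
    (hV : ∀ g : K ≃+* K, (∀ x, g^[m] x = x) → Van K g n)
    {ζ : K} (hζ : IsPrimitiveRoot ζ n) (A : Type) [Ring A]
    [Algebra F A] [FiniteDimensional F A] (hA : cls K (K ⊗[F] A) ∈ symClasses K n ζ) :
    ∃ (L : Type) (_ : Field L) (_ : Algebra F L),
      FiniteDimensional F L ∧ IsGalois F L ∧ (∀ σ τ : L ≃ₐ[F] L, σ * τ = τ * σ) ∧
      ∃ r : ℕ, Nonempty ((L ⊗[F] A) ≃ₐ[L] Matrix (Fin r) (Fin r) L) := by
  have hn0 : n ≠ 0 := by rintro rfl; exact absurd hn (by decide)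
  have : NeZero n := ⟨hn0⟩
  obtain ⟨γ, hγ⟩ := IsCyclic.exists_generator (α := K ≃ₐ[F] K)
  have hγm : γ ^ m = 1 := by
    have h1 : γ ^ Nat.card (K ≃ₐ[F] K) = 1 := pow_card_eq_one'
    rw [IsGalois.card_aut_eq_finrank] at h1
    obtain ⟨d, hd⟩ := hdm
    rw [hd, pow_mul, h1, one_pow]
  have hpow : ∀ (i : ℕ) (x : K), (γ ^ i) x = γ^[i] x := by
    intro i
    induction i with
    | zero => exact fun x => rfl
    | succ i ih =>
      intro x
      rw [pow_succ, AlgEquiv.mul_apply, ih, Function.iterate_succ_apply]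
  have hγm' : ∀ x : K, γ^[m] x = x := by
    intro x
    rw [← hpow, hγm]
    rfl
  have hγ' : ∀ σ : K ≃ₐ[F] K, ∃ a : ℕ, σ = γ ^ a := by
    intro σ
    obtain ⟨z, hz⟩ := Subgroup.mem_zpowers_iff.mp (hγ σ)
    have hmz : (m : ℤ) ≠ 0 := by exact_mod_cast hm0
    refine ⟨(z % m).toNat, ?_⟩
    rw [← hz]
    have h1 : z = m * (z / m) + z % m := (Int.mul_ediv_add_emod z m).symm
    have h2 : γ ^ z = γ ^ (z % m) := by
      conv_lhs => rw [h1]
      rw [zpow_add, zpow_mul]
      have : γ ^ (m : ℤ) = 1 := by rw [zpow_natCast]; exact hγm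
      rw [this, one_zpow, one_mul]
    rw [h2, ← zpow_natCast, Int.toNat_of_nonneg (Int.emod_nonneg z hmz)]
  have hab : ∀ σ τ : K ≃ₐ[F] K, σ * τ = τ * σ := by
    intro σ τ
    obtain ⟨a, rfl⟩ := hγ' σ
    obtain ⟨b, rfl⟩ := hγ' τ
    rw [← pow_add, ← pow_add, add_comm]
  -- the cyclotomic exponent
  obtain ⟨i, -, hi⟩ := hζ.eq_pow_of_pow_eq_one (ξ := γ ζ)
    (by rw [← map_pow, hζ.pow_eq_one, map_one])
  set w : ℕ := i + n with hw
  have hγζ : γ ζ = ζ ^ w := by rw [hw, pow_add, hζ.pow_eq_one, mul_one, hi]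
  have hw1 : 1 ≤ w := by omega
  have hiter : ∀ k : ℕ, γ^[k] ζ = ζ ^ (w ^ k) := by
    intro k
    induction k with
    | zero => rw [pow_zero, pow_one]; rfl
    | succ k ih =>
      rw [Function.iterate_succ_apply', ih, map_pow, hγζ, ← pow_mul, ← pow_succ']
  have hj : ∃ j : ℕ, w ^ m = 1 + n * j := by
    have h1 : ζ ^ (w ^ m) = ζ := by rw [← hiter, hγm']
    have h2 : 1 ≤ w ^ m := Nat.one_le_pow _ _ hw1
    have h3 : ζ ^ (w ^ m - 1) = 1 := by
      have h4 : ζ ^ (w ^ m - 1) * ζ = ζ := by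
        rw [← pow_succ, Nat.sub_add_cancel h2, h1]
      have hζ0 : ζ ≠ 0 := hζ.ne_zero hn0
      exact mul_right_cancel₀ hζ0 (by rw [h4, one_mul])
    obtain ⟨j, hj⟩ := hζ.dvd_of_pow_eq_one _ h3
    exact ⟨j, by omega⟩
  obtain ⟨j, hj⟩ := hj
  -- the abelian closure
  let E := SeparableClosure F
  let ι0 : K →ₐ[F] E := IsSepClosed.lift
  let ι : K →ₐ[F] (abS F E) := ι0.codRestrict (abS F E).toSubalgebra
    (fun x => range_abS hab ι0 x)
  have hι : ∀ x, ((ι x : abS F E) : E) = ι0 x := fun x => rfl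
  let g : K ≃+* K := γ
  have hgγ : ∀ (i : ℕ) (x : K), g^[i] x = γ^[i] x := fun i x => rfl
  have hΩ : ∀ κ : K, κ ≠ 0 → ∃ θ : abS F E, θ ^ n =
      (ι : K →+* abS F E) (∏ i ∈ Finset.range m, (g^[i] κ) ^ (w ^ (m - i))) := by
    intro κ hκ
    have hζE : IsPrimitiveRoot (ι0 ζ) n := hζ.map_of_injective ι0.injective
    have : NeZero (n : E) := hζE.neZero'
    set κ' : K := ∏ i ∈ Finset.range m, (γ^[i] κ) ^ (w ^ (m - i)) with hκ'
    obtain ⟨θ, hθ⟩ := IsSepClosed.exists_pow_nat_eq (ι0 κ') n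
    have hit : ∀ i, γ^[i] κ ≠ 0 := fun i => iter_ne g hκ i
    have hκ0 : κ' ≠ 0 := Finset.prod_ne_zero_iff.mpr fun i _ => pow_ne_zero _ (hit i)
    have hrel : γ κ' = κ' ^ w * ((κ ^ (w * j))⁻¹) ^ n := by
      set a : ℕ → K := fun i => (γ^[i] κ) ^ (w ^ (m + 1 - i)) with haD
      have e1 : γ κ' = ∏ i ∈ Finset.range m, a (i + 1) := by
        rw [hκ', map_prod]
        refine Finset.prod_congr rfl fun i hi => ?_
        simp only [haD]
        have e : γ (γ^[i] κ) = γ^[i + 1] κ := (Function.iterate_succ_apply' _ _ _).symm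
        rw [map_pow, e, Nat.add_sub_add_right]
      have e2 : κ' ^ w = ∏ i ∈ Finset.range m, a i := by
        rw [hκ', ← Finset.prod_pow]
        refine Finset.prod_congr rfl fun i hi => ?_
        simp only [haD]
        have him : i ≤ m := (Finset.mem_range.mp hi).le
        rw [← pow_mul, ← pow_succ, Nat.sub_add_comm him]
      have e3 : a 0 = κ ^ w * (κ ^ (w * j)) ^ n := by
        simp only [haD, Function.iterate_zero, id_eq, Nat.sub_zero]
        rw [← pow_mul, ← pow_add, pow_succ, hj]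
        congr 1
        ring
      have e4 : a m = κ ^ w := by
        simp only [haD]
        rw [hγm', Nat.add_sub_cancel_left, pow_one]
      have e5 : (∏ i ∈ Finset.range m, a i) * a m = (∏ i ∈ Finset.range m, a (i + 1)) * a 0 := by
        rw [← Finset.prod_range_succ, Finset.prod_range_succ']
      have hne : (κ ^ (w * j)) ^ n ≠ 0 := pow_ne_zero _ (pow_ne_zero _ hκ)
      have hne' : κ ^ w ≠ 0 := pow_ne_zero _ hκ
      rw [← e1, ← e2, e3, e4] at e5
      rw [inv_pow]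
      field_simp
      have e6 : κ' ^ w * κ ^ w = γ κ' * (κ ^ (w * j)) ^ n * κ ^ w := by rw [e5]; ring
      exact (mul_right_cancel₀ hne' e6).symm
    have hθΩ : θ ∈ abS F E := kummer_abS γ hγ' ι0 hn0 hζ hγζ hκ0 hrel hθ
    exact ⟨⟨θ, hθΩ⟩, Subtype.ext hθ⟩
  choose β hβ using fun i : ℕ => exists_bcM (emb (ι : K →+* abS F E) g i)
  have hβs : ∀ i a b, β i (sy n ζ a b) = sy n (emb (ι : K →+* abS F E) g i ζ)
      (emb (ι : K →+* abS F E) g i a) (emb (ι : K →+* abS F E) g i b) := by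
    intro i a b
    rw [sy, hβ]
    exact sy_bc _
  have hkey := fun {a b : K} (ha : a ≠ 0) (hb : b ≠ 0) =>
    keyG (m := m) hn hζ (ι : K →+* abS F E) g (hV g hγm') hγζ hj hΩ β hβs ha hb
  -- on all classes of symbol algebras
  have hall : ∀ x ∈ symClasses K n ζ, ∏ i ∈ Finset.range m, β i x = 1 ∧ x ^ n = 1 := by
    intro x hx
    induction hx using Submonoid.closure_induction with
    | mem x h =>
      obtain ⟨a, b, ha, hb, rfl⟩ := h
      exact ⟨hkey ha hb, sy_tors hn0 hζ ha hb⟩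
    | one => simp
    | mul x y _ _ hx hy =>
      refine ⟨?_, by rw [mul_pow, hx.2, hy.2, one_mul]⟩
      simp only [map_mul]
      rw [Finset.prod_mul_distrib, hx.1, hy.1, one_mul]
  obtain ⟨hx1, hx2⟩ := hall _ hA
  have hbase : ∀ i, β i (cls K (K ⊗[F] A)) = cls (abS F E) ((abS F E) ⊗[F] A) := by
    intro i
    rw [hβ]
    refine bc_tower _ ?_ A
    intro x
    have hgx : g (algebraMap F K x) = algebraMap F K x := γ.commutes x
    rw [emb_fix _ g hgx]
    exact ι.commutes x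
  set α : BrM (abS F E) := cls (abS F E) ((abS F E) ⊗[F] A) with hα
  have hαm : α ^ m = 1 := by
    rw [← hx1, Finset.prod_congr rfl fun i _ => hbase i, Finset.prod_const, Finset.card_range]
  have hαn : α ^ n = 1 := by
    rw [← hbase 0, ← map_pow, hx2, map_one]
  have hα1 : α = 1 := by
    have h1 := orderOf_dvd_of_pow_eq_one hαm
    have h2 := orderOf_dvd_of_pow_eq_one hαn
    have h4 : orderOf α = 1 := Nat.eq_one_of_dvd_coprimes hm h1 h2
    exact orderOf_eq_one_iff.mp h4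
  obtain ⟨m', r, hm', hr, ⟨e⟩⟩ := Quotient.exact (s := alSetoid (abS F E)) hα1
  obtain ⟨r', ⟨e'⟩⟩ := matrix_of_matrix hm' hr e
  obtain ⟨L, hL, hLf, ⟨e''⟩⟩ := descent (abS F E) e'
  obtain ⟨hG, hc⟩ := abS_sub L hL
  exact ⟨L, inferInstance, inferInstance, hLf, hG, hc, r', ⟨e''⟩⟩

end Pool.Agent.MP_1b9aaa_al
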