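import Pool.Agent.Lib.MP_1b9aaa_al.St

/-!
Steinberg symbols on a field with an automorphism: elements with an orbit of length dividing 3.
-/

set_option autoImplicit false

namespace Pool.Agent.MP_1b9aaa_al

open IsSteinberg

variable {K T : Type*} [Field K] [AddCommGroup T]

namespace Good

variable {g : K ≃+* K} {c : K → K → T}

/-- the determinant of `(1, u, w)` over the orbit. -/
def Lu (g : K ≃+* K) (u w : K) : K :=
  w * (g u - g (g u)) + g w * (g (g u) - u) + g (g w) * (u - g u)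

lemma Lu_fix {u w : K} (hu : g (g (g u)) = u) (hw : g (g (g w)) = w) :
    g (Lu g u w) = Lu g u w := by
  have e : g (Lu g u w) = g w * (g (g u) - g (g (g u))) + g (g w) * (g (g (g u)) - g u) +
      g (g (g w)) * (g u - g (g u)) := by
    simp only [Lu, map_add, map_mul, map_sub]
  rw [e, hu, hw, Lu]
  ring

/-- `Lu = 0` means `w ∈ F + F u`. -/
lemma of_Lu {u w : K} (hn : g u ≠ u) (h : Lu g u w = 0) :
    ∃ p q : K, g p = p ∧ g q = q ∧ w = p + q * u := by
  have h1 : u - g u ≠ 0 := sub_ne_zero.mpr (Ne.symm hn)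
  have h2 : g u - g (g u) ≠ 0 := by
    intro h3
    apply h1
    apply g.injective
    rw [map_sub, h3, map_zero]
  set q : K := (w - g w) / (u - g u) with hq
  have hgq : g q = q := by
    rw [hq, map_div₀, map_sub, map_sub, div_eq_div_iff h2 h1]
    simp only [Lu] at h
    linear_combination -h
  have hq2 : w - g w = q * (u - g u) := by rw [hq]; field_simp
  refine ⟨w - q * u, q, ?_, hgq, by ring⟩
  rw [map_sub, map_mul, hgq]
  linear_combination -hq2

/-- elements with orbits of length dividing 3 pair trivially. -/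
lemma cubic (hc : Good g c) {u v : K} (hu : g (g (g u)) = u) (hv : g (g (g v)) = v)
    (hu0 : u ≠ 0) (hv0 : v ≠ 0) : c u v = 0 := by
  by_cases hn : g u = u
  · exact hc.st.van_left hc.van hn hu0 hv0
  have huv : g (g (g (u * v))) = u * v := by rw [map_mul, map_mul, map_mul, hu, hv]
  have hLv := Lu_fix hu hv
  have hLuv := Lu_fix hu huv
  by_cases h0 : Lu g u v = 0
  · obtain ⟨p, q, hp, hq, e⟩ := of_Lu hn h0
    exact hc.st.line hc.van (S := fixS g) (s := u) (p := 0) (q := 1) (r := p) (t := q)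
      (zero_mem _) (one_mem _) hp hq (by ring) e hu0 hv0
  set r : K := Lu g u (u * v) with hr
  set t : K := - Lu g u v with ht
  have hgt : g t = t := by rw [ht, map_neg, hLv]
  have ht0 : t ≠ 0 := neg_ne_zero.mpr h0
  have hd0 : r + t * u ≠ 0 := by
    intro h
    apply hn
    have h1 : g (r + t * u) = 0 := by rw [h, map_zero]
    rw [map_add, map_mul, hLuv, hgt] at h1
    have h2 : t * (g u - u) = 0 := by linear_combination h1 - h
    rcases mul_eq_zero.mp h2 with h3 | h3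
    · exact absurd h3 ht0
    · exact sub_eq_zero.mp h3
  have hLw : Lu g u ((r + t * u) * v) = 0 := by
    have e1 : Lu g u ((r + t * u) * v) = r * Lu g u v + t * Lu g u (u * v) := by
      simp only [Lu, map_mul, map_add, hLuv, hgt]
      ring
    rw [e1, ← hr]
    rw [ht]
    ring
  obtain ⟨p, q, hp, hq, e⟩ := of_Lu hn hLw
  have hw0 : (r + t * u) * v ≠ 0 := mul_ne_zero hd0 hv0
  have h1 : c u ((r + t * u) * v) = 0 :=
    hc.st.line hc.van (S := fixS g) (s := u) (p := 0) (q := 1) (r := p) (t := q)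
      (zero_mem _) (one_mem _) hp hq (by ring) e hu0 hw0
  have h2 : c u (r + t * u) = 0 :=
    hc.st.line hc.van (S := fixS g) (s := u) (p := 0) (q := 1) (r := r) (t := t)
      (zero_mem _) (one_mem _) hLuv hgt (by ring) rfl hu0 hd0
  rw [hc.st.mul_right u _ v hu0 hd0 hv0, h2, zero_add] at h1
  exact h1

/-- The function `Q(y) = c(y - v, y² + y + 1)` (a transfer) is additive for the group law
`y₃ = (y₁ y₂ - 1) / (y₁ + y₂ + 1)` provided that `v² + v + 1 ∈ F*`. -/
lemma addQ (hc : Good g c) {v y1 y2 y3 : K} (hn : g (v ^ 2 + v + 1) = v ^ 2 + v + 1)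
    (hn0 : v ^ 2 + v + 1 ≠ 0) (hS : y1 + y2 + 1 ≠ 0) (hy3 : y3 = (y1 * y2 - 1) / (y1 + y2 + 1))
    (ha : y1 - v ≠ 0) (hb : y2 - v ≠ 0) (hY : y3 - v ≠ 0) (h1 : y1 ^ 2 + y1 + 1 ≠ 0)
    (h2 : y2 ^ 2 + y2 + 1 ≠ 0) :
    c (y3 - v) (y3 ^ 2 + y3 + 1) =
      c (y1 - v) (y1 ^ 2 + y1 + 1) + c (y2 - v) (y2 ^ 2 + y2 + 1) := by
  set S : K := y1 + y2 + 1 with hSd
  have hSy : S * y3 = y1 * y2 - 1 := by rw [hy3]; field_simp
  -- `a b = S Y + n`
  have e1 : (y1 - v) * (y2 - v) = S * (y3 - v) + (v ^ 2 + v + 1) := by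
    linear_combination (-1) * hSy + v * hSd
  have d1 : (y1 ^ 2 + y1 + 1) / S = y1 - y3 := by
    rw [div_eq_iff hS]
    linear_combination hSy - y1 * hSd
  have d2 : (y2 ^ 2 + y2 + 1) / S = y2 - y3 := by
    rw [div_eq_iff hS]
    linear_combination hSy - y2 * hSd
  have e2 : y1 - v = (y3 - v) + (y1 ^ 2 + y1 + 1) / S := by
    rw [d1]; ring
  have e3 : y2 - v = (y3 - v) + (y2 ^ 2 + y2 + 1) / S := by
    rw [d2]; ring
  have e4 : y3 ^ 2 + y3 + 1 = ((y1 ^ 2 + y1 + 1) / S) * ((y2 ^ 2 + y2 + 1) / S) := by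
    have h3 : S ^ 2 * (y3 ^ 2 + y3 + 1) = (y1 ^ 2 + y1 + 1) * (y2 ^ 2 + y2 + 1) := by
      linear_combination (S * y3 + (y1 * y2 - 1) + S) * hSy +
        (S + (y1 + y2 + 1) + (y1 * y2 - 1)) * hSd
    rw [div_mul_div_comm, eq_div_iff (mul_ne_zero hS hS), ← h3]
    ring
  have hab : (y1 - v) * (y2 - v) ≠ 0 := mul_ne_zero ha hb
  have hSY : S * (y3 - v) ≠ 0 := mul_ne_zero hS hY
  have q1 : (y1 ^ 2 + y1 + 1) / S ≠ 0 := div_ne_zero h1 hS
  have q2 : (y2 ^ 2 + y2 + 1) / S ≠ 0 := div_ne_zero h2 hS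
  have t1 := hc.st.three hc.van hab hSY hn0 e1
  rw [hc.van _ hSY _ hn hn0, hc.st.van_left hc.van hn hn0 hab, sub_zero] at t1
  have t2 := hc.st.three hc.van ha hY q1 e2
  have t3 := hc.st.three hc.van hb hY q2 e3
  rw [hc.st.mul_right _ _ _ hSY ha hb, hc.st.mul_left _ _ _ hS hY ha,
    hc.st.mul_left _ _ _ hS hY hb] at t1
  rw [e4, hc.st.mul_right _ _ _ hY q1 q2, t2, t3, hc.st.div_left h1 hS ha,
    hc.st.div_left h2 hS hb, hc.st.skew h1 ha, hc.st.skew h2 hb]
  have t4 : c S (y1 - v) + c (y3 - v) (y1 - v) + (c S (y2 - v) + c (y3 - v) (y2 - v)) = 0 :=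
    t1.symm
  have t5 : ∀ p q r s A B : T, p + q + (r + s) = 0 →
      q - (-A - p) + (s - (-B - r)) = A + B := by
    intro p q r s A B h
    have : q - (-A - p) + (s - (-B - r)) = (p + q + (r + s)) + (A + B) := by abel
    rw [this, h, zero_add]
  exact t5 _ _ _ _ _ _ t4

end Good

end Pool.Agent.MP_1b9aaa_al
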