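import Pool.Agent.Lib.MP_1b9aaa_al.Se1

/-!
Steinberg symbols on a field with an automorphism of order dividing 6.

Main theorem `Good.eq_zero_six`: let `g` be a field automorphism of `K` with `g^6 = 1`, and let
`c : K* × K* → T` be a Steinberg symbol with values in an abelian group without 2-torsion and
without 3-torsion.  If `c(x, f) = 0` for all `f` fixed by `g`, then `c = 0`.
In other words: `K_2(K)[1/6]` is generated by the symbols `{x, f}` with `f` in the fixed field.
-/

set_option autoImplicit false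

namespace Pool.Agent.MP_1b9aaa_al

open IsSteinberg

variable {K T : Type*} [Field K] [AddCommGroup T]

namespace Good

variable {g : K ≃+* K} {c : K → K → T}

/-- `c(x, w) = 0` if `w^3 ∈ F`, no 3-torsion. -/
lemma of_cube (h3 : ∀ t : T, t + t + t = 0 → t = 0) (hc : Good g c) {x w : K} (hx : x ≠ 0)
    (hw : w ≠ 0) (h : g (w * w * w) = w * w * w) : c x w = 0 := by
  apply h3
  rw [← hc.st.mul_right x w w hx hw hw, ← hc.st.mul_right x (w * w) w hx (mul_ne_zero hw hw) hw]
  exact hc.van x hx _ h (mul_ne_zero (mul_ne_zero hw hw) hw)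

/-- `c(x, w) = 0` if `w^2 ∈ F`, no 2-torsion. -/
lemma of_square (h2 : ∀ t : T, t + t = 0 → t = 0) (hc : Good g c) {x w : K} (hx : x ≠ 0)
    (hw : w ≠ 0) (h : g (w * w) = w * w) : c x w = 0 := by
  apply h2
  rw [← hc.st.mul_right x w w hx hw hw]
  exact hc.van x hx _ h (mul_ne_zero hw hw)

/-- data: an element of trace zero of the cubic field and an element of trace `-1` of the
quadratic field -/
structure Dat (g : K ≃+* K) (e v : K) : Prop where
  e3 : g (g (g e)) = e
  tr : e + g e + g (g e) = 0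
  e0 : e ≠ 0
  gv : g v = -1 - v
  vF : g v ≠ v

namespace Dat

variable {e v : K}

lemma ge0 (D : Dat g e v) : g e ≠ 0 := g_ne D.e0

lemma gge0 (D : Dat g e v) : g (g e) ≠ 0 := g_ne D.ge0

lemma sub_v (D : Dat g e v) {y : K} (hy : g (g (g y)) = y) : y - v ≠ 0 := by
  intro h
  have h1 : y = v := sub_eq_zero.mp h
  apply D.vF
  rw [h1] at hy
  have h2 : g (g (g v)) = g v := by
    rw [D.gv, map_sub, map_neg, map_one, D.gv]
    have : (-1 : K) - (-1 - v) = v := by ring
    rw [this, D.gv]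
  rw [← h2, hy]

lemma v0 (D : Dat g e v) : v ≠ 0 := by
  have h := D.sub_v (y := 0) (by rw [map_zero, map_zero, map_zero])
  rwa [zero_sub, neg_ne_zero] at h

lemma v1 (D : Dat g e v) : 1 + v ≠ 0 := by
  have h := D.sub_v (y := -1) (by rw [map_neg, map_neg, map_neg, map_one, map_one, map_one])
  intro h1
  apply h
  linear_combination -h1

lemma x0 (D : Dat g e v) : g e - v * e ≠ 0 := by
  have hy : g (g (g (g e / e))) = g e / e := by
    rw [map_div₀, map_div₀, map_div₀, D.e3]
  have h := D.sub_v hy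
  intro h1
  apply h
  have he := D.e0
  field_simp
  linear_combination h1

lemma vv (D : Dat g e v) : g (v * (1 + v)) = v * (1 + v) := by
  rw [map_mul, map_add, map_one, D.gv]; ring

lemma nn (D : Dat g e v) : g (v ^ 2 + v + 1) = v ^ 2 + v + 1 := by
  rw [map_add, map_add, map_one, map_pow, D.gv]; ring

end Dat

variable {e v : K}

/-- the case `(g e / e)^2 + (g e / e) + 1 = 0`. -/
lemma xe_kummer (h3 : ∀ t : T, t + t + t = 0 → t = 0) (hc : Good g c) (D : Dat g e v)
    (hq : (g e / e) ^ 2 + g e / e + 1 = 0) : c (g e - v * e) e = 0 := by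
  refine hc.of_cube h3 D.x0 D.e0 ?_
  have he := D.e0
  have h1 : (g e) ^ 2 + g e * e + e ^ 2 = 0 := by
    field_simp at hq
    linear_combination hq
  have h2 : (g e) ^ 3 = e ^ 3 := by linear_combination (g e - e) * h1
  rw [map_mul, map_mul]
  linear_combination h2

/-- the case of characteristic three. -/
lemma xe_three (h2 : ∀ t : T, t + t = 0 → t = 0) (hc : Good g c) (D : Dat g e v)
    (hK : (3 : K) = 0) : c (g e - v * e) e = 0 := by
  set f : K := g e - e with hf
  set u : K := v - 1 with hu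
  have hgf : g f = f := by
    rw [hf, map_sub]
    linear_combination D.tr - g e * hK
  have hu0 : u ≠ 0 := by
    intro h
    apply D.vF
    have : v = 1 := by linear_combination h
    rw [this, map_one]
  have hgu : g (u * u) = u * u := by
    rw [hu, map_mul, map_sub, map_one, D.gv]
    linear_combination (2 * v + 1) * hK
  have hcu : ∀ x : K, x ≠ 0 → c x u = 0 := fun x hx => hc.of_square h2 hx hu0 hgu
  have hx : g e - v * e = f - u * e := by rw [hf, hu]; ring
  have hx0 := D.x0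
  rw [hx] at hx0 ⊢
  have hue : u * e ≠ 0 := mul_ne_zero hu0 D.e0
  by_cases hf0 : f = 0
  · rw [hf0] at hx0 ⊢
    have e1 : (0 - u * e) = (-1) * (u * e) := by ring
    have m0 : (-1 : K) ≠ 0 := neg_ne_zero.mpr one_ne_zero
    rw [e1, hc.st.mul_left _ _ _ m0 hue D.e0,
      hc.st.van_left hc.van (neg_mem (one_mem _)) m0 D.e0, zero_add,
      hc.st.mul_left _ _ _ hu0 D.e0 D.e0, hc.st.self hc.van D.e0, add_zero,
      hc.st.skew hu0 D.e0, hcu _ D.e0, neg_zero]
  · have h := hc.st.three hc.van hf0 hx0 hue (show f = (f - u * e) + u * e by ring)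
    rw [hc.van _ hx0 f hgf hf0, hc.van _ hue f hgf hf0, sub_zero,
      hc.st.mul_right _ _ _ hx0 hu0 D.e0, hcu _ hx0, zero_add] at h
    exact h

/-- the main case: `3 Q(g e / e) = 0`. -/
lemma xe_main (h2 : ∀ t : T, t + t = 0 → t = 0) (h3 : ∀ t : T, t + t + t = 0 → t = 0)
    (hc : Good g c) (D : Dat g e v) (hK : (3 : K) ≠ 0) (hn : v ^ 2 + v + 1 ≠ 0)
    (hq : (g e / e) ^ 2 + g e / e + 1 ≠ 0) : c (g e - v * e) e = 0 := by
  have he := D.e0
  have he1 := D.ge0
  have he2 := D.gge0
  set y : K := g e / e with hy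
  have hye : y * e = g e := by rw [hy]; field_simp
  have hy3 : g (g (g y)) = y := by rw [hy, map_div₀, map_div₀, map_div₀, D.e3]
  have hy0 : y ≠ 0 := div_ne_zero he1 he
  have hgy : g y * (y * e) = g (g e) := by rw [hye, hy, map_div₀]; field_simp
  have hrel : 1 + y + g y * y = 0 := by
    have h := D.tr
    rw [← hgy, ← hye] at h
    have h' : (1 + y + g y * y) * e = 0 := by linear_combination h
    exact (mul_eq_zero.mp h').resolve_right he
  have hy1 : y + 1 ≠ 0 := by
    intro h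
    have h1 : g y * y = 0 := by linear_combination hrel - h
    rcases mul_eq_zero.mp h1 with h4 | h4
    · exact (g_ne (g := g) hy0) h4
    · exact hy0 h4
  have hS : y + y + 1 ≠ 0 := by
    intro h
    have h1 : (2 : K) * (g y - y) = 0 := by
      have h4 : g (y + y + 1) = 0 := by rw [h, map_zero]
      rw [map_add, map_add, map_one] at h4
      linear_combination h4 - h
    rcases mul_eq_zero.mp h1 with h4 | h4
    · have h5 : (1 : K) = 0 := by linear_combination h - y * h4
      exact one_ne_zero h5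
    · have h5 : g y = y := sub_eq_zero.mp h4
      apply hq
      rw [h5] at hrel
      linear_combination hrel
  set z : K := (y * y - 1) / (y + y + 1) with hz
  have hz3 : g (g (g z)) = z := by
    simp only [hz, map_div₀, map_sub, map_add, map_mul, map_one, hy3]
  have hzS : z * (y + y + 1) = y * y - 1 := by rw [hz]; exact div_mul_cancel₀ _ hS
  have hqz : z ^ 2 + z + 1 ≠ 0 := by
    intro h
    have h4 : (y ^ 2 + y + 1) * (y ^ 2 + y + 1) = 0 := by
      have h5 : (z ^ 2 + z + 1) * (y + y + 1) ^ 2 = (y ^ 2 + y + 1) * (y ^ 2 + y + 1) := by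
        linear_combination (z * (y + y + 1) + (y * y - 1) + (y + y + 1)) * hzS
      rw [← h5, h, zero_mul]
    exact (mul_ne_zero hq hq) h4
  have hS2 : z + y + 1 ≠ 0 := by
    intro h
    have h4 : (3 : K) * (y * (y + 1)) = 0 := by
      linear_combination (y + y + 1) * h - hzS
    exact (mul_ne_zero hK (mul_ne_zero hy0 hy1)) h4
  set w : K := (z * y - 1) / (z + y + 1) with hw
  have hw' : w = (y ^ 3 - 3 * y - 1) / (3 * (y * (y + 1))) := by
    have hD : (3 : K) * (y * (y + 1)) ≠ 0 := mul_ne_zero hK (mul_ne_zero hy0 hy1)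
    rw [hw, div_eq_div_iff hS2 hD]
    have hS' : (y + y + 1) ≠ 0 := hS
    apply mul_left_cancel₀ hS'
    linear_combination (y * (3 * (y * (y + 1))) - (y ^ 3 - 3 * y - 1)) * hzS
  have hgw : g w = w := by
    have hD : (3 : K) * (y * (y + 1)) ≠ 0 := mul_ne_zero hK (mul_ne_zero hy0 hy1)
    have hgy0 : g y ≠ 0 := g_ne hy0
    have hgy1 : g y + 1 ≠ 0 := by
      have := g_ne (g := g) hy1
      rwa [map_add, map_one] at this
    have hD' : (3 : K) * (g y * (g y + 1)) ≠ 0 := mul_ne_zero hK (mul_ne_zero hgy0 hgy1)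
    rw [hw', map_div₀, map_sub, map_sub, map_mul, map_mul, map_mul, map_pow, map_add, map_one,
      map_ofNat, div_eq_div_iff hD' hD]
    have hgyy : g y * y = -1 - y := by linear_combination hrel
    apply mul_left_cancel₀ (pow_ne_zero 3 hy0)
    linear_combination (3 * y * (y + 1) * ((g y * y) ^ 2 + (g y * y) * (-1 - y) + (-1 - y) ^ 2)
      - 9 * y ^ 3 * (y + 1) - 3 * (y ^ 3 - 3 * y - 1) * (y * (g y * y) + y * (-1 - y) + y ^ 2))
      * hgyy
  have hw3 : g (g (g w)) = w := by rw [hgw, hgw, hgw]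
  have hqw : w ^ 2 + w + 1 ≠ 0 := by
    intro h
    have h4 : (w ^ 2 + w + 1) * (z + y + 1) ^ 2 = (z ^ 2 + z + 1) * (y ^ 2 + y + 1) := by
      have hwS : w * (z + y + 1) = z * y - 1 := by rw [hw]; exact div_mul_cancel₀ _ hS2
      linear_combination (w * (z + y + 1) + (z * y - 1) + (z + y + 1)) * hwS
    rw [h, zero_mul] at h4
    exact (mul_ne_zero hqz hq) h4.symm
  have a1 := hc.addQ (v := v) (y1 := y) (y2 := y) (y3 := z) D.nn hn hS hz (D.sub_v hy3)
    (D.sub_v hy3) (D.sub_v hz3) hq hq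
  have a2 := hc.addQ (v := v) (y1 := z) (y2 := y) (y3 := w) D.nn hn hS2 hw (D.sub_v hz3)
    (D.sub_v hy3) (D.sub_v hw3) hqz hq
  rw [hc.van _ (D.sub_v hw3) (w ^ 2 + w + 1) (by
    show g (w ^ 2 + w + 1) = w ^ 2 + w + 1
    rw [map_add, map_add, map_one, map_pow, hgw]) hqw, a1] at a2
  have hQ : c (y - v) (y ^ 2 + y + 1) = 0 := h3 _ a2.symm
  -- `y² + y + 1 = f / e²`
  have hf : (y ^ 2 + y + 1) * (e * e) = g e ^ 2 + g e * e + e ^ 2 := by rw [← hye]; ring
  have hyv := D.sub_v hy3
  have hee : e * e ≠ 0 := mul_ne_zero he he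
  have hfF : g (g e ^ 2 + g e * e + e ^ 2) = g e ^ 2 + g e * e + e ^ 2 := by
    rw [map_add, map_add, map_mul, map_pow, map_pow]
    have : g (g e) = - e - g e := by linear_combination D.tr
    rw [this]; ring
  have h5 : c (y - v) ((y ^ 2 + y + 1) * (e * e)) = 0 := by
    rw [hf]
    refine hc.van _ hyv _ hfF ?_
    rw [← hf]
    exact mul_ne_zero hq hee
  rw [hc.st.mul_right _ _ _ hyv hq hee, hQ, zero_add, hc.st.mul_right _ _ _ hyv he he] at h5
  have h6 := h2 _ h5
  have h7 : g e - v * e = (y - v) * e := by rw [← hye]; ring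
  rw [h7, hc.st.mul_left _ _ _ hyv he he, h6, hc.st.self hc.van he, add_zero]

/-- `c(g e - v e, e) = 0`, provided that `v² + v + 1 ≠ 0`. -/
lemma xe (h2 : ∀ t : T, t + t = 0 → t = 0) (h3 : ∀ t : T, t + t + t = 0 → t = 0)
    (hc : Good g c) (D : Dat g e v) (hn : v ^ 2 + v + 1 ≠ 0) : c (g e - v * e) e = 0 := by
  by_cases hK : (3 : K) = 0
  · exact hc.xe_three h2 D hK
  by_cases hq : (g e / e) ^ 2 + g e / e + 1 = 0
  · exact hc.xe_kummer h3 D hq
  · exact hc.xe_main h2 h3 D hK hn hq

/-- `c(v, g e) = c(v, g² e)`. -/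
lemma vge (h2 : ∀ t : T, t + t = 0 → t = 0) (h3 : ∀ t : T, t + t + t = 0 → t = 0)
    (hc : Good g c) (D : Dat g e v) (hn : v ^ 2 + v + 1 ≠ 0) :
    c v (g e) = c v (g (g e)) := by
  have hx := hc.xe h2 h3 D hn
  set x : K := g e - v * e with hxd
  have hx0 : x ≠ 0 := D.x0
  have he := D.e0
  have he1 := D.ge0
  have he2 := D.gge0
  have hv0 := D.v0
  have hv1 := D.v1
  have m0 : (-1 : K) ≠ 0 := neg_ne_zero.mpr one_ne_zero
  have hm : (-1 : K) ∈ fixS g := neg_mem (one_mem _)
  have hex : c e x = 0 := by rw [hc.st.skew he hx0, hx, neg_zero]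
  have c1 := hc.st.three hc.van hx0 (mul_ne_zero m0 (mul_ne_zero hv0 he)) he1
    (show x = (-1) * (v * e) + g e by rw [hxd]; ring)
  have c2 := hc.st.three hc.van hx0 (mul_ne_zero m0 (mul_ne_zero hv1 he)) (mul_ne_zero m0 he2)
    (show x = (-1) * ((1 + v) * e) + (-1) * g (g e) by
      rw [hxd]; linear_combination D.tr)
  have k1 : c e (g e) = 0 := hc.cubic D.e3 (by rw [D.e3]) he he1
  have k2 : c e (g (g e)) = 0 := hc.cubic D.e3 (by rw [D.e3]) he he2
  rw [hc.st.mul_left _ _ _ m0 (mul_ne_zero hv0 he) he1, hc.st.van_left hc.van hm m0 he1, zero_add,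
    hc.st.mul_left _ _ _ hv0 he he1, k1, add_zero,
    hc.st.mul_left _ _ _ m0 (mul_ne_zero hv0 he) hx0, hc.st.van_left hc.van hm m0 hx0, zero_add,
    hc.st.mul_left _ _ _ hv0 he hx0, hex, add_zero] at c1
  rw [hc.st.mul_left _ _ _ m0 (mul_ne_zero hv1 he) (mul_ne_zero m0 he2),
    hc.st.van_left hc.van hm m0 (mul_ne_zero m0 he2), zero_add,
    hc.st.mul_right _ _ _ (mul_ne_zero hv1 he) m0 he2,
    hc.van _ (mul_ne_zero hv1 he) _ hm m0, zero_add,
    hc.st.mul_left _ _ _ hv1 he he2, k2, add_zero,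
    hc.st.mul_left _ _ _ m0 (mul_ne_zero hv1 he) hx0, hc.st.van_left hc.van hm m0 hx0, zero_add,
    hc.st.mul_left _ _ _ hv1 he hx0, hex, add_zero,
    hc.st.mul_left _ _ _ m0 he2 hx0, hc.st.van_left hc.van hm m0 hx0, zero_add] at c2
  -- the sum
  have hvv := D.vv
  have s1 : c v x + c (1 + v) x = 0 := by
    rw [← hc.st.mul_left _ _ _ hv0 hv1 hx0]
    exact hc.st.van_left hc.van hvv (mul_ne_zero hv0 hv1) hx0
  have s2 : c (g e) x + c (g (g e)) x = 0 := by
    have hN : g (e * (g e * g (g e))) = e * (g e * g (g e)) := by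
      rw [map_mul, map_mul, D.e3]; ring
    have h := hc.st.van_left hc.van hN (mul_ne_zero he (mul_ne_zero he1 he2)) hx0
    rw [hc.st.mul_left _ _ _ he (mul_ne_zero he1 he2) hx0, hex, zero_add,
      hc.st.mul_left _ _ _ he1 he2 hx0] at h
    exact h
  have s3 : c v (g (g e)) + c (1 + v) (g (g e)) = 0 := by
    rw [← hc.st.mul_left _ _ _ hv0 hv1 he2]
    exact hc.st.van_left hc.van hvv (mul_ne_zero hv0 hv1) he2
  have s4 : c v (g e) + c (1 + v) (g (g e)) = 0 := by
    rw [c1, c2]
    have : c v x - c (g e) x + (c (1 + v) x - c (g (g e)) x) =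
        (c v x + c (1 + v) x) - (c (g e) x + c (g (g e)) x) := by abel
    rw [this, s1, s2, sub_zero]
  exact add_right_cancel (s4.trans s3.symm)

/-- `c(v, e) = 0`. -/
lemma ve (h2 : ∀ t : T, t + t = 0 → t = 0) (h3 : ∀ t : T, t + t + t = 0 → t = 0)
    (hc : Good g c) (D : Dat g e v) : c v e = 0 := by
  have he := D.e0
  have he1 := D.ge0
  have he2 := D.gge0
  have hv0 := D.v0
  by_cases hn : v ^ 2 + v + 1 = 0
  · rw [hc.st.skew hv0 he, hc.of_cube h3 he hv0, neg_zero]
    have : v * v * v = 1 := by linear_combination (v - 1) * hn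
    rw [this, map_one]
  · have h1 := hc.vge h2 h3 D hn
    have D' : Dat g (g (g e)) v := by
      refine ⟨?_, ?_, he2, D.gv, D.vF⟩
      · rw [D.e3]
      · rw [D.e3]; linear_combination D.tr
    have h4 := hc.vge h2 h3 D' hn
    rw [D.e3] at h4
    apply h3
    have hN : g (e * (g e * g (g e))) = e * (g e * g (g e)) := by
      rw [map_mul, map_mul, D.e3]; ring
    have h := hc.van v hv0 _ hN (mul_ne_zero he (mul_ne_zero he1 he2))
    rw [hc.st.mul_right _ _ _ hv0 he (mul_ne_zero he1 he2),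
      hc.st.mul_right _ _ _ hv0 he1 he2, ← h1, ← h4] at h
    rw [add_assoc]
    exact h

/-- `c(K_2*, K_3*) = 0`. -/
lemma K2K3 (h2 : ∀ t : T, t + t = 0 → t = 0) (h3 : ∀ t : T, t + t + t = 0 → t = 0)
    (hc : Good g c) {r z : K} (hr : g (g r) = r) (hz : g (g (g z)) = z) (hr0 : r ≠ 0)
    (hz0 : z ≠ 0) : c r z = 0 := by
  by_cases hrF : g r = r
  · exact hc.st.van_left hc.van hrF hr0 hz0
  by_cases hzF : g z = z
  · exact hc.van r hr0 z hzF hz0
  by_cases ht : r + g r = 0
  · rw [hc.st.skew hr0 hz0, hc.of_square h2 hz0 hr0, neg_zero]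
    have : g r = - r := by linear_combination ht
    rw [map_mul, this]; ring
  set t : K := r + g r with htd
  have hgt : g t = t := by rw [htd, map_add, hr]; ring
  set v : K := - (r / t) with hv
  have hgv : g v = -1 - v := by
    rw [hv, map_neg, map_div₀, hgt]
    field_simp
    rw [htd]; ring
  have hvF : g v ≠ v := by
    intro h
    apply hrF
    rw [hv, map_neg, map_div₀, hgt, neg_inj, div_left_inj' ht] at h
    exact h
  set e : K := g z - g (g z) with hed
  have he0 : e ≠ 0 := by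
    intro h
    apply hzF
    have h1 : g z = g (g z) := sub_eq_zero.mp h
    exact g.injective h1.symm
  have D1 : Dat g e v := by
    refine ⟨?_, ?_, he0, hgv, hvF⟩
    · simp only [hed, map_sub, hz]
    · simp only [hed, map_sub, hz]; ring
  have D2 : Dat g (z * e) v := by
    refine ⟨?_, ?_, mul_ne_zero hz0 he0, hgv, hvF⟩
    · simp only [hed, map_sub, map_mul, hz]
    · simp only [hed, map_sub, map_mul, hz]; ring
  have h1 := hc.ve h2 h3 D1
  have h4 := hc.ve h2 h3 D2
  have hv0 := D1.v0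
  rw [hc.st.mul_right _ _ _ hv0 hz0 he0, h1, add_zero] at h4
  have hrv : r = (-t) * v := by rw [hv]; field_simp
  have hnt : -t ≠ 0 := neg_ne_zero.mpr ht
  rw [hrv, hc.st.mul_left _ _ _ hnt hv0 hz0, h4, add_zero]
  refine hc.st.van_left hc.van ?_ hnt hz0
  show g (-t) = -t
  rw [map_neg, hgt]

/-- `c(g^3 u, g^3 v) = - c(u, v)` if `g^6 = 1`. -/
lemma tau3 (hc : Good g c) (h6 : ∀ x, g (g (g (g (g (g x))))) = x) {u v : K} (hu : u ≠ 0)
    (hv : v ≠ 0) : c (g (g (g u))) (g (g (g v))) = - c u v := by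
  set τ : K ≃+* K := (g.trans g).trans g with hτ
  have hτ1 : ∀ x, τ x = g (g (g x)) := fun x => rfl
  set C : K → K → T := fun x y => c x y + c (τ x) (τ y) with hC
  have hτc : IsSteinberg (Pool.Agent.MP_1b9aaa_al.tw τ c) := hc.st.tw τ
  have hCs : IsSteinberg C := by
    refine ⟨fun a b x ha hb hx => ?_, fun x a b hx ha hb => ?_, fun a ha h1 => ?_⟩
    · have h1 := hc.st.mul_left a b x ha hb hx
      have h2 := hτc.mul_left a b x ha hb hx
      simp only [Pool.Agent.MP_1b9aaa_al.tw] at h2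
      simp only [hC, h1, h2]
      abel
    · have h1 := hc.st.mul_right x a b hx ha hb
      have h2 := hτc.mul_right x a b hx ha hb
      simp only [Pool.Agent.MP_1b9aaa_al.tw] at h2
      simp only [hC, h1, h2]
      abel
    · have h2 := hc.st.steinberg a ha h1
      have h3 := hτc.steinberg a ha h1
      simp only [Pool.Agent.MP_1b9aaa_al.tw] at h3
      simp only [hC, h2, h3, add_zero]
  have hCv : VanOn C (fixS τ) := by
    intro x hx f hf hf0
    have hf' : g (g (g f)) = f := hf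
    simp only [hC]
    have e1 : τ f = f := hf
    have hτx : τ x ≠ 0 := (map_ne_zero_iff τ τ.injective).mpr hx
    rw [e1, ← hc.st.mul_left x (τ x) f hx hτx hf0]
    refine hc.cubic ?_ hf' (mul_ne_zero hx hτx) hf0
    rw [hτ1, map_mul, map_mul, map_mul, h6, mul_comm]
  have key : C u v = 0 := by
    by_cases h : τ u = u
    · exact hCs.van_left hCv h hu hv
    · obtain ⟨p, q, hp, hq, e⟩ := coords τ (s := u) (m := v) (by rw [hτ1, hτ1, h6])
        (by rw [hτ1, hτ1, h6]) h
      exact hCs.line hCv (s := u) (p := 0) (q := 1) (r := p) (t := q)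
        (zero_mem _) (one_mem _) hp hq (by ring) e hu hv
  exact eq_neg_of_add_eq_zero_right key

/-- **Theorem** (T6). -/
theorem eq_zero_six (h2 : ∀ t : T, t + t = 0 → t = 0) (h3 : ∀ t : T, t + t + t = 0 → t = 0)
    (hc : Good g c) (h6 : ∀ x, g (g (g (g (g (g x))))) = x) {u v : K} (hu : u ≠ 0)
    (hv : v ≠ 0) : c u v = 0 := by
  -- `c(K_2*, K*) = 0`
  have hM : ∀ r x : K, g (g r) = r → r ≠ 0 → x ≠ 0 → c r x = 0 := by
    intro r x hr hr0 hx
    apply h2
    have hx3 : g (g (g x)) ≠ 0 := g_ne (g_ne (g_ne hx))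
    have h1 : c r (g (g (g x))) = c r x := by
      have h4 := hc.tau3 h6 (u := g r) (v := x) (g_ne hr0) hx
      have h5 : g (g (g (g r))) = r := by rw [hr, hr]
      rw [h5, hc.gM hr hr0 hx, neg_neg] at h4
      exact h4
    have h4 : c r (x * g (g (g x))) = 0 := by
      refine hc.K2K3 h2 h3 hr ?_ hr0 (mul_ne_zero hx hx3)
      rw [map_mul, map_mul, map_mul, h6, mul_comm]
    rw [hc.st.mul_right _ _ _ hr0 hx hx3, h1] at h4
    exact h4
  set ρ : K ≃+* K := g.trans g with hρ
  have hρ1 : ∀ x, ρ x = g (g x) := fun x => rfl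
  have hG : Good ρ c := by
    refine ⟨hc.st, ?_⟩
    intro x hx f hf hf0
    have hf' : g (g f) = f := hf
    rw [hc.st.skew hx hf0, hM f x hf' hf0 hx, neg_zero]
  exact hG.cubic (by rw [hρ1, hρ1, hρ1, h6]) (by rw [hρ1, hρ1, hρ1, h6]) hu hv

/-- A Steinberg symbol `c` on `K`, killed by an integer `n` prime to 6, which is zero on
`K* × F*`, where `F` is the fixed field of an automorphism `g` with `g^6 = 1`, is zero. -/
theorem eq_zero_of_coprime_six (hc : Good g c) (h6 : ∀ x, g (g (g (g (g (g x))))) = x) {n : ℕ}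
    (hn2 : Nat.Coprime 2 n) (hn3 : Nat.Coprime 3 n) (hcn : ∀ u v, n • c u v = 0) {u v : K}
    (hu : u ≠ 0) (hv : v ≠ 0) : c u v = 0 := by
  set S : AddSubgroup T := (nsmulAddMonoidHom (α := T) n).ker with hS
  set c' : K → K → S := fun u v => ⟨c u v, hcn u v⟩ with hc'
  have hg : Good g c' := by
    refine ⟨⟨?_, ?_, ?_⟩, ?_⟩
    · intro a b x ha hb hx
      exact Subtype.ext (hc.st.mul_left a b x ha hb hx)
    · intro x a b hx ha hb
      exact Subtype.ext (hc.st.mul_right x a b hx ha hb)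
    · intro a ha h1
      exact Subtype.ext (hc.st.steinberg a ha h1)
    · intro x hx f hf hf0
      exact Subtype.ext (hc.van x hx f hf hf0)
  have key : ∀ m : ℕ, Nat.Coprime m n → ∀ t : S, m • t = 0 → t = 0 := by
    rintro m hm ⟨t, ht⟩ h
    apply Subtype.ext
    have h' : m • t = 0 := congrArg Subtype.val h
    have ht' : n • t = 0 := ht
    have h1 := addOrderOf_dvd_of_nsmul_eq_zero h'
    have h4 := addOrderOf_dvd_of_nsmul_eq_zero ht'
    have h5 : addOrderOf t = 1 := Nat.eq_one_of_dvd_coprimes hm h1 h4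
    exact AddMonoid.addOrderOf_eq_one_iff.mp h5
  have h2 : ∀ t : S, t + t = 0 → t = 0 := fun t h => key 2 hn2 t (by rw [two_smul]; exact h)
  have h3 : ∀ t : S, t + t + t = 0 → t = 0 := fun t h =>
    key 3 hn3 t (by rw [show (3 : ℕ) = 2 + 1 from rfl, add_smul, two_smul, one_smul]; exact h)
  exact congrArg Subtype.val (Good.eq_zero_six h2 h3 hg h6 hu hv)

end Good

end Pool.Agent.MP_1b9aaa_al
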