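import Mathlib

/-!
Steinberg symbols on a field with an automorphism of order dividing 4.

Main theorem `Good.eq_zero`: let `g` be a field automorphism of `K` with `g^4 = 1`, and let
`c : K* × K* → T` be a Steinberg symbol (bimultiplicative, `c(a, 1-a) = 0`) with values in an
abelian group without 2-torsion.  If `c(x, f) = 0` for all `f` fixed by `g`, then `c = 0`.
In other words: `K_2(K)[1/2]` is generated by the symbols `{x, f}` with `f` in the fixed field.
-/

set_option autoImplicit false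

namespace Pool.Agent.MP_1b9aaa_al

/-- Steinberg symbols, as functions `K → K → T` (values at `0` are irrelevant). -/
structure IsSteinberg {K T : Type*} [Field K] [AddCommGroup T] (c : K → K → T) : Prop where
  mul_left : ∀ a b x, a ≠ 0 → b ≠ 0 → x ≠ 0 → c (a * b) x = c a x + c b x
  mul_right : ∀ x a b, x ≠ 0 → a ≠ 0 → b ≠ 0 → c x (a * b) = c x a + c x b
  steinberg : ∀ a, a ≠ 0 → a ≠ 1 → c a (1 - a) = 0

namespace IsSteinberg

variable {K T : Type*} [Field K] [AddCommGroup T] {c : K → K → T}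

lemma one_left (hc : IsSteinberg c) {x : K} (hx : x ≠ 0) : c 1 x = 0 := by
  have h := hc.mul_left 1 1 x one_ne_zero one_ne_zero hx
  rw [one_mul] at h
  exact (left_eq_add.mp h)

lemma one_right (hc : IsSteinberg c) {x : K} (hx : x ≠ 0) : c x 1 = 0 := by
  have h := hc.mul_right x 1 1 hx one_ne_zero one_ne_zero
  rw [one_mul] at h
  exact (left_eq_add.mp h)

lemma inv_left (hc : IsSteinberg c) {a x : K} (ha : a ≠ 0) (hx : x ≠ 0) :
    c a⁻¹ x = - c a x := by
  have h := hc.mul_left a a⁻¹ x ha (inv_ne_zero ha) hx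
  rw [mul_inv_cancel₀ ha, hc.one_left hx] at h
  exact (neg_eq_of_add_eq_zero_right h.symm).symm

lemma inv_right (hc : IsSteinberg c) {a x : K} (ha : a ≠ 0) (hx : x ≠ 0) :
    c x a⁻¹ = - c x a := by
  have h := hc.mul_right x a a⁻¹ hx ha (inv_ne_zero ha)
  rw [mul_inv_cancel₀ ha, hc.one_right hx] at h
  exact (neg_eq_of_add_eq_zero_right h.symm).symm

lemma div_left (hc : IsSteinberg c) {a b x : K} (ha : a ≠ 0) (hb : b ≠ 0) (hx : x ≠ 0) :
    c (a / b) x = c a x - c b x := by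
  rw [div_eq_mul_inv, hc.mul_left _ _ _ ha (inv_ne_zero hb) hx, hc.inv_left hb hx, sub_eq_add_neg]

lemma div_right (hc : IsSteinberg c) {a b x : K} (ha : a ≠ 0) (hb : b ≠ 0) (hx : x ≠ 0) :
    c x (a / b) = c x a - c x b := by
  rw [div_eq_mul_inv, hc.mul_right _ _ _ hx ha (inv_ne_zero hb), hc.inv_right hb hx,
    sub_eq_add_neg]

lemma neg_self (hc : IsSteinberg c) {a : K} (ha : a ≠ 0) : c a (-a) = 0 := by
  by_cases h1 : a = 1
  · subst h1
    exact hc.one_left (neg_ne_zero.mpr one_ne_zero)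
  · have h2 : (1 - a) ≠ 0 := sub_ne_zero.mpr (Ne.symm h1)
    have h3 : a⁻¹ ≠ 1 := by
      intro h; exact h1 (inv_eq_one.mp h)
    have h4 : (1 - a⁻¹) ≠ 0 := sub_ne_zero.mpr (Ne.symm h3)
    have h5 : -a = (1 - a) / (1 - a⁻¹) := by
      field_simp
      ring
    rw [h5, hc.div_right h2 h4 ha, hc.steinberg a ha h1]
    have h6 := hc.steinberg a⁻¹ (inv_ne_zero ha) h3
    rw [hc.inv_left ha h4, neg_eq_zero] at h6
    rw [h6, sub_zero]

/-- the symbol vanishes on `K* × S*` -/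
def VanOn (c : K → K → T) (S : Subfield K) : Prop :=
  ∀ x : K, x ≠ 0 → ∀ f ∈ S, f ≠ 0 → c x f = 0

lemma skew (hc : IsSteinberg c) {a b : K} (ha : a ≠ 0) (hb : b ≠ 0) : c a b = - c b a := by
  have h := hc.neg_self (mul_ne_zero ha hb)
  have e1 : -(a * b) = (-a) * b := by ring
  have e2 : (-a) * b = a * (-b) := by ring
  rw [hc.mul_left a b _ ha hb (neg_ne_zero.mpr (mul_ne_zero ha hb))] at h
  rw [show c a (-(a * b)) = c a b by
    rw [e1, hc.mul_right a (-a) b ha (neg_ne_zero.mpr ha) hb, hc.neg_self ha, zero_add],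
    show c b (-(a * b)) = c b a by
    rw [e1, e2, hc.mul_right b a (-b) hb ha (neg_ne_zero.mpr hb), hc.neg_self hb, add_zero]] at h
  exact eq_neg_of_add_eq_zero_left h

lemma self (hc : IsSteinberg c) {S : Subfield K} (hS : VanOn c S) {a : K} (ha : a ≠ 0) :
    c a a = 0 := by
  have h := hc.neg_self ha
  have e : (-a : K) = (-1) * a := by ring
  rw [e, hc.mul_right a (-1) a ha (neg_ne_zero.mpr one_ne_zero) ha,
    hS a ha (-1) (neg_mem (one_mem S)) (neg_ne_zero.mpr one_ne_zero), zero_add] at h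
  exact h

lemma van_left (hc : IsSteinberg c) {S : Subfield K} (hS : VanOn c S) {f x : K} (hf : f ∈ S)
    (hf0 : f ≠ 0) (hx : x ≠ 0) : c f x = 0 := by
  rw [hc.skew hf0 hx, hS x hx f hf hf0, neg_zero]

/-- three-term relation: `u = v + w`. -/
lemma three (hc : IsSteinberg c) {S : Subfield K} (hS : VanOn c S) {u v w : K} (hu : u ≠ 0)
    (hv : v ≠ 0) (hw : w ≠ 0) (h : u = v + w) : c v w = c v u - c w u := by
  have h1 : v / u ≠ 0 := div_ne_zero hv hu
  have h2 : w / u ≠ 0 := div_ne_zero hw hu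
  have h3 : w / u = 1 - v / u := by
    rw [eq_sub_iff_add_eq, ← add_div, add_comm, ← h, div_self hu]
  have h4 : v / u ≠ 1 := by
    intro h5
    rw [h5, sub_self] at h3
    exact h2 h3
  have h5 := hc.steinberg _ h1 h4
  rw [← h3, hc.div_left hv hu h2, hc.div_right hw hu hv, hc.div_right hw hu hu,
    hc.self hS hu, sub_zero, hc.skew hu hw, sub_neg_eq_add] at h5
  rw [sub_add_eq_add_sub, sub_eq_zero] at h5
  rw [← h5, add_sub_cancel_right]

/-- two nonzero elements of `S + S s` pair trivially. -/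
lemma line (hc : IsSteinberg c) {S : Subfield K} (hS : VanOn c S) {s p q r t u v : K}
    (hp : p ∈ S) (hq : q ∈ S) (hr : r ∈ S) (ht : t ∈ S) (hu : u = p + q * s) (hv : v = r + t * s)
    (hu0 : u ≠ 0) (hv0 : v ≠ 0) : c u v = 0 := by
  by_cases hq0 : q = 0
  · have : u = p := by rw [hu, hq0]; ring
    rw [this] at hu0 ⊢
    exact hc.van_left hS hp hu0 hv0
  by_cases ht0 : t = 0
  · have : v = r := by rw [hv, ht0]; ring
    rw [this] at hv0 ⊢
    exact hS u hu0 r hr hv0
  -- `t u - q v = t p - q r =: e`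
  set e : K := t * p - q * r with he
  have heS : e ∈ S := sub_mem (mul_mem ht hp) (mul_mem hq hr)
  have hrel : t * u = e + q * v := by rw [hu, hv, he]; ring
  have htu : c (t * u) (q * v) = c u v := by
    rw [hc.mul_left t u _ ht0 hu0 (mul_ne_zero hq0 hv0), hc.van_left hS ht ht0
      (mul_ne_zero hq0 hv0), zero_add, hc.mul_right u q v hu0 hq0 hv0, hS u hu0 q hq hq0, zero_add]
  by_cases he0 : e = 0
  · rw [he0, zero_add] at hrel
    rw [← htu, hrel]
    exact hc.self hS (mul_ne_zero hq0 hv0)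
  · have h3 := hc.three hS (mul_ne_zero ht0 hu0) he0 (mul_ne_zero hq0 hv0) hrel
    rw [hc.van_left hS heS he0 (mul_ne_zero hq0 hv0), hc.van_left hS heS he0
      (mul_ne_zero ht0 hu0), zero_sub] at h3
    have h4 : c (q * v) (t * u) = 0 := neg_eq_zero.mp h3.symm
    rw [← htu, hc.skew (mul_ne_zero ht0 hu0) (mul_ne_zero hq0 hv0), h4, neg_zero]

end IsSteinberg

open IsSteinberg

variable {K T : Type*} [Field K] [AddCommGroup T]

/-- the subfield fixed by an automorphism -/
def fixS (g : K ≃+* K) : Subfield K where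
  carrier := {x | g x = x}
  mul_mem' {a b} ha hb := by
    simp only [Set.mem_ofPred_eq, map_mul] at *
    rw [ha, hb]
  one_mem' := map_one g
  add_mem' {a b} ha hb := by
    simp only [Set.mem_ofPred_eq, map_add] at *
    rw [ha, hb]
  zero_mem' := map_zero g
  neg_mem' {a} ha := by
    simp only [Set.mem_ofPred_eq, map_neg] at *
    rw [ha]
  inv_mem' a ha := by
    simp only [Set.mem_ofPred_eq, map_inv₀] at *
    rw [ha]

@[simp] lemma mem_fixS (g : K ≃+* K) (x : K) : x ∈ fixS g ↔ g x = x := Iff.rfl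

/-- coordinates over the fixed field of an automorphism of order two (on a stable set). -/
lemma coords (g : K ≃+* K) {s m : K} (hs : g (g s) = s) (hm : g (g m) = m) (h : g s ≠ s) :
    ∃ p q : K, g p = p ∧ g q = q ∧ m = p + q * s := by
  have hd : s - g s ≠ 0 := sub_ne_zero.mpr (Ne.symm h)
  have hd' : g s - s ≠ 0 := sub_ne_zero.mpr h
  set q : K := (m - g m) / (s - g s) with hq
  have hgq : g q = q := by
    rw [hq, map_div₀, map_sub, map_sub, hs, hm]
    field_simp
    ring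
  have hq2 : m - g m = q * (s - g s) := by
    rw [hq]; field_simp
  refine ⟨m - q * s, q, ?_, hgq, by ring⟩
  rw [map_sub, map_mul, hgq]
  linear_combination -hq2

/-- Good symbols for `g`: Steinberg and zero on `K* × F*`, `F` the fixed field. -/
structure Good (g : K ≃+* K) (c : K → K → T) : Prop where
  st : IsSteinberg c
  van : VanOn c (fixS g)

/-- the twisted symbol -/
def tw (g : K ≃+* K) (c : K → K → T) : K → K → T := fun x y => c (g x) (g y)

lemma IsSteinberg.tw (g : K ≃+* K) {c : K → K → T} (hc : IsSteinberg c) :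
    IsSteinberg (tw g c) where
  mul_left a b x ha hb hx := by
    have e := fun {y : K} (hy : y ≠ 0) => (map_ne_zero_iff g g.injective).mpr hy
    simp only [Pool.Agent.MP_1b9aaa_al.tw, map_mul]
    exact hc.mul_left _ _ _ (e ha) (e hb) (e hx)
  mul_right x a b hx ha hb := by
    have e := fun {y : K} (hy : y ≠ 0) => (map_ne_zero_iff g g.injective).mpr hy
    simp only [Pool.Agent.MP_1b9aaa_al.tw, map_mul]
    exact hc.mul_right _ _ _ (e hx) (e ha) (e hb)
  steinberg a ha h1 := by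
    have e := fun {y : K} (hy : y ≠ 0) => (map_ne_zero_iff g g.injective).mpr hy
    simp only [Pool.Agent.MP_1b9aaa_al.tw, map_sub, map_one]
    exact hc.steinberg _ (e ha) (fun h => h1 (g.injective (by rw [h, map_one])))

namespace Good

variable {g : K ≃+* K} {c : K → K → T}

lemma twG (hc : Good g c) : Good g (Pool.Agent.MP_1b9aaa_al.tw g c) where
  st := hc.st.tw g
  van x hx f hf hf0 := by
    have e := fun {y : K} (hy : y ≠ 0) => (map_ne_zero_iff g g.injective).mpr hy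
    have hf' : g f = f := hf
    show c (g x) (g f) = 0
    rw [hf']
    exact hc.van _ (e hx) f hf hf0

lemma g_ne {x : K} (hx : x ≠ 0) : g x ≠ 0 := (map_ne_zero_iff g g.injective).mpr hx

/-- `M = Fix(g^2)`; `c(M*, M*) = 0`. -/
lemma MM (hc : Good g c) {m n : K} (hm : g (g m) = m) (hn : g (g n) = n) (hm0 : m ≠ 0)
    (hn0 : n ≠ 0) : c m n = 0 := by
  by_cases h : g m = m
  · exact hc.st.van_left hc.van h hm0 hn0
  · obtain ⟨p, q, hp, hq, e⟩ := coords g hm hn h
    exact hc.st.line hc.van (S := fixS g) (s := m) (p := 0) (q := 1) (r := p) (t := q)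
      (zero_mem _) (one_mem _) hp hq (by ring) e hm0 hn0

/-- `c(g^2 u, g^2 v) = - c(u,v)` -/
lemma tau (hc : Good g c) (h4 : ∀ x, g (g (g (g x))) = x) {u v : K} (hu : u ≠ 0) (hv : v ≠ 0) :
    c (g (g u)) (g (g v)) = - c u v := by
  set τ : K ≃+* K := g.trans g with hτ
  have hτ1 : ∀ x, τ x = g (g x) := fun x => rfl
  set C : K → K → T := fun x y => c x y + c (τ x) (τ y) with hC
  have hτc : IsSteinberg (Pool.Agent.MP_1b9aaa_al.tw τ c) := hc.st.tw τ
  have hCs : IsSteinberg C := by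
    refine ⟨fun a b x ha hb hx => ?_, fun x a b hx ha hb => ?_, fun a ha h1 => ?_⟩
    · have h1 := hc.st.mul_left a b x ha hb hx
      have h2 := hτc.mul_left a b x ha hb hx
      simp only [Pool.Agent.MP_1b9aaa_al.tw] at h2
      simp only [hC, h1, h2]
      abel
    · have h1 := hc.st.mul_right x a b hx ha hb
      have h2 := hτc.mul_right x a b hx ha hb
      simp only [Pool.Agent.MP_1b9aaa_al.tw] at h2
      simp only [hC, h1, h2]
      abel
    · have h2 := hc.st.steinberg a ha h1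
      have h3 := hτc.steinberg a ha h1
      simp only [Pool.Agent.MP_1b9aaa_al.tw] at h3
      simp only [hC, h2, h3, add_zero]
  have hCv : VanOn C (fixS τ) := by
    intro x hx f hf hf0
    have hf' : g (g f) = f := hf
    simp only [hC]
    have e1 : τ f = f := hf
    have hτx : τ x ≠ 0 := (map_ne_zero_iff τ τ.injective).mpr hx
    rw [e1, ← hc.st.mul_left x (τ x) f hx hτx hf0]
    refine hc.MM ?_ hf' (mul_ne_zero hx hτx) hf0
    rw [hτ1, map_mul, map_mul, h4, mul_comm]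
  have key : C u v = 0 := by
    by_cases h : τ u = u
    · exact hCs.van_left hCv h hu hv
    · obtain ⟨p, q, hp, hq, e⟩ := coords τ (s := u) (m := v) (by rw [hτ1, hτ1, h4])
        (by rw [hτ1, hτ1, h4]) h
      exact hCs.line hCv (s := u) (p := 0) (q := 1) (r := p) (t := q)
        (zero_mem _) (one_mem _) hp hq (by ring) e hu hv
  exact eq_neg_of_add_eq_zero_right key

/-- `c(g β, x) = - c(β, x)` for `β ∈ M`. -/
lemma gM (hc : Good g c) {β x : K} (hβ : g (g β) = β) (hβ0 : β ≠ 0) (hx : x ≠ 0) :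
    c (g β) x = - c β x := by
  have h := hc.st.mul_left β (g β) x hβ0 (g_ne hβ0) hx
  rw [hc.st.van_left hc.van (f := β * g β) (by
    show g (β * g β) = β * g β
    rw [map_mul, hβ, mul_comm]) (mul_ne_zero hβ0 (g_ne hβ0)) hx] at h
  exact eq_neg_of_add_eq_zero_right h.symm

/-- `c(β, g x) = - (tw c)(β, x)` for `β ∈ M`. -/
lemma Mg (hc : Good g c) {β x : K} (hβ : g (g β) = β) (hβ0 : β ≠ 0) (hx : x ≠ 0) :
    c β (g x) = - Pool.Agent.MP_1b9aaa_al.tw g c β x := by
  have h := hc.gM hβ hβ0 (g_ne (g := g) hx)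
  show c β (g x) = - c (g β) (g x)
  rw [h, neg_neg]

/-- `2 c(u,v) = c(N u, v) - c(N v, u)`. -/
lemma two (hc : Good g c) (h4 : ∀ x, g (g (g (g x))) = x) {u v : K} (hu : u ≠ 0) (hv : v ≠ 0) :
    c u v + c u v = c (u * g (g u)) v - c (v * g (g v)) u := by
  have h1 := hc.st.mul_left u (g (g u)) v hu (g_ne (g_ne hu)) hv
  have h2 := hc.st.mul_left v (g (g v)) u hv (g_ne (g_ne hv)) hu
  have h3 := hc.tau h4 (g_ne (g := g) (g_ne (g := g) hu)) hv
  rw [h4] at h3
  have h4' := hc.st.skew (g_ne (g := g) (g_ne (g := g) hv)) hu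
  have h5 := hc.st.skew hv hu
  rw [h1, h2, h4', h5, h3]
  abel

variable (h2 : ∀ t : T, t + t = 0 → t = 0)
include h2

lemma self_add_eq_zero_iff' {t : T} (h : t + t = 0) : t = 0 := h2 t h

/-- reduction: it is enough that `c(M*, K*) = 0`. -/
lemma of_M (hc : Good g c) (h4 : ∀ x, g (g (g (g x))) = x)
    (hM : ∀ β x : K, g (g β) = β → β ≠ 0 → x ≠ 0 → c β x = 0) {u v : K} (hu : u ≠ 0)
    (hv : v ≠ 0) : c u v = 0 := by
  apply h2
  rw [hc.two h4 hu hv, hM _ _ _ (mul_ne_zero hu (g_ne (g_ne hu))) hv,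
    hM _ _ _ (mul_ne_zero hv (g_ne (g_ne hv))) hu, sub_zero]
  · rw [map_mul, map_mul, h4, mul_comm]
  · rw [map_mul, map_mul, h4, mul_comm]

/-- `c(β, δ) = 0` for `β ∈ M`, `g²δ = -δ` (or `δ^2 ∈ M`). -/
lemma Mδ (hc : Good g c) {β δ : K} (hβ : g (g β) = β) (hβ0 : β ≠ 0) (hδ : g (g δ) = -δ)
    (hδ0 : δ ≠ 0) : c β δ = 0 := by
  apply h2
  rw [← hc.st.mul_right β δ δ hβ0 hδ0 hδ0]
  refine hc.MM hβ ?_ hβ0 (mul_ne_zero hδ0 hδ0)
  rw [map_mul, map_mul, hδ]; ring

lemma uδ (hc : Good g c) (h4 : ∀ x, g (g (g (g x))) = x) {u δ : K} (hu : u ≠ 0)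
    (hδ : g (g δ) = -δ) (hδ0 : δ ≠ 0) : c u δ + c u δ = - c (δ * δ) u := by
  rw [hc.two h4 hu hδ0, Mδ h2 hc _ (mul_ne_zero hu (g_ne (g_ne hu))) hδ hδ0, zero_sub, hδ]
  · have e : δ * -δ = (-1) * (δ * δ) := by ring
    rw [e, hc.st.mul_left _ _ _ (neg_ne_zero.mpr one_ne_zero) (mul_ne_zero hδ0 hδ0) hu,
      hc.st.van_left hc.van (neg_mem (one_mem _)) (neg_ne_zero.mpr one_ne_zero) hu, zero_add]
  · rw [map_mul, map_mul, h4, mul_comm]

/-- `c(s^2 - h, 1 + x s)`-type flip, `φ_P(x) = φ_P(1/(h x))`, for `P = λ (s² - h)`. -/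
lemma flip (hc : Good g c) (h4 : ∀ x, g (g (g (g x))) = x) {s l h x : K}
    (hs : g (g s) = -s) (hs0 : s ≠ 0) (hl : g l = l) (hl0 : l ≠ 0) (hh : g h = h) (hh0 : h ≠ 0)
    (hx : g x = x) (hx0 : x ≠ 0) (hsh : s * s - h ≠ 0) (h1 : 1 + x * s ≠ 0)
    (h1' : 1 + (h * x)⁻¹ * s ≠ 0) :
    c (l * (s * s - h)) (1 + x * s) = c (l * (s * s - h)) (1 + (h * x)⁻¹ * s) := by
  have hM : g (g (s * s - h)) = s * s - h := by
    rw [map_sub, map_sub, map_mul, map_mul, hs, hh, hh]; ring
  set y : K := h * x with hy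
  have hy0 : y ≠ 0 := mul_ne_zero hh0 hx0
  have hyg : g y = y := by rw [hy, map_mul, hh, hx]
  have e1 : s * (y + s) = (s * s - h) + (h * (1 + x * s)) := by rw [hy]; ring
  have e2 : y + s = y * (1 + y⁻¹ * s) := by field_simp
  have hys : y + s ≠ 0 := by rw [e2]; exact mul_ne_zero hy0 h1'
  have h3 := hc.st.three hc.van (mul_ne_zero hs0 hys) hsh (mul_ne_zero hh0 h1) e1
  have e3 : c (h * (1 + x * s)) (s * (y + s)) = 0 := by
    rw [hc.st.mul_right _ _ _ (mul_ne_zero hh0 h1) hs0 hys]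
    rw [hc.st.line hc.van (s := s) (p := h) (q := h * x) (r := 0) (t := 1) (S := fixS g) hh
      (by show g (h * x) = h * x; rw [map_mul, hh, hx]) (zero_mem _) (one_mem _) (by ring)
      (by ring) (mul_ne_zero hh0 h1) hs0]
    rw [hc.st.line hc.van (s := s) (p := h) (q := h * x) (r := y) (t := 1) (S := fixS g) hh
      (by show g (h * x) = h * x; rw [map_mul, hh, hx]) hyg (one_mem _) (by ring)
      (by ring) (mul_ne_zero hh0 h1) hys, add_zero]
  rw [e3, sub_zero, hc.st.mul_right _ _ _ hsh hh0 h1, hc.van _ hsh h hh hh0, zero_add,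
    hc.st.mul_right _ _ _ hsh hs0 hys, Mδ h2 hc hM hsh hs hs0, zero_add, e2,
    hc.st.mul_right _ _ _ hsh hy0 h1', hc.van _ hsh y hyg hy0, zero_add] at h3
  rw [hc.st.mul_left _ _ _ hl0 hsh h1, hc.st.mul_left _ _ _ hl0 hsh h1',
    hc.st.van_left hc.van hl hl0 h1, hc.st.van_left hc.van hl hl0 h1', h3]

/-- relation (A) -/
lemma relA (hc : Good g c) (h4 : ∀ x, g (g (g (g x))) = x) {s t : K}
    (hs : g (g s) = -s) (ht : g (g t) = -t) (h1s : 1 + s ≠ 0) (h1t : 1 + t ≠ 0)
    (h1s' : 1 - s ≠ 0) (h1t' : 1 - t ≠ 0) (hst : s + t ≠ 0) :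
    c (1 - s * s) (1 + t) + c (1 - t * t) (1 + s)
      = c ((s + t) * (s + t)) (1 + s) + c ((s + t) * (s + t)) (1 + t) := by
  have hMs : g (g (1 - s * s)) = 1 - s * s := by
    rw [map_sub, map_sub, map_one, map_one, map_mul, map_mul, hs]; ring
  have hMt : g (g (1 - t * t)) = 1 - t * t := by
    rw [map_sub, map_sub, map_one, map_one, map_mul, map_mul, ht]; ring
  have hδ : g (g (s + t)) = -(s + t) := by rw [map_add, map_add, hs, ht]; ring
  have hMδ : g (g ((s + t) * (s + t))) = (s + t) * (s + t) := by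
    rw [map_mul, map_mul, hδ]; ring
  have hs0 : 1 - s * s ≠ 0 := by
    have : 1 - s * s = (1 - s) * (1 + s) := by ring
    rw [this]; exact mul_ne_zero h1s' h1s
  have ht0 : 1 - t * t ≠ 0 := by
    have : 1 - t * t = (1 - t) * (1 + t) := by ring
    rw [this]; exact mul_ne_zero h1t' h1t
  have hδ0 : (s + t) * (s + t) ≠ 0 := mul_ne_zero hst hst
  -- `c β (1 - t) = - c β (1 + t)` for β ∈ M
  have hneg : ∀ β : K, g (g β) = β → β ≠ 0 → c β (1 - t) = - c β (1 + t) := by
    intro β hβ hβ0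
    have h := hc.MM hβ hMt hβ0 ht0
    have e : 1 - t * t = (1 - t) * (1 + t) := by ring
    rw [e, hc.st.mul_right _ _ _ hβ0 h1t' h1t] at h
    exact eq_neg_of_add_eq_zero_left h
  -- three-term relation `s + t = (1 + s) + (-(1 - t))`
  have h3 := hc.st.three hc.van hst h1s (neg_ne_zero.mpr h1t')
    (show s + t = (1 + s) + (-(1 - t)) by ring)
  have e4 : -(1 - t) = (-1) * (1 - t) := by ring
  have hm1 : (-1 : K) ∈ fixS g := neg_mem (one_mem _)
  have hm0 : (-1 : K) ≠ 0 := neg_ne_zero.mpr one_ne_zero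
  rw [e4, hc.st.mul_right _ _ _ h1s hm0 h1t', hc.van _ h1s _ hm1 hm0, zero_add,
    hc.st.mul_left _ _ _ hm0 h1t' hst, hc.st.van_left hc.van hm1 hm0 hst, zero_add] at h3
  -- double everything
  have d1 := hc.two h4 h1s h1t'
  have d2 := uδ h2 hc h4 h1s hδ hst
  have d3 := uδ h2 hc h4 h1t' hδ hst
  have n1 : (1 + s) * g (g (1 + s)) = 1 - s * s := by
    rw [map_add, map_add, map_one, map_one, hs]; ring
  have n2 : (1 - t) * g (g (1 - t)) = 1 - t * t := by
    rw [map_sub, map_sub, map_one, map_one, ht]; ring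
  rw [n1, n2, hneg _ hMs hs0] at d1
  rw [hneg _ hMδ hδ0] at d3
  rw [h3] at d1
  have d4 : (c (1 + s) (s + t) - c (1 - t) (s + t)) + (c (1 + s) (s + t) - c (1 - t) (s + t))
      = (c (1 + s) (s + t) + c (1 + s) (s + t)) - (c (1 - t) (s + t) + c (1 - t) (s + t)) := by
    abel
  rw [d4, d2, d3] at d1
  have d5 : c (1 - s * s) (1 + t) + c (1 - t * t) (1 + s)
      = -(-c (1 - s * s) (1 + t) - c (1 - t * t) (1 + s)) := by abel
  rw [d5, ← d1]
  abel

end Good

end Pool.Agent.MP_1b9aaa_al
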