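import Pool.Agent.Lib.MP_1b9aaa_al.St

/-!
Steinberg symbols and automorphisms of order 4, characteristic not 2.
-/

set_option autoImplicit false

namespace Pool.Agent.MP_1b9aaa_al

open IsSteinberg

variable {K T : Type*} [Field K] [AddCommGroup T]

namespace Good

variable {g : K ≃+* K} {c : K → K → T}

lemma one_add_ne {s : K} (h2K : (2 : K) ≠ 0) (hs : g (g s) = -s) : 1 + s ≠ 0 := by
  intro h
  have h' : g (g (1 + s)) = 0 := by rw [h, map_zero, map_zero]
  rw [map_add, map_add, map_one, map_one, hs] at h'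
  apply h2K
  linear_combination h + h'

lemma one_sub_ne {s : K} (h2K : (2 : K) ≠ 0) (hs : g (g s) = -s) : 1 - s ≠ 0 := by
  intro h
  have h' : g (g (1 - s)) = 0 := by rw [h, map_zero, map_zero]
  rw [map_sub, map_sub, map_one, map_one, hs] at h'
  apply h2K
  linear_combination h + h'

lemma neg_fix {x s : K} (hx : g x = x) (hs : g (g s) = -s) : g (g (x * s)) = -(x * s) := by
  rw [map_mul, map_mul, hx, hx, hs]; ring

lemma g_neg {s : K} (hs : g (g s) = -s) : g (g (g s)) = -(g s) := by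
  rw [hs, map_neg]

variable (h2 : ∀ t : T, t + t = 0 → t = 0)
include h2

/-- `c(P, 1 + x s) = (tw c)(P, 1 + y s)` for `P = (x s + y g s)^2`. -/
lemma relR (hc : Good g c) (h2K : (2 : K) ≠ 0) (h4 : ∀ x, g (g (g (g x))) = x) {s x y : K}
    (hs : g (g s) = -s) (hx : g x = x) (hy : g y = y)
    (hδ : x * s + y * g s ≠ 0) :
    c ((x * s + y * g s) * (x * s + y * g s)) (1 + x * s)
      = tw g c ((x * s + y * g s) * (x * s + y * g s)) (1 + y * s) := by
  have hxs := neg_fix (g := g) hx hs
  have hys := neg_fix (g := g) hy hs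
  have hygs : g (g (y * g s)) = -(y * g s) := neg_fix hy (g_neg hs)
  have hA := relA h2 hc h4 hxs hygs (one_add_ne h2K hxs) (one_add_ne h2K hygs)
    (one_sub_ne h2K hxs) (one_sub_ne h2K hygs) hδ
  have e1 : (1 : K) + y * g s = g (1 + y * s) := by rw [map_add, map_one, map_mul, hy]
  have e2 : (1 : K) - y * g s * (y * g s) = g (1 - (y * s) * (y * s)) := by
    rw [map_sub, map_one, map_mul, map_mul, hy]
  have hMx : g (g (1 - x * s * (x * s))) = 1 - x * s * (x * s) := by
    rw [map_sub, map_sub, map_one, map_one, map_mul, map_mul, hxs]; ring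
  have hMy : g (g (1 - y * s * (y * s))) = 1 - y * s * (y * s) := by
    rw [map_sub, map_sub, map_one, map_one, map_mul, map_mul, hys]; ring
  have hMδ : g (g ((x * s + y * g s) * (x * s + y * g s)))
      = (x * s + y * g s) * (x * s + y * g s) := by
    rw [map_mul, map_mul, map_add, map_add, hxs, hygs]; ring
  have fx : (1 : K) - x * s * (x * s) = (1 - x * s) * (1 + x * s) := by ring
  have fy : (1 : K) - y * s * (y * s) = (1 - y * s) * (1 + y * s) := by ring
  have nx : (1 : K) - x * s * (x * s) ≠ 0 := by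
    rw [fx]; exact mul_ne_zero (one_sub_ne h2K hxs) (one_add_ne h2K hxs)
  have ny : (1 : K) - y * s * (y * s) ≠ 0 := by
    rw [fy]; exact mul_ne_zero (one_sub_ne h2K hys) (one_add_ne h2K hys)
  have hxF : x ∈ fixS g := hx
  have hyF : y ∈ fixS g := hy
  have z1 : c (1 - x * s * (x * s)) (1 + y * g s) = 0 := by
    rw [e1, hc.Mg hMx nx (one_add_ne h2K hys), fx, hc.twG.st.mul_left _ _ _
      (one_sub_ne h2K hxs) (one_add_ne h2K hxs) (one_add_ne h2K hys),
      hc.twG.st.line hc.twG.van (s := s) (p := 1) (q := -x) (r := 1) (t := y) (one_mem _)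
        (neg_mem hxF) (one_mem _) hyF (by ring) (by ring) (one_sub_ne h2K hxs)
        (one_add_ne h2K hys),
      hc.twG.st.line hc.twG.van (s := s) (p := 1) (q := x) (r := 1) (t := y) (one_mem _)
        hxF (one_mem _) hyF (by ring) (by ring) (one_add_ne h2K hxs)
        (one_add_ne h2K hys), add_zero, neg_zero]
  have z2 : c (1 - y * g s * (y * g s)) (1 + x * s) = 0 := by
    rw [e2, hc.gM hMy ny (one_add_ne h2K hxs), fy, hc.st.mul_left _ _ _
      (one_sub_ne h2K hys) (one_add_ne h2K hys) (one_add_ne h2K hxs),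
      hc.st.line hc.van (s := s) (p := 1) (q := -y) (r := 1) (t := x) (one_mem _)
        (neg_mem hyF) (one_mem _) hxF (by ring) (by ring) (one_sub_ne h2K hys)
        (one_add_ne h2K hxs),
      hc.st.line hc.van (s := s) (p := 1) (q := y) (r := 1) (t := x) (one_mem _)
        hyF (one_mem _) hxF (by ring) (by ring) (one_add_ne h2K hys)
        (one_add_ne h2K hxs), add_zero, neg_zero]
  rw [z1, z2, add_zero] at hA
  have e3 := hc.Mg hMδ (mul_ne_zero hδ hδ) (one_add_ne (g := g) h2K hys)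
  rw [← e1] at e3
  rw [e3] at hA
  exact (sub_eq_zero.mp (by rw [sub_eq_add_neg]; exact hA.symm))

/-- `c(P, 1 + s) = 0` for `P = (s + w g s)^2`, `w ∈ F`. -/
lemma relZ (hc : Good g c) (h2K : (2 : K) ≠ 0) (h4 : ∀ x, g (g (g (g x))) = x) {s w : K}
    (hs : g (g s) = -s) (hs0 : s ≠ 0) (hw : g w = w) (hδ : s + w * g s ≠ 0) :
    c ((s + w * g s) * (s + w * g s)) (1 + s) = 0 := by
  have hMδ : g (g ((s + w * g s) * (s + w * g s))) = (s + w * g s) * (s + w * g s) := by
    rw [map_mul, map_mul, map_add, map_add, neg_fix hw (g_neg hs), hs]; ring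
  have hMs : g (g (s * s)) = s * s := by rw [map_mul, map_mul, hs]; ring
  have hsF : g (s * s) ≠ s * s := by
    intro h
    rw [map_mul] at h
    have : (g s - s) * (g s + s) = 0 := by linear_combination h
    rcases mul_eq_zero.mp this with h' | h'
    · have h5 : g s = s := sub_eq_zero.mp h'
      rw [h5, h5] at hs
      apply hs0
      have : (2 : K) * s = 0 := by linear_combination hs
      exact (mul_eq_zero.mp this).resolve_left h2K
    · have h5 : g s = -s := eq_neg_of_add_eq_zero_left h'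
      rw [h5, map_neg, h5, neg_neg] at hs
      apply hs0
      have : (2 : K) * s = 0 := by linear_combination hs
      exact (mul_eq_zero.mp this).resolve_left h2K
  by_cases hw0 : w = 0
  · subst hw0
    have e : (s + 0 * g s) * (s + 0 * g s) = s * s := by ring
    rw [e, hc.st.mul_left _ _ _ hs0 hs0 (one_add_ne h2K hs),
      hc.st.line hc.van (s := s) (p := 0) (q := 1) (r := 1) (t := 1) (zero_mem _) (one_mem _)
        (one_mem _) (one_mem _) (by ring) (by ring) hs0 (one_add_ne h2K hs), add_zero]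
  obtain ⟨p, l, hp, hl, hP⟩ := coords g hMs hMδ hsF
  by_cases hl0 : l = 0
  · have hP' : (s + w * g s) * (s + w * g s) = p := by rw [hP, hl0]; ring
    rw [hP'] at hMδ ⊢
    have hp0 : p ≠ 0 := by rw [← hP']; exact mul_ne_zero hδ hδ
    exact hc.st.van_left hc.van hp hp0 (one_add_ne h2K hs)
  by_cases hp0 : p = 0
  · have hP' : (s + w * g s) * (s + w * g s) = l * (s * s) := by rw [hP, hp0]; ring
    rw [hP', hc.st.mul_left _ _ _ hl0 (mul_ne_zero hs0 hs0) (one_add_ne h2K hs),
      hc.st.van_left hc.van hl hl0 (one_add_ne h2K hs), zero_add,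
      hc.st.mul_left _ _ _ hs0 hs0 (one_add_ne h2K hs),
      hc.st.line hc.van (s := s) (p := 0) (q := 1) (r := 1) (t := 1) (zero_mem _) (one_mem _)
        (one_mem _) (one_mem _) (by ring) (by ring) hs0 (one_add_ne h2K hs), add_zero]
  -- general case: `P = l (s² - h)`
  set h : K := -p / l with hh
  have hhg : g h = h := by rw [hh, map_div₀, map_neg, hp, hl]
  have hh0 : h ≠ 0 := div_ne_zero (neg_ne_zero.mpr hp0) hl0
  have hP2 : (s + w * g s) * (s + w * g s) = l * (s * s - h) := by
    rw [hP, hh]; field_simp; ring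
  have hsh : s * s - h ≠ 0 := by
    intro h0
    rw [h0, mul_zero] at hP2
    exact mul_ne_zero hδ hδ hP2
  have hhinv : g (h⁻¹) = h⁻¹ := by rw [map_inv₀, hhg]
  have fl : ∀ {c' : K → K → T}, Good g c' → ∀ x : K, g x = x → x ≠ 0 →
      c' (l * (s * s - h)) (1 + x * s) = c' (l * (s * s - h)) (1 + (h * x)⁻¹ * s) := by
    intro c' hc' x hx hx0
    have hx' : g ((h * x)⁻¹) = (h * x)⁻¹ := by rw [map_inv₀, map_mul, hhg, hx]
    exact flip h2 hc' h4 hs hs0 hl hl0 hhg hh0 hx hx0 hsh
      (one_add_ne h2K (neg_fix hx hs)) (one_add_ne h2K (neg_fix hx' hs))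
  -- scaled relation R: `c'(P, 1 + x s) = (tw c')(P, 1 + w x s)`
  have rr : ∀ {c' : K → K → T}, Good g c' → ∀ x : K, g x = x → x ≠ 0 →
      c' (l * (s * s - h)) (1 + x * s) = tw g c' (l * (s * s - h)) (1 + (w * x) * s) := by
    intro c' hc' x hx hx0
    have hwx : g (w * x) = w * x := by rw [map_mul, hw, hx]
    have e : x * s + (w * x) * g s = x * (s + w * g s) := by ring
    have hne : x * s + (w * x) * g s ≠ 0 := by rw [e]; exact mul_ne_zero hx0 hδ
    have h5 := relR h2 hc' h2K h4 hs hx hwx hne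
    have e2 : (x * s + (w * x) * g s) * (x * s + (w * x) * g s)
        = (x * x) * (l * (s * s - h)) := by rw [e, ← hP2]; ring
    have hxx : x * x ∈ fixS g := by
      show g (x * x) = x * x
      rw [map_mul, hx]
    have hP0 : l * (s * s - h) ≠ 0 := mul_ne_zero hl0 hsh
    rw [e2, hc'.st.mul_left _ _ _ (mul_ne_zero hx0 hx0) hP0 (one_add_ne h2K (neg_fix hx hs)),
      hc'.st.van_left hc'.van hxx (mul_ne_zero hx0 hx0) (one_add_ne h2K (neg_fix hx hs)), zero_add,
      hc'.twG.st.mul_left _ _ _ (mul_ne_zero hx0 hx0) hP0 (one_add_ne h2K (neg_fix hwx hs)),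
      hc'.twG.st.van_left hc'.twG.van hxx (mul_ne_zero hx0 hx0) (one_add_ne h2K (neg_fix hwx hs)),
      zero_add] at h5
    exact h5
  -- `tw (tw c) = - c`
  have hP0 : l * (s * s - h) ≠ 0 := mul_ne_zero hl0 hsh
  have tt : ∀ y : K, y ≠ 0 → tw g (tw g c) (l * (s * s - h)) y = - c (l * (s * s - h)) y := by
    intro y hy
    exact hc.tau h4 hP0 hy
  have hwinv : g ((h * w)⁻¹) = (h * w)⁻¹ := by rw [map_inv₀, map_mul, hhg, hw]
  have hw'0 : (h * w)⁻¹ ≠ 0 := inv_ne_zero (mul_ne_zero hh0 hw0)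
  have s1 := rr hc 1 (map_one g) one_ne_zero
  rw [one_mul, mul_one] at s1
  have s2 := fl hc.twG w hw hw0
  have s3 := rr hc.twG ((h * w)⁻¹) hwinv hw'0
  have e4 : w * (h * w)⁻¹ = h⁻¹ := by field_simp
  rw [e4, tt _ (one_add_ne h2K (neg_fix hhinv hs))] at s3
  have s4 := fl hc 1 (map_one g) one_ne_zero
  rw [one_mul, mul_one] at s4
  have fin : c (l * (s * s - h)) (1 + s) = - c (l * (s * s - h)) (1 + s) := by
    calc c (l * (s * s - h)) (1 + s) = tw g c (l * (s * s - h)) (1 + w * s) := s1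
      _ = tw g c (l * (s * s - h)) (1 + (h * w)⁻¹ * s) := s2
      _ = - c (l * (s * s - h)) (1 + h⁻¹ * s) := s3
      _ = - c (l * (s * s - h)) (1 + s) := by rw [← s4]
  rw [hP2]
  exact h2 _ (by nth_rewrite 1 [fin]; exact neg_add_cancel _)

/-- `c(σ², 1 + s) = 0` if `s² + (g s)² ≠ 0`. -/
lemma relZ' (hc : Good g c) (h2K : (2 : K) ≠ 0) (h4 : ∀ x, g (g (g (g x))) = x) {s r : K}
    (hs : g (g s) = -s) (hr : g (g r) = -r) (hr0 : r ≠ 0)
    (hD : s * s + g s * g s ≠ 0) : c (r * r) (1 + s) = 0 := by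
  have hs0 : s ≠ 0 := by
    rintro rfl
    apply hD
    rw [map_zero]; ring
  set D : K := s * s + g s * g s with hDdef
  have hDg : g D = D := by rw [hDdef, map_add, map_mul, map_mul, hs]; ring
  set x : K := (r * s + g r * g s) / D with hx
  set y : K := (r * g s - g r * s) / D with hy
  have hxg : g x = x := by
    rw [hx, map_div₀, hDg, map_add, map_mul, map_mul, hs, hr]; congr 1; ring
  have hyg : g y = y := by
    rw [hy, map_div₀, hDg, map_sub, map_mul, map_mul, hs, hr]; congr 1; ring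
  have hrxy : r = x * s + y * g s := by
    rw [hx, hy]
    field_simp
    rw [hDdef]; ring
  have hMs : g (g (s * s)) = s * s := by rw [map_mul, map_mul, hs]; ring
  by_cases hx0 : x = 0
  · have hr' : r = y * g s := by rw [hrxy, hx0]; ring
    have hy0 : y ≠ 0 := by
      rintro h
      rw [hr', h, zero_mul] at hr0
      exact hr0 rfl
    have e : r * r = (y * y) * g (s * s) := by rw [hr', map_mul]; ring
    have hyy : y * y ∈ fixS g := by
      show g (y * y) = y * y
      rw [map_mul, hyg]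
    rw [e, hc.st.mul_left _ _ _ (mul_ne_zero hy0 hy0) (g_ne (mul_ne_zero hs0 hs0))
      (one_add_ne h2K hs), hc.st.van_left hc.van hyy (mul_ne_zero hy0 hy0) (one_add_ne h2K hs),
      zero_add, hc.gM hMs (mul_ne_zero hs0 hs0) (one_add_ne h2K hs),
      hc.st.mul_left _ _ _ hs0 hs0 (one_add_ne h2K hs),
      hc.st.line hc.van (s := s) (p := 0) (q := 1) (r := 1) (t := 1) (zero_mem _) (one_mem _)
        (one_mem _) (one_mem _) (by ring) (by ring) hs0 (one_add_ne h2K hs), add_zero, neg_zero]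
  · set w : K := y / x with hw
    have hwg : g w = w := by rw [hw, map_div₀, hxg, hyg]
    have e0 : r = x * (s + w * g s) := by rw [hw]; field_simp; rw [hrxy]
    have hδ : s + w * g s ≠ 0 := by
      intro h
      rw [h, mul_zero] at e0
      exact hr0 e0
    have e : r * r = (x * x) * ((s + w * g s) * (s + w * g s)) := by
      nth_rewrite 1 [e0]
      nth_rewrite 1 [e0]
      ring
    have hxx : x * x ∈ fixS g := by
      show g (x * x) = x * x
      rw [map_mul, hxg]
    rw [e, hc.st.mul_left _ _ _ (mul_ne_zero hx0 hx0) (mul_ne_zero hδ hδ) (one_add_ne h2K hs),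
      hc.st.van_left hc.van hxx (mul_ne_zero hx0 hx0) (one_add_ne h2K hs), zero_add]
    exact relZ h2 hc h2K h4 hs hs0 hwg hδ

/-- `c(σ², 1 + s) = 0` for all `s, σ ∈ K^-`. -/
lemma relZ'' (hc : Good g c) (h2K : (2 : K) ≠ 0) (h4 : ∀ x, g (g (g (g x))) = x) {s r : K}
    (hs : g (g s) = -s) (hs0 : s ≠ 0) (hr : g (g r) = -r) (hr0 : r ≠ 0) :
    c (r * r) (1 + s) = 0 := by
  by_cases hD : s * s + g s * g s = 0
  · have hgs2 : g (s * s) = -(s * s) := by
      rw [map_mul]; exact eq_neg_of_add_eq_zero_right hD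
    have hgs2' : g s * g s = -(s * s) := by rw [← map_mul]; exact hgs2
    have hMr : g (g (r * r)) = r * r := by rw [map_mul, map_mul, hr]; ring
    -- `s2 = s⁻¹ - s`
    have hsi : g (g s⁻¹) = -s⁻¹ := by rw [map_inv₀, map_inv₀, hs, inv_neg]
    have hs2 : g (g (s⁻¹ - s)) = -(s⁻¹ - s) := by rw [map_sub, map_sub, hs, hsi]; ring
    have hgs0 : g s ≠ 0 := g_ne hs0
    have h2s : (2 : K) - s * s ≠ 0 := by
      intro h
      have h5 : g (2 - s * s) = 0 := by rw [h, map_zero]
      rw [map_sub, hgs2, map_ofNat] at h5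
      have : (4 : K) = 0 := by linear_combination h + h5
      have h6 : (2 : K) * 2 = 0 := by linear_combination this
      rcases mul_eq_zero.mp h6 with h7 | h7 <;> exact h2K h7
    have h2s' : (2 : K) + s * s ≠ 0 := by
      intro h
      have h5 : g (2 + s * s) = 0 := by rw [h, map_zero]
      rw [map_add, hgs2, map_ofNat] at h5
      have : (4 : K) = 0 := by linear_combination h + h5
      have h6 : (2 : K) * 2 = 0 := by linear_combination this
      rcases mul_eq_zero.mp h6 with h7 | h7 <;> exact h2K h7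
    have h4K : (4 : K) ≠ 0 := by
      intro h
      have h6 : (2 : K) * 2 = 0 := by linear_combination h
      rcases mul_eq_zero.mp h6 with h7 | h7 <;> exact h2K h7
    have h8K : (8 : K) ≠ 0 := by
      intro h
      have h6 : (2 : K) * 4 = 0 := by linear_combination h
      rcases mul_eq_zero.mp h6 with h7 | h7
      · exact h2K h7
      · exact h4K h7
    have hD2 : (s⁻¹ - s) * (s⁻¹ - s) + g (s⁻¹ - s) * g (s⁻¹ - s) ≠ 0 := by
      have e : (s⁻¹ - s) * (s⁻¹ - s) + g (s⁻¹ - s) * g (s⁻¹ - s) = -4 := by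
        rw [map_sub, map_inv₀]
        have e1 : ((g s)⁻¹ - g s) * ((g s)⁻¹ - g s)
            = (g s * g s)⁻¹ - 2 + g s * g s := by
          field_simp
          ring
        rw [e1, hgs2']
        field_simp
        ring
      rw [e]
      exact neg_ne_zero.mpr h4K
    have hs3 : g (g (s⁻¹ / (2 - s * s))) = -(s⁻¹ / (2 - s * s)) := by
      rw [map_div₀, map_div₀, hsi, map_sub, map_sub, hgs2, map_neg, hgs2, neg_neg, map_ofNat,
        map_ofNat, neg_div]
    have hD3 : (s⁻¹ / (2 - s * s)) * (s⁻¹ / (2 - s * s))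
        + g (s⁻¹ / (2 - s * s)) * g (s⁻¹ / (2 - s * s)) ≠ 0 := by
      have e1 : g (s⁻¹ / (2 - s * s)) = (g s)⁻¹ / (2 + s * s) := by
        rw [map_div₀, map_inv₀, map_sub, hgs2, map_ofNat, sub_neg_eq_add]
      have e2 : (g s)⁻¹ / (2 + s * s) * ((g s)⁻¹ / (2 + s * s))
          = (g s * g s)⁻¹ / ((2 + s * s) * (2 + s * s)) := by
        field_simp
      rw [e1, e2, hgs2']
      have e3 : s⁻¹ / (2 - s * s) * (s⁻¹ / (2 - s * s))
          + (-(s * s))⁻¹ / ((2 + s * s) * (2 + s * s))
          = 8 / (((2 - s * s) * (2 - s * s)) * ((2 + s * s) * (2 + s * s))) := by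
        have h2s3 : (2 : K) - s ^ 2 ≠ 0 := by rw [pow_two]; exact h2s
        have h2s4 : (2 : K) + s ^ 2 ≠ 0 := by rw [pow_two]; exact h2s'
        field_simp
        ring
      rw [e3]
      exact div_ne_zero h8K (mul_ne_zero (mul_ne_zero h2s h2s) (mul_ne_zero h2s' h2s'))
    have hprod : (1 + s) * (1 + (s⁻¹ - s)) = (2 - s * s) * (1 + s⁻¹ / (2 - s * s)) := by
      have h2s3 : (2 : K) - s ^ 2 ≠ 0 := by rw [pow_two]; exact h2s
      field_simp
      ring
    have hM2 : g (g (2 - s * s)) = 2 - s * s := by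
      rw [map_sub, map_sub, hgs2, map_neg, hgs2, neg_neg, map_ofNat, map_ofNat]
    have hr2 : r * r ≠ 0 := mul_ne_zero hr0 hr0
    have n1 := one_add_ne (g := g) h2K hs
    have n2 := one_add_ne (g := g) h2K hs2
    have n3 := one_add_ne (g := g) h2K hs3
    have e5 : c (r * r) ((1 + s) * (1 + (s⁻¹ - s)))
        = c (r * r) ((2 - s * s) * (1 + s⁻¹ / (2 - s * s))) := by rw [hprod]
    rw [hc.st.mul_right _ _ _ hr2 n1 n2, hc.st.mul_right _ _ _ hr2 h2s n3,
      hc.MM hMr hM2 hr2 h2s, relZ' h2 hc h2K h4 hs2 hr hr0 hD2,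
      relZ' h2 hc h2K h4 hs3 hr hr0 hD3, add_zero, add_zero] at e5
    exact e5
  · exact relZ' h2 hc h2K h4 hs hr hr0 hD

/-- the theorem in characteristic different from 2 -/
theorem eq_zero_of_two_ne (hc : Good g c) (h2K : (2 : K) ≠ 0)
    (h4 : ∀ x, g (g (g (g x))) = x) {u v : K} (hu : u ≠ 0) (hv : v ≠ 0) : c u v = 0 := by
  refine of_M h2 hc h4 ?_ hu hv
  intro β k hβ hβ0 hk0
  by_cases hk : g (g k) = k
  · exact hc.MM hβ hk hβ0 hk0
  set m : K := (k + g (g k)) / 2 with hm
  set n : K := (k - g (g k)) / 2 with hn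
  have hkmn : k = m + n := by rw [hm, hn]; field_simp; ring
  have hmM : g (g m) = m := by
    rw [hm, map_div₀, map_div₀, map_add, map_add, h4, map_ofNat, map_ofNat, add_comm]
  have hnM : g (g n) = -n := by
    rw [hn, map_div₀, map_div₀, map_sub, map_sub, h4, map_ofNat, map_ofNat]; ring
  have hn0 : n ≠ 0 := by
    intro h
    apply hk
    rw [hkmn, h, add_zero, hmM]
  by_cases hm0 : m = 0
  · have : k = n := by rw [hkmn, hm0, zero_add]
    rw [this]
    exact Mδ h2 hc hβ hβ0 hnM hn0
  have hs : g (g (n / m)) = -(n / m) := by rw [map_div₀, map_div₀, hnM, hmM, neg_div]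
  have hs0 : n / m ≠ 0 := div_ne_zero hn0 hm0
  have e : k = m * (1 + n / m) := by rw [hkmn]; field_simp
  have n1 := one_add_ne (g := g) h2K hs
  rw [e, hc.st.mul_right _ _ _ hβ0 hm0 n1, hc.MM hβ hmM hβ0 hm0, zero_add]
  have hβn : g (g (β * n)) = -(β * n) := by rw [map_mul, map_mul, hβ, hnM]; ring
  have r1 := relZ'' h2 hc h2K h4 hs hs0 hβn (mul_ne_zero hβ0 hn0)
  have r2 := relZ'' h2 hc h2K h4 hs hs0 hnM hn0
  have e2 : β * n * (β * n) = (β * β) * (n * n) := by ring
  rw [e2, hc.st.mul_left _ _ _ (mul_ne_zero hβ0 hβ0) (mul_ne_zero hn0 hn0) n1, r2, add_zero,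
    hc.st.mul_left _ _ _ hβ0 hβ0 n1] at r1
  exact h2 _ r1

/-- the theorem in characteristic 2 -/
theorem eq_zero_of_two_eq (hc : Good g c) (h2K : (2 : K) = 0)
    (h4 : ∀ x, g (g (g (g x))) = x) {u v : K} (hu : u ≠ 0) (hv : v ≠ 0) : c u v = 0 := by
  refine of_M h2 hc h4 ?_ hu hv
  intro β k hβ hβ0 hk0
  by_cases hk : g (g k) = k
  · exact hc.MM hβ hk hβ0 hk0
  -- normalize the trace
  have main : ∀ κ : K, g (g κ) = κ + 1 → ∀ {c' : K → K → T}, Good g c' → ∀ e f f' : K,
      g f = f → g f' = f' → e = f + f' →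
      c' (κ + g κ + e) (κ + f) = - tw g c' (κ + g κ + e) (κ + f') := by
    intro κ hκ c' hc' e f f' hf hf' he
    have hne : ∀ x : K, g x = x → κ + x ≠ 0 := by
      intro x hx h
      have h' : g (g (κ + x)) = 0 := by rw [h, map_zero, map_zero]
      rw [map_add, map_add, hx, hx, hκ] at h'
      have : (1 : K) = 0 := by linear_combination h' - h
      exact one_ne_zero this
    have ha1 := hne f hf
    have ha2 : g κ + f' ≠ 0 := by
      have : g κ + f' = g (κ + f') := by rw [map_add, hf']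
      rw [this]; exact g_ne (hne f' hf')
    have heg : g e = e := by rw [he, map_add, hf, hf']
    have hPM : g (g (κ + g κ + e)) = κ + g κ + e := by
      rw [map_add, map_add, map_add, map_add, heg, heg, hκ, map_add, map_one]
      linear_combination h2K
    have hP0 : κ + g κ + e ≠ 0 := by
      intro h
      have h' : g (κ + g κ + e) = 0 := by rw [h, map_zero]
      rw [map_add, map_add, heg, hκ] at h'
      have : (1 : K) = 0 := by linear_combination h' - h
      exact one_ne_zero this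
    have h3 := hc'.st.three hc'.van hP0 ha1 ha2 (show κ + g κ + e = (κ + f) + (g κ + f') by
      rw [he]; ring)
    -- `2 c'(a1,a2) = 0`
    have n1 : (κ + f) * g (g (κ + f)) = (κ + f) * (κ + (f + 1)) := by
      rw [map_add, map_add, hf, hf, hκ]; ring
    have n2 : (g κ + f') * g (g (g κ + f')) = g ((κ + f') * (κ + (f' + 1))) := by
      rw [map_add, map_add, hf', hf', hκ, map_add, map_one, map_mul, map_add, map_add, map_add,
        hf', map_one]; ring
    have hf1 : g (f + 1) = f + 1 := by rw [map_add, hf, map_one]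
    have hf1' : g (f' + 1) = f' + 1 := by rw [map_add, hf', map_one]
    have hN1M : g (g ((κ + f) * (κ + (f + 1)))) = (κ + f) * (κ + (f + 1)) := by
      rw [map_mul, map_mul, map_add, map_add, hf, hf, map_add, map_add, hf1, hf1, hκ]
      linear_combination (κ + f + 1) * h2K
    have hN2M : g (g ((κ + f') * (κ + (f' + 1)))) = (κ + f') * (κ + (f' + 1)) := by
      rw [map_mul, map_mul, map_add, map_add, hf', hf', map_add, map_add, hf1', hf1', hκ]
      linear_combination (κ + f' + 1) * h2K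
    have z1 : c' ((κ + f) * (κ + (f + 1))) (g κ + f') = 0 := by
      have e1 : g κ + f' = g (κ + f') := by rw [map_add, hf']
      rw [e1, hc'.Mg hN1M (mul_ne_zero ha1 (hne _ hf1)) (hne _ hf'),
        hc'.twG.st.mul_left _ _ _ ha1 (hne _ hf1) (hne _ hf'),
        hc'.twG.st.line hc'.twG.van (s := κ) (p := f) (q := 1) (r := f') (t := 1) hf (one_mem _)
          hf' (one_mem _) (by ring) (by ring) ha1 (hne _ hf'),
        hc'.twG.st.line hc'.twG.van (s := κ) (p := f + 1) (q := 1) (r := f') (t := 1) hf1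
          (one_mem _) hf' (one_mem _) (by ring) (by ring) (hne _ hf1) (hne _ hf'), add_zero,
        neg_zero]
    have z2 : c' (g ((κ + f') * (κ + (f' + 1)))) (κ + f) = 0 := by
      rw [hc'.gM hN2M (mul_ne_zero (hne _ hf') (hne _ hf1')) ha1,
        hc'.st.mul_left _ _ _ (hne _ hf') (hne _ hf1') ha1,
        hc'.st.line hc'.van (s := κ) (p := f') (q := 1) (r := f) (t := 1) hf' (one_mem _)
          hf (one_mem _) (by ring) (by ring) (hne _ hf') ha1,
        hc'.st.line hc'.van (s := κ) (p := f' + 1) (q := 1) (r := f) (t := 1) hf1'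
          (one_mem _) hf (one_mem _) (by ring) (by ring) (hne _ hf1') ha1, add_zero,
        neg_zero]
    have d := hc'.two h4 ha1 ha2
    rw [n1, n2, z1, z2, sub_zero] at d
    have d0 := h2 _ d
    rw [d0] at h3
    -- `c'(a1,P) = c'(a2,P)`
    have h5 : c' (κ + f) (κ + g κ + e) = c' (g κ + f') (κ + g κ + e) := by
      exact (sub_eq_zero.mp h3.symm)
    rw [hc'.st.skew ha1 hP0, hc'.st.skew ha2 hP0, neg_inj] at h5
    have e1 : g κ + f' = g (κ + f') := by rw [map_add, hf']
    rw [h5, e1, hc'.Mg hPM hP0 (hne _ hf')]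
  have hT : k + g (g k) ≠ 0 := by
    intro h
    apply hk
    have : g (g k) = -k := eq_neg_of_add_eq_zero_right h
    rw [this]
    linear_combination (-k) * h2K
  set κ : K := k / (k + g (g k)) with hκd
  have hTM : g (g (k + g (g k))) = k + g (g k) := by rw [map_add, map_add, h4, add_comm]
  have hκ0 : κ ≠ 0 := div_ne_zero hk0 hT
  have hκ : g (g κ) = κ + 1 := by
    rw [hκd, map_div₀, map_div₀, hTM]
    field_simp
    linear_combination (-k) * h2K
  have ek : k = (k + g (g k)) * κ := by rw [hκd]; field_simp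
  rw [ek, hc.st.mul_right _ _ _ hβ0 hT hκ0, hc.MM hβ hTM hβ0 hT, zero_add]
  -- `β = a + b η`, `η = κ + g κ`, `g η = η + 1`
  have hη : g (κ + g κ) = (κ + g κ) + 1 := by rw [map_add, hκ]; ring
  set η : K := κ + g κ with hηd
  have hηM : g (g η) = η := by
    rw [hη, map_add, hη, map_one]; linear_combination h2K
  have hηne : g η ≠ η := by
    rw [hη]
    intro h
    exact one_ne_zero (left_eq_add.mp h.symm)
  obtain ⟨a, b, ha, hb, hβe⟩ := coords g hηM hβ hηne
  by_cases hb0 : b = 0
  · have : β = a := by rw [hβe, hb0]; ring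
    rw [this]
    have ha0 : a ≠ 0 := by rw [← this]; exact hβ0
    exact hc.st.van_left hc.van ha ha0 hκ0
  have e2 : β = b * (η + a / b) := by rw [hβe]; field_simp; ring
  have hP0 : η + a / b ≠ 0 := by
    intro h
    rw [h, mul_zero] at e2
    exact hβ0 e2
  rw [e2, hc.st.mul_left _ _ _ hb0 hP0 hκ0, hc.st.van_left hc.van hb hb0 hκ0, zero_add]
  set e : K := a / b with hed
  have heg : g e = e := by rw [hed, map_div₀, ha, hb]
  have hPM : g (g (η + e)) = η + e := by rw [map_add, map_add, hηM, heg, heg]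
  have i1 := main κ hκ hc e 0 e (map_zero g) heg (by ring)
  have i2 := main κ hκ hc.twG e e 0 heg (map_zero g) (by ring)
  rw [add_zero] at i1 i2
  have i3 : tw g (tw g c) (η + e) κ = - c (η + e) κ := hc.tau h4 hP0 hκ0
  rw [i2, i3, neg_neg] at i1
  exact h2 _ (by nth_rewrite 1 [i1]; exact neg_add_cancel _)

/-- **Theorem**: a Steinberg symbol with values in a group without 2-torsion, which is zero on
`K* × F*`, `F` the fixed field of an automorphism `g` with `g^4 = 1`, is zero. -/
theorem eq_zero (hc : Good g c) (h4 : ∀ x, g (g (g (g x))) = x) {u v : K} (hu : u ≠ 0)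
    (hv : v ≠ 0) : c u v = 0 := by
  by_cases h2K : (2 : K) = 0
  · exact eq_zero_of_two_eq h2 hc h2K h4 hu hv
  · exact eq_zero_of_two_ne h2 hc h2K h4 hu hv

end Good

end Pool.Agent.MP_1b9aaa_al
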