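import Pool.Agent.Lib.MP_1b9aaa_al.St2

/-!
Steinberg symbols with values in an abelian group, killed by an odd integer.
-/

set_option autoImplicit false

namespace Pool.Agent.MP_1b9aaa_al

/-- A Steinberg symbol `c` on `K`, killed by an odd integer `n`, which is zero on `K* × F*`, where
`F` is the fixed field of an automorphism `g` with `g^4 = 1`, is zero. -/
theorem Good.eq_zero_of_odd {K T : Type*} [Field K] [AddCommGroup T] {g : K ≃+* K}
    {c : K → K → T} (hc : Good g c) (h4 : ∀ x, g (g (g (g x))) = x) {n : ℕ} (hn : Odd n)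
    (hcn : ∀ u v, n • c u v = 0) {u v : K} (hu : u ≠ 0) (hv : v ≠ 0) : c u v = 0 := by
  set S : AddSubgroup T := (nsmulAddMonoidHom (α := T) n).ker with hS
  set c' : K → K → S := fun u v => ⟨c u v, hcn u v⟩ with hc'
  have hg : Good g c' := by
    refine ⟨⟨?_, ?_, ?_⟩, ?_⟩
    · intro a b x ha hb hx
      exact Subtype.ext (hc.st.mul_left a b x ha hb hx)
    · intro x a b hx ha hb
      exact Subtype.ext (hc.st.mul_right x a b hx ha hb)
    · intro a ha h1
      exact Subtype.ext (hc.st.steinberg a ha h1)
    · intro x hx f hf hf0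
      exact Subtype.ext (hc.van x hx f hf hf0)
  have h2 : ∀ t : S, t + t = 0 → t = 0 := by
    rintro ⟨t, ht⟩ h
    apply Subtype.ext
    have h' : t + t = 0 := congrArg Subtype.val h
    have ht' : n • t = 0 := ht
    obtain ⟨m, rfl⟩ := hn
    rw [add_smul, one_smul, mul_comm, mul_smul, two_smul, h', smul_zero, zero_add] at ht'
    exact ht'
  exact congrArg Subtype.val (Good.eq_zero h2 hg h4 hu hv)

end Pool.Agent.MP_1b9aaa_al
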