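import Pool.Agent.Lib.MP_1b9aaa_al.St

/-!
Steinberg symbols and automorphisms `g` with `g^6 = 1`.

Main theorem `Good.eq_zero6`: let `g` be a field automorphism of `K` with `g^6 = 1`, and let
`c : K* × K* → T` be a Steinberg symbol with values in an abelian group without 6-torsion.
If `c(x, f) = 0` for all `f` fixed by `g`, then `c = 0`.  In other words: `K_2(K)[1/6]` is
generated by the symbols `{x, f}` with `f` in the fixed field `F`.

The key is the trapezoid trick: if `x + y = A x^3 + B y^3`, `A, B ∈ F`, then `6 c(x,y) = 0`.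
-/

set_option autoImplicit false

namespace Pool.Agent.MP_1b9aaa_al

open IsSteinberg

variable {K T : Type*} [Field K] [AddCommGroup T]

namespace IsSteinberg

variable {c : K → K → T}

lemma cube_left (hc : IsSteinberg c) {a x : K} (ha : a ≠ 0) (hx : x ≠ 0) :
    c (a * (a * a)) x = c a x + (c a x + c a x) := by
  rw [hc.mul_left _ _ _ ha (mul_ne_zero ha ha) hx, hc.mul_left _ _ _ ha ha hx]

lemma cube_right (hc : IsSteinberg c) {a x : K} (ha : a ≠ 0) (hx : x ≠ 0) :
    c x (a * (a * a)) = c x a + (c x a + c x a) := by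
  rw [hc.mul_right _ _ _ hx ha (mul_ne_zero ha ha), hc.mul_right _ _ _ hx ha ha]

lemma scal_left (hc : IsSteinberg c) {S : Subfield K} (hS : VanOn c S) {f a x : K} (hf : f ∈ S)
    (hf0 : f ≠ 0) (ha : a ≠ 0) (hx : x ≠ 0) : c (f * a) x = c a x := by
  rw [hc.mul_left _ _ _ hf0 ha hx, hc.van_left hS hf hf0 hx, zero_add]

lemma scal_right (hc : IsSteinberg c) {S : Subfield K} (hS : VanOn c S) {f a x : K} (hf : f ∈ S)
    (hf0 : f ≠ 0) (ha : a ≠ 0) (hx : x ≠ 0) : c x (f * a) = c x a := by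
  rw [hc.mul_right _ _ _ hx hf0 ha, hS x hx f hf hf0, zero_add]

/-- **Trapezoid trick**: `x + y = A x³ + B y³` implies `6 c(x,y) = 0`. -/
lemma trapezoid (hc : IsSteinberg c) {S : Subfield K} (hS : VanOn c S)
    (h2 : ∀ t : T, t + t = 0 → t = 0) (h3 : ∀ t : T, t + t + t = 0 → t = 0)
    {x y A B z : K} (hA : A ∈ S) (hB : B ∈ S)
    (hA0 : A ≠ 0) (hB0 : B ≠ 0) (hx : x ≠ 0) (hy : y ≠ 0) (hz : z ≠ 0) (e1 : z = x + y)
    (e2 : z = A * (x * (x * x)) + B * (y * (y * y))) : c x y = 0 := by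
  have hx3 : x * (x * x) ≠ 0 := mul_ne_zero hx (mul_ne_zero hx hx)
  have hy3 : y * (y * y) ≠ 0 := mul_ne_zero hy (mul_ne_zero hy hy)
  have r1 := hc.three hS hz hx hy e1
  have r2 := hc.three hS hz (mul_ne_zero hA0 hx3) (mul_ne_zero hB0 hy3) e2
  rw [hc.scal_left hS hA hA0 hx3 (mul_ne_zero hB0 hy3), hc.scal_right hS hB hB0 hy3 hx3,
    hc.scal_left hS hA hA0 hx3 hz, hc.scal_left hS hB hB0 hy3 hz, hc.cube_left hx hy3,
    hc.cube_right hy hx, hc.cube_left hx hz, hc.cube_left hy hz] at r2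
  have r3 : c x y + c x y + c x y + (c x y + c x y + c x y) = 0 := by
    have e : c x y + (c x y + c x y) + (c x y + (c x y + c x y) + (c x y + (c x y + c x y)))
        = (c x y + c x y + c x y + (c x y + c x y + c x y)) + (c x y + c x y + c x y) := by abel
    rw [e] at r2
    have e' : c x z + (c x z + c x z) - (c y z + (c y z + c y z))
        = (c x z - c y z) + (c x z - c y z) + (c x z - c y z) := by abel
    rw [e', ← r1] at r2
    exact add_eq_right.mp r2
  exact h3 _ (h2 _ r3)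

end IsSteinberg

namespace Good

variable {g : K ≃+* K} {c : K → K → T}

/-- The `F`-linear functional on `M₃ = Fix(g³)` with kernel `F + F t`. -/
def lam (g : K ≃+* K) (t x : K) : K := (g t - t) * (g (g x) - x) - (g (g t) - t) * (g x - x)

lemma lam_fix {t x : K} (ht : g (g (g t)) = t) (hx : g (g (g x)) = x) :
    g (lam g t x) = lam g t x := by
  simp only [lam, map_sub, map_mul, ht, hx]
  ring

lemma of_lam {t x : K} (ht : g (g (g t)) = t) (hx : g (g (g x)) = x) (h : g t ≠ t)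
    (hl : lam g t x = 0) : ∃ p q : K, g p = p ∧ g q = q ∧ x = p + q * t := by
  have hd : g t - t ≠ 0 := sub_ne_zero.mpr h
  have hd2 : g (g t) - g t ≠ 0 := by
    intro h'
    apply h
    exact g.injective (sub_eq_zero.mp h')
  set q : K := (g x - x) / (g t - t) with hq
  have hgq : g q = q := by
    rw [hq, map_div₀, map_sub, map_sub, div_eq_div_iff hd2 hd]
    simp only [lam] at hl
    linear_combination hl
  have hq2 : g x - x = q * (g t - t) := by rw [hq]; field_simp
  refine ⟨x - q * t, q, ?_, hgq, by ring⟩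
  rw [map_sub, map_mul, hgq]
  linear_combination hq2

/-- `ψ = (p + q t) / (r + u t)` for `ψ, t ∈ M₃`, `t ∉ F`. -/
lemma ratio {t x : K} (ht : g (g (g t)) = t) (hx : g (g (g x)) = x) (h : g t ≠ t) :
    ∃ p q r u : K, g p = p ∧ g q = q ∧ g r = r ∧ g u = u ∧ r + u * t ≠ 0 ∧
      x * (r + u * t) = p + q * t := by
  by_cases hl : lam g t x = 0
  · obtain ⟨p, q, hp, hq, e⟩ := of_lam ht hx h hl
    exact ⟨p, q, 1, 0, hp, hq, map_one g, map_zero g, by simp, by rw [e]; ring⟩
  · have hxt : g (g (g (x * t))) = x * t := by rw [map_mul, map_mul, map_mul, ht, hx]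
    have hr := lam_fix (g := g) ht hxt
    have hu : g (-lam g t x) = -lam g t x := by rw [map_neg, lam_fix ht hx]
    set r : K := lam g t (x * t) with hrdef
    set u : K := -lam g t x with hudef
    have hu0 : u ≠ 0 := neg_ne_zero.mpr hl
    have hy : g (g (g (x * (r + u * t)))) = x * (r + u * t) := by
      simp only [map_mul, map_add, hx, ht, hr, hu]
    have hlam : lam g t (x * (r + u * t)) = 0 := by
      have e : lam g t (x * (r + u * t)) = r * lam g t x + u * lam g t (x * t) := by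
        simp only [lam, map_mul, map_add, hr, hu]
        ring
      rw [e, ← hrdef, hudef]
      ring
    obtain ⟨p, q, hp, hq, e⟩ := of_lam ht hy h hlam
    refine ⟨p, q, r, u, hp, hq, hr, hu, ?_, e⟩
    intro h0
    apply h
    have e1 : t = -r / u := by
      field_simp
      linear_combination h0
    rw [e1, map_div₀, map_neg, hr, hu]

/-- `c(M₃*, M₃*) = 0`. -/
lemma cub (hc : Good g c) {x y : K} (hx : g (g (g x)) = x) (hy : g (g (g y)) = y) (hx0 : x ≠ 0)
    (hy0 : y ≠ 0) : c x y = 0 := by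
  by_cases h : g x = x
  · exact hc.st.van_left hc.van h hx0 hy0
  obtain ⟨p, q, r, u, hp, hq, hr, hu, hne, e⟩ := ratio hx hy h
  have hne' : p + q * x ≠ 0 := by rw [← e]; exact mul_ne_zero hy0 hne
  have h1 := hc.st.mul_right x y (r + u * x) hx0 hy0 hne
  rw [e, hc.st.line hc.van (S := fixS g) (s := x) (p := 0) (q := 1) (r := p) (t := q)
    (zero_mem _) (one_mem _) hp hq (by ring) rfl hx0 hne',
    hc.st.line hc.van (S := fixS g) (s := x) (p := 0) (q := 1) (r := r) (t := u)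
    (zero_mem _) (one_mem _) hr hu (by ring) rfl hx0 hne, add_zero] at h1
  exact h1.symm

/-- `c(g³ u, g³ v) = - c(u,v)` -/
lemma tau6 (hc : Good g c) (h6 : ∀ x, g (g (g (g (g (g x))))) = x) {u v : K} (hu : u ≠ 0)
    (hv : v ≠ 0) : c (g (g (g u))) (g (g (g v))) = - c u v := by
  set τ : K ≃+* K := (g.trans g).trans g with hτ
  have hτ1 : ∀ x, τ x = g (g (g x)) := fun x => rfl
  set C : K → K → T := fun x y => c x y + c (τ x) (τ y) with hC
  have hτc : IsSteinberg (Pool.Agent.MP_1b9aaa_al.tw τ c) := hc.st.tw τ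
  have hCs : IsSteinberg C := by
    refine ⟨fun a b x ha hb hx => ?_, fun x a b hx ha hb => ?_, fun a ha h1 => ?_⟩
    · have h1 := hc.st.mul_left a b x ha hb hx
      have h2 := hτc.mul_left a b x ha hb hx
      simp only [Pool.Agent.MP_1b9aaa_al.tw] at h2
      simp only [hC, h1, h2]
      abel
    · have h1 := hc.st.mul_right x a b hx ha hb
      have h2 := hτc.mul_right x a b hx ha hb
      simp only [Pool.Agent.MP_1b9aaa_al.tw] at h2
      simp only [hC, h1, h2]
      abel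
    · have h2 := hc.st.steinberg a ha h1
      have h3 := hτc.steinberg a ha h1
      simp only [Pool.Agent.MP_1b9aaa_al.tw] at h3
      simp only [hC, h2, h3, add_zero]
  have hCv : VanOn C (fixS τ) := by
    intro x hx f hf hf0
    have hf' : g (g (g f)) = f := hf
    simp only [hC]
    have e1 : τ f = f := hf
    have hτx : τ x ≠ 0 := (map_ne_zero_iff τ τ.injective).mpr hx
    rw [e1, ← hc.st.mul_left x (τ x) f hx hτx hf0]
    refine hc.cub ?_ hf' (mul_ne_zero hx hτx) hf0
    rw [hτ1, map_mul, map_mul, map_mul, h6, mul_comm]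
  have key : C u v = 0 := by
    by_cases h : τ u = u
    · exact hCs.van_left hCv h hu hv
    · obtain ⟨p, q, hp, hq, e⟩ := coords τ (s := u) (m := v) (by rw [hτ1, hτ1, h6])
        (by rw [hτ1, hτ1, h6]) h
      exact hCs.line hCv (s := u) (p := 0) (q := 1) (r := p) (t := q)
        (zero_mem _) (one_mem _) hp hq (by ring) e hu hv
  exact eq_neg_of_add_eq_zero_right key

/-- `2 c(ρ,u) = c(ρ, u g³u)` for `ρ ∈ M₂ = Fix(g²)`. -/
lemma two6 (hc : Good g c) (h6 : ∀ x, g (g (g (g (g (g x))))) = x) {ρ u : K}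
    (hρ : g (g ρ) = ρ) (hρ0 : ρ ≠ 0) (hu : u ≠ 0) :
    c ρ u + c ρ u = c ρ (u * g (g (g u))) := by
  have hτu : g (g (g u)) ≠ 0 := g_ne (g_ne (g_ne hu))
  have h1 := hc.tau6 h6 hρ0 hu
  rw [hρ] at h1
  have h2 := hc.st.mul_left ρ (g ρ) (g (g (g u))) hρ0 (g_ne hρ0) hτu
  rw [hc.st.van_left hc.van (f := ρ * g ρ) (by
    show g (ρ * g ρ) = ρ * g ρ
    rw [map_mul, hρ, mul_comm]) (mul_ne_zero hρ0 (g_ne hρ0)) hτu, h1] at h2
  rw [hc.st.mul_right _ _ _ hρ0 hu hτu]
  have h3 : c ρ (g (g (g u))) = c ρ u := by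
    have h4 : c ρ (g (g (g u))) = c ρ u + (c ρ (g (g (g u))) + -c ρ u) := by abel
    rw [h4, ← h2, add_zero]
  rw [h3]

variable (h2 : ∀ t : T, t + t = 0 → t = 0) (h3 : ∀ t : T, t + t + t = 0 → t = 0)
include h2 h3

/-- The key: `c(θ, ρ) = 0` for `θ ∈ M₃` of trace 0, `ρ ∈ M₂`. -/
lemma key6 (hc : Good g c) {θ ρ : K} (hθ : g (g (g θ)) = θ) (hθ0 : θ ≠ 0)
    (htr : θ + g θ + g (g θ) = 0) (hρ : g (g ρ) = ρ) (hρ0 : ρ ≠ 0) : c θ ρ = 0 := by
  by_cases hθF : g θ = θ
  · exact hc.st.van_left hc.van hθF hθ0 hρ0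
  set e2 : K := θ * g θ + g θ * g (g θ) + g (g θ) * θ with he2
  set e3 : K := θ * g θ * g (g θ) with he3
  have hge2 : g e2 = e2 := by
    rw [he2, map_add, map_add, map_mul, map_mul, map_mul, hθ]; ring
  have hge3 : g e3 = e3 := by
    rw [he3, map_mul, map_mul, hθ]; ring
  have hg1 : g θ ≠ 0 := g_ne hθ0
  have hg2 : g (g θ) ≠ 0 := g_ne hg1
  have he30 : e3 ≠ 0 := mul_ne_zero (mul_ne_zero hθ0 hg1) hg2
  have hcub : θ * (θ * θ) = -e2 * θ + e3 := by
    have : g (g θ) = -θ - g θ := by linear_combination htr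
    rw [he2, he3, this]; ring
  have c3θ := hc.st.cube_left (x := ρ) hθ0 hρ0
  by_cases he20 : e2 = 0
  · rw [hcub, he20, neg_zero, zero_mul, zero_add, hc.st.van_left hc.van hge3 he30 hρ0] at c3θ
    exact h3 _ (by rw [add_assoc]; exact c3θ.symm)
  set t : K := ρ + g ρ with ht
  set n : K := ρ * g ρ with hn
  have hgt : g t = t := by rw [ht, map_add, hρ, add_comm]
  have hgn : g n = n := by rw [hn, map_mul, hρ, mul_comm]
  have hn0 : n ≠ 0 := mul_ne_zero hρ0 (g_ne hρ0)
  have hsq : ρ * ρ = t * ρ - n := by rw [ht, hn]; ring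
  by_cases ht0 : t = 0
  · have h4 := hc.st.mul_right θ ρ ρ hθ0 hρ0 hρ0
    have h5 : ρ * ρ = -n := by rw [hsq, ht0]; ring
    rw [h5, hc.van θ hθ0 (-n) (by
      show g (-n) = -n
      rw [map_neg, hgn]) (neg_ne_zero.mpr hn0)] at h4
    exact h2 _ h4.symm
  have hcubρ : ρ * (ρ * ρ) = (t * t - n) * ρ - t * n := by
    have : ρ * (ρ * ρ) = t * (ρ * ρ) - n * ρ := by rw [hsq]; linear_combination t * hsq
    rw [this, hsq]; ring
  by_cases hv0 : t * t - n = 0
  · have h4 := hc.st.cube_right (x := θ) hρ0 hθ0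
    have h5 : ρ * (ρ * ρ) = -(t * n) := by rw [hcubρ, hv0]; ring
    rw [h5, hc.van θ hθ0 (-(t * n)) (by
      show g (-(t * n)) = -(t * n)
      rw [map_neg, map_mul, hgt, hgn]) (neg_ne_zero.mpr (mul_ne_zero ht0 hn0))] at h4
    exact h3 _ (by rw [add_assoc]; exact h4.symm)
  -- the generic case
  set v : K := t * t - n with hv
  have hgv : g v = v := by rw [hv, map_sub, map_mul, hgt, hgn]
  set x0 : K := e3 / e2 with hx0
  have hx00 : x0 ≠ 0 := div_ne_zero he30 he20
  have hgx0 : g x0 = x0 := by rw [hx0, map_div₀, hge2, hge3]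
  set s : K := -x0 * v / (t * n) with hs
  have hs0 : s ≠ 0 := div_ne_zero (mul_ne_zero (neg_ne_zero.mpr hx00) hv0) (mul_ne_zero ht0 hn0)
  have hgs : g s = s := by
    rw [hs, map_div₀, map_mul, map_mul, map_neg, hgx0, hgv, hgt, hgn]
  set B : K := 1 / (s * s * v) with hB
  have hB0 : B ≠ 0 := one_div_ne_zero (mul_ne_zero (mul_ne_zero hs0 hs0) hv0)
  have hgB : g B = B := by rw [hB, map_div₀, map_one, map_mul, map_mul, hgs, hgv]
  set A : K := -1 / e2 with hA
  have hA0 : A ≠ 0 := div_ne_zero (neg_ne_zero.mpr one_ne_zero) he20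
  have hgA : g A = A := by rw [hA, map_div₀, map_neg, map_one, hge2]
  have hα0 : s * ρ ≠ 0 := mul_ne_zero hs0 hρ0
  have hAθ : A * (θ * (θ * θ)) = θ - x0 := by
    rw [hcub, hA, hx0]
    field_simp
    ring
  have hBα : B * (s * ρ * (s * ρ * (s * ρ))) = s * ρ + x0 := by
    have e : s * ρ * (s * ρ * (s * ρ)) = s * s * s * (ρ * (ρ * ρ)) := by ring
    have e' : s * (t * n) = -x0 * v := by rw [hs]; field_simp
    have e'' : s * (v * ρ - t * n) = v * (s * ρ + x0) := by linear_combination -e'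
    rw [e, hcubρ, hB]
    field_simp
    linear_combination e''
  by_cases hz : θ + s * ρ = 0
  · exfalso
    apply hθF
    have e : θ = -(s * ρ) := eq_neg_of_add_eq_zero_left hz
    have e1 : g (g θ) = θ := by rw [e, map_neg, map_neg, map_mul, map_mul, hgs, hgs, hρ]
    rw [e1] at hθ
    exact hθ
  have fin := hc.st.trapezoid hc.van h2 h3 (x := θ) (y := s * ρ) (z := θ + s * ρ) hgA hgB hA0
    hB0 hθ0 hα0 hz rfl (by rw [hAθ, hBα]; ring)
  rw [hc.st.scal_right hc.van (show s ∈ fixS g from hgs) hs0 hρ0 hθ0] at fin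
  exact fin

/-- `c(M₃*, M₂*) = 0`. -/
lemma MM6 (hc : Good g c) {y ρ : K} (hy : g (g (g y)) = y) (hy0 : y ≠ 0)
    (hρ : g (g ρ) = ρ) (hρ0 : ρ ≠ 0) : c y ρ = 0 := by
  by_cases hyF : g y = y
  · exact hc.st.van_left hc.van hyF hy0 hρ0
  set v1 : K := y - g y with hv1
  set v2 : K := y * y - g y * g y with hv2
  have hv10 : v1 ≠ 0 := sub_ne_zero.mpr (Ne.symm hyF)
  set T1 : K := y * v1 + g (y * v1) + g (g (y * v1)) with hT1
  set T2 : K := y * v2 + g (y * v2) + g (g (y * v2)) with hT2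
  have hgT1 : g T1 = T1 := by
    rw [hT1]; simp only [hv1, map_add, map_mul, map_sub, hy]; ring
  have hgT2 : g T2 = T2 := by
    rw [hT2]; simp only [hv2, map_add, map_mul, map_sub, hy]; ring
  have hsum : g (y + g y) ≠ y + g y := by
    intro h
    apply hyF
    rw [map_add] at h
    have h5 : g (g y) = y := by linear_combination h
    rw [h5] at hy
    exact hy
  -- `a`, `b` in `F`, not both zero, with `a T1 + b T2 = 0`
  obtain ⟨a, b, ha, hb, hab, hT⟩ : ∃ a b : K, g a = a ∧ g b = b ∧ ¬ (a = 0 ∧ b = 0) ∧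
      a * T1 + b * T2 = 0 := by
    by_cases h : T1 = 0 ∧ T2 = 0
    · exact ⟨1, 0, map_one g, map_zero g, fun h' => one_ne_zero h'.1, by rw [h.1]; ring⟩
    · refine ⟨T2, -T1, hgT2, by rw [map_neg, hgT1], fun h' => h ⟨neg_eq_zero.mp h'.2, h'.1⟩, ?_⟩
      ring
  set w : K := a * v1 + b * v2 with hw
  have hwf : w = v1 * (a + b * (y + g y)) := by rw [hw, hv1, hv2]; ring
  have hw0 : w ≠ 0 := by
    rw [hwf]
    refine mul_ne_zero hv10 ?_
    intro h
    by_cases hb0 : b = 0
    · rw [hb0, zero_mul, add_zero] at h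
      exact hab ⟨h, hb0⟩
    · apply hsum
      have e : y + g y = -a / b := by
        field_simp
        linear_combination h
      rw [e, map_div₀, map_neg, ha, hb]
  have hw3 : g (g (g w)) = w := by
    rw [hw, hv1, hv2]; simp only [map_add, map_mul, map_sub, ha, hb, hy]
  have hwtr : w + g w + g (g w) = 0 := by
    rw [hw, hv1, hv2]; simp only [map_add, map_mul, map_sub, ha, hb, hy]; ring
  have hyw3 : g (g (g (y * w))) = y * w := by rw [map_mul, map_mul, map_mul, hy, hw3]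
  have hywtr : y * w + g (y * w) + g (g (y * w)) = 0 := by
    rw [← hT, hT1, hT2, hw]
    simp only [map_add, map_mul, ha, hb]
    ring
  have k1 := hc.key6 h2 h3 hw3 hw0 hwtr hρ hρ0
  have k2 := hc.key6 h2 h3 hyw3 (mul_ne_zero hy0 hw0) hywtr hρ hρ0
  rw [hc.st.mul_left _ _ _ hy0 hw0 hρ0, k1, add_zero] at k2
  exact k2

/-- `c(M₂*, K*) = 0`. -/
lemma M2K (hc : Good g c) (h6 : ∀ x, g (g (g (g (g (g x))))) = x) {ρ u : K}
    (hρ : g (g ρ) = ρ) (hρ0 : ρ ≠ 0) (hu : u ≠ 0) : c ρ u = 0 := by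
  apply h2
  have hn : g (g (g (u * g (g (g u))))) = u * g (g (g u)) := by
    rw [map_mul, map_mul, map_mul, h6, mul_comm]
  have hn0 : u * g (g (g u)) ≠ 0 := mul_ne_zero hu (g_ne (g_ne (g_ne hu)))
  rw [hc.two6 h6 hρ hρ0 hu, hc.st.skew hρ0 hn0, hc.MM6 h2 h3 hn hn0 hρ hρ0, neg_zero]

omit h2 h3 in
/-- an element of `M₂` which is not in `F` -/
lemma exists_eps (h6 : ∀ x, g (g (g (g (g (g x))))) = x) {u : K}
    (hu : g (g (g u)) ≠ u) : ∃ ε : K, g (g ε) = ε ∧ g ε ≠ ε := by
  by_contra hcon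
  push Not at hcon
  have h1 := hcon (u + g (g u) + g (g (g (g u)))) (by
    simp only [map_add, h6]; ring)
  have h2 := hcon (u * g (g u) + g (g u) * g (g (g (g u))) + g (g (g (g u))) * u) (by
    simp only [map_add, map_mul, h6]; ring)
  have h3 := hcon (u * g (g u) * g (g (g (g u)))) (by
    simp only [map_mul, h6]; ring)
  simp only [map_add, map_mul, h6] at h1 h2 h3
  have hprod : (u - g u) * (u - g (g (g u))) * (u - g (g (g (g (g u))))) = 0 := by
    linear_combination -u ^ 2 * h1 + u * h2 - h3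
  rcases mul_eq_zero.mp hprod with h | h
  · rcases mul_eq_zero.mp h with h | h
    · have h' : g u = u := (sub_eq_zero.mp h).symm
      exact hu (by rw [h', h', h'])
    · exact hu (sub_eq_zero.mp h).symm
  · have h' : g (g (g (g (g u)))) = u := (sub_eq_zero.mp h).symm
    have h'' : u = g u := by
      have h7 := h6 u
      rw [h'] at h7
      exact h7.symm
    exact hu (by rw [← h'', ← h'', ← h''])

/-- `c(M₃*, K*) = 0`. -/
lemma M3K (hc : Good g c) (h6 : ∀ x, g (g (g (g (g (g x))))) = x) {β u : K}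
    (hβ : g (g (g β)) = β) (hβ0 : β ≠ 0) (hu : u ≠ 0) : c β u = 0 := by
  by_cases hu3 : g (g (g u)) = u
  · exact hc.cub hβ hu3 hβ0 hu
  obtain ⟨ε, hε, hεF⟩ := exists_eps h6 hu3
  set τ : K ≃+* K := (g.trans g).trans g with hτ
  have hτ1 : ∀ x, τ x = g (g (g x)) := fun x => rfl
  have hτε : τ ε ≠ ε := by rw [hτ1, hε]; exact hεF
  obtain ⟨p, q, hp, hq, e⟩ := coords τ (s := ε) (m := u) (by rw [hτ1, hτ1, h6])
    (by rw [hτ1, hτ1, h6]) hτε
  rw [hτ1] at hp hq
  by_cases hq0 : q = 0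
  · exfalso
    apply hu3
    rw [e, hq0, zero_mul, add_zero]
    exact hp
  set b : K := p / q with hb
  have hb3 : g (g (g b)) = b := by rw [hb, map_div₀, map_div₀, map_div₀, hp, hq]
  have hu' : u = q * (b + ε) := by rw [e, hb]; field_simp
  have hz0 : b + ε ≠ 0 := by
    intro h
    rw [h, mul_zero] at hu'
    exact hu hu'
  rw [hu', hc.st.mul_right _ _ _ hβ0 hq0 hz0, hc.cub hβ hq hβ0 hq0, zero_add]
  by_cases hbF : g b = b
  · refine hc.MM6 h2 h3 hβ hβ0 ?_ hz0
    rw [map_add, map_add, hbF, hbF, hε]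
  -- `c(b - x, b + ε) = 0`
  have lin : ∀ x : K, g x = x → b - x ≠ 0 → c (b - x) (b + ε) = 0 := by
    intro x hx hbx
    have hεx : ε + x ≠ 0 := by
      intro h
      apply hεF
      have e5 : ε = -x := eq_neg_of_add_eq_zero_left h
      rw [e5, map_neg, hx]
    have hεx2 : g (g (ε + x)) = ε + x := by rw [map_add, map_add, hε, hx, hx]
    have hbx3 : g (g (g (b - x))) = b - x := by
      rw [map_sub, map_sub, map_sub, hb3, hx, hx, hx]
    have h5 := hc.st.three hc.van hz0 hbx hεx (show b + ε = (b - x) + (ε + x) by ring)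
    rw [hc.MM6 h2 h3 hbx3 hbx hεx2 hεx, hc.M2K h2 h3 h6 hεx2 hεx hz0, sub_zero] at h5
    exact h5.symm
  have lin2 : ∀ r t : K, g r = r → g t = t → r + t * b ≠ 0 → c (r + t * b) (b + ε) = 0 := by
    intro r t hr ht hne
    by_cases ht0 : t = 0
    · rw [ht0, zero_mul, add_zero] at hne ⊢
      exact hc.st.van_left hc.van hr hne hz0
    · have e6 : r + t * b = t * (b - (-r / t)) := by field_simp; ring
      have hx : g (-r / t) = -r / t := by rw [map_div₀, map_neg, hr, ht]
      have hne' : b - (-r / t) ≠ 0 := by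
        intro h
        rw [h, mul_zero] at e6
        exact hne e6
      rw [e6, hc.st.scal_left hc.van (show t ∈ fixS g from ht) ht0 hne' hz0]
      exact lin _ hx hne'
  obtain ⟨p', q', r', t', hp', hq', hr', ht', hne, e7⟩ := ratio hb3 hβ hbF
  have hne' : p' + q' * b ≠ 0 := by rw [← e7]; exact mul_ne_zero hβ0 hne
  have h8 := hc.st.mul_left β (r' + t' * b) (b + ε) hβ0 hne hz0
  rw [e7, lin2 _ _ hp' hq' hne', lin2 _ _ hr' ht' hne, add_zero] at h8
  exact h8.symm

/-- **Theorem**: a Steinberg symbol with values in a group without 6-torsion, which is zero on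
`K* × F*`, `F` the fixed field of an automorphism `g` with `g^6 = 1`, is zero. -/
theorem eq_zero6 (hc : Good g c) (h6 : ∀ x, g (g (g (g (g (g x))))) = x) {u v : K} (hu : u ≠ 0)
    (hv : v ≠ 0) : c u v = 0 := by
  set τ : K ≃+* K := (g.trans g).trans g with hτ
  have hτ1 : ∀ x, τ x = g (g (g x)) := fun x => rfl
  have hCv : VanOn c (fixS τ) := by
    intro x hx f hf hf0
    rw [hc.st.skew hx hf0, hc.M3K h2 h3 h6 hf hf0 hx, neg_zero]
  by_cases h : τ u = u
  · exact hc.st.van_left hCv h hu hv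
  · obtain ⟨p, q, hp, hq, e⟩ := coords τ (s := u) (m := v) (by rw [hτ1, hτ1, h6])
      (by rw [hτ1, hτ1, h6]) h
    exact hc.st.line hCv (s := u) (p := 0) (q := 1) (r := p) (t := q)
      (zero_mem _) (one_mem _) hp hq (by ring) e hu hv

end Good

end Pool.Agent.MP_1b9aaa_al
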