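import Pool.Agent.Lib.MP_1b9aaa_al.Sx
import Pool.Agent.Lib.MP_1b9aaa_al.St3

/-!
Steinberg symbols with values in an abelian group, killed by an integer prime to 6.
-/

set_option autoImplicit false

namespace Pool.Agent.MP_1b9aaa_al

/-- A Steinberg symbol `c` on `K`, killed by an integer `n` prime to 6, which is zero on
`K* × F*`, where `F` is the fixed field of an automorphism `g` with `g^6 = 1`, is zero. -/
theorem Good.eq_zero_of_six {K T : Type*} [Field K] [AddCommGroup T] {g : K ≃+* K}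
    {c : K → K → T} (hc : Good g c) (h6 : ∀ x, g (g (g (g (g (g x))))) = x) {n : ℕ}
    (hn : Nat.Coprime 6 n) (hcn : ∀ u v, n • c u v = 0) {u v : K} (hu : u ≠ 0) (hv : v ≠ 0) :
    c u v = 0 := by
  set S : AddSubgroup T := (nsmulAddMonoidHom (α := T) n).ker with hS
  set c' : K → K → S := fun u v => ⟨c u v, hcn u v⟩ with hc'
  have hg : Good g c' := by
    refine ⟨⟨?_, ?_, ?_⟩, ?_⟩
    · intro a b x ha hb hx
      exact Subtype.ext (hc.st.mul_left a b x ha hb hx)
    · intro x a b hx ha hb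
      exact Subtype.ext (hc.st.mul_right x a b hx ha hb)
    · intro a ha h1
      exact Subtype.ext (hc.st.steinberg a ha h1)
    · intro x hx f hf hf0
      exact Subtype.ext (hc.van x hx f hf hf0)
  have tors : ∀ (k : ℕ), Nat.Coprime k n → ∀ t : S, k • t = 0 → t = 0 := by
    rintro k hk ⟨t, ht⟩ h
    apply Subtype.ext
    have h' : k • t = 0 := congrArg Subtype.val h
    have ht' : n • t = 0 := ht
    have h1 := addOrderOf_dvd_of_nsmul_eq_zero h'
    have h2 := addOrderOf_dvd_of_nsmul_eq_zero ht'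
    have h3 : addOrderOf t = 1 := Nat.eq_one_of_dvd_coprimes hk h1 h2
    exact AddMonoid.addOrderOf_eq_one_iff.mp h3
  have h2 : ∀ t : S, t + t = 0 → t = 0 := by
    intro t ht
    exact tors 2 (Nat.Coprime.coprime_dvd_left ⟨3, rfl⟩ hn) t (by rw [two_nsmul]; exact ht)
  have h3 : ∀ t : S, t + t + t = 0 → t = 0 := by
    intro t ht
    exact tors 3 (Nat.Coprime.coprime_dvd_left ⟨2, rfl⟩ hn) t
      (by rw [succ_nsmul, two_nsmul]; exact ht)
  exact congrArg Subtype.val (Good.eq_zero6 h2 h3 hg h6 hu hv)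

end Pool.Agent.MP_1b9aaa_al
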