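import Pool.Agent.Lib.MP_1b9aaa_al.Br

/-!
Symbol algebras: the universal property.
-/

set_option autoImplicit false

open scoped TensorProduct

namespace Pool.Agent.MP_1b9aaa_al

namespace SymAlg

variable {k : Type} [Field k] {n : ℕ} {ζ a b : k}

/-- the generator `x` -/
noncomputable def X (n : ℕ) (ζ a b : k) : SymAlg n ζ a b :=
  RingQuot.mkAlgHom k (SymRel n ζ a b) (FreeAlgebra.ι k 0)

/-- the generator `y` -/
noncomputable def Y (n : ℕ) (ζ a b : k) : SymAlg n ζ a b :=
  RingQuot.mkAlgHom k (SymRel n ζ a b) (FreeAlgebra.ι k 1)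

theorem X_pow : X n ζ a b ^ n = algebraMap k _ a := by
  have h := RingQuot.mkAlgHom_rel k (SymRel.powX (n := n) (ζ := ζ) (a := a) (b := b))
  rw [map_pow] at h
  rw [X, h, AlgHom.commutes]

theorem Y_pow : Y n ζ a b ^ n = algebraMap k _ b := by
  have h := RingQuot.mkAlgHom_rel k (SymRel.powY (n := n) (ζ := ζ) (a := a) (b := b))
  rw [map_pow] at h
  rw [Y, h, AlgHom.commutes]

theorem X_mul_Y : X n ζ a b * Y n ζ a b = ζ • (Y n ζ a b * X n ζ a b) := by
  have h := RingQuot.mkAlgHom_rel k (SymRel.comm (n := n) (ζ := ζ) (a := a) (b := b))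
  rw [map_mul, map_smul, map_mul] at h
  exact h

/-- The universal property. -/
noncomputable def lift {B : Type} [Ring B] [Algebra k B] (x y : B)
    (hx : x ^ n = algebraMap k B a) (hy : y ^ n = algebraMap k B b) (hxy : x * y = ζ • (y * x)) :
    SymAlg n ζ a b →ₐ[k] B :=
  RingQuot.liftAlgHom k ⟨FreeAlgebra.lift k ![x, y], by
    rintro _ _ (_ | _ | _)
    · simpa using hx
    · simpa using hy
    · simpa using hxy⟩

@[simp] theorem lift_X {B : Type} [Ring B] [Algebra k B] (x y : B)
    (hx : x ^ n = algebraMap k B a) (hy : y ^ n = algebraMap k B b) (hxy : x * y = ζ • (y * x)) :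
    lift x y hx hy hxy (X n ζ a b) = x := by
  simp [lift, X]

@[simp] theorem lift_Y {B : Type} [Ring B] [Algebra k B] (x y : B)
    (hx : x ^ n = algebraMap k B a) (hy : y ^ n = algebraMap k B b) (hxy : x * y = ζ • (y * x)) :
    lift x y hx hy hxy (Y n ζ a b) = y := by
  simp [lift, Y]

theorem hom_ext {B : Type} [Semiring B] [Algebra k B] {f g : SymAlg n ζ a b →ₐ[k] B}
    (hX : f (X n ζ a b) = g (X n ζ a b)) (hY : f (Y n ζ a b) = g (Y n ζ a b)) : f = g := by
  apply RingQuot.ringQuot_ext'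
  apply FreeAlgebra.hom_ext
  funext i
  fin_cases i
  · exact hX
  · exact hY

end SymAlg

end Pool.Agent.MP_1b9aaa_al
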