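import Pool.Agent.Lib.MP_1b9aaa_al.SyA

/-!
Symbol algebras: isomorphisms between them.
-/

set_option autoImplicit false

open scoped TensorProduct

namespace Pool.Agent.MP_1b9aaa_al

variable {k : Type} [Field k] {n : ℕ} {ζ a b b' : k}

section aux

variable {B : Type} [Ring B] [Algebra k B]

private theorem syb_smul_pow {a' : k} (c : k) {x : B} (hx : x ^ n = algebraMap k B a') :
    (c • x) ^ n = algebraMap k B (c ^ n * a') := by
  rw [smul_pow, hx, Algebra.smul_def, map_mul]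

private theorem syb_pow_mul {x y : B} (h : x * y = ζ • (y * x)) (m : ℕ) :
    x ^ m * y = ζ ^ m • (y * x ^ m) := by
  induction m with
  | zero => simp
  | succ m ih =>
    rw [pow_succ, mul_assoc, h, mul_smul_comm, ← mul_assoc, ih, smul_mul_assoc, smul_smul,
      mul_assoc, ← pow_succ']

private theorem syb_inv_right (hn : n ≠ 0) (ha : a ≠ 0) {x : B} (hx : x ^ n = algebraMap k B a) :
    x * (a⁻¹ • x ^ (n - 1)) = 1 := by
  rw [mul_smul_comm, ← pow_succ', Nat.sub_add_cancel (Nat.pos_of_ne_zero hn), hx,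
    Algebra.smul_def, ← map_mul, inv_mul_cancel₀ ha, map_one]

private theorem syb_inv_left (hn : n ≠ 0) (ha : a ≠ 0) {x : B} (hx : x ^ n = algebraMap k B a) :
    (a⁻¹ • x ^ (n - 1)) * x = 1 := by
  rw [smul_mul_assoc, ← pow_succ, Nat.sub_add_cancel (Nat.pos_of_ne_zero hn), hx,
    Algebra.smul_def, ← map_mul, inv_mul_cancel₀ ha, map_one]

private theorem syb_inv_pow (ha : a ≠ 0) {x xi : B} (hx : x ^ n = algebraMap k B a)
    (h1 : x * xi = 1) (h2 : xi * x = 1) : xi ^ n = algebraMap k B a⁻¹ := by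
  have hc : Commute x xi := h1.trans h2.symm
  have h3 : x ^ n * xi ^ n = 1 := by rw [← hc.mul_pow, h1, one_pow]
  rw [hx] at h3
  calc xi ^ n = algebraMap k B a⁻¹ * (algebraMap k B a * xi ^ n) := by
        rw [← mul_assoc, ← map_mul, inv_mul_cancel₀ ha, map_one, one_mul]
    _ = algebraMap k B a⁻¹ := by rw [h3, mul_one]

private theorem syb_inv_comm (hζ : ζ ≠ 0) {x y xi : B} (h : x * y = ζ • (y * x))
    (h1 : x * xi = 1) (h2 : xi * x = 1) : xi * y = ζ⁻¹ • (y * xi) := by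
  have h3 : y * xi = ζ • (xi * y) := by
    calc y * xi = (xi * x) * (y * xi) := by rw [h2, one_mul]
      _ = xi * (x * y) * xi := by simp only [mul_assoc]
      _ = ζ • (xi * y * (x * xi)) := by
        rw [h, mul_smul_comm, smul_mul_assoc]
        simp only [mul_assoc]
      _ = ζ • (xi * y) := by rw [h1, mul_one]
  rw [h3, smul_smul, inv_mul_cancel₀ hζ, one_smul]

private theorem syb_comm_inv {x y yi : B} (h : x * y = ζ • (y * x))
    (h1 : y * yi = 1) (h2 : yi * y = 1) : yi * x = ζ • (x * yi) := by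
  calc yi * x = (yi * x) * (y * yi) := by rw [h1, mul_one]
    _ = yi * (x * y) * yi := by simp only [mul_assoc]
    _ = ζ • ((yi * y) * (x * yi)) := by
      rw [h, mul_smul_comm, smul_mul_assoc]
      simp only [mul_assoc]
    _ = ζ • (x * yi) := by rw [h2, one_mul]

private theorem syb_mem (f : SymAlg n ζ a b →ₐ[k] B) (S : Subalgebra k B)
    (hX : f (SymAlg.X n ζ a b) ∈ S) (hY : f (SymAlg.Y n ζ a b) ∈ S) (z : SymAlg n ζ a b) :
    f z ∈ S := by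
  let g : SymAlg n ζ a b →ₐ[k] S := SymAlg.lift ⟨_, hX⟩ ⟨_, hY⟩
    (Subtype.ext (by
      show f (SymAlg.X n ζ a b) ^ n = algebraMap k B a
      rw [← map_pow, SymAlg.X_pow, AlgHom.commutes]))
    (Subtype.ext (by
      show f (SymAlg.Y n ζ a b) ^ n = algebraMap k B b
      rw [← map_pow, SymAlg.Y_pow, AlgHom.commutes]))
    (Subtype.ext (by
      show f (SymAlg.X n ζ a b) * f (SymAlg.Y n ζ a b) =
        ζ • (f (SymAlg.Y n ζ a b) * f (SymAlg.X n ζ a b))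
      rw [← map_mul, SymAlg.X_mul_Y, map_smul, map_mul]))
  have h : f = S.val.comp g := by
    refine SymAlg.hom_ext ?_ ?_ <;> simp [g]
  rw [h]
  exact (g z).2

private theorem syb_commute {ζ' a' b' : k} (f : SymAlg n ζ a b →ₐ[k] B)
    (g : SymAlg n ζ' a' b' →ₐ[k] B)
    (h1 : Commute (f (SymAlg.X n ζ a b)) (g (SymAlg.X n ζ' a' b')))
    (h2 : Commute (f (SymAlg.X n ζ a b)) (g (SymAlg.Y n ζ' a' b')))
    (h3 : Commute (f (SymAlg.Y n ζ a b)) (g (SymAlg.X n ζ' a' b')))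
    (h4 : Commute (f (SymAlg.Y n ζ a b)) (g (SymAlg.Y n ζ' a' b')))
    (x : SymAlg n ζ a b) (y : SymAlg n ζ' a' b') : Commute (f x) (g y) := by
  have e1 : ∀ z : B, Commute (f (SymAlg.X n ζ a b)) z → Commute (f (SymAlg.Y n ζ a b)) z →
      Commute (f x) z := by
    intro z hz1 hz2
    have h := syb_mem f (Subalgebra.centralizer k {z})
      ((Subalgebra.mem_centralizer_iff k).2 fun w hw => by
        rw [Set.mem_singleton_iff.1 hw]
        exact hz1.symm)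
      ((Subalgebra.mem_centralizer_iff k).2 fun w hw => by
        rw [Set.mem_singleton_iff.1 hw]
        exact hz2.symm) x
    exact ((Subalgebra.mem_centralizer_iff k).1 h z rfl).symm
  have h := syb_mem g (Subalgebra.centralizer k {f x})
    ((Subalgebra.mem_centralizer_iff k).2 fun w hw => by
      rw [Set.mem_singleton_iff.1 hw]
      exact e1 _ h1 h3)
    ((Subalgebra.mem_centralizer_iff k).2 fun w hw => by
      rw [Set.mem_singleton_iff.1 hw]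
      exact e1 _ h2 h4) y
  exact (Subalgebra.mem_centralizer_iff k).1 h _ rfl

end aux

/-- `(a,b)_ζ ≅ (b,a)_{ζ⁻¹}` by `x ↦ y`, `y ↦ x`. -/
theorem sy_swap (hζ : ζ ≠ 0) : cls k (SymAlg n ζ a b) = cls k (SymAlg n ζ⁻¹ b a) := by
  let f : SymAlg n ζ a b →ₐ[k] SymAlg n ζ⁻¹ b a :=
    SymAlg.lift (SymAlg.Y n ζ⁻¹ b a) (SymAlg.X n ζ⁻¹ b a) SymAlg.Y_pow SymAlg.X_pow (by
      rw [SymAlg.X_mul_Y, smul_smul, mul_inv_cancel₀ hζ, one_smul])
  let g : SymAlg n ζ⁻¹ b a →ₐ[k] SymAlg n ζ a b :=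
    SymAlg.lift (SymAlg.Y n ζ a b) (SymAlg.X n ζ a b) SymAlg.Y_pow SymAlg.X_pow (by
      rw [SymAlg.X_mul_Y, smul_smul, inv_mul_cancel₀ hζ, one_smul])
  refine cls_eq_of_equiv (AlgEquiv.ofAlgHom f g ?_ ?_)
  · refine SymAlg.hom_ext ?_ ?_ <;> simp [f, g]
  · refine SymAlg.hom_ext ?_ ?_ <;> simp [f, g]

/-- `(c^n a, b) ≅ (a, b)` by `x ↦ c x`. -/
theorem sy_scale {c : k} (hc : c ≠ 0) :
    cls k (SymAlg n ζ (c ^ n * a) b) = cls k (SymAlg n ζ a b) := by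
  let f : SymAlg n ζ (c ^ n * a) b →ₐ[k] SymAlg n ζ a b :=
    SymAlg.lift (c • SymAlg.X n ζ a b) (SymAlg.Y n ζ a b) (syb_smul_pow c SymAlg.X_pow)
      SymAlg.Y_pow (by
        rw [smul_mul_assoc, SymAlg.X_mul_Y, mul_smul_comm, smul_comm])
  let g : SymAlg n ζ a b →ₐ[k] SymAlg n ζ (c ^ n * a) b :=
    SymAlg.lift (c⁻¹ • SymAlg.X n ζ (c ^ n * a) b) (SymAlg.Y n ζ (c ^ n * a) b)
      ((syb_smul_pow c⁻¹ SymAlg.X_pow).trans (by
        rw [← mul_assoc, ← mul_pow, inv_mul_cancel₀ hc, one_pow, one_mul]))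
      SymAlg.Y_pow (by
        rw [smul_mul_assoc, SymAlg.X_mul_Y, mul_smul_comm, smul_comm])
  refine cls_eq_of_equiv (AlgEquiv.ofAlgHom f g ?_ ?_)
  · refine SymAlg.hom_ext ?_ ?_ <;> simp [f, g, smul_smul, hc]
  · refine SymAlg.hom_ext ?_ ?_ <;> simp [f, g, smul_smul, hc]

/-- `(a^w, b)_{ζ^w} ≅ (a,b)_ζ` by `X ↦ x^w`, with inverse `x ↦ a^{-j} X^{w'}`, where
`w w' = 1 + n j`. -/
theorem sy_pow_iso {w w' j : ℕ} (hζ : ζ ^ n = 1) (h : w * w' = 1 + n * j) (ha : a ≠ 0) :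
    cls k (SymAlg n (ζ ^ w) (a ^ w) b) = cls k (SymAlg n ζ a b) := by
  have hz : (ζ ^ w) ^ w' = ζ := by
    rw [← pow_mul, h, pow_add, pow_one, pow_mul, hζ, one_pow, mul_one]
  have haj : a ^ j ≠ 0 := pow_ne_zero _ ha
  let f : SymAlg n (ζ ^ w) (a ^ w) b →ₐ[k] SymAlg n ζ a b :=
    SymAlg.lift (SymAlg.X n ζ a b ^ w) (SymAlg.Y n ζ a b) (by
      rw [← pow_mul, mul_comm, pow_mul, SymAlg.X_pow, ← map_pow]) SymAlg.Y_pow
      (syb_pow_mul SymAlg.X_mul_Y w)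
  let g : SymAlg n ζ a b →ₐ[k] SymAlg n (ζ ^ w) (a ^ w) b :=
    SymAlg.lift ((a ^ j)⁻¹ • SymAlg.X n (ζ ^ w) (a ^ w) b ^ w') (SymAlg.Y n (ζ ^ w) (a ^ w) b)
      (by
        have e1 : (SymAlg.X n (ζ ^ w) (a ^ w) b ^ w') ^ n = algebraMap k _ (a ^ (w * w')) := by
          rw [← pow_mul, mul_comm w', pow_mul, SymAlg.X_pow, ← map_pow, ← pow_mul]
        rw [syb_smul_pow _ e1, h]
        congr 1
        rw [pow_add, pow_one, mul_comm n j, pow_mul, inv_pow]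
        field_simp)
      SymAlg.Y_pow (by
        rw [smul_mul_assoc, syb_pow_mul SymAlg.X_mul_Y w', hz, mul_smul_comm, smul_comm])
  refine cls_eq_of_equiv (AlgEquiv.ofAlgHom f g ?_ ?_)
  · refine SymAlg.hom_ext ?_ ?_
    · show f (g (SymAlg.X n ζ a b)) = SymAlg.X n ζ a b
      simp only [f, g, SymAlg.lift_X, map_smul, map_pow]
      rw [← pow_mul, h, pow_add, pow_one, pow_mul, SymAlg.X_pow, ← map_pow, ← Algebra.commutes,
        ← Algebra.smul_def, smul_smul, inv_mul_cancel₀ haj, one_smul]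
    · show f (g (SymAlg.Y n ζ a b)) = SymAlg.Y n ζ a b
      simp only [f, g, SymAlg.lift_Y]
  · refine SymAlg.hom_ext ?_ ?_
    · show g (f (SymAlg.X n (ζ ^ w) (a ^ w) b)) = SymAlg.X n (ζ ^ w) (a ^ w) b
      simp only [f, g, SymAlg.lift_X, map_pow]
      rw [smul_pow, ← pow_mul, mul_comm w' w, h, pow_add, pow_one, pow_mul, SymAlg.X_pow,
        ← map_pow, ← Algebra.commutes, ← Algebra.smul_def, smul_smul]
      have e2 : ((a ^ j)⁻¹) ^ w * (a ^ w) ^ j = 1 := by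
        rw [inv_pow, ← pow_mul, ← pow_mul, mul_comm w j,
          inv_mul_cancel₀ (pow_ne_zero _ ha)]
      rw [e2, one_smul]
    · show g (f (SymAlg.Y n (ζ ^ w) (a ^ w) b)) = SymAlg.Y n (ζ ^ w) (a ^ w) b
      simp only [f, g, SymAlg.lift_Y]

private theorem syb_tpow {A B : Type} [Ring A] [Algebra k A] [Ring B] [Algebra k B] {r s : k}
    {x : A} {y : B} (hx : x ^ n = algebraMap k A r) (hy : y ^ n = algebraMap k B s) :
    (x ⊗ₜ[k] y) ^ n = algebraMap k (A ⊗[k] B) (r * s) := by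
  rw [Algebra.TensorProduct.tmul_pow, hx, hy, Algebra.algebraMap_eq_smul_one,
    Algebra.algebraMap_eq_smul_one, TensorProduct.smul_tmul_smul,
    Algebra.algebraMap_eq_smul_one, Algebra.TensorProduct.one_def]

/-- `(a,b) ⊗ (a,b') ≅ (a,b b') ⊗ (1,b')`:
`X ↦ x₁`, `Y ↦ y₁ y₂`, `U ↦ x₁⁻¹ x₂`, `V ↦ y₂`, with inverse
`x₁ ↦ X`, `y₁ ↦ Y V⁻¹`, `x₂ ↦ X U`, `y₂ ↦ V` (here `x₁⁻¹ = a⁻¹ x₁^{n-1}`, `V⁻¹ = b'⁻¹ V^{n-1}`). -/
theorem sy_mul_aux (hn : n ≠ 0) (hζ : ζ ^ n = 1) (ha : a ≠ 0) (hb : b ≠ 0) (hb' : b' ≠ 0) :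
    cls k (SymAlg n ζ a b) * cls k (SymAlg n ζ a b')
      = cls k (SymAlg n ζ a (b * b')) * cls k (SymAlg n ζ 1 b') := by
  have hζ0 : ζ ≠ 0 := by
    rintro rfl
    rw [zero_pow hn] at hζ
    exact zero_ne_one hζ
  have hζζ : ζ⁻¹ * ζ = 1 := inv_mul_cancel₀ hζ0
  rw [cls_mul, cls_mul]
  set x₁ := SymAlg.X n ζ a b with hx₁
  set y₁ := SymAlg.Y n ζ a b with hy₁
  set x₂ := SymAlg.X n ζ a b' with hx₂
  set y₂ := SymAlg.Y n ζ a b' with hy₂
  set X := SymAlg.X n ζ a (b * b') with hX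
  set Y := SymAlg.Y n ζ a (b * b') with hY
  set U := SymAlg.X n ζ 1 b' with hU
  set V := SymAlg.Y n ζ 1 b' with hV
  have px₁ : x₁ ^ n = algebraMap k _ a := SymAlg.X_pow
  have py₁ : y₁ ^ n = algebraMap k _ b := SymAlg.Y_pow
  have px₂ : x₂ ^ n = algebraMap k _ a := SymAlg.X_pow
  have py₂ : y₂ ^ n = algebraMap k _ b' := SymAlg.Y_pow
  have pX : X ^ n = algebraMap k _ a := SymAlg.X_pow
  have pY : Y ^ n = algebraMap k _ (b * b') := SymAlg.Y_pow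
  have pU : U ^ n = algebraMap k _ 1 := SymAlg.X_pow
  have pV : V ^ n = algebraMap k _ b' := SymAlg.Y_pow
  have c₁ : x₁ * y₁ = ζ • (y₁ * x₁) := SymAlg.X_mul_Y
  have c₂ : x₂ * y₂ = ζ • (y₂ * x₂) := SymAlg.X_mul_Y
  have cX : X * Y = ζ • (Y * X) := SymAlg.X_mul_Y
  have cU : U * V = ζ • (V * U) := SymAlg.X_mul_Y
  set xi := a⁻¹ • x₁ ^ (n - 1) with hxi
  set vi := b'⁻¹ • V ^ (n - 1) with hvi
  have xi1 : x₁ * xi = 1 := syb_inv_right hn ha px₁
  have xi2 : xi * x₁ = 1 := syb_inv_left hn ha px₁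
  have vi1 : V * vi = 1 := syb_inv_right hn hb' pV
  have vi2 : vi * V = 1 := syb_inv_left hn hb' pV
  have pone : ∀ (C : Type) [Ring C] [Algebra k C], (1 : C) ^ n = algebraMap k C 1 :=
    fun C _ _ => by rw [one_pow, map_one]
  -- the map to the left hand side
  let fP : SymAlg n ζ a (b * b') →ₐ[k] SymAlg n ζ a b ⊗[k] SymAlg n ζ a b' :=
    SymAlg.lift (x₁ ⊗ₜ 1) (y₁ ⊗ₜ y₂) ((syb_tpow px₁ (pone _)).trans (by rw [mul_one]))
      (syb_tpow py₁ py₂) (by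
        rw [Algebra.TensorProduct.tmul_mul_tmul, Algebra.TensorProduct.tmul_mul_tmul, c₁,
          one_mul, mul_one, TensorProduct.smul_tmul'])
  let fQ : SymAlg n ζ 1 b' →ₐ[k] SymAlg n ζ a b ⊗[k] SymAlg n ζ a b' :=
    SymAlg.lift (xi ⊗ₜ x₂) (1 ⊗ₜ y₂)
      ((syb_tpow (syb_inv_pow ha px₁ xi1 xi2) px₂).trans (by rw [inv_mul_cancel₀ ha]))
      ((syb_tpow (pone _) py₂).trans (by rw [one_mul])) (by
        rw [Algebra.TensorProduct.tmul_mul_tmul, Algebra.TensorProduct.tmul_mul_tmul, c₂,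
          one_mul, mul_one, TensorProduct.tmul_smul])
  have hfPX : fP X = x₁ ⊗ₜ 1 := SymAlg.lift_X _ _ _ _ _
  have hfPY : fP Y = y₁ ⊗ₜ y₂ := SymAlg.lift_Y _ _ _ _ _
  have hfQU : fQ U = xi ⊗ₜ x₂ := SymAlg.lift_X _ _ _ _ _
  have hfQV : fQ V = 1 ⊗ₜ y₂ := SymAlg.lift_Y _ _ _ _ _
  let f : SymAlg n ζ a (b * b') ⊗[k] SymAlg n ζ 1 b' →ₐ[k]
      SymAlg n ζ a b ⊗[k] SymAlg n ζ a b' :=
    Algebra.TensorProduct.lift fP fQ (by
      refine syb_commute (B := SymAlg n ζ a b ⊗[k] SymAlg n ζ a b') fP fQ ?_ ?_ ?_ ?_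
      · rw [← hX, ← hU, hfPX, hfQU]
        show _ * _ = _ * _
        rw [Algebra.TensorProduct.tmul_mul_tmul, Algebra.TensorProduct.tmul_mul_tmul, xi1, xi2,
          one_mul, mul_one]
      · rw [← hX, ← hV, hfPX, hfQV]
        show _ * _ = _ * _
        rw [Algebra.TensorProduct.tmul_mul_tmul, Algebra.TensorProduct.tmul_mul_tmul]
        simp only [one_mul, mul_one]
      · rw [← hY, ← hU, hfPY, hfQU]
        show _ * _ = _ * _
        rw [Algebra.TensorProduct.tmul_mul_tmul, Algebra.TensorProduct.tmul_mul_tmul,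
          syb_inv_comm hζ0 c₁ xi1 xi2, c₂, TensorProduct.smul_tmul_smul, hζζ, one_smul]
      · rw [← hY, ← hV, hfPY, hfQV]
        show _ * _ = _ * _
        rw [Algebra.TensorProduct.tmul_mul_tmul, Algebra.TensorProduct.tmul_mul_tmul]
        simp only [one_mul, mul_one])
  -- the map to the right hand side
  let gA : SymAlg n ζ a b →ₐ[k] SymAlg n ζ a (b * b') ⊗[k] SymAlg n ζ 1 b' :=
    SymAlg.lift (X ⊗ₜ 1) (Y ⊗ₜ vi) ((syb_tpow pX (pone _)).trans (by rw [mul_one]))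
      ((syb_tpow pY (syb_inv_pow hb' pV vi1 vi2)).trans (by
        rw [mul_assoc, mul_inv_cancel₀ hb', mul_one])) (by
        rw [Algebra.TensorProduct.tmul_mul_tmul, Algebra.TensorProduct.tmul_mul_tmul, cX,
          one_mul, mul_one, TensorProduct.smul_tmul'])
  let gB : SymAlg n ζ a b' →ₐ[k] SymAlg n ζ a (b * b') ⊗[k] SymAlg n ζ 1 b' :=
    SymAlg.lift (X ⊗ₜ U) (1 ⊗ₜ V) ((syb_tpow pX pU).trans (by rw [mul_one]))
      ((syb_tpow (pone _) pV).trans (by rw [one_mul])) (by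
        rw [Algebra.TensorProduct.tmul_mul_tmul, Algebra.TensorProduct.tmul_mul_tmul, cU,
          one_mul, mul_one, TensorProduct.tmul_smul])
  have hgAX : gA x₁ = X ⊗ₜ 1 := SymAlg.lift_X _ _ _ _ _
  have hgAY : gA y₁ = Y ⊗ₜ vi := SymAlg.lift_Y _ _ _ _ _
  have hgBX : gB x₂ = X ⊗ₜ U := SymAlg.lift_X _ _ _ _ _
  have hgBY : gB y₂ = 1 ⊗ₜ V := SymAlg.lift_Y _ _ _ _ _
  let g : SymAlg n ζ a b ⊗[k] SymAlg n ζ a b' →ₐ[k]
      SymAlg n ζ a (b * b') ⊗[k] SymAlg n ζ 1 b' :=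
    Algebra.TensorProduct.lift gA gB (by
      refine syb_commute (B := SymAlg n ζ a (b * b') ⊗[k] SymAlg n ζ 1 b') gA gB ?_ ?_ ?_ ?_
      · rw [← hx₁, ← hx₂, hgAX, hgBX]
        show _ * _ = _ * _
        rw [Algebra.TensorProduct.tmul_mul_tmul, Algebra.TensorProduct.tmul_mul_tmul]
        simp only [one_mul, mul_one]
      · rw [← hx₁, ← hy₂, hgAX, hgBY]
        show _ * _ = _ * _
        rw [Algebra.TensorProduct.tmul_mul_tmul, Algebra.TensorProduct.tmul_mul_tmul]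
        simp only [one_mul, mul_one]
      · rw [← hy₁, ← hx₂, hgAY, hgBX]
        show _ * _ = _ * _
        rw [Algebra.TensorProduct.tmul_mul_tmul, Algebra.TensorProduct.tmul_mul_tmul,
          syb_comm_inv cU vi1 vi2, cX, TensorProduct.tmul_smul, ← TensorProduct.smul_tmul']
      · rw [← hy₁, ← hy₂, hgAY, hgBY]
        show _ * _ = _ * _
        rw [Algebra.TensorProduct.tmul_mul_tmul, Algebra.TensorProduct.tmul_mul_tmul, vi1, vi2,
          one_mul, mul_one])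
  have hf : ∀ p q, f (p ⊗ₜ q) = fP p * fQ q := fun p q =>
    Algebra.TensorProduct.lift_tmul _ _ _ _ _
  have hg : ∀ p q, g (p ⊗ₜ q) = gA p * gB q := fun p q =>
    Algebra.TensorProduct.lift_tmul _ _ _ _ _
  refine cls_eq_of_equiv (AlgEquiv.ofAlgHom g f ?_ ?_)
  · refine Algebra.TensorProduct.ext (SymAlg.hom_ext ?_ ?_) (SymAlg.hom_ext ?_ ?_)
    · show g (f (X ⊗ₜ 1)) = X ⊗ₜ 1
      rw [hf, hfPX, map_one, mul_one, hg, hgAX, map_one, mul_one]
    · show g (f (Y ⊗ₜ 1)) = Y ⊗ₜ 1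
      rw [hf, hfPY, map_one, mul_one, hg, hgAY, hgBY, Algebra.TensorProduct.tmul_mul_tmul, vi2,
        mul_one]
    · show g (f (1 ⊗ₜ U)) = 1 ⊗ₜ U
      rw [hf, hfQU, map_one, one_mul, hg, hgBX, hxi, map_smul, map_pow, hgAX,
        Algebra.TensorProduct.tmul_pow, one_pow, TensorProduct.smul_tmul',
        Algebra.TensorProduct.tmul_mul_tmul, syb_inv_left hn ha pX, one_mul]
    · show g (f (1 ⊗ₜ V)) = 1 ⊗ₜ V
      rw [hf, hfQV, map_one, one_mul, hg, hgBY, map_one, one_mul]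
  · refine Algebra.TensorProduct.ext (SymAlg.hom_ext ?_ ?_) (SymAlg.hom_ext ?_ ?_)
    · show f (g (x₁ ⊗ₜ 1)) = x₁ ⊗ₜ 1
      rw [hg, hgAX, map_one, mul_one, hf, hfPX, map_one, mul_one]
    · show f (g (y₁ ⊗ₜ 1)) = y₁ ⊗ₜ 1
      rw [hg, hgAY, map_one, mul_one, hf, hfPY, hvi, map_smul, map_pow, hfQV,
        Algebra.TensorProduct.tmul_pow, one_pow, ← TensorProduct.tmul_smul,
        Algebra.TensorProduct.tmul_mul_tmul, syb_inv_right hn hb' py₂, mul_one]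
    · show f (g (1 ⊗ₜ x₂)) = 1 ⊗ₜ x₂
      rw [hg, hgBX, map_one, one_mul, hf, hfPX, hfQU, Algebra.TensorProduct.tmul_mul_tmul, xi1,
        one_mul]
    · show f (g (1 ⊗ₜ y₂)) = 1 ⊗ₜ y₂
      rw [hg, hgBY, map_one, one_mul, hf, hfQV, map_one, one_mul]

end Pool.Agent.MP_1b9aaa_al
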