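import Pool.Agent.Lib.MP_1b9aaa_al.SyA

/-!
Symbol algebras: dimension, `(1,b) ≅ M_n(k)`, nontriviality.
-/

set_option autoImplicit false

open scoped TensorProduct Fin.NatCast

namespace Pool.Agent.MP_1b9aaa_al

variable {k : Type} [Field k] {n : ℕ} {ζ a b : k}

/-- a subalgebra which contains the images of the generators contains everything -/
private theorem syc_mem (S : Subalgebra k (SymAlg n ζ a b)) (hX : SymAlg.X n ζ a b ∈ S)
    (hY : SymAlg.Y n ζ a b ∈ S) (z : SymAlg n ζ a b) : z ∈ S := by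
  let g : SymAlg n ζ a b →ₐ[k] S := SymAlg.lift ⟨_, hX⟩ ⟨_, hY⟩
    (Subtype.ext SymAlg.X_pow) (Subtype.ext SymAlg.Y_pow) (Subtype.ext SymAlg.X_mul_Y)
  have h : S.val.comp g = AlgHom.id k (SymAlg n ζ a b) := by
    refine SymAlg.hom_ext ?_ ?_ <;> simp [g]
  have h1 := DFunLike.congr_fun h z
  have h2 : S.val (g z) = z := h1
  rw [← h2]
  exact (g z).2

private theorem syc_X_Y_pow (i : ℕ) : SymAlg.X n ζ a b * SymAlg.Y n ζ a b ^ i =
    ζ ^ i • (SymAlg.Y n ζ a b ^ i * SymAlg.X n ζ a b) := by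
  induction i with
  | zero => simp
  | succ i ih =>
    rw [pow_succ, ← mul_assoc, ih, smul_mul_assoc, mul_assoc, SymAlg.X_mul_Y, mul_smul_comm,
      smul_smul, pow_succ, mul_assoc]

/-- The symbol algebra is spanned by the `n²` elements `y^i x^j`, `i, j < n`. -/
theorem SymAlg.finite (hn : n ≠ 0) (hζ : ζ ≠ 0) :
    Module.Finite k (SymAlg n ζ a b) ∧ Module.finrank k (SymAlg n ζ a b) ≤ n * n := by
  have hn0 : 0 < n := Nat.pos_of_ne_zero hn
  let v : Fin n × Fin n → SymAlg n ζ a b := fun q =>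
    SymAlg.Y n ζ a b ^ (q.1 : ℕ) * SymAlg.X n ζ a b ^ (q.2 : ℕ)
  let S : Submodule k (SymAlg n ζ a b) := Submodule.span k (Set.range v)
  have hmem : ∀ i j : ℕ, i ≤ n → j ≤ n →
      SymAlg.Y n ζ a b ^ i * SymAlg.X n ζ a b ^ j ∈ S := by
    intro i j hi hj
    rcases Nat.lt_or_ge i n with hi' | hi'
    · rcases Nat.lt_or_ge j n with hj' | hj'
      · exact Submodule.subset_span ⟨(⟨i, hi'⟩, ⟨j, hj'⟩), rfl⟩
      · have hjn : j = n := le_antisymm hj hj'
        rw [hjn, SymAlg.X_pow, ← Algebra.commutes, ← Algebra.smul_def]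
        refine Submodule.smul_mem _ _ (Submodule.subset_span ⟨(⟨i, hi'⟩, ⟨0, hn0⟩), ?_⟩)
        show SymAlg.Y n ζ a b ^ i * SymAlg.X n ζ a b ^ 0 = _
        rw [pow_zero, mul_one]
    · have hin : i = n := le_antisymm hi hi'
      rw [hin, SymAlg.Y_pow, ← Algebra.smul_def]
      refine Submodule.smul_mem _ _ ?_
      rcases Nat.lt_or_ge j n with hj' | hj'
      · refine Submodule.subset_span ⟨(⟨0, hn0⟩, ⟨j, hj'⟩), ?_⟩
        show SymAlg.Y n ζ a b ^ 0 * SymAlg.X n ζ a b ^ j = _
        rw [pow_zero, one_mul]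
      · have hjn : j = n := le_antisymm hj hj'
        rw [hjn, SymAlg.X_pow, Algebra.algebraMap_eq_smul_one]
        refine Submodule.smul_mem _ _ (Submodule.subset_span ⟨(⟨0, hn0⟩, ⟨0, hn0⟩), ?_⟩)
        show SymAlg.Y n ζ a b ^ 0 * SymAlg.X n ζ a b ^ 0 = _
        rw [pow_zero, pow_zero, mul_one]
  let T : Subalgebra k (SymAlg n ζ a b) :=
    { carrier := {z | ∀ s ∈ S, z * s ∈ S}
      mul_mem' := fun {z w} hz hw s hs => by
        rw [mul_assoc]
        exact hz _ (hw _ hs)
      add_mem' := fun {z w} hz hw s hs => by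
        rw [add_mul]
        exact S.add_mem (hz _ hs) (hw _ hs)
      algebraMap_mem' := fun c s hs => by
        rw [← Algebra.smul_def]
        exact S.smul_mem _ hs }
  have hY : SymAlg.Y n ζ a b ∈ T := by
    intro s hs
    induction hs using Submodule.span_induction with
    | mem x hx =>
      obtain ⟨q, rfl⟩ := hx
      show SymAlg.Y n ζ a b * (SymAlg.Y n ζ a b ^ (q.1 : ℕ) * SymAlg.X n ζ a b ^ (q.2 : ℕ)) ∈ S
      rw [← mul_assoc, ← pow_succ']
      exact hmem _ _ q.1.2 q.2.2.le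
    | zero => rw [mul_zero]; exact S.zero_mem
    | add x y _ _ hx hy => rw [mul_add]; exact S.add_mem hx hy
    | smul c x _ hx => rw [mul_smul_comm]; exact S.smul_mem _ hx
  have hX : SymAlg.X n ζ a b ∈ T := by
    intro s hs
    induction hs using Submodule.span_induction with
    | mem x hx =>
      obtain ⟨q, rfl⟩ := hx
      show SymAlg.X n ζ a b * (SymAlg.Y n ζ a b ^ (q.1 : ℕ) * SymAlg.X n ζ a b ^ (q.2 : ℕ)) ∈ S
      rw [← mul_assoc, syc_X_Y_pow, smul_mul_assoc, mul_assoc, ← pow_succ']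
      exact S.smul_mem _ (hmem _ _ q.1.2.le q.2.2)
    | zero => rw [mul_zero]; exact S.zero_mem
    | add x y _ _ hx hy => rw [mul_add]; exact S.add_mem hx hy
    | smul c x _ hx => rw [mul_smul_comm]; exact S.smul_mem _ hx
  have htop : S = ⊤ := by
    rw [eq_top_iff]
    intro z _
    have h1 : (1 : SymAlg n ζ a b) ∈ S := by
      have := hmem 0 0 (Nat.zero_le _) (Nat.zero_le _)
      rwa [pow_zero, pow_zero, mul_one] at this
    have h2 := syc_mem T hX hY z 1 h1
    rwa [mul_one] at h2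
  have hfin : Module.Finite k (SymAlg n ζ a b) :=
    ⟨⟨(Set.finite_range v).toFinset, by rw [Set.Finite.coe_toFinset]; exact htop⟩⟩
  refine ⟨hfin, ?_⟩
  have h3 := finrank_range_le_card (R := k) v
  rw [Set.finrank] at h3
  have h4 : Submodule.span k (Set.range v) = ⊤ := htop
  rw [h4, finrank_top, Fintype.card_prod, Fintype.card_fin] at h3
  exact h3

section mat

variable {R : Type} [CommRing R] [NeZero n]

private def sycW (b : R) (j : Fin n) : R := if j + 1 = 0 then b else 1

private def sycP (n : ℕ) [NeZero n] (b : R) : Matrix (Fin n) (Fin n) R :=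
  Matrix.of fun i j => if i = j + 1 then sycW b j else 0

private def sycD (n : ℕ) (z : R) : Matrix (Fin n) (Fin n) R :=
  Matrix.diagonal fun i => z ^ (i : ℕ)

private theorem sycD_pow {z : R} (hz : z ^ n = 1) : sycD n z ^ n = 1 := by
  unfold sycD
  rw [Matrix.diagonal_pow, ← Matrix.diagonal_one]
  congr 1
  funext i
  rw [Pi.pow_apply, ← pow_mul, mul_comm, pow_mul, hz, one_pow]

private theorem syc_pow_succ {z : R} (hz : z ^ n = 1) (j : Fin n) :
    z ^ ((j + 1 : Fin n) : ℕ) = z * z ^ (j : ℕ) := by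
  have h1 : z ^ ((1 : Fin n) : ℕ) = z := by
    rw [Fin.val_one']
    conv_rhs => rw [← pow_one z]
    exact (pow_eq_pow_mod 1 hz).symm
  rw [Fin.val_add, ← pow_eq_pow_mod _ hz, pow_add, h1, mul_comm]

private theorem sycD_mul_P {z : R} (hz : z ^ n = 1) (b : R) :
    sycD n z * sycP n b = z • (sycP n b * sycD n z) := by
  ext i j
  unfold sycD
  rw [Matrix.diagonal_mul, Matrix.smul_apply, Matrix.mul_diagonal, smul_eq_mul]
  show z ^ (i : ℕ) * (if i = j + 1 then sycW b j else 0) =
    z * ((if i = j + 1 then sycW b j else 0) * z ^ (j : ℕ))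
  by_cases h : i = j + 1
  · rw [if_pos h, h, syc_pow_succ hz]
    ring
  · rw [if_neg h, mul_zero, zero_mul, mul_zero]

private theorem sycP_pow (b : R) (m : ℕ) (i j : Fin n) : (sycP n b ^ m) i j =
    if i = j + (m : Fin n) then ∏ l ∈ Finset.range m, sycW b (j + (l : Fin n)) else 0 := by
  induction m generalizing i with
  | zero =>
    rw [pow_zero, Matrix.one_apply, Finset.range_zero, Finset.prod_empty, Nat.cast_zero, add_zero]
  | succ m ih =>
    rw [pow_succ', Matrix.mul_apply]
    have h1 : ∀ l : Fin n, sycP n b i l * (sycP n b ^ m) l j =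
        if l = j + (m : Fin n) then (if i = l + 1 then sycW b l else 0) *
          ∏ l ∈ Finset.range m, sycW b (j + (l : Fin n)) else 0 := by
      intro l
      rw [ih]
      show (if i = l + 1 then sycW b l else 0) * _ = _
      by_cases h : l = j + (m : Fin n)
      · rw [if_pos h, if_pos h]
      · rw [if_neg h, if_neg h, mul_zero]
    rw [Finset.sum_congr rfl fun l _ => h1 l, Finset.sum_ite_eq' Finset.univ,
      if_pos (Finset.mem_univ _), Nat.cast_succ, ← add_assoc]
    by_cases h : i = j + (m : Fin n) + 1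
    · rw [if_pos h, if_pos h, Finset.prod_range_succ, mul_comm]
    · rw [if_neg h, if_neg h, zero_mul]

private theorem syc_prod (b : R) (j : Fin n) :
    ∏ l ∈ Finset.range n, sycW b (j + (l : Fin n)) = b := by
  rw [Finset.prod_range]
  have h1 : ∀ i : Fin n, sycW b (j + ((i : ℕ) : Fin n)) = sycW b (Equiv.addLeft j i) := by
    intro i
    rw [Fin.cast_val_eq_self]
    rfl
  rw [Finset.prod_congr rfl fun i _ => h1 i, Equiv.prod_comp (Equiv.addLeft j) (sycW b),
    Finset.prod_eq_single (-1 : Fin n)]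
  · unfold sycW
    rw [neg_add_cancel, if_pos rfl]
  · intro i _ hi
    unfold sycW
    rw [if_neg fun h => hi (eq_neg_of_add_eq_zero_left h)]
  · intro h
    exact absurd (Finset.mem_univ _) h

private theorem sycP_pow_n (b : R) : sycP n b ^ n = b • (1 : Matrix (Fin n) (Fin n) R) := by
  ext i j
  rw [sycP_pow, syc_prod, Fin.natCast_self, add_zero, Matrix.smul_apply, Matrix.one_apply,
    smul_eq_mul, mul_ite, mul_one, mul_zero]

end mat

/-- `(1, b) ≅ M_n(k)`: `x ↦ diag(1, ζ, ζ², …)`, `y ↦` the weighted cyclic permutation matrix with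
`y^n = b`. The map is surjective (the diagonal matrix units are polynomials in `diag(ζ^i)` as the
`ζ^i` are distinct), and the dimensions are `≤ n²` and `= n²`. -/
theorem SymAlg.equiv_matrix (hn : n ≠ 0) (hζ : IsPrimitiveRoot ζ n) (hb : b ≠ 0) :
    Nonempty (SymAlg n ζ 1 b ≃ₐ[k] Matrix (Fin n) (Fin n) k) := by
  classical
  have hne : NeZero n := ⟨hn⟩
  have hζ0 : ζ ≠ 0 := hζ.ne_zero hn
  have hnk : (n : k) ≠ 0 := (hζ.neZero').ne
  let f : SymAlg n ζ 1 b →ₐ[k] Matrix (Fin n) (Fin n) k := SymAlg.lift (sycD n ζ) (sycP n b)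
    (by rw [sycD_pow hζ.pow_eq_one, map_one])
    (by rw [sycP_pow_n, Algebra.algebraMap_eq_smul_one]) (sycD_mul_P hζ.pow_eq_one b)
  have hD : sycD n ζ ∈ f.range := ⟨SymAlg.X n ζ 1 b, SymAlg.lift_X _ _ _ _ _⟩
  have hP : sycP n b ∈ f.range := ⟨SymAlg.Y n ζ 1 b, SymAlg.lift_Y _ _ _ _ _⟩
  have hE : ∀ i : Fin n, Matrix.single i i (1 : k) ∈ f.range := by
    intro i
    have h1 : Matrix.single i i (1 : k) = (n : k)⁻¹ • ∑ m ∈ Finset.range n,
        ((ζ ^ (i : ℕ))⁻¹) ^ m • sycD n ζ ^ m := by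
      have h2 : ∀ j l : Fin n, (∑ m ∈ Finset.range n,
          ((ζ ^ (i : ℕ))⁻¹) ^ m • sycD n ζ ^ m) j l =
          if j = l then ∑ m ∈ Finset.range n, ((ζ ^ (i : ℕ))⁻¹ * ζ ^ (j : ℕ)) ^ m else 0 := by
        intro j l
        rw [Matrix.sum_apply]
        by_cases hjl : j = l
        · rw [if_pos hjl]
          refine Finset.sum_congr rfl fun m _ => ?_
          unfold sycD
          rw [Matrix.smul_apply, Matrix.diagonal_pow, hjl, Matrix.diagonal_apply_eq, smul_eq_mul,
            Pi.pow_apply, ← mul_pow]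
        · rw [if_neg hjl]
          refine Finset.sum_eq_zero fun m _ => ?_
          unfold sycD
          rw [Matrix.smul_apply, Matrix.diagonal_pow, Matrix.diagonal_apply_ne _ hjl, smul_zero]
      ext j l
      rw [Matrix.smul_apply, h2, Matrix.single_apply]
      by_cases hjl : j = l
      · subst hjl
        rw [if_pos rfl]
        by_cases hij : i = j
        · subst hij
          rw [if_pos ⟨rfl, rfl⟩, inv_mul_cancel₀ (pow_ne_zero _ hζ0)]
          simp [hnk]
        · rw [if_neg fun h => hij h.1]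
          have h3 : (ζ ^ (i : ℕ))⁻¹ * ζ ^ (j : ℕ) ≠ 1 := by
            intro h4
            have h5 : ζ ^ (j : ℕ) = ζ ^ (i : ℕ) := by
              rw [← mul_one (ζ ^ (i : ℕ)), ← h4, ← mul_assoc,
                mul_inv_cancel₀ (pow_ne_zero _ hζ0), one_mul]
            exact hij (Fin.ext (hζ.pow_inj i.2 j.2 h5.symm))
          have h4 : ((ζ ^ (i : ℕ))⁻¹ * ζ ^ (j : ℕ)) ^ n = 1 := by
            rw [mul_pow, inv_pow, ← pow_mul, ← pow_mul, mul_comm (i : ℕ), mul_comm (j : ℕ),
              pow_mul, pow_mul, hζ.pow_eq_one, one_pow, one_pow, inv_one, mul_one]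
          have h5 := mul_geom_sum ((ζ ^ (i : ℕ))⁻¹ * ζ ^ (j : ℕ)) n
          rw [h4, sub_self] at h5
          rw [(mul_eq_zero.1 h5).resolve_left (sub_ne_zero.2 h3), smul_zero]
      · rw [if_neg hjl, if_neg fun h => hjl (h.1.symm.trans h.2), smul_zero]
    rw [h1]
    exact f.range.smul_mem (Subalgebra.sum_mem _ fun m _ =>
      f.range.smul_mem (pow_mem hD m) _) _
  have hE' : ∀ i j : Fin n, Matrix.single i j (1 : k) ∈ f.range := by
    intro i j
    set m : ℕ := ((i - j : Fin n) : ℕ) with hm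
    set c : k := ∏ l ∈ Finset.range m, sycW b (j + (l : Fin n)) with hc
    have hc0 : c ≠ 0 := by
      rw [hc]
      refine Finset.prod_ne_zero_iff.2 fun l _ => ?_
      unfold sycW
      split_ifs
      · exact hb
      · exact one_ne_zero
    have h1 : Matrix.single i j (1 : k) = c⁻¹ • (sycP n b ^ m * Matrix.single j j 1) := by
      ext p q
      rw [Matrix.smul_apply, Matrix.single_apply, smul_eq_mul]
      by_cases hq : j = q
      · subst hq
        rw [Matrix.mul_single_apply_same, mul_one, sycP_pow]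
        have h2 : j + ((m : ℕ) : Fin n) = i := by
          rw [hm, Fin.cast_val_eq_self, add_sub_cancel]
        rw [h2]
        by_cases hp : i = p
        · rw [if_pos ⟨hp, rfl⟩, if_pos hp.symm, ← hc, inv_mul_cancel₀ hc0]
        · rw [if_neg fun h => hp h.1, if_neg fun h => hp h.symm, mul_zero]
      · rw [if_neg fun h => hq h.2, Matrix.mul_single_apply_of_ne _ _ _ _ _ (Ne.symm hq),
          mul_zero]
    rw [h1]
    exact f.range.smul_mem (f.range.mul_mem (pow_mem hP m) (hE j)) _
  have hsurj : Function.Surjective f := by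
    intro M
    have h1 : M ∈ f.range := by
      rw [Matrix.matrix_eq_sum_single M]
      refine Subalgebra.sum_mem _ fun i _ => Subalgebra.sum_mem _ fun j _ => ?_
      have h2 : Matrix.single i j (M i j) = M i j • Matrix.single i j (1 : k) := by
        rw [Matrix.smul_single, smul_eq_mul, mul_one]
      rw [h2]
      exact f.range.smul_mem (hE' i j) _
    exact h1
  obtain ⟨hfin, hle⟩ := SymAlg.finite (a := (1 : k)) (b := b) hn hζ0
  have hrk : Module.finrank k (SymAlg n ζ 1 b) =
      Module.finrank k (Matrix (Fin n) (Fin n) k) := by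
    refine le_antisymm ?_ (LinearMap.finrank_le_finrank_of_surjective (f := f.toLinearMap) hsurj)
    rw [Module.finrank_matrix, Module.finrank_self, Fintype.card_fin, mul_one]
    exact hle
  have hinj : Function.Injective f :=
    (LinearMap.injective_iff_surjective_of_finrank_eq_finrank (f := f.toLinearMap) hrk).2 hsurj
  exact ⟨AlgEquiv.ofBijective f ⟨hinj, hsurj⟩⟩

/-- Symbol algebras are not zero: `x ↦ α diag(1, ζ, ζ², …)`, `y ↦` the weighted cyclic permutation
matrix in `M_n(AdjoinRoot (X^n - a))`, `α^n = a`. -/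
theorem SymAlg.nontriv (hn : n ≠ 0) (hζ : IsPrimitiveRoot ζ n) :
    Nontrivial (SymAlg n ζ a b) := by
  have hne : NeZero n := ⟨hn⟩
  let K := AlgebraicClosure k
  obtain ⟨α, hα⟩ := IsAlgClosed.exists_pow_nat_eq (algebraMap k K a) (Nat.pos_of_ne_zero hn)
  have hz : (algebraMap k K ζ) ^ n = 1 := by
    rw [← map_pow, hζ.pow_eq_one, map_one]
  have hsm : ∀ (c : k) (M : Matrix (Fin n) (Fin n) K), algebraMap k K c • M = c • M :=
    fun c M => algebraMap_smul K c M
  let f : SymAlg n ζ a b →ₐ[k] Matrix (Fin n) (Fin n) K :=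
    SymAlg.lift (α • sycD n (algebraMap k K ζ)) (sycP n (algebraMap k K b))
    (by rw [smul_pow, sycD_pow hz, hα, hsm]; exact (Algebra.algebraMap_eq_smul_one a).symm)
    (by rw [sycP_pow_n, hsm]; exact (Algebra.algebraMap_eq_smul_one b).symm)
    (by rw [smul_mul_assoc, sycD_mul_P hz, mul_smul_comm, hsm, smul_comm])
  have hnt : Nontrivial (Matrix (Fin n) (Fin n) K) := by
    have : Nonempty (Fin n) := ⟨0⟩
    infer_instance
  exact f.toRingHom.domain_nontrivial

theorem sy_one (hn : n ≠ 0) (hζ : IsPrimitiveRoot ζ n) (hb : b ≠ 0) :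
    cls k (SymAlg n ζ 1 b) = 1 := by
  obtain ⟨e⟩ := SymAlg.equiv_matrix hn hζ hb
  rw [cls_eq_of_equiv e, cls_matrix hn, cls_self]

end Pool.Agent.MP_1b9aaa_al
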