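import Mathlib

/-!
# MP_1b9aaa_al, T_5: the ideal argument

Abstract setting: a field `E` with an involution `t`, a subring `B` which contains all elements of
norm one, an additive group `PT` with `B * PT ⊆ PT`.  Result: for `κ` of norm one
`(κ^(2^m) - κ^(-2^m)) B ⊆ PT` for some `m`.
-/

set_option autoImplicit false

namespace Pool.Agent.MP_1b9aaa_al.T5I

variable {E : Type*} [Field E]

/-- a valuation ring dominating the localisation of `B` at a prime `P` -/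
theorem exists_dom (B : Subring E) (P : Ideal B) [P.IsPrime] :
    ∃ V : ValuationSubring E, (∀ b ∈ B, V.valuation b ≤ 1) ∧
      ∀ b : B, b ∈ P ↔ V.valuation (b : E) < 1 := by
  obtain ⟨V, hle, hloc⟩ := (LocalSubring.ofPrime B P).exists_le_valuationSubring
  have hB : ∀ b ∈ B, b ∈ V := fun b hb => hle (LocalSubring.le_ofPrime B P hb)
  refine ⟨V, fun b hb => (V.valuation_le_one_iff b).mpr (hB b hb), fun b => ?_⟩
  have hbV : (b : E) ∈ V := hB b b.2
  have h1 : IsUnit (algebraMap B (LocalSubring.ofPrime B P).toSubring b) ↔ b ∈ P.primeCompl :=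
    IsLocalization.AtPrime.isUnit_to_map_iff _ P b
  have h2 : IsUnit (⟨(b : E), hbV⟩ : V) ↔ V.valuation (b : E) = 1 :=
    V.valuation_eq_one_iff ⟨(b : E), hbV⟩
  have h3 : IsUnit (⟨(b : E), hbV⟩ : V) ↔
      IsUnit (algebraMap B (LocalSubring.ofPrime B P).toSubring b) := by
    constructor
    · intro h
      exact hloc.map_nonunit _ h
    · intro h
      exact h.map (Subring.inclusion hle)
  have h4 : V.valuation (b : E) ≤ 1 := (V.valuation_le_one_iff _).mpr hbV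
  constructor
  · intro hb
    refine lt_of_le_of_ne h4 fun h => ?_
    exact (h1.mp (h3.mp (h2.mpr h))) hb
  · intro h
    by_contra hb
    exact h.ne (h2.mp (h3.mpr (h1.mpr hb)))

/-- The data of the ideal argument. -/
structure Data (t : E ≃+* E) (B : Subring E) (PT : AddSubgroup E) (e E5 : E) : Prop where
  ht : ∀ x, t (t x) = x
  mul_mem : ∀ b ∈ B, ∀ l ∈ PT, b * l ∈ PT
  norm_one : ∀ θ, θ * t θ = 1 → θ ∈ B
  E5_norm : E5 * t E5 = 1
  int : ∀ O : ValuationSubring E, (∀ θ, θ * t θ = 1 → θ ∈ O) → e ∈ O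
  d_ne : ∀ μ ν s, μ * t μ = 1 → ν * t ν = 1 → s * t s = 1 → μ * ν = s * s → 1 + ν ≠ 0 →
    (e + E5 * μ) * t (e + E5 * μ) - (1 + ν) * t (1 + ν) ≠ 0
  mem_PT : ∀ μ ν s, μ * t μ = 1 → ν * t ν = 1 → s * t s = 1 → μ * ν = s * s → 1 + ν ≠ 0 →
    (1 + ν) * (e + E5 * μ) / ((e + E5 * μ) * t (e + E5 * μ) - (1 + ν) * t (1 + ν)) ∈ PT
  mem_B : ∀ μ ν s z, μ * t μ = 1 → ν * t ν = 1 → s * t s = 1 → z * t z = 1 → μ * ν = s * s →
    1 + ν ≠ 0 →
    (e + E5 * μ - z * (1 + ν)) * t (e + E5 * μ - z * (1 + ν)) /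
      ((e + E5 * μ) * t (e + E5 * μ) - (1 + ν) * t (1 + ν)) ∈ B

section Val

variable {t : E ≃+* E} {B : Subring E} {PT : AddSubgroup E} {e E5 : E}

lemma ne_zero_of_norm {θ : E} (h : θ * t θ = 1) : θ ≠ 0 := by
  rintro rfl
  rw [zero_mul] at h
  exact zero_ne_one h

lemma t_eq_inv {θ : E} (h : θ * t θ = 1) : t θ = θ⁻¹ :=
  eq_inv_of_mul_eq_one_right h

variable {Γ : Type*} [LinearOrderedCommGroupWithZero Γ] {v : Valuation E Γ}

lemma v_norm_one (D : Data t B PT e E5) (hv : ∀ b ∈ B, v b ≤ 1) {θ : E} (h : θ * t θ = 1) :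
    v θ = 1 := by
  have h1 := hv θ (D.norm_one θ h)
  have h2 := hv (t θ) (D.norm_one (t θ) (by rw [D.ht, mul_comm, h]))
  have h3 : v θ * v (t θ) = 1 := by rw [← map_mul, h, map_one]
  refine le_antisymm h1 ?_
  calc (1 : Γ) = v θ * v (t θ) := h3.symm
    _ ≤ v θ * 1 := by gcongr
    _ = v θ := mul_one _

lemma v_t (D : Data t B PT e E5) (hv : ∀ b ∈ B, v b ≤ 1) (x : E) : v (t x) = v x := by
  by_cases hx : x = 0
  · rw [hx, map_zero]
  · have htx : t x ≠ 0 := (map_ne_zero t).mpr hx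
    have h : v (t x / x) = 1 := v_norm_one D hv (by
      rw [map_div₀, D.ht]; field_simp)
    rw [map_div₀] at h
    have hvx : v x ≠ 0 := (Valuation.ne_zero_iff v).mpr hx
    exact (div_eq_one_iff_eq hvx).mp h

/-- membership in the localisation -/
def Loc (B : Subring E) (v : Valuation E Γ) (x : E) : Prop :=
  ∃ b ∈ B, ∃ s ∈ B, v s = 1 ∧ x = b / s

lemma ne_of_v {s : E} (h : v s = 1) : s ≠ 0 := by
  rintro rfl
  rw [map_zero] at h
  exact zero_ne_one h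

lemma Loc.mul {x y : E} (hx : Loc B v x) (hy : Loc B v y) : Loc B v (x * y) := by
  obtain ⟨b, hb, s, hs, hs1, rfl⟩ := hx
  obtain ⟨b', hb', s', hs', hs1', rfl⟩ := hy
  exact ⟨b * b', B.mul_mem hb hb', s * s', B.mul_mem hs hs', by rw [map_mul, hs1, hs1', one_mul],
    by rw [div_mul_div_comm]⟩

lemma Loc.of_mem {x : E} (hx : x ∈ B) : Loc B v x :=
  ⟨x, hx, 1, B.one_mem, map_one v, by rw [div_one]⟩

lemma Loc.add_mem {x z : E} (hx : Loc B v x) (hz : z ∈ B) : Loc B v (x + z) := by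
  obtain ⟨b, hb, s, hs, hs1, rfl⟩ := hx
  have := ne_of_v hs1
  exact ⟨b + z * s, B.add_mem hb (B.mul_mem hz hs), s, hs, hs1, by field_simp⟩

lemma Loc.inv {x : E} (hx : Loc B v x) (h : v x = 1) : Loc B v x⁻¹ := by
  obtain ⟨b, hb, s, hs, hs1, rfl⟩ := hx
  rw [map_div₀, hs1, div_one] at h
  exact ⟨s, hs, b, hb, h, by rw [inv_div]⟩

lemma Loc.v_le (hv : ∀ b ∈ B, v b ≤ 1) {x : E} (hx : Loc B v x) : v x ≤ 1 := by
  obtain ⟨b, hb, s, hs, hs1, rfl⟩ := hx
  rw [map_div₀, hs1, div_one]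
  exact hv b hb

/-- one of two elements whose difference is a unit is a unit -/
lemma unit_or {x y : E} (hx : v x ≤ 1) (hy : v y ≤ 1) (h : v (x - y) = 1) :
    v x = 1 ∨ v y = 1 := by
  by_contra hcon
  push Not at hcon
  have h1 : v x < 1 := lt_of_le_of_ne hx hcon.1
  have h2 : v y < 1 := lt_of_le_of_ne hy hcon.2
  exact (v.map_sub_lt h1 h2).ne h

lemma loc_fix (D : Data t B PT e E5) (hv : ∀ b ∈ B, v b ≤ 1) {ζ : E} (hζ : ζ * t ζ = 1)
    (hζ2 : v (ζ * ζ - 1) = 1) {f : E} (hf : t f = f) : Loc B v f ∨ Loc B v f⁻¹ := by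
  have hζ0 := ne_zero_of_norm hζ
  have htζ := t_eq_inv hζ
  by_cases h0 : 1 + f * ζ = 0
  · exfalso
    have h1 : 1 + f * ζ⁻¹ = 0 := by
      have := congrArg t h0
      rwa [map_add, map_mul, map_one, map_zero, hf, htζ] at this
    have h2 : ζ * ζ - 1 = 0 := by
      have h3 : ζ + f = 0 := by
        have : ζ * (1 + f * ζ⁻¹) = ζ + f := by field_simp
        rw [← this, h1, mul_zero]
      linear_combination ζ * h3 - h0
    rw [h2, map_zero] at hζ2
    exact zero_ne_one hζ2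
  · have h0' : 1 + f * ζ⁻¹ ≠ 0 := by
      intro h
      apply h0
      have := congrArg t h
      rwa [map_add, map_mul, map_one, map_zero, hf, ← htζ, D.ht] at this
    obtain ⟨a, ha⟩ : ∃ a : E, a = (1 + f * ζ) / (1 + f * ζ⁻¹) := ⟨_, rfl⟩
    have hta : t a = (1 + f * ζ⁻¹) / (1 + f * ζ) := by
      rw [ha, map_div₀, map_add, map_add, map_one, map_mul, map_mul, hf, htζ, map_inv₀, htζ,
        inv_inv]
    have haB : a ∈ B := D.norm_one a (by
      rw [hta, ha, div_mul_div_comm, mul_comm (1 + f * ζ), div_self (mul_ne_zero h0' h0)])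
    have h1B : a - 1 ∈ B := B.sub_mem haB B.one_mem
    have hζB : ζ ∈ B := D.norm_one ζ hζ
    have h2B : a - ζ * ζ ∈ B := B.sub_mem haB (B.mul_mem hζB hζB)
    have hrel : f * (a - ζ * ζ) = -ζ * (a - 1) := by
      have hmul : a * (1 + f * ζ⁻¹) = 1 + f * ζ := by rw [ha]; exact div_mul_cancel₀ _ h0'
      have hz : ζ * ζ⁻¹ = 1 := mul_inv_cancel₀ hζ0
      apply mul_right_cancel₀ h0'
      linear_combination (f + ζ) * hmul - (f ^ 2 * ζ + f) * hz
    have htζB : t ζ ∈ B := D.norm_one (t ζ) (by rw [D.ht, mul_comm, hζ])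
    have hdiff : v ((a - 1) - (a - ζ * ζ)) = 1 := by
      rw [← hζ2]; congr 1; ring
    rcases unit_or (hv _ h1B) (hv _ h2B) hdiff with h | h
    · right
      have hne := ne_of_v h
      refine ⟨-(t ζ) * (a - ζ * ζ), B.mul_mem (B.neg_mem htζB) h2B, a - 1, h1B, h, ?_⟩
      by_cases hf0 : f = 0
      · exfalso
        rw [hf0, zero_mul] at hrel
        exact (mul_ne_zero (neg_ne_zero.mpr hζ0) hne) hrel.symm
      · rw [htζ]
        field_simp
        linear_combination hrel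
    · left
      have hne := ne_of_v h
      refine ⟨-ζ * (a - 1), B.mul_mem (B.neg_mem hζB) h1B, a - ζ * ζ, h2B, h, ?_⟩
      rw [eq_div_iff hne]
      exact hrel


/-- `B_m` is a valuation ring -/
lemma loc_all (D : Data t B PT e E5) (hv : ∀ b ∈ B, v b ≤ 1) {ζ : E} (hζ : ζ * t ζ = 1)
    (hζ2 : v (ζ * ζ - 1) = 1) (x : E) : Loc B v x ∨ Loc B v x⁻¹ := by
  have hζ0 := ne_zero_of_norm hζ
  have htζ := t_eq_inv hζ
  have hvζ := v_norm_one D hv hζ
  have hζB : ζ ∈ B := D.norm_one ζ hζ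
  have hdv : v (ζ - t ζ) = 1 := by
    have e1 : ζ - t ζ = (ζ * ζ - 1) * t ζ := by rw [htζ]; field_simp
    rw [e1, map_mul, hζ2, v_t D hv, hvζ, one_mul]
  have hd0 : ζ - t ζ ≠ 0 := ne_of_v hdv
  obtain ⟨f2, hf2⟩ : ∃ f2 : E, f2 = (x - t x) / (ζ - t ζ) := ⟨_, rfl⟩
  have htf2 : t f2 = f2 := by
    rw [hf2, map_div₀, map_sub, map_sub, D.ht, D.ht]
    rw [← neg_sub x (t x), ← neg_sub ζ (t ζ), neg_div_neg_eq]
  have hxe : x - t x = f2 * (ζ - t ζ) := by rw [hf2]; exact (div_mul_cancel₀ _ hd0).symm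
  obtain ⟨f1, hf1⟩ : ∃ f1 : E, f1 = x - f2 * ζ := ⟨_, rfl⟩
  have htf1 : t f1 = f1 := by
    rw [hf1, map_sub, map_mul, htf2]
    linear_combination -hxe
  have hx : x = f1 + f2 * ζ := by rw [hf1]; ring
  by_cases h2 : f2 = 0
  · rw [h2, zero_mul, add_zero] at hx
    rw [hx]
    exact loc_fix D hv hζ hζ2 htf1
  -- the main case
  have key : ∀ f : E, t f = f → Loc B v f → ∀ h : E, t h = h →
      Loc B v (h * (f + ζ)) ∨ Loc B v (h * (f + ζ))⁻¹ := by
    intro f hf hLf h hh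
    have hLu : Loc B v (f + ζ) := hLf.add_mem hζB
    have hu1 : v (f + ζ) ≤ 1 := hLu.v_le hv
    have htu : v (t (f + ζ)) = v (f + ζ) := v_t D hv _
    have hu : v (f + ζ) = 1 := by
      rcases unit_or (x := f + ζ) (y := t (f + ζ)) hu1 (by rw [htu]; exact hu1) (by
        rw [map_add, hf, add_sub_add_left_eq_sub]; exact hdv) with h' | h'
      · exact h'
      · rw [← htu]; exact h'
    rcases loc_fix D hv hζ hζ2 hh with h' | h'
    · exact Or.inl (h'.mul hLu)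
    · right
      rw [mul_inv]
      exact h'.mul (hLu.inv hu)
  by_cases h1 : f1 = 0
  · rw [h1, zero_add] at hx
    rw [hx]
    have := key 0 (map_zero t) (Loc.of_mem B.zero_mem) f2 htf2
    rwa [zero_add] at this
  · have htf : t (f1 / f2) = f1 / f2 := by rw [map_div₀, htf1, htf2]
    have hx' : x = f2 * (f1 / f2 + ζ) := by rw [hx]; field_simp
    rcases loc_fix D hv hζ hζ2 htf with h | h
    · rw [hx']
      exact key _ htf h f2 htf2
    · by_cases hv1 : v (f1 / f2)⁻¹ = 1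
      · rw [hx']
        have := h.inv hv1
        rw [inv_inv] at this
        exact key _ htf this f2 htf2
      · -- `f' = f2 / f1` small
        obtain ⟨f', hf'⟩ : ∃ f' : E, f' = (f1 / f2)⁻¹ := ⟨_, rfl⟩
        rw [← hf'] at h hv1
        have hlt : v f' < 1 := lt_of_le_of_ne (h.v_le hv) hv1
        have hLu : Loc B v (1 + f' * ζ) := by
          have := (h.mul (Loc.of_mem hζB)).add_mem B.one_mem
          rwa [add_comm] at this
        have hu : v (1 + f' * ζ) = 1 := by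
          have hlt' : v (f' * ζ) < v 1 := by
            rw [map_mul, hvζ, mul_one, map_one]; exact hlt
          rw [v.map_add_eq_of_lt_left hlt', map_one]
        have hx'' : x = f1 * (1 + f' * ζ) := by rw [hx, hf']; field_simp
        rw [hx'']
        rcases loc_fix D hv hζ hζ2 htf1 with h' | h'
        · exact Or.inl (h'.mul hLu)
        · right
          rw [mul_inv]
          exact h'.mul (hLu.inv hu)

lemma loc_of_le (D : Data t B PT e E5) (hv : ∀ b ∈ B, v b ≤ 1) {ζ : E} (hζ : ζ * t ζ = 1)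
    (hζ2 : v (ζ * ζ - 1) = 1) {x : E} (hx : v x = 1) : Loc B v x := by
  rcases loc_all D hv hζ hζ2 x with h | h
  · exact h
  · have := h.inv (by rw [map_inv₀, hx, inv_one])
    rwa [inv_inv] at this

end Val

section Steps

variable {t : E ≃+* E} {B : Subring E} {PT : AddSubgroup E} {e E5 : E}

/-- Step 2: residue characteristic 2 -/
lemma step2 (D : Data t B PT e E5) (V : ValuationSubring E) (hv : ∀ b ∈ B, V.valuation b ≤ 1)
    (h2 : V.valuation 2 < 1) {ζ : E} (hζ : ζ * t ζ = 1) (hζ1 : V.valuation (ζ - 1) = 1) :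
    ∃ a ∈ B, V.valuation a = 1 ∧ a ∈ PT := by
  set v := V.valuation with hvdef
  have hζ0 := ne_zero_of_norm hζ
  have hvζ := v_norm_one D hv hζ
  have hζB : ζ ∈ B := D.norm_one ζ hζ
  -- `ζ + 1` and `ζ² - 1` are units
  have hζp : v (ζ + 1) = 1 := by
    have e1 : ζ + 1 = (ζ - 1) + 2 := by ring
    rw [e1, v.map_add_eq_of_lt_left (by rw [hζ1]; exact h2), hζ1]
  have hζ2 : v (ζ * ζ - 1) = 1 := by
    have e1 : ζ * ζ - 1 = (ζ - 1) * (ζ + 1) := by ring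
    rw [e1, map_mul, hζ1, hζp, one_mul]
  -- `A = 1 + ζ²` is a unit
  have hA : v (1 + ζ * ζ) = 1 := by
    have e1 : 1 + ζ * ζ = (ζ - 1) * (ζ - 1) + 2 * ζ := by ring
    have h3 : v (2 * ζ) < v ((ζ - 1) * (ζ - 1)) := by
      rw [map_mul, map_mul, hvζ, hζ1, mul_one, mul_one]; exact h2
    rw [e1, v.map_add_eq_of_lt_left h3, map_mul, hζ1, one_mul]
  have hA0 : 1 + ζ * ζ ≠ 0 := ne_of_v hA
  have hνn : ζ * ζ * t (ζ * ζ) = 1 := by
    rw [map_mul]; linear_combination (ζ * t ζ + 1) * hζ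
  have h1n : (1 : E) * t 1 = 1 := by rw [map_one, one_mul]
  have he : v e ≤ 1 := by
    rw [hvdef, V.valuation_le_one_iff]
    refine D.int V fun θ hθ => ?_
    rw [← V.valuation_le_one_iff]
    exact hv θ (D.norm_one θ hθ)
  have hE5 : v E5 = 1 := v_norm_one D hv D.E5_norm
  -- choice of `μ`
  obtain ⟨μ, s, hμn, hsn, hμs, hG⟩ : ∃ μ s : E, μ * t μ = 1 ∧ s * t s = 1 ∧ μ * (ζ * ζ) = s * s ∧
      v (e + E5 * μ) = 1 := by
    have hle : ∀ μ : E, μ * t μ = 1 → v (e + E5 * μ) ≤ 1 := by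
      intro μ hμ
      refine v.map_add_le he ?_
      rw [map_mul, hE5, v_norm_one D hv hμ, one_mul]
    rcases unit_or (x := e + E5 * (ζ * ζ)) (y := e + E5 * 1) (hle _ hνn) (hle _ h1n) (by
      have e1 : e + E5 * (ζ * ζ) - (e + E5 * 1) = E5 * (ζ * ζ - 1) := by ring
      rw [e1, map_mul, hE5, hζ2, one_mul]) with h | h
    · exact ⟨ζ * ζ, ζ * ζ, hνn, hνn, by ring, h⟩
    · exact ⟨1, ζ, h1n, hζ, by ring, h⟩
  obtain ⟨G, hGd⟩ : ∃ G : E, G = e + E5 * μ := ⟨_, rfl⟩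
  obtain ⟨A, hAd⟩ : ∃ A : E, A = 1 + ζ * ζ := ⟨_, rfl⟩
  obtain ⟨d, hdd⟩ : ∃ d : E, d = G * t G - A * t A := ⟨_, rfl⟩
  have hd0 : d ≠ 0 := by rw [hdd, hGd, hAd]; exact D.d_ne μ (ζ * ζ) s hμn hνn hsn hμs hA0
  have hPT : A * G / d ∈ PT := by
    rw [hdd, hGd, hAd]; exact D.mem_PT μ (ζ * ζ) s hμn hνn hsn hμs hA0
  have hBz : ∀ z, z * t z = 1 → (G - z * A) * t (G - z * A) / d ∈ B := by
    intro z hz
    rw [hdd, hGd, hAd]; exact D.mem_B μ (ζ * ζ) s z hμn hνn hsn hz hμs hA0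
  rw [← hGd] at hG
  rw [← hAd] at hA
  have hd1 : v d ≤ 1 := by
    rw [hdd]
    refine v.map_sub_le ?_ ?_
    · rw [map_mul, v_t D hv, hG, one_mul]
    · rw [map_mul, v_t D hv, hA, one_mul]
  have hdge : ∀ z, z * t z = 1 → v (G - z * A) = 1 → v d = 1 := by
    intro z hz h
    have h3 := hv _ (hBz z hz)
    rw [map_div₀, map_mul, v_t D hv, h, one_mul, one_div] at h3
    refine le_antisymm hd1 ?_
    have h4 : v d ≠ 0 := (Valuation.ne_zero_iff v).mpr hd0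
    exact (inv_le_one₀ (zero_lt_iff.mpr h4)).mp h3
  have hd : v d = 1 := by
    have hz1 : v (G - 1 * A) ≤ 1 := v.map_sub_le hG.le (by rw [one_mul, hA])
    have hz2 : v (G - ζ * A) ≤ 1 := v.map_sub_le hG.le (by rw [map_mul, hvζ, hA, one_mul])
    rcases unit_or hz1 hz2 (by
      have e1 : G - 1 * A - (G - ζ * A) = (ζ - 1) * A := by ring
      rw [e1, map_mul, hζ1, hA, one_mul]) with h | h
    · exact hdge 1 h1n h
    · exact hdge ζ hζ h
  have hy : v (A * G / d) = 1 := by rw [map_div₀, map_mul, hA, hG, hd, one_mul, div_one]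
  obtain ⟨b, hb, s', hs', hs1', hbs⟩ := loc_of_le D hv hζ hζ2 hy
  have hs0' : s' ≠ 0 := ne_of_v hs1'
  have hbe : b = s' * (A * G / d) := by rw [hbs]; field_simp
  refine ⟨b, hb, ?_, ?_⟩
  · rw [hbe, map_mul, hs1', hy, one_mul]
  · rw [hbe]
    exact D.mul_mem s' hs' _ hPT

lemma v_e_le (D : Data t B PT e E5) (V : ValuationSubring E) (hv : ∀ b ∈ B, V.valuation b ≤ 1) :
    V.valuation e ≤ 1 := by
  rw [V.valuation_le_one_iff]
  refine D.int V fun θ hθ => ?_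
  rw [← V.valuation_le_one_iff]
  exact hv θ (D.norm_one θ hθ)

/-- Step 1: residue characteristic different from 2 -/
lemma step1 (D : Data t B PT e E5) (V : ValuationSubring E) (hv : ∀ b ∈ B, V.valuation b ≤ 1)
    (h2 : V.valuation 2 = 1) {κ : E} (hκ : κ * t κ = 1) :
    ∃ a ∈ B, V.valuation a = 1 ∧ a * (κ - κ⁻¹) ∈ PT := by
  have he := v_e_le D V hv
  set v := V.valuation with hvdef
  have hκ0 := ne_zero_of_norm hκ
  have htκ := t_eq_inv hκ
  have h20 : (2 : E) ≠ 0 := ne_of_v h2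
  have hE5 : v E5 = 1 := v_norm_one D hv D.E5_norm
  have h1n : (1 : E) * t 1 = 1 := by rw [map_one, one_mul]
  have hm1n : (-1 : E) * t (-1) = 1 := by rw [map_neg, map_one]; ring
  have hκκ : κ * κ * t (κ * κ) = 1 := by
    rw [map_mul]; linear_combination (κ * t κ + 1) * hκ
  have hA0 : (1 : E) + 1 ≠ 0 := by rw [one_add_one_eq_two]; exact h20
  have h16v : v 16 = 1 := by
    have : (16 : E) = 2 ^ 4 := by norm_num
    rw [this, map_pow, h2, one_pow]
  have two_mem : (2 : E) ∈ B := by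
    rw [← one_add_one_eq_two]; exact B.add_mem B.one_mem B.one_mem
  -- the general computation at `μ`
  have key : ∀ μ s : E, μ * t μ = 1 → s * t s = 1 → μ * 1 = s * s → ∃ d : E, d ≠ 0 ∧
      16 / d ∈ B ∧ v (16 / d) = 1 ∧ 2 * (e + E5 * μ) / d ∈ PT := by
    intro μ s hμ hs hμs
    obtain ⟨G, hGd⟩ : ∃ G : E, G = e + E5 * μ := ⟨_, rfl⟩
    have hd0 := D.d_ne μ 1 s hμ h1n hs hμs hA0
    have hPT := D.mem_PT μ 1 s hμ h1n hs hμs hA0
    have hB1 := D.mem_B μ 1 s 1 hμ h1n hs h1n hμs hA0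
    have hB2 := D.mem_B μ 1 s (-1) hμ h1n hs hm1n hμs hA0
    rw [← hGd] at hd0 hPT hB1 hB2
    obtain ⟨d, hdd⟩ : ∃ d : E, d = G * t G - (1 + 1) * t (1 + 1) := ⟨_, rfl⟩
    rw [← hdd] at hd0 hPT hB1 hB2
    have hdd' : d = G * t G - 4 := by
      rw [hdd, map_add, map_one]; ring
    have hGv : v G ≤ 1 := by
      rw [hGd]
      refine v.map_add_le he ?_
      rw [map_mul, hE5, v_norm_one D hv hμ, one_mul]
    have h4v : v 4 = 1 := by
      have : (4 : E) = 2 ^ 2 := by norm_num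
      rw [this, map_pow, h2, one_pow]
    have hdv : v d ≤ 1 := by
      rw [hdd']
      refine v.map_sub_le ?_ h4v.le
      rw [map_mul, v_t D hv]
      calc v G * v G ≤ 1 * 1 := mul_le_mul' hGv hGv
        _ = 1 := one_mul 1
    have h16 : 16 / d ∈ B := by
      have e1 : 16 / d = (G - 1 * (1 + 1)) * t (G - 1 * (1 + 1)) / d +
          (G - -1 * (1 + 1)) * t (G - -1 * (1 + 1)) / d - 2 := by
        rw [← add_div, eq_sub_iff_add_eq, ← sub_eq_zero, div_add' _ _ _ hd0, ← sub_div,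
          div_eq_zero_iff]
        left
        simp only [map_sub, map_mul, map_neg, map_add, map_one]
        linear_combination 2 * hdd'
      rw [e1]
      exact B.sub_mem (B.add_mem hB1 hB2) two_mem
    refine ⟨d, hd0, h16, ?_, ?_⟩
    · refine le_antisymm (hv _ h16) ?_
      rw [map_div₀, h16v, one_div]
      exact (one_le_inv₀ (zero_lt_iff.mpr ((Valuation.ne_zero_iff v).mpr hd0))).mpr hdv
    · rw [← hGd]
      convert hPT using 2
      ring
  obtain ⟨d, hd0, hdB, hdv, hdP⟩ := key (κ * κ) κ hκκ hκ (mul_one _)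
  obtain ⟨d', hd0', hdB', hdv', hdP'⟩ := key 1 1 h1n h1n rfl
  have htE5 : t E5 = E5⁻¹ := t_eq_inv D.E5_norm
  have hE50 : E5 ≠ 0 := ne_zero_of_norm D.E5_norm
  have h8 : (8 : E) ∈ B := by
    have : (8 : E) = 2 ^ 3 := by norm_num
    rw [this]; exact B.pow_mem two_mem 3
  have hcB : 8 * t E5 * t κ ∈ B := by
    refine B.mul_mem (B.mul_mem h8 (D.norm_one _ ?_)) (D.norm_one _ ?_)
    · rw [D.ht, mul_comm, D.E5_norm]
    · rw [D.ht, mul_comm, hκ]
  refine ⟨16 / d * (16 / d'), B.mul_mem hdB hdB', by rw [map_mul, hdv, hdv', one_mul], ?_⟩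
  have h3 : 8 * t E5 * t κ * (16 / d' * (2 * (e + E5 * (κ * κ)) / d) -
      16 / d * (2 * (e + E5 * 1) / d')) ∈ PT :=
    D.mul_mem _ hcB _ (PT.sub_mem (D.mul_mem _ hdB' _ hdP) (D.mul_mem _ hdB _ hdP'))
  convert h3 using 1
  rw [htE5, htκ]
  field_simp
  ring

/-- At a prime `P` of `B` with `2 ∉ P` or `ζ - 1 ∉ P` for some `ζ` of norm one. -/
theorem at_prime (D : Data t B PT e E5) (P : Ideal B) [P.IsPrime]
    (hP : (∃ x : B, (x : E) = 2 ∧ x ∉ P) ∨ ∃ ζ : E, ζ * t ζ = 1 ∧ ∃ x : B, (x : E) = ζ - 1 ∧ x ∉ P)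
    {κ : E} (hκ : κ * t κ = 1) : ∃ a : B, a ∉ P ∧ (a : E) * (κ - κ⁻¹) ∈ PT := by
  obtain ⟨V, hv, hdom⟩ := exists_dom B P
  have hunit : ∀ x : B, x ∉ P ↔ V.valuation (x : E) = 1 := by
    intro x
    rw [hdom x, not_lt]
    exact ⟨fun h => le_antisymm (hv x x.2) h, fun h => h.ge⟩
  by_cases h2 : V.valuation 2 = 1
  · obtain ⟨a, ha, hav, haP⟩ := step1 D V hv h2 hκ
    exact ⟨⟨a, ha⟩, (hunit ⟨a, ha⟩).mpr hav, haP⟩
  · have h2B : (2 : E) ∈ B := by
      rw [← one_add_one_eq_two]; exact B.add_mem B.one_mem B.one_mem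
    rcases hP with ⟨x, hx, hxP⟩ | ⟨ζ, hζ, x, hx, hxP⟩
    · exact absurd ((hunit x).mp hxP) (by rw [hx]; exact h2)
    · obtain ⟨a, ha, hav, haP⟩ := step2 D V hv (lt_of_le_of_ne (hv 2 h2B) h2) hζ (by
        rw [← hx]; exact (hunit x).mp hxP)
      refine ⟨⟨a, ha⟩, (hunit ⟨a, ha⟩).mpr hav, ?_⟩
      have hκB : κ ∈ B := D.norm_one κ hκ
      have hκB' : κ⁻¹ ∈ B := by
        rw [← t_eq_inv hκ]; exact D.norm_one _ (by rw [D.ht, mul_comm, hκ])
      show a * (κ - κ⁻¹) ∈ PT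
      rw [mul_comm]
      exact D.mul_mem _ (B.sub_mem hκB hκB') _ haP

end Steps

section Out

variable {t : E ≃+* E} {B : Subring E}

/-- the product `∏_{i<m} (κ^(2^i) + κ^(-2^i))` -/
def w (κ : E) : ℕ → E
  | 0 => 1
  | m + 1 => w κ m * (κ ^ 2 ^ m + (κ ^ 2 ^ m)⁻¹)

lemma w_eq (κ : E) (m : ℕ) :
    κ ^ 2 ^ m - (κ ^ 2 ^ m)⁻¹ = (κ - κ⁻¹) * w κ m := by
  induction m with
  | zero => rw [pow_zero, pow_one, w, mul_one]
  | succ m ih =>
    rw [w, ← mul_assoc, ← ih, pow_succ, pow_mul, sq, mul_inv]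
    ring

/-- The radical argument: a family of elements `c * (κ^(2^m) - κ^(-2^m))` in a `B`-module `Q`. -/
theorem radical (hU : ∀ θ, θ * t θ = 1 → θ ∈ B) (ht : ∀ x, t (t x) = x) (Q : AddSubgroup E)
    (hQ : ∀ b ∈ B, ∀ l ∈ Q, b * l ∈ Q) (c : E) {κ : E} (hκ : κ * t κ = 1)
    (h : ∀ P : Ideal B, P.IsPrime →
      ((∃ x : B, (x : E) = 2 ∧ x ∉ P) ∨ ∃ ζ : E, ζ * t ζ = 1 ∧ ∃ x : B, (x : E) = ζ - 1 ∧ x ∉ P) →
      ∃ a : B, a ∉ P ∧ (a : E) * (c * (κ - κ⁻¹)) ∈ Q) :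
    ∃ m₀ : ℕ, ∀ m, m₀ ≤ m → ∀ b ∈ B, c * (κ ^ 2 ^ m - (κ ^ 2 ^ m)⁻¹) * b ∈ Q := by
  have hκ0 := ne_zero_of_norm hκ
  have hκB : κ ∈ B := hU κ hκ
  have hκB' : κ⁻¹ ∈ B := by
    rw [← t_eq_inv hκ]; exact hU _ (by rw [ht, mul_comm, hκ])
  obtain ⟨I, hI⟩ : ∃ I : Ideal B, ∀ a : B, a ∈ I ↔ (a : E) * (c * (κ - κ⁻¹)) ∈ Q := by
    refine ⟨{ carrier := {a : B | (a : E) * (c * (κ - κ⁻¹)) ∈ Q}
              add_mem' := ?_, zero_mem' := ?_, smul_mem' := ?_ }, fun a => Iff.rfl⟩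
    · intro a b ha hb
      show ((a + b : B) : E) * _ ∈ Q
      rw [Subring.coe_add, add_mul]
      exact Q.add_mem ha hb
    · show ((0 : B) : E) * _ ∈ Q
      rw [Subring.coe_zero, zero_mul]
      exact Q.zero_mem
    · intro b a ha
      show ((b • a : B) : E) * _ ∈ Q
      rw [smul_eq_mul, Subring.coe_mul, mul_assoc]
      exact hQ b b.2 _ ha
  obtain ⟨k, hk⟩ : ∃ k : B, (k : E) = κ := ⟨⟨κ, hκB⟩, rfl⟩
  obtain ⟨k', hk'⟩ : ∃ k' : B, (k' : E) = κ⁻¹ := ⟨⟨κ⁻¹, hκB'⟩, rfl⟩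
  have hkk' : k * k' = 1 := by
    apply Subtype.ext
    rw [Subring.coe_mul, hk, hk', Subring.coe_one, mul_inv_cancel₀ hκ0]
  set J : Ideal B := Ideal.span {2, k - 1} with hJ
  have hJI : J ≤ I.radical := by
    rw [Ideal.radical_eq_sInf]
    refine le_sInf ?_
    rintro P ⟨hIP, hP⟩
    rw [hJ, Ideal.span_le]
    intro x hx
    by_contra hxP
    obtain ⟨a, haP, haI⟩ := h P hP (by
      rcases hx with rfl | hx
      · left
        exact ⟨2, by rfl, hxP⟩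
      · right
        refine ⟨κ, hκ, x, ?_, hxP⟩
        rw [Set.mem_singleton_iff] at hx
        rw [hx, AddSubgroupClass.coe_sub, hk, Subring.coe_one])
    exact haP (hIP ((hI a).mpr haI))
  have hfg : J.FG := Submodule.fg_span (Set.toFinite _)
  obtain ⟨n, hn⟩ := Ideal.exists_pow_le_of_le_radical_of_fg hJI hfg
  -- the elements `w_m`
  have hw : ∀ m : ℕ, ∃ W : B, (W : E) = w κ m ∧ W ∈ J ^ m := by
    intro m
    induction m with
    | zero => exact ⟨1, by rw [w]; rfl, by rw [pow_zero, Ideal.one_eq_top]; exact Submodule.mem_top⟩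
    | succ m ih =>
      obtain ⟨W, hW, hWJ⟩ := ih
      refine ⟨W * (k ^ 2 ^ m + k' ^ 2 ^ m), ?_, ?_⟩
      · rw [Subring.coe_mul, hW, Subring.coe_add, Subring.coe_pow, Subring.coe_pow, hk, hk', w,
          inv_pow]
      · rw [pow_succ]
        refine Ideal.mul_mem_mul hWJ ?_
        have h1 : k ^ 2 ^ m * k' ^ 2 ^ m = 1 := by rw [← mul_pow, hkk', one_pow]
        have h2 : k ^ 2 ^ m + k' ^ 2 ^ m = 2 + (k ^ 2 ^ m - 1) * ((k ^ 2 ^ m - 1) * k' ^ 2 ^ m) := by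
          linear_combination (2 - k ^ 2 ^ m) * h1
        rw [h2]
        refine J.add_mem (Ideal.subset_span (by simp)) (Ideal.mul_mem_right _ _ ?_)
        have h3 : k - 1 ∣ k ^ 2 ^ m - 1 := sub_one_dvd_pow_sub_one k _
        exact Ideal.mem_of_dvd _ h3 (Ideal.subset_span (by simp))
  refine ⟨n, fun m hm b hb => ?_⟩
  obtain ⟨W, hW, hWJ⟩ := hw m
  have hWI : W ∈ I := hn (Ideal.pow_le_pow_right hm hWJ)
  have h4 := hQ b hb _ ((hI W).mp hWI)
  convert h4 using 1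
  rw [w_eq, hW]
  ring

/-- **The ideal argument.** -/
theorem main {PT : AddSubgroup E} {e E5 : E} (D : Data t B PT e E5) {κ : E} (hκ : κ * t κ = 1) :
    ∃ m₀ : ℕ, ∀ m, m₀ ≤ m → ∀ b ∈ B, (κ ^ 2 ^ m - (κ ^ 2 ^ m)⁻¹) * b ∈ PT := by
  obtain ⟨m₀, h⟩ := radical D.norm_one D.ht PT D.mul_mem 1 hκ (fun P hP hgood => by
    obtain ⟨a, haP, ha⟩ := at_prime D P hgood hκ
    exact ⟨a, haP, by rwa [one_mul]⟩)
  refine ⟨m₀, fun m hm b hb => ?_⟩
  have := h m hm b hb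
  rwa [one_mul] at this

/-- The version with constants: `c` which is a fraction at the good primes. -/
theorem main_const {PT : AddSubgroup E} {e E5 : E} (D : Data t B PT e E5) {κ : E}
    (hκ : κ * t κ = 1) (c : E)
    (hc : ∀ P : Ideal B, P.IsPrime →
      ((∃ x : B, (x : E) = 2 ∧ x ∉ P) ∨ ∃ ζ : E, ζ * t ζ = 1 ∧ ∃ x : B, (x : E) = ζ - 1 ∧ x ∉ P) →
      ∃ b : B, b ∉ P ∧ (b : E) * c ∈ B) :
    ∃ m₀ : ℕ, ∀ m, m₀ ≤ m → ∀ b ∈ B, c * (κ ^ 2 ^ m - (κ ^ 2 ^ m)⁻¹) * b ∈ PT := by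
  refine radical D.norm_one D.ht PT D.mul_mem c hκ (fun P hP hgood => ?_)
  obtain ⟨a, haP, ha⟩ := at_prime D P hgood hκ
  obtain ⟨b, hbP, hb⟩ := hc P hP hgood
  refine ⟨b * a, fun h => (hP.mem_or_mem h).elim hbP haP, ?_⟩
  have h3 := D.mul_mem _ hb _ ha
  rw [Subring.coe_mul]
  convert h3 using 1
  ring

end Out

end Pool.Agent.MP_1b9aaa_al.T5I
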