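import Pool.Agent.Lib.MP_1b9aaa_al.T5J

/-!
# MP_1b9aaa_al, T_5: assembly

`Val`: integrality of the trace (T5V); `Core`: the abstract argument (T5G, T5I, T5End).
`eq_zero5`: `Val` and `Core` give `c = 0` if `√-11 ∈ F`.
-/

set_option autoImplicit false

namespace Pool.Agent.MP_1b9aaa_al

open IsSteinberg Climb

namespace Quin

universe u v

/-- integrality of the trace -/
def Val : Prop :=
  ∀ (L : Type u) [Field L] (g t : L ≃+* L) (_ : ∀ x, g (g (g (g (g x)))) = x)
    (_ : ∀ x, t (t x) = x) (_ : ∀ x, g (t x) = t (g x)) (E : Subfield L)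
    (_ : ∀ x, x ∈ E ↔ g x = x) (O : ValuationSubring E)
    (_ : ∀ θ : E, (θ : L) * t θ = 1 → θ ∈ O) (Θ : L) (_ : Θ * t Θ = 1) (e : E)
    (_ : (e : L) = Θ + g Θ + g (g Θ) + g (g (g Θ)) + g (g (g (g Θ)))), e ∈ O

/-- the abstract argument -/
def Core : Prop :=
  ∀ (E : Type u) [Field E] (t : E ≃+* E) (T : Type v) [AddCommGroup T] (H : E → T) (e E5 : E)
    (_ : ∀ x, t (t x) = x) (_ : ∀ x y, x ≠ 0 → y ≠ 0 → H (x * y) = H x + H y)
    (_ : ∀ x, x ≠ 0 → t x = x → H x = 0) (_ : ∀ a : T, a + a = 0 → a = 0)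
    (_ : E5 * t E5 = 1)
    (_ : ∀ e1 e2 e3 e4 e5 f1 f2 f3 f4 f5 : E, e1 * t e1 = 1 → e2 * t e2 = 1 → e3 * t e3 = 1 →
      e4 * t e4 = 1 → e5 * t e5 = 1 → f1 * t f1 = 1 → f2 * t f2 = 1 → f3 * t f3 = 1 →
      f4 * t f4 = 1 → f5 * t f5 = 1 → e1 * e2 * e3 * e4 * e5 = E5 → f1 * f2 * f3 * f4 * f5 = E5 →
      e1 + e2 + e3 + e4 + e5 - e ≠ 0 → f1 + f2 + f3 + f4 + f5 - e ≠ 0 →
      H (e1 + e2 + e3 + e4 + e5 - e) = H (f1 + f2 + f3 + f4 + f5 - e))
    (_ : ∀ O : ValuationSubring E, (∀ θ, θ * t θ = 1 → θ ∈ O) → e ∈ O)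
    (_ : (2 : E) ≠ 0) (_ : ∃ r, t r = r ∧ r ^ 2 = -11)
    (_ : ∃ i, i ^ 2 = -1 ∧ (t i = i ∨ t i = -i)) (x : E), x ≠ 0 → H x = 0

section

variable {K : Type u} {T : Type v} [Field K] [AddCommGroup T] {g : K ≃+* K} {c : K → K → T} {d : K}

/-- symbols of finite fields -/
lemma zero_of_finite [Finite K] {S : Subfield K} (hc : IsSteinberg c) (hS : VanOn c S) {u v : K}
    (hu : u ≠ 0) (hv : v ≠ 0) : c u v = 0 := by
  classical
  obtain ⟨z, hz⟩ := IsCyclic.exists_generator (α := Kˣ)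
  have hz0 : (z : K) ≠ 0 := z.ne_zero
  have hzz := hc.self hS hz0
  have pl : ∀ (n : ℕ) (w : K), w ≠ 0 → c ((z : K) ^ n) w = n • c z w := by
    intro n w hw
    induction n with
    | zero => rw [pow_zero, hc.one_left hw, zero_smul]
    | succ n ih => rw [pow_succ, hc.mul_left _ _ _ (pow_ne_zero n hz0) hz0 hw, ih, succ_nsmul]
  have pr : ∀ (n : ℕ) (w : K), w ≠ 0 → c w ((z : K) ^ n) = n • c w z := by
    intro n w hw
    induction n with
    | zero =>
      rw [pow_zero, zero_smul]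
      have := hc.mul_right w 1 1 hw one_ne_zero one_ne_zero
      rw [mul_one] at this
      exact left_eq_add.mp this
    | succ n ih => rw [pow_succ, hc.mul_right _ _ _ hw (pow_ne_zero n hz0) hz0, ih, succ_nsmul]
  have hex : ∀ w : K, w ≠ 0 → ∃ n : ℕ, (z : K) ^ n = w := by
    intro w hw
    have h := hz (Units.mk0 w hw)
    rw [← mem_powers_iff_mem_zpowers] at h
    obtain ⟨n, hn⟩ := h
    refine ⟨n, ?_⟩
    have := congrArg (fun y : Kˣ => (y : K)) hn
    simpa using this
  obtain ⟨n, rfl⟩ := hex u hu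
  obtain ⟨m, rfl⟩ := hex v hv
  rw [pl n _ hv, pr m _ hz0, hzz, smul_zero, smul_zero]

/-- `H = 0` gives the vanishing of the dihedral map -/
lemma dih_of_H (hgd : g d = d) {x a : K}
    (hH : ∀ e : QuadraticAlgebra (fixS g) (dS hgd) 0, e ≠ 0 → H c x e = 0) (ha : g a = a) :
    c (a - x) (x * x - d) = 0 := by
  have h := hH ⟨⟨a, ha⟩, -1⟩ (fun h => by
    have := congrArg QuadraticAlgebra.im h
    simp at this)
  have e1 : L x (⟨⟨a, ha⟩, -1⟩ : QuadraticAlgebra (fixS g) (dS hgd) 0) = a - x := by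
    show a + ((-1 : fixS g) : K) * x = a - x
    push_cast
    ring
  rw [H, e1, Qx_eq, pow_two] at h
  exact h

/-- the sign automorphism of a quadratic algebra -/
def tS {R : Type*} [CommRing R] (a : R) : QuadraticAlgebra R a 0 ≃+* QuadraticAlgebra R a 0 where
  toFun z := star z
  invFun z := star z
  left_inv z := _root_.star_star z
  right_inv z := _root_.star_star z
  map_mul' z w := star_mul' z w
  map_add' z w := star_add z w

lemma tS_apply {R : Type*} [CommRing R] (a : R) (z : QuadraticAlgebra R a 0) :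
    tS a z = star z := rfl

/-- integrality of `Av` -/
lemma hval (hV : Val.{u}) (h5 : ∀ x, g (g (g (g (g x)))) = x) (hgd : g d = d)
    [hL : Fact (∀ r : K, r ^ 2 ≠ d + 0 * r)]
    [hE : Fact (∀ r : fixS g, r ^ 2 ≠ dS hgd + 0 * r)] (x : K)
    (O : ValuationSubring (QuadraticAlgebra (fixS g) (dS hgd) 0))
    (hO : ∀ θ : QuadraticAlgebra (fixS g) (dS hgd) 0, θ * star θ = 1 → θ ∈ O) :
    Av (P0 hgd h5 x) (P1 hgd h5 x) ∈ O := by
  have hsub : (CC x - QuadraticAlgebra.omega : QuadraticAlgebra K d 0) ≠ 0 := by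
    intro h
    apply om_sub_ne (d := d) x
    rw [← neg_sub, h, neg_zero]
  have hadd : (CC x + QuadraticAlgebra.omega : QuadraticAlgebra K d 0) ≠ 0 := by
    intro h
    apply om_sub_ne (d := d) (-x)
    rw [map_neg, sub_neg_eq_add, add_comm]
    exact h
  have hext : ∀ z : QuadraticAlgebra K d 0, ext g hgd (ext g hgd (ext g hgd (ext g hgd
      (ext g hgd z)))) = z := by
    intro z
    have h := ext_iterate g hgd 5 z
    have h1 : g^[5] z.re = z.re := h5 z.re
    have h2 : g^[5] z.im = z.im := h5 z.im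
    rw [h1, h2] at h
    exact h
  have hextC : ∀ t : K, ext g hgd (CC t) = CC (g t) := by
    intro t
    apply QuadraticAlgebra.ext
    · rfl
    · exact map_zero g
  have hextom : ext g hgd QuadraticAlgebra.omega = QuadraticAlgebra.omega := by
    apply QuadraticAlgebra.ext
    · exact map_zero g
    · exact map_one g
  have h := hV (QuadraticAlgebra K d 0) (ext g hgd) (tS d) hext
    (fun z => _root_.star_star z) (fun z => ext_star hgd z) (fixS (ext g hgd))
    (fun z => Iff.rfl) (O.comap (back hgd))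
    (fun θ hθ => hO (back hgd θ) (back_norm hgd hθ))
    ((CC x + QuadraticAlgebra.omega) / (CC x - QuadraticAlgebra.omega))
    (by
      rw [tS_apply, star_div₀, star_add, star_sub, star_CC, star_om]
      rw [div_mul_div_comm, div_eq_one_iff_eq (mul_ne_zero hsub (by
        rw [sub_neg_eq_add]; exact hadd))]
      ring)
    ⟨iota hgd (Av (P0 hgd h5 x) (P1 hgd h5 x)), ext_iota hgd _⟩
    (by
      show iota hgd (Av (P0 hgd h5 x) (P1 hgd h5 x)) = _
      rw [iota_Av]
      simp only [map_div₀, map_add, map_sub, hextC, hextom])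
  exact h

/-- the dihedral map for a non-square `d` such that `-1` is a square in `F(√d)`, `√-11 ∈ F` -/
theorem dih_core (hV : Val.{u}) (hC : Core.{u, v}) (hc : Good g c)
    (h5 : ∀ x, g (g (g (g (g x)))) = x) (h2T : ∀ t : T, t + t = 0 → t = 0) (h2K : (2 : K) ≠ 0)
    [Infinite (fixS g)] (hgd : g d = d) [hL : Fact (∀ r : K, r ^ 2 ≠ d + 0 * r)] {r : K}
    (hgr : g r = r) (hr : r ^ 2 = -11)
    (hi : (∃ i : K, g i = i ∧ i ^ 2 = -1) ∨ d = -1) {x a : K} (ha : g a = a) (hxa : x ≠ a) :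
    c (a - x) (x * x - d) = 0 := by
  have hE := factS hgd
  have hqd := hq_of (K := K) (d := d)
  by_cases hx : g x = x
  · refine hc.van _ (sub_ne_zero.mpr (Ne.symm hxa)) _ ?_ (hqd x)
    show g (x * x - d) = x * x - d
    rw [map_sub, map_mul, hx, hgd]
  have hxS : x ∉ fixS g := hx
  have hQ : Qx (dS hgd) 0 x ≠ 0 := by
    rw [Qx_eq, pow_two]
    exact hqd x
  refine dih_of_H hgd ?_ ha
  have hst := hc.st
  have hva : VanOn c (fixS g) := hc.van
  have h2E : (2 : QuadraticAlgebra (fixS g) (dS hgd) 0) ≠ 0 := by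
    intro h
    have h1 := congrArg (fun z => (((iota hgd z)).re : K)) h
    simp only [map_ofNat, map_zero] at h1
    apply h2K
    rw [QuadraticAlgebra.re_ofNat, QuadraticAlgebra.re_zero] at h1
    exact h1
  have hδ : (QuadraticAlgebra.omega - star QuadraticAlgebra.omega :
      QuadraticAlgebra (fixS g) (dS hgd) 0) ≠ 0 := by
    rw [star_om, sub_neg_eq_add, ← two_mul]
    refine mul_ne_zero h2E ?_
    intro h
    exact one_ne_zero (congrArg QuadraticAlgebra.im h)
  have hP0 := P0_ne hgd h5 x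
  refine hC (QuadraticAlgebra (fixS g) (dS hgd) 0) (tS _) T (H c x)
    (Av (P0 hgd h5 x) (P1 hgd h5 x)) (star (P0 hgd h5 x) / P0 hgd h5 x)
    (fun z => _root_.star_star z) (fun y z hy hz => H_mul hst hva hxS hQ hy hz) ?_ h2T
    (U1.star_div hP0)
    (fun e1 e2 e3 e4 e5 f1 f2 f3 f4 f5 h1 h2 h3 h4 h5' k1 k2 k3 k4 k5 he hf hG hG' =>
      Quin.star_star hst hva h2T hxS hQ hδ hP0 (hP hgd h5 x) h1 h2 h3 h4 h5' k1 k2 k3 k4 k5 he hf
        hG hG')
    (fun O hO => hval hV h5 hgd x O hO) h2E ?_ ?_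
  · -- `H` is zero on the fixed elements
    intro z hz hz'
    have him : z.im = 0 := by
      have h1 : star z = z := hz'
      have h2 := congrArg QuadraticAlgebra.im h1
      rw [QuadraticAlgebra.im_star] at h2
      have h3 : (((z.im : fixS g)) : K) + z.im = 0 := by
        have := congrArg (fun w : fixS g => (w : K)) h2
        push_cast at this
        linear_combination -this
      have h4 : (2 : K) * z.im = 0 := by linear_combination h3
      exact Subtype.ext ((mul_eq_zero.mp h4).resolve_left h2K)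
    have hzC : z = QuadraticAlgebra.C z.re := QuadraticAlgebra.ext rfl him
    have hre : z.re ≠ 0 := by
      intro h
      apply hz
      rw [hzC, h]
      exact QuadraticAlgebra.C_zero
    rw [hzC]
    exact H_C hst hva hQ hre
  · refine ⟨QuadraticAlgebra.C ⟨r, hgr⟩, ?_, ?_⟩
    · show star (QuadraticAlgebra.C _) = QuadraticAlgebra.C _
      ext <;> simp
    · apply iota_inj hgd
      rw [map_pow, map_neg, map_ofNat]
      have h1 : iota hgd (QuadraticAlgebra.C ⟨r, hgr⟩) = CC r := rfl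
      rw [h1, ← map_pow, hr, map_neg, map_ofNat]
  · rcases hi with ⟨i, hgi, hi⟩ | hd1
    · refine ⟨QuadraticAlgebra.C ⟨i, hgi⟩, ?_, Or.inl ?_⟩
      · apply iota_inj hgd
        rw [map_pow, map_neg, map_one]
        have h1 : iota hgd (QuadraticAlgebra.C ⟨i, hgi⟩) = CC i := rfl
        rw [h1, ← map_pow, hi, map_neg, map_one]
      · show star (QuadraticAlgebra.C _) = QuadraticAlgebra.C _
        ext <;> simp
    · refine ⟨QuadraticAlgebra.omega, ?_, Or.inr ?_⟩
      · apply iota_inj hgd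
        rw [map_pow, map_neg, map_one, iota_omega]
        have h2 : (CC d : QuadraticAlgebra K d 0) = QuadraticAlgebra.omega ^ 2 := C_eq
        rw [← h2, hd1, map_neg, map_one]
      · exact star_om

/-- a square root in `K` of an element of `F` lies in `F` -/
lemma root_mem (h5 : ∀ x, g (g (g (g (g x)))) = x) (h2K : (2 : K) ≠ 0) (hgd : g d = d) {s : K}
    (hs : s * s = d) : g s = s := by
  have h1 : (g s - s) * (g s + s) = 0 := by
    have : g s * g s = d := by rw [← map_mul, hs, hgd]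
    linear_combination this - hs
  rcases mul_eq_zero.mp h1 with h | h
  · exact sub_eq_zero.mp h
  · have hgs : g s = -s := eq_neg_of_add_eq_zero_left h
    have h3 := h5 s
    rw [hgs] at h3
    simp only [map_neg, hgs, neg_neg] at h3
    have h4 : (2 : K) * s = 0 := by linear_combination -h3
    have h6 : s = 0 := (mul_eq_zero.mp h4).resolve_left h2K
    rw [h6, map_zero]

/-- all dihedral maps, if `i, √-11 ∈ F` -/
theorem dih_all (hV : Val.{u}) (hC : Core.{u, v}) (hc : Good g c)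
    (h5 : ∀ x, g (g (g (g (g x)))) = x) (h2T : ∀ t : T, t + t = 0 → t = 0) (h2K : (2 : K) ≠ 0)
    {r : K} (hgr : g r = r) (hr : r ^ 2 = -11) {i : K} (hgi : g i = i) (hi : i ^ 2 = -1)
    (hgd : g d = d) {x a : K} (ha : g a = a) (hxa : x ≠ a) (hxd : x * x - d ≠ 0) :
    c (a - x) (x * x - d) = 0 := by
  have hax : a - x ≠ 0 := sub_ne_zero.mpr (Ne.symm hxa)
  rcases finite_or_infinite (fixS g) with hfin | hinf
  · obtain ⟨h1, -⟩ := five_finrank h5
    have : Finite K := Module.finite_of_finite (fixS g)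
    exact zero_of_finite hc.st hc.van hax hxd
  · by_cases hsq : ∃ s : K, s * s = d
    · obtain ⟨s, hs⟩ := hsq
      have hgs := root_mem h5 h2K hgd hs
      by_cases hx : g x = x
      · refine hc.van _ hax _ ?_ hxd
        show g (x * x - d) = x * x - d
        rw [map_sub, map_mul, hx, hgd]
      · have hsp := split hc.st hc.van (x := x) (u := 0) (v := -d) (r := s) (a := a) hx
          (zero_mem _) hgs ha (by rw [← hs]; ring)
        rw [show x ^ 2 + 0 * x + -d = x * x - d by ring] at hsp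
        rw [show a - x = -(x - a) by ring, negl hc.st hc.van (sub_ne_zero.mpr hxa) hxd, hsp]
    · have hL : Fact (∀ r : K, r ^ 2 ≠ d + 0 * r) := ⟨fun s h => hsq ⟨s, by
        rw [← pow_two, h]; ring⟩⟩
      exact dih_core hV hC hc h5 h2T h2K hgd hgr hr (Or.inl ⟨i, hgi, hi⟩) ha hxa

/-- `√-11, i ∈ F` -/
theorem eq_zero_i (hV : Val.{u}) (hC : Core.{u, v}) (hc : Good g c)
    (h5 : ∀ x, g (g (g (g (g x)))) = x) (h2T : ∀ t : T, t + t = 0 → t = 0) (h2K : (2 : K) ≠ 0)
    {r : K} (hgr : g r = r) (hr : r ^ 2 = -11) {i : K} (hgi : g i = i) (hi : i ^ 2 = -1)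
    {y z : K} (hy : y ≠ 0) (hz : z ≠ 0) : c y z = 0 :=
  genVan5 K g c h2K h5 hc
    (fun _ hgd _ _ ha hxa hxd => dih_all hV hC hc h5 h2T h2K hgr hr hgi hi hgd ha hxa hxd)
    y z hy hz

/-- **T_5 for `√-11 ∈ F`** -/
theorem eq_zero_r (hV : Val.{u}) (hC : Core.{u, v}) (hc : Good g c)
    (h5 : ∀ x, g (g (g (g (g x)))) = x) (h2T : ∀ t : T, t + t = 0 → t = 0) (h2K : (2 : K) ≠ 0)
    {r : K} (hgr : g r = r) (hr : r ^ 2 = -11) {y z : K} (hy : y ≠ 0) (hz : z ≠ 0) :
    c y z = 0 := by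
  have hg1 : g (-1) = -1 := by rw [map_neg, map_one]
  by_cases hsq : ∃ s : K, s * s = -1
  · obtain ⟨s, hs⟩ := hsq
    have hgs := root_mem h5 h2K hg1 hs
    exact eq_zero_i hV hC hc h5 h2T h2K hgr hr hgs (by rw [pow_two]; exact hs) hy hz
  rcases finite_or_infinite (fixS g) with hfin | hinf
  · obtain ⟨h1, -⟩ := five_finrank h5
    have : Finite K := Module.finite_of_finite (fixS g)
    exact zero_of_finite hc.st hc.van hy hz
  have hL : Fact (∀ r : K, r ^ 2 ≠ -1 + 0 * r) := ⟨fun s h => hsq ⟨s, by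
    rw [← pow_two, h]; ring⟩⟩
  refine climb hc hg1 h2T (fun x a ha hxa =>
    dih_core hV hC hc h5 h2T h2K hg1 hgr hr (Or.inr rfl) ha hxa) ?_ hy hz
  intro c' hc' y' z' hy' hz'
  have hext : ∀ z : QuadraticAlgebra K (-1) 0, ext g hg1 (ext g hg1 (ext g hg1 (ext g hg1
      (ext g hg1 z)))) = z := by
    intro z
    have h := ext_iterate g hg1 5 z
    have h1 : g^[5] z.re = z.re := h5 z.re
    have h2 : g^[5] z.im = z.im := h5 z.im
    rw [h1, h2] at h
    exact h
  have h2L : (2 : QuadraticAlgebra K (-1) 0) ≠ 0 := by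
    intro h
    have h1 := congrArg QuadraticAlgebra.re h
    apply h2K
    rw [QuadraticAlgebra.re_ofNat, QuadraticAlgebra.re_zero] at h1
    exact h1
  refine eq_zero_i (g := ext g hg1) hV hC hc' hext h2T h2L (r := CC r)
    (i := QuadraticAlgebra.omega) ?_ ?_ ?_ ?_ hy' hz'
  · apply QuadraticAlgebra.ext
    · exact hgr
    · exact map_zero g
  · rw [← map_pow, hr, map_neg, map_ofNat]
  · apply QuadraticAlgebra.ext
    · exact map_zero g
    · exact map_one g
  · have h2 : (CC (-1) : QuadraticAlgebra K (-1) 0) = QuadraticAlgebra.omega ^ 2 := C_eq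
    rw [← h2, map_neg, map_one]

end

end Quin

end Pool.Agent.MP_1b9aaa_al
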