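import Pool.Agent.Lib.MP_1b9aaa_al.T5JG
import Pool.Agent.Lib.MP_1b9aaa_al.T5K

/-!
# MP_1b9aaa_al, T_5: assembly for `i ∈ F`, all quadratics, all characteristics

`Val`: integrality of the trace (T5V); `CoreI`: the abstract argument (T5G, T5I, T5M).
-/

set_option autoImplicit false

namespace Pool.Agent.MP_1b9aaa_al

open IsSteinberg Climb

namespace Quin

universe u v

/-- the data of the abstract argument -/
structure Abs {E : Type u} [Field E] (t : E ≃+* E) {T : Type v} [AddCommGroup T] (H : E → T)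
    (e E5 : E) : Prop where
  ht : ∀ x, t (t x) = x
  hH : ∀ x y, x ≠ 0 → y ≠ 0 → H (x * y) = H x + H y
  hF : ∀ x, x ≠ 0 → t x = x → H x = 0
  h2T : ∀ a : T, a + a = 0 → a = 0
  hE5 : E5 * t E5 = 1
  hs : ∀ e1 e2 e3 e4 e5 f1 f2 f3 f4 f5 : E, e1 * t e1 = 1 → e2 * t e2 = 1 → e3 * t e3 = 1 →
      e4 * t e4 = 1 → e5 * t e5 = 1 → f1 * t f1 = 1 → f2 * t f2 = 1 → f3 * t f3 = 1 →
      f4 * t f4 = 1 → f5 * t f5 = 1 → e1 * e2 * e3 * e4 * e5 = E5 → f1 * f2 * f3 * f4 * f5 = E5 →
      e1 + e2 + e3 + e4 + e5 - e ≠ 0 → f1 + f2 + f3 + f4 + f5 - e ≠ 0 →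
      H (e1 + e2 + e3 + e4 + e5 - e) = H (f1 + f2 + f3 + f4 + f5 - e)
  hval : ∀ O : ValuationSubring E, (∀ θ, θ * t θ = 1 → θ ∈ O) → e ∈ O

/-- the abstract argument, `i ∈ F` -/
def CoreI : Prop :=
  ∀ (E : Type u) [Field E] (t : E ≃+* E) (T : Type v) [AddCommGroup T] (H : E → T) (e E5 : E)
    (_ : Abs t H e E5) (_ : ∃ i, t i = i ∧ i * i = -1) (x : E), x ≠ 0 → H x = 0

section

variable {K : Type u} {T : Type v} [Field K] [AddCommGroup T] {g : K ≃+* K} {c : K → K → T}
  {a b : K}

/-- the involution of a quadratic algebra -/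
def tG {R : Type*} [CommRing R] (a b : R) : QuadraticAlgebra R a b ≃+* QuadraticAlgebra R a b where
  toFun z := star z
  invFun z := star z
  left_inv z := _root_.star_star z
  right_inv z := _root_.star_star z
  map_mul' z w := star_mul' z w
  map_add' z w := star_add z w

lemma tG_apply {R : Type*} [CommRing R] (a b : R) (z : QuadraticAlgebra R a b) :
    tG a b z = star z := rfl

/-- integrality of `Av` -/
lemma hvalG (hV : Val.{u}) (h5 : ∀ x, g (g (g (g (g x)))) = x) (ha : g a = a) (hb : g b = b)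
    [hL : Fact (∀ r : K, r ^ 2 ≠ a + b * r)]
    [hE : Fact (∀ r : fixS g, r ^ 2 ≠ dS ha + dS hb * r)] (x : K)
    (O : ValuationSubring (QuadraticAlgebra (fixS g) (dS ha) (dS hb)))
    (hO : ∀ θ : QuadraticAlgebra (fixS g) (dS ha) (dS hb), θ * star θ = 1 → θ ∈ O) :
    Av (Q0 ha hb h5 x) (Q1 ha hb h5 x) ∈ O := by
  have hsub : (CG x - QuadraticAlgebra.omega : QuadraticAlgebra K a b) ≠ 0 := by
    intro h
    apply om_sub_neG (a := a) (b := b) x
    rw [← neg_sub, h, neg_zero]
  have hsub' : (CG x - star QuadraticAlgebra.omega : QuadraticAlgebra K a b) ≠ 0 := by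
    intro h
    apply hsub
    have := congrArg star h
    rwa [star_sub, star_CG, _root_.star_star, star_zero] at this
  have hextC : ∀ t : K, extG ha hb (CG t) = CG (g t) := by
    intro t
    apply QuadraticAlgebra.ext
    · rfl
    · exact map_zero g
  have hextom : extG ha hb QuadraticAlgebra.omega = QuadraticAlgebra.omega := by
    apply QuadraticAlgebra.ext
    · exact map_zero g
    · exact map_one g
  have h := hV (QuadraticAlgebra K a b) (extG ha hb) (tG a b) (extG_five ha hb h5)
    (fun z => _root_.star_star z) (fun z => extG_star ha hb z) (fixS (extG ha hb))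
    (fun z => Iff.rfl) (O.comap (backG ha hb))
    (fun θ hθ => hO (backG ha hb θ) (backG_norm ha hb hθ))
    ((CG x - star QuadraticAlgebra.omega) / (CG x - QuadraticAlgebra.omega))
    (by
      rw [tG_apply, star_div₀, star_sub, star_sub, star_CG, _root_.star_star]
      rw [div_mul_div_comm, div_eq_one_iff_eq (mul_ne_zero hsub hsub')]
      ring)
    ⟨iotaG ha hb (Av (Q0 ha hb h5 x) (Q1 ha hb h5 x)), extG_iota ha hb _⟩
    (by
      show iotaG ha hb (Av (Q0 ha hb h5 x) (Q1 ha hb h5 x)) = _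
      rw [iotaG_Av]
      simp only [map_div₀, map_sub, hextC, hextom, extG_star])
  exact h

/-- the abstract data -/
theorem absG (hV : Val.{u}) (hc : Good g c) (h5 : ∀ x, g (g (g (g (g x)))) = x)
    (h2T : ∀ t : T, t + t = 0 → t = 0) [Infinite (fixS g)] (ha : g a = a) (hb : g b = b)
    [hL : Fact (∀ r : K, r ^ 2 ≠ a + b * r)]
    [hE : Fact (∀ r : fixS g, r ^ 2 ≠ dS ha + dS hb * r)]
    (hsep : (2 : K) ≠ 0 ∨ b ≠ 0) {x : K} (hx : g x ≠ x) :
    Abs (tG (dS ha) (dS hb)) (H c x) (Av (Q0 ha hb h5 x) (Q1 ha hb h5 x))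
      (star (Q0 ha hb h5 x) / Q0 ha hb h5 x) := by
  have hxS : x ∉ fixS g := hx
  have hQ : Qx (dS ha) (dS hb) x ≠ 0 := by
    rw [Qx_eqG]
    intro h
    apply hL.out x
    linear_combination h
  have hst := hc.st
  have hva : VanOn c (fixS g) := hc.van
  have hδ : (QuadraticAlgebra.omega - star QuadraticAlgebra.omega :
      QuadraticAlgebra (fixS g) (dS ha) (dS hb)) ≠ 0 := by
    rcases hdel_ne (S := fixS g) (a := dS ha) (b := dS hb) with h | ⟨h, h'⟩
    · exact h
    · exfalso
      rcases hsep with h2 | h2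
      · apply h2
        have := congrArg (fun z : fixS g => (z : K)) h
        push_cast at this
        exact this
      · apply h2
        exact congrArg (fun z : fixS g => (z : K)) h'
  have hP0 := Q0_ne ha hb h5 x
  refine ⟨fun z => _root_.star_star z, fun y z hy hz => H_mul hst hva hxS hQ hy hz, ?_, h2T,
    U1.star_div hP0,
    fun e1 e2 e3 e4 e5 f1 f2 f3 f4 f5 h1 h2 h3 h4 h5' k1 k2 k3 k4 k5 he hf hG hG' =>
      Quin.star_star hst hva h2T hxS hQ hδ hP0 (hPG ha hb h5 x) h1 h2 h3 h4 h5' k1 k2 k3 k4 k5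
        he hf hG hG',
    fun O hO => hvalG hV h5 ha hb x O hO⟩
  intro z hz hz'
  have him : z.im = 0 := by
    have h1 : star z = z := hz'
    have h2 := congrArg QuadraticAlgebra.im h1
    have h3 := congrArg QuadraticAlgebra.re h1
    rw [QuadraticAlgebra.im_star] at h2
    rw [QuadraticAlgebra.re_star] at h3
    have h2' : (2 : fixS g) * z.im = 0 := by linear_combination -h2
    have h3' : dS hb * z.im = 0 := by linear_combination h3
    rcases hsep with hh | hh
    · refine (mul_eq_zero.mp h2').resolve_left ?_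
      intro h
      apply hh
      have := congrArg (fun z : fixS g => (z : K)) h
      push_cast at this
      exact this
    · refine (mul_eq_zero.mp h3').resolve_left ?_
      intro h
      exact hh (congrArg (fun z : fixS g => (z : K)) h)
  have hzC : z = QuadraticAlgebra.C z.re := QuadraticAlgebra.ext rfl him
  have hre : z.re ≠ 0 := by
    intro h
    apply hz
    rw [hzC, h]
    exact QuadraticAlgebra.C_zero
  rw [hzC]
  exact H_C hst hva hQ hre

/-- the dihedral map, irreducible `q`, `i ∈ F` -/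
theorem dih_coreI (hV : Val.{u}) (hC : CoreI.{u, v}) (hc : Good g c)
    (h5 : ∀ x, g (g (g (g (g x)))) = x) (h2T : ∀ t : T, t + t = 0 → t = 0)
    [Infinite (fixS g)] (ha : g a = a) (hb : g b = b) [hL : Fact (∀ r : K, r ^ 2 ≠ a + b * r)]
    {i : K} (hgi : g i = i) (hi : i * i = -1) {x : K} (hx : g x ≠ x)
    {e : QuadraticAlgebra (fixS g) (dS ha) (dS hb)} (he : e ≠ 0) :
    H c x e = 0 := by
  have hE := factSG (a := a) (b := b) ha hb
  by_cases hsep : (2 : K) ≠ 0 ∨ b ≠ 0
  · have hA := absG hV hc h5 h2T ha hb hsep hx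
    refine hC _ _ _ _ _ _ hA ⟨QuadraticAlgebra.C ⟨i, hgi⟩, ?_, ?_⟩ e he
    · show star (QuadraticAlgebra.C _) = QuadraticAlgebra.C _
      ext <;> simp
    · apply iotaG_inj ha hb
      rw [map_mul, map_neg, map_one]
      have h1 : iotaG ha hb (QuadraticAlgebra.C ⟨i, hgi⟩) = CG i := rfl
      rw [h1, ← map_mul, hi, map_neg, map_one]
  · -- inseparable
    push Not at hsep
    obtain ⟨h2, hb0⟩ := hsep
    have hxS : x ∉ fixS g := hx
    have hQ : Qx (dS ha) (dS hb) x ≠ 0 := by
      rw [Qx_eqG]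
      intro h
      apply hL.out x
      linear_combination h
    have h := H_mul hc.st hc.van hxS hQ he he
    have hb' : dS hb = 0 := Subtype.ext hb0
    have h2' : (2 : fixS g) = 0 := by
      apply Subtype.ext
      push_cast
      exact h2
    have him : (e * e).im = 0 := by
      rw [QuadraticAlgebra.im_mul]
      linear_combination (e.re * e.im) * h2' + (e.im * e.im) * hb'
    have hzC : e * e = QuadraticAlgebra.C (e * e).re := QuadraticAlgebra.ext rfl him
    have hre : (e * e).re ≠ 0 := by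
      intro h'
      apply mul_ne_zero he he
      rw [hzC, h']
      exact QuadraticAlgebra.C_zero
    rw [hzC, H_C hc.st hc.van hQ hre] at h
    exact h2T _ h.symm

/-- **T_5 for `i ∈ F`, all characteristics** -/
theorem eq_zero_I (hV : Val.{u}) (hC : CoreI.{u, v}) (hc : Good g c)
    (h5 : ∀ x, g (g (g (g (g x)))) = x) (h2T : ∀ t : T, t + t = 0 → t = 0)
    {i : K} (hgi : g i = i) (hi : i * i = -1) {y z : K} (hy : y ≠ 0) (hz : z ≠ 0) :
    c y z = 0 := by
  rcases finite_or_infinite (fixS g) with hfin | hinf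
  · obtain ⟨h1, -⟩ := five_finrank h5
    have : Finite K := Module.finite_of_finite (fixS g)
    exact zero_of_finite hc.st hc.van hy hz
  refine Good.of_dihedral hc h5 ?_ hy hz
  intro x u v hx hu hv hne
  have ha : g (-v) = -v := by rw [map_neg, hv]
  have hb : g (-u) = -u := by rw [map_neg, hu]
  have hx0 : x ≠ 0 := by
    rintro rfl
    exact hx (map_zero g)
  by_cases hroot : ∃ s : K, s ^ 2 = -v + -u * s
  · obtain ⟨s, hs⟩ := hroot
    by_cases hgs : g s = s
    · have hsp := split hc.st hc.van (x := x) (u := u) (v := v) (r := s) (a := 0) hx hu hgs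
        (zero_mem _) (by linear_combination hs)
      rwa [sub_zero] at hsp
    · -- `s` is quadratic over `F`, not in `F`: impossible
      exfalso
      have := five_quad h5 (x := s) hgs (p := v) (q := u) (r := 1) hv hu (one_mem _)
        (by linear_combination hs)
      exact one_ne_zero this.2.2
  · have hL : Fact (∀ r : K, r ^ 2 ≠ -v + -u * r) := ⟨fun s h => hroot ⟨s, h⟩⟩
    have hω : (QuadraticAlgebra.omega : QuadraticAlgebra (fixS g) (dS ha) (dS hb)) ≠ 0 := by
      intro h
      exact one_ne_zero (congrArg QuadraticAlgebra.im h)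
    have h := dih_coreI hV hC hc h5 h2T ha hb hgi hi hx hω
    have e1 : L x (QuadraticAlgebra.omega : QuadraticAlgebra (fixS g) (dS ha) (dS hb)) = x := by
      simp [L]
    rw [H, e1, Qx_eqG] at h
    rwa [show x ^ 2 + u * x + v = x ^ 2 - -u * x - -v by ring]

end

end Quin

end Pool.Agent.MP_1b9aaa_al
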