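import Pool.Agent.Lib.MP_1b9aaa_al.T5Q

/-! # T_5, the end (T5_end_helper35.md)

`E` field with an involution `t`, `H : E* → T` a homomorphism which is zero on the fixed elements,
`B` a subring which contains the elements of norm one, `PT` and `Per` as in T5_helper62_lean.md.
`k1 = θ^(2^m)`, `k = k1^2`, `s = k - k⁻¹`, `τ = k + k⁻¹`.

* `D1 τ = τ³ - τ² - 4τ + 5 = N(k³ - k + 1)` is a unit in all valuation rings above `B`;
* `x = A0 τ + s * B0 τ` too, and `k1^7 + p (k1^7 - k1^-7) = k1⁻¹ x / D1`, `p = s τ² / D1`;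
* if `μ² = 1 + c²`, `t μ = -μ`, `t c = c`, then `f = A0² + s² B0² + 2 μ s A0 B0` is a unit too, and
  `v + p (v + t v) = v x² / f` for `v = 1 + μ`, `p = - c² s A0 B0 / f`.  So `H x = 0`, `8 H k1 = 0`.
-/

set_option autoImplicit false

namespace Pool.Agent.MP_1b9aaa_al.T5M

variable {E : Type*} [Field E]

/-- the polynomial `a0` -/
def A0 (τ : E) : E := τ ^ 7 - 7 * τ ^ 5 + 2 * τ ^ 4 + 13 * τ ^ 3 - 9 * τ ^ 2 - 4 * τ + 5

/-- the polynomial `b0` -/
def B0 (τ : E) : E := τ * (τ - 1) * (τ ^ 4 - 5 * τ ^ 2 + 5)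

/-- the polynomial `D1` -/
def D1 (τ : E) : E := τ ^ 3 - τ ^ 2 - 4 * τ + 5

theorem ident {k : E} (hk : k ≠ 0) :
    D1 (k + k⁻¹) * k ^ 4 + (k - k⁻¹) * (k + k⁻¹) ^ 2 * (k ^ 4 - k⁻¹ ^ 3) =
      A0 (k + k⁻¹) + (k - k⁻¹) * B0 (k + k⁻¹) := by
  simp only [D1, A0, B0]
  field_simp
  ring

theorem D1_eq {k : E} (hk : k ≠ 0) :
    (k ^ 3 - k + 1) * (k⁻¹ ^ 3 - k⁻¹ + 1) = D1 (k + k⁻¹) := by
  simp only [D1]
  field_simp
  ring

section basic

variable (O : ValuationSubring E)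

theorem m_add {x y : E} (hx : x ∈ O.nonunits) (hy : y ∈ O.nonunits) :
    x + y ∈ O.nonunits := O.nonunits.add_mem hx hy

theorem m_sub {x y : E} (hx : x ∈ O.nonunits) (hy : y ∈ O.nonunits) :
    x - y ∈ O.nonunits := O.nonunits.sub_mem hx hy

theorem m_mul {x y : E} (hx : x ∈ O) (hy : y ∈ O.nonunits) : x * y ∈ O.nonunits := by
  rw [ValuationSubring.mem_nonunits_iff] at hy ⊢
  rw [map_mul]
  exact mul_lt_one_of_nonneg_of_lt_one_right ((O.valuation_le_one_iff x).mpr hx) zero_le hy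

theorem m_prime {x y : E} (hx : x ∈ O) (hy : y ∈ O) (h : x * y ∈ O.nonunits) :
    x ∈ O.nonunits ∨ y ∈ O.nonunits := by
  rw [ValuationSubring.mem_nonunits_iff] at h ⊢
  rw [ValuationSubring.mem_nonunits_iff]
  by_contra hn
  push Not at hn
  have h1 : O.valuation x = 1 := le_antisymm ((O.valuation_le_one_iff x).mpr hx) hn.1
  have h2 : O.valuation y = 1 := le_antisymm ((O.valuation_le_one_iff y).mpr hy) hn.2
  rw [map_mul, h1, h2, mul_one] at h
  exact lt_irrefl _ h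

theorem m_one : (1 : E) ∉ O.nonunits := by
  rw [ValuationSubring.mem_nonunits_iff, map_one]
  exact lt_irrefl _

theorem m_O {x : E} (hx : x ∈ O.nonunits) : x ∈ O := O.nonunits_le hx

theorem two_O : (2 : E) ∈ O := by exact_mod_cast natCast_mem O 2

theorem inv_O {x : E} (hx : x ∉ O.nonunits) : x⁻¹ ∈ O := by
  by_contra h
  exact hx (O.mem_nonunits_iff_or.2 (Or.inr h))

theorem inv_m {x : E} (hx : x ∉ O) : x⁻¹ ∈ O.nonunits := by
  rw [O.mem_nonunits_iff_or]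
  right
  rwa [inv_inv]

end basic

section units

variable (t : E ≃+* E) (ht : ∀ x, t (t x) = x) (O : ValuationSubring E)
  (hO : ∀ θ : E, θ * t θ = 1 → θ ∈ O)

include ht hO

/-- (u1): `D1` is a unit -/
theorem unit_D1 {k : E} (hk : k * t k = 1) : D1 (k + k⁻¹) ∉ O.nonunits := by
  intro h
  have hk0 : k ≠ 0 := left_ne_zero_of_mul_eq_one hk
  have hi : t k = k⁻¹ := eq_inv_of_mul_eq_one_right hk
  have hkO : k ∈ O := hO k hk
  have hiO : k⁻¹ ∈ O := hi ▸ T5Q.t_mem t ht O hO hkO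
  have tA : t (k ^ 3 - k + 1) = k⁻¹ ^ 3 - k⁻¹ + 1 := by
    rw [map_add, map_sub, map_pow, map_one, hi]
  have tA' : t (k⁻¹ ^ 3 - k⁻¹ + 1) = k ^ 3 - k + 1 := by rw [← tA, ht]
  rw [← D1_eq hk0] at h
  have hboth : k ^ 3 - k + 1 ∈ O.nonunits ∧ k⁻¹ ^ 3 - k⁻¹ + 1 ∈ O.nonunits := by
    rcases m_prime O (add_mem (sub_mem (pow_mem hkO 3) hkO) O.one_mem)
      (add_mem (sub_mem (pow_mem hiO 3) hiO) O.one_mem) h with h1 | h1
    · exact ⟨h1, tA ▸ T5Q.t_nonunit t ht O hO h1⟩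
    · exact ⟨tA' ▸ T5Q.t_nonunit t ht O hO h1, h1⟩
  have h2 : k * (k - 1) ∈ O.nonunits := by
    have e : k * (k - 1) = (k ^ 3 - k + 1) - k ^ 3 * (k⁻¹ ^ 3 - k⁻¹ + 1) := by
      field_simp
      ring
    rw [e]
    exact m_sub O hboth.1 (m_mul O (pow_mem hkO 3) hboth.2)
  have h3 : k - 1 ∈ O.nonunits := by
    have e : k - 1 = k⁻¹ * (k * (k - 1)) := by field_simp
    rw [e]
    exact m_mul O hiO h2
  have h4 : (1 : E) = (k ^ 3 - k + 1) - (k * (k + 1)) * (k - 1) := by ring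
  apply m_one O
  rw [h4]
  exact m_sub O hboth.1 (m_mul O (mul_mem hkO (add_mem hkO O.one_mem)) h3)

/-- (u2): `x` is a unit -/
theorem unit_x {k1 : E} (hk : k1 * t k1 = 1) {k : E} (hkk : k = k1 ^ 2) :
    A0 (k + k⁻¹) + (k - k⁻¹) * B0 (k + k⁻¹) ∉ O.nonunits := by
  intro h
  have hk10 : k1 ≠ 0 := left_ne_zero_of_mul_eq_one hk
  have hi : t k1 = k1⁻¹ := eq_inv_of_mul_eq_one_right hk
  have hk1O : k1 ∈ O := hO k1 hk
  have hi1O : k1⁻¹ ∈ O := hi ▸ T5Q.t_mem t ht O hO hk1O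
  have hkO : k ∈ O := hkk ▸ pow_mem hk1O 2
  have hk0 : k ≠ 0 := hkk ▸ pow_ne_zero 2 hk10
  have hki : k⁻¹ = k1⁻¹ ^ 2 := by rw [hkk, inv_pow]
  have hkiO : k⁻¹ ∈ O := hki ▸ pow_mem hi1O 2
  have htk : t k = k⁻¹ := by rw [hkk, map_pow, hi, inv_pow]
  have htki : t k⁻¹ = k := by rw [← htk, ht]
  have hkt : k * t k = 1 := by rw [htk, mul_inv_cancel₀ hk0]
  have hD := unit_D1 t ht O hO hkt
  have hD0 : D1 (k + k⁻¹) ≠ 0 := fun e => hD (by rw [e]; exact O.nonunits.zero_mem)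
  have hDi := inv_O O hD
  obtain ⟨s, hs⟩ : ∃ s, s = k - k⁻¹ := ⟨_, rfl⟩
  obtain ⟨τ, hτ⟩ : ∃ τ, τ = k + k⁻¹ := ⟨_, rfl⟩
  have hts : t s = -s := by rw [hs, map_sub, htk, htki]; ring
  have htτ : t τ = τ := by rw [hτ, map_add, htk, htki]; ring
  have hid := ident hk0
  rw [← hs, ← hτ] at hid h
  rw [← hτ] at hDi hD0
  have htD : t (D1 τ) = D1 τ := by
    simp only [D1, map_sub, map_add, map_mul, map_pow, htτ, map_ofNat]
  obtain ⟨p, hp⟩ : ∃ p, p = s * τ ^ 2 * (D1 τ)⁻¹ := ⟨_, rfl⟩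
  have hpO : p ∈ O := by
    rw [hp]
    exact mul_mem (mul_mem (hs ▸ sub_mem hkO hkiO) (pow_mem (hτ ▸ add_mem hkO hkiO) 2)) hDi
  have htp : t p = -p := by
    rw [hp, map_mul, map_mul, map_pow, hts, htτ, map_inv₀, htD]; ring
  obtain ⟨y, hy⟩ : ∃ y, y = k1⁻¹ * ((A0 τ + s * B0 τ) * (D1 τ)⁻¹) := ⟨_, rfl⟩
  have hym : y ∈ O.nonunits := by
    rw [hy]
    refine m_mul O hi1O ?_
    rw [mul_comm]
    exact m_mul O hDi h
  have hy2 : y = k1 ^ 7 + p * (k1 ^ 7 - k1⁻¹ ^ 7) := by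
    rw [hy, ← hid, hp, hki, hkk]
    field_simp
  have hty : t y = k1⁻¹ ^ 7 + p * (k1 ^ 7 - k1⁻¹ ^ 7) := by
    have h1 : t k1⁻¹ = k1 := by rw [← hi, ht]
    rw [hy2, map_add, map_mul, map_sub, map_pow, map_pow, htp, hi, h1]
    ring
  have h7 : k1 ^ 7 ∈ O.nonunits := by
    have e : k1 ^ 7 = y - p * (y - t y) := by
      rw [hty, hy2]; ring
    rw [e]
    exact m_sub O hym (m_mul O hpO (m_sub O hym (T5Q.t_nonunit t ht O hO hym)))
  apply m_one O
  have e : (1 : E) = k1⁻¹ ^ 7 * k1 ^ 7 := by rw [← mul_pow, inv_mul_cancel₀ hk10, one_pow]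
  rw [e]
  exact m_mul O (pow_mem hi1O 7) h7

omit hO in
/-- an element `μ - c` of norm one up to sign -/
theorem mu_c (hO : ∀ θ : E, θ * t θ = 1 → θ ∈ O) {μ c : E} (hμ : t μ = -μ) (hc : t c = c)
    (hμc : μ * μ = 1 + c * c) : μ - c ∈ O ∧ μ + c ∈ O := by
  have h1 : (μ - c) * (μ + c) = 1 := by linear_combination hμc
  have t1 : t (μ - c) = -(μ + c) := by rw [map_sub, hμ, hc]; ring
  have t2 : t (μ + c) = -(μ - c) := by rw [map_add, hμ, hc]; ring
  have h2 : μ - c ∈ O := by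
    by_contra hn
    have h3 := inv_m O hn
    rw [inv_eq_of_mul_eq_one_right h1] at h3
    have h4 := T5Q.t_nonunit t ht O hO h3
    rw [t2] at h4
    apply hn
    have := O.neg_mem _ (m_O O h4)
    rwa [neg_neg] at this
  refine ⟨h2, ?_⟩
  have h5 := T5Q.t_mem t ht O hO h2
  rw [t1] at h5
  have := O.neg_mem _ h5
  rwa [neg_neg] at this

/-- (u3): `f` is a unit -/
theorem unit_f {a l μ c : E} (ha : t a = a) (hl : t l = -l) (haO : a ∈ O) (hlO : l ∈ O)
    (hμ : t μ = -μ) (hc : t c = c) (hμc : μ * μ = 1 + c * c)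
    (h2μ : (2 : E) ∈ O.nonunits → μ * l ∈ O) (hx : a + l ∉ O.nonunits) :
    a * a + l * l + 2 * (μ * l) * a ∉ O.nonunits := by
  intro hf
  by_cases h2 : (2 : E) ∈ O.nonunits
  · have h3 : (a + l) * (a + l) ∈ O.nonunits := by
      have e : (a + l) * (a + l) = (a * a + l * l + 2 * (μ * l) * a) -
          ((μ * l - l) * a) * 2 := by ring
      rw [e]
      exact m_sub O hf (m_mul O (mul_mem (sub_mem (h2μ h2) hlO) haO) h2)
    rcases m_prime O (add_mem haO hlO) (add_mem haO hlO) h3 with h | h <;> exact hx h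
  · have h20 : (2 : E) ≠ 0 := fun e => h2 (by rw [e]; exact O.nonunits.zero_mem)
    have h2i := inv_O O h2
    obtain ⟨hm1, hm2⟩ := mu_c t ht O hO hμ hc hμc
    have hcO : c ∈ O := by
      have e : c = 2⁻¹ * ((μ + c) - (μ - c)) := by field_simp; ring
      rw [e]
      exact mul_mem h2i (sub_mem hm2 hm1)
    have hμO : μ ∈ O := by
      have e : μ = 2⁻¹ * ((μ + c) + (μ - c)) := by field_simp; ring
      rw [e]
      exact mul_mem h2i (add_mem hm2 hm1)
    have hcu : c ∉ O.nonunits := by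
      intro hcm
      have h1 : (μ - 1) * (μ + 1) ∈ O.nonunits := by
        have e : (μ - 1) * (μ + 1) = c * c := by linear_combination hμc
        rw [e]
        exact m_mul O hcO hcm
      have t1 : t (μ - 1) = -(μ + 1) := by rw [map_sub, hμ, map_one]; ring
      have t2 : t (μ + 1) = -(μ - 1) := by rw [map_add, hμ, map_one]; ring
      have hb : μ - 1 ∈ O.nonunits ∧ μ + 1 ∈ O.nonunits := by
        rcases m_prime O (sub_mem hμO O.one_mem) (add_mem hμO O.one_mem) h1 with h | h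
        · refine ⟨h, ?_⟩
          have h3 := T5Q.t_nonunit t ht O hO h
          rw [t1] at h3
          have := O.nonunits.neg_mem h3
          rwa [neg_neg] at this
        · refine ⟨?_, h⟩
          have h3 := T5Q.t_nonunit t ht O hO h
          rw [t2] at h3
          have := O.nonunits.neg_mem h3
          rwa [neg_neg] at this
      apply h2
      have e : (2 : E) = (μ + 1) - (μ - 1) := by ring
      rw [e]
      exact m_sub O hb.2 hb.1
    have hprod : (a + (μ - c) * l) * (a + (μ + c) * l) ∈ O.nonunits := by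
      have e : (a + (μ - c) * l) * (a + (μ + c) * l) = a * a + l * l + 2 * (μ * l) * a := by
        linear_combination l * l * hμc
      rw [e]
      exact hf
    have t1 : t (a + (μ - c) * l) = a + (μ + c) * l := by
      rw [map_add, map_mul, map_sub, ha, hl, hμ, hc]; ring
    have t2 : t (a + (μ + c) * l) = a + (μ - c) * l := by rw [← t1, ht]
    have hb : a + (μ - c) * l ∈ O.nonunits ∧ a + (μ + c) * l ∈ O.nonunits := by
      rcases m_prime O (add_mem haO (mul_mem hm1 hlO)) (add_mem haO (mul_mem hm2 hlO)) hprod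
        with h | h
      · exact ⟨h, t1 ▸ T5Q.t_nonunit t ht O hO h⟩
      · exact ⟨t2 ▸ T5Q.t_nonunit t ht O hO h, h⟩
    have hc0 : c ≠ 0 := fun e => hcu (by rw [e]; exact O.nonunits.zero_mem)
    have hci := inv_O O hcu
    have hlm : l ∈ O.nonunits := by
      have e : l = (c⁻¹ * 2⁻¹) * ((a + (μ + c) * l) - (a + (μ - c) * l)) := by
        field_simp; ring
      rw [e]
      exact m_mul O (mul_mem hci h2i) (m_sub O hb.2 hb.1)
    have ham : a ∈ O.nonunits := by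
      have e : a = (a + (μ - c) * l) - (μ - c) * l := by ring
      rw [e]
      exact m_sub O hb.1 (m_mul O hm1 hlm)
    exact hx (m_add O ham hlm)

end units

section main

variable (t : E ≃+* E) (ht : ∀ x, t (t x) = x) {T : Type*} [AddCommGroup T] (H : E → T)
  (hH : ∀ x y, x ≠ 0 → y ≠ 0 → H (x * y) = H x + H y) (hF : ∀ x, x ≠ 0 → t x = x → H x = 0)
  (h2T : ∀ a : T, a + a = 0 → a = 0)

include hH hF in
theorem H_inv {x : E} (hx : x ≠ 0) : H x⁻¹ = - H x := by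
  have h1 : H (x * x⁻¹) = H x + H x⁻¹ := hH _ _ hx (inv_ne_zero hx)
  rw [mul_inv_cancel₀ hx, hF 1 one_ne_zero (map_one t)] at h1
  exact (neg_eq_of_add_eq_zero_right h1.symm).symm

include hH hF in
theorem H_pow {x : E} (hx : x ≠ 0) (n : ℕ) : H (x ^ n) = n • H x := by
  induction n with
  | zero => rw [pow_zero, hF 1 one_ne_zero (map_one t), zero_nsmul]
  | succ n ih => rw [pow_succ, hH _ _ (pow_ne_zero n hx) hx, ih, succ_nsmul]

include h2T in
theorem two_pow_tors (n : ℕ) {a : T} (h : (2 ^ n) • a = 0) : a = 0 := by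
  induction n with
  | zero => rwa [pow_zero, one_nsmul] at h
  | succ n ih =>
    apply ih
    apply h2T
    rw [← two_nsmul, ← mul_nsmul', ← pow_succ']
    exact h

include ht hH hF h2T

/-- **The end of T_5.** -/
theorem main (B : Subring E) (hU : ∀ θ : E, θ * t θ = 1 → θ ∈ B) (Per PT : Set E)
    (hPT : ∀ l ∈ PT, ∀ θ : E, θ * t θ = 1 → l * θ - t (l * θ) ∈ Per)
    (hP : ∀ p ∈ Per, ∀ ρ : E, ρ * t ρ = 1 → H (1 + p * (1 - ρ)) = 0)
    (hPt : ∀ p ∈ Per, t p = -p)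
    {μ c : E} (hμ : t μ = -μ) (hc : t c = c) (hc0 : c ≠ 0) (hμc : μ * μ = 1 + c * c)
    (hI : ∀ θ : E, θ * t θ = 1 → ∃ m : ℕ, ∀ k1 : E, k1 = θ ^ (2 ^ m) →
      (∀ b ∈ B, (k1 - k1⁻¹) * b ∈ PT) ∧ (∀ b ∈ B, c * c * ((k1 - k1⁻¹) * b) ∈ PT) ∧
        μ * (k1 - k1⁻¹) ∈ B) :
    ∀ x : E, x ≠ 0 → H x = 0 := by
  -- the general form of the property of `Per`
  have hP' : ∀ p ∈ Per, ∀ u : E, u ≠ 0 → H (u + p * (u - t u)) = H u := by
    intro p hp u hu
    have htu : t u ≠ 0 := fun h => hu (t.map_eq_zero_iff.mp h)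
    have h1 := hP p hp (t u / u) (by rw [map_div₀, ht]; field_simp)
    have hne : 1 + p * (1 - t u / u) ≠ 0 := by
      intro h0
      have h2 : u + p * (u - t u) = 0 := by
        have e : u + p * (u - t u) = u * (1 + p * (1 - t u / u)) := by field_simp
        rw [e, h0, mul_zero]
      have h3 := congrArg t h2
      rw [map_add, map_mul, map_sub, ht, hPt p hp, map_zero] at h3
      have h4 : u - t u = 0 := by linear_combination h2 - h3
      rw [h4, mul_zero, add_zero] at h2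
      exact hu h2
    have e : u + p * (u - t u) = u * (1 + p * (1 - t u / u)) := by field_simp
    rw [e, hH _ _ hu hne, h1, add_zero]
  -- it is enough to treat the elements of norm one
  suffices hmain : ∀ θ : E, θ * t θ = 1 → H θ = 0 by
    intro x hx
    have htx : t x ≠ 0 := fun h => hx (t.map_eq_zero_iff.mp h)
    have h1 := hmain (x * (t x)⁻¹) (by rw [map_mul, map_inv₀, ht]; field_simp)
    have h2 : H (x * t x) = 0 := hF _ (mul_ne_zero hx htx) (by rw [map_mul, ht]; ring)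
    rw [hH _ _ hx (inv_ne_zero htx), H_inv t H hH hF htx] at h1
    rw [hH _ _ hx htx] at h2
    apply h2T
    have e : H x + H x = (H x + -H (t x)) + (H x + H (t x)) := by abel
    rw [e, h1, h2, add_zero]
  intro θ hθ
  have hθ0 : θ ≠ 0 := left_ne_zero_of_mul_eq_one hθ
  obtain ⟨m, hm⟩ := hI θ hθ
  obtain ⟨k1, hk1⟩ : ∃ k1, k1 = θ ^ (2 ^ m) := ⟨_, rfl⟩
  obtain ⟨hI1, hI2, hI3⟩ := hm k1 hk1
  suffices h8 : H k1 = 0 by
    rw [hk1, H_pow t H hH hF hθ0] at h8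
    exact two_pow_tors h2T m h8
  have hk1t : k1 * t k1 = 1 := by rw [hk1, map_pow, ← mul_pow, hθ, one_pow]
  have hk10 : k1 ≠ 0 := left_ne_zero_of_mul_eq_one hk1t
  have hi1 : t k1 = k1⁻¹ := eq_inv_of_mul_eq_one_right hk1t
  have hti1 : t k1⁻¹ = k1 := by rw [← hi1, ht]
  have hk1B : k1 ∈ B := hU k1 hk1t
  have hi1B : k1⁻¹ ∈ B := hU _ (by rw [hti1, inv_mul_cancel₀ hk10])
  obtain ⟨k, hk⟩ : ∃ k, k = k1 ^ 2 := ⟨_, rfl⟩
  have hk0 : k ≠ 0 := hk ▸ pow_ne_zero 2 hk10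
  have hki : k⁻¹ = k1⁻¹ ^ 2 := by rw [hk, inv_pow]
  have htk : t k = k⁻¹ := by rw [hk, map_pow, hi1, inv_pow]
  have htki : t k⁻¹ = k := by rw [← htk, ht]
  have hkt : k * t k = 1 := by rw [htk, mul_inv_cancel₀ hk0]
  have hkB : k ∈ B := hk ▸ pow_mem hk1B 2
  have hkiB : k⁻¹ ∈ B := hki ▸ pow_mem hi1B 2
  obtain ⟨s, hs⟩ : ∃ s, s = k - k⁻¹ := ⟨_, rfl⟩
  obtain ⟨τ, hτ⟩ : ∃ τ, τ = k + k⁻¹ := ⟨_, rfl⟩
  have hts : t s = -s := by rw [hs, map_sub, htk, htki]; ring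
  have htτ : t τ = τ := by rw [hτ, map_add, htk, htki]; ring
  have hsB : s ∈ B := hs ▸ sub_mem hkB hkiB
  have hτB : τ ∈ B := hτ ▸ add_mem hkB hkiB
  have hs1 : s = (k1 - k1⁻¹) * (k1 + k1⁻¹) := by rw [hs, hki, hk]; ring
  -- if `s = 0` then `k` is fixed
  by_cases hs0 : s = 0
  · have h1 : t k = k := by
      rw [htk]; exact (sub_eq_zero.mp (hs ▸ hs0)).symm
    have h2 := hF k hk0 h1
    rw [hk, H_pow t H hH hF hk10, two_nsmul] at h2
    exact h2T _ h2
  -- the second base point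
  have hP'' : ∀ p ∈ Per, ∀ u : E, u ≠ 0 → H (u + p * (u + t u)) = H u := by
    intro p hp u hu
    have h1 := hP' p hp (s * u) (mul_ne_zero hs0 hu)
    have e : s * u + p * (s * u - t (s * u)) = s * (u + p * (u + t u)) := by
      rw [map_mul, hts]; ring
    have hne : u + p * (u + t u) ≠ 0 := by
      intro h0
      have h3 := congrArg t h0
      rw [map_add, map_mul, map_add, ht, hPt p hp, map_zero] at h3
      have h4 : u + t u = 0 := by linear_combination h0 + h3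
      rw [h4, mul_zero, add_zero] at h0
      exact hu h0
    rw [e, hH _ _ hs0 hne, hH _ _ hs0 hu] at h1
    exact add_left_cancel h1
  -- `s * r` is a period for `r ∈ B` fixed
  have hper : ∀ r ∈ B, t r = r → s * r ∈ Per := by
    intro r hr htr
    have h1 := hPT _ (hI1 _ (mul_mem hk1B hr)) 1 (by rw [map_one, mul_one])
    have e : (k1 - k1⁻¹) * (k1 * r) * 1 - t ((k1 - k1⁻¹) * (k1 * r) * 1) = s * r := by
      rw [hs1]
      simp only [map_mul, map_sub, hi1, hti1, htr, map_one]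
      ring
    rwa [e] at h1
  have hper' : ∀ r ∈ B, t r = r → s * (c * c * r) ∈ Per := by
    intro r hr htr
    have h1 := hPT _ (hI2 _ (mul_mem hk1B hr)) 1 (by rw [map_one, mul_one])
    have e : c * c * ((k1 - k1⁻¹) * (k1 * r)) * 1 -
        t (c * c * ((k1 - k1⁻¹) * (k1 * r)) * 1) = s * (c * c * r) := by
      rw [hs1]
      simp only [map_mul, map_sub, hi1, hti1, htr, map_one, hc]
      ring
    rwa [e] at h1
  -- `D1`, `x`, `f`
  have hDB : D1 τ ∈ B := by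
    simp only [D1]
    exact add_mem (sub_mem (sub_mem (pow_mem hτB 3) (pow_mem hτB 2))
      (mul_mem (by exact_mod_cast natCast_mem B 4) hτB)) (by exact_mod_cast natCast_mem B 5)
  have hDu : ∀ O : ValuationSubring E, (∀ x ∈ B, x ∈ O) → D1 τ ∉ O.nonunits := by
    intro O hBO
    rw [hτ]
    exact unit_D1 t ht O (fun θ hθ => hBO _ (hU θ hθ)) hkt
  have hDi : (D1 τ)⁻¹ ∈ B := T5Q.inv_mem hDB hDu
  have hD0 : D1 τ ≠ 0 := by
    intro e
    apply hDu ⊤ (fun x _ => ValuationSubring.mem_top x)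
    rw [e]
    exact (⊤ : ValuationSubring E).nonunits.zero_mem
  have htD : t (D1 τ) = D1 τ := by
    simp only [D1, map_sub, map_add, map_mul, map_pow, htτ, map_ofNat]
  obtain ⟨a, ha⟩ : ∃ a, a = A0 τ := ⟨_, rfl⟩
  obtain ⟨b, hb⟩ : ∃ b, b = B0 τ := ⟨_, rfl⟩
  have hta : t a = a := by
    rw [ha]
    simp only [A0, map_sub, map_add, map_mul, map_pow, htτ, map_ofNat]
  have htb : t b = b := by
    rw [hb]
    simp only [B0, map_sub, map_add, map_mul, map_pow, htτ, map_ofNat, map_one]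
  have hn : ∀ n : ℕ, (n : E) ∈ B := fun n => natCast_mem B n
  have haB : a ∈ B := by
    rw [ha]
    simp only [A0]
    refine add_mem (sub_mem (sub_mem (add_mem (add_mem (sub_mem (pow_mem hτB 7)
      (mul_mem (by exact_mod_cast hn 7) (pow_mem hτB 5)))
      (mul_mem (by exact_mod_cast hn 2) (pow_mem hτB 4)))
      (mul_mem (by exact_mod_cast hn 13) (pow_mem hτB 3)))
      (mul_mem (by exact_mod_cast hn 9) (pow_mem hτB 2)))
      (mul_mem (by exact_mod_cast hn 4) hτB)) (by exact_mod_cast hn 5)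
  have hbB : b ∈ B := by
    rw [hb]
    simp only [B0]
    exact mul_mem (mul_mem hτB (sub_mem hτB B.one_mem)) (add_mem (sub_mem (pow_mem hτB 4)
      (mul_mem (by exact_mod_cast hn 5) (pow_mem hτB 2))) (by exact_mod_cast hn 5))
  have hxu : ∀ O : ValuationSubring E, (∀ x ∈ B, x ∈ O) → a + s * b ∉ O.nonunits := by
    intro O hBO
    rw [ha, hb, hs, hτ]
    exact unit_x t ht O (fun θ hθ => hBO _ (hU θ hθ)) hk1t hk
  have hx0 : a + s * b ≠ 0 := by
    intro e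
    apply hxu ⊤ (fun x _ => ValuationSubring.mem_top x)
    rw [e]
    exact (⊤ : ValuationSubring E).nonunits.zero_mem
  have hμsB : μ * s ∈ B := by
    have e : μ * s = (μ * (k1 - k1⁻¹)) * (k1 + k1⁻¹) := by rw [hs1]; ring
    rw [e]
    exact mul_mem hI3 (add_mem hk1B hi1B)
  obtain ⟨f, hf⟩ : ∃ f, f = a * a + (s * b) * (s * b) + 2 * (μ * (s * b)) * a := ⟨_, rfl⟩
  have htf : t f = f := by
    rw [hf]
    simp only [map_add, map_mul, hta, htb, hts, hμ, map_ofNat]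
    ring
  have hfB : f ∈ B := by
    rw [hf]
    refine add_mem (add_mem (mul_mem haB haB) (mul_mem (mul_mem hsB hbB) (mul_mem hsB hbB)))
      (mul_mem (mul_mem (by exact_mod_cast hn 2) ?_) haB)
    rw [← mul_assoc]
    exact mul_mem hμsB hbB
  have hfu : ∀ O : ValuationSubring E, (∀ x ∈ B, x ∈ O) → f ∉ O.nonunits := by
    intro O hBO
    rw [hf]
    refine unit_f t ht O (fun θ hθ => hBO _ (hU θ hθ)) hta ?_ (hBO _ haB)
      (hBO _ (mul_mem hsB hbB)) hμ hc hμc ?_ (hxu O hBO)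
    · rw [map_mul, hts, htb]; ring
    · intro _
      rw [← mul_assoc]
      exact hBO _ (mul_mem hμsB hbB)
  have hfi : f⁻¹ ∈ B := T5Q.inv_mem hfB hfu
  have hf0 : f ≠ 0 := by
    intro e
    apply hfu ⊤ (fun x _ => ValuationSubring.mem_top x)
    rw [e]
    exact (⊤ : ValuationSubring E).nonunits.zero_mem
  -- first half
  have hHx : H (a + s * b) = 0 := by
    have hv0 : 1 + μ ≠ 0 := by
      intro h0
      apply hc0
      have : c * c = 0 := by linear_combination (μ - 1) * h0 - hμc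
      exact mul_self_eq_zero.mp this
    have h1 := hP'' _ (hper' (-(a * b * f⁻¹))
      (neg_mem (mul_mem (mul_mem haB hbB) hfi)) (by
        rw [map_neg, map_mul, map_mul, map_inv₀, hta, htb, htf])) (1 + μ) hv0
    have e : (1 + μ) + s * (c * c * -(a * b * f⁻¹)) * ((1 + μ) + t (1 + μ)) =
        (1 + μ) * ((a + s * b) * (a + s * b) * f⁻¹) := by
      rw [map_add, map_one, hμ]
      have e1 : (1 + μ) * f + s * (c * c * -(a * b)) * 2 =
          (1 + μ) * ((a + s * b) * (a + s * b)) := by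
        rw [hf]
        linear_combination 2 * s * a * b * hμc
      field_simp
      linear_combination e1
    rw [e, hH _ _ hv0 (mul_ne_zero (mul_ne_zero hx0 hx0) (inv_ne_zero hf0)),
      hH _ _ (mul_ne_zero hx0 hx0) (inv_ne_zero hf0), hH _ _ hx0 hx0,
      hF f⁻¹ (inv_ne_zero hf0) (by rw [map_inv₀, htf]), add_zero] at h1
    exact h2T _ (add_eq_left.mp h1)
  -- second half
  have h1 := hP' _ (hper (τ ^ 2 * (D1 τ)⁻¹) (mul_mem (pow_mem hτB 2) hDi)
    (by rw [map_mul, map_pow, map_inv₀, htτ, htD])) (k1 ^ 7) (pow_ne_zero 7 hk10)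
  have hid := ident hk0
  rw [← hs, ← hτ, ← ha, ← hb] at hid
  have e : k1 ^ 7 + s * (τ ^ 2 * (D1 τ)⁻¹) * (k1 ^ 7 - t (k1 ^ 7)) =
      k1⁻¹ * ((a + s * b) * (D1 τ)⁻¹) := by
    rw [← hid, map_pow, hi1, hki, hk]
    field_simp
  rw [e, hH _ _ (inv_ne_zero hk10) (mul_ne_zero hx0 (inv_ne_zero hD0)),
    hH _ _ hx0 (inv_ne_zero hD0), hHx, hF (D1 τ)⁻¹ (inv_ne_zero hD0) (by rw [map_inv₀, htD]),
    add_zero, add_zero, H_inv t H hH hF hk10, H_pow t H hH hF hk10] at h1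
  apply two_pow_tors h2T 3
  have e8 : (2 ^ 3) • H k1 = 7 • H k1 + H k1 := by
    rw [← succ_nsmul]
    norm_num
  rw [e8, ← h1]
  exact neg_add_cancel _

/-- the case `i ∈ F` -/
theorem main_i (B : Subring E) (hU : ∀ θ : E, θ * t θ = 1 → θ ∈ B) (Per PT : Set E)
    (hPT : ∀ l ∈ PT, ∀ θ : E, θ * t θ = 1 → l * θ - t (l * θ) ∈ Per)
    (hP : ∀ p ∈ Per, ∀ ρ : E, ρ * t ρ = 1 → H (1 + p * (1 - ρ)) = 0)
    (hPt : ∀ p ∈ Per, t p = -p) {i : E} (hti : t i = i) (hii : i * i = -1)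
    (hI : ∀ θ : E, θ * t θ = 1 → ∃ m : ℕ, ∀ b ∈ B, (θ ^ (2 ^ m) - (θ ^ (2 ^ m))⁻¹) * b ∈ PT) :
    ∀ x : E, x ≠ 0 → H x = 0 := by
  refine main t ht H hH hF h2T B hU Per PT hPT hP hPt (μ := 0) (c := i) (by simp) hti ?_
    (by rw [hii]; ring) ?_
  · rintro rfl
    rw [mul_zero] at hii
    have : (1 : E) = 0 := by linear_combination hii
    exact one_ne_zero this
  · intro θ hθ
    obtain ⟨m, hm⟩ := hI θ hθ
    refine ⟨m, ?_⟩
    rintro k1 rfl
    refine ⟨hm, ?_, ?_⟩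
    · intro b hb
      have h1 := hm (-b) (neg_mem hb)
      have e : i * i * ((θ ^ (2 ^ m) - (θ ^ (2 ^ m))⁻¹) * b) =
          (θ ^ (2 ^ m) - (θ ^ (2 ^ m))⁻¹) * (-b) := by rw [hii]; ring
      rwa [e]
    · rw [zero_mul]
      exact B.zero_mem

end main

end Pool.Agent.MP_1b9aaa_al.T5M
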