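import Pool.Agent.Lib.MP_1b9aaa_al.T5G
import Pool.Agent.Lib.MP_1b9aaa_al.T5I
import Pool.Agent.Lib.MP_1b9aaa_al.T5M
import Pool.Agent.Lib.MP_1b9aaa_al.T5KG

/-!
# MP_1b9aaa_al, T_5: the abstract core, proved from T5G, T5I, T5M
-/

set_option autoImplicit false

namespace Pool.Agent.MP_1b9aaa_al

namespace Quin

universe u v

section

variable {E : Type u} [Field E] {t : E ≃+* E} {T : Type v} [AddCommGroup T] {H : E → T} {e E5 : E}

/-- the sum of the five elements -/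
lemma five_prod {E5 μ ν s z : E} (hz : z ≠ 0) (hs : s ≠ 0) (h : μ * ν = s * s) :
    z * (z * ν) * (-(E5 * μ)) * (z * s)⁻¹ * (-(z * s)⁻¹) = E5 := by
  field_simp
  linear_combination E5 * h

theorem Abs.dat (A : Abs t H e E5) (hn : ∃ x, t x ≠ x) : ∃ h0, T5.Dat t H e E5 h0 := by
  have hneg1 : H (-1) = 0 := A.hF (-1) (neg_ne_zero.mpr one_ne_zero) (by rw [map_neg, map_one])
  have hneg : ∀ x : E, x ≠ 0 → H (-x) = H x := by
    intro x hx
    rw [show -x = (-1) * x by ring, A.hH _ _ (neg_ne_zero.mpr one_ne_zero) hx, hneg1, zero_add]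
  have U1ne : ∀ x : E, x * t x = 1 → x ≠ 0 := by
    rintro x hx rfl
    rw [zero_mul] at hx
    exact zero_ne_one hx
  have mulU : ∀ x y : E, x * t x = 1 → y * t y = 1 → x * y * t (x * y) = 1 := by
    intro x y hx hy
    rw [map_mul]
    linear_combination (y * t y) * hx + hy
  have negU : ∀ x : E, x * t x = 1 → -x * t (-x) = 1 := by
    intro x hx
    rw [map_neg]
    linear_combination hx
  have invU : ∀ x : E, x * t x = 1 → x⁻¹ * t x⁻¹ = 1 := by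
    intro x hx
    rw [map_inv₀, ← mul_inv, hx, inv_one]
  -- the comparison of two families
  have key : ∀ μ ν s z μ' ν' s' z' : E, μ * t μ = 1 → ν * t ν = 1 → s * t s = 1 → z * t z = 1 →
      μ * ν = s * s → μ' * t μ' = 1 → ν' * t ν' = 1 → s' * t s' = 1 → z' * t z' = 1 →
      μ' * ν' = s' * s' → e + E5 * μ - z * (1 + ν) ≠ 0 → e + E5 * μ' - z' * (1 + ν') ≠ 0 →
      H (e + E5 * μ - z * (1 + ν)) = H (e + E5 * μ' - z' * (1 + ν')) := by
    intro μ ν s z μ' ν' s' z' hμ hν hs hz h hμ' hν' hs' hz' h' hne hne'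
    have e1 : z + z * ν + -(E5 * μ) + (z * s)⁻¹ + -(z * s)⁻¹ - e = -(e + E5 * μ - z * (1 + ν)) := by
      ring
    have e2 : z' + z' * ν' + -(E5 * μ') + (z' * s')⁻¹ + -(z' * s')⁻¹ - e =
      -(e + E5 * μ' - z' * (1 + ν')) := by ring
    have := A.hs z (z * ν) (-(E5 * μ)) (z * s)⁻¹ (-(z * s)⁻¹) z' (z' * ν') (-(E5 * μ'))
      (z' * s')⁻¹ (-(z' * s')⁻¹) hz (mulU _ _ hz hν) (negU _ (mulU _ _ A.hE5 hμ))
      (invU _ (mulU _ _ hz hs)) (negU _ (invU _ (mulU _ _ hz hs))) hz' (mulU _ _ hz' hν')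
      (negU _ (mulU _ _ A.hE5 hμ')) (invU _ (mulU _ _ hz' hs'))
      (negU _ (invU _ (mulU _ _ hz' hs'))) (five_prod (U1ne _ hz) (U1ne _ hs) h)
      (five_prod (U1ne _ hz') (U1ne _ hs') h') (by rw [e1]; exact neg_ne_zero.mpr hne)
      (by rw [e2]; exact neg_ne_zero.mpr hne')
    rwa [e1, e2, hneg _ hne, hneg _ hne'] at this
  by_cases hex : ∃ μ ν s z : E, μ * t μ = 1 ∧ ν * t ν = 1 ∧ s * t s = 1 ∧ z * t z = 1 ∧
      μ * ν = s * s ∧ e + E5 * μ - z * (1 + ν) ≠ 0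
  · obtain ⟨μ', ν', s', z', hμ', hν', hs', hz', h', hne'⟩ := hex
    exact ⟨H (e + E5 * μ' - z' * (1 + ν')), A.ht, hn, A.hH, A.hF, A.h2T, A.hE5,
      fun μ ν s z hμ hν hs hz h hne =>
        key μ ν s z μ' ν' s' z' hμ hν hs hz h hμ' hν' hs' hz' h' hne hne'⟩
  · exact ⟨0, A.ht, hn, A.hH, A.hF, A.h2T, A.hE5, fun μ ν s z hμ hν hs hz h hne =>
      absurd ⟨μ, ν, s, z, hμ, hν, hs, hz, h, hne⟩ hex⟩

/-- either `H = 0` or the data of T5I -/
theorem Abs.dataI (A : Abs t H e E5) {h0 : T} (D : T5.Dat t H e E5 h0) :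
    (∀ x, x ≠ 0 → H x = 0) ∨ T5I.Data t D.BR D.PT e E5 := by
  by_cases hd : ∀ μ ν s, μ * t μ = 1 → ν * t ν = 1 → s * t s = 1 → μ * ν = s * s → 1 + ν ≠ 0 →
    (e + E5 * μ) * t (e + E5 * μ) - (1 + ν) * t (1 + ν) ≠ 0
  · right
    exact ⟨A.ht, fun b hb l hl => D.BR_mul hb hl, fun θ hθ => D.U1_mem_BR hθ, A.hE5, A.hval, hd,
      fun μ ν s hμ hν hs h hA => D.AG_mem hμ hν hs h hA (hd μ ν s hμ hν hs h hA),
      fun μ ν s z hμ hν hs hz h hA => D.norm_div_mem hμ hν hs h hz (hd μ ν s hμ hν hs h hA)⟩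
  · left
    push Not at hd
    obtain ⟨μ, ν, s, hμ, hν, hs, h, hA, hd⟩ := hd
    intro x hx
    exact D.eq_zero_of_d hμ hν hs h hA hd hx

end

theorem coreI : CoreI.{u, v} := by
  intro E _ t T _ H e E5 A hi x hx
  obtain ⟨i, hti, hii⟩ := hi
  by_cases hn : ∃ y, t y ≠ y
  · obtain ⟨h0, D⟩ := A.dat hn
    rcases A.dataI D with h | DI
    · exact h x hx
    · exact T5M.main_i t A.ht H A.hH A.hF A.h2T D.BR (fun θ hθ => D.U1_mem_BR hθ) D.Per D.PT
        (fun l hl θ hθ => hl θ hθ) (fun p hp ρ hρ => D.H_one_add hp hρ) (fun p hp => hp.1) hti hii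
        (fun θ hθ => by
          obtain ⟨m, hm⟩ := T5I.main DI hθ
          exact ⟨m, hm m le_rfl⟩) x hx
  · push Not at hn
    exact A.hF x hx (hn x)

end Quin

end Pool.Agent.MP_1b9aaa_al
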