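import Pool.Agent.Lib.MP_1b9aaa_al.T5M

/-! # T_5, the end for every `E` in which `-1` is a norm

`g * t g = -1`, `κ = g ^ 2`, `m = 2 ^ (j - 1)`, `j` odd and large, `Y = 1 + κ + ... + κ ^ (2m-2)`
and `p = (κ ^ (2m) - 1) / ((κ - 1) (κ ^ (2m-1) - 1))`.  Then `1 + p (1 - κ)` is `κ ^ m` times an
element of `F`, and `p` is a period: `16 / (κ - 1) ^ 2` lies in `B` and `Y` is a unit of `B`. -/

set_option autoImplicit false

namespace Pool.Agent.MP_1b9aaa_al.T5N

open Finset T5M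

/-- the key fact in characteristic two: no element `z` of a field of characteristic two with
`z ^ (2 ^ j) = z`, `j` odd, is `Σ`-equivalent to `z + 1` -/
theorem sum_ne {k : Type*} [Field k] [CharP k 2] {j : ℕ} (hj : Odd j) {z : k}
    (hz : z ^ 2 ^ j = z) :
    ((∑ i ∈ range j, z ^ 2 ^ i) = 0 ∨ (∑ i ∈ range j, z ^ 2 ^ i) = 1) ∧
      (∑ i ∈ range j, (1 - z) ^ 2 ^ i) = (∑ i ∈ range j, z ^ 2 ^ i) + 1 := by
  constructor
  · have h1 : (∑ i ∈ range j, z ^ 2 ^ i) ^ 2 = ∑ i ∈ range j, z ^ 2 ^ i := by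
      have h2 : (∑ i ∈ range j, z ^ 2 ^ i) ^ 2 = ∑ i ∈ range j, z ^ 2 ^ (i + 1) := by
        rw [sum_pow_char]
        refine sum_congr rfl fun i _ => ?_
        rw [← pow_mul, ← pow_succ]
      rw [h2]
      have h3 := sum_range_succ' (fun i => z ^ 2 ^ i) j
      have h4 := sum_range_succ (fun i => z ^ 2 ^ i) j
      simp only [pow_zero, pow_one] at h3 h4
      rw [hz] at h4
      have := h3.symm.trans h4
      exact add_right_cancel this
    have h5 : (∑ i ∈ range j, z ^ 2 ^ i) * ((∑ i ∈ range j, z ^ 2 ^ i) - 1) = 0 := by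
      linear_combination h1
    rcases mul_eq_zero.mp h5 with h | h
    · exact Or.inl h
    · exact Or.inr (by linear_combination h)
  · have h1 : ∀ i, (1 - z) ^ 2 ^ i = 1 + z ^ 2 ^ i := by
      intro i
      have h2 : (2 : k) = 0 := CharP.cast_eq_zero k 2
      have h3 : 1 - z = 1 + z := by linear_combination (-z) * h2
      rw [h3, add_pow_char_pow, one_pow]
    rw [sum_congr rfl fun i _ => h1 i, sum_add_distrib, sum_const, card_range, nsmul_one]
    have h2 : ((j : ℕ) : k) = 1 := by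
      obtain ⟨i, rfl⟩ := hj
      have h2 : (2 : k) = 0 := CharP.cast_eq_zero k 2
      push_cast
      rw [h2]
      ring
    rw [h2, add_comm]

section unit

variable {E : Type*} [Field E] (t : E ≃+* E) (ht : ∀ x, t (t x) = x) (O : ValuationSubring E)
  (hO : ∀ θ : E, θ * t θ = 1 → θ ∈ O)

theorem mem_of_sq {x a : E} (ha : a ∈ O) (h : x * x = a) : x ∈ O := by
  rcases O.mem_or_inv_mem x with h1 | h1
  · exact h1
  · by_cases h0 : x = 0
    · rw [h0]; exact O.zero_mem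
    · have e : x = a * x⁻¹ := by
        rw [← h]
        field_simp
      rw [e]
      exact O.mul_mem _ _ ha h1

include ht hO in
/-- `h * t h = -1` and `h = ±1` modulo the maximal ideal: then `2` is in the maximal ideal -/
theorem two_mem {h : E} (hh : h * t h = -1) (hm : h - 1 ∈ O.nonunits ∨ h + 1 ∈ O.nonunits) :
    (2 : E) ∈ O.nonunits := by
  have h1O : (1 : E) ∈ O := O.one_mem
  have hmem : h ∈ O := by
    rcases hm with h1 | h1
    · have := O.add_mem _ _ (m_O O h1) h1O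
      rwa [sub_add_cancel] at this
    · have := O.sub_mem (m_O O h1) h1O
      rwa [add_sub_cancel_right] at this
  rcases hm with h1 | h1
  · have h2 := T5Q.t_nonunit t ht O hO h1
    rw [map_sub, map_one] at h2
    have h3 := m_mul O hmem h2
    have h4 := m_add O h1 h3
    have e : (2 : E) = (0 - (h - 1)) - h * (t h - 1) := by linear_combination hh
    rw [e]
    have h0 : (0 : E) ∈ O.nonunits := by
      have := m_sub O h1 h1
      rwa [sub_self] at this
    exact m_sub O (m_sub O h0 h1) h3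
  · have h2 := T5Q.t_nonunit t ht O hO h1
    rw [map_add, map_one] at h2
    have h3 := m_mul O hmem h2
    have e : (2 : E) = (h + 1) - h * (t h + 1) := by linear_combination hh
    rw [e]
    exact m_sub O h1 h3

include ht hO in
/-- **`Y` is not in the maximal ideal.** -/
theorem unit_Y {g : E} (hg : g * t g = -1) {j : ℕ} (hj : Odd j) :
    (∑ i ∈ range (2 ^ j - 1), (g ^ 2) ^ i) ∉ O.nonunits := by
  intro hY
  set κ := g ^ 2 with hκ
  have htg2 : κ * t κ = 1 := by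
    rw [hκ, map_pow, ← mul_pow, hg]; ring
  have hκO : κ ∈ O := hO κ htg2
  have hgO : g ∈ O := mem_of_sq O hκO (by rw [hκ]; ring)
  have hg0 : g ≠ 0 := by
    rintro rfl; rw [zero_mul] at hg; exact one_ne_zero (by linear_combination hg)
  have hκ0 : κ ≠ 0 := pow_ne_zero 2 hg0
  have htκ : t κ = κ⁻¹ := eq_inv_of_mul_eq_one_right htg2
  have hjpos : 1 ≤ j := hj.pos
  have h2j : 2 ≤ 2 ^ j := by
    calc 2 = 2 ^ 1 := (pow_one 2).symm
      _ ≤ 2 ^ j := Nat.pow_le_pow_right (by norm_num) hjpos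
  have haodd : Odd (2 ^ j - 1) := by
    obtain ⟨i, rfl⟩ := hj
    refine ⟨2 ^ (2 * i) - 1, ?_⟩
    have h1 : 1 ≤ 2 ^ (2 * i) := Nat.one_le_two_pow
    rw [pow_succ]
    omega
  by_cases hk1 : κ - 1 ∈ O.nonunits
  · -- `κ = 1`
    have h2 : (2 : E) ∈ O.nonunits := by
      apply two_mem t ht O hO hg
      apply m_prime O (O.sub_mem hgO O.one_mem) (O.add_mem _ _ hgO O.one_mem)
      have e : (g - 1) * (g + 1) = κ - 1 := by rw [hκ]; ring
      rwa [e]
    have h3 : ∀ n : ℕ, (∑ i ∈ range n, κ ^ i) - n ∈ O.nonunits := by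
      intro n
      induction n with
      | zero =>
        have := m_sub O h2 h2
        rw [sub_self] at this
        simp only [range_zero, sum_empty, Nat.cast_zero, sub_zero]
        exact this
      | succ n ih =>
        rw [sum_range_succ]
        have h4 : κ ^ n - 1 ∈ O.nonunits := by
          have h5 := m_mul O (sum_mem (fun i (_ : i ∈ range n) => pow_mem hκO i) :
            (∑ i ∈ range n, κ ^ i) ∈ O) hk1
          rwa [geom_sum_mul] at h5
        have h5 := m_add O ih h4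
        have e : (∑ i ∈ range n, κ ^ i) - (n : E) + (κ ^ n - 1) =
            (∑ i ∈ range n, κ ^ i) + κ ^ n - ((n + 1 : ℕ) : E) := by push_cast; ring
        rwa [e] at h5
    have h4 := m_sub O hY (h3 (2 ^ j - 1))
    have e : (∑ i ∈ range (2 ^ j - 1), κ ^ i) - ((∑ i ∈ range (2 ^ j - 1), κ ^ i) -
        ((2 ^ j - 1 : ℕ) : E)) = ((2 ^ j - 1 : ℕ) : E) := by ring
    rw [e] at h4
    obtain ⟨i, hi⟩ := haodd
    rw [hi] at h4
    have h5 := m_mul O (natCast_mem O i) h2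
    have h6 := m_sub O h4 h5
    have e2 : ((2 * i + 1 : ℕ) : E) - (i : E) * 2 = 1 := by push_cast; ring
    rw [e2] at h6
    exact m_one O h6
  · -- `κ ≠ 1`
    have hka : κ ^ (2 ^ j - 1) - 1 ∈ O.nonunits := by
      have h5 := m_mul O (O.sub_mem hκO O.one_mem) hY
      rw [mul_comm, geom_sum_mul] at h5
      exact h5
    have hgaO : g ^ (2 ^ j - 1) ∈ O := pow_mem hgO _
    have h2 : (2 : E) ∈ O.nonunits := by
      apply two_mem t ht O hO (h := g ^ (2 ^ j - 1))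
      · rw [map_pow, ← mul_pow, hg, haodd.neg_one_pow]
      · apply m_prime O (O.sub_mem hgaO O.one_mem) (O.add_mem _ _ hgaO O.one_mem)
        have e : (g ^ (2 ^ j - 1) - 1) * (g ^ (2 ^ j - 1) + 1) = κ ^ (2 ^ j - 1) - 1 := by
          rw [hκ]; ring
        rwa [e]
    -- residue field
    have hi : κ⁻¹ ∈ O := by rw [← htκ]; exact T5Q.t_mem t ht O hO hκO
    have ht0 : κ + κ⁻¹ ∉ O.nonunits := by
      intro h
      have h3 := m_mul O hκO h
      have h4 := m_mul O hκO h2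
      have h5 := m_sub O h3 h4
      have e : κ * (κ + κ⁻¹) - κ * 2 = (κ - 1) * (κ - 1) := by field_simp; ring
      rw [e] at h5
      rcases m_prime O (O.sub_mem hκO O.one_mem) (O.sub_mem hκO O.one_mem) h5 with h6 | h6
      · exact hk1 h6
      · exact hk1 h6
    have ht00 : κ + κ⁻¹ ≠ 0 := by
      intro h
      apply ht0
      rw [h]
      have := m_sub O h2 h2
      rwa [sub_self] at this
    have ht0i : (κ + κ⁻¹)⁻¹ ∈ O := inv_O O ht0
    let k := IsLocalRing.ResidueField O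
    let res : O →+* k := IsLocalRing.residue O
    have hres : ∀ x : O, (x : E) ∈ O.nonunits ↔ res x = 0 := by
      intro x
      rw [IsLocalRing.residue_eq_zero_iff, ← ValuationSubring.coe_mem_nonunits_iff]
    have h2k : (2 : k) = 0 := by
      have := (hres 2).mp h2
      rwa [map_ofNat] at this
    have : CharP k 2 := CharTwo.of_one_ne_zero_of_two_eq_zero one_ne_zero h2k
    let x : O := ⟨κ, hκO⟩
    let xi : O := ⟨κ⁻¹, hi⟩
    let ti : O := ⟨(κ + κ⁻¹)⁻¹, ht0i⟩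
    have hxxi : x * xi = 1 := Subtype.ext (mul_inv_cancel₀ hκ0)
    have hti : (x + xi) * ti = 1 := Subtype.ext (mul_inv_cancel₀ ht00)
    have hX : (res x) ^ 2 ^ j = res x := by
      have h3 : x ^ (2 ^ j - 1) - 1 = (⟨κ ^ (2 ^ j - 1) - 1, m_O O hka⟩ : O) := rfl
      have h4 : res (x ^ (2 ^ j - 1) - 1) = 0 := by
        rw [h3]
        exact (hres _).mp hka
      rw [map_sub, map_pow, map_one, sub_eq_zero] at h4
      have h5 : 2 ^ j = (2 ^ j - 1) + 1 := by omega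
      rw [h5, pow_succ, h4, one_mul]
    have hXi : (res xi) ^ 2 ^ j = res xi := by
      have h3 : res x * res xi = 1 := by rw [← map_mul, hxxi, map_one]
      have h4 : res xi = (res x)⁻¹ := eq_inv_of_mul_eq_one_right h3
      rw [h4, inv_pow, hX]
    have hTi : (res ti) ^ 2 ^ j = res ti := by
      have h3 : (res x + res xi) * res ti = 1 := by rw [← map_add, ← map_mul, hti, map_one]
      have h4 : res ti = (res x + res xi)⁻¹ := eq_inv_of_mul_eq_one_right h3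
      rw [h4, inv_pow, add_pow_char_pow, hX, hXi]
    have hZ : (res (x * ti)) ^ 2 ^ j = res (x * ti) := by
      rw [map_mul, mul_pow, hX, hTi]
    obtain ⟨hA, hB⟩ := sum_ne hj hZ
    have hz1 : 1 - x * ti = xi * ti := by
      rw [← hti]; ring
    -- the lift of the sum
    have hta : ∀ y : O, res y = 0 → ∀ y' : O, (y' : E) = t y → res y' = 0 := by
      intro y hy y' hy'
      rw [← hres] at hy ⊢
      rw [hy']
      exact T5Q.t_nonunit t ht O hO hy
    have htx : ((xi * ti : O) : E) = t ((x * ti : O) : E) := by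
      change κ⁻¹ * (κ + κ⁻¹)⁻¹ = t (κ * (κ + κ⁻¹)⁻¹)
      rw [map_mul, map_inv₀, map_add, map_inv₀, htκ, inv_inv, add_comm κ⁻¹ κ]
    have hsum : ((∑ i ∈ range j, (xi * ti) ^ 2 ^ i : O) : E) =
        t ((∑ i ∈ range j, (x * ti) ^ 2 ^ i : O) : E) := by
      rw [AddSubmonoidClass.coe_finsetSum, AddSubmonoidClass.coe_finsetSum, map_sum]
      refine sum_congr rfl fun i _ => ?_
      rw [SubmonoidClass.coe_pow, SubmonoidClass.coe_pow, map_pow, htx]
    have hBt : res (∑ i ∈ range j, (xi * ti) ^ 2 ^ i) =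
        res (∑ i ∈ range j, (x * ti) ^ 2 ^ i) + 1 := by
      rw [map_sum, map_sum]
      simp only [map_pow]
      rw [← hB, ← hz1, map_sub, map_one]
    have hA' : res (∑ i ∈ range j, (x * ti) ^ 2 ^ i) = 0 ∨
        res (∑ i ∈ range j, (x * ti) ^ 2 ^ i) = 1 := by
      rw [map_sum]
      simp only [map_pow]
      exact hA
    rcases hA' with h | h
    · have h3 := hta _ h _ hsum
      rw [hBt, h, zero_add] at h3
      exact one_ne_zero h3
    · have h3 : res ((∑ i ∈ range j, (x * ti) ^ 2 ^ i) - 1) = 0 := by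
        rw [map_sub, h, map_one, sub_self]
      have h4 := hta _ h3 ((∑ i ∈ range j, (xi * ti) ^ 2 ^ i) - 1) (by
        rw [AddSubgroupClass.coe_sub, AddSubgroupClass.coe_sub, map_sub, hsum]
        simp)
      rw [map_sub, map_one, hBt, h] at h4
      have : (1 : k) = 0 := by linear_combination h4
      exact one_ne_zero this

end unit

section main

variable {E : Type*} [Field E] (t : E ≃+* E) (ht : ∀ x, t (t x) = x)

include ht in
/-- `16 / (κ - 1) ^ 2` lies in `B` -/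
theorem sixteen {B : Subring E} (hU : ∀ θ : E, θ * t θ = 1 → θ ∈ B) {g : E} (hg : g * t g = -1)
    (h1 : g ^ 2 ≠ 1) : 16 / (g ^ 2 - 1) ^ 2 ∈ B := by
  have hg0 : g ≠ 0 := by
    rintro rfl; rw [zero_mul] at hg; exact one_ne_zero (by linear_combination hg)
  have htg : t g = -g⁻¹ := by
    field_simp
    linear_combination hg
  have hm : g - 1 ≠ 0 := fun h => h1 (by linear_combination (g + 1) * h)
  have hp : g + 1 ≠ 0 := fun h => h1 (by linear_combination (g - 1) * h)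
  have htρ : t (g * (g + 1) / (g - 1)) = (g - 1) / (g * (g + 1)) := by
    rw [map_div₀, map_mul, map_add, map_sub, map_one, htg]
    have e1 : -g⁻¹ - 1 ≠ 0 := by
      intro h
      apply hp
      have : -g⁻¹ - 1 = -(g + 1) * g⁻¹ := by field_simp; ring
      rw [this] at h
      rcases mul_eq_zero.mp h with h | h
      · linear_combination -h
      · exact absurd h (inv_ne_zero hg0)
    rw [div_eq_div_iff e1 (mul_ne_zero hg0 hp)]
    field_simp
    ring
  have hρ : (g * (g + 1) / (g - 1)) * t (g * (g + 1) / (g - 1)) = 1 := by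
    rw [htρ]
    field_simp
  have hρB := hU _ hρ
  have hρB' : t (g * (g + 1) / (g - 1)) ∈ B := hU _ (by rw [ht, mul_comm]; exact hρ)
  have hκ : (g ^ 2) * t (g ^ 2) = 1 := by rw [map_pow, ← mul_pow, hg]; ring
  have hκB := hU _ hκ
  have hκB' : (g ^ 2)⁻¹ ∈ B := by
    rw [← eq_inv_of_mul_eq_one_right hκ]
    exact hU _ (by rw [ht, mul_comm]; exact hκ)
  have h2B : (2 : E) ∈ B := by exact_mod_cast natCast_mem B 2
  have h8B : (8 : E) ∈ B := by exact_mod_cast natCast_mem B 8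
  have h3 := B.mul_mem hκB' (B.sub_mem (B.sub_mem (pow_mem (B.sub_mem (B.add_mem hρB hρB') h2B) 2)
    (B.sub_mem (B.add_mem hκB hκB') h2B)) h8B)
  rw [htρ] at h3
  have hκ1 : g ^ 2 - 1 ≠ 0 := sub_ne_zero.mpr h1
  have e : 16 / (g ^ 2 - 1) ^ 2 = (g ^ 2)⁻¹ * ((g * (g + 1) / (g - 1) +
      (g - 1) / (g * (g + 1)) - 2) ^ 2 - (g ^ 2 + (g ^ 2)⁻¹ - 2) - 8) := by
    have e2 : g ^ 2 - 1 = (g - 1) * (g + 1) := by ring
    rw [e2]
    field_simp
    ring
  rw [e]
  exact h3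

/-- the quotient `P` of `s(κ ^ (2 ^ (N + d)))` by `s(κ ^ (2 ^ N))` is `2 ^ d` modulo
`(κ - 1) ^ 2 B` -/
theorem quot {B : Subring E} {κ : E} (hκ : κ * t κ = 1) (hκB : κ ∈ B) (hκB' : κ⁻¹ ∈ B) (N d : ℕ) :
    ∃ P b : E, t P = P ∧ b ∈ B ∧ P = 2 ^ d + (κ - 1) ^ 2 * b ∧
      κ ^ 2 ^ (N + d) - (κ ^ 2 ^ (N + d))⁻¹ = (κ ^ 2 ^ N - (κ ^ 2 ^ N)⁻¹) * P := by
  induction d with
  | zero => exact ⟨1, 0, map_one t, B.zero_mem, by simp, by simp⟩
  | succ d ih =>
    obtain ⟨P, b, hP, hb, hPb, hs⟩ := ih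
    have hκ0 : κ ≠ 0 := left_ne_zero_of_mul_eq_one hκ
    have htκ : t κ = κ⁻¹ := eq_inv_of_mul_eq_one_right hκ
    set w := κ ^ 2 ^ (N + d) with hw
    have hw0 : w ≠ 0 := pow_ne_zero _ hκ0
    have htw : t w = w⁻¹ := by rw [hw, map_pow, htκ, inv_pow]
    have hwi : w⁻¹ ∈ B := by rw [hw, ← inv_pow]; exact pow_mem hκB' _
    set S := ∑ i ∈ range (2 ^ (N + d)), κ ^ i with hS
    have hSB : S ∈ B := sum_mem fun i _ => pow_mem hκB i
    have hSw : w - 1 = (κ - 1) * S := by rw [hS, hw, mul_comm, geom_sum_mul]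
    have h2B : (2 : E) ∈ B := by exact_mod_cast natCast_mem B 2
    have hsum : w + w⁻¹ = 2 + (κ - 1) ^ 2 * (w⁻¹ * S ^ 2) := by
      have e : w + w⁻¹ = 2 + w⁻¹ * (w - 1) ^ 2 := by field_simp; ring
      rw [e, hSw]
      ring
    refine ⟨P * (w + w⁻¹), 2 * b + 2 ^ d * (w⁻¹ * S ^ 2) +
      (κ - 1) ^ 2 * (b * (w⁻¹ * S ^ 2)), ?_, ?_, ?_, ?_⟩
    · rw [map_mul, hP, map_add, map_inv₀, htw, inv_inv, add_comm w⁻¹ w]
    · have hc : w⁻¹ * S ^ 2 ∈ B := B.mul_mem hwi (pow_mem hSB 2)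
      exact B.add_mem (B.add_mem (B.mul_mem h2B hb) (B.mul_mem (pow_mem h2B d) hc))
        (B.mul_mem (pow_mem (B.sub_mem hκB B.one_mem) 2) (B.mul_mem hb hc))
    · rw [hsum, hPb]
      ring
    · have e : κ ^ 2 ^ (N + (d + 1)) = w ^ 2 := by
        rw [hw, ← pow_mul, ← pow_succ, add_assoc]
      rw [e, ← mul_assoc, ← hs]
      field_simp
      ring

variable {T : Type*} [AddCommGroup T] (H : E → T)
  (hH : ∀ x y, x ≠ 0 → y ≠ 0 → H (x * y) = H x + H y) (hF : ∀ x, x ≠ 0 → t x = x → H x = 0)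
  (h2T : ∀ a : T, a + a = 0 → a = 0)

include ht hH hF h2T

/-- `H g = 0` for every `g` of norm `-1` -/
theorem neg_one (B : Subring E) (hU : ∀ θ : E, θ * t θ = 1 → θ ∈ B) (Per PT : Set E)
    (hPT : ∀ l ∈ PT, ∀ θ : E, θ * t θ = 1 → l * θ - t (l * θ) ∈ Per)
    (hP : ∀ p ∈ Per, ∀ ρ : E, ρ * t ρ = 1 → H (1 + p * (1 - ρ)) = 0)
    (hI : ∀ θ : E, θ * t θ = 1 → ∃ m : ℕ, ∀ b ∈ B, (θ ^ (2 ^ m) - (θ ^ (2 ^ m))⁻¹) * b ∈ PT)
    {g : E} (hg : g * t g = -1) : H g = 0 := by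
  have hg0 : g ≠ 0 := by
    rintro rfl; rw [zero_mul] at hg; exact one_ne_zero (by linear_combination hg)
  by_cases h1 : g ^ 2 = 1
  · have h2 : (g - 1) * (g + 1) = 0 := by linear_combination h1
    apply hF g hg0
    rcases mul_eq_zero.mp h2 with h | h
    · rw [sub_eq_zero.mp h, map_one]
    · rw [eq_neg_of_add_eq_zero_left h, map_neg, map_one]
  have h16 := sixteen t ht hU hg h1
  have hYO' : ∀ j, Odd j → ∀ O : ValuationSubring E, (∀ x ∈ B, x ∈ O) →
      (∑ i ∈ range (2 ^ j - 1), (g ^ 2) ^ i) ∉ O.nonunits := by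
    intro j hj O hBO
    exact unit_Y t ht O (fun θ hθ => hBO _ (hU θ hθ)) hg hj
  obtain ⟨κ, hκd⟩ : ∃ κ, κ = g ^ 2 := ⟨_, rfl⟩
  rw [← hκd] at h1 h16
  simp only [← hκd] at hYO'
  have hκ : κ * t κ = 1 := by rw [hκd, map_pow, ← mul_pow, hg]; ring
  have hκ0 : κ ≠ 0 := by rw [hκd]; exact pow_ne_zero 2 hg0
  have htκ : t κ = κ⁻¹ := eq_inv_of_mul_eq_one_right hκ
  have hκB : κ ∈ B := hU _ hκ
  have hκB' : κ⁻¹ ∈ B := by
    rw [← htκ]
    exact hU _ (by rw [ht, mul_comm]; exact hκ)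
  have hκ1 : κ - 1 ≠ 0 := sub_ne_zero.mpr h1
  obtain ⟨M, hM⟩ := hI κ hκ
  obtain ⟨P, b, htP, hb, hPb, hs⟩ := quot t hκ hκB hκB' (M + 1) (M + 5)
  set n := M + 1 + (M + 5) with hn
  set m := 2 ^ n with hm
  have hmpos : 1 ≤ m := Nat.one_le_two_pow
  -- `Y`
  set Y := ∑ i ∈ range (2 ^ (n + 1) - 1), κ ^ i with hY
  have hexp : 2 ^ (n + 1) - 1 = (m - 1) + m := by rw [pow_succ]; omega
  have hYB : Y ∈ B := sum_mem fun i _ => pow_mem hκB i
  have hYκ : Y * (κ - 1) = κ ^ (m - 1) * κ ^ m - 1 := by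
    rw [hY, geom_sum_mul, hexp, pow_add]
  have hodd : Odd (n + 1) := ⟨M + 3, by rw [hn]; ring⟩
  have hYO : ∀ O : ValuationSubring E, (∀ x ∈ B, x ∈ O) → Y ∉ O.nonunits := hYO' _ hodd
  have hYi : Y⁻¹ ∈ B := T5Q.inv_mem hYB hYO
  have hY0 : Y ≠ 0 := by
    intro h
    have h2 : Y ∈ (⊤ : ValuationSubring E).nonunits := by
      rw [ValuationSubring.mem_nonunits_iff_or]
      exact Or.inl h
    exact hYO ⊤ (fun x _ => ValuationSubring.mem_top x) h2
  -- powers of `κ`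
  have hκm : κ ^ m = κ * κ ^ (m - 1) := by
    rw [← pow_succ']
    congr 1
    omega
  set u := κ ^ (m - 1) with hu
  have hu0 : u ≠ 0 := pow_ne_zero _ hκ0
  have htu : t u = u⁻¹ := by rw [hu, map_pow, htκ, inv_pow]
  rw [hκm] at hYκ
  have hYeq : Y = (u * (κ * u) - 1) / (κ - 1) := by
    rw [eq_div_iff hκ1]; exact hYκ
  have hne : u * (κ * u) - 1 ≠ 0 := by
    rw [← hYκ]; exact mul_ne_zero hY0 hκ1
  have hκi1 : κ⁻¹ - 1 ≠ 0 := by
    intro h
    apply hκ1
    have : κ - 1 = -κ * (κ⁻¹ - 1) := by field_simp; ring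
    rw [this, h, mul_zero]
  have htY : t Y = Y / u ^ 2 := by
    rw [hYeq, map_div₀, map_sub, map_sub, map_mul, map_mul, map_one, htu, htκ]
    rw [div_div, div_eq_div_iff hκi1 (mul_ne_zero hκ1 (pow_ne_zero 2 hu0))]
    field_simp
    ring
  -- `r`
  set r := κ * u * P / ((κ - 1) ^ 2 * Y) with hr
  have hrB : r ∈ B := by
    have e : r = κ * u * Y⁻¹ * (2 ^ (M + 1) * (16 / (κ - 1) ^ 2) + b) := by
      rw [hr, hPb]
      have e2 : (2 : E) ^ (M + 5) = 2 ^ (M + 1) * 16 := by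
        rw [show M + 5 = (M + 1) + 4 from rfl, pow_add]; norm_num
      rw [e2]
      field_simp
    rw [e]
    have h2B : (2 : E) ∈ B := by exact_mod_cast natCast_mem B 2
    exact B.mul_mem (B.mul_mem (B.mul_mem hκB (pow_mem hκB _)) hYi)
      (B.add_mem (B.mul_mem (pow_mem h2B _) h16) hb)
  have htr : t r = r := by
    have e3 : t ((κ - 1) ^ 2) = (κ⁻¹ - 1) ^ 2 := by rw [map_pow, map_sub, htκ, map_one]
    have e4 : t (κ * u * P) = κ⁻¹ * u⁻¹ * P := by rw [map_mul, map_mul, htκ, htu, htP]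
    rw [hr, map_div₀, e4, map_mul t ((κ - 1) ^ 2) Y, e3, htY]
    have h3 : (κ⁻¹ - 1) ^ 2 * (Y / u ^ 2) ≠ 0 :=
      mul_ne_zero (pow_ne_zero 2 hκi1) (div_ne_zero hY0 (pow_ne_zero 2 hu0))
    rw [div_eq_div_iff h3 (mul_ne_zero (pow_ne_zero 2 hκ1) hY0)]
    field_simp
    ring
  -- `p`
  set k := κ ^ 2 ^ M with hk
  have hk0 : k ≠ 0 := pow_ne_zero _ hκ0
  have htk : t k = k⁻¹ := by rw [hk, map_pow, htκ, inv_pow]
  have hp : (k ^ 2 - (k ^ 2)⁻¹) * r ∈ Per := by
    have h3 := hPT _ (hM (k * r) (B.mul_mem (pow_mem hκB _) hrB)) 1 (by rw [map_one, mul_one])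
    have e : (k - k⁻¹) * (k * r) * 1 - t ((k - k⁻¹) * (k * r) * 1) = (k ^ 2 - (k ^ 2)⁻¹) * r := by
      rw [mul_one, map_mul, map_mul, map_sub, map_inv₀, htk, htr, inv_inv]
      field_simp
      ring
    rwa [e] at h3
  have hk2 : κ ^ 2 ^ (M + 1) = k ^ 2 := by rw [hk, ← pow_mul, ← pow_succ]
  rw [hk2] at hs
  rw [hκm] at hs
  have h4 := hP _ hp κ hκ
  have e : 1 + (k ^ 2 - (k ^ 2)⁻¹) * r * (1 - κ) = (κ * u) * (-u / Y) := by
    have e1 : (k ^ 2 - (k ^ 2)⁻¹) * r =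
        ((k ^ 2 - (k ^ 2)⁻¹) * P) * (κ * u / ((κ - 1) ^ 2 * Y)) := by
      rw [hr]; ring
    rw [e1, ← hs]
    have e2 : κ = 1 + (κ - 1) := by ring
    field_simp
    linear_combination (κ - 1) * hYκ
  rw [e] at h4
  have hf : t (-u / Y) = -u / Y := by
    rw [map_div₀, map_neg, htY, htu]
    field_simp
  rw [hH _ _ (mul_ne_zero hκ0 hu0) (div_ne_zero (neg_ne_zero.mpr hu0) hY0),
    hF _ (div_ne_zero (neg_ne_zero.mpr hu0) hY0) hf, add_zero, ← hκm, hκd, ← pow_mul,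
    H_pow t H hH hF hg0, hm, ← pow_succ'] at h4
  exact two_pow_tors h2T (n + 1) h4

/-- **The end of T_5 when `-1` is a norm.** -/
theorem main (B : Subring E) (hU : ∀ θ : E, θ * t θ = 1 → θ ∈ B) (Per PT : Set E)
    (hPT : ∀ l ∈ PT, ∀ θ : E, θ * t θ = 1 → l * θ - t (l * θ) ∈ Per)
    (hP : ∀ p ∈ Per, ∀ ρ : E, ρ * t ρ = 1 → H (1 + p * (1 - ρ)) = 0)
    (hI : ∀ θ : E, θ * t θ = 1 → ∃ m : ℕ, ∀ b ∈ B, (θ ^ (2 ^ m) - (θ ^ (2 ^ m))⁻¹) * b ∈ PT)
    {g : E} (hg : g * t g = -1) : ∀ x : E, x ≠ 0 → H x = 0 := by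
  have hN := fun {g : E} (hg : g * t g = -1) =>
    neg_one t ht H hH hF h2T B hU Per PT hPT hP hI hg
  have hg0 : g ≠ 0 := by
    rintro rfl; rw [zero_mul] at hg; exact one_ne_zero (by linear_combination hg)
  intro x hx
  have htx : t x ≠ 0 := fun h => hx (t.map_eq_zero_iff.mp h)
  have h1 : H (g * (x / t x)) = 0 := by
    apply hN
    rw [map_mul, map_div₀, ht]
    field_simp
    exact hg
  rw [hH _ _ hg0 (div_ne_zero hx htx), hN hg, zero_add] at h1
  have h2 : H (x * x) = 0 := by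
    have e : x * x = (x / t x) * (x * t x) := by field_simp
    rw [e, hH _ _ (div_ne_zero hx htx) (mul_ne_zero hx htx), h1,
      hF _ (mul_ne_zero hx htx) (by rw [map_mul, ht, mul_comm]), add_zero]
  rw [hH _ _ hx hx] at h2
  exact h2T _ h2

end main

end Pool.Agent.MP_1b9aaa_al.T5N
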