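import Pool.Agent.Lib.MP_1b9aaa_al.T5KN
import Pool.Agent.Lib.MP_1b9aaa_al.T5N

/-!
# MP_1b9aaa_al, T_5: the abstract core when `-1` is a norm, and T_5 in general

`coreN : CoreN` (from T5G, T5I, T5N) and `eq_zero5N`: T_5 for every `K` of degree 5 over the fixed
field in which `-1` is a sum of squares, all characteristics, no further hypothesis.
-/

set_option autoImplicit false

namespace Pool.Agent.MP_1b9aaa_al

namespace Quin

universe u v

theorem coreN : CoreN.{u, v} := by
  intro E _ t T _ H e E5 A hi x hx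
  obtain ⟨γ, hγ⟩ := hi
  by_cases hn : ∃ y, t y ≠ y
  · obtain ⟨h0, D⟩ := A.dat hn
    rcases A.dataI D with h | DI
    · exact h x hx
    · exact T5N.main t A.ht H A.hH A.hF A.h2T D.BR (fun θ hθ => D.U1_mem_BR hθ) D.Per D.PT
        (fun l hl θ hθ => hl θ hθ) (fun p hp ρ hρ => D.H_one_add hp hρ)
        (fun θ hθ => by
          obtain ⟨m, hm⟩ := T5I.main DI hθ
          exact ⟨m, hm m le_rfl⟩) hγ x hx
  · push Not at hn
    exact A.hF x hx (hn x)

/-- **T_5 if `-1` is a sum of squares in `K`**, all characteristics -/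
theorem eq_zero5N {K : Type u} {T : Type v} [Field K] [AddCommGroup T] {g : K ≃+* K}
    {c : K → K → T} (hc : Good g c) (h5 : ∀ x, g (g (g (g (g x)))) = x)
    (h2T : ∀ t : T, t + t = 0 → t = 0) (hs : IsSumSq (-1 : K)) {y z : K} (hy : y ≠ 0)
    (hz : z ≠ 0) : c y z = 0 :=
  eq_zero_N coreN hc h5 h2T hs hy hz

end Quin

end Pool.Agent.MP_1b9aaa_al
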