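import Pool.Agent.Lib.MP_1b9aaa_al.T5E

/-!
# MP_1b9aaa_al, T_5: the quadratic transfer for Steinberg symbols, and the climb

* `Climb.D`: for a Steinberg symbol `c` on `K` (with `c(x,-1) = 0`) and `d ∈ K` not a square, the
  symbol `D` on `K(w)`, `w² = d`, with `D(k, z) = c(k, N z)` for `k ∈ K` and
  `D(l + w, m + w) = c(m - l, (m² - d)/(l² - d))`; `D_isSteinberg`: it is a Steinberg symbol.
* `Climb.D_good`: it vanishes on `F(w)*` as soon as `c(a - x, x² - d) = 0` for `a ∈ F`, `x ∈ K`.
* `Climb.climb`: then `c = 0` if every good symbol on `K(w)` is zero.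
* `Climb.level`: induction on the length of a representation of `-1` as a sum of squares in `F`:
  it is enough to know the vanishing of the dihedral maps for `X² - (1 + e²)`, `e ∈ F`.
* `Climb.eq_zero5_of_dih`: the case `g^5 = 1`.
-/

set_option autoImplicit false

namespace Pool.Agent.MP_1b9aaa_al

open IsSteinberg

namespace Climb

variable {K T : Type*} [Field K] [AddCommGroup T] {c : K → K → T} {S : Subfield K} {d : K}

open Classical in
/-- `D(l + w, m + w)`, `w² = d`. -/
noncomputable def Dq (c : K → K → T) (d l m : K) : T :=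
  if l = m then 0 else c (m - l) ((m * m - d) / (l * l - d))

lemma negl (hc : IsSteinberg c) (hS : VanOn c S) {x y : K} (hx : x ≠ 0) (hy : y ≠ 0) :
    c (-x) y = c x y := by
  have e : -x = (-1) * x := by ring
  rw [e, hc.mul_left _ _ _ (neg_ne_zero.mpr one_ne_zero) hx hy,
    hc.van_left hS (neg_mem (one_mem S)) (neg_ne_zero.mpr one_ne_zero) hy, zero_add]

lemma negr (hc : IsSteinberg c) (hS : VanOn c S) {x y : K} (hx : x ≠ 0) (hy : y ≠ 0) :
    c x (-y) = c x y := by
  rw [hc.skew hx (neg_ne_zero.mpr hy), negl hc hS hy hx, ← hc.skew hx hy]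

lemma Dq_skew (hc : IsSteinberg c) (hS : VanOn c S) (hq : ∀ r : K, r * r - d ≠ 0) (l m : K) :
    Dq c d l m = - Dq c d m l := by
  by_cases h : l = m
  · simp [Dq, h]
  · have h' : ¬ (m = l) := fun e => h e.symm
    have h1 : m - l ≠ 0 := sub_ne_zero.mpr h'
    have h2 : l - m ≠ 0 := sub_ne_zero.mpr h
    simp only [Dq, if_neg h, if_neg h']
    rw [← neg_sub m l, negl hc hS h1 (div_ne_zero (hq _) (hq _)),
      hc.div_right (hq _) (hq _) h1, hc.div_right (hq _) (hq _) h1]
    abel

lemma law (hc : IsSteinberg c) (hS : VanOn c S) (hq : ∀ r : K, r * r - d ≠ 0) {l l' m : K}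
    (hs : l + l' ≠ 0) :
    c (l + l') (m * m - d) + Dq c d ((l * l' + d) / (l + l')) m = Dq c d l m + Dq c d l' m := by
  classical
  set s : K := l + l' with hsd
  set u : K := (l * l' + d) / s with hu
  set x : K := m - l with hx
  set y : K := m - l' with hy
  set v : K := m - u with hv
  have hsu : s * u = l * l' + d := by rw [hu]; field_simp
  have e1 : l * l - d = s * (v - x) := by rw [hv, hx]; linear_combination hsu - l * hsd
  have e2 : l' * l' - d = s * (v - y) := by rw [hv, hy]; linear_combination hsu - l' * hsd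
  have e3 : u * u - d = (v - x) * (v - y) := by
    rw [hv, hx, hy]; linear_combination hsu - u * hsd
  have e4 : m * m - d = x * y + s * v := by
    rw [hv, hx, hy]; linear_combination hsu - m * hsd
  have hvx : v - x ≠ 0 := fun h => hq l (by rw [e1, h, mul_zero])
  have hvy : v - y ≠ 0 := fun h => hq l' (by rw [e2, h, mul_zero])
  have hn : m * m - d ≠ 0 := hq m
  set n : K := m * m - d with hnd
  have d1 : Dq c d l m = if x = 0 then 0 else c x (n / (s * (v - x))) := by
    simp only [Dq, e1, ← hnd]
    by_cases h : l = m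
    · rw [if_pos h, if_pos (show x = 0 by rw [hx, h, sub_self])]
    · rw [if_neg h, if_neg (show ¬ x = 0 from fun e => h (sub_eq_zero.mp e).symm)]
  have d2 : Dq c d l' m = if y = 0 then 0 else c y (n / (s * (v - y))) := by
    simp only [Dq, e2, ← hnd]
    by_cases h : l' = m
    · rw [if_pos h, if_pos (show y = 0 by rw [hy, h, sub_self])]
    · rw [if_neg h, if_neg (show ¬ y = 0 from fun e => h (sub_eq_zero.mp e).symm)]
  have d3 : Dq c d u m = if v = 0 then 0 else c v (n / ((v - x) * (v - y))) := by
    simp only [Dq, e3, ← hnd]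
    by_cases h : u = m
    · rw [if_pos h, if_pos (show v = 0 by rw [hv, h, sub_self])]
    · rw [if_neg h, if_neg (show ¬ v = 0 from fun e => h (sub_eq_zero.mp e).symm)]
  rw [d1, d2, d3]
  by_cases hx0 : x = 0
  · by_cases hv0 : v = 0
    · exfalso
      apply hn
      rw [e4, hx0, hv0]; ring
    · have hn' : n = s * v := by rw [e4, hx0]; ring
      have hsv : s * v ≠ 0 := mul_ne_zero hs hv0
      rw [if_pos hx0, if_neg hv0, hn', zero_add, hx0, sub_zero]
      have t0 : c v (s * v / (v * (v - y))) = c v s - c v (v - y) := by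
        rw [show s * v / (v * (v - y)) = s / (v - y) by field_simp,
          hc.div_right hs hvy hv0]
      rw [t0, hc.mul_right _ _ _ hs hs hv0, hc.self hS hs]
      by_cases hy0 : y = 0
      · rw [if_pos hy0, hy0, sub_zero, hc.self hS hv0, hc.skew hs hv0]
        abel
      · rw [if_neg hy0, show s * v / (s * (v - y)) = v / (v - y) by field_simp,
          hc.div_right hv0 hvy hy0]
        have t1 := hc.three hS hv0 hvy hy0 (show v = (v - y) + y by ring)
        rw [hc.skew hvy hy0, hc.skew hvy hv0] at t1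
        rw [hc.skew hs hv0]
        linear_combination (norm := module) -t1
  · by_cases hy0 : y = 0
    · by_cases hv0 : v = 0
      · exfalso
        apply hn
        rw [e4, hy0, hv0]; ring
      · have hn' : n = s * v := by rw [e4, hy0]; ring
        have hsv : s * v ≠ 0 := mul_ne_zero hs hv0
        rw [if_neg hx0, if_neg hv0, if_pos hy0, hn', add_zero, hy0, sub_zero]
        have t0 : c v (s * v / ((v - x) * v)) = c v s - c v (v - x) := by
          rw [show s * v / ((v - x) * v) = s / (v - x) by field_simp,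
            hc.div_right hs hvx hv0]
        rw [t0, hc.mul_right _ _ _ hs hs hv0, hc.self hS hs,
          show s * v / (s * (v - x)) = v / (v - x) by field_simp,
          hc.div_right hv0 hvx hx0]
        have t1 := hc.three hS hv0 hvx hx0 (show v = (v - x) + x by ring)
        rw [hc.skew hvx hx0, hc.skew hvx hv0] at t1
        rw [hc.skew hs hv0]
        linear_combination (norm := module) -t1
    · rw [if_neg hx0, if_neg hy0, hc.div_right hn (mul_ne_zero hs hvx) hx0,
        hc.div_right hn (mul_ne_zero hs hvy) hy0, hc.mul_right _ _ _ hx0 hs hvx,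
        hc.mul_right _ _ _ hy0 hs hvy]
      by_cases hv0 : v = 0
      · have hn' : n = x * y := by rw [e4, hv0]; ring
        rw [if_pos hv0, hv0, zero_sub, zero_sub, negr hc hS hx0 hx0, negr hc hS hy0 hy0,
          hc.self hS hx0, hc.self hS hy0, hn', hc.mul_right _ _ _ hs hx0 hy0,
          hc.mul_right _ _ _ hx0 hx0 hy0, hc.mul_right _ _ _ hy0 hx0 hy0, hc.self hS hx0,
          hc.self hS hy0, hc.skew hs hx0, hc.skew hs hy0, hc.skew hy0 hx0]
        abel
      · rw [if_neg hv0, hc.div_right hn (mul_ne_zero hvx hvy) hv0,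
          hc.mul_right _ _ _ hv0 hvx hvy]
        have a1 := hc.three hS hv0 hvx hx0 (show v = (v - x) + x by ring)
        rw [hc.skew hvx hx0, hc.skew hvx hv0] at a1
        have a2 := hc.three hS hv0 hvy hy0 (show v = (v - y) + y by ring)
        rw [hc.skew hvy hy0, hc.skew hvy hv0] at a2
        have a3 := hc.three hS hn (mul_ne_zero hx0 hy0) (mul_ne_zero hs hv0) e4
        rw [hc.mul_left _ _ _ hx0 hy0 (mul_ne_zero hs hv0), hc.mul_right _ _ _ hx0 hs hv0,
          hc.mul_right _ _ _ hy0 hs hv0, hc.mul_left _ _ _ hx0 hy0 hn,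
          hc.mul_left _ _ _ hs hv0 hn] at a3
        linear_combination (norm := module) -a1 - a2 + a3


/-- the law at `l' = -l` -/
lemma law0 (hc : IsSteinberg c) (hS : VanOn c S) (hq : ∀ r : K, r * r - d ≠ 0) (l m : K) :
    c (l * l - d) (m * m - d) = Dq c d l m + Dq c d (-l) m := by
  classical
  have hml : (-l) * (-l) - d = l * l - d := by ring
  by_cases h1 : l = m
  · subst h1
    rw [hc.self hS (hq l)]
    simp only [Dq, hml, if_true]
    by_cases h2 : -l = l
    · simp [h2]
    · rw [if_neg h2, div_self (hq l), hc.one_right (sub_ne_zero.mpr (Ne.symm h2)), add_zero]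
  · by_cases h2 : -l = m
    · have hm : m * m - d = l * l - d := by rw [← h2]; ring
      simp only [Dq, hml, hm, if_neg h1, if_pos h2, div_self (hq l)]
      rw [hc.self hS (hq l), hc.one_right (sub_ne_zero.mpr (Ne.symm h1)), add_zero]
    · have a1 : m - l ≠ 0 := sub_ne_zero.mpr (Ne.symm h1)
      have a2 : m - -l ≠ 0 := sub_ne_zero.mpr (Ne.symm h2)
      simp only [Dq, hml, if_neg h1, if_neg h2]
      rw [← hc.mul_left _ _ _ a1 a2 (div_ne_zero (hq _) (hq _))]
      have e : m * m - d = (m - l) * (m - -l) + (l * l - d) := by ring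
      have t := hc.three hS (hq m) (mul_ne_zero a1 a2) (hq l) e
      rw [hc.div_right (hq m) (hq l) (mul_ne_zero a1 a2), t]
      abel

/-- `D(κ(l + w), μ(m + w))` -/
noncomputable def EL (c : K → K → T) (d μ m κ l : K) : T :=
  c κ (μ * μ * (m * m - d)) + c (l * l - d) μ + Dq c d l m

lemma EL_mul (hc : IsSteinberg c) (hS : VanOn c S) (hq : ∀ r : K, r * r - d ≠ 0) {μ m κ l κ' l' : K}
    (hμ : μ ≠ 0) (hκ : κ ≠ 0) (hκ' : κ' ≠ 0) (hs : l + l' ≠ 0) :
    EL c d μ m (κ * κ' * (l + l')) ((l * l' + d) / (l + l')) = EL c d μ m κ l + EL c d μ m κ' l' := by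
  have h := law hc hS hq (m := m) hs
  have hQ : μ * μ * (m * m - d) ≠ 0 := mul_ne_zero (mul_ne_zero hμ hμ) (hq m)
  have hu : (l * l' + d) / (l + l') * ((l * l' + d) / (l + l')) - d
      = (l * l - d) * (l' * l' - d) / ((l + l') * (l + l')) := by
    field_simp
    ring
  simp only [EL]
  rw [hu, hc.mul_left _ _ _ (mul_ne_zero hκ hκ') hs hQ, hc.mul_left _ _ _ hκ hκ' hQ,
    hc.div_left (mul_ne_zero (hq l) (hq l')) (mul_ne_zero hs hs) hμ,
    hc.mul_left _ _ _ (hq l) (hq l') hμ, hc.mul_left _ _ _ hs hs hμ,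
    hc.mul_right (l + l') (μ * μ) (m * m - d) hs (mul_ne_zero hμ hμ) (hq m),
    hc.mul_right (l + l') μ μ hs hμ hμ]
  linear_combination (norm := module) h

lemma EL_mul0 (hc : IsSteinberg c) (hS : VanOn c S) (hq : ∀ r : K, r * r - d ≠ 0) {μ m κ l κ' : K}
    (hμ : μ ≠ 0) (hκ : κ ≠ 0) (hκ' : κ' ≠ 0) :
    c (κ * κ' * (d - l * l)) (μ * μ * (m * m - d)) = EL c d μ m κ l + EL c d μ m κ' (-l) := by
  have h := law0 hc hS hq l m
  have hQ : μ * μ * (m * m - d) ≠ 0 := mul_ne_zero (mul_ne_zero hμ hμ) (hq m)
  have hml : (-l) * (-l) - d = l * l - d := by ring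
  have e : κ * κ' * (d - l * l) = κ * κ' * (-(l * l - d)) := by ring
  simp only [EL, hml]
  rw [e, hc.mul_left _ _ _ (mul_ne_zero hκ hκ') (neg_ne_zero.mpr (hq l)) hQ,
    hc.mul_left _ _ _ hκ hκ' hQ, negl hc hS (hq l) hQ,
    hc.mul_right (l * l - d) (μ * μ) (m * m - d) (hq l) (mul_ne_zero hμ hμ) (hq m),
    hc.mul_right (l * l - d) μ μ (hq l) hμ hμ]
  linear_combination (norm := module) h

lemma EL_smul (hc : IsSteinberg c) (hq : ∀ r : K, r * r - d ≠ 0) {μ m κ l k : K}
    (hμ : μ ≠ 0) (hκ : κ ≠ 0) (hk : k ≠ 0) :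
    EL c d μ m (k * κ) l = c k (μ * μ * (m * m - d)) + EL c d μ m κ l := by
  have hQ : μ * μ * (m * m - d) ≠ 0 := mul_ne_zero (mul_ne_zero hμ hμ) (hq m)
  simp only [EL]
  rw [hc.mul_left _ _ _ hk hκ hQ]
  abel

open QuadraticAlgebra

/-- The transfer of `c` to `K(w)`, `w² = d`. -/
noncomputable def D (c : K → K → T) (d : K) (z w : QuadraticAlgebra K d 0) : T :=
  open Classical in
  if w.im = 0 then c (z.re * z.re - d * (z.im * z.im)) w.re
  else if z.im = 0 then c z.re (w.re * w.re - d * (w.im * w.im))
  else EL c d w.im (w.re / w.im) z.im (z.re / z.im)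


lemma nm_eq {w : QuadraticAlgebra K d 0} (h : w.im ≠ 0) : w.re * w.re - d * (w.im * w.im)
    = w.im * w.im * ((w.re / w.im) * (w.re / w.im) - d) := by
  field_simp

lemma nm_ne (hq : ∀ r : K, r * r - d ≠ 0) {w : QuadraticAlgebra K d 0} (hw : w ≠ 0) :
    w.re * w.re - d * (w.im * w.im) ≠ 0 := by
  by_cases h : w.im = 0
  · have h' : w.re ≠ 0 := by
      intro h'
      exact hw (QuadraticAlgebra.ext h' h)
    rw [h]
    simpa using h'
  · rw [nm_eq h]
    exact mul_ne_zero (mul_ne_zero h h) (hq _)

lemma re_ne {w : QuadraticAlgebra K d 0} (hw : w ≠ 0) (h : w.im = 0) : w.re ≠ 0 := by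
  intro h'
  exact hw (QuadraticAlgebra.ext h' h)

lemma D_im0 {z w : QuadraticAlgebra K d 0} (h : w.im = 0) :
    D c d z w = c (z.re * z.re - d * (z.im * z.im)) w.re := by
  simp only [D, if_pos h]

lemma D_0 {z w : QuadraticAlgebra K d 0} (h : w.im ≠ 0) (h' : z.im = 0) :
    D c d z w = c z.re (w.re * w.re - d * (w.im * w.im)) := by
  simp only [D, if_neg h, if_pos h']

lemma D_1 {z w : QuadraticAlgebra K d 0} (h : w.im ≠ 0) (h' : z.im ≠ 0) :
    D c d z w = EL c d w.im (w.re / w.im) z.im (z.re / z.im) := by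
  simp only [D, if_neg h, if_neg h']

lemma D_skew (hc : IsSteinberg c) (hS : VanOn c S) (hq : ∀ r : K, r * r - d ≠ 0)
    {z w : QuadraticAlgebra K d 0} (hz : z ≠ 0) (hw : w ≠ 0) : D c d z w = - D c d w z := by
  by_cases h : w.im = 0
  · rw [D_im0 h]
    by_cases h' : z.im = 0
    · rw [D_im0 h', h, h']
      have a := re_ne hz h'
      have b := re_ne hw h
      simp only [mul_zero, sub_zero]
      rw [hc.mul_left _ _ _ a a b, hc.mul_left _ _ _ b b a, hc.skew a b]
      abel
    · rw [D_0 h' h, hc.skew (nm_ne hq hz) (re_ne hw h)]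
  · by_cases h' : z.im = 0
    · rw [D_0 h h', D_im0 h', hc.skew (re_ne hz h') (nm_ne hq hw)]
    · rw [D_1 h h', D_1 h' h]
      simp only [EL]
      rw [Dq_skew hc hS hq (z.re / z.im), hc.mul_right _ _ _ h' (mul_ne_zero h h) (hq _),
        hc.mul_right _ _ _ h (mul_ne_zero h' h') (hq _), hc.mul_right _ _ _ h' h h,
        hc.mul_right _ _ _ h h' h', hc.skew (hq (z.re / z.im)) h, hc.skew (hq (w.re / w.im)) h',
        hc.skew h' h]
      abel

lemma D_mul_left (hc : IsSteinberg c) (hS : VanOn c S) (hq : ∀ r : K, r * r - d ≠ 0)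
    {a b x : QuadraticAlgebra K d 0} (ha : a ≠ 0) (hb : b ≠ 0) (hx : x ≠ 0) :
    D c d (a * b) x = D c d a x + D c d b x := by
  by_cases h : x.im = 0
  · rw [D_im0 h, D_im0 h, D_im0 h, ← hc.mul_left _ _ _ (nm_ne hq ha) (nm_ne hq hb) (re_ne hx h)]
    congr 1
    simp only [re_mul, im_mul]
    ring
  · have hQ := nm_ne hq hx
    have hxe := nm_eq h
    by_cases h1 : a.im = 0
    · have a0 := re_ne ha h1
      by_cases h2 : b.im = 0
      · have b0 := re_ne hb h2
        rw [D_0 h h1, D_0 h h2, D_0 h (by simp only [im_mul, h1, h2]; ring),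
          ← hc.mul_left _ _ _ a0 b0 hQ]
        congr 1
        simp only [re_mul, h1, h2]
        ring
      · have him : (a * b).im = a.re * b.im := by simp only [im_mul, h1]; ring
        have hre : (a * b).re = a.re * b.re := by simp only [re_mul, h1]; ring
        rw [D_0 h h1, D_1 h h2, D_1 h (by rw [him]; exact mul_ne_zero a0 h2), him, hre,
          mul_div_mul_left _ _ a0, EL_smul hc hq h h2 a0, hxe]
    · by_cases h2 : b.im = 0
      · have b0 := re_ne hb h2
        have him : (a * b).im = b.re * a.im := by simp only [im_mul, h2]; ring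
        have hre : (a * b).re = b.re * a.re := by simp only [re_mul, h2]; ring
        rw [D_0 h h2, D_1 h h1, D_1 h (by rw [him]; exact mul_ne_zero b0 h1), him, hre,
          mul_div_mul_left _ _ b0, EL_smul hc hq h h1 b0, hxe, add_comm]
      · set l : K := a.re / a.im with hl
        set l' : K := b.re / b.im with hl'
        have ea : a.re = l * a.im := by rw [hl]; field_simp
        have eb : b.re = l' * b.im := by rw [hl']; field_simp
        have him : (a * b).im = a.im * b.im * (l + l') := by
          simp only [im_mul, ea, eb]; ring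
        have hre : (a * b).re = a.im * b.im * (l * l' + d) := by
          simp only [re_mul, ea, eb]; ring
        rw [D_1 h h1, D_1 h h2, ← hl, ← hl']
        by_cases hs : l + l' = 0
        · have hll : l' = -l := (neg_eq_of_add_eq_zero_right hs).symm
          rw [D_0 h (by rw [him, hs, mul_zero]), hre, hll, hxe,
            show a.im * b.im * (l * -l + d) = a.im * b.im * (d - l * l) by ring,
            EL_mul0 hc hS hq h h1 h2]
        · have hne : a.im * b.im * (l + l') ≠ 0 := mul_ne_zero (mul_ne_zero h1 h2) hs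
          rw [D_1 h (by rw [him]; exact hne), him, hre, mul_div_mul_left _ _ (mul_ne_zero h1 h2),
            EL_mul hc hS hq h h1 h2 hs]

lemma D_steinberg (hc : IsSteinberg c) (hS : VanOn c S) (hq : ∀ r : K, r * r - d ≠ 0)
    {a : QuadraticAlgebra K d 0} (ha : a ≠ 0) (h1 : a ≠ 1) : D c d a (1 - a) = 0 := by
  have i1 : (1 - a).im = -a.im := by
    show (0 : K) - a.im = _
    ring
  have r1 : (1 - a).re = 1 - a.re := rfl
  by_cases h : a.im = 0
  · have a0 := re_ne ha h
    have a1 : a.re ≠ 1 := fun e => h1 (QuadraticAlgebra.ext e h)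
    rw [D_im0 (by rw [i1, h, neg_zero]), r1, h]
    simp only [mul_zero, sub_zero]
    rw [hc.mul_left _ _ _ a0 a0 (sub_ne_zero.mpr (Ne.symm a1)), hc.steinberg _ a0 a1, add_zero]
  · have h' : (1 - a).im ≠ 0 := by rw [i1]; exact neg_ne_zero.mpr h
    rw [D_1 h' h, i1, r1]
    set κ : K := a.im with hκ
    set l : K := a.re / κ with hl
    have ea : a.re = l * κ := by rw [hl]; field_simp
    set m : K := (1 - a.re) / -κ with hm
    have hml : m - l = -κ⁻¹ := by rw [hm, ea]; field_simp; ring
    have hlm : ¬ l = m := by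
      intro e
      rw [e, sub_self] at hml
      exact neg_ne_zero.mpr (inv_ne_zero h) hml.symm
    simp only [EL, Dq, if_neg hlm]
    have hκ' : -κ * -κ = κ * κ := by ring
    rw [hml, hκ', negr hc hS (hq l) h, negl hc hS (inv_ne_zero h) (div_ne_zero (hq _) (hq _)),
      hc.inv_left h (div_ne_zero (hq _) (hq _)), hc.div_right (hq _) (hq _) h,
      hc.mul_right _ _ _ h (mul_ne_zero h h) (hq _), hc.mul_right _ _ _ h h h, hc.self hS h,
      hc.skew (hq l) h]
    abel


section Field

variable [hd : Fact (∀ r : K, r ^ 2 ≠ d + 0 * r)]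

omit [AddCommGroup T] in
lemma hq_of : ∀ r : K, r * r - d ≠ 0 := by
  intro r h
  apply hd.out r
  rw [pow_two, zero_mul, add_zero]
  exact sub_eq_zero.mp h

/-- **Transfer**: `D` is a Steinberg symbol on `K(√d)`. -/
theorem D_isSteinberg (hc : IsSteinberg c) (hS : VanOn c S) :
    IsSteinberg (K := QuadraticAlgebra K d 0) (D c d) where
  mul_left a b x ha hb hx := D_mul_left hc hS hq_of ha hb hx
  mul_right x a b hx ha hb := by
    have hab : a * b ≠ 0 := mul_ne_zero ha hb
    rw [D_skew hc hS hq_of hx hab, D_mul_left hc hS hq_of ha hb hx,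
      D_skew hc hS hq_of hx ha, D_skew hc hS hq_of hx hb]
    abel
  steinberg a ha h1 := D_steinberg hc hS hq_of ha h1

/-- the automorphism of `K(√d)` which extends `g` and fixes `√d`. -/
def ext (g : K ≃+* K) (hg : g d = d) : QuadraticAlgebra K d 0 ≃+* QuadraticAlgebra K d 0 where
  toFun z := ⟨g z.re, g z.im⟩
  invFun z := ⟨g.symm z.re, g.symm z.im⟩
  left_inv z := by simp
  right_inv z := by simp
  map_mul' z w := by
    apply QuadraticAlgebra.ext
    · simp only [re_mul, map_add, map_mul, hg]
    · simp only [im_mul, map_add, map_mul, map_zero]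
  map_add' z w := by
    apply QuadraticAlgebra.ext
    · simp only [re_add, map_add]
    · simp only [im_add, map_add]

omit [AddCommGroup T] hd in
lemma ext_iterate (g : K ≃+* K) (hg : g d = d) (n : ℕ) (z : QuadraticAlgebra K d 0) :
    (ext g hg)^[n] z = ⟨g^[n] z.re, g^[n] z.im⟩ := by
  induction n generalizing z with
  | zero => rfl
  | succ n ih =>
    rw [Function.iterate_succ_apply, ih, Function.iterate_succ_apply, Function.iterate_succ_apply]
    rfl

/-- `D` is good for the extended automorphism as soon as the dihedral maps for `x² - d` vanish. -/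
theorem D_good {g : K ≃+* K} (hc : Good g c) (hg : g d = d)
    (hdih : ∀ x a : K, g a = a → x ≠ a → c (a - x) (x * x - d) = 0) :
    Good (K := QuadraticAlgebra K d 0) (ext g hg) (D c d) where
  st := D_isSteinberg hc.st hc.van
  van z hz f hf hf0 := by
    have hf' : (⟨g f.re, g f.im⟩ : QuadraticAlgebra K d 0) = f := hf
    have h1 : g f.re = f.re := congrArg QuadraticAlgebra.re hf'
    have h2 : g f.im = f.im := congrArg QuadraticAlgebra.im hf'
    have hqd := hq_of (K := K) (d := d)
    by_cases h : f.im = 0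
    · rw [D_im0 h]
      exact hc.van _ (nm_ne hqd hz) _ h1 (re_ne hf0 h)
    · have hn : g (f.re * f.re - d * (f.im * f.im)) = f.re * f.re - d * (f.im * f.im) := by
        simp only [map_sub, map_mul, h1, h2, hg]
      by_cases h' : z.im = 0
      · rw [D_0 h h']
        exact hc.van _ (re_ne hz h') _ hn (nm_ne hqd hf0)
      · rw [D_1 h h']
        simp only [EL]
        rw [← nm_eq h, hc.van _ h' _ hn (nm_ne hqd hf0), hc.van _ (hqd _) _ h2 h, zero_add,
          zero_add]
        simp only [Dq]
        split_ifs with h3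
        · rfl
        · have hm : g (f.re / f.im) = f.re / f.im := by rw [map_div₀, h1, h2]
          have hml : f.re / f.im - z.re / z.im ≠ 0 := sub_ne_zero.mpr (Ne.symm h3)
          have hmF : g (f.re / f.im * (f.re / f.im) - d) = f.re / f.im * (f.re / f.im) - d := by
            rw [map_sub, map_mul, hm, hg]
          rw [hc.st.div_right (hqd _) (hqd _) hml, hc.van _ hml _ hmF (hqd _),
            hdih _ _ hm h3, sub_zero]

/-- **Climb**: if the dihedral maps for `x² - d` vanish and every good symbol on `K(√d)` is zero,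
then `c = 0`. -/
theorem climb {g : K ≃+* K} (hc : Good g c) (hg : g d = d)
    (h2 : ∀ t : T, t + t = 0 → t = 0)
    (hdih : ∀ x a : K, g a = a → x ≠ a → c (a - x) (x * x - d) = 0)
    (hV : ∀ c' : QuadraticAlgebra K d 0 → QuadraticAlgebra K d 0 → T, Good (ext g hg) c' →
      ∀ u v, u ≠ 0 → v ≠ 0 → c' u v = 0) {u v : K} (hu : u ≠ 0) (hv : v ≠ 0) : c u v = 0 := by
  apply h2
  have h := hV _ (D_good hc hg hdih) ⟨u, 0⟩ ⟨v, 0⟩
    (fun e => hu (congrArg QuadraticAlgebra.re e)) (fun e => hv (congrArg QuadraticAlgebra.re e))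
  rw [D_im0 rfl] at h
  simp only [mul_zero, sub_zero] at h
  rw [← hc.st.mul_left _ _ _ hu hu hv, h]

end Field


/-! ### The induction on the length of a representation of `-1` as a sum of squares -/

universe u v

/-- all dihedral maps for `X² - (1 + e²)`, `e ∈ F`, vanish -/
def DihVan (T : Type v) [AddCommGroup T] (m : ℕ) : Prop :=
  ∀ (K : Type u) [Field K] (g : K ≃+* K) (c : K → K → T), (2 : K) ≠ 0 → (∀ x, g^[m] x = x) →
    Good g c → ∀ e : K, g e = e → ∀ x a : K, g a = a → x ≠ a → x * x - (1 + e * e) ≠ 0 →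
      c (a - x) (x * x - (1 + e * e)) = 0

/-- if all dihedral maps vanish, then `c = 0` -/
def GenVan (T : Type v) [AddCommGroup T] (m : ℕ) : Prop :=
  ∀ (K : Type u) [Field K] (g : K ≃+* K) (c : K → K → T), (2 : K) ≠ 0 → (∀ x, g^[m] x = x) →
    Good g c → (∀ d : K, g d = d → ∀ x a : K, g a = a → x ≠ a → x * x - d ≠ 0 →
      c (a - x) (x * x - d) = 0) → ∀ u v : K, u ≠ 0 → v ≠ 0 → c u v = 0

/-- the case `i ∈ F` -/
theorem level_one {T : Type v} [AddCommGroup T] {m : ℕ} (hD : DihVan.{u} T m)
    (hG : GenVan.{u} T m) (K : Type u) [Field K] (g : K ≃+* K) (c : K → K → T) (h2K : (2 : K) ≠ 0)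
    (hgm : ∀ x, g^[m] x = x) (hc : Good g c) {i : K} (hi : g i = i) (hii : i * i = -1)
    {u v : K} (hu : u ≠ 0) (hv : v ≠ 0) : c u v = 0 := by
  refine hG K g c h2K hgm hc ?_ u v hu hv
  intro d hd x a ha hxa hx
  have hax : a - x ≠ 0 := sub_ne_zero.mpr (Ne.symm hxa)
  -- the split case
  have hsplit : ∀ s : K, g s = s → s * s = d → c (a - x) (x * x - d) = 0 := by
    intro s hs hsd
    have e : x * x - d = (x - s) * (x + s) := by rw [← hsd]; ring
    rw [e] at hx
    have h1 : x - s ≠ 0 := left_ne_zero_of_mul hx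
    have h3 : x + s ≠ 0 := right_ne_zero_of_mul hx
    rw [e, hc.st.mul_right _ _ _ hax h1 h3,
      hc.st.line hc.van (S := fixS g) (s := x) (p := a) (q := -1) (r := -s) (t := 1)
        ha (neg_mem (one_mem _)) (neg_mem hs) (one_mem _) (by ring) (by ring) hax h1,
      hc.st.line hc.van (S := fixS g) (s := x) (p := a) (q := -1) (r := s) (t := 1)
        ha (neg_mem (one_mem _)) hs (one_mem _) (by ring) (by ring) hax h3, add_zero]
  have hi0 : i ≠ 0 := by
    rintro rfl
    rw [mul_zero] at hii
    exact one_ne_zero (neg_eq_zero.mp hii.symm)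
  by_cases hd1 : d = 1
  · exact hsplit 1 (map_one g) (by rw [hd1, mul_one])
  · have h1d : 1 - d ≠ 0 := sub_ne_zero.mpr (Ne.symm hd1)
    set e : K := i * (1 + d) / (1 - d) with he
    set μ : K := i * (1 - d) / 2 with hμ
    have hge : g e = e := by
      rw [he, map_div₀, map_mul, map_add, map_sub, map_one, hi, hd]
    have hg2 : g 2 = 2 := map_ofNat g 2
    have hgμ : g μ = μ := by
      rw [hμ, map_div₀, map_mul, map_sub, map_one, hi, hd, hg2]
    have hμ0 : μ ≠ 0 := div_ne_zero (mul_ne_zero hi0 h1d) h2K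
    have hdμ : d = μ * μ * (1 + e * e) := by
      have e1 : e * e = - ((1 + d) / (1 - d)) ^ 2 := by
        rw [he]; field_simp; linear_combination (1 + d) ^ 2 * hii
      have e2 : μ * μ = - ((1 - d) / 2) ^ 2 := by
        rw [hμ]; field_simp; linear_combination hii
      rw [e1, e2]
      field_simp
      ring
    have hx' : x * x - d = μ * μ * ((x / μ) * (x / μ) - (1 + e * e)) := by
      rw [mul_sub, ← hdμ]; field_simp
    have hax' : a - x = μ * (a / μ - x / μ) := by field_simp
    have hne : (x / μ) * (x / μ) - (1 + e * e) ≠ 0 := by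
      intro h
      rw [hx', h, mul_zero] at hx
      exact hx rfl
    have hne2 : a / μ - x / μ ≠ 0 := by
      intro h
      rw [hax', h, mul_zero] at hax
      exact hax rfl
    have hμμ : g (μ * μ) = μ * μ := by rw [map_mul, hgμ]
    rw [hx', hc.st.mul_right _ _ _ hax (mul_ne_zero hμ0 hμ0) hne,
      hc.van _ hax _ hμμ (mul_ne_zero hμ0 hμ0), zero_add, hax',
      hc.st.mul_left _ _ _ hμ0 hne2 hne, hc.st.van_left hc.van hgμ hμ0 hne, zero_add]
    refine hD K g c h2K hgm hc e hge (x / μ) (a / μ) (by rw [map_div₀, ha, hgμ]) ?_ hne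
    intro h
    exact hne2 (sub_eq_zero.mpr h.symm)

/-- **Theorem.** If the dihedral maps for `X² - (1 + e²)` vanish for all fields, then every good
symbol is zero as soon as `-1` is a sum of squares in `F`. -/
theorem level {T : Type v} [AddCommGroup T] (h2 : ∀ t : T, t + t = 0 → t = 0) {m : ℕ} (hm : Odd m)
    (hD : DihVan.{u} T m) (hG : GenVan.{u} T m) (n : ℕ) :
    ∀ (K : Type u) [Field K] (g : K ≃+* K) (c : K → K → T), (2 : K) ≠ 0 → (∀ x, g^[m] x = x) →
      Good g c → ∀ l : List K, l.length = n → (∀ a ∈ l, g a = a) →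
      (l.map fun a => a * a).sum = -1 → ∀ u v : K, u ≠ 0 → v ≠ 0 → c u v = 0 := by
  induction n with
  | zero =>
    intro K _ g c h2K hgm hc l hl hfix hsum u v hu hv
    rw [List.length_eq_zero_iff] at hl
    rw [hl] at hsum
    exact absurd hsum.symm (neg_ne_zero.mpr one_ne_zero)
  | succ n ih =>
    intro K _ g c h2K hgm hc l hl hfix hsum u v hu hv
    obtain ⟨e, l, rfl⟩ : ∃ e l', l = e :: l' := by
      cases l with
      | nil => simp at hl
      | cons e l' => exact ⟨e, l', rfl⟩
    have hln : l.length = n := by simpa using hl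
    have he : g e = e := hfix e (by simp)
    have hfix' : ∀ a ∈ l, g a = a := fun a ha => hfix a (by simp [ha])
    rw [List.map_cons, List.sum_cons] at hsum
    set d : K := 1 + e * e with hd
    have hgd : g d = d := by rw [hd, map_add, map_one, map_mul, he]
    have hsum' : (l.map fun a => a * a).sum = -d := by rw [hd]; linear_combination hsum
    -- dividing a representation by `s`
    have hdiv : ∀ (L : Type u) [Field L] (φ : K →+* L) (s : L), s * s = φ d → s ≠ 0 →
        ((l.map fun a => φ a / s).map fun a => a * a).sum = -1 := by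
      intro L _ φ s hs hs0
      rw [List.map_map]
      have e1 : ((fun a : L => a * a) ∘ fun a : K => φ a / s) = fun a => (s * s)⁻¹ * φ (a * a) := by
        funext a
        simp only [Function.comp_apply, map_mul]
        field_simp
      rw [e1, List.sum_map_mul_left]
      have e2 : (l.map fun a => φ (a * a)).sum = φ ((l.map fun a => a * a).sum) := by
        rw [map_list_sum, List.map_map]
        rfl
      rw [e2, hsum', map_neg, ← hs]
      field_simp
    by_cases hd0 : d = 0
    · exact level_one hD hG K g c h2K hgm hc he (by rw [hd] at hd0; linear_combination hd0) hu hv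
    by_cases hsq : ∃ s : K, g s = s ∧ s * s = d
    · obtain ⟨s, hs, hsd⟩ := hsq
      have hs0 : s ≠ 0 := by
        rintro rfl
        rw [mul_zero] at hsd
        exact hd0 hsd.symm
      refine ih K g c h2K hgm hc (l.map fun a => (RingHom.id K) a / s) (by simpa using hln) ?_
        (hdiv K (RingHom.id K) s hsd hs0) u v hu hv
      intro a ha
      obtain ⟨b, hb, rfl⟩ := List.mem_map.mp ha
      show g (b / s) = b / s
      rw [map_div₀, hfix' b hb, hs]
    · -- `d` is not a square in `K`
      have hns : ∀ r : K, r * r ≠ d := by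
        intro r hr
        have h1 : (g r - r) * (g r + r) = 0 := by
          have : g r * g r = d := by rw [← map_mul, hr, hgd]
          linear_combination this - hr
        rcases mul_eq_zero.mp h1 with h | h
        · exact hsq ⟨r, sub_eq_zero.mp h, hr⟩
        · have hgr : g r = -r := eq_neg_of_add_eq_zero_left h
          have hit : ∀ k : ℕ, g^[k] r = (-1) ^ k * r := by
            intro k
            induction k with
            | zero => simp
            | succ k ihk =>
              rw [Function.iterate_succ_apply', ihk, map_mul, map_pow, map_neg, map_one, hgr,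
                pow_succ]
              ring
          have h3 := hgm r
          rw [hit, hm.neg_one_pow] at h3
          have h4 : (2 : K) * r = 0 := by linear_combination -h3
          rcases mul_eq_zero.mp h4 with h5 | h5
          · exact h2K h5
          · rw [h5, mul_zero] at hr
            exact hd0 hr.symm
      have hfact : Fact (∀ r : K, r ^ 2 ≠ d + 0 * r) := ⟨fun r h => hns r (by
        rw [zero_mul, add_zero] at h
        rw [← h, pow_two])⟩
      have hqd := hq_of (K := K) (d := d)
      refine climb hc hgd h2 (fun x a ha hxa => hD K g c h2K hgm hc e he x a ha hxa (hqd x)) ?_ hu hv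
      intro c' hc' u' v' hu' hv'
      have hiter : ∀ z : QuadraticAlgebra K d 0, (ext g hgd)^[m] z = z := by
        intro z
        rw [ext_iterate, hgm, hgm]
      let φ : K →+* QuadraticAlgebra K d 0 := algebraMap K (QuadraticAlgebra K d 0)
      have h2K' : (2 : QuadraticAlgebra K d 0) ≠ 0 := by
        have : φ 2 ≠ 0 := (map_ne_zero φ).mpr h2K
        rwa [map_ofNat] at this
      let w : QuadraticAlgebra K d 0 := ⟨0, 1⟩
      have hw : w * w = φ d := by
        apply QuadraticAlgebra.ext
        · show (0 : K) * 0 + d * 1 * 1 = d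
          ring
        · show (0 : K) * 1 + 1 * 0 + 0 * 1 * 1 = 0
          ring
      have hw0 : w ≠ 0 := fun h => one_ne_zero (congrArg QuadraticAlgebra.im h)
      refine ih (QuadraticAlgebra K d 0) (ext g hgd) c' h2K' hiter hc' (l.map fun a => φ a / w)
        (by simpa using hln) ?_ (hdiv _ φ w hw hw0) u' v' hu' hv'
      intro a ha
      obtain ⟨b, hb, rfl⟩ := List.mem_map.mp ha
      have h1 : (ext g hgd) (φ b) = φ b := by
        apply QuadraticAlgebra.ext
        · exact hfix' b hb
        · exact map_zero g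
      have h3 : (ext g hgd) w = w := by
        apply QuadraticAlgebra.ext
        · exact map_zero g
        · exact map_one g
      show (ext g hgd) (φ b / w) = φ b / w
      rw [map_div₀, h1, h3]


theorem genVan5 {T : Type v} [AddCommGroup T] : GenVan.{u} T 5 := by
  intro K _ g c h2K hg hc H u v hu hv
  have h5 : ∀ x, g (g (g (g (g x)))) = x := hg
  refine Good.of_dihedral hc h5 ?_ hu hv
  intro x a b hx ha hb h
  have hg2 : g 2 = 2 := map_ofNat g 2
  have hx0 : x ≠ 0 := by
    rintro rfl
    exact hx (map_zero g)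
  set d : K := a / 2 * (a / 2) - b with hd
  have hgd : g d = d := by rw [hd, map_sub, map_mul, map_div₀, ha, hb, hg2]
  have e : (x + a / 2) * (x + a / 2) - d = x ^ 2 + a * x + b := by rw [hd]; field_simp; ring
  have hga : g (a / 2) = a / 2 := by rw [map_div₀, ha, hg2]
  have h1 := H d hgd (x + a / 2) (a / 2) hga (by
    intro e'
    exact hx0 (by linear_combination e')) (by rw [e]; exact h)
  rw [e, show a / 2 - (x + a / 2) = -x by ring, negl hc.st hc.van hx0 h] at h1
  exact h1

/-- **T_5 from the dihedral maps for `X² - (1 + e²)`**, `-1` a sum of squares in `F`. -/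
theorem eq_zero5_of_dih {T : Type v} [AddCommGroup T] (h2 : ∀ t : T, t + t = 0 → t = 0)
    (hD : DihVan.{u} T 5) {K : Type u} [Field K] {g : K ≃+* K} {c : K → K → T}
    (h2K : (2 : K) ≠ 0) (hc : Good g c) (h5 : ∀ x, g (g (g (g (g x)))) = x)
    (hs : ∃ l : List K, (∀ a ∈ l, g a = a) ∧ (l.map fun a => a * a).sum = -1) {u v : K}
    (hu : u ≠ 0) (hv : v ≠ 0) : c u v = 0 := by
  obtain ⟨l, hl, hsum⟩ := hs
  exact level h2 (by decide) hD genVan5 l.length K g c h2K h5 hc l rfl hl hsum u v hu hv

end Climb

end Pool.Agent.MP_1b9aaa_al
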