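import Mathlib.RingTheory.Valuation.LocalSubring
import Mathlib.Tactic.LinearCombination
import Mathlib.Tactic.FieldSimp

/-!
# MP_1b9aaa_al, T_5: the last step

`E` a field with an involution `t`, `F` its fixed field, `H : E* → T` a homomorphism trivial
on `F*`; `B` a subring of `E`, `Per` and `PT` groups of periods (see `T5G`), and for every
norm-one element `θ` the multiples of `s(κ) = κ - κ⁻¹`, `κ = θ^(2^m)`, by elements of `B`
are in `PT` (see `T5I`).  If `2 ≠ 0`, `√-11 ∈ F`, and `i ∈ F` or `E = F(i)`, then `H = 0`.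
-/

set_option autoImplicit false

namespace Pool.Agent.MP_1b9aaa_al

namespace T5End

variable {E : Type*} [Field E]

section val

/-- An element of `B` which is a unit at every valuation ring above `B` is a unit of `B`. -/
lemma inv_mem {B : Subring E} {β : E} (hβ : β ∈ B)
    (h : ∀ O : ValuationSubring E, B ≤ O.toSubring → ¬ β ∈ O.nonunits) :
    β ≠ 0 ∧ β⁻¹ ∈ B := by
  have key : IsUnit (⟨β, hβ⟩ : B) := by
    by_contra hu
    have hne : Ideal.span {(⟨β, hβ⟩ : B)} ≠ ⊤ := by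
      intro htop
      exact hu (Ideal.span_singleton_eq_top.mp htop)
    obtain ⟨O, hO, hO2⟩ := Ideal.image_subset_nonunits_valuationSubring _ hne
    exact h O hO (hO2 ⟨⟨β, hβ⟩, Ideal.subset_span rfl, rfl⟩)
  obtain ⟨γ, hγ⟩ := isUnit_iff_exists_inv.mp key
  have h1 : β * (γ : E) = 1 := congrArg Subtype.val hγ
  have h0 : β ≠ 0 := by
    rintro rfl
    simp at h1
  refine ⟨h0, ?_⟩
  have : β⁻¹ = γ := inv_eq_of_mul_eq_one_right h1
  rw [this]
  exact γ.2

variable {O : ValuationSubring E}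

lemma one_not_mem : (1 : E) ∉ O.nonunits := by
  rw [ValuationSubring.mem_nonunits_iff, map_one]
  exact lt_irrefl _

lemma mul_mem_nu {a x : E} (ha : a ∈ O) (hx : x ∈ O.nonunits) : a * x ∈ O.nonunits := by
  rw [ValuationSubring.mem_nonunits_iff] at hx ⊢
  rw [← ValuationSubring.valuation_le_one_iff] at ha
  rw [map_mul]
  exact lt_of_le_of_lt (mul_le_of_le_one_left' ha) hx

lemma prime_nu {x y : E} (h : x * y ∈ O.nonunits) : x ∈ O.nonunits ∨ y ∈ O.nonunits := by
  simp only [ValuationSubring.mem_nonunits_iff, map_mul] at h ⊢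
  by_contra hc
  push Not at hc
  exact absurd h (not_lt.mpr (one_le_mul hc.1 hc.2))

lemma sq_nu {x : E} (h : x ^ 2 ∈ O.nonunits) : x ∈ O.nonunits := by
  rw [sq] at h
  rcases prime_nu h with h | h <;> exact h

lemma natCast_mem_O (n : ℕ) : (n : E) ∈ O := natCast_mem O n

/-- an element whose square is `-1` is in `O` -/
lemma mem_of_sq_mem {x : E} (h : x ^ 2 ∈ O) : x ∈ O := by
  rw [← ValuationSubring.valuation_le_one_iff] at h ⊢
  rw [map_pow] at h
  by_contra hc
  push Not at hc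
  exact absurd h (not_le.mpr (one_lt_pow₀ hc two_ne_zero))

variable {t : E ≃+* E}

/-- `O` and its maximal ideal are `t`-stable. -/
lemma t_nu (ht : ∀ x, t (t x) = x) (hU : ∀ x, x * t x = 1 → x ∈ O) {x : E}
    (hx : x ∈ O.nonunits) : t x ∈ O.nonunits := by
  by_cases h0 : x = 0
  · rw [h0, map_zero]; exact O.nonunits.zero_mem
  have ht0 : t x ≠ 0 := fun h => h0 ((map_eq_zero t).mp h)
  have h1 : t x / x ∈ O := by
    apply hU
    rw [map_div₀, ht]
    field_simp
  have := mul_mem_nu h1 hx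
  rwa [div_mul_cancel₀ _ h0] at this

/-- `f² - f + 3 = 0`: `f` is integral. -/
lemma f_mem {f : E} (hf : f ^ 2 - f + 3 = 0) : f ∈ O := by
  have h3 : (3 : E) ∈ O := by exact_mod_cast natCast_mem_O (O := O) 3
  rw [← ValuationSubring.valuation_le_one_iff] at h3 ⊢
  by_contra hc
  push Not at hc
  have h1 : (O.valuation) (f - 1) = O.valuation f := by
    rw [sub_eq_add_neg]
    apply Valuation.map_add_eq_of_lt_left
    rw [Valuation.map_neg, map_one]
    exact hc
  have h2 : f * (f - 1) = -3 := by linear_combination hf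
  have h4 : O.valuation f * O.valuation f ≤ 1 := by
    have := congrArg O.valuation h2
    rw [map_mul, Valuation.map_neg, h1] at this
    rw [this]; exact h3
  have h5 : 1 < O.valuation f * O.valuation f := one_lt_mul_of_lt_of_le hc hc.le
  exact absurd h4 (not_le.mpr h5)

/-- Residue characteristic two: `s(κ) = 1` is impossible. -/
lemma not_s_one (ht : ∀ x, t (t x) = x) (hU : ∀ x, x * t x = 1 → x ∈ O)
    {f κ : E} (hf : f ^ 2 - f + 3 = 0) (htf : t f = f) (hκ : κ * t κ = 1)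
    (h2 : (2 : E) ∈ O.nonunits) (h : κ - t κ - 1 ∈ O.nonunits) : False := by
  have hκO : κ ∈ O := hU κ hκ
  have hfO : f ∈ O := f_mem hf
  have h1 : κ ^ 2 + κ + 1 ∈ O.nonunits := by
    have e : κ ^ 2 + κ + 1 = κ * (κ - t κ - 1) + (κ + 1) * 2 := by linear_combination hκ
    rw [e]
    exact O.nonunits.add_mem (mul_mem_nu hκO h) (mul_mem_nu (O.add_mem _ _ hκO O.one_mem) h2)
  have h3 : (κ - f) * (κ + f + 1) ∈ O.nonunits := by
    have e : (κ - f) * (κ + f + 1) = (κ ^ 2 + κ + 1) - (f - 1) * 2 := by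
      linear_combination -hf
    rw [e]
    exact O.nonunits.sub_mem h1 (mul_mem_nu (O.sub_mem hfO O.one_mem) h2)
  have h4 : κ - t κ ∈ O.nonunits := by
    rcases prime_nu h3 with h | h
    · have h' := t_nu ht hU h
      rw [map_sub, htf] at h'
      have := O.nonunits.sub_mem h h'
      have e : κ - f - (t κ - f) = κ - t κ := by ring
      rwa [e] at this
    · have h' := t_nu ht hU h
      rw [map_add, map_add, htf, map_one] at h'
      have := O.nonunits.sub_mem h h'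
      have e : κ + f + 1 - (t κ + f + 1) = κ - t κ := by ring
      rwa [e] at this
  have h5 := O.nonunits.sub_mem h4 h
  have e : κ - t κ - (κ - t κ - 1) = 1 := by ring
  rw [e] at h5
  exact one_not_mem h5

/-- Unit lemma, `i ∈ F`: `1 + s(κ)²` is a unit. -/
lemma unit_a (ht : ∀ x, t (t x) = x) (hU : ∀ x, x * t x = 1 → x ∈ O)
    {f κ i : E} (hf : f ^ 2 - f + 3 = 0) (htf : t f = f) (hκ : κ * t κ = 1)
    (hi : i ^ 2 = -1) (hti : t i = i) : ¬ 1 + (κ - t κ) ^ 2 ∈ O.nonunits := by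
  intro h
  have hiO : i ∈ O := by
    apply mem_of_sq_mem
    rw [hi]
    exact O.neg_mem _ O.one_mem
  -- common end
  have main : ∀ j : E, j ^ 2 = -1 → t j = j → j ∈ O → κ - t κ - j ∈ O.nonunits → False := by
    intro j hj htj hjO hs
    have h' := t_nu ht hU hs
    rw [map_sub, map_sub, ht, htj] at h'
    have h2j : 2 * j ∈ O.nonunits := by
      have := O.nonunits.neg_mem (O.nonunits.add_mem hs h')
      have e : -(κ - t κ - j + (t κ - κ - j)) = 2 * j := by ring
      rwa [e] at this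
    have h2 : (2 : E) ∈ O.nonunits := by
      have := O.nonunits.neg_mem (mul_mem_nu hjO h2j)
      have e : -(j * (2 * j)) = 2 := by linear_combination (-2) * hj
      rwa [e] at this
    have hj1 : j - 1 ∈ O.nonunits := by
      apply sq_nu
      have e : (j - 1) ^ 2 = -(j * 2) := by linear_combination hj
      rw [e]
      exact O.nonunits.neg_mem (mul_mem_nu hjO h2)
    refine not_s_one ht hU hf htf hκ h2 ?_
    have := O.nonunits.add_mem hs hj1
    have e : κ - t κ - j + (j - 1) = κ - t κ - 1 := by ring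
    rwa [e] at this
  have h1 : (κ - t κ - i) * (κ - t κ - -i) ∈ O.nonunits := by
    have e : (κ - t κ - i) * (κ - t κ - -i) = 1 + (κ - t κ) ^ 2 := by linear_combination -hi
    rwa [e]
  rcases prime_nu h1 with h1 | h1
  · exact main i hi hti hiO h1
  · exact main (-i) (by rw [neg_sq, hi]) (by rw [map_neg, hti]) (O.neg_mem _ hiO) h1

/-- Unit lemma, `E = F(i)`. -/
lemma unit_b (ht : ∀ x, t (t x) = x) (hU : ∀ x, x * t x = 1 → x ∈ O)
    {r κ i s0 : E} (h25 : (5 : E) ≠ 0) (h2' : (2 : E) ≠ 0)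
    (hr : r ^ 2 = -11) (htr : t r = r) (hκ : κ * t κ = 1)
    (hi : i ^ 2 = -1) (hti : t i = -i) (hs0 : κ - t κ = i * s0) :
    ¬ (1 + s0 ^ 2 * ((-47 + 9 * r) / 25)) ^ 2 + (s0 ^ 2 * ((29 + 12 * r) / 25)) ^ 2
      ∈ O.nonunits := by
  intro h
  have hi0 : i ≠ 0 := by
    rintro rfl
    norm_num at hi
  have hiO : i ∈ O := by
    apply mem_of_sq_mem
    rw [hi]
    exact O.neg_mem _ O.one_mem
  have hnat : ∀ n : ℕ, (n : E) ∈ O := fun n => natCast_mem_O n
  have hrO : r ∈ O := by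
    apply mem_of_sq_mem
    rw [hr]
    exact O.neg_mem _ (by exact_mod_cast hnat 11)
  have hκO : κ ∈ O := hU κ hκ
  have htκO : t κ ∈ O := hU (t κ) (by rw [ht, mul_comm]; exact hκ)
  have hsO : κ - t κ ∈ O := O.sub_mem hκO htκO
  have hs0e : s0 = -(i * (κ - t κ)) := by rw [hs0]; linear_combination s0 * hi
  have hs0O : s0 ∈ O := by
    rw [hs0e]
    exact O.neg_mem _ (O.mul_mem _ _ hiO hsO)
  have hts0 : t s0 = s0 := by
    rw [hs0e, map_neg, map_mul, map_sub, ht, hti]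
    ring
  have htn : ∀ n : ℕ, t (n : E) = n := fun n => map_natCast t n
  have ht2 : t 2 = 2 := by exact_mod_cast htn 2
  have ht25 : t 25 = 25 := by exact_mod_cast htn 25
  have htw1 : t (1 + s0 ^ 2 * ((-47 + 9 * r) / 25)) = 1 + s0 ^ 2 * ((-47 + 9 * r) / 25) := by
    have h9 : t 9 = 9 := by exact_mod_cast htn 9
    have h47 : t 47 = 47 := by exact_mod_cast htn 47
    rw [map_add, map_one, map_mul, map_pow, hts0, map_div₀, map_add, map_neg, map_mul, h9, h47,
      htr, ht25]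
  have htw2 : t (s0 ^ 2 * ((29 + 12 * r) / 25)) = s0 ^ 2 * ((29 + 12 * r) / 25) := by
    have h9 : t 12 = 12 := by exact_mod_cast htn 12
    have h47 : t 29 = 29 := by exact_mod_cast htn 29
    rw [map_mul, map_pow, hts0, map_div₀, map_add, map_mul, h9, h47, htr, ht25]
  -- splitting of sums of two fixed squares
  have split : ∀ a b : E, t a = a → t b = b → a ^ 2 + b ^ 2 ∈ O.nonunits →
      2 * a ∈ O.nonunits ∧ 2 * b ∈ O.nonunits := by
    intro a b hta htb hab
    have h1 : (a + i * b) * (a - i * b) ∈ O.nonunits := by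
      have e : (a + i * b) * (a - i * b) = a ^ 2 + b ^ 2 := by
        linear_combination (-b ^ 2) * hi
      rwa [e]
    have h2 : a + i * b ∈ O.nonunits ∧ a - i * b ∈ O.nonunits := by
      rcases prime_nu h1 with h1 | h1
      · refine ⟨h1, ?_⟩
        have h' := t_nu ht hU h1
        rw [map_add, map_mul, hta, htb, hti] at h'
        have e : a + -i * b = a - i * b := by ring
        rwa [e] at h'
      · refine ⟨?_, h1⟩
        have h' := t_nu ht hU h1
        rw [map_sub, map_mul, hta, htb, hti] at h'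
        have e : a - -i * b = a + i * b := by ring
        rwa [e] at h'
    constructor
    · have := O.nonunits.add_mem h2.1 h2.2
      have e : a + i * b + (a - i * b) = 2 * a := by ring
      rwa [e] at this
    · have := mul_mem_nu hiO (O.nonunits.sub_mem h2.2 h2.1)
      have e : i * (a - i * b - (a + i * b)) = 2 * b := by linear_combination (-2 * b) * hi
      rwa [e] at this
  -- five is a unit
  have h5 : (5 : E) ∉ O.nonunits := by
    intro h5
    have h1 := (split 2 1 ht2 (map_one t) (by norm_num; exact h5)).2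
    rw [mul_one] at h1
    have h2 := mul_mem_nu (hnat 2) h1
    have h3 := O.nonunits.sub_mem h5 h2
    have e : (5 : E) - ((2 : ℕ) : E) * 2 = 1 := by norm_num
    rw [e] at h3
    exact one_not_mem h3
  have h5inv : (5 : E)⁻¹ ∈ O := by
    have h5' : ¬ O.valuation (5 : E) < 1 := by
      rwa [← ValuationSubring.mem_nonunits_iff]
    rw [← ValuationSubring.valuation_le_one_iff, map_inv₀]
    push Not at h5'
    exact inv_le_one_of_one_le₀ h5'
  have h25inv : (25 : E)⁻¹ ∈ O := by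
    have e : (25 : E)⁻¹ = 5⁻¹ * 5⁻¹ := by rw [← mul_inv]; norm_num
    rw [e]; exact O.mul_mem _ _ h5inv h5inv
  have h25' : (25 : E) ≠ 0 := by
    have : (25 : E) = 5 * 5 := by norm_num
    rw [this]; exact mul_ne_zero h25 h25
  have hw1O : (-47 + 9 * r) / 25 ∈ O := by
    rw [div_eq_mul_inv]
    refine O.mul_mem _ _ (O.add_mem _ _ (O.neg_mem _ ?_) (O.mul_mem _ _ ?_ hrO)) h25inv
    · exact_mod_cast hnat 47
    · exact_mod_cast hnat 9
  have hw2O : (29 + 12 * r) / 25 ∈ O := by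
    rw [div_eq_mul_inv]
    refine O.mul_mem _ _ (O.add_mem _ _ ?_ (O.mul_mem _ _ ?_ hrO)) h25inv
    · exact_mod_cast hnat 29
    · exact_mod_cast hnat 12
  have hsp := split (1 + s0 ^ 2 * ((-47 + 9 * r) / 25)) (s0 ^ 2 * ((29 + 12 * r) / 25))
    htw1 htw2 h
  by_cases h2 : (2 : E) ∈ O.nonunits
  · -- residue characteristic two
    have h1 : (1 + s0 ^ 2 * ((-47 + 9 * r) / 25)) + s0 ^ 2 * ((29 + 12 * r) / 25)
        ∈ O.nonunits := by
      apply sq_nu
      have e : ((1 + s0 ^ 2 * ((-47 + 9 * r) / 25)) + s0 ^ 2 * ((29 + 12 * r) / 25)) ^ 2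
          = ((1 + s0 ^ 2 * ((-47 + 9 * r) / 25)) ^ 2 + (s0 ^ 2 * ((29 + 12 * r) / 25)) ^ 2)
            + ((1 + s0 ^ 2 * ((-47 + 9 * r) / 25)) * (s0 ^ 2 * ((29 + 12 * r) / 25))) * 2 := by
        ring
      rw [e]
      refine O.nonunits.add_mem h (mul_mem_nu (O.mul_mem _ _ ?_ ?_) h2)
      · exact O.add_mem _ _ O.one_mem (O.mul_mem _ _ (O.pow_mem hs0O 2) hw1O)
      · exact O.mul_mem _ _ (O.pow_mem hs0O 2) hw2O
    -- f = (1 + r)/2
    have hf : ((1 + r) / 2) ^ 2 - ((1 + r) / 2) + 3 = 0 := by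
      field_simp
      linear_combination hr
    have hfO : (1 + r) / 2 ∈ O := f_mem hf
    have h3 : 1 + s0 ^ 2 ∈ O.nonunits := by
      have e : 1 + s0 ^ 2 = ((1 + s0 ^ 2 * ((-47 + 9 * r) / 25)) +
          s0 ^ 2 * ((29 + 12 * r) / 25)) -
          (s0 ^ 2 * 25⁻¹ * (-32 + 21 * ((1 + r) / 2))) * 2 := by
        field_simp
        ring
      rw [e]
      refine O.nonunits.sub_mem h1 (mul_mem_nu ?_ h2)
      refine O.mul_mem _ _ (O.mul_mem _ _ (O.pow_mem hs0O 2) h25inv) (O.add_mem _ _ ?_ ?_)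
      · exact O.neg_mem _ (by exact_mod_cast hnat 32)
      · exact O.mul_mem _ _ (by exact_mod_cast hnat 21) hfO
    have h4 : κ - t κ - 1 ∈ O.nonunits := by
      apply sq_nu
      have e : (κ - t κ - 1) ^ 2 = -(1 + s0 ^ 2) + (1 - (κ - t κ)) * 2 +
          ((κ - t κ) ^ 2 + s0 ^ 2) := by ring
      have e2 : (κ - t κ) ^ 2 + s0 ^ 2 = 0 := by
        rw [hs0]; linear_combination s0 ^ 2 * hi
      rw [e, e2, add_zero]
      exact O.nonunits.add_mem (O.nonunits.neg_mem h3)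
        (mul_mem_nu (O.sub_mem O.one_mem hsO) h2)
    exact not_s_one ht hU hf (by rw [map_div₀, map_add, map_one, htr, ht2]) hκ h2 h4
  · -- residue characteristic not two
    have hA := (prime_nu hsp.1).resolve_left h2
    have hB := (prime_nu hsp.2).resolve_left h2
    have h97 : (97 : E) ∉ O.nonunits := by
      intro h97
      have h1 := (split 9 4 (by exact_mod_cast htn 9) (by exact_mod_cast htn 4)
        (by norm_num; exact h97)).2
      have e : (2 : E) * 4 = 2 ^ 3 := by norm_num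
      rw [e] at h1
      have h3 : (2 : E) * 2 ^ 2 ∈ O.nonunits := by
        have e : (2 : E) * 2 ^ 2 = 2 ^ 3 := by norm_num
        rwa [e]
      rcases prime_nu h3 with h3 | h3
      · exact h2 h3
      · exact h2 (sq_nu h3)
    rcases prime_nu hB with hs | hw
    · have h1 := O.nonunits.sub_mem hA (mul_mem_nu hw1O hs)
      have e : 1 + s0 ^ 2 * ((-47 + 9 * r) / 25) - (-47 + 9 * r) / 25 * s0 ^ 2 = 1 := by ring
      rw [e] at h1
      exact one_not_mem h1
    · have h1 : (29 - 12 * r) * ((29 + 12 * r) / 25) ∈ O.nonunits := by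
        refine mul_mem_nu (O.sub_mem ?_ (O.mul_mem _ _ ?_ hrO)) hw
        · exact_mod_cast hnat 29
        · exact_mod_cast hnat 12
      have e : (29 - 12 * r) * ((29 + 12 * r) / 25) = 97 := by
        field_simp
        linear_combination (-144) * hr
      rw [e] at h1
      exact h97 h1

end val

section core

variable {T : Type*} [AddCommGroup T]

/-- The data from `T5G` and `T5I`. -/
structure Data (t : E ≃+* E) (H : E → T) (B : Subring E) (Per PT : AddSubgroup E) : Prop where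
  ht : ∀ x, t (t x) = x
  hH : ∀ x y, x ≠ 0 → y ≠ 0 → H (x * y) = H x + H y
  hF : ∀ x, x ≠ 0 → t x = x → H x = 0
  h2T : ∀ a : T, a + a = 0 → a = 0
  hU : ∀ x, x * t x = 1 → x ∈ B
  hB : ∀ b ∈ B, ∀ l ∈ PT, b * l ∈ PT
  hPT : ∀ l ∈ PT, ∀ θ, θ * t θ = 1 → l * θ - t (l * θ) ∈ Per
  hPer : ∀ p ∈ Per, ∀ u, u ≠ 0 → H (u + p * (u - t u)) = H u

variable {t : E ≃+* E} {H : E → T} {B : Subring E} {Per PT : AddSubgroup E}

namespace Data

variable (D : Data t H B Per PT)

include D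

lemma H_one : H 1 = 0 := D.hF 1 one_ne_zero (map_one t)

lemma H_t {x : E} (hx : x ≠ 0) : H (t x) = -H x := by
  have htx : t x ≠ 0 := fun h => hx ((map_eq_zero t).mp h)
  have h1 : H (x * t x) = 0 := D.hF _ (mul_ne_zero hx htx) (by rw [map_mul, D.ht, mul_comm])
  rw [D.hH _ _ hx htx] at h1
  exact (neg_eq_of_add_eq_zero_right h1).symm

lemma H_mul_fix {x f : E} (hx : x ≠ 0) (hf : f ≠ 0) (htf : t f = f) : H (x * f) = H x := by
  rw [D.hH _ _ hx hf, D.hF f hf htf, add_zero]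

/-- Multiples of `s(κ₁²)` by fixed elements of `B` are periods. -/
lemma per_sq {k c : E} (hk : k * t k = 1) (hI : ∀ b ∈ B, (k - t k) * b ∈ PT) (hc : c ∈ B)
    (htc : t c = c) : (k ^ 2 - (t k) ^ 2) * c ∈ Per := by
  have hkB : k ∈ B := D.hU k hk
  have h1 := D.hPT _ (hI _ (B.mul_mem hkB hc)) 1 (by simp)
  have e : (k - t k) * (k * c) * 1 - t ((k - t k) * (k * c) * 1) = (k ^ 2 - (t k) ^ 2) * c := by
    rw [mul_one, map_mul, map_mul, map_sub, D.ht, htc]
    ring
  rwa [e] at h1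

/-- `H(1 + c s) = 0` if `c s` is a period. -/
lemma step3 (h2 : (2 : E) ≠ 0) {s c : E} (hs : t s = -s) (hs0 : s ≠ 0) (htc : t c = c)
    (hp : s * c ∈ Per) : 1 + c * s ≠ 0 ∧ H (1 + c * s) = 0 := by
  have hne : ∀ e : E, t e = -e → 1 + e ≠ 0 := by
    intro e he h
    have h1 : t (1 + e) = 0 := by rw [h, map_zero]
    rw [map_add, map_one, he] at h1
    apply h2
    linear_combination h + h1
  have hcs : t (c * s) = -(c * s) := by rw [map_mul, htc, hs]; ring
  have hA := hne _ hcs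
  have hA' : 1 - c * s ≠ 0 := by
    have := hne (-(c * s)) (by rw [map_neg, hcs])
    rwa [← sub_eq_add_neg] at this
  refine ⟨hA, ?_⟩
  have h1 := D.hPer _ (Per.neg_mem hp) ((1 + c * s) * s) (mul_ne_zero hA hs0)
  have e : (1 + c * s) * s + -(s * c) * ((1 + c * s) * s - t ((1 + c * s) * s))
      = (1 - c * s) * s := by
    rw [map_mul, map_add, map_one, hcs, hs]
    ring
  rw [e, D.hH _ _ hA' hs0, D.hH _ _ hA hs0] at h1
  have h2 : H (1 - c * s) = -H (1 + c * s) := by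
    have := D.H_t hA
    rw [map_add, map_one, hcs, ← sub_eq_add_neg] at this
    exact this
  have h3 : H (1 - c * s) = H (1 + c * s) := add_right_cancel h1
  rw [h2] at h3
  apply D.h2T
  rw [← h3, h3]
  nth_rw 1 [← h3]
  exact neg_add_cancel _

/-- The move `κ⁴ → ε_c` with centre `κ³`. -/
lemma step4 (h2 : (2 : E) ≠ 0) {k c1 Q : E} (hk : k * t k = 1)
    (hI : ∀ b ∈ B, (k - t k) * b ∈ PT) (hc1 : c1 ∈ B) (htc1 : t c1 = c1)
    (hQ0 : Q ≠ 0) (hQB : Q⁻¹ ∈ B)
    (hQ : Q = 1 + (k ^ 2 - (t k) ^ 2) ^ 2 +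
      c1 * (k ^ 2 - (t k) ^ 2) ^ 2 * (k ^ 2 + (t k) ^ 2 - 1)) :
    H (k ^ 2) = 0 := by
  have hkB : k ∈ B := D.hU k hk
  have htkB : t k ∈ B := D.hU (t k) (by rw [D.ht, mul_comm]; exact hk)
  obtain ⟨κ, hκ⟩ : ∃ κ, κ = k ^ 2 := ⟨_, rfl⟩
  obtain ⟨y, hy⟩ : ∃ y, y = (t k) ^ 2 := ⟨_, rfl⟩
  have hκy : κ * y = 1 := by rw [hκ, hy, ← mul_pow, hk, one_pow]
  have htκ : t κ = y := by rw [hκ, hy, map_pow]
  have hty : t y = κ := by rw [hκ, hy, map_pow, D.ht]
  have hκB : κ ∈ B := by rw [hκ]; exact B.pow_mem hkB 2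
  have hyB : y ∈ B := by rw [hy]; exact B.pow_mem htkB 2
  rw [← hκ, ← hy] at hQ
  rw [← hκ]
  have hκ0 : κ ≠ 0 := left_ne_zero_of_mul_eq_one hκy
  have hy0 : y ≠ 0 := right_ne_zero_of_mul_eq_one hκy
  have hs : t (κ - y) = -(κ - y) := by rw [map_sub, htκ, hty]; ring
  have hper : ∀ c ∈ B, t c = c → (κ - y) * c ∈ Per := by
    intro c hc htc
    rw [hκ, hy]
    exact D.per_sq hk hI hc htc
  by_cases hs0 : κ - y = 0
  · exact D.hF κ hκ0 (by rw [htκ]; linear_combination -hs0)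
  have h1y : 1 + y ≠ 0 := by
    intro h
    apply hs0
    have h1 : y = -1 := by linear_combination h
    rw [h1] at hκy ⊢
    linear_combination -hκy
  have htr2 : t (κ + y) = κ + y := by rw [map_add, htκ, hty]; ring
  have htQ : t Q = Q := by
    rw [hQ]
    simp only [map_add, map_sub, map_mul, map_pow, map_one, htκ, hty, htc1]
    ring
  -- c = 1 + (t - 2) c1
  obtain ⟨c, hc⟩ : ∃ c, c = 1 + (κ + y - 2) * c1 := ⟨_, rfl⟩
  have h2B : (2 : E) ∈ B := by exact_mod_cast natCast_mem B 2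
  have ht2 : t 2 = 2 := by exact_mod_cast map_natCast t 2
  have hcB : c ∈ B := by
    rw [hc]
    exact B.add_mem B.one_mem (B.mul_mem (B.sub_mem (B.add_mem hκB hyB) h2B) hc1)
  have htc : t c = c := by
    rw [hc, map_add, map_one, map_mul, map_sub, htr2, htc1, ht2]
  obtain ⟨hA, hHA⟩ := D.step3 h2 hs hs0 htc (hper c hcB htc)
  -- p = s P1 / Q
  obtain ⟨P1, hP1⟩ : ∃ P1, P1 = -((κ + y + 1) + c1 * ((κ + y) ^ 2 - 2)) := ⟨_, rfl⟩
  have hP1B : P1 ∈ B := by
    rw [hP1]
    refine B.neg_mem (B.add_mem (B.add_mem (B.add_mem hκB hyB) B.one_mem) (B.mul_mem hc1 ?_))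
    exact B.sub_mem (B.pow_mem (B.add_mem hκB hyB) 2) h2B
  have htP1 : t P1 = P1 := by
    rw [hP1, map_neg, map_add, map_add, htr2, map_one, map_mul, htc1, map_sub, map_pow, htr2,
      ht2]
  have hp : (κ - y) * (P1 * Q⁻¹) ∈ Per :=
    hper _ (B.mul_mem hP1B hQB) (by rw [map_mul, htP1, map_inv₀, htQ])
  have h1κ : 1 + κ ≠ 0 := by
    intro h
    apply h1y
    have : y * (1 + κ) = 0 := by rw [h, mul_zero]
    linear_combination this - hκy
  have hu := D.hPer _ hp (1 + κ) h1κ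
  have e : 1 + κ + (κ - y) * (P1 * Q⁻¹) * (1 + κ - t (1 + κ))
      = ((1 + y) * y * (1 + c * (κ - y))) * Q⁻¹ := by
    rw [map_add, map_one, htκ]
    have e1 : (1 + κ) * Q + (κ - y) * P1 * (κ - y) = (1 + y) * y * (1 + c * (κ - y)) := by
      rw [hQ, hP1, hc]
      linear_combination (-1 - κ + y + y ^ 2 * c1 - κ ^ 2 * c1) * hκy
    field_simp
    linear_combination e1
  rw [e, D.H_mul_fix (mul_ne_zero (mul_ne_zero h1y hy0) hA) (inv_ne_zero hQ0)
    (by rw [map_inv₀, htQ]), D.hH _ _ (mul_ne_zero h1y hy0) hA, hHA, add_zero,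
    D.hH _ _ h1y hy0] at hu
  have hHy : H y = -H κ := by
    have := D.H_t hκ0
    rwa [htκ] at this
  have e2 : H (1 + κ) = H κ + H (1 + y) := by
    rw [← D.hH _ _ hκ0 h1y]
    congr 1
    linear_combination -hκy
  rw [e2, hHy] at hu
  apply D.h2T
  have e4 : H κ + (H (1 + y) + -H κ) - H (1 + y) = 0 := by abel
  have e5 : H κ + (H κ + H (1 + y)) - H (1 + y) = H κ + H κ := by abel
  rw [hu, e5] at e4
  exact e4

/-- `H(θ) = 0` for every norm-one element if all `κ² = θ^(2^(m+1))` are killed. -/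
lemma finish (hκ : ∀ k, k * t k = 1 → (∀ b ∈ B, (k - t k) * b ∈ PT) → H (k ^ 2) = 0)
    (hI : ∀ θ, θ * t θ = 1 → ∃ m : ℕ, ∀ b ∈ B, (θ ^ 2 ^ m - (θ ^ 2 ^ m)⁻¹) * b ∈ PT)
    (x : E) (hx : x ≠ 0) : H x = 0 := by
  have pow2 : ∀ (n : ℕ) (z : E), z ≠ 0 → H (z ^ 2 ^ n) = 0 → H z = 0 := by
    intro n
    induction n with
    | zero => intro z _ h; simpa using h
    | succ n ih =>
      intro z hz h
      apply ih z hz
      apply D.h2T
      have hz' : z ^ 2 ^ n ≠ 0 := pow_ne_zero _ hz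
      rw [← D.hH _ _ hz' hz', ← h]
      congr 1
      rw [pow_succ 2 n, pow_mul, sq]
  have hU1 : ∀ θ, θ * t θ = 1 → H θ = 0 := by
    intro θ hθ
    obtain ⟨m, hm⟩ := hI θ hθ
    have hθ0 : θ ≠ 0 := left_ne_zero_of_mul_eq_one hθ
    have h1 : (θ ^ 2 ^ m) * t (θ ^ 2 ^ m) = 1 := by rw [map_pow, ← mul_pow, hθ, one_pow]
    have h2 : (θ ^ 2 ^ m)⁻¹ = t (θ ^ 2 ^ m) := inv_eq_of_mul_eq_one_right h1
    rw [h2] at hm
    have h3 := hκ _ h1 hm
    apply pow2 (m + 1) θ hθ0
    rw [← h3]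
    congr 1
    rw [pow_succ 2 m, pow_mul]
  have htx : t x ≠ 0 := fun h => hx ((map_eq_zero t).mp h)
  have h1 : H (x / t x) = 0 := hU1 _ (by rw [map_div₀, D.ht]; field_simp)
  have h2 : H (x / t x * t x) = H x := by rw [div_mul_cancel₀ _ htx]
  rw [D.hH _ _ (div_ne_zero hx htx) htx, h1, D.H_t hx, zero_add] at h2
  apply D.h2T
  nth_rw 1 [← h2]
  exact neg_add_cancel _

/-- **The end of T_5**, `√-11 ∈ F`, `i ∈ F` or `E = F(i)`. -/
theorem end_zero (h2 : (2 : E) ≠ 0)
    (hI : ∀ θ, θ * t θ = 1 → ∃ m : ℕ, ∀ b ∈ B, (θ ^ 2 ^ m - (θ ^ 2 ^ m)⁻¹) * b ∈ PT)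
    (hr : ∃ r : E, t r = r ∧ r ^ 2 = -11) (hi : ∃ i : E, i ^ 2 = -1 ∧ (t i = i ∨ t i = -i))
    (x : E) (hx : x ≠ 0) : H x = 0 := by
  obtain ⟨r, htr, hr⟩ := hr
  obtain ⟨i, hi, hti⟩ := hi
  have htn : ∀ n : ℕ, t (n : E) = n := fun n => map_natCast t n
  have hnB : ∀ n : ℕ, (n : E) ∈ B := fun n => natCast_mem B n
  have ht2 : t 2 = 2 := by exact_mod_cast htn 2
  have ht5 : t 5 = 5 := by exact_mod_cast htn 5
  have hUO : ∀ O : ValuationSubring E, B ≤ O.toSubring → ∀ x, x * t x = 1 → x ∈ O :=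
    fun O hO x hx => hO (D.hU x hx)
  have hf : ((1 + r) / 2) ^ 2 - ((1 + r) / 2) + 3 = 0 := by
    field_simp
    linear_combination hr
  have htf : t ((1 + r) / 2) = (1 + r) / 2 := by rw [map_div₀, map_add, map_one, htr, ht2]
  refine D.finish ?_ hI x hx
  intro k hk hkI
  have hkB : k ∈ B := D.hU k hk
  have htkB : t k ∈ B := D.hU (t k) (by rw [D.ht, mul_comm]; exact hk)
  have hk2 : k ^ 2 * t (k ^ 2) = 1 := by rw [map_pow, ← mul_pow, hk, one_pow]
  have hκB : k ^ 2 ∈ B := B.pow_mem hkB 2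
  have hyB : (t k) ^ 2 ∈ B := B.pow_mem htkB 2
  by_cases hfix : t i = i
  · -- `i ∈ F`
    have hQB : 1 + (k ^ 2 - (t k) ^ 2) ^ 2 ∈ B :=
      B.add_mem B.one_mem (B.pow_mem (B.sub_mem hκB hyB) 2)
    obtain ⟨hQ0, hQi⟩ := inv_mem hQB (fun O hO => by
      have := unit_a D.ht (hUO O hO) hf htf hk2 hi hfix
      rwa [map_pow] at this)
    exact D.step4 h2 hk hkI (c1 := 0) B.zero_mem (map_zero t) hQ0 hQi (by ring)
  · -- `E = F(i)`
    have hti' : t i = -i := hti.resolve_left hfix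
    have h5 : (5 : E) ≠ 0 := by
      intro h5
      have h1 : (i - 2) * (i + 2) = 0 := by linear_combination hi - h5
      rcases mul_eq_zero.mp h1 with h1 | h1
      · apply hfix
        have : i = 2 := by linear_combination h1
        rw [this, ht2]
      · apply hfix
        have : i = -2 := by linear_combination h1
        rw [this, map_neg, ht2]
    have hiB : i ∈ B := D.hU i (by rw [hti']; linear_combination -hi)
    have h5B : (5 : E)⁻¹ ∈ B := by
      have h3 : t 3 = 3 := by exact_mod_cast htn 3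
      have h4 : t 4 = 4 := by exact_mod_cast htn 4
      have hz : (3 + 4 * i) / 5 ∈ B := D.hU _ (by
        rw [map_div₀, map_add, map_mul, h3, h4, ht5, hti']
        field_simp
        linear_combination (-16) * hi)
      have hz' : (3 - 4 * i) / 5 ∈ B := D.hU _ (by
        rw [map_div₀, map_sub, map_mul, h3, h4, ht5, hti']
        field_simp
        linear_combination (-16) * hi)
      have e : (5 : E)⁻¹ = (3 + 4 * i) / 5 + (3 - 4 * i) / 5 - 1 := by
        field_simp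
        ring
      rw [e]
      exact B.sub_mem (B.add_mem hz hz') B.one_mem
    have hrB : r ∈ B := by
      have h6 : t 6 = 6 := by exact_mod_cast htn 6
      have hz : (6 + r * i) / 5 ∈ B := D.hU _ (by
        rw [map_div₀, map_add, map_mul, h6, htr, ht5, hti']
        field_simp
        linear_combination (-r ^ 2) * hi + hr)
      have e : r = -(i * (5 * ((6 + r * i) / 5) - 6)) := by
        field_simp
        linear_combination r * hi
      rw [e]
      refine B.neg_mem (B.mul_mem hiB (B.sub_mem (B.mul_mem ?_ hz) ?_))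
      · exact_mod_cast hnB 5
      · exact_mod_cast hnB 6
    have h25 : (25 : E) ≠ 0 := by
      have : (25 : E) = 5 * 5 := by norm_num
      rw [this]; exact mul_ne_zero h5 h5
    have h25B : (25 : E)⁻¹ ∈ B := by
      have e : (25 : E)⁻¹ = 5⁻¹ * 5⁻¹ := by rw [← mul_inv]; norm_num
      rw [e]; exact B.mul_mem h5B h5B
    obtain ⟨κ, hκ⟩ : ∃ κ, κ = k ^ 2 := ⟨_, rfl⟩
    obtain ⟨y, hy⟩ : ∃ y, y = (t k) ^ 2 := ⟨_, rfl⟩
    have hκy : κ * y = 1 := by rw [hκ, hy, ← mul_pow, hk, one_pow]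
    have htκ : t κ = y := by rw [hκ, hy, map_pow]
    have hty : t y = κ := by rw [hκ, hy, map_pow, D.ht]
    rw [← hκ] at hk2 hκB
    rw [← hy] at hyB
    have h23 : t 23 = 23 := by exact_mod_cast htn 23
    have ht6 : t 6 = 6 := by exact_mod_cast htn 6
    have ht25 : t 25 = 25 := by exact_mod_cast htn 25
    have hc1B : (1 + κ + y) * ((23 - 6 * r) / 25) ∈ B := by
      refine B.mul_mem (B.add_mem (B.add_mem B.one_mem hκB) hyB) ?_
      rw [div_eq_mul_inv]
      refine B.mul_mem (B.sub_mem ?_ (B.mul_mem ?_ hrB)) h25B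
      · exact_mod_cast hnB 23
      · exact_mod_cast hnB 6
    have htc1 : t ((1 + κ + y) * ((23 - 6 * r) / 25)) = (1 + κ + y) * ((23 - 6 * r) / 25) := by
      rw [map_mul, map_add, map_add, map_one, htκ, hty, map_div₀, map_sub, map_mul, h23, ht6,
        htr, ht25]
      ring
    obtain ⟨Q, hQ⟩ : ∃ Q, Q = 1 + (κ - y) ^ 2 +
      (1 + κ + y) * ((23 - 6 * r) / 25) * (κ - y) ^ 2 * (κ + y - 1) := ⟨_, rfl⟩
    have hQB : Q ∈ B := by
      rw [hQ]
      refine B.add_mem (B.add_mem B.one_mem (B.pow_mem (B.sub_mem hκB hyB) 2)) ?_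
      exact B.mul_mem (B.mul_mem hc1B (B.pow_mem (B.sub_mem hκB hyB) 2))
        (B.sub_mem (B.add_mem hκB hyB) B.one_mem)
    have hs0 : κ - t κ = i * (-(i * (κ - y))) := by rw [htκ]; linear_combination (κ - y) * hi
    have hQe : Q = (1 + (-(i * (κ - y))) ^ 2 * ((-47 + 9 * r) / 25)) ^ 2 +
        ((-(i * (κ - y))) ^ 2 * ((29 + 12 * r) / 25)) ^ 2 := by
      have e1 : (-(i * (κ - y))) ^ 2 = -(κ - y) ^ 2 := by linear_combination (κ - y) ^ 2 * hi
      have e2 : ((-47 + 9 * r) / 25) ^ 2 + ((29 + 12 * r) / 25) ^ 2 = (23 - 6 * r) / 25 := by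
        field_simp
        linear_combination 225 * hr
      have e3 : 1 + 2 * ((-47 + 9 * r) / 25) + 3 * ((23 - 6 * r) / 25) = 0 := by
        field_simp
        ring
      have e4 : (κ - y) ^ 2 = (κ + y) ^ 2 - 4 := by linear_combination (-4) * hκy
      rw [hQ, e1]
      obtain ⟨w1, hw1⟩ : ∃ w1, w1 = (-47 + 9 * r) / 25 := ⟨_, rfl⟩
      obtain ⟨w2, hw2⟩ : ∃ w2, w2 = (29 + 12 * r) / 25 := ⟨_, rfl⟩
      obtain ⟨n, hn⟩ : ∃ n, n = (23 - 6 * r) / 25 := ⟨_, rfl⟩
      rw [← hw1, ← hw2, ← hn] at e2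
      rw [← hw1, ← hn] at e3
      rw [← hw1, ← hw2, ← hn]
      linear_combination (κ - y) ^ 2 * e3 - (κ - y) ^ 4 * e2 - (n * (κ - y) ^ 2) * e4
    obtain ⟨hQ0, hQi⟩ := inv_mem hQB (fun O hO => by
      rw [hQe]
      exact unit_b D.ht (hUO O hO) h5 h2 hr htr hk2 hi hti' hs0)
    exact D.step4 h2 hk hkI hc1B htc1 hQ0 hQi (by rw [← hκ, ← hy]; exact hQ)

end Data

end core

end T5End

end Pool.Agent.MP_1b9aaa_al
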