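import Pool.Agent.Lib.MP_1b9aaa_al.T5G
import Pool.Agent.Lib.MP_1b9aaa_al.T5I
import Pool.Agent.Lib.MP_1b9aaa_al.T5End
import Pool.Agent.Lib.MP_1b9aaa_al.T5M

/-!
# MP_1b9aaa_al, T_5: the abstract core

`dat`: the relation between 5-tuples of norm one elements gives the data of `T5G`;
`exists_ring`: if `H ≠ 0` there is a ring `B` of multipliers as in `T5I`, with the output of `T5I`.
`core`: `H = 0` if `√-11 ∈ F` and (`i ∈ F` or `E = F(i)`).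
-/

set_option autoImplicit false

namespace Pool.Agent.MP_1b9aaa_al.T5

variable {E T : Type*} [Field E] [AddCommGroup T]

/-- the relation between 5-tuples -/
def Star5 (t : E ≃+* E) (H : E → T) (e E5 : E) : Prop :=
  ∀ e1 e2 e3 e4 e5 f1 f2 f3 f4 f5 : E, e1 * t e1 = 1 → e2 * t e2 = 1 → e3 * t e3 = 1 →
      e4 * t e4 = 1 → e5 * t e5 = 1 → f1 * t f1 = 1 → f2 * t f2 = 1 → f3 * t f3 = 1 →
      f4 * t f4 = 1 → f5 * t f5 = 1 → e1 * e2 * e3 * e4 * e5 = E5 → f1 * f2 * f3 * f4 * f5 = E5 →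
      e1 + e2 + e3 + e4 + e5 - e ≠ 0 → f1 + f2 + f3 + f4 + f5 - e ≠ 0 →
      H (e1 + e2 + e3 + e4 + e5 - e) = H (f1 + f2 + f3 + f4 + f5 - e)

theorem dat {t : E ≃+* E} {H : E → T} {e E5 : E} (ht : ∀ x, t (t x) = x)
    (hnt : ∃ x : E, t x ≠ x)
    (hH : ∀ x y, x ≠ 0 → y ≠ 0 → H (x * y) = H x + H y)
    (hF : ∀ x, x ≠ 0 → t x = x → H x = 0) (h2T : ∀ a : T, a + a = 0 → a = 0)
    (h5 : E5 * t E5 = 1) (hs : Star5 t H e E5) : ∃ h0, Dat t H e E5 h0 := by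
  classical
  have hneg : ∀ x : E, x ≠ 0 → H (-x) = H x := by
    intro x hx
    have h := hH (-1) x (neg_ne_zero.mpr one_ne_zero) hx
    rw [hF (-1) (neg_ne_zero.mpr one_ne_zero) (by simp), zero_add, neg_one_mul] at h
    exact h
  -- the tuple attached to `μ ν s z`
  have tup : ∀ μ ν s z : E, U1 t μ → U1 t ν → U1 t s → U1 t z → μ * ν = s * s →
      e + E5 * μ - z * (1 + ν) ≠ 0 → ∃ e1 e2 e3 e4 e5 : E, e1 * t e1 = 1 ∧ e2 * t e2 = 1 ∧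
        e3 * t e3 = 1 ∧ e4 * t e4 = 1 ∧ e5 * t e5 = 1 ∧ e1 * e2 * e3 * e4 * e5 = E5 ∧
        e1 + e2 + e3 + e4 + e5 - e ≠ 0 ∧
        H (e1 + e2 + e3 + e4 + e5 - e) = H (e + E5 * μ - z * (1 + ν)) := by
    intro μ ν s z hμ hν hs' hz h hne
    have hs0 := hs'.ne
    have hz0 := hz.ne
    have e1 : (s * z)⁻¹ + -(s * z)⁻¹ + z + z * ν + -(E5 * μ) - e =
        -(e + E5 * μ - z * (1 + ν)) := by ring
    refine ⟨(s * z)⁻¹, -(s * z)⁻¹, z, z * ν, -(E5 * μ), (hs'.mul hz).inv, (hs'.mul hz).inv.neg,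
      hz, hz.mul hν, (U1.mul (t := t) h5 hμ).neg, ?_, ?_, ?_⟩
    · field_simp
      linear_combination E5 * h
    · rw [e1]; exact neg_ne_zero.mpr hne
    · rw [e1]; exact hneg _ hne
  by_cases hex : ∃ μ ν s z : E, U1 t μ ∧ U1 t ν ∧ U1 t s ∧ U1 t z ∧ μ * ν = s * s ∧
      e + E5 * μ - z * (1 + ν) ≠ 0
  · obtain ⟨μ, ν, s, z, hμ, hν, hs', hz, h, hne⟩ := hex
    refine ⟨H (e + E5 * μ - z * (1 + ν)), ht, hnt, hH, hF, h2T, h5, ?_⟩
    intro μ' ν' s' z' hμ' hν' hs'' hz' h' hne'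
    obtain ⟨e1, e2, e3, e4, e5, a1, a2, a3, a4, a5, a6, a7, a8⟩ :=
      tup μ ν s z hμ hν hs' hz h hne
    obtain ⟨f1, f2, f3, f4, f5, b1, b2, b3, b4, b5, b6, b7, b8⟩ :=
      tup μ' ν' s' z' hμ' hν' hs'' hz' h' hne'
    rw [← a8, ← b8]
    exact hs _ _ _ _ _ _ _ _ _ _ b1 b2 b3 b4 b5 a1 a2 a3 a4 a5 b6 a6 b7 a7
  · refine ⟨0, ht, hnt, hH, hF, h2T, h5, ?_⟩
    intro μ' ν' s' z' hμ' hν' hs'' hz' h' hne'
    exact absurd ⟨μ', ν', s', z', hμ', hν', hs'', hz', h', hne'⟩ hex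

/-- the data of `T5I` -/
theorem Dat.data {t : E ≃+* E} {H : E → T} {e E5 : E} {h0 : T} (D : Dat t H e E5 h0)
    (hval : ∀ O : ValuationSubring E, (∀ θ, θ * t θ = 1 → θ ∈ O) → e ∈ O)
    (hne : ∃ x, x ≠ 0 ∧ H x ≠ 0) : T5I.Data t D.BR D.PT e E5 where
  ht := D.tt
  mul_mem := fun b hb l hl => D.BR_mul hb hl
  norm_one := fun θ hθ => D.U1_mem_BR hθ
  E5_norm := D.u5
  int := hval
  d_ne := by
    intro μ ν s hμ hν hs h hA hd
    obtain ⟨x, hx, hx'⟩ := hne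
    exact hx' (D.eq_zero_of_d hμ hν hs h hA hd hx)
  mem_PT := by
    intro μ ν s hμ hν hs h hA
    have hd : (e + E5 * μ) * t (e + E5 * μ) - (1 + ν) * t (1 + ν) ≠ 0 := by
      intro hd
      obtain ⟨x, hx, hx'⟩ := hne
      exact hx' (D.eq_zero_of_d hμ hν hs h hA hd hx)
    exact D.AG_mem hμ hν hs h hA hd
  mem_B := by
    intro μ ν s z hμ hν hs hz h hA
    have hd : (e + E5 * μ) * t (e + E5 * μ) - (1 + ν) * t (1 + ν) ≠ 0 := by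
      intro hd
      obtain ⟨x, hx, hx'⟩ := hne
      exact hx' (D.eq_zero_of_d hμ hν hs h hA hd hx)
    exact D.norm_div_mem hμ hν hs h hz hd

/-- the data of `T5End` -/
theorem Dat.endData {t : E ≃+* E} {H : E → T} {e E5 : E} {h0 : T} (D : Dat t H e E5 h0) :
    T5End.Data t H D.BR D.Per D.PT where
  ht := D.tt
  hH := D.hmul
  hF := D.hfix
  h2T := D.h2T
  hU := fun θ hθ => D.U1_mem_BR hθ
  hB := fun b hb l hl => D.BR_mul hb hl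
  hPT := fun l hl θ hθ => hl θ hθ
  hPer := fun p hp => hp.2

/-- the hypotheses of `T_5` for one quadratic extension `E` of `F` (any characteristic) -/
structure Hyp (t : E ≃+* E) (H : E → T) (e E5 : E) : Prop where
  ht : ∀ x, t (t x) = x
  hH : ∀ x y, x ≠ 0 → y ≠ 0 → H (x * y) = H x + H y
  hF : ∀ x, x ≠ 0 → t x = x → H x = 0
  h2T : ∀ a : T, a + a = 0 → a = 0
  h5 : E5 * t E5 = 1
  hs : Star5 t H e E5
  hval : ∀ O : ValuationSubring E, (∀ θ, θ * t θ = 1 → θ ∈ O) → e ∈ O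

/-- either `H = 0` or there are `Per`, `PT`, `B` with all the properties -/
theorem Hyp.elim {t : E ≃+* E} {H : E → T} {e E5 : E} (h : Hyp t H e E5) {P : Prop}
    (h1 : (∀ x, x ≠ 0 → H x = 0) → P)
    (h2 : ∀ (h0 : T) (D : Dat t H e E5 h0),
      (∀ θ, θ * t θ = 1 → ∃ m₀ : ℕ, ∀ m, m₀ ≤ m →
        ∀ b ∈ D.BR, (θ ^ 2 ^ m - (θ ^ 2 ^ m)⁻¹) * b ∈ D.PT) → T5I.Data t D.BR D.PT e E5 → P) :
    P := by
  by_cases hnt : ∃ x : E, t x ≠ x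
  · by_cases hne : ∃ x, x ≠ 0 ∧ H x ≠ 0
    · obtain ⟨h0, D⟩ := dat h.ht hnt h.hH h.hF h.h2T h.h5 h.hs
      have DI := D.data h.hval hne
      exact h2 h0 D (fun θ hθ => T5I.main DI hθ) DI
    · push Not at hne
      exact h1 hne
  · push Not at hnt
    exact h1 fun x hx => h.hF x hx (hnt x)

/-- `i ∈ F` -/
theorem Hyp.zero_i {t : E ≃+* E} {H : E → T} {e E5 : E} (h : Hyp t H e E5) {i : E}
    (hti : t i = i) (hii : i * i = -1) (x : E) (hx : x ≠ 0) : H x = 0 := by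
  refine h.elim (fun h1 => h1 x hx) fun h0 D hI _ => ?_
  refine T5M.main_i t D.tt H D.hmul D.hfix D.h2T D.BR (fun θ hθ => D.U1_mem_BR hθ) D.Per D.PT
    (fun l hl θ hθ => hl θ hθ) (fun p hp ρ hρ => D.H_one_add hp hρ) (fun p hp => hp.1) hti hii
    (fun θ hθ => ?_) x hx
  obtain ⟨m, hm⟩ := hI θ hθ
  exact ⟨m, hm m le_rfl⟩

/-- `√-11 ∈ F`, `i ∈ F` or `E = F(i)` -/
theorem Hyp.zero_r {t : E ≃+* E} {H : E → T} {e E5 : E} (h : Hyp t H e E5) (h2 : (2 : E) ≠ 0)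
    (hr : ∃ r : E, t r = r ∧ r ^ 2 = -11) (hi : ∃ i : E, i ^ 2 = -1 ∧ (t i = i ∨ t i = -i))
    (x : E) (hx : x ≠ 0) : H x = 0 := by
  refine h.elim (fun h1 => h1 x hx) fun h0 D hI _ => ?_
  refine D.endData.end_zero h2 (fun θ hθ => ?_) hr hi x hx
  obtain ⟨m, hm⟩ := hI θ hθ
  exact ⟨m, hm m le_rfl⟩

end Pool.Agent.MP_1b9aaa_al.T5
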