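import Pool.Agent.Lib.MP_1b9aaa_al.T5K
import Pool.Agent.Lib.MP_1b9aaa_al.T5Core

/-!
# MP_1b9aaa_al, T_5: the statement `Core` of `T5K` holds
-/

set_option autoImplicit false

namespace Pool.Agent.MP_1b9aaa_al.Quin

universe u v

theorem core : Core.{u, v} := by
  intro E _ t T _ H e E5 ht hH hF h2T h5 hs hval h2 hr hi x hx
  exact T5.Hyp.zero_r ⟨ht, hH, hF, h2T, h5, hs, hval⟩ h2 hr hi x hx

end Pool.Agent.MP_1b9aaa_al.Quin
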