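import Pool.Agent.Lib.MP_1b9aaa_al.Sx

/-!
# MP_1b9aaa_al, T_5: the engine

`K ⊃ S` fields, `c` a Steinberg symbol on `K`, zero on `K* × S*`, `x ∈ K`, `x ∉ S`,
`q = X² + uX + v` over `S`; the *dihedral function* is `g(a) = c(x - a, q(x))`, `a ∈ S`.

* `law`: `g(w) + g(w') = g(y)` if `(w - y)(w' - y) = q(y)`;
* `law_neg`: `g(w) + g(w') = 0` if `w + w' = -u`;
* `split`: `g = 0` if `q` has a root in `S`;
* `pade`: if `[K : S] ≤ 5` and all dihedral functions vanish then `c = 0`;
* `finrank_fix`: `[K : Fix g] ≤ 5` if `g^5 = 1`.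
-/

set_option autoImplicit false

namespace Pool.Agent.MP_1b9aaa_al

open IsSteinberg

variable {K T : Type*} [Field K] [AddCommGroup T]

namespace Quin

variable {c : K → K → T} {S : Subfield K}

lemma lin_ne {x a : K} (hx : x ∉ S) (ha : a ∈ S) : x - a ≠ 0 := by
  intro h
  apply hx
  rw [sub_eq_zero.mp h]
  exact ha

/-- two linear elements -/
lemma lin_lin (hc : IsSteinberg c) (hS : VanOn c S) {x a b : K} (hx : x ∉ S) (ha : a ∈ S)
    (hb : b ∈ S) : c (x - a) (x - b) = 0 :=
  hc.line hS (s := x) (p := -a) (q := 1) (r := -b) (t := 1) (neg_mem ha) (one_mem _) (neg_mem hb)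
    (one_mem _) (by ring) (by ring) (lin_ne hx ha) (lin_ne hx hb)

/-- **the torus law** -/
lemma law (hc : IsSteinberg c) (hS : VanOn c S) {x u v w w' y : K} (hx : x ∉ S) (hu : u ∈ S)
    (hw : w ∈ S) (hw' : w' ∈ S) (hy : y ∈ S) (hq : x ^ 2 + u * x + v ≠ 0)
    (h : (w - y) * (w' - y) = y ^ 2 + u * y + v) :
    c (x - w) (x ^ 2 + u * x + v) + c (x - w') (x ^ 2 + u * x + v)
      = c (x - y) (x ^ 2 + u * x + v) := by
  have hxw := lin_ne hx hw
  have hxw' := lin_ne hx hw'
  have hxy := lin_ne hx hy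
  have hP : (x - w) * (x - w') ≠ 0 := mul_ne_zero hxw hxw'
  rw [← hc.mul_left _ _ _ hxw hxw' hq]
  by_cases hk : w + w' + u = 0
  · have e : x ^ 2 + u * x + v = (x - w) * (x - w') := by
      linear_combination (x - y) * hk - h
    rw [e, hc.self hS hP, hc.mul_right _ _ _ hxy hxw hxw', lin_lin hc hS hx hy hw,
      lin_lin hc hS hx hy hw', add_zero]
  · have hkS : -(w + w' + u) ∈ S := neg_mem (add_mem (add_mem hw hw') hu)
    have hk0 : -(w + w' + u) ≠ 0 := neg_ne_zero.mpr hk
    have e : (x - w) * (x - w') = (x ^ 2 + u * x + v) + (-(w + w' + u)) * (x - y) := by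
      linear_combination h
    have h3 := hc.three hS hP hq (mul_ne_zero hk0 hxy) e
    have h4 : c (-(w + w' + u) * (x - y)) ((x - w) * (x - w')) = 0 := by
      rw [hc.mul_left _ _ _ hk0 hxy hP, hc.van_left hS hkS hk0 hP,
        hc.mul_right _ _ _ hxy hxw hxw', lin_lin hc hS hx hy hw, lin_lin hc hS hx hy hw']
      simp
    rw [h4, sub_zero, hc.mul_right _ _ _ hq hk0 hxy, hS _ hq _ hkS hk0, zero_add] at h3
    rw [hc.skew hP hq, hc.skew hxy hq, h3]

/-- the symmetry of the dihedral function -/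
lemma law_neg (hc : IsSteinberg c) (hS : VanOn c S) {x u v w w' : K} (hx : x ∉ S) (hv : v ∈ S)
    (hw : w ∈ S) (hw' : w' ∈ S) (hq : x ^ 2 + u * x + v ≠ 0) (h : w + w' = -u) :
    c (x - w) (x ^ 2 + u * x + v) + c (x - w') (x ^ 2 + u * x + v) = 0 := by
  have hxw := lin_ne hx hw
  have hxw' := lin_ne hx hw'
  have hP : (x - w) * (x - w') ≠ 0 := mul_ne_zero hxw hxw'
  rw [← hc.mul_left _ _ _ hxw hxw' hq]
  refine hc.line hS (s := x ^ 2 + u * x + v) (p := w * w' - v) (q := 1) (r := 0) (t := 1)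
    (sub_mem (mul_mem hw hw') hv) (one_mem _) (zero_mem _) (one_mem _) ?_ (by ring) hP hq
  linear_combination (-x) * h

/-- `q` with a root in `S` -/
lemma split (hc : IsSteinberg c) (hS : VanOn c S) {x u v r a : K} (hx : x ∉ S) (hu : u ∈ S)
    (hr : r ∈ S) (ha : a ∈ S) (h : r ^ 2 + u * r + v = 0) :
    c (x - a) (x ^ 2 + u * x + v) = 0 := by
  have e : x ^ 2 + u * x + v = (x - r) * (x - (-(r + u))) := by
    linear_combination h
  have hs : -(r + u) ∈ S := neg_mem (add_mem hr hu)
  rw [e, hc.mul_right _ _ _ (lin_ne hx ha) (lin_ne hx hr) (lin_ne hx hs),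
    lin_lin hc hS hx ha hr, lin_lin hc hS hx ha hs, add_zero]

/-- an element of `S + S x + S x²` pairs trivially with `x`, if all dihedral functions vanish -/
lemma quad (hc : IsSteinberg c) (hS : VanOn c S)
    (H : ∀ x : K, x ∉ S → ∀ u ∈ S, ∀ v ∈ S, x ^ 2 + u * x + v ≠ 0 →
      c x (x ^ 2 + u * x + v) = 0)
    {x p q r z : K} (hx : x ∉ S) (hp : p ∈ S) (hq : q ∈ S) (hr : r ∈ S)
    (hz : z = p + q * x + r * x ^ 2) (hz0 : z ≠ 0) : c x z = 0 := by
  have hx0 : x ≠ 0 := by rintro rfl; exact hx (zero_mem S)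
  by_cases hr0 : r = 0
  · exact hc.line hS (s := x) (p := 0) (q := 1) (r := p) (t := q) (zero_mem _) (one_mem _) hp hq
      (by ring) (by rw [hz, hr0]; ring) hx0 hz0
  · have e : z = r * (x ^ 2 + q / r * x + p / r) := by
      rw [hz]; field_simp; ring
    have h1 : x ^ 2 + q / r * x + p / r ≠ 0 := by
      intro h
      apply hz0
      rw [e, h, mul_zero]
    rw [e, hc.mul_right _ _ _ hx0 hr0 h1, hS x hx0 r hr hr0, zero_add]
    exact H x hx _ (div_mem hq hr) _ (div_mem hp hr) h1

/-- **Padé step**: `[K : S] ≤ 5`, no element of `K` is quadratic over `S`, and all dihedral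
functions vanish; then `c = 0`. -/
theorem pade (hc : IsSteinberg c) (hS : VanOn c S) [Module.Finite S K]
    (hfin : Module.finrank S K ≤ 5)
    (hqd : ∀ x : K, x ∉ S → ∀ p ∈ S, ∀ q ∈ S, ∀ r ∈ S, p + q * x + r * x ^ 2 = 0 →
      p = 0 ∧ q = 0 ∧ r = 0)
    (H : ∀ x : K, x ∉ S → ∀ u ∈ S, ∀ v ∈ S, x ^ 2 + u * x + v ≠ 0 →
      c x (x ^ 2 + u * x + v) = 0)
    {x y : K} (hx0 : x ≠ 0) (hy0 : y ≠ 0) : c x y = 0 := by
  by_cases hx : x ∈ S
  · exact hc.van_left hS hx hx0 hy0
  -- a nontrivial relation between `1, x, x², y, y x, y x²`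
  let f : Fin 6 → K := ![1, x, x ^ 2, y, y * x, y * x ^ 2]
  have hdep : ¬ LinearIndependent S f := by
    intro h
    have := h.fintype_card_le_finrank
    rw [Fintype.card_fin] at this
    omega
  rw [Fintype.not_linearIndependent_iff] at hdep
  obtain ⟨a, ha, i, hi⟩ := hdep
  simp only [f, Fin.sum_univ_six, Matrix.cons_val_zero, Matrix.cons_val_one, Matrix.cons_val,
    Algebra.smul_def] at ha
  have key : ∀ b : S, algebraMap S K b = (b : K) := fun b => rfl
  simp only [key] at ha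
  set A : K := (a 0 : K) + (a 1 : K) * x + (a 2 : K) * x ^ 2 with hA
  set B : K := (a 3 : K) + (a 4 : K) * x + (a 5 : K) * x ^ 2 with hB
  have hAB : A + y * B = 0 := by rw [hA, hB]; linear_combination ha
  by_cases hB0 : B = 0
  · exfalso
    have hA0 : A = 0 := by rw [hB0, mul_zero, add_zero] at hAB; exact hAB
    obtain ⟨h0, h1, h2⟩ := hqd x hx _ (a 0).2 _ (a 1).2 _ (a 2).2 hA0
    obtain ⟨h3, h4, h5⟩ := hqd x hx _ (a 3).2 _ (a 4).2 _ (a 5).2 hB0
    apply hi
    have e : ∀ b : S, (b : K) = 0 → b = 0 := fun b hb => Subtype.ext hb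
    fin_cases i
    · exact e _ h0
    · exact e _ h1
    · exact e _ h2
    · exact e _ h3
    · exact e _ h4
    · exact e _ h5
  · have hA0 : A ≠ 0 := by
      intro h
      rw [h, zero_add] at hAB
      rcases mul_eq_zero.mp hAB with h' | h'
      · exact hy0 h'
      · exact hB0 h'
    have hy : y * B = -A := eq_neg_of_add_eq_zero_right hAB
    have h1 := hc.mul_right x y B hx0 hy0 hB0
    rw [hy, quad hc hS H hx (neg_mem (a 0).2) (neg_mem (a 1).2) (neg_mem (a 2).2)
      (by rw [hA]; ring) (neg_ne_zero.mpr hA0), quad hc hS H hx (a 3).2 (a 4).2 (a 5).2 hB hB0,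
      add_zero] at h1
    exact h1.symm

end Quin

/-! ### the fixed field of an automorphism with `g^5 = 1` -/

/-- elements quadratic over the fixed field -/
lemma five_quad {g : K ≃+* K} (h5 : ∀ x, g (g (g (g (g x)))) = x) {x : K} (hx : x ∉ fixS g)
    {p q r : K} (hp : p ∈ fixS g) (hq : q ∈ fixS g) (hr : r ∈ fixS g)
    (h : p + q * x + r * x ^ 2 = 0) : p = 0 ∧ q = 0 ∧ r = 0 := by
  have hx1 : g x ≠ x := hx
  have hp' : g p = p := hp
  have hq' : g q = q := hq
  have hr' : g r = r := hr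
  have e1 : p + q * g x + r * (g x) ^ 2 = 0 := by
    have := congrArg g h
    simpa only [map_add, map_mul, map_pow, hp', hq', hr', map_zero] using this
  have e2 : p + q * g (g x) + r * (g (g x)) ^ 2 = 0 := by
    have := congrArg g e1
    simpa only [map_add, map_mul, map_pow, hp', hq', hr', map_zero] using this
  have n1 : g x - x ≠ 0 := sub_ne_zero.mpr hx1
  have n2 : g (g x) - g x ≠ 0 := by
    intro h'
    exact hx1 (g.injective (sub_eq_zero.mp h'))
  have n3 : g (g x) - x ≠ 0 := by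
    intro h'
    have h2 : g (g x) = x := sub_eq_zero.mp h'
    apply hx1
    have := h5 x
    rw [h2, h2] at this
    exact this
  have f1 : q + r * (g x + x) = 0 := by
    have : (g x - x) * (q + r * (g x + x)) = 0 := by linear_combination e1 - h
    exact (mul_eq_zero.mp this).resolve_left n1
  have f2 : q + r * (g (g x) + g x) = 0 := by
    have : (g (g x) - g x) * (q + r * (g (g x) + g x)) = 0 := by linear_combination e2 - e1
    exact (mul_eq_zero.mp this).resolve_left n2
  have f3 : r = 0 := by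
    have : (g (g x) - x) * r = 0 := by linear_combination f2 - f1
    exact (mul_eq_zero.mp this).resolve_left n3
  have f4 : q = 0 := by rw [f3] at f1; linear_combination f1
  refine ⟨?_, f4, f3⟩
  rw [f3, f4] at h
  linear_combination h

/-- the degree over the fixed field -/
lemma five_finrank {g : K ≃+* K} (h5 : ∀ x, g (g (g (g (g x)))) = x) :
    Module.Finite (fixS g) K ∧ Module.finrank (fixS g) K ≤ 5 := by
  classical
  have hg5 : g ^ 5 = 1 := by
    ext x
    show (g ^ 5) x = x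
    have : (g ^ 5) x = g (g (g (g (g x)))) := rfl
    rw [this, h5]
  have hfo : IsOfFinOrder g := isOfFinOrder_iff_pow_eq_one.mpr ⟨5, by norm_num, hg5⟩
  have hfin : Finite (Subgroup.zpowers g) := hfo.finite_zpowers
  have : Fintype (Subgroup.zpowers g) := Fintype.ofFinite _
  have hcard : Fintype.card (Subgroup.zpowers g) ≤ 5 := by
    rw [← Nat.card_eq_fintype_card, Nat.card_zpowers]
    exact Nat.le_of_dvd (by norm_num) (orderOf_dvd_of_pow_eq_one hg5)
  have hS : fixS g = FixedPoints.subfield (Subgroup.zpowers g) K := by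
    ext x
    constructor
    · intro hx
      rintro ⟨σ, hσ⟩
      obtain ⟨z, rfl⟩ := Subgroup.mem_zpowers_iff.mp hσ
      have hx' : g x = x := hx
      have hstab : g ∈ MulAction.stabilizer (K ≃+* K) x := hx'
      exact Subgroup.zpow_mem _ hstab z
    · intro hx
      exact hx ⟨g, Subgroup.mem_zpowers g⟩
  rw [hS]
  exact ⟨inferInstance, (FixedPoints.finrank_le_card _ _).trans hcard⟩

/-- **T_5 from the vanishing of the dihedral functions** -/
theorem Good.of_dihedral {g : K ≃+* K} {c : K → K → T} (hc : Good g c)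
    (h5 : ∀ x, g (g (g (g (g x)))) = x)
    (H : ∀ x u v : K, g x ≠ x → g u = u → g v = v → x ^ 2 + u * x + v ≠ 0 →
      c x (x ^ 2 + u * x + v) = 0)
    {x y : K} (hx : x ≠ 0) (hy : y ≠ 0) : c x y = 0 := by
  obtain ⟨h1, h2⟩ := five_finrank h5
  exact Quin.pade hc.st hc.van h2
    (fun x hx p hp q hq r hr h => five_quad h5 hx hp hq hr h)
    (fun x hx u hu v hv h => H x u v hx hu hv h) hx hy

end Pool.Agent.MP_1b9aaa_al
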