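import Mathlib

/-!
# MP_1b9aaa_al, T_5: the group of symmetries of a dihedral map, abstract part

`E` a field with an involution `t`, `H : E* → T` a homomorphism, trivial on the fixed elements of
`t`, which satisfies the relation `star` below.  We define the group `Per` of unipotent periods of
`H`, the group `PT` and the ring `B`, and prove the properties used in the ideal argument.
-/

set_option autoImplicit false

namespace Pool.Agent.MP_1b9aaa_al.T5

variable {E T : Type*} [Field E] [AddCommGroup T]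

/-- elements of norm one -/
def U1 (t : E ≃+* E) (x : E) : Prop := x * t x = 1

/-- the data: an involution `t`, a homomorphism `H` trivial on the fixed elements, and the relation
`star` -/
structure Dat (t : E ≃+* E) (H : E → T) (e E5 : E) (h0 : T) : Prop where
  tt : ∀ x, t (t x) = x
  ntriv : ∃ x : E, t x ≠ x
  hmul : ∀ x y, x ≠ 0 → y ≠ 0 → H (x * y) = H x + H y
  hfix : ∀ x, x ≠ 0 → t x = x → H x = 0
  h2T : ∀ a : T, a + a = 0 → a = 0
  u5 : U1 t E5
  star : ∀ μ ν s z, U1 t μ → U1 t ν → U1 t s → U1 t z → μ * ν = s * s →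
    e + E5 * μ - z * (1 + ν) ≠ 0 → H (e + E5 * μ - z * (1 + ν)) = h0

section U1

variable {t : E ≃+* E}

theorem U1.ne {x : E} (h : U1 t x) : x ≠ 0 := by
  rintro rfl
  simp [U1] at h

theorem U1.one : U1 t (1 : E) := by simp [U1]

theorem U1.mul {x y : E} (hx : U1 t x) (hy : U1 t y) : U1 t (x * y) := by
  unfold U1 at *
  rw [map_mul]
  linear_combination (y * t y) * hx + hy

theorem U1.neg {x : E} (hx : U1 t x) : U1 t (-x) := by
  unfold U1 at *
  rw [map_neg]
  linear_combination hx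

theorem U1.map_eq {x : E} (hx : U1 t x) : t x = x⁻¹ := by
  have := hx.ne
  unfold U1 at hx
  field_simp
  linear_combination hx

theorem U1.inv {x : E} (hx : U1 t x) : U1 t x⁻¹ := by
  have := hx.ne
  unfold U1
  rw [map_inv₀, hx.map_eq]
  simp [this]

theorem U1.conj (ht : ∀ x, t (t x) = x) {x : E} (hx : U1 t x) : U1 t (t x) := by
  unfold U1 at *
  rw [ht, mul_comm]
  exact hx

theorem U1.div_self (ht : ∀ x, t (t x) = x) {x : E} (hx : x ≠ 0) : U1 t (x / t x) := by
  have h1 : t x ≠ 0 := (map_ne_zero t).mpr hx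
  unfold U1
  rw [map_div₀, ht]
  field_simp

theorem U1.div_self' (ht : ∀ x, t (t x) = x) {x : E} (hx : x ≠ 0) : U1 t (t x / x) := by
  have h1 : t x ≠ 0 := (map_ne_zero t).mpr hx
  unfold U1
  rw [map_div₀, ht]
  field_simp

end U1

namespace Dat

variable {t : E ≃+* E} {H : E → T} {e E5 : E} {h0 : T} (D : Dat t H e E5 h0)

include D

theorem h1 : H 1 = 0 := D.hfix 1 one_ne_zero (map_one t)

theorem hneg {x : E} (hx : x ≠ 0) : H (-x) = H x := by
  have h := D.hmul (-1) x (neg_ne_zero.mpr one_ne_zero) hx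
  rw [D.hfix (-1) (neg_ne_zero.mpr one_ne_zero) (by simp), zero_add, neg_one_mul] at h
  exact h

theorem hinv {x : E} (hx : x ≠ 0) : H x⁻¹ = - H x := by
  have h := D.hmul x x⁻¹ hx (inv_ne_zero hx)
  rw [mul_inv_cancel₀ hx, D.h1] at h
  exact (neg_eq_of_add_eq_zero_right h.symm).symm

theorem hdiv {x y : E} (hx : x ≠ 0) (hy : y ≠ 0) : H (x / y) = H x - H y := by
  rw [div_eq_mul_inv, D.hmul _ _ hx (inv_ne_zero hy), D.hinv hy, sub_eq_add_neg]

theorem ht {x : E} (hx : x ≠ 0) : H (t x) = - H x := by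
  have h1 : t x ≠ 0 := (map_ne_zero t).mpr hx
  have h := D.hmul x (t x) hx h1
  rw [D.hfix (x * t x) (mul_ne_zero hx h1) (by rw [map_mul, D.tt, mul_comm])] at h
  exact (neg_eq_of_add_eq_zero_right h.symm).symm

theorem hfmul {f x : E} (hf : f ≠ 0) (hx : x ≠ 0) (h : t f = f) : H (f * x) = H x := by
  rw [D.hmul _ _ hf hx, D.hfix _ hf h, zero_add]

theorem skew : ∃ α : E, α ≠ 0 ∧ t α = -α := by
  obtain ⟨x, hx⟩ := D.ntriv
  refine ⟨x - t x, sub_ne_zero.mpr (Ne.symm hx), ?_⟩
  rw [map_sub, D.tt]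
  ring

/-- a norm one element whose square is not `1` -/
theorem exists_ne : ∃ z, U1 t z ∧ z ≠ 1 ∧ z * z ≠ 1 := by
  by_cases h22 : (2 : E) = 0
  · obtain ⟨x, hx⟩ := D.ntriv
    have hx0 : x ≠ 0 := by
      rintro rfl
      exact hx (map_zero t)
    have hx1 : t x ≠ 0 := (map_ne_zero t).mpr hx0
    have h1 : x / t x ≠ 1 := by
      intro h
      rw [div_eq_one_iff_eq hx1] at h
      exact hx h.symm
    refine ⟨x / t x, U1.div_self D.tt hx0, h1, fun h => h1 ?_⟩
    have h3 : (x / t x - 1) * (x / t x - 1) = 0 := by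
      linear_combination h + (1 - x / t x) * h22
    exact sub_eq_zero.mp (mul_self_eq_zero.mp h3)
  obtain ⟨α, h0, h1⟩ := D.skew
  have h2 : (1 : E) - α ≠ 0 := by
    intro h
    have h3 : α = 1 := by linear_combination -h
    rw [h3, map_one] at h1
    exact h22 (by linear_combination h1)
  have h3 : (1 : E) + α ≠ 0 := by
    intro h
    have h3 : α = -1 := by linear_combination h
    rw [h3, map_neg, map_one] at h1
    exact h22 (by linear_combination -h1)
  have h4 : (1 + α) / (1 - α) ≠ 1 := by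
    intro h
    rw [div_eq_one_iff_eq h2] at h
    have h4 : (2 : E) * α = 0 := by linear_combination h
    rcases mul_eq_zero.mp h4 with h5 | h5
    · exact h22 h5
    · exact h0 h5
  refine ⟨(1 + α) / (1 - α), ?_, h4, ?_⟩
  · unfold U1
    rw [map_div₀, map_add, map_sub, map_one, h1, sub_neg_eq_add, ← sub_eq_add_neg]
    field_simp
  · intro h
    rcases mul_self_eq_one_iff.mp h with h | h
    · exact h4 h
    · rw [div_eq_iff h2] at h
      exact h22 (by linear_combination h)

/-- `H = 0` as soon as `H (1 - z)` is the same for all `z ≠ 1` of norm one -/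
theorem eq_zero_of_const {k : T} (hk : ∀ z, U1 t z → z ≠ 1 → H (1 - z) = k) {x : E} (hx : x ≠ 0) :
    H x = 0 := by
  have a1 : ∀ z, U1 t z → z ≠ 1 → H z = k + k := by
    intro z hz h1
    have hz0 := hz.ne
    have e1 : (1 : E) - z ≠ 0 := sub_ne_zero.mpr (Ne.symm h1)
    have e3 : (1 - z) * t (1 - z) ≠ 0 := mul_ne_zero e1 ((map_ne_zero t).mpr e1)
    have e2 : (1 - z) * (1 - z) = -(z * ((1 - z) * t (1 - z))) := by
      rw [map_sub, map_one, hz.map_eq]
      field_simp
      ring
    have e4 := D.hmul (1 - z) (1 - z) e1 e1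
    rw [hk z hz h1, e2, D.hneg (mul_ne_zero hz0 e3), D.hmul _ _ hz0 e3,
      D.hfix _ e3 (by rw [map_mul, D.tt, mul_comm]), add_zero] at e4
    exact e4
  have a2 : k + k = 0 := by
    obtain ⟨z, hz, h1, h3⟩ := D.exists_ne
    have h4 := D.hmul z z hz.ne hz.ne
    rw [a1 _ (hz.mul hz) h3, a1 z hz h1] at h4
    exact (add_eq_left.mp h4.symm)
  have a3 : H (x / t x) = 0 := by
    by_cases h : x / t x = 1
    · rw [h, D.h1]
    · rw [a1 _ (U1.div_self D.tt hx) h, a2]
  rw [D.hdiv hx ((map_ne_zero t).mpr hx), D.ht hx, sub_neg_eq_add] at a3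
  exact D.h2T _ a3

end Dat

/-- periods -/
def IsPer (t : E ≃+* E) (H : E → T) (p : E) : Prop :=
  t p = -p ∧ ∀ u, u ≠ 0 → H (u + p * (u - t u)) = H u

/-- symmetries of `H` up to a constant -/
def Sym (t : E ≃+* E) (H : E → T) (a b : E) (k : T) : Prop :=
  a * t a - b * t b ≠ 0 ∧ ∀ u, u ≠ 0 → H (a * u + b * t u) = H u + k

namespace Dat

variable {t : E ≃+* E} {H : E → T} {e E5 : E} {h0 : T} (D : Dat t H e E5 h0)

include D

theorem sym_ne {a b : E} (h : a * t a - b * t b ≠ 0) {u : E} (hu : u ≠ 0) :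
    a * u + b * t u ≠ 0 := by
  intro h1
  have h2 : t a * t u + t b * u = 0 := by
    have := congrArg t h1
    simpa [D.tt] using this
  have h3 : (a * t a - b * t b) * u = 0 := by linear_combination t a * h1 - b * h2
  exact (mul_ne_zero h hu) h3

theorem per_ne {p : E} (hp : t p = -p) {u : E} (hu : u ≠ 0) : u + p * (u - t u) ≠ 0 := by
  have := D.sym_ne (a := 1 + p) (b := -p) (u := u) (by
    rw [map_add, map_neg, map_one, hp]
    intro h
    exact one_ne_zero (α := E) (by linear_combination h)) hu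
  intro h
  exact this (by linear_combination h)

/-- period group -/
def Per (_D : Dat t H e E5 h0) : AddSubgroup E where
  carrier := {p | IsPer t H p}
  zero_mem' := ⟨by simp, by simp⟩
  add_mem' := by
    rintro p q ⟨hp, hp'⟩ ⟨hq, hq'⟩
    refine ⟨by rw [map_add, hp, hq]; ring, fun u hu => ?_⟩
    have h1 := hp' (u + q * (u - t u)) (_D.per_ne hq hu)
    rw [hq' u hu] at h1
    rw [← h1]
    congr 1
    simp only [map_add, map_mul, map_sub, _D.tt, hq]
    ring
  neg_mem' := by
    rintro p ⟨hp, hp'⟩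
    have hp2 : t (-p) = - (-p) := by rw [map_neg, hp]
    refine ⟨hp2, fun u hu => ?_⟩
    have h1 := hp' (u + (-p) * (u - t u)) (_D.per_ne hp2 hu)
    rw [← h1]
    congr 1
    simp only [map_add, map_mul, map_sub, map_neg, _D.tt, hp]
    ring

theorem mem_Per {p : E} : p ∈ D.Per ↔ IsPer t H p := Iff.rfl

/-- `PT` : all `l` such that `s(l θ)` is a period for all `θ` of norm one -/
def PT (_D : Dat t H e E5 h0) : AddSubgroup E where
  carrier := {l | ∀ θ, U1 t θ → l * θ - t (l * θ) ∈ _D.Per}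
  zero_mem' := fun θ _ => by simp
  add_mem' := by
    intro a b ha hb θ hθ
    have := _D.Per.add_mem (ha θ hθ) (hb θ hθ)
    have e1 : (a + b) * θ - t ((a + b) * θ) = a * θ - t (a * θ) + (b * θ - t (b * θ)) := by
      rw [add_mul, map_add]; ring
    rw [e1]; exact this
  neg_mem' := by
    intro a ha θ hθ
    have := _D.Per.neg_mem (ha θ hθ)
    have e1 : (-a) * θ - t ((-a) * θ) = -(a * θ - t (a * θ)) := by
      rw [neg_mul, map_neg]; ring
    rw [e1]; exact this

theorem mem_PT {l : E} : l ∈ D.PT ↔ ∀ θ, U1 t θ → l * θ - t (l * θ) ∈ D.Per := Iff.rfl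

/-- the ring `B` of multipliers of `PT` -/
def BR (_D : Dat t H e E5 h0) : Subring E where
  carrier := {b | ∀ l ∈ _D.PT, b * l ∈ _D.PT}
  zero_mem' := fun l _ => by simp
  one_mem' := fun l hl => by simpa using hl
  add_mem' := by
    intro a b ha hb l hl
    rw [add_mul]
    exact _D.PT.add_mem (ha l hl) (hb l hl)
  mul_mem' := by
    intro a b ha hb l hl
    rw [mul_assoc]
    exact ha _ (hb l hl)
  neg_mem' := by
    intro a ha l hl
    rw [neg_mul]
    exact _D.PT.neg_mem (ha l hl)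

theorem mem_BR {b : E} : b ∈ D.BR ↔ ∀ l ∈ D.PT, b * l ∈ D.PT := Iff.rfl

theorem BR_mul {b l : E} (hb : b ∈ D.BR) (hl : l ∈ D.PT) : b * l ∈ D.PT := hb l hl

theorem U1_mem_BR {θ : E} (hθ : U1 t θ) : θ ∈ D.BR := by
  intro l hl θ' hθ'
  have := hl (θ * θ') (hθ.mul hθ')
  rw [show θ * l * θ' = l * (θ * θ') by ring]
  exact this

theorem PT_t {l : E} (hl : l ∈ D.PT) : t l ∈ D.PT := by
  intro θ hθ
  have h := D.Per.neg_mem (hl (t θ) (hθ.conj D.tt))
  have e1 : t l * θ - t (t l * θ) = -(l * t θ - t (l * t θ)) := by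
    simp only [map_mul, D.tt]; ring
  rw [e1]; exact h

theorem BR_t {b : E} (hb : b ∈ D.BR) : t b ∈ D.BR := by
  intro l hl
  have h := D.PT_t (hb _ (D.PT_t hl))
  rwa [map_mul, D.tt] at h

/-- fixed elements which multiply `Per` into itself are in `B` -/
theorem mem_BR_of_fix {m : E} (hm : t m = m) (h : ∀ p ∈ D.Per, m * p ∈ D.Per) : m ∈ D.BR := by
  intro l hl θ hθ
  have := h _ (hl θ hθ)
  have e1 : m * l * θ - t (m * l * θ) = m * (l * θ - t (l * θ)) := by
    simp only [map_mul, hm]; ring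
  rw [e1]; exact this

theorem exists_hilbert {ρ : E} (hρ : U1 t ρ) : ∃ u, u ≠ 0 ∧ t u = ρ * u := by
  by_cases h : ρ = -1
  · obtain ⟨α, h0, h1⟩ := D.skew
    exact ⟨α, h0, by rw [h1, h]; ring⟩
  · refine ⟨1 + t ρ, ?_, ?_⟩
    · intro h1
      have h2 : t (1 + t ρ) = 0 := by rw [h1, map_zero]
      rw [map_add, map_one, D.tt] at h2
      exact h (by linear_combination h2)
    · rw [map_add, map_one, D.tt]
      unfold U1 at hρ
      linear_combination -hρ

/-- (P) -/
theorem H_one_add {p ρ : E} (hp : p ∈ D.Per) (hρ : U1 t ρ) : H (1 + p * (1 - ρ)) = 0 := by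
  obtain ⟨u, hu, hu'⟩ := D.exists_hilbert hρ
  have h1 := hp.2 u hu
  have h2 := D.per_ne hp.1 hu
  have e1 : u + p * (u - t u) = u * (1 + p * (1 - ρ)) := by rw [hu']; ring
  rw [e1] at h1 h2
  rw [D.hmul _ _ hu (right_ne_zero_of_mul h2)] at h1
  exact add_eq_left.mp h1

theorem sym_per (a b : E) {q : E} (hq : t q = -q) (u : E) :
    a * (u + q * (u - t u)) + b * t (u + q * (u - t u)) =
      (a * u + b * t u) + q * (u - t u) * (a + b) := by
  rw [map_add, map_mul, map_sub, D.tt, hq]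
  ring

/-- conjugation of a period by a symmetry -/
theorem per_conj {a b : E} {k : T} (h : Sym t H a b k) {p : E} (hp : p ∈ D.Per) :
    p * ((a + b) * t (a + b)) / (a * t a - b * t b) ∈ D.Per := by
  obtain ⟨hd, hs⟩ := h
  obtain ⟨hp1, hp2⟩ := hp
  have hr : a + b ≠ 0 := by simpa using D.sym_ne hd (one_ne_zero (α := E))
  have hr' : t (a + b) ≠ 0 := (map_ne_zero t).mpr hr
  have htd : t (a * t a - b * t b) = a * t a - b * t b := by
    simp only [map_sub, map_mul, D.tt]; ring
  have hq : t (p * ((a + b) * t (a + b)) / (a * t a - b * t b)) =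
      -(p * ((a + b) * t (a + b)) / (a * t a - b * t b)) := by
    rw [map_div₀, htd, map_mul, map_mul, D.tt, hp1]
    ring
  refine ⟨hq, fun u hu => ?_⟩
  -- `v = δ φ⁻¹(r u)`
  set δ := a * t a - b * t b with hδ
  set r := a + b with hrd
  set v := (t a * (r * u) - b * (t r * t u)) / δ with hv
  have htv : t v = (a * (t r * t u) - t b * (r * u)) / δ := by
    rw [hv, map_div₀, htd]
    simp only [map_sub, map_mul, D.tt]
  have hra : t r = t a + t b := by rw [hrd, map_add]
  have e1 : a * v + b * t v = r * u := by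
    rw [htv, hv]
    field_simp
    rw [hδ]
    ring
  have e2 : v - t v = (r * t r) * (u - t u) / δ := by
    rw [htv, hv, hra, hrd]
    field_simp
    ring
  have hv0 : v ≠ 0 := by
    intro h
    rw [h, map_zero, mul_zero, mul_zero, add_zero] at e1
    exact (mul_ne_zero hr hu) e1.symm
  have h1 := hp2 v hv0
  have h2 := hs _ (D.per_ne hp1 hv0)
  rw [h1] at h2
  have h3 := hs v hv0
  rw [← h3, e1] at h2
  have e3 : a * (v + p * (v - t v)) + b * t (v + p * (v - t v)) =
      r * (u + p * (r * t r) / δ * (u - t u)) := by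
    rw [D.sym_per a b hp1, e1, e2, ← hrd]
    field_simp
  rw [e3] at h2
  rw [D.hmul _ _ hr (D.per_ne hq hu), D.hmul _ _ hr hu] at h2
  exact add_left_cancel h2

/-- conjugation of a period by the inverse of a symmetry -/
theorem per_conj' {a b : E} {k : T} (h : Sym t H a b k) {p : E} (hp : p ∈ D.Per) :
    p * (a * t a - b * t b) / ((a + b) * t (a + b)) ∈ D.Per := by
  obtain ⟨hd, hs⟩ := h
  obtain ⟨hp1, hp2⟩ := hp
  have hr : a + b ≠ 0 := by simpa using D.sym_ne hd (one_ne_zero (α := E))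
  have hr' : t (a + b) ≠ 0 := (map_ne_zero t).mpr hr
  have htd : t (a * t a - b * t b) = a * t a - b * t b := by
    simp only [map_sub, map_mul, D.tt]; ring
  have hq : t (p * (a * t a - b * t b) / ((a + b) * t (a + b))) =
      -(p * (a * t a - b * t b) / ((a + b) * t (a + b))) := by
    rw [map_div₀, map_mul, htd, map_mul, D.tt, hp1]
    rw [mul_comm (t (a + b)) (a + b)]
    ring
  refine ⟨hq, fun u hu => ?_⟩
  set δ := a * t a - b * t b with hδ
  set r := a + b with hrd
  have hra : t r = t a + t b := by rw [hrd, map_add]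
  set w := (a * u + b * t u) / r with hw
  have hw0 : w ≠ 0 := div_ne_zero (D.sym_ne hd hu) hr
  have htw : t w = (t a * t u + t b * u) / t r := by
    rw [hw, map_div₀]
    simp only [map_add, map_mul, D.tt]
  have e2 : w - t w = δ * (u - t u) / (r * t r) := by
    rw [htw, hw]
    field_simp
    rw [hδ, hra, hrd]
    ring
  have h1 := hp2 w hw0
  have h2 := hs _ (D.per_ne hq hu)
  have e3 : a * (u + p * δ / (r * t r) * (u - t u)) + b * t (u + p * δ / (r * t r) * (u - t u)) =
      r * (w + p * (w - t w)) := by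
    rw [D.sym_per a b hq, e2, hw, ← hrd]
    field_simp
  rw [e3, D.hmul _ _ hr (D.per_ne hp1 hw0), h1] at h2
  have h3 := hs u hu
  rw [hw, D.hdiv (D.sym_ne hd hu) hr, h3] at h2
  have h4 : H u + k = H (u + p * δ / (r * t r) * (u - t u)) + k := by
    rw [← h2]; abel
  exact (add_right_cancel h4).symm

end Dat

theorem key_id {A A' k k' θ u u' G G' x y : E} (hk : k ≠ 0) (hk' : k' ≠ 0) (hθ : θ ≠ 0)
    (h1 : 1 - k ≠ 0) (h2 : 1 - k' ≠ 0) (hG : G = k * A' / θ) (hG' : G' = k' * A * θ)
    (hy : y = (1 - k) / (1 - k')) (hx : x = k' / k * y) :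
    x * (G * (G' * u + θ / y * A * u') - θ / x * A * (G * u' + (θ / y)⁻¹ * A' * u)) =
      (G * G' - A * A') * u + A * A' * (k - k') * (u - u') := by
  subst hG hG' hx hy
  field_simp
  ring

namespace Dat

variable {t : E ≃+* E} {H : E → T} {e E5 : E} {h0 : T} (D : Dat t H e E5 h0)

include D

section family

variable {μ ν s : E} (hμ : U1 t μ) (hν : U1 t ν) (hs : U1 t s) (hμν : μ * ν = s * s)

include hμ hν hs hμν

/-- if some `d = N G - N A` vanishes then `H = 0` -/
theorem eq_zero_of_d (hA : 1 + ν ≠ 0)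
    (hd : (e + E5 * μ) * t (e + E5 * μ) - (1 + ν) * t (1 + ν) = 0) {x : E} (hx : x ≠ 0) :
    H x = 0 := by
  set G := e + E5 * μ with hG
  set A := 1 + ν with hAd
  have hA' : t A ≠ 0 := (map_ne_zero t).mpr hA
  have hz : U1 t (G / A) := by
    unfold U1
    rw [map_div₀, div_mul_div_comm, div_eq_one_iff_eq (mul_ne_zero hA hA')]
    linear_combination hd
  have hG0 : G ≠ 0 := by
    intro h
    rw [h, zero_div] at hz
    exact hz.ne rfl
  refine D.eq_zero_of_const (k := h0 - H G) (fun z hz1 hz2 => ?_) hx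
  have e1 : G - G / A * z * A = G * (1 - z) := by field_simp
  have e2 : G * (1 - z) ≠ 0 := mul_ne_zero hG0 (sub_ne_zero.mpr (Ne.symm hz2))
  have h1 := D.star μ ν s (G / A * z) hμ hν hs (hz.mul hz1) hμν (by rw [← hG, ← hAd, e1]; exact e2)
  rw [← hG, ← hAd, e1, D.hmul _ _ hG0 (right_ne_zero_of_mul e2)] at h1
  rw [← h1]; abel

theorem sym_phi {z : E} (hz : U1 t z)
    (hd : (e + E5 * μ) * t (e + E5 * μ) - (1 + ν) * t (1 + ν) ≠ 0) :
    Sym t H (e + E5 * μ) (-(z * (1 + ν))) h0 := by
  have hd' : (e + E5 * μ) * t (e + E5 * μ) - -(z * (1 + ν)) * t (-(z * (1 + ν))) ≠ 0 := by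
    intro h
    apply hd
    rw [← h]
    rw [map_neg, map_mul]
    unfold U1 at hz
    linear_combination (1 + ν) * t (1 + ν) * hz
  refine ⟨hd', fun u hu => ?_⟩
  have h1 := D.sym_ne hd' hu
  have hz' : U1 t (z * (t u / u)) := hz.mul (U1.div_self' D.tt hu)
  have e1 : (e + E5 * μ) * u + -(z * (1 + ν)) * t u =
      u * (e + E5 * μ - z * (t u / u) * (1 + ν)) := by field_simp; ring
  rw [e1] at h1 ⊢
  rw [D.hmul _ _ hu (right_ne_zero_of_mul h1),
    D.star μ ν s _ hμ hν hs hz' hμν (right_ne_zero_of_mul h1)]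

/-- `N (G - z A) / d ∈ B` -/
theorem norm_div_mem {z : E} (hz : U1 t z)
    (hd : (e + E5 * μ) * t (e + E5 * μ) - (1 + ν) * t (1 + ν) ≠ 0) :
    (e + E5 * μ - z * (1 + ν)) * t (e + E5 * μ - z * (1 + ν)) /
      ((e + E5 * μ) * t (e + E5 * μ) - (1 + ν) * t (1 + ν)) ∈ D.BR := by
  have h := D.sym_phi hμ hν hs hμν hz hd
  have e1 : (e + E5 * μ) * t (e + E5 * μ) - -(z * (1 + ν)) * t (-(z * (1 + ν))) =
      (e + E5 * μ) * t (e + E5 * μ) - (1 + ν) * t (1 + ν) := by
    rw [map_neg, map_mul]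
    unfold U1 at hz
    linear_combination -(1 + ν) * t (1 + ν) * hz
  refine D.mem_BR_of_fix ?_ fun p hp => ?_
  · simp only [map_div₀, map_sub, map_mul, D.tt]
    ring
  · have h1 := D.per_conj h hp
    rw [e1, ← sub_eq_add_neg] at h1
    convert h1 using 1
    ring

/-- `d / N (G - z A) ∈ B` -/
theorem div_norm_mem {z : E} (hz : U1 t z)
    (hd : (e + E5 * μ) * t (e + E5 * μ) - (1 + ν) * t (1 + ν) ≠ 0) :
    ((e + E5 * μ) * t (e + E5 * μ) - (1 + ν) * t (1 + ν)) /
      ((e + E5 * μ - z * (1 + ν)) * t (e + E5 * μ - z * (1 + ν))) ∈ D.BR := by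
  have h := D.sym_phi hμ hν hs hμν hz hd
  have e1 : (e + E5 * μ) * t (e + E5 * μ) - -(z * (1 + ν)) * t (-(z * (1 + ν))) =
      (e + E5 * μ) * t (e + E5 * μ) - (1 + ν) * t (1 + ν) := by
    rw [map_neg, map_mul]
    unfold U1 at hz
    linear_combination -(1 + ν) * t (1 + ν) * hz
  refine D.mem_BR_of_fix ?_ fun p hp => ?_
  · simp only [map_div₀, map_sub, map_mul, D.tt]
    ring
  · have h1 := D.per_conj' h hp
    rw [e1, ← sub_eq_add_neg] at h1
    convert h1 using 1
    ring

/-- `A G / d ∈ PT` -/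
theorem AG_mem (hA : 1 + ν ≠ 0)
    (hd : (e + E5 * μ) * t (e + E5 * μ) - (1 + ν) * t (1 + ν) ≠ 0) :
    (1 + ν) * (e + E5 * μ) /
      ((e + E5 * μ) * t (e + E5 * μ) - (1 + ν) * t (1 + ν)) ∈ D.PT := by
  intro θ hθ
  have hphi : ∀ z, U1 t z → ∀ u, u ≠ 0 →
      H ((e + E5 * μ) * u - z * (1 + ν) * t u) = H u + h0 := by
    intro z hz u hu
    have := (D.sym_phi hμ hν hs hμν hz hd).2 u hu
    rw [← this]
    congr 1
    ring
  have hphi0 : ∀ z, U1 t z → ∀ u, u ≠ 0 → (e + E5 * μ) * u - z * (1 + ν) * t u ≠ 0 := by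
    intro z hz u hu
    have := D.sym_ne (D.sym_phi hμ hν hs hμν hz hd).1 hu
    intro h
    apply this
    linear_combination h
  set G := e + E5 * μ with hG
  set A := 1 + ν with hAd
  have hA' : t A ≠ 0 := (map_ne_zero t).mpr hA
  have hθ0 := hθ.ne
  have hθt := hθ.map_eq
  set δ := G * t G - A * t A with hδ
  have htδ : t δ = δ := by
    rw [hδ]; simp only [map_sub, map_mul, D.tt]; ring
  by_cases hG0 : G = 0
  · have : A * G / δ * θ - t (A * G / δ * θ) = 0 := by rw [hG0]; simp
    rw [this]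
    exact D.Per.zero_mem
  have hG' : t G ≠ 0 := (map_ne_zero t).mpr hG0
  set k := G * θ / t A with hk
  have hk0 : k ≠ 0 := div_ne_zero (mul_ne_zero hG0 hθ0) hA'
  have htk : t k = t G * θ⁻¹ / A := by rw [hk, map_div₀, map_mul, D.tt, hθt]
  have htk0 : t k ≠ 0 := (map_ne_zero t).mpr hk0
  have hk1 : k ≠ 1 := by
    intro h
    have h1 : G * θ = t A := by rw [hk, div_eq_one_iff_eq hA'] at h; exact h
    have h2 : t G * θ⁻¹ = A := by
      have := congrArg t h1
      rw [map_mul, D.tt, hθt] at this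
      exact this
    apply hd
    have h3 : A * t A = G * t G := by
      rw [← h1, ← h2]
      field_simp
    rw [hδ, h3, sub_self]
  have h1k : (1 : E) - k ≠ 0 := sub_ne_zero.mpr (Ne.symm hk1)
  have h1k' : (1 : E) - t k ≠ 0 := by
    have := (map_ne_zero t).mpr h1k
    rwa [map_sub, map_one] at this
  -- the two rotations
  set y := (1 - k) / (1 - t k) with hy
  set x := t k / k * y with hx
  have hty : U1 t y := by
    have := U1.div_self D.tt h1k
    rwa [map_sub, map_one] at this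
  have htx : U1 t x := (U1.div_self' D.tt hk0).mul hty
  have hx0 := htx.ne
  have hy0 := hty.ne
  have hz1 : U1 t (θ / x) := by
    rw [div_eq_mul_inv]; exact hθ.mul htx.inv
  have hz2 : U1 t (θ / y) := by
    rw [div_eq_mul_inv]; exact hθ.mul hty.inv
  -- main identity
  have hq : t (A * G / δ * θ - t (A * G / δ * θ)) = -(A * G / δ * θ - t (A * G / δ * θ)) := by
    rw [map_sub, D.tt]; ring
  set q := A * G / δ * θ - t (A * G / δ * θ) with hqd
  have hq1 : δ * q = A * t A * (k - t k) := by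
    rw [hqd, map_mul, map_div₀, htδ, map_mul, hθt, htk, hk]
    field_simp
  have key : ∀ u, u ≠ 0 → H (u + q * (u - t u)) = H x + H u := by
    intro u hu
    set v := t G * u + θ / y * A * t u with hv
    have htv : t v = G * t u + (θ / y)⁻¹ * t A * u := by
      rw [hv, map_add, map_mul, map_mul, map_mul, D.tt, D.tt, hz2.map_eq]
    have e1 : G * v - θ / y * A * t v = δ * u := by
      rw [htv, hv, hδ]
      field_simp
      ring
    have hv0 : v ≠ 0 := by
      intro h
      rw [h, map_zero, mul_zero, mul_zero, sub_zero] at e1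
      exact (mul_ne_zero hd hu) e1.symm
    have e2 : x * (G * v - θ / x * A * t v) = δ * (u + q * (u - t u)) := by
      have e3 : δ * (u + q * (u - t u)) = δ * u + A * t A * (k - t k) * (u - t u) := by
        rw [mul_add, ← mul_assoc, hq1]
      rw [e3, htv, hv, hδ]
      exact key_id hk0 htk0 hθ0 h1k h1k' (by rw [hk]; field_simp) (by rw [htk]; field_simp) hy hx
    have e4 := hphi _ hz2 v hv0
    rw [e1, D.hfmul hd hu htδ] at e4
    have e5 := hphi _ hz1 v hv0
    have e6 := hphi0 _ hz1 v hv0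
    have e7 : H (x * (G * v - θ / x * A * t v)) = H x + (H v + h0) := by
      rw [D.hmul _ _ hx0 e6, e5]
    rw [e2, D.hfmul hd (D.per_ne hq hu) htδ, ← e4] at e7
    exact e7
  have hx1 : H x = 0 := by
    have := key 1 one_ne_zero
    rw [map_one, sub_self, mul_zero, add_zero] at this
    exact add_eq_right.mp this.symm
  refine ⟨hq, fun u hu => ?_⟩
  rw [key u hu, hx1, zero_add]

end family

end Dat

end Pool.Agent.MP_1b9aaa_al.T5
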