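import Pool.Agent.Lib.MP_1b9aaa_al.T5E

/-!
# MP_1b9aaa_al, T_5: the homomorphism `H : E* → T` and the relation (**)

`K ⊃ S` fields, `c` a Steinberg symbol on `K`, zero on `K* × S*`, `x ∈ K \ S`,
`q = X² - bX - a` irreducible over `S`, `E = S(ω)`, `ω² = a + bω` (`QuadraticAlgebra S a b`),
`Q = q(x) ≠ 0`.

* `L x e = e.re + e.im x` (`= l(x)` for the linear form `l` with `l(ω) = e`);
* `H c x e = c (L x e) Q`: a homomorphism `E* → T`, trivial on `S*`, `H(ē) = -H(e)`;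
* `x` is a root of `P = P₀ + q P₁ + q² P₂`, `P_i` linear forms (elements of `E`);
* `star_star` (**): for `λ₁, ..., λ₅ ∈ E*` with product `P₀` let
  `G(λ) = P₁ - ...` be the value at `ω` of `(P - l₁ l₂ l₃ l₄ l₅)/q`.  Then `H(G(λ))` is constant.
* `G_eq`: `(ω - ω̄)² G(λ) = P₀ (Σ λ̄_i/λ_i - A)`.
-/

set_option autoImplicit false

namespace Pool.Agent.MP_1b9aaa_al

open IsSteinberg

namespace Quin

variable {K T : Type*} [Field K] [AddCommGroup T] {c : K → K → T} {S : Subfield K} {a b : S}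

/-- the value at `x` of the linear form with value `e` at `ω` -/
def L (x : K) (e : QuadraticAlgebra S a b) : K := (e.re : K) + (e.im : K) * x

/-- `q(x)` -/
def Qx (a b : S) (x : K) : K := x ^ 2 - (b : K) * x - (a : K)

/-- the homomorphism `H` -/
def H (c : K → K → T) (x : K) (e : QuadraticAlgebra S a b) : T := c (L x e) (Qx a b x)

section basic

variable (x : K) (e e' : QuadraticAlgebra S a b)

lemma L_mul : L x e * L x e' = L x (e * e') + ((e.im * e'.im : S) : K) * Qx a b x := by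
  simp only [L, Qx, QuadraticAlgebra.re_mul, QuadraticAlgebra.im_mul]
  push_cast
  ring

lemma L_add : L x (e + e') = L x e + L x e' := by
  simp only [L, QuadraticAlgebra.re_add, QuadraticAlgebra.im_add]
  push_cast
  ring

lemma L_sub : L x (e - e') = L x e - L x e' := by
  simp only [L, QuadraticAlgebra.re_sub, QuadraticAlgebra.im_sub]
  push_cast
  ring

lemma L_smul (f : S) : L x (f • e) = (f : K) * L x e := by
  simp only [L, QuadraticAlgebra.re_smul, QuadraticAlgebra.im_smul, smul_eq_mul]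
  push_cast
  ring

lemma L_C (f : S) : L x (QuadraticAlgebra.C f : QuadraticAlgebra S a b) = f := by
  simp [L]

end basic

lemma L_ne {x : K} (hx : x ∉ S) {e : QuadraticAlgebra S a b} (he : e ≠ 0) : L x e ≠ 0 := by
  intro h
  apply he
  have h' : (e.re : K) + (e.im : K) * x = 0 := h
  by_cases him : e.im = 0
  · rw [him] at h'
    have hre : e.re = 0 := by
      apply Subtype.ext
      simpa using h'
    exact QuadraticAlgebra.ext hre him
  · exfalso
    apply hx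
    have him' : (e.im : K) ≠ 0 := fun h => him (Subtype.ext h)
    have e1 : x = -(e.re : K) / (e.im : K) := by
      rw [eq_div_iff him']; linear_combination h'
    rw [e1]
    exact div_mem (neg_mem e.re.2) e.im.2

lemma L_line (hc : IsSteinberg c) (hS : VanOn c S) {x : K} (hx : x ∉ S)
    {e e' : QuadraticAlgebra S a b} (he : e ≠ 0) (he' : e' ≠ 0) : c (L x e) (L x e') = 0 :=
  hc.line hS (s := x) e.re.2 e.im.2 e'.re.2 e'.im.2 rfl rfl (L_ne hx he) (L_ne hx he')

lemma H_C (hc : IsSteinberg c) (hS : VanOn c S) {x : K} (hQ : Qx a b x ≠ 0) {f : S}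
    (hf : f ≠ 0) : H c x (QuadraticAlgebra.C f : QuadraticAlgebra S a b) = 0 := by
  rw [H, L_C]
  exact hc.van_left hS f.2 (fun h => hf (Subtype.ext h)) hQ

variable [hE : Fact (∀ r : S, r ^ 2 ≠ a + b * r)]

/-- `H` is a homomorphism -/
lemma H_mul (hc : IsSteinberg c) (hS : VanOn c S) {x : K} (hx : x ∉ S) (hQ : Qx a b x ≠ 0)
    {e e' : QuadraticAlgebra S a b} (he : e ≠ 0) (he' : e' ≠ 0) :
    H c x (e * e') = H c x e + H c x e' := by
  have h0 : e * e' ≠ 0 := mul_ne_zero he he'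
  have n1 := L_ne hx he
  have n2 := L_ne hx he'
  have n3 := L_ne hx h0
  have hm := L_mul x e e'
  simp only [H]
  rw [← hc.mul_left _ _ _ n1 n2 hQ]
  set κ : K := ((e.im * e'.im : S) : K) with hκ
  by_cases hk : κ = 0
  · rw [hm, hk, zero_mul, add_zero]
  · have hkS : κ ∈ S := (e.im * e'.im).2
    have h3 := hc.three hS (mul_ne_zero n1 n2) n3 (mul_ne_zero hk hQ) hm
    have z1 : c (L x (e * e')) (L x e * L x e') = 0 := by
      rw [hc.mul_right _ _ _ n3 n1 n2, L_line hc hS hx h0 he, L_line hc hS hx h0 he', add_zero]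
    rw [z1, zero_sub, hc.scal_right hS hkS hk hQ n3,
      hc.scal_left hS hkS hk hQ (mul_ne_zero n1 n2), hc.skew hQ (mul_ne_zero n1 n2), neg_neg] at h3
    exact h3

omit hE in
lemma H_one (hc : IsSteinberg c) {x : K} (hQ : Qx a b x ≠ 0) :
    H c x (1 : QuadraticAlgebra S a b) = 0 := by
  have : L x (1 : QuadraticAlgebra S a b) = 1 := by
    have := L_C (a := a) (b := b) x (1 : S)
    simpa using this
  rw [H, this, hc.one_left hQ]

lemma H_inv (hc : IsSteinberg c) (hS : VanOn c S) {x : K} (hx : x ∉ S) (hQ : Qx a b x ≠ 0)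
    {e : QuadraticAlgebra S a b} (he : e ≠ 0) : H c x e⁻¹ = -H c x e := by
  have h := H_mul hc hS hx hQ he (inv_ne_zero he)
  rw [mul_inv_cancel₀ he, H_one hc hQ] at h
  exact (neg_eq_of_add_eq_zero_right h.symm).symm

lemma H_div (hc : IsSteinberg c) (hS : VanOn c S) {x : K} (hx : x ∉ S) (hQ : Qx a b x ≠ 0)
    {e e' : QuadraticAlgebra S a b} (he : e ≠ 0) (he' : e' ≠ 0) :
    H c x (e / e') = H c x e - H c x e' := by
  rw [div_eq_mul_inv, H_mul hc hS hx hQ he (inv_ne_zero he'), H_inv hc hS hx hQ he', sub_eq_add_neg]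

lemma H_star (hc : IsSteinberg c) (hS : VanOn c S) {x : K} (hx : x ∉ S) (hQ : Qx a b x ≠ 0)
    {e : QuadraticAlgebra S a b} (he : e ≠ 0) : H c x (star e) = -H c x e := by
  have hs : star e ≠ 0 := star_ne_zero.mpr he
  have hn : e * star e = QuadraticAlgebra.C (QuadraticAlgebra.norm e) := by
    rw [← QuadraticAlgebra.algebraMap_norm_eq_mul_star]; rfl
  have hn0 : QuadraticAlgebra.norm e ≠ 0 := by
    intro h
    rw [h] at hn
    exact mul_ne_zero he hs (by rw [hn]; exact QuadraticAlgebra.C_zero)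
  have h := H_mul hc hS hx hQ he hs
  rw [hn, H_C hc hS hQ hn0] at h
  exact (neg_eq_of_add_eq_zero_right h.symm).symm

/-! ### the three-term relation -/

omit hE in
/-- three linear forms -/
lemma L_three (x : K) (l3 l4 l5 : QuadraticAlgebra S a b) :
    L x l3 * L x l4 * L x l5 = L x (l3 * l4 * l5) +
      Qx a b x * L x (QuadraticAlgebra.C ((l3 * l4).im * l5.im) + (l3.im * l4.im) • l5) := by
  have h1 := L_mul x l3 l4
  have h2 := L_mul x (l3 * l4) l5
  rw [L_add, L_C, L_smul, h1]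
  linear_combination h2

/-- `λ_3 λ_4 λ_5 = M_0 + q M_1` -/
def M1 (l3 l4 l5 : QuadraticAlgebra S a b) : QuadraticAlgebra S a b :=
  QuadraticAlgebra.C ((l3 * l4).im * l5.im) + (l3.im * l4.im) • l5

/-- the part of `G` depending on `λ_1, λ_2` only; `M_0 = λ_3 λ_4 λ_5` -/
def G0 (P1 l1 l2 m : QuadraticAlgebra S a b) : QuadraticAlgebra S a b :=
  P1 - QuadraticAlgebra.C ((l1 * l2).im * m.im) - (l1.im * l2.im) • m

/-- the value of `(P - l_1 l_2 l_3 l_4 l_5)/q` at `ω`, when the product of the `λ_i` is `P_0` -/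
def Gv (P1 l1 l2 l3 l4 l5 : QuadraticAlgebra S a b) : QuadraticAlgebra S a b :=
  G0 P1 l1 l2 (l3 * l4 * l5) - l1 * l2 * M1 l3 l4 l5

/-- the linear form `l` -/
noncomputable def lv (P1 P2 l1 l2 m : QuadraticAlgebra S a b) : QuadraticAlgebra S a b :=
  P2 - QuadraticAlgebra.C ((l1 * l2).im * (G0 P1 l1 l2 m / (l1 * l2)).im) -
    (l1.im * l2.im) • (G0 P1 l1 l2 m / (l1 * l2))

lemma rel3 {x : K} {P0 P1 P2 : QuadraticAlgebra S a b}
    (hP : L x P0 + Qx a b x * L x P1 + Qx a b x ^ 2 * L x P2 = 0)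
    {l1 l2 l3 l4 l5 : QuadraticAlgebra S a b} (h1 : l1 ≠ 0) (h2 : l2 ≠ 0)
    (hprod : l1 * l2 * (l3 * l4 * l5) = P0) :
    L x l1 * L x l2 * (L x l3 * L x l4 * L x l5 +
        Qx a b x * L x (Gv P1 l1 l2 l3 l4 l5 / (l1 * l2))) +
      Qx a b x ^ 2 * L x (lv P1 P2 l1 l2 (l3 * l4 * l5)) = 0 := by
  have h12 : l1 * l2 ≠ 0 := mul_ne_zero h1 h2
  set m := l3 * l4 * l5 with hm
  set ν := G0 P1 l1 l2 m / (l1 * l2) with hν
  have hνG : l1 * l2 * ν = G0 P1 l1 l2 m := by rw [hν]; field_simp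
  have hμ : Gv P1 l1 l2 l3 l4 l5 / (l1 * l2) = ν - M1 l3 l4 l5 := by
    rw [Gv, ← hm, ← hνG]; field_simp
  have e1 := L_mul x l1 l2
  have e2 := L_mul x (l1 * l2) m
  have e3 := L_mul x (l1 * l2) ν
  have e4 := L_three x l3 l4 l5
  rw [← hm] at e4
  rw [hprod] at e2
  rw [hνG] at e3
  have e5 : L x (G0 P1 l1 l2 m) = L x P1 - (((l1 * l2).im * m.im : S) : K)
      - ((l1.im * l2.im : S) : K) * L x m := by
    rw [G0, L_sub, L_sub, L_C, L_smul]
  have e6 : L x (lv P1 P2 l1 l2 m) = L x P2 - (((l1 * l2).im * ν.im : S) : K)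
      - ((l1.im * l2.im : S) : K) * L x ν := by
    rw [lv, ← hν, L_sub, L_sub, L_C, L_smul]
  rw [hμ, L_sub, e6, M1, e4]
  rw [e5] at e3
  linear_combination (L x m + Qx a b x * L x ν) * e1 + e2 + Qx a b x * e3 + hP

/-- **R3**: `2 H(G) = H(P_0) + H(l)` (or `H(G) = H(P_0)` if `l = 0`). -/
lemma R3 (hc : IsSteinberg c) (hS : VanOn c S) {x : K} (hx : x ∉ S) (hQ : Qx a b x ≠ 0)
    {P0 P1 P2 : QuadraticAlgebra S a b}
    (hP : L x P0 + Qx a b x * L x P1 + Qx a b x ^ 2 * L x P2 = 0)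
    {l1 l2 l3 l4 l5 : QuadraticAlgebra S a b} (h1 : l1 ≠ 0) (h2 : l2 ≠ 0) (h3 : l3 ≠ 0)
    (h4 : l4 ≠ 0) (h5 : l5 ≠ 0) (hprod : l1 * l2 * (l3 * l4 * l5) = P0)
    (hG : Gv P1 l1 l2 l3 l4 l5 ≠ 0) :
    (lv P1 P2 l1 l2 (l3 * l4 * l5) = 0 → H c x (Gv P1 l1 l2 l3 l4 l5) = H c x P0) ∧
    (lv P1 P2 l1 l2 (l3 * l4 * l5) ≠ 0 → H c x (Gv P1 l1 l2 l3 l4 l5) +
      H c x (Gv P1 l1 l2 l3 l4 l5) = H c x P0 + H c x (lv P1 P2 l1 l2 (l3 * l4 * l5))) := by
  have h12 : l1 * l2 ≠ 0 := mul_ne_zero h1 h2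
  have h34 : l3 * l4 ≠ 0 := mul_ne_zero h3 h4
  have h345 : l3 * l4 * l5 ≠ 0 := mul_ne_zero h34 h5
  set μ := Gv P1 l1 l2 l3 l4 l5 / (l1 * l2) with hμ
  have hμ0 : μ ≠ 0 := div_ne_zero hG h12
  have hμG : l1 * l2 * μ = Gv P1 l1 l2 l3 l4 l5 := by rw [hμ]; field_simp
  have hrel := rel3 hP h1 h2 hprod
  rw [← hμ] at hrel
  set l := lv P1 P2 l1 l2 (l3 * l4 * l5) with hl
  set Q := Qx a b x with hQd
  have n1 := L_ne hx h1
  have n2 := L_ne hx h2
  have n3 := L_ne hx h3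
  have n4 := L_ne hx h4
  have n5 := L_ne hx h5
  have nμ := L_ne hx hμ0
  set U : K := L x l1 * L x l2 * (L x l3 * L x l4 * L x l5) with hU
  set V : K := L x l1 * L x l2 * L x μ with hV
  have nU : U ≠ 0 := mul_ne_zero (mul_ne_zero n1 n2) (mul_ne_zero (mul_ne_zero n3 n4) n5)
  have nV : V ≠ 0 := mul_ne_zero (mul_ne_zero n1 n2) nμ
  -- `c(U,Q) = H(P0)`, `c(V,Q) = H(G)`
  have cU : c U Q = H c x P0 := by
    rw [← hprod, H_mul hc hS hx hQ h12 h345, H_mul hc hS hx hQ h1 h2, H_mul hc hS hx hQ h34 h5,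
      H_mul hc hS hx hQ h3 h4]
    rw [hU, hc.mul_left _ _ _ (mul_ne_zero n1 n2) (mul_ne_zero (mul_ne_zero n3 n4) n5) hQ,
      hc.mul_left _ _ _ n1 n2 hQ, hc.mul_left _ _ _ (mul_ne_zero n3 n4) n5 hQ,
      hc.mul_left _ _ _ n3 n4 hQ]
    rfl
  have cV : c V Q = H c x (Gv P1 l1 l2 l3 l4 l5) := by
    rw [← hμG, H_mul hc hS hx hQ h12 hμ0, H_mul hc hS hx hQ h1 h2]
    rw [hV, hc.mul_left _ _ _ (mul_ne_zero n1 n2) nμ hQ, hc.mul_left _ _ _ n1 n2 hQ]
    rfl
  -- linear forms are orthogonal to `U` and `V`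
  have cUl : ∀ e : QuadraticAlgebra S a b, e ≠ 0 → c U (L x e) = 0 := by
    intro e he
    have ne := L_ne hx he
    rw [hU, hc.mul_left _ _ _ (mul_ne_zero n1 n2) (mul_ne_zero (mul_ne_zero n3 n4) n5) ne,
      hc.mul_left _ _ _ n1 n2 ne, hc.mul_left _ _ _ (mul_ne_zero n3 n4) n5 ne,
      hc.mul_left _ _ _ n3 n4 ne, L_line hc hS hx h1 he, L_line hc hS hx h2 he,
      L_line hc hS hx h3 he, L_line hc hS hx h4 he, L_line hc hS hx h5 he]
    simp
  have cVl : ∀ e : QuadraticAlgebra S a b, e ≠ 0 → c V (L x e) = 0 := by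
    intro e he
    have ne := L_ne hx he
    rw [hV, hc.mul_left _ _ _ (mul_ne_zero n1 n2) nμ ne, hc.mul_left _ _ _ n1 n2 ne,
      L_line hc hS hx h1 he, L_line hc hS hx h2 he, L_line hc hS hx hμ0 he]
    simp
  have cUV : c U V = 0 := by
    have e1 : c U V = c U (L x l1) + c U (L x l2) + c U (L x μ) := by
      rw [hV, hc.mul_right _ _ _ nU (mul_ne_zero n1 n2) nμ, hc.mul_right _ _ _ nU n1 n2]
    rw [e1, cUl _ h1, cUl _ h2, cUl _ hμ0, add_zero, add_zero]
  have hrel' : U + Q * V + Q ^ 2 * L x l = 0 := by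
    rw [hU, hV]; linear_combination hrel
  have m1S : (-1 : K) ∈ S := neg_mem (one_mem S)
  have m10 : (-1 : K) ≠ 0 := neg_ne_zero.mpr one_ne_zero
  constructor
  · intro hl0
    have hLl : L x l = 0 := by rw [hl0]; simp [L]
    have e1 : U = (-1) * (Q * V) := by
      rw [hLl] at hrel'; linear_combination hrel'
    rw [← cU, e1, hc.scal_left hS m1S m10 (mul_ne_zero hQ nV) hQ, hc.mul_left _ _ _ hQ nV hQ,
      hc.self hS hQ, zero_add, cV]
  · intro hl0
    have nl := L_ne hx hl0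
    have nQl : Q * (Q * L x l) ≠ 0 := mul_ne_zero hQ (mul_ne_zero hQ nl)
    have nW : (-1) * (Q * (Q * L x l)) ≠ 0 := mul_ne_zero m10 nQl
    have nQV : Q * V ≠ 0 := mul_ne_zero hQ nV
    have h3t := hc.three hS nW nU nQV (by linear_combination -hrel')
    rw [hc.scal_right hS m1S m10 nQl nU, hc.scal_right hS m1S m10 nQl nQV,
      hc.mul_right _ _ _ nU hQ nV, cUV, add_zero] at h3t
    have t1 : c U (Q * (Q * L x l)) = c U Q + c U Q := by
      rw [hc.mul_right _ _ _ nU hQ (mul_ne_zero hQ nl), hc.mul_right _ _ _ nU hQ nl, cUl _ hl0,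
        add_zero]
    have t2 : c (Q * V) (Q * (Q * L x l)) = c V Q + c V Q - H c x l := by
      rw [hc.mul_left _ _ _ hQ nV nQl,
        hc.mul_right _ _ _ hQ hQ (mul_ne_zero hQ nl), hc.mul_right _ _ _ hQ hQ nl,
        hc.mul_right _ _ _ nV hQ (mul_ne_zero hQ nl), hc.mul_right _ _ _ nV hQ nl, cVl _ hl0,
        hc.self hS hQ, hc.skew hQ nl]
      simp only [H, ← hQd]
      abel
    rw [t1, t2, cU, cV] at h3t
    linear_combination (norm := abel) h3t

/-- **exchange**: `H(G)` depends only on `λ_1, λ_2` (and on the product). -/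
lemma exch (hc : IsSteinberg c) (hS : VanOn c S) (h2T : ∀ t : T, t + t = 0 → t = 0) {x : K}
    (hx : x ∉ S) (hQ : Qx a b x ≠ 0) {P0 P1 P2 : QuadraticAlgebra S a b}
    (hP : L x P0 + Qx a b x * L x P1 + Qx a b x ^ 2 * L x P2 = 0)
    {l1 l2 l3 l4 l5 l3' l4' l5' : QuadraticAlgebra S a b} (h1 : l1 ≠ 0) (h2 : l2 ≠ 0)
    (h3 : l3 ≠ 0) (h4 : l4 ≠ 0) (h5 : l5 ≠ 0) (h3' : l3' ≠ 0) (h4' : l4' ≠ 0) (h5' : l5' ≠ 0)
    (hprod : l1 * l2 * (l3 * l4 * l5) = P0) (hprod' : l1 * l2 * (l3' * l4' * l5') = P0)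
    (hG : Gv P1 l1 l2 l3 l4 l5 ≠ 0) (hG' : Gv P1 l1 l2 l3' l4' l5' ≠ 0) :
    H c x (Gv P1 l1 l2 l3 l4 l5) = H c x (Gv P1 l1 l2 l3' l4' l5') := by
  have h12 : l1 * l2 ≠ 0 := mul_ne_zero h1 h2
  have hm : l3' * l4' * l5' = l3 * l4 * l5 := mul_left_cancel₀ h12 (by rw [hprod, hprod'])
  obtain ⟨r1, r2⟩ := R3 hc hS hx hQ hP h1 h2 h3 h4 h5 hprod hG
  obtain ⟨s1, s2⟩ := R3 hc hS hx hQ hP h1 h2 h3' h4' h5' hprod' hG'
  rw [hm] at s1 s2
  by_cases hl : lv P1 P2 l1 l2 (l3 * l4 * l5) = 0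
  · rw [r1 hl, s1 hl]
  · have e := (r2 hl).trans (s2 hl).symm
    have e2 : (H c x (Gv P1 l1 l2 l3 l4 l5) - H c x (Gv P1 l1 l2 l3' l4' l5')) +
        (H c x (Gv P1 l1 l2 l3 l4 l5) - H c x (Gv P1 l1 l2 l3' l4' l5')) = 0 := by
      linear_combination (norm := abel) e
    exact sub_eq_zero.mp (h2T _ e2)

/-- the element `A` (the trace of Θ) -/
noncomputable def Av (P0 P1 : QuadraticAlgebra S a b) : QuadraticAlgebra S a b :=
  4 + star P0 / P0 - (QuadraticAlgebra.omega - star QuadraticAlgebra.omega) ^ 2 * P1 / P0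

/-- the centre formula -/
lemma G_eq {P0 P1 l1 l2 l3 l4 l5 : QuadraticAlgebra S a b} (h1 : l1 ≠ 0) (h2 : l2 ≠ 0)
    (h3 : l3 ≠ 0) (h4 : l4 ≠ 0) (h5 : l5 ≠ 0) (hprod : l1 * l2 * (l3 * l4 * l5) = P0) :
    (QuadraticAlgebra.omega - star QuadraticAlgebra.omega) ^ 2 * Gv P1 l1 l2 l3 l4 l5 =
      P0 * (star l1 / l1 + star l2 / l2 + star l3 / l3 + star l4 / l4 + star l5 / l5
        - Av P0 P1) := by
  set δ : QuadraticAlgebra S a b := QuadraticAlgebra.omega - star QuadraticAlgebra.omega with hδ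
  have him : ∀ e : QuadraticAlgebra S a b, QuadraticAlgebra.C e.im * δ = e - star e := by
    intro e
    ext
    · simp [hδ]
      ring
    · simp [hδ]
      ring
  have hsm : ∀ (f : S) (e : QuadraticAlgebra S a b), f • e = QuadraticAlgebra.C f * e :=
    fun f e => (QuadraticAlgebra.C_mul_eq_smul f e).symm
  have e12 := him (l1 * l2)
  have e1 := him l1
  have e2 := him l2
  have e3 := him l3
  have e4 := him l4
  have e5 := him l5
  have e34 := him (l3 * l4)
  have em := him (l3 * l4 * l5)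
  rw [star_mul'] at e12 e34
  rw [star_mul', star_mul'] at em
  have hP0 : P0 ≠ 0 := by
    rw [← hprod]
    exact mul_ne_zero (mul_ne_zero h1 h2) (mul_ne_zero (mul_ne_zero h3 h4) h5)
  have hstar : star P0 = star l1 * star l2 * (star l3 * star l4 * star l5) := by
    rw [← hprod]; simp only [star_mul']
  have hr : P0 * (star l1 / l1 + star l2 / l2 + star l3 / l3 + star l4 / l4 + star l5 / l5
        - Av P0 P1) = star l1 * l2 * (l3 * l4 * l5) + l1 * star l2 * (l3 * l4 * l5)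
        + l1 * l2 * (star l3 * l4 * l5) + l1 * l2 * (l3 * star l4 * l5)
        + l1 * l2 * (l3 * l4 * star l5) - 4 * P0 - star P0 + δ ^ 2 * P1 := by
    have t1 : P0 * (star l1 / l1) = star l1 * l2 * (l3 * l4 * l5) := by
      rw [← hprod]; field_simp
    have t2 : P0 * (star l2 / l2) = l1 * star l2 * (l3 * l4 * l5) := by
      rw [← hprod]; field_simp
    have t3 : P0 * (star l3 / l3) = l1 * l2 * (star l3 * l4 * l5) := by
      rw [← hprod]; field_simp
    have t4 : P0 * (star l4 / l4) = l1 * l2 * (l3 * star l4 * l5) := by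
      rw [← hprod]; field_simp
    have t5 : P0 * (star l5 / l5) = l1 * l2 * (l3 * l4 * star l5) := by
      rw [← hprod]; field_simp
    have t6 : P0 * Av P0 P1 = 4 * P0 + star P0 - δ ^ 2 * P1 := by
      rw [Av, ← hδ]; field_simp
    rw [mul_sub, mul_add, mul_add, mul_add, mul_add, t1, t2, t3, t4, t5, t6]
    ring
  rw [hr, hstar]
  simp only [Gv, G0, M1, hsm, QuadraticAlgebra.C_mul]
  set C12 := (QuadraticAlgebra.C (l1 * l2).im : QuadraticAlgebra S a b)
  set C1 := (QuadraticAlgebra.C l1.im : QuadraticAlgebra S a b)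
  set C2 := (QuadraticAlgebra.C l2.im : QuadraticAlgebra S a b)
  set C3 := (QuadraticAlgebra.C l3.im : QuadraticAlgebra S a b)
  set C4 := (QuadraticAlgebra.C l4.im : QuadraticAlgebra S a b)
  set C5 := (QuadraticAlgebra.C l5.im : QuadraticAlgebra S a b)
  set C34 := (QuadraticAlgebra.C (l3 * l4).im : QuadraticAlgebra S a b)
  set CM := (QuadraticAlgebra.C (l3 * l4 * l5).im : QuadraticAlgebra S a b)
  have f1 : δ ^ 2 * (C12 * CM) = (l1 * l2 - star l1 * star l2) *
      (l3 * l4 * l5 - star l3 * star l4 * star l5) := by rw [← e12, ← em]; ring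
  have f2 : δ ^ 2 * (C1 * C2) = (l1 - star l1) * (l2 - star l2) := by rw [← e1, ← e2]; ring
  have f3 : δ ^ 2 * (C34 * C5) = (l3 * l4 - star l3 * star l4) * (l5 - star l5) := by
    rw [← e34, ← e5]; ring
  have f4 : δ ^ 2 * (C3 * C4) = (l3 - star l3) * (l4 - star l4) := by rw [← e3, ← e4]; ring
  linear_combination -f1 - (l3 * l4 * l5) * f2 - (l1 * l2) * f3 - (l1 * l2 * l5) * f4 -
    4 * hprod

/-! ### norm one elements -/

/-- norm one -/
def U1 (e : QuadraticAlgebra S a b) : Prop := e * star e = 1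

omit hE in
lemma U1.ne {e : QuadraticAlgebra S a b} (h : U1 e) : e ≠ 0 := by
  rintro rfl
  have h' : (0 : QuadraticAlgebra S a b) * star 0 = 1 := h
  rw [zero_mul] at h'
  exact zero_ne_one h'

omit hE in
lemma hdel_ne : (QuadraticAlgebra.omega - star QuadraticAlgebra.omega : QuadraticAlgebra S a b) ≠ 0
    ∨ ((2 : S) = 0 ∧ b = 0) := by
  by_cases h : (2 : S) = 0 ∧ b = 0
  · exact Or.inr h
  · left
    intro h0
    apply h
    have h1 := congrArg QuadraticAlgebra.im h0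
    have h2 := congrArg QuadraticAlgebra.re h0
    simp at h1 h2
    constructor
    · linear_combination h1
    · exact h2

/-- Hilbert 90 -/
lemma hil {e : QuadraticAlgebra S a b}
    (hδ : (QuadraticAlgebra.omega - star QuadraticAlgebra.omega : QuadraticAlgebra S a b) ≠ 0)
    (h : U1 e) : ∃ l : QuadraticAlgebra S a b, l ≠ 0 ∧ star l / l = e := by
  have h' : e * star e = 1 := h
  by_cases h1 : 1 + star e = 0
  · refine ⟨_, hδ, ?_⟩
    rw [div_eq_iff hδ]
    have e1 : e = -1 := by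
      have : star e = -1 := by linear_combination h1
      have := congrArg star this
      simpa using this
    rw [e1, star_sub, star_star]
    ring
  · refine ⟨1 + star e, h1, ?_⟩
    rw [div_eq_iff h1, star_add, star_star, star_one]
    linear_combination -h'

/-- lift of three norm one elements -/
lemma lift3 (hδ : (QuadraticAlgebra.omega - star QuadraticAlgebra.omega : QuadraticAlgebra S a b) ≠ 0)
    {P0 l1 l2 e1 e2 e3 e4 e5 : QuadraticAlgebra S a b} (hP0 : P0 ≠ 0) (h1 : l1 ≠ 0) (h2 : l2 ≠ 0)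
    (h1e : star l1 / l1 = e1) (h2e : star l2 / l2 = e2) (h3e : U1 e3) (h4e : U1 e4) (h5e : U1 e5)
    (hprod : e1 * e2 * (e3 * e4 * e5) = star P0 / P0) :
    ∃ l3 l4 l5 : QuadraticAlgebra S a b, l3 ≠ 0 ∧ l4 ≠ 0 ∧ l5 ≠ 0 ∧ star l3 / l3 = e3 ∧
      star l4 / l4 = e4 ∧ star l5 / l5 = e5 ∧ l1 * l2 * (l3 * l4 * l5) = P0 := by
  obtain ⟨m3, n3, f3⟩ := hil hδ h3e
  obtain ⟨m4, n4, f4⟩ := hil hδ h4e
  obtain ⟨m5, n5, f5⟩ := hil hδ h5e
  have hM : l1 * l2 * (m3 * m4 * m5) ≠ 0 :=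
    mul_ne_zero (mul_ne_zero h1 h2) (mul_ne_zero (mul_ne_zero n3 n4) n5)
  set R : QuadraticAlgebra S a b := P0 / (l1 * l2 * (m3 * m4 * m5)) with hR
  have hR0 : R ≠ 0 := div_ne_zero hP0 hM
  have hRM : R * (l1 * l2 * (m3 * m4 * m5)) = P0 := by rw [hR]; field_simp
  have s1 : star l1 = e1 * l1 := by rw [← h1e]; field_simp
  have s2 : star l2 = e2 * l2 := by rw [← h2e]; field_simp
  have s3 : star m3 = e3 * m3 := by rw [← f3]; field_simp
  have s4 : star m4 = e4 * m4 := by rw [← f4]; field_simp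
  have s5 : star m5 = e5 * m5 := by rw [← f5]; field_simp
  have hsP : star P0 = e1 * e2 * (e3 * e4 * e5) * P0 := by rw [hprod]; field_simp
  have hprod0 : e1 * e2 * (e3 * e4 * e5) ≠ 0 := by
    rw [hprod]; exact div_ne_zero (star_ne_zero.mpr hP0) hP0
  have hRs : star R = R := by
    have h := congrArg star hRM
    simp only [star_mul'] at h
    rw [s1, s2, s3, s4, s5, hsP, ← hRM] at h
    have hne : e1 * e2 * (e3 * e4 * e5) * (l1 * l2 * (m3 * m4 * m5)) ≠ 0 := mul_ne_zero hprod0 hM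
    apply mul_right_cancel₀ hne
    linear_combination h
  refine ⟨R * m3, m4, m5, mul_ne_zero hR0 n3, n4, n5, ?_, f4, f5, ?_⟩
  · rw [star_mul', hRs, s3]; field_simp
  · rw [← hRM]; ring

/-- norm one elements avoiding two quadratic equations -/
lemma exists_w [Infinite S]
    (hδ : (QuadraticAlgebra.omega - star QuadraticAlgebra.omega : QuadraticAlgebra S a b) ≠ 0)
    {α β γ α' β' γ' : QuadraticAlgebra S a b} (hα : α ≠ 0) (hα' : α' ≠ 0) :
    ∃ w : QuadraticAlgebra S a b, U1 w ∧ α * w ^ 2 + β * w + γ ≠ 0 ∧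
      α' * w ^ 2 + β' * w + γ' ≠ 0 := by
  classical
  have hτ : ∀ f : S, (QuadraticAlgebra.C f + QuadraticAlgebra.omega : QuadraticAlgebra S a b) ≠ 0 := by
    intro f h
    have := congrArg QuadraticAlgebra.im h
    simp at this
  let wf : S → QuadraticAlgebra S a b := fun f =>
    (star (QuadraticAlgebra.C f + QuadraticAlgebra.omega)) /
      (QuadraticAlgebra.C f + QuadraticAlgebra.omega)
  have hC : ∀ f : S, star (QuadraticAlgebra.C f : QuadraticAlgebra S a b) = QuadraticAlgebra.C f := by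
    intro f
    ext <;> simp
  have hinj : Function.Injective wf := by
    intro f g h
    have h' : star (QuadraticAlgebra.C f + QuadraticAlgebra.omega : QuadraticAlgebra S a b) /
      (QuadraticAlgebra.C f + QuadraticAlgebra.omega) =
      star (QuadraticAlgebra.C g + QuadraticAlgebra.omega : QuadraticAlgebra S a b) /
      (QuadraticAlgebra.C g + QuadraticAlgebra.omega) := h
    rw [div_eq_div_iff (hτ f) (hτ g), star_add, star_add, hC, hC] at h'
    have h2 : (QuadraticAlgebra.C f - QuadraticAlgebra.C g : QuadraticAlgebra S a b) *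
        (QuadraticAlgebra.omega - star QuadraticAlgebra.omega) = 0 := by
      linear_combination h'
    have h3 := (mul_eq_zero.mp h2).resolve_right hδ
    exact QuadraticAlgebra.C_injective (sub_eq_zero.mp h3)
  have hU : ∀ f, U1 (wf f) := by
    intro f
    have hn := hτ f
    have hn' := star_ne_zero.mpr hn
    show star (QuadraticAlgebra.C f + QuadraticAlgebra.omega : QuadraticAlgebra S a b) /
      (QuadraticAlgebra.C f + QuadraticAlgebra.omega) *
      star (star (QuadraticAlgebra.C f + QuadraticAlgebra.omega : QuadraticAlgebra S a b) /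
      (QuadraticAlgebra.C f + QuadraticAlgebra.omega)) = 1
    rw [star_div₀, star_star, div_mul_div_comm, mul_comm, div_self (mul_ne_zero hn hn')]
  have hinf : (Set.range wf).Infinite := Set.infinite_range_of_injective hinj
  let p : Polynomial (QuadraticAlgebra S a b) :=
    Polynomial.C α * Polynomial.X ^ 2 + Polynomial.C β * Polynomial.X + Polynomial.C γ
  let p' : Polynomial (QuadraticAlgebra S a b) :=
    Polynomial.C α' * Polynomial.X ^ 2 + Polynomial.C β' * Polynomial.X + Polynomial.C γ'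
  have hp : p ≠ 0 := by
    intro h
    apply hα
    have := congrArg (fun q => Polynomial.coeff q 2) h
    simpa [p, Polynomial.coeff_X, Polynomial.coeff_C] using this
  have hp' : p' ≠ 0 := by
    intro h
    apply hα'
    have := congrArg (fun q => Polynomial.coeff q 2) h
    simpa [p', Polynomial.coeff_X, Polynomial.coeff_C] using this
  have hfin : ({x | Polynomial.IsRoot p x} ∪ {x | Polynomial.IsRoot p' x}).Finite :=
    (Polynomial.finite_setOfPred_isRoot hp).union (Polynomial.finite_setOfPred_isRoot hp')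
  obtain ⟨w, ⟨f, rfl⟩, hw⟩ := (hinf.sdiff hfin).nonempty
  refine ⟨wf f, hU f, ?_, ?_⟩
  · intro h
    apply hw
    left
    show Polynomial.eval (wf f) p = 0
    simpa [p] using h
  · intro h
    apply hw
    right
    show Polynomial.eval (wf f) p' = 0
    simpa [p'] using h

/-- exchange, in terms of norm one elements -/
lemma exU (hc : IsSteinberg c) (hS : VanOn c S) (h2T : ∀ t : T, t + t = 0 → t = 0) {x : K}
    (hx : x ∉ S) (hQ : Qx a b x ≠ 0)
    (hδ : (QuadraticAlgebra.omega - star QuadraticAlgebra.omega : QuadraticAlgebra S a b) ≠ 0)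
    {P0 P1 P2 : QuadraticAlgebra S a b} (hP0 : P0 ≠ 0)
    (hP : L x P0 + Qx a b x * L x P1 + Qx a b x ^ 2 * L x P2 = 0)
    {e1 e2 e3 e4 e5 e3' e4' e5' : QuadraticAlgebra S a b} (h1 : U1 e1) (h2 : U1 e2)
    (h3 : U1 e3) (h4 : U1 e4) (h5 : U1 e5) (h3' : U1 e3') (h4' : U1 e4') (h5' : U1 e5')
    (hprod : e1 * e2 * (e3 * e4 * e5) = star P0 / P0)
    (hprod' : e1 * e2 * (e3' * e4' * e5') = star P0 / P0)
    (hG : e1 + e2 + e3 + e4 + e5 - Av P0 P1 ≠ 0)
    (hG' : e1 + e2 + e3' + e4' + e5' - Av P0 P1 ≠ 0) :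
    H c x (e1 + e2 + e3 + e4 + e5 - Av P0 P1) = H c x (e1 + e2 + e3' + e4' + e5' - Av P0 P1) := by
  obtain ⟨l1, n1, f1⟩ := hil hδ h1
  obtain ⟨l2, n2, f2⟩ := hil hδ h2
  obtain ⟨l3, l4, l5, n3, n4, n5, f3, f4, f5, hl⟩ := lift3 hδ hP0 n1 n2 f1 f2 h3 h4 h5 hprod
  obtain ⟨k3, k4, k5, m3, m4, m5, g3, g4, g5, hk⟩ := lift3 hδ hP0 n1 n2 f1 f2 h3' h4' h5' hprod'
  have hδ2 : (QuadraticAlgebra.omega - star QuadraticAlgebra.omega : QuadraticAlgebra S a b) ^ 2 ≠ 0 :=
    pow_ne_zero 2 hδ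
  have E1 := G_eq (P1 := P1) n1 n2 n3 n4 n5 hl
  have E2 := G_eq (P1 := P1) n1 n2 m3 m4 m5 hk
  rw [f1, f2, f3, f4, f5] at E1
  rw [f1, f2, g3, g4, g5] at E2
  have G1 : Gv P1 l1 l2 l3 l4 l5 ≠ 0 := by
    intro h
    rw [h, mul_zero] at E1
    exact mul_ne_zero hP0 hG E1.symm
  have G2 : Gv P1 l1 l2 k3 k4 k5 ≠ 0 := by
    intro h
    rw [h, mul_zero] at E2
    exact mul_ne_zero hP0 hG' E2.symm
  have hex := exch hc hS h2T hx hQ hP n1 n2 n3 n4 n5 m3 m4 m5 hl hk G1 G2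
  have H1 := congrArg (H c x) E1
  have H2 := congrArg (H c x) E2
  rw [H_mul hc hS hx hQ hδ2 G1, H_mul hc hS hx hQ hP0 hG] at H1
  rw [H_mul hc hS hx hQ hδ2 G2, H_mul hc hS hx hQ hP0 hG'] at H2
  rw [hex, H2] at H1
  exact (add_left_cancel H1).symm

lemma U1.mul {e e' : QuadraticAlgebra S a b} (h : U1 e) (h' : U1 e') : U1 (e * e') := by
  have h1 : e * star e = 1 := h
  have h2 : e' * star e' = 1 := h'
  show e * e' * star (e * e') = 1
  rw [star_mul']
  linear_combination (e' * star e') * h1 + h2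

lemma U1.inv {e : QuadraticAlgebra S a b} (h : U1 e) : U1 e⁻¹ := by
  have h1 : e * star e = 1 := h
  show e⁻¹ * star e⁻¹ = 1
  rw [star_inv₀, ← mul_inv, h1, inv_one]

lemma U1.div {e e' : QuadraticAlgebra S a b} (h : U1 e) (h' : U1 e') : U1 (e / e') := by
  rw [div_eq_mul_inv]; exact h.mul h'.inv

lemma U1.star_div {e : QuadraticAlgebra S a b} (h : e ≠ 0) : U1 (star e / e) := by
  show star e / e * star (star e / e) = 1
  rw [star_div₀, star_star, div_mul_div_comm, mul_comm, div_self]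
  exact mul_ne_zero h (star_ne_zero.mpr h)

/-- **(**)** -/
theorem star_star [Infinite S] (hc : IsSteinberg c) (hS : VanOn c S)
    (h2T : ∀ t : T, t + t = 0 → t = 0) {x : K} (hx : x ∉ S) (hQ : Qx a b x ≠ 0)
    (hδ : (QuadraticAlgebra.omega - star QuadraticAlgebra.omega : QuadraticAlgebra S a b) ≠ 0)
    {P0 P1 P2 : QuadraticAlgebra S a b} (hP0 : P0 ≠ 0)
    (hP : L x P0 + Qx a b x * L x P1 + Qx a b x ^ 2 * L x P2 = 0)
    {e1 e2 e3 e4 e5 f1 f2 f3 f4 f5 : QuadraticAlgebra S a b} (h1 : U1 e1) (h2 : U1 e2)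
    (h3 : U1 e3) (h4 : U1 e4) (h5 : U1 e5) (k1 : U1 f1) (k2 : U1 f2) (k3 : U1 f3) (k4 : U1 f4)
    (k5 : U1 f5)
    (he : e1 * e2 * e3 * e4 * e5 = star P0 / P0) (hf : f1 * f2 * f3 * f4 * f5 = star P0 / P0)
    (hG : e1 + e2 + e3 + e4 + e5 - Av P0 P1 ≠ 0) (hG' : f1 + f2 + f3 + f4 + f5 - Av P0 P1 ≠ 0) :
    H c x (e1 + e2 + e3 + e4 + e5 - Av P0 P1) = H c x (f1 + f2 + f3 + f4 + f5 - Av P0 P1) := by
  set E5 : QuadraticAlgebra S a b := star P0 / P0 with hE5
  have hE5U : U1 E5 := U1.star_div hP0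
  have n1 := h1.ne
  have n2 := h2.ne
  have m1 := k1.ne
  have m2 := k2.ne
  have m3 := k3.ne
  have m4 := k4.ne
  have m5 := k5.ne
  set X0 : QuadraticAlgebra S a b := E5 / (e1 * e2 * f3 * f4) with hX0
  have hX0U : U1 X0 := hE5U.div (((h1.mul h2).mul k3).mul k4)
  have nX0 := hX0U.ne
  obtain ⟨w, hw, hw1, hw2⟩ := exists_w hδ (α := f3) (β := e1 + e2 + f4 - Av P0 P1) (γ := X0)
    (α' := f3) (β' := f1 + f2 + f4 - Av P0 P1) (γ' := f5) m3 m3
  have nw := hw.ne
  have g3U : U1 (w * f3) := hw.mul k3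
  have gXU : U1 (X0 / w) := hX0U.div hw
  have g5U : U1 (f5 / w) := k5.div hw
  -- first move
  have step1 := exU hc hS h2T hx hQ hδ hP0 hP h1 h2 h3 h4 h5 g3U k4 gXU
    (by rw [← hE5, ← he]; ring)
    (by
      have : e1 * e2 * (w * f3 * f4 * (X0 / w)) = e1 * e2 * f3 * f4 * X0 := by field_simp
      rw [this, ← hE5, hX0]; field_simp) hG
    (by
      intro h
      apply hw1
      have h' := congrArg (fun z => z * w) h
      simp only [zero_mul] at h'
      rw [← h']; field_simp; ring)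
  -- second move: keep the third and fourth
  have hB : w * f3 + f4 + f1 + f2 + f5 / w - Av P0 P1 ≠ 0 := by
    intro h
    apply hw2
    have h' := congrArg (fun z => z * w) h
    simp only [zero_mul] at h'
    rw [← h']; field_simp; ring
  have hA : w * f3 + f4 + e1 + e2 + X0 / w - Av P0 P1 ≠ 0 := by
    intro h
    apply hw1
    have h' := congrArg (fun z => z * w) h
    simp only [zero_mul] at h'
    rw [← h']; field_simp; ring
  have step2 := exU hc hS h2T hx hQ hδ hP0 hP g3U k4 h1 h2 gXU k1 k2 g5U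
    (by
      have : w * f3 * f4 * (e1 * e2 * (X0 / w)) = e1 * e2 * f3 * f4 * X0 := by field_simp
      rw [this, ← hE5, hX0]; field_simp)
    (by
      have : w * f3 * f4 * (f1 * f2 * (f5 / w)) = f1 * f2 * f3 * f4 * f5 := by field_simp
      rw [this, ← hE5, hf]) hA hB
  have step3 := exU hc hS h2T hx hQ hδ hP0 hP k1 k2 g3U k4 g5U k3 k4 k5
    (by
      have : f1 * f2 * (w * f3 * f4 * (f5 / w)) = f1 * f2 * f3 * f4 * f5 := by field_simp
      rw [this, ← hE5, hf])
    (by rw [← hE5, ← hf]; ring)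
    (by
      have : f1 + f2 + w * f3 + f4 + f5 / w - Av P0 P1 =
        w * f3 + f4 + f1 + f2 + f5 / w - Av P0 P1 := by ring
      rw [this]; exact hB) hG'
  rw [step1, ← step3]
  have r1 : e1 + e2 + w * f3 + f4 + X0 / w - Av P0 P1 =
      w * f3 + f4 + e1 + e2 + X0 / w - Av P0 P1 := by ring
  have r2 : f1 + f2 + w * f3 + f4 + f5 / w - Av P0 P1 =
      w * f3 + f4 + f1 + f2 + f5 / w - Av P0 P1 := by ring
  rw [r1, r2, step2]

end Quin

end Pool.Agent.MP_1b9aaa_al
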