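import Pool.Agent.Lib.MP_1b9aaa_al.T5H
import Pool.Agent.Lib.MP_1b9aaa_al.T5Climb

/-!
# MP_1b9aaa_al, T_5: coordinates

`g^5 = 1` on `K`, `d ∈ F = Fix g`, `w² = d`, `E = F(w)`, `L = K(w)`, `x ∈ K`, `t_j = g^j x`.

* `P0, P1, P2 ∈ E`: `P = ∏ (X - t_j) = P₀ + q P₁ + q² P₂`, `q = X² - d`;
* `hP`, `iota_P0`: `P₀ = ∏ (w - t_j)` in `L`;
* `iota_Av`: `Av P0 P1 = Σ Θ_j`, `Θ_j = (t_j + w)/(t_j - w)`;
* `mem_comap`: transport of valuation rings from `E` to the fixed field of `g` in `L`.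
-/

set_option autoImplicit false

namespace Pool.Agent.MP_1b9aaa_al

open IsSteinberg Climb

namespace Quin

variable {K T : Type*} [Field K] [AddCommGroup T] {g : K ≃+* K} {d : K}

/-- elementary symmetric functions -/
def σ1 (a b c d e : K) : K := a + b + c + d + e
def σ2 (a b c d e : K) : K :=
  a * b + a * c + a * d + a * e + b * c + b * d + b * e + c * d + c * e + d * e
def σ3 (a b c d e : K) : K :=
  a * b * c + a * b * d + a * b * e + a * c * d + a * c * e + a * d * e + b * c * d + b * c * e +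
    b * d * e + c * d * e
def σ4 (a b c d e : K) : K :=
  a * b * c * d + a * b * c * e + a * b * d * e + a * c * d * e + b * c * d * e
def σ5 (a b c d e : K) : K := a * b * c * d * e

section

variable (h5 : ∀ x, g (g (g (g (g x)))) = x) (x : K)

include h5

lemma g_σ1 : g (σ1 x (g x) (g (g x)) (g (g (g x))) (g (g (g (g x))))) =
    σ1 x (g x) (g (g x)) (g (g (g x))) (g (g (g (g x)))) := by
  simp only [σ1, map_add, h5]; ring

lemma g_σ2 : g (σ2 x (g x) (g (g x)) (g (g (g x))) (g (g (g (g x))))) =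
    σ2 x (g x) (g (g x)) (g (g (g x))) (g (g (g (g x)))) := by
  simp only [σ2, map_add, map_mul, h5]; ring

lemma g_σ3 : g (σ3 x (g x) (g (g x)) (g (g (g x))) (g (g (g (g x))))) =
    σ3 x (g x) (g (g x)) (g (g (g x))) (g (g (g (g x)))) := by
  simp only [σ3, map_add, map_mul, h5]; ring

lemma g_σ4 : g (σ4 x (g x) (g (g x)) (g (g (g x))) (g (g (g (g x))))) =
    σ4 x (g x) (g (g x)) (g (g (g x))) (g (g (g (g x)))) := by
  simp only [σ4, map_add, map_mul, h5]; ring

lemma g_σ5 : g (σ5 x (g x) (g (g x)) (g (g (g x))) (g (g (g (g x))))) =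
    σ5 x (g x) (g (g x)) (g (g (g x))) (g (g (g (g x)))) := by
  simp only [σ5, map_mul, h5]; ring

end

/-- the elementary symmetric functions, in the fixed field -/
def τ1 (h5 : ∀ x, g (g (g (g (g x)))) = x) (x : K) : fixS g := ⟨_, g_σ1 h5 x⟩
def τ2 (h5 : ∀ x, g (g (g (g (g x)))) = x) (x : K) : fixS g := ⟨_, g_σ2 h5 x⟩
def τ3 (h5 : ∀ x, g (g (g (g (g x)))) = x) (x : K) : fixS g := ⟨_, g_σ3 h5 x⟩
def τ4 (h5 : ∀ x, g (g (g (g (g x)))) = x) (x : K) : fixS g := ⟨_, g_σ4 h5 x⟩
def τ5 (h5 : ∀ x, g (g (g (g (g x)))) = x) (x : K) : fixS g := ⟨_, g_σ5 h5 x⟩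

/-- `d` in the fixed field -/
def dS (hgd : g d = d) : fixS g := ⟨d, hgd⟩

/-- the value `P(w)` -/
def P0 (hgd : g d = d) (h5 : ∀ x, g (g (g (g (g x)))) = x) (x : K) :
    QuadraticAlgebra (fixS g) (dS hgd) 0 :=
  ⟨-((dS hgd) ^ 2 * τ1 h5 x + dS hgd * τ3 h5 x + τ5 h5 x),
    (dS hgd) ^ 2 + dS hgd * τ2 h5 x + τ4 h5 x⟩

/-- the next coefficient -/
def P1 (hgd : g d = d) (h5 : ∀ x, g (g (g (g (g x)))) = x) (x : K) :
    QuadraticAlgebra (fixS g) (dS hgd) 0 :=
  ⟨-((dS hgd + dS hgd) * τ1 h5 x + τ3 h5 x), (dS hgd + dS hgd) + τ2 h5 x⟩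

/-- the last coefficient -/
def P2 (hgd : g d = d) (h5 : ∀ x, g (g (g (g (g x)))) = x) (x : K) :
    QuadraticAlgebra (fixS g) (dS hgd) 0 :=
  ⟨-τ1 h5 x, 1⟩

lemma Qx_eq (hgd : g d = d) (x : K) : Qx (dS hgd) 0 x = x ^ 2 - d := by
  simp [Qx, dS]

lemma hP (hgd : g d = d) (h5 : ∀ x, g (g (g (g (g x)))) = x) (x : K) :
    L x (P0 hgd h5 x) + Qx (dS hgd) 0 x * L x (P1 hgd h5 x) +
      Qx (dS hgd) 0 x ^ 2 * L x (P2 hgd h5 x) = 0 := by
  rw [Qx_eq]
  simp only [L, P0, P1, P2, dS, τ1, τ2, τ3, τ4, τ5]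
  push_cast
  simp only [σ1, σ2, σ3, σ4, σ5]
  ring

/-! ### the field `L = K(w)` -/

section L

variable (hgd : g d = d)

/-- the embedding `E → L` -/
def iota : QuadraticAlgebra (fixS g) (dS hgd) 0 →+* QuadraticAlgebra K d 0 where
  toFun e := ⟨e.re, e.im⟩
  map_one' := by
    ext
    · show (((1 : QuadraticAlgebra (fixS g) (dS hgd) 0).re : fixS g) : K) = 1
      rw [QuadraticAlgebra.re_one]; rfl
    · show (((1 : QuadraticAlgebra (fixS g) (dS hgd) 0).im : fixS g) : K) = 0
      rw [QuadraticAlgebra.im_one]; rfl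
  map_mul' z w := by
    ext
    · show (((z * w).re : fixS g) : K) = z.re * w.re + d * z.im * w.im
      rw [QuadraticAlgebra.re_mul]; rfl
    · show (((z * w).im : fixS g) : K) = z.re * w.im + z.im * w.re + 0 * z.im * w.im
      rw [QuadraticAlgebra.im_mul]; rfl
  map_zero' := by
    ext <;> simp
  map_add' z w := by
    ext <;> simp

lemma iota_star (e : QuadraticAlgebra (fixS g) (dS hgd) 0) :
    iota hgd (star e) = star (iota hgd e) := by
  ext <;> simp [iota]

lemma ext_star (z : QuadraticAlgebra K d 0) : ext g hgd (star z) = star (ext g hgd z) := by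
  ext <;> simp [ext]

lemma ext_iota (e : QuadraticAlgebra (fixS g) (dS hgd) 0) :
    ext g hgd (iota hgd e) = iota hgd e := by
  apply QuadraticAlgebra.ext
  · exact e.re.2
  · exact e.im.2

lemma mk_eq_C (u v : K) : (⟨u, v⟩ : QuadraticAlgebra K d 0) =
    QuadraticAlgebra.C u + QuadraticAlgebra.C v * QuadraticAlgebra.omega := by
  ext <;> simp

lemma C_eq : (QuadraticAlgebra.C d : QuadraticAlgebra K d 0) = QuadraticAlgebra.omega ^ 2 := by
  rw [pow_two]
  ext <;> simp

/-- `C` as a ring homomorphism -/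
def CC : K →+* QuadraticAlgebra K d 0 := algebraMap K (QuadraticAlgebra K d 0)

lemma iota_P0 (h5 : ∀ x, g (g (g (g (g x)))) = x) (x : K) :
    iota hgd (P0 hgd h5 x) = (QuadraticAlgebra.omega - CC x) * (QuadraticAlgebra.omega - CC (g x)) *
      (QuadraticAlgebra.omega - CC (g (g x))) * (QuadraticAlgebra.omega - CC (g (g (g x)))) *
      (QuadraticAlgebra.omega - CC (g (g (g (g x))))) := by
  have h1 : iota hgd (P0 hgd h5 x) = CC (((P0 hgd h5 x).re : fixS g) : K) +
      CC (((P0 hgd h5 x).im : fixS g) : K) * QuadraticAlgebra.omega := mk_eq_C _ _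
  have h2 : (CC d : QuadraticAlgebra K d 0) = QuadraticAlgebra.omega ^ 2 := C_eq
  rw [h1]
  simp only [P0, dS, τ1, τ2, τ3, τ4, τ5]
  push_cast
  simp only [σ1, σ2, σ3, σ4, σ5, map_add, map_mul, map_neg, map_pow, h2]
  ring

lemma iota_P1 (h5 : ∀ x, g (g (g (g (g x)))) = x) (x : K) :
    iota hgd (P1 hgd h5 x) = -(2 * QuadraticAlgebra.omega ^ 2 * (CC x + CC (g x) + CC (g (g x)) +
      CC (g (g (g x))) + CC (g (g (g (g x))))) + CC (σ3 x (g x) (g (g x)) (g (g (g x)))
      (g (g (g (g x)))))) + (2 * QuadraticAlgebra.omega ^ 2 + CC (σ2 x (g x) (g (g x))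
      (g (g (g x))) (g (g (g (g x)))))) * QuadraticAlgebra.omega := by
  have h1 : iota hgd (P1 hgd h5 x) = CC (((P1 hgd h5 x).re : fixS g) : K) +
      CC (((P1 hgd h5 x).im : fixS g) : K) * QuadraticAlgebra.omega := mk_eq_C _ _
  have h2 : (CC d : QuadraticAlgebra K d 0) = QuadraticAlgebra.omega ^ 2 := C_eq
  rw [h1]
  simp only [P1, dS, τ1, τ2, τ3]
  push_cast
  simp only [σ1, map_add, map_mul, map_neg, h2]
  ring

/-- the trace identity -/
lemma av_id {M : Type*} [Field M] {W a b c d e : M} (ha : W - a ≠ 0) (hb : W - b ≠ 0)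
    (hc : W - c ≠ 0) (hd : W - d ≠ 0) (he : W - e ≠ 0) :
    4 + (-W - a) * (-W - b) * (-W - c) * (-W - d) * (-W - e) /
      ((W - a) * (W - b) * (W - c) * (W - d) * (W - e)) - (W - -W) ^ 2 *
      (-(2 * W ^ 2 * (a + b + c + d + e) + σ3 a b c d e) + (2 * W ^ 2 + σ2 a b c d e) * W) /
      ((W - a) * (W - b) * (W - c) * (W - d) * (W - e)) =
    (a + W) / (a - W) + (b + W) / (b - W) + (c + W) / (c - W) + (d + W) / (d - W) +
      (e + W) / (e - W) := by
  have hD : (W - a) * (W - b) * (W - c) * (W - d) * (W - e) ≠ 0 :=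
    mul_ne_zero (mul_ne_zero (mul_ne_zero (mul_ne_zero ha hb) hc) hd) he
  have key : ∀ y : M, W - y ≠ 0 → (y + W) / (y - W) = -(y + W) / (W - y) := by
    intro y hy
    have hy' : y - W ≠ 0 := by
      intro h
      apply hy
      linear_combination -h
    rw [div_eq_div_iff hy' hy]
    ring
  have ka : (a + W) / (a - W) = -(a + W) * ((W - b) * (W - c) * (W - d) * (W - e)) /
      ((W - a) * (W - b) * (W - c) * (W - d) * (W - e)) := by
    rw [key a ha, div_eq_div_iff ha hD]; ring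
  have kb : (b + W) / (b - W) = -(b + W) * ((W - a) * (W - c) * (W - d) * (W - e)) /
      ((W - a) * (W - b) * (W - c) * (W - d) * (W - e)) := by
    rw [key b hb, div_eq_div_iff hb hD]; ring
  have kc : (c + W) / (c - W) = -(c + W) * ((W - a) * (W - b) * (W - d) * (W - e)) /
      ((W - a) * (W - b) * (W - c) * (W - d) * (W - e)) := by
    rw [key c hc, div_eq_div_iff hc hD]; ring
  have kd : (d + W) / (d - W) = -(d + W) * ((W - a) * (W - b) * (W - c) * (W - e)) /
      ((W - a) * (W - b) * (W - c) * (W - d) * (W - e)) := by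
    rw [key d hd, div_eq_div_iff hd hD]; ring
  have ke : (e + W) / (e - W) = -(e + W) * ((W - a) * (W - b) * (W - c) * (W - d)) /
      ((W - a) * (W - b) * (W - c) * (W - d) * (W - e)) := by
    rw [key e he, div_eq_div_iff he hD]; ring
  have k4 : (4 : M) = 4 * ((W - a) * (W - b) * (W - c) * (W - d) * (W - e)) /
      ((W - a) * (W - b) * (W - c) * (W - d) * (W - e)) := by
    rw [mul_div_assoc, div_self hD, mul_one]
  rw [ka, kb, kc, kd, ke]
  conv_lhs => rw [k4]
  rw [← add_div, ← sub_div, ← add_div, ← add_div, ← add_div, ← add_div]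
  congr 1
  simp only [σ2, σ3]
  ring

lemma iota_inj : Function.Injective (iota hgd) := by
  intro e e' h
  have h1 := congrArg QuadraticAlgebra.re h
  have h2 := congrArg QuadraticAlgebra.im h
  exact QuadraticAlgebra.ext (Subtype.ext h1) (Subtype.ext h2)

lemma star_CC (t : K) : star (CC t : QuadraticAlgebra K d 0) = CC t := by
  show star (QuadraticAlgebra.C t : QuadraticAlgebra K d 0) = QuadraticAlgebra.C t
  ext <;> simp

lemma star_om : star (QuadraticAlgebra.omega : QuadraticAlgebra K d 0) =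
    -QuadraticAlgebra.omega := by
  ext <;> simp

lemma om_sub_ne (t : K) : (QuadraticAlgebra.omega - CC t : QuadraticAlgebra K d 0) ≠ 0 := by
  intro h
  have h1 : (QuadraticAlgebra.omega - CC t : QuadraticAlgebra K d 0).im = 0 := by rw [h]; rfl
  have h2 : (QuadraticAlgebra.omega - CC t : QuadraticAlgebra K d 0).im = 1 := by
    show (QuadraticAlgebra.omega - QuadraticAlgebra.C t : QuadraticAlgebra K d 0).im = 1
    simp
  rw [h2] at h1
  exact one_ne_zero h1

lemma iota_omega : iota hgd QuadraticAlgebra.omega = QuadraticAlgebra.omega := by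
  ext <;> simp [iota]

variable [hL : Fact (∀ r : K, r ^ 2 ≠ d + 0 * r)]

lemma P0_ne (h5 : ∀ x, g (g (g (g (g x)))) = x) (x : K) : P0 hgd h5 x ≠ 0 := by
  intro h
  have h1 := iota_P0 hgd h5 x
  rw [h, map_zero] at h1
  exact mul_ne_zero (mul_ne_zero (mul_ne_zero (mul_ne_zero (om_sub_ne _) (om_sub_ne _))
    (om_sub_ne _)) (om_sub_ne _)) (om_sub_ne _) h1.symm

omit hL in
/-- `d` is not a square in the fixed field -/
lemma factS [hL : Fact (∀ r : K, r ^ 2 ≠ d + 0 * r)] :
    Fact (∀ r : fixS g, r ^ 2 ≠ dS hgd + 0 * r) := by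
  refine ⟨fun r h => hL.out (r : K) ?_⟩
  have := congrArg (fun z : fixS g => (z : K)) h
  simpa [dS] using this

variable [hE : Fact (∀ r : fixS g, r ^ 2 ≠ dS hgd + 0 * r)]

/-- **`Av` is the trace of `Θ`** -/
lemma iota_Av (h5 : ∀ x, g (g (g (g (g x)))) = x) (x : K) :
    iota hgd (Av (P0 hgd h5 x) (P1 hgd h5 x)) =
      (CC x + QuadraticAlgebra.omega) / (CC x - QuadraticAlgebra.omega) +
      (CC (g x) + QuadraticAlgebra.omega) / (CC (g x) - QuadraticAlgebra.omega) +
      (CC (g (g x)) + QuadraticAlgebra.omega) / (CC (g (g x)) - QuadraticAlgebra.omega) +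
      (CC (g (g (g x))) + QuadraticAlgebra.omega) / (CC (g (g (g x))) - QuadraticAlgebra.omega) +
      (CC (g (g (g (g x)))) + QuadraticAlgebra.omega) /
        (CC (g (g (g (g x)))) - QuadraticAlgebra.omega) := by
  rw [← av_id (om_sub_ne _) (om_sub_ne _) (om_sub_ne _) (om_sub_ne _) (om_sub_ne _)]
  simp only [Av, map_add, map_sub, map_div₀, map_mul, map_pow, map_ofNat, iota_star, iota_omega,
    iota_P0, iota_P1, star_om, star_mul', star_sub, star_CC]
  simp only [σ2, σ3, map_add, map_mul, map_neg, iota_omega]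

omit hL hE in
/-- the map `L^g → E` -/
lemma fix_re {z : QuadraticAlgebra K d 0} (hz : ext g hgd z = z) : g z.re = z.re :=
  congrArg QuadraticAlgebra.re hz

omit hL hE in
lemma fix_im {z : QuadraticAlgebra K d 0} (hz : ext g hgd z = z) : g z.im = z.im :=
  congrArg QuadraticAlgebra.im hz

/-- the map `L^g → E` -/
def back : fixS (ext g hgd) →+* QuadraticAlgebra (fixS g) (dS hgd) 0 where
  toFun z := ⟨⟨(z : QuadraticAlgebra K d 0).re, fix_re hgd z.2⟩,
    ⟨(z : QuadraticAlgebra K d 0).im, fix_im hgd z.2⟩⟩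
  map_one' := by
    apply iota_inj hgd
    rw [map_one]
    rfl
  map_mul' z w := by
    apply iota_inj hgd
    rw [map_mul]
    rfl
  map_zero' := by
    apply iota_inj hgd
    rw [map_zero]
    rfl
  map_add' z w := by
    apply iota_inj hgd
    rw [map_add]
    rfl

lemma iota_back (z : fixS (ext g hgd)) : iota hgd (back hgd z) = z := rfl

lemma back_iota (e : QuadraticAlgebra (fixS g) (dS hgd) 0) :
    back hgd ⟨iota hgd e, ext_iota hgd e⟩ = e := rfl

lemma back_norm {z : fixS (ext g hgd)}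
    (hz : (z : QuadraticAlgebra K d 0) * star (z : QuadraticAlgebra K d 0) = 1) :
    back hgd z * star (back hgd z) = 1 := by
  apply iota_inj hgd
  rw [map_mul, iota_star, iota_back, map_one, hz]

end L

end Quin

end Pool.Agent.MP_1b9aaa_al
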