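import Pool.Agent.Lib.MP_1b9aaa_al.T5J

/-!
# MP_1b9aaa_al, T_5: coordinates for a general quadratic (all characteristics)

`g^5 = 1` on `K`, `a, b ∈ F = Fix g`, `w² = a + b w`, `E = F(w)`, `L = K(w)`, `x ∈ K`,
`t_j = g^j x`.

* `Q0, Q1, Q2 ∈ E`: `P = ∏ (X - t_j) = Q₀ + q Q₁ + q² Q₂`, `q = X² - b X - a`;
* `iotaG_Q0`: `Q₀ = ∏ (w - t_j)` in `L`;
* `iotaG_Av`: `Av Q0 Q1 = Σ Θ_j`, `Θ_j = (t_j - w̄)/(t_j - w)`;
* `backG`: transport of valuation rings from `E` to the fixed field of `g` in `L`.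
-/

set_option autoImplicit false

namespace Pool.Agent.MP_1b9aaa_al

open IsSteinberg Climb

namespace Quin

/-- symmetric functions in a commutative ring -/
def sg2 {M : Type*} [CommRing M] (a b c d e : M) : M :=
  a * b + a * c + a * d + a * e + b * c + b * d + b * e + c * d + c * e + d * e
def sg3 {M : Type*} [CommRing M] (a b c d e : M) : M :=
  a * b * c + a * b * d + a * b * e + a * c * d + a * c * e + a * d * e + b * c * d + b * c * e +
    b * d * e + c * d * e

variable {K : Type*} [Field K] {g : K ≃+* K} {a b : K}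

/-- the value `P(w)` -/
def Q0 (ha : g a = a) (hb : g b = b) (h5 : ∀ x, g (g (g (g (g x)))) = x) (x : K) :
    QuadraticAlgebra (fixS g) (dS ha) (dS hb) :=
  ⟨dS ha * dS hb ^ 3 + (dS ha ^ 2 + dS ha ^ 2) * dS hb - (dS ha * dS hb ^ 2 + dS ha ^ 2) * τ1 h5 x +
      dS ha * dS hb * τ2 h5 x - dS ha * τ3 h5 x - τ5 h5 x,
    dS hb ^ 4 + (dS ha + dS ha + dS ha) * dS hb ^ 2 + dS ha ^ 2 -
      (dS hb ^ 3 + (dS ha + dS ha) * dS hb) * τ1 h5 x + (dS hb ^ 2 + dS ha) * τ2 h5 x -
      dS hb * τ3 h5 x + τ4 h5 x⟩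

/-- the next coefficient -/
def Q1 (ha : g a = a) (hb : g b = b) (h5 : ∀ x, g (g (g (g (g x)))) = x) (x : K) :
    QuadraticAlgebra (fixS g) (dS ha) (dS hb) :=
  ⟨dS hb ^ 3 + (dS ha + dS ha + dS ha + dS ha) * dS hb - (dS ha + dS ha + dS hb ^ 2) * τ1 h5 x +
      dS hb * τ2 h5 x - τ3 h5 x,
    dS hb ^ 2 + dS hb ^ 2 + dS hb ^ 2 + dS ha + dS ha - (dS hb + dS hb) * τ1 h5 x + τ2 h5 x⟩

/-- the last coefficient -/
def Q2 (ha : g a = a) (hb : g b = b) (h5 : ∀ x, g (g (g (g (g x)))) = x) (x : K) :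
    QuadraticAlgebra (fixS g) (dS ha) (dS hb) :=
  ⟨dS hb + dS hb - τ1 h5 x, 1⟩

lemma Qx_eqG (ha : g a = a) (hb : g b = b) (x : K) :
    Qx (dS ha) (dS hb) x = x ^ 2 - b * x - a := rfl

lemma hPG (ha : g a = a) (hb : g b = b) (h5 : ∀ x, g (g (g (g (g x)))) = x) (x : K) :
    L x (Q0 ha hb h5 x) + Qx (dS ha) (dS hb) x * L x (Q1 ha hb h5 x) +
      Qx (dS ha) (dS hb) x ^ 2 * L x (Q2 ha hb h5 x) = 0 := by
  rw [Qx_eqG]
  simp only [L, Q0, Q1, Q2, dS, τ1, τ2, τ3, τ4, τ5]
  push_cast
  simp only [σ1, σ2, σ3, σ4, σ5]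
  ring

/-! ### the field `L = K(w)` -/

/-- the automorphism of `K(w)` which extends `g` and fixes `w`. -/
def extG (ha : g a = a) (hb : g b = b) : QuadraticAlgebra K a b ≃+* QuadraticAlgebra K a b where
  toFun z := ⟨g z.re, g z.im⟩
  invFun z := ⟨g.symm z.re, g.symm z.im⟩
  left_inv z := by simp
  right_inv z := by simp
  map_mul' z w := by
    apply QuadraticAlgebra.ext
    · simp only [QuadraticAlgebra.re_mul, map_add, map_mul, ha]
    · simp only [QuadraticAlgebra.im_mul, map_add, map_mul, hb]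
  map_add' z w := by
    apply QuadraticAlgebra.ext
    · simp only [QuadraticAlgebra.re_add, map_add]
    · simp only [QuadraticAlgebra.im_add, map_add]

lemma extG_five (ha : g a = a) (hb : g b = b) (h5 : ∀ x, g (g (g (g (g x)))) = x)
    (z : QuadraticAlgebra K a b) :
    extG ha hb (extG ha hb (extG ha hb (extG ha hb (extG ha hb z)))) = z := by
  apply QuadraticAlgebra.ext
  · exact h5 z.re
  · exact h5 z.im

lemma extG_star (ha : g a = a) (hb : g b = b) (z : QuadraticAlgebra K a b) :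
    extG ha hb (star z) = star (extG ha hb z) := by
  apply QuadraticAlgebra.ext
  · show g (z.re + b * z.im) = g z.re + b * g z.im
    rw [map_add, map_mul, hb]
  · show g (-z.im) = -g z.im
    rw [map_neg]

section L

variable (ha : g a = a) (hb : g b = b)

/-- the embedding `E → L` -/
def iotaG : QuadraticAlgebra (fixS g) (dS ha) (dS hb) →+* QuadraticAlgebra K a b where
  toFun e := ⟨e.re, e.im⟩
  map_one' := by
    ext
    · show (((1 : QuadraticAlgebra (fixS g) (dS ha) (dS hb)).re : fixS g) : K) = 1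
      rw [QuadraticAlgebra.re_one]; rfl
    · show (((1 : QuadraticAlgebra (fixS g) (dS ha) (dS hb)).im : fixS g) : K) = 0
      rw [QuadraticAlgebra.im_one]; rfl
  map_mul' z w := by
    ext
    · show (((z * w).re : fixS g) : K) = z.re * w.re + a * z.im * w.im
      rw [QuadraticAlgebra.re_mul]; rfl
    · show (((z * w).im : fixS g) : K) = z.re * w.im + z.im * w.re + b * z.im * w.im
      rw [QuadraticAlgebra.im_mul]; rfl
  map_zero' := by
    ext <;> simp
  map_add' z w := by
    ext <;> simp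

lemma iotaG_inj : Function.Injective (iotaG ha hb) := by
  intro e e' h
  have h1 := congrArg QuadraticAlgebra.re h
  have h2 := congrArg QuadraticAlgebra.im h
  exact QuadraticAlgebra.ext (Subtype.ext h1) (Subtype.ext h2)

lemma iotaG_star (e : QuadraticAlgebra (fixS g) (dS ha) (dS hb)) :
    iotaG ha hb (star e) = star (iotaG ha hb e) := by
  apply QuadraticAlgebra.ext
  · show (((star e).re : fixS g) : K) = e.re + b * e.im
    rw [QuadraticAlgebra.re_star]; rfl
  · show (((star e).im : fixS g) : K) = -e.im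
    rw [QuadraticAlgebra.im_star]; rfl

lemma extG_iota (e : QuadraticAlgebra (fixS g) (dS ha) (dS hb)) :
    extG ha hb (iotaG ha hb e) = iotaG ha hb e := by
  apply QuadraticAlgebra.ext
  · exact e.re.2
  · exact e.im.2

lemma mk_eq_CG (u v : K) : (⟨u, v⟩ : QuadraticAlgebra K a b) =
    QuadraticAlgebra.C u + QuadraticAlgebra.C v * QuadraticAlgebra.omega := by
  ext <;> simp

/-- `C` as a ring homomorphism -/
def CG : K →+* QuadraticAlgebra K a b := algebraMap K (QuadraticAlgebra K a b)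

lemma CG_a : (CG a : QuadraticAlgebra K a b) =
    QuadraticAlgebra.omega ^ 2 - CG b * QuadraticAlgebra.omega := by
  show (QuadraticAlgebra.C a : QuadraticAlgebra K a b) = QuadraticAlgebra.omega ^ 2 -
    QuadraticAlgebra.C b * QuadraticAlgebra.omega
  rw [pow_two]
  ext <;> simp

lemma iotaG_Q0 (h5 : ∀ x, g (g (g (g (g x)))) = x) (x : K) :
    iotaG ha hb (Q0 ha hb h5 x) =
      (QuadraticAlgebra.omega - CG x) * (QuadraticAlgebra.omega - CG (g x)) *
      (QuadraticAlgebra.omega - CG (g (g x))) * (QuadraticAlgebra.omega - CG (g (g (g x)))) *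
      (QuadraticAlgebra.omega - CG (g (g (g (g x))))) := by
  have h1 : iotaG ha hb (Q0 ha hb h5 x) = CG (((Q0 ha hb h5 x).re : fixS g) : K) +
      CG (((Q0 ha hb h5 x).im : fixS g) : K) * QuadraticAlgebra.omega := mk_eq_CG _ _
  have h2 := CG_a (a := a) (b := b)
  rw [h1]
  simp only [Q0, dS, τ1, τ2, τ3, τ4, τ5]
  push_cast
  simp only [σ1, σ2, σ3, σ4, σ5, map_add, map_mul, map_sub, map_pow, h2]
  ring

lemma star_CG (t : K) : star (CG t : QuadraticAlgebra K a b) = CG t := by
  show star (QuadraticAlgebra.C t : QuadraticAlgebra K a b) = QuadraticAlgebra.C t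
  ext <;> simp

lemma star_omG : star (QuadraticAlgebra.omega : QuadraticAlgebra K a b) =
    CG b - QuadraticAlgebra.omega := by
  show star (QuadraticAlgebra.omega : QuadraticAlgebra K a b) =
    QuadraticAlgebra.C b - QuadraticAlgebra.omega
  ext <;> simp

lemma om_sub_neG (t : K) : (QuadraticAlgebra.omega - CG t : QuadraticAlgebra K a b) ≠ 0 := by
  intro h
  have h1 : (QuadraticAlgebra.omega - CG t : QuadraticAlgebra K a b).im = 0 := by rw [h]; rfl
  have h2 : (QuadraticAlgebra.omega - CG t : QuadraticAlgebra K a b).im = 1 := by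
    show (QuadraticAlgebra.omega - QuadraticAlgebra.C t : QuadraticAlgebra K a b).im = 1
    simp
  rw [h2] at h1
  exact one_ne_zero h1

lemma iotaG_omega : iotaG ha hb QuadraticAlgebra.omega = QuadraticAlgebra.omega := by
  ext <;> simp [iotaG]

lemma iotaG_Q1 (h5 : ∀ x, g (g (g (g (g x)))) = x) (x : K) :
    iotaG ha hb (Q1 ha hb h5 x) = CG b ^ 3 + 4 * CG a * CG b -
      (2 * CG a + CG b ^ 2) * (CG x + CG (g x) + CG (g (g x)) + CG (g (g (g x))) +
        CG (g (g (g (g x))))) +
      CG b * sg2 (CG x) (CG (g x)) (CG (g (g x))) (CG (g (g (g x)))) (CG (g (g (g (g x))))) -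
      sg3 (CG x) (CG (g x)) (CG (g (g x))) (CG (g (g (g x)))) (CG (g (g (g (g x))))) +
      (3 * CG b ^ 2 + 2 * CG a - 2 * CG b * (CG x + CG (g x) + CG (g (g x)) + CG (g (g (g x))) +
        CG (g (g (g (g x))))) +
      sg2 (CG x) (CG (g x)) (CG (g (g x))) (CG (g (g (g x)))) (CG (g (g (g (g x)))))) *
      QuadraticAlgebra.omega := by
  have h1 : iotaG ha hb (Q1 ha hb h5 x) = CG (((Q1 ha hb h5 x).re : fixS g) : K) +
      CG (((Q1 ha hb h5 x).im : fixS g) : K) * QuadraticAlgebra.omega := mk_eq_CG _ _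
  rw [h1]
  simp only [Q1, dS, τ1, τ2, τ3]
  push_cast
  simp only [σ1, σ2, σ3, sg2, sg3, map_add, map_mul, map_sub, map_pow]
  ring

/-- the trace identity; `W, V` the roots of `q` -/
lemma av_idG {M : Type*} [Field M] {W V a b c d e : M} (ha : W - a ≠ 0) (hb : W - b ≠ 0)
    (hc : W - c ≠ 0) (hd : W - d ≠ 0) (he : W - e ≠ 0) :
    4 + (V - a) * (V - b) * (V - c) * (V - d) * (V - e) /
      ((W - a) * (W - b) * (W - c) * (W - d) * (W - e)) - (W - V) ^ 2 *
      ((W + V) ^ 3 + 4 * (-(W * V)) * (W + V) -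
        (2 * (-(W * V)) + (W + V) ^ 2) * (a + b + c + d + e) +
        (W + V) * sg2 a b c d e - sg3 a b c d e +
        (3 * (W + V) ^ 2 + 2 * (-(W * V)) - 2 * (W + V) * (a + b + c + d + e) +
        sg2 a b c d e) * W) /
      ((W - a) * (W - b) * (W - c) * (W - d) * (W - e)) =
    (a - V) / (a - W) + (b - V) / (b - W) + (c - V) / (c - W) + (d - V) / (d - W) +
      (e - V) / (e - W) := by
  have hD : (W - a) * (W - b) * (W - c) * (W - d) * (W - e) ≠ 0 :=
    mul_ne_zero (mul_ne_zero (mul_ne_zero (mul_ne_zero ha hb) hc) hd) he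
  have key : ∀ y : M, W - y ≠ 0 → (y - V) / (y - W) = -(y - V) / (W - y) := by
    intro y hy
    have hy' : y - W ≠ 0 := by
      intro h
      apply hy
      linear_combination -h
    rw [div_eq_div_iff hy' hy]
    ring
  have ka : (a - V) / (a - W) = -(a - V) * ((W - b) * (W - c) * (W - d) * (W - e)) /
      ((W - a) * (W - b) * (W - c) * (W - d) * (W - e)) := by
    rw [key a ha, div_eq_div_iff ha hD]; ring
  have kb : (b - V) / (b - W) = -(b - V) * ((W - a) * (W - c) * (W - d) * (W - e)) /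
      ((W - a) * (W - b) * (W - c) * (W - d) * (W - e)) := by
    rw [key b hb, div_eq_div_iff hb hD]; ring
  have kc : (c - V) / (c - W) = -(c - V) * ((W - a) * (W - b) * (W - d) * (W - e)) /
      ((W - a) * (W - b) * (W - c) * (W - d) * (W - e)) := by
    rw [key c hc, div_eq_div_iff hc hD]; ring
  have kd : (d - V) / (d - W) = -(d - V) * ((W - a) * (W - b) * (W - c) * (W - e)) /
      ((W - a) * (W - b) * (W - c) * (W - d) * (W - e)) := by
    rw [key d hd, div_eq_div_iff hd hD]; ring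
  have ke : (e - V) / (e - W) = -(e - V) * ((W - a) * (W - b) * (W - c) * (W - d)) /
      ((W - a) * (W - b) * (W - c) * (W - d) * (W - e)) := by
    rw [key e he, div_eq_div_iff he hD]; ring
  have comb : ∀ D X Y : M, D ≠ 0 → 4 + X / D - Y / D = (4 * D + X - Y) / D := by
    intro D X Y hD
    field_simp
  rw [ka, kb, kc, kd, ke, comb _ _ _ hD]
  rw [← add_div, ← add_div, ← add_div, ← add_div]
  congr 1
  simp only [sg2, sg3]
  ring

variable [hL : Fact (∀ r : K, r ^ 2 ≠ a + b * r)]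

lemma Q0_ne (h5 : ∀ x, g (g (g (g (g x)))) = x) (x : K) : Q0 ha hb h5 x ≠ 0 := by
  intro h
  have h1 := iotaG_Q0 ha hb h5 x
  rw [h, map_zero] at h1
  exact mul_ne_zero (mul_ne_zero (mul_ne_zero (mul_ne_zero (om_sub_neG _) (om_sub_neG _))
    (om_sub_neG _)) (om_sub_neG _)) (om_sub_neG _) h1.symm

omit hL in
/-- `q` has no root in the fixed field -/
lemma factSG [hL : Fact (∀ r : K, r ^ 2 ≠ a + b * r)] :
    Fact (∀ r : fixS g, r ^ 2 ≠ dS ha + dS hb * r) := by
  refine ⟨fun r h => hL.out (r : K) ?_⟩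
  exact congrArg (fun z : fixS g => (z : K)) h

variable [hE : Fact (∀ r : fixS g, r ^ 2 ≠ dS ha + dS hb * r)]

/-- **`Av` is the trace of `Θ`** -/
lemma iotaG_Av (h5 : ∀ x, g (g (g (g (g x)))) = x) (x : K) :
    iotaG ha hb (Av (Q0 ha hb h5 x) (Q1 ha hb h5 x)) =
      (CG x - star QuadraticAlgebra.omega) / (CG x - QuadraticAlgebra.omega) +
      (CG (g x) - star QuadraticAlgebra.omega) / (CG (g x) - QuadraticAlgebra.omega) +
      (CG (g (g x)) - star QuadraticAlgebra.omega) / (CG (g (g x)) - QuadraticAlgebra.omega) +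
      (CG (g (g (g x))) - star QuadraticAlgebra.omega) /
        (CG (g (g (g x))) - QuadraticAlgebra.omega) +
      (CG (g (g (g (g x)))) - star QuadraticAlgebra.omega) /
        (CG (g (g (g (g x)))) - QuadraticAlgebra.omega) := by
  rw [← av_idG (om_sub_neG _) (om_sub_neG _) (om_sub_neG _) (om_sub_neG _) (om_sub_neG _)]
  have e1 : (QuadraticAlgebra.omega + star QuadraticAlgebra.omega : QuadraticAlgebra K a b) =
      CG b := by rw [star_omG]; ring
  have e2 : (-(QuadraticAlgebra.omega * star QuadraticAlgebra.omega) : QuadraticAlgebra K a b) =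
      CG a := by rw [star_omG, CG_a]; ring
  rw [e1, e2]
  rw [Av, map_sub, map_add, map_ofNat, map_div₀, map_div₀, map_mul, map_pow, map_sub, iotaG_star,
    iotaG_star, iotaG_omega, iotaG_Q0, iotaG_Q1]
  have hs : ∀ y0 y1 y2 y3 y4 : K, star ((QuadraticAlgebra.omega - CG y0) *
      (QuadraticAlgebra.omega - CG y1) * (QuadraticAlgebra.omega - CG y2) *
      (QuadraticAlgebra.omega - CG y3) * (QuadraticAlgebra.omega - CG y4) :
        QuadraticAlgebra K a b) = (star QuadraticAlgebra.omega - CG y0) *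
      (star QuadraticAlgebra.omega - CG y1) * (star QuadraticAlgebra.omega - CG y2) *
      (star QuadraticAlgebra.omega - CG y3) * (star QuadraticAlgebra.omega - CG y4) := by
    intro y0 y1 y2 y3 y4
    rw [star_mul', star_mul', star_mul', star_mul', star_sub, star_sub, star_sub, star_sub,
      star_sub, star_CG, star_CG, star_CG, star_CG, star_CG]
  rw [hs]

omit hL hE in
/-- the map `L^g → E` -/
lemma fixG_re {z : QuadraticAlgebra K a b} (hz : extG ha hb z = z) : g z.re = z.re :=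
  congrArg QuadraticAlgebra.re hz

omit hL hE in
lemma fixG_im {z : QuadraticAlgebra K a b} (hz : extG ha hb z = z) : g z.im = z.im :=
  congrArg QuadraticAlgebra.im hz

/-- the map `L^g → E` -/
def backG : fixS (extG ha hb) →+* QuadraticAlgebra (fixS g) (dS ha) (dS hb) where
  toFun z := ⟨⟨(z : QuadraticAlgebra K a b).re, fixG_re ha hb z.2⟩,
    ⟨(z : QuadraticAlgebra K a b).im, fixG_im ha hb z.2⟩⟩
  map_one' := by
    apply iotaG_inj ha hb
    rw [map_one]
    rfl
  map_mul' z w := by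
    apply iotaG_inj ha hb
    rw [map_mul]
    rfl
  map_zero' := by
    apply iotaG_inj ha hb
    rw [map_zero]
    rfl
  map_add' z w := by
    apply iotaG_inj ha hb
    rw [map_add]
    rfl

omit hE in
lemma iotaG_back (z : fixS (extG ha hb)) : iotaG ha hb (backG ha hb z) = z := rfl

omit hE in
lemma backG_iota (e : QuadraticAlgebra (fixS g) (dS ha) (dS hb)) :
    backG ha hb ⟨iotaG ha hb e, extG_iota ha hb e⟩ = e := rfl

omit hE in
lemma backG_norm {z : fixS (extG ha hb)}
    (hz : (z : QuadraticAlgebra K a b) * star (z : QuadraticAlgebra K a b) = 1) :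
    backG ha hb z * star (backG ha hb z) = 1 := by
  apply iotaG_inj ha hb
  rw [map_mul, iotaG_star, iotaG_back, map_one, hz]

end L

end Quin

end Pool.Agent.MP_1b9aaa_al
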