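import Pool.Agent.Lib.MP_1b9aaa_al.T5E

/-!
# MP_1b9aaa_al, T_5: sums of squares in extensions of odd degree

`sumSq_descend`: if `K / F` is a finite separable extension of odd degree and `-1` is a sum of
squares in `K` then `-1` is a sum of squares in `F` (Artin, Springer).
`sumSq_root`: `-1` is a sum of squares if the field contains a primitive `n`-th root of unity with
`n > 1` odd.
-/

set_option autoImplicit false

namespace Pool.Agent.MP_1b9aaa_al

open Polynomial

lemma IsSumSq.mapR {R R' : Type*} [CommRing R] [CommRing R'] (f : R →+* R') {s : R}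
    (hs : IsSumSq s) : IsSumSq (f s) := by
  induction hs with
  | zero => rw [map_zero]; exact IsSumSq.zero
  | sq_add a _ ih => rw [map_add, map_mul]; exact IsSumSq.sq_add _ ih

section

variable {F : Type*} [Field F]

lemma sumSq_sq_ne (hF : ¬ IsSumSq (-1 : F)) {a s : F} (ha : a ≠ 0) (hs : IsSumSq s) :
    a * a + s ≠ 0 := by
  intro h
  apply hF
  have e : (-1 : F) = s * (a⁻¹ * a⁻¹) := by
    have : s = -(a * a) := by linear_combination h
    rw [this]; field_simp
  rw [e]
  exact hs.mul (IsSumSq.mul_self _)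

lemma sumSq_deg (hF : ¬ IsSumSq (-1 : F)) {s : F[X]} (hs : IsSumSq s) :
    s = 0 ∨ (Even s.natDegree ∧ IsSumSq s.leadingCoeff) := by
  induction hs with
  | zero => exact Or.inl rfl
  | @sq_add a s _ ih =>
    by_cases ha : a = 0
    · rw [ha, mul_zero, zero_add]; exact ih
    · have haa : a * a ≠ 0 := mul_ne_zero ha ha
      have hev : Even (a * a).natDegree := by
        rw [natDegree_mul ha ha]; exact ⟨_, rfl⟩
      have hlc : IsSumSq (a * a).leadingCoeff := by
        rw [leadingCoeff_mul]; exact IsSumSq.mul_self _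
      rcases ih with rfl | ⟨h1, h2⟩
      · rw [add_zero]; exact Or.inr ⟨hev, hlc⟩
      · right
        rcases lt_trichotomy (a * a).degree s.degree with h | h | h
        · rw [natDegree_add_eq_right_of_degree_lt h, leadingCoeff_add_of_degree_lt h]
          exact ⟨h1, h2⟩
        · have hne : (a * a).leadingCoeff + s.leadingCoeff ≠ 0 := by
            rw [leadingCoeff_mul]
            exact sumSq_sq_ne hF (leadingCoeff_ne_zero.mpr ha) h2
          rw [leadingCoeff_add_of_degree_eq h hne]
          refine ⟨?_, hlc.add h2⟩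
          have hd := degree_add_eq_of_leadingCoeff_add_ne_zero hne
          rw [h, max_self] at hd
          rw [natDegree_eq_of_degree_eq hd]
          exact h1
        · rw [natDegree_add_eq_left_of_degree_lt h, leadingCoeff_add_of_degree_lt' h]
          exact ⟨hev, hlc⟩

lemma odd_factor : ∀ (n : ℕ) (h : F[X]), h.natDegree = n → Odd n →
    ∃ p : F[X], Irreducible p ∧ p ∣ h ∧ Odd p.natDegree := by
  intro n
  induction n using Nat.strong_induction_on with
  | _ n ih =>
    intro h hn hodd
    have h0 : h ≠ 0 := by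
      rintro rfl
      rw [natDegree_zero] at hn
      rw [← hn] at hodd
      exact absurd hodd (by decide)
    have hu : ¬ IsUnit h := by
      intro hu
      rw [natDegree_eq_zero_of_isUnit hu] at hn
      rw [← hn] at hodd
      exact absurd hodd (by decide)
    obtain ⟨p, hp, q, rfl⟩ := WfDvdMonoid.exists_irreducible_factor hu h0
    by_cases hpo : Odd p.natDegree
    · exact ⟨p, hp, dvd_mul_right _ _, hpo⟩
    · have hp0 : p ≠ 0 := hp.ne_zero
      have hq0 : q ≠ 0 := right_ne_zero_of_mul h0
      rw [natDegree_mul hp0 hq0] at hn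
      have hp1 : 0 < p.natDegree := hp.natDegree_pos
      rw [Nat.not_odd_iff_even] at hpo
      have hqo : Odd q.natDegree := by
        rw [← hn] at hodd
        exact (Nat.odd_add'.mp hodd).mpr hpo
      obtain ⟨p', h1, h2, h3⟩ := ih q.natDegree (by omega) q rfl hqo
      exact ⟨p', h1, h2.mul_left _, h3⟩

lemma sumSq_mod {p : F[X]} (hp : 0 < p.natDegree) {s : F[X]} (hs : IsSumSq s) :
    ∃ s' : F[X], IsSumSq s' ∧ p ∣ s - s' ∧ s'.natDegree ≤ 2 * (p.natDegree - 1) := by
  induction hs with
  | zero => exact ⟨0, IsSumSq.zero, by simp, by simp⟩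
  | @sq_add a s _ ih =>
    obtain ⟨s', h1, h2, h3⟩ := ih
    refine ⟨(a % p) * (a % p) + s', IsSumSq.sq_add _ h1, ?_, ?_⟩
    · have e : a * a + s - (a % p * (a % p) + s') = (a - a % p) * (a + a % p) + (s - s') := by
        ring
      rw [e]
      refine dvd_add (Dvd.dvd.mul_right ?_ _) h2
      exact ⟨a / p, by linear_combination -(EuclideanDomain.div_add_mod a p)⟩
    · refine (natDegree_add_le _ _).trans (max_le ?_ h3)
      refine natDegree_mul_le.trans ?_
      have : (a % p).natDegree < p.natDegree := natDegree_mod_lt _ hp.ne'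
      omega

theorem sumSq_poly (hF : ¬ IsSumSq (-1 : F)) : ∀ (n : ℕ) (p : F[X]), p.natDegree = n → Odd n →
    Irreducible p → ∀ s : F[X], IsSumSq s → ¬ p ∣ 1 + s := by
  intro n
  induction n using Nat.strong_induction_on with
  | _ n ih =>
    intro p hn hodd hp s hs hdvd
    have hp1 : 0 < p.natDegree := hp.natDegree_pos
    obtain ⟨s', h1, h2, h3⟩ := sumSq_mod hp1 hs
    have hd : p ∣ 1 + s' := by
      have e : 1 + s' = (1 + s) - (s - s') := by ring
      rw [e]; exact dvd_sub hdvd h2
    have ht : IsSumSq (1 * 1 + s') := IsSumSq.sq_add 1 h1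
    rw [one_mul] at ht
    have ht0 : 1 + s' ≠ 0 := by
      intro h
      apply hF
      have e : s' = -1 := by linear_combination h
      have h4 := IsSumSq.mapR (evalRingHom (0 : F)) h1
      rw [e, map_neg, map_one] at h4
      exact h4
    obtain ⟨q, hq⟩ := hd
    have hq0 : q ≠ 0 := by
      rintro rfl
      rw [mul_zero] at hq
      exact ht0 hq
    have hev : Even (1 + s').natDegree := ((sumSq_deg hF ht).resolve_left ht0).1
    have hle : (1 + s').natDegree ≤ 2 * (p.natDegree - 1) := by
      refine (natDegree_add_le _ _).trans (max_le (by simp) h3)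
    rw [hq, natDegree_mul hp.ne_zero hq0] at hev hle
    have hqo : Odd q.natDegree := by
      rw [hn] at hev
      exact (Nat.even_add'.mp hev).mp hodd
    obtain ⟨p', h4, h5, h6⟩ := odd_factor q.natDegree q rfl hqo
    have h7 : p'.natDegree ≤ q.natDegree := natDegree_le_of_dvd h5 hq0
    refine ih p'.natDegree (by omega) p' rfl h6 h4 s' h1 ?_
    rw [hq]
    exact h5.mul_left _

end

/-- **Artin–Springer**: sums of squares in extensions of odd degree. -/
theorem sumSq_descend {F K : Type*} [Field F] [Field K] [Algebra F K] [FiniteDimensional F K]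
    [Algebra.IsSeparable F K] (hodd : Odd (Module.finrank F K)) (h : IsSumSq (-1 : K)) :
    IsSumSq (-1 : F) := by
  by_contra hF
  obtain ⟨θ, hθ⟩ := Field.exists_primitive_element F K
  have hint : IsIntegral F θ := IsIntegral.of_finite F θ
  have hsurj : ∀ y : K, ∃ P : F[X], aeval θ P = y := by
    intro y
    have : y ∈ IntermediateField.adjoin F {θ} := by rw [hθ]; trivial
    rw [IntermediateField.mem_adjoin_simple_iff] at this
    have h2 : y ∈ Algebra.adjoin F {θ} := by
      have h3 : (IntermediateField.adjoin F {θ}).toSubalgebra = Algebra.adjoin F {θ} :=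
        IntermediateField.adjoin_simple_toSubalgebra_of_isAlgebraic hint.isAlgebraic
      rw [← h3, hθ]
      trivial
    rw [Algebra.adjoin_singleton_eq_range_aeval] at h2
    exact h2
  have hlift : ∀ s : K, IsSumSq s → ∃ P : F[X], IsSumSq P ∧ aeval θ P = s := by
    intro s hs
    induction hs with
    | zero => exact ⟨0, IsSumSq.zero, map_zero _⟩
    | sq_add a _ ih =>
      obtain ⟨P, h1, h2⟩ := ih
      obtain ⟨Q, hQ⟩ := hsurj a
      exact ⟨Q * Q + P, IsSumSq.sq_add _ h1, by rw [map_add, map_mul, hQ, h2]⟩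
  obtain ⟨P, hP, hP1⟩ := hlift _ h
  have hdeg : (minpoly F θ).natDegree = Module.finrank F K := by
    rw [← IntermediateField.adjoin.finrank hint, hθ, IntermediateField.finrank_top']
  refine sumSq_poly hF _ (minpoly F θ) hdeg hodd (minpoly.irreducible hint) P hP ?_
  apply minpoly.dvd
  rw [map_add, map_one, hP1]
  ring

/-- `-1` is a sum of squares in the presence of roots of unity of odd order. -/
theorem sumSq_root {K : Type*} [Field K] {n : ℕ} (hn : Odd n) (h1 : 1 < n) {ζ : K}
    (hζ : IsPrimitiveRoot ζ n) : IsSumSq (-1 : K) := by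
  obtain ⟨k, hk⟩ := hn
  have hg := hζ.geom_sum_eq_zero h1
  have hsq : ζ = (ζ ^ (k + 1)) * (ζ ^ (k + 1)) := by
    rw [← pow_add]
    have : k + 1 + (k + 1) = n + 1 := by omega
    rw [this, pow_succ, hζ.pow_eq_one, one_mul]
  obtain ⟨m, rfl⟩ : ∃ m, n = m + 1 := ⟨n - 1, by omega⟩
  rw [Finset.sum_range_succ', pow_zero] at hg
  have e : (-1 : K) = ∑ i ∈ Finset.range m, ζ ^ (i + 1) := by linear_combination -hg
  rw [e]
  refine IsSumSq.sum fun i _ => ?_
  have e2 : ζ ^ (i + 1) = (ζ ^ (k + 1)) ^ (i + 1) * (ζ ^ (k + 1)) ^ (i + 1) := by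
    rw [← mul_pow, ← hsq]
  rw [e2]
  exact IsSumSq.mul_self _

/-- the fixed field of `g`, `g^5 = 1`, when `-1` is a sum of squares in `K` -/
theorem sumSq_fix {K : Type*} [Field K] {g : K ≃+* K} (h5 : ∀ x, g (g (g (g (g x)))) = x)
    (h : IsSumSq (-1 : K)) : IsSumSq (-1 : fixS g) := by
  classical
  have hg5 : g ^ 5 = 1 := by
    ext x
    show (g ^ 5) x = x
    have : (g ^ 5) x = g (g (g (g (g x)))) := rfl
    rw [this, h5]
  have hfo : IsOfFinOrder g := isOfFinOrder_iff_pow_eq_one.mpr ⟨5, by norm_num, hg5⟩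
  have hfin : Finite (Subgroup.zpowers g) := hfo.finite_zpowers
  have : Fintype (Subgroup.zpowers g) := Fintype.ofFinite _
  have hcard : Odd (Fintype.card (Subgroup.zpowers g)) := by
    rw [← Nat.card_eq_fintype_card, Nat.card_zpowers]
    exact Odd.of_dvd_nat (by decide) (orderOf_dvd_of_pow_eq_one hg5)
  have hS : fixS g = FixedPoints.subfield (Subgroup.zpowers g) K := by
    ext x
    constructor
    · intro hx
      rintro ⟨σ, hσ⟩
      obtain ⟨z, rfl⟩ := Subgroup.mem_zpowers_iff.mp hσ
      have hx' : g x = x := hx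
      have hstab : g ∈ MulAction.stabilizer (K ≃+* K) x := hx'
      exact Subgroup.zpow_mem _ hstab z
    · intro hx
      exact hx ⟨g, Subgroup.mem_zpowers g⟩
  rw [hS]
  have hfaith : FaithfulSMul (Subgroup.zpowers g) K := by
    refine ⟨fun {σ τ} h => ?_⟩
    apply Subtype.ext
    ext x
    exact h x
  refine sumSq_descend (F := FixedPoints.subfield (Subgroup.zpowers g) K) (K := K) ?_ h
  rw [FixedPoints.finrank_eq_card]
  exact hcard

end Pool.Agent.MP_1b9aaa_al
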