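import Mathlib

/-!
# MP_1b9aaa_al, T_5: integrality of the trace (T5V)
-/

set_option autoImplicit false

namespace Pool.Agent.MP_1b9aaa_al.T5

open Polynomial

section seidenberg

variable {R L : Type*} [CommRing R] [Field L] [Algebra R L]

/-- Seidenberg's lemma. -/
theorem seidenberg (P : Ideal (integralClosure R L)) (x : L) (n : ℕ)
    (f : (integralClosure R L)[X]) (hn : f.natDegree ≤ n) (hf : ∃ k, f.coeff k ∉ P)
    (hx : aeval x f = 0) :
    ∃ a b : integralClosure R L, (b : L) * x = a ∧ (a ∉ P ∨ b ∉ P) := by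
  induction n generalizing f with
  | zero =>
    exfalso
    obtain ⟨k, hk⟩ := hf
    have h1 : f = C (f.coeff 0) := eq_C_of_natDegree_eq_zero (Nat.le_zero.1 hn)
    rw [h1, aeval_C] at hx
    have h2 : f.coeff 0 = 0 := by
      apply Subtype.ext
      exact hx
    apply hk
    rw [h1, h2, map_zero, coeff_zero]
    exact P.zero_mem
  | succ n ih =>
    by_cases hdeg : f.natDegree ≤ n
    · exact ih f hdeg hf hx
    have hdeg' : f.natDegree = n + 1 := by omega
    have hint : IsIntegral (integralClosure R L) (f.leadingCoeff • x) :=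
      isIntegral_leadingCoeff_smul f x hx
    have hint' : IsIntegral R (f.leadingCoeff • x) := isIntegral_trans _ hint
    set c : integralClosure R L := f.leadingCoeff with hc
    set a : integralClosure R L := ⟨c • x, hint'⟩ with ha
    have hax : (c : L) * x = a := rfl
    by_cases hca : a ∉ P ∨ c ∉ P
    · exact ⟨a, c, hax, hca⟩
    push Not at hca
    obtain ⟨haP, hcP⟩ := hca
    have hlead : f.eraseLead + C c * X ^ (n + 1) = f := by
      rw [hc, ← hdeg']
      exact eraseLead_add_C_mul_X_pow f
    apply ih (f.eraseLead + C a * X ^ n)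
    · refine (natDegree_add_le _ _).trans (max_le ?_ (natDegree_C_mul_X_pow_le a n))
      have := eraseLead_natDegree_le f
      omega
    · obtain ⟨k, hk⟩ := hf
      refine ⟨k, fun hk' => hk ?_⟩
      rw [← hlead, coeff_add, coeff_C_mul, coeff_X_pow]
      rw [coeff_add, coeff_C_mul, coeff_X_pow] at hk'
      have h1 : a * (if k = n then 1 else 0) ∈ P := P.mul_mem_right _ haP
      have h2 : f.eraseLead.coeff k ∈ P := by
        have := P.sub_mem hk' h1
        rwa [add_sub_cancel_right] at this
      exact P.add_mem h2 (P.mul_mem_right _ hcP)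
    · rw [map_add, map_mul, map_pow, aeval_C, aeval_X]
      rw [← hlead, map_add, map_mul, map_pow, aeval_C, aeval_X] at hx
      have h1 : (algebraMap (integralClosure R L) L) a = (algebraMap (integralClosure R L) L) c * x :=
        hax.symm
      rw [h1, ← hx]
      ring

end seidenberg

section main

variable {R L : Type*} [CommRing R] [IsLocalRing R] [Field L] [Algebra R L]

theorem integral_of_norm_one (g t : L ≃+* L) (hg : ∀ x, g (g (g (g (g x)))) = x)
    (ht : ∀ x, t (t x) = x) (hgt : ∀ x, g (t x) = t (g x))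
    (hgR : ∀ r : R, g (algebraMap R L r) = algebraMap R L r)
    (tR : R ≃+* R) (htR : ∀ r, algebraMap R L (tR r) = t (algebraMap R L r))
    (hinv : ∀ x : L, g x = x → IsIntegral R x → ∃ r : R, algebraMap R L r = x)
    (hpol : ∀ x : L, ∃ f : R[X], (∃ k, IsUnit (f.coeff k)) ∧ aeval x f = 0)
    (Θ : L) (hΘ : Θ * t Θ = 1) : IsIntegral R Θ := by
  -- `g` and `t` preserve integrality
  have hgi : ∀ x : L, IsIntegral R x → IsIntegral R (g x) := by
    intro x hx
    let gA : L →ₐ[R] L := { (g : L →+* L) with commutes' := hgR }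
    exact hx.map gA
  have hti : ∀ x : L, IsIntegral R x → IsIntegral R (t x) := by
    rintro x ⟨p, hp, hpx⟩
    refine ⟨p.map (tR : R →+* R), hp.map _, ?_⟩
    rw [eval₂_map]
    have h1 : (algebraMap R L).comp (tR : R →+* R) = (t : L →+* L).comp (algebraMap R L) := by
      ext r
      exact htR r
    rw [h1]
    change eval₂ ((t : L →+* L).comp (algebraMap R L)) ((t : L →+* L) x) p = 0
    rw [← hom_eval₂, hpx, map_zero]
  -- the ring homomorphisms on the integral closure
  let gC : integralClosure R L →+* integralClosure R L :=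
    ((g : L →+* L).comp (algebraMap (integralClosure R L) L)).codRestrict (integralClosure R L)
      (fun x => hgi x x.2)
  let tC : integralClosure R L →+* integralClosure R L :=
    ((t : L →+* L).comp (algebraMap (integralClosure R L) L)).codRestrict (integralClosure R L)
      (fun x => hti x x.2)
  have hgC : ∀ x : integralClosure R L, ((gC x : integralClosure R L) : L) = g x := fun x => rfl
  have htC : ∀ x : integralClosure R L, ((tC x : integralClosure R L) : L) = t x := fun x => rfl
  have hcomm : Commute gC tC := by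
    apply RingHom.ext
    intro x
    apply Subtype.ext
    exact hgt x
  have hg5 : gC ^ 5 = 1 := by
    apply RingHom.ext
    intro x
    apply Subtype.ext
    exact hg x
  have ht5 : tC ^ 5 = tC := by
    apply RingHom.ext
    intro x
    apply Subtype.ext
    change t (t (t (t (t x)))) = t x
    rw [ht, ht]
  have htt : ∀ x, tC (tC x) = x := by
    intro x
    apply Subtype.ext
    exact ht x
  -- the ideal of denominators
  let I : Ideal (integralClosure R L) :=
    { carrier := {c | IsIntegral R ((c : L) * Θ)}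
      add_mem' := by
        intro a b ha hb
        change IsIntegral R (((a : L) + (b : L)) * Θ)
        rw [add_mul]
        exact IsIntegral.add ha hb
      zero_mem' := by
        change IsIntegral R ((0 : L) * Θ)
        rw [zero_mul]
        exact isIntegral_zero
      smul_mem' := by
        intro a b hb
        change IsIntegral R (((a : L) * (b : L)) * Θ)
        rw [mul_assoc]
        exact IsIntegral.mul a.2 hb }
  have hI : ∀ c : integralClosure R L, c ∈ I ↔ IsIntegral R ((c : L) * Θ) := fun c => Iff.rfl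
  by_contra hcon
  have hItop : I ≠ ⊤ := by
    intro h
    apply hcon
    have h1 : (1 : integralClosure R L) ∈ I := by rw [h]; trivial
    rw [hI] at h1
    simpa using h1
  obtain ⟨P, hPmax, hIP⟩ := Ideal.exists_le_maximal I hItop
  have hPprime : P.IsPrime := hPmax.isPrime
  -- `P` lies over the maximal ideal
  have hover : ∀ r : R, ¬ IsUnit r → algebraMap R (integralClosure R L) r ∈ P := by
    intro r hr
    have h1 : (P.comap (algebraMap R (integralClosure R L))).IsMaximal :=
      Ideal.isMaximal_comap_of_isIntegral_of_isMaximal P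
    have h2 := IsLocalRing.eq_maximalIdeal h1
    have h3 : r ∈ IsLocalRing.maximalIdeal R := (IsLocalRing.mem_maximalIdeal r).2 hr
    rw [← h2] at h3
    exact h3
  -- the norm
  let NN : integralClosure R L → integralClosure R L :=
    fun x => x * gC x * gC (gC x) * gC (gC (gC x)) * gC (gC (gC (gC x)))
  have hNN : ∀ x, ((NN x : integralClosure R L) : L) =
      (x : L) * g x * g (g x) * g (g (g x)) * g (g (g (g x))) := fun x => rfl
  have hNfix : ∀ x, g ((NN x : integralClosure R L) : L) = NN x := by
    intro x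
    rw [hNN, map_mul, map_mul, map_mul, map_mul, hg]
    ring
  have hkey : ∀ x : integralClosure R L, tC x ∈ P → NN x ∈ P := by
    intro x hx
    obtain ⟨r, hr⟩ := hinv _ (hNfix (tC x)) (NN (tC x)).2
    have hr' : algebraMap R (integralClosure R L) r = NN (tC x) := Subtype.ext hr
    have h1 : NN (tC x) ∈ P := by
      have h2 : NN (tC x) = tC x * (gC (tC x) * gC (gC (tC x)) * gC (gC (gC (tC x))) *
          gC (gC (gC (gC (tC x))))) := by
        change tC x * gC (tC x) * gC (gC (tC x)) * gC (gC (gC (tC x))) *
          gC (gC (gC (gC (tC x)))) = _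
        ring
      rw [h2]
      exact P.mul_mem_right _ hx
    have h3 : ¬ IsUnit r := by
      intro hu
      apply hPmax.ne_top
      apply Ideal.eq_top_of_isUnit_mem P h1
      rw [← hr']
      exact hu.map _
    have h4 : ¬ IsUnit (tR r) := by
      intro hu
      apply h3
      have := hu.map (tR.symm : R →+* R)
      simpa using this
    have h5 := hover _ h4
    have h6 : algebraMap R (integralClosure R L) (tR r) = NN x := by
      apply Subtype.ext
      change algebraMap R L (tR r) = ((NN x : integralClosure R L) : L)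
      rw [htR, hr, hNN, hNN, map_mul, map_mul, map_mul, map_mul, htC]
      simp only [hgt, ht]
    rwa [h6] at h5
  -- prime avoidance
  have hav : ∃ i ∈ Finset.range 5, P.comap tC ≤ P.comap (gC ^ i) := by
    rw [← Ideal.subset_union_prime (s := Finset.range 5) (f := fun i => P.comap (gC ^ i)) 0 0
      (fun i _ _ _ => Ideal.comap_isPrime _ _)]
    intro x hx
    have hx' : tC x ∈ P := hx
    have h1 := hkey x hx'
    have h2 : x ∈ P ∨ gC x ∈ P ∨ gC (gC x) ∈ P ∨ gC (gC (gC x)) ∈ P ∨
        gC (gC (gC (gC x))) ∈ P := by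
      rcases hPprime.mem_or_mem h1 with h | h
      · rcases hPprime.mem_or_mem h with h | h
        · rcases hPprime.mem_or_mem h with h | h
          · rcases hPprime.mem_or_mem h with h | h
            · exact Or.inl h
            · exact Or.inr (Or.inl h)
          · exact Or.inr (Or.inr (Or.inl h))
        · exact Or.inr (Or.inr (Or.inr (Or.inl h)))
      · exact Or.inr (Or.inr (Or.inr (Or.inr h)))
    rw [Set.mem_iUnion₂]
    rcases h2 with h | h | h | h | h
    · exact ⟨0, by simp, h⟩
    · exact ⟨1, by simp, h⟩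
    · exact ⟨2, by simp, h⟩
    · exact ⟨3, by simp, h⟩
    · exact ⟨4, by simp, h⟩
  obtain ⟨i, -, hi⟩ := hav
  -- `t` preserves `P`
  have hσ : ∀ x ∈ P, (gC ^ i * tC) x ∈ P := by
    intro x hx
    have h1 : tC x ∈ P.comap tC := by
      change tC (tC x) ∈ P
      rw [htt]
      exact hx
    exact hi h1
  have hσn : ∀ (n : ℕ) (x : integralClosure R L), x ∈ P → ((gC ^ i * tC) ^ n) x ∈ P := by
    intro n
    induction n with
    | zero => exact fun x hx => hx
    | succ n ih =>
      intro x hx
      rw [pow_succ]
      exact ih _ (hσ x hx)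
  have hσ5 : (gC ^ i * tC) ^ 5 = tC := by
    rw [(Commute.pow_left hcomm i).mul_pow, ← pow_mul, mul_comm i 5, pow_mul, hg5, one_pow, one_mul,
      ht5]
  have htP : ∀ x ∈ P, tC x ∈ P := by
    intro x hx
    have := hσn 5 x hx
    rwa [hσ5] at this
  -- Seidenberg
  obtain ⟨f, ⟨k, hk⟩, hfΘ⟩ := hpol Θ
  obtain ⟨a, b, hab, hPab⟩ := seidenberg P Θ _ (f.map (algebraMap R (integralClosure R L))) le_rfl
    ⟨k, by
      rw [coeff_map]
      intro hmem
      exact hPmax.ne_top (Ideal.eq_top_of_isUnit_mem P hmem (hk.map _))⟩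
    (by rw [aeval_map_algebraMap]; exact hfΘ)
  have hbI : b ∈ I := by
    rw [hI, hab]
    exact a.2
  have hbP : b ∈ P := hIP hbI
  have haP : a ∉ P := by
    rcases hPab with h | h
    · exact h
    · exact absurd hbP h
  have hrel : a * tC a = b * tC b := by
    apply Subtype.ext
    change (a : L) * t a = (b : L) * t b
    rw [← hab, map_mul]
    calc (b : L) * Θ * (t b * t Θ) = (b : L) * t b * (Θ * t Θ) := by ring
      _ = _ := by rw [hΘ, mul_one]
  have h1 : a * tC a ∈ P := by
    rw [hrel]
    exact P.mul_mem_right _ hbP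
  rcases hPprime.mem_or_mem h1 with h | h
  · exact haP h
  · apply haP
    have := htP _ h
    rwa [htt] at this

end main

section final

variable {L : Type*} [Field L]

/-- the characteristic polynomial of `x` has coefficients in the fixed field -/
theorem exists_monic (g : L ≃+* L) (hg : ∀ x, g (g (g (g (g x)))) = x) (E : Subfield L)
    (hE : ∀ x, x ∈ E ↔ g x = x) (x : L) : ∃ p : E[X], p.Monic ∧ aeval x p = 0 := by
  set q : L[X] := (X - C x) * (X - C (g x)) * (X - C (g (g x))) * (X - C (g (g (g x)))) *
    (X - C (g (g (g (g x))))) with hq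
  have hqm : q.Monic := by
    rw [hq]
    exact ((((monic_X_sub_C _).mul (monic_X_sub_C _)).mul (monic_X_sub_C _)).mul
      (monic_X_sub_C _)).mul (monic_X_sub_C _)
  have hqg : q.map (g : L →+* L) = q := by
    rw [hq]
    simp only [Polynomial.map_mul, Polynomial.map_sub, Polynomial.map_X, Polynomial.map_C,
      RingHom.coe_coe]
    rw [hg]
    ring
  have hqE : ∀ n, q.coeff n ∈ E := by
    intro n
    rw [hE]
    have h1 := congrArg (fun r : L[X] => r.coeff n) hqg
    simp only [coeff_map] at h1
    exact h1
  have hlift : q ∈ lifts (algebraMap E L) := by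
    rw [lifts_iff_coeff_lifts]
    intro n
    exact ⟨⟨q.coeff n, hqE n⟩, rfl⟩
  obtain ⟨p, hp, -, hpm⟩ := lifts_and_natDegree_eq_and_monic hlift hqm
  refine ⟨p, hpm, ?_⟩
  rw [← eval_map_algebraMap, hp, hq]
  simp

theorem mem_of_norm_one (g t : L ≃+* L) (hg : ∀ x, g (g (g (g (g x)))) = x)
    (ht : ∀ x, t (t x) = x) (hgt : ∀ x, g (t x) = t (g x)) (E : Subfield L)
    (hE : ∀ x, x ∈ E ↔ g x = x) (O : ValuationSubring E)
    (hO : ∀ θ : E, (θ : L) * t θ = 1 → θ ∈ O) (Θ : L) (hΘ : Θ * t Θ = 1) (e : E)
    (he : (e : L) = Θ + g Θ + g (g Θ) + g (g (g Θ)) + g (g (g (g Θ)))) : e ∈ O := by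
  -- `t` restricts to `E`
  have htE : ∀ x : E, t x ∈ E := by
    intro x
    rw [hE, hgt, (hE x).1 x.2]
  have htO : ∀ x : E, x ∈ O → (⟨t x, htE x⟩ : E) ∈ O := by
    intro x hx
    by_cases hx0 : x = 0
    · subst hx0
      have h1 : (⟨t ((0 : E) : L), htE 0⟩ : E) = 0 := Subtype.ext (by
        change t ((0 : E) : L) = ((0 : E) : L)
        rw [ZeroMemClass.coe_zero, map_zero])
      rw [h1]
      exact O.zero_mem
    · have hxL : (x : L) ≠ 0 := fun h => hx0 (Subtype.ext h)
      have htx : t (x : L) ≠ 0 := (map_ne_zero t).2 hxL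
      have h1 : (⟨t x, htE x⟩ : E) / x ∈ O := by
        apply hO
        have h2 : (((⟨t x, htE x⟩ : E) / x : E) : L) = t x / x := by
          push_cast
          rfl
        rw [h2, map_div₀, ht]
        field_simp
      have h3 := O.mul_mem _ _ h1 hx
      rwa [div_mul_cancel₀ _ hx0] at h3
  let tR : O ≃+* O :=
    { toFun := fun r => ⟨⟨t (r : E), htE r⟩, htO r r.2⟩
      invFun := fun r => ⟨⟨t (r : E), htE r⟩, htO r r.2⟩
      left_inv := fun r => Subtype.ext (Subtype.ext (ht _))
      right_inv := fun r => Subtype.ext (Subtype.ext (ht _))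
      map_mul' := fun a b => Subtype.ext (Subtype.ext (map_mul t _ _))
      map_add' := fun a b => Subtype.ext (Subtype.ext (map_add t _ _)) }
  let _ : Algebra O L := ((algebraMap E L).comp (algebraMap O E)).toAlgebra
  have : IsScalarTower O E L := IsScalarTower.of_algebraMap_eq fun _ => rfl
  have hOL : ∀ r : O, algebraMap O L r = ((r : E) : L) := fun _ => rfl
  have hinv : ∀ x : L, g x = x → IsIntegral O x → ∃ r : O, algebraMap O L r = x := by
    intro x hx hxi
    have hxE : x ∈ E := (hE x).2 hx
    have h1 : IsIntegral O (⟨x, hxE⟩ : E) := by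
      rw [← isIntegral_algebraMap_iff (A := E) (B := L) (algebraMap E L).injective]
      exact hxi
    obtain ⟨r, hr⟩ := (IsIntegrallyClosed.isIntegral_iff (R := O) (K := E)).1 h1
    exact ⟨r, by rw [hOL]; exact congrArg Subtype.val hr⟩
  have hpol : ∀ x : L, ∃ f : O[X], (∃ k, IsUnit (f.coeff k)) ∧ aeval x f = 0 := by
    intro x
    obtain ⟨p, hpm, hpx⟩ := exists_monic g hg E hE x
    obtain ⟨k, hk, hmax⟩ := Finset.exists_max_image p.support (fun i => O.valuation (p.coeff i))
      ⟨p.natDegree, natDegree_mem_support_of_nonzero hpm.ne_zero⟩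
    have hk0 : p.coeff k ≠ 0 := mem_support_iff.1 hk
    have hv0 : O.valuation (p.coeff k) ≠ 0 := (Valuation.ne_zero_iff _).2 hk0
    set s : E := (p.coeff k)⁻¹ with hs
    have hlift : C s * p ∈ lifts (algebraMap O E) := by
      rw [lifts_iff_coeff_lifts]
      intro n
      have h1 : s * p.coeff n ∈ O := by
        rw [← ValuationSubring.valuation_le_one_iff, map_mul, hs, map_inv₀]
        by_cases hn : n ∈ p.support
        · rw [inv_mul_le_one₀ (zero_lt_iff.2 hv0)]
          exact hmax n hn
        · rw [notMem_support_iff.1 hn, map_zero, mul_zero]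
          exact zero_le_one
      rw [coeff_C_mul]
      exact ⟨⟨s * p.coeff n, h1⟩, rfl⟩
    rw [lifts_iff_ringHom_rangeS] at hlift
    obtain ⟨f, hf⟩ := hlift
    have hf' : f.map (algebraMap O E) = C s * p := hf
    refine ⟨f, ⟨k, ?_⟩, ?_⟩
    · have h1 : algebraMap O E (f.coeff k) = 1 := by
        rw [← coeff_map, hf', coeff_C_mul, hs, inv_mul_cancel₀ hk0]
      have h2 : f.coeff k = 1 := Subtype.ext h1
      rw [h2]
      exact isUnit_one
    · rw [← aeval_map_algebraMap E, hf', map_mul, hpx, mul_zero]
  have hgO : ∀ r : O, g (algebraMap O L r) = algebraMap O L r := fun r => (hE _).1 (r : E).2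
  have hint : IsIntegral O Θ := integral_of_norm_one (R := O) g t hg ht hgt
    hgO tR (fun r => rfl) hinv hpol Θ hΘ
  have hgi : ∀ x : L, IsIntegral O x → IsIntegral O (g x) := by
    intro x hx
    let gA : L →ₐ[O] L := { (g : L →+* L) with commutes' := hgO }
    exact hx.map gA
  have h1 := hgi _ hint
  have h2 := hgi _ h1
  have h3 := hgi _ h2
  have h4 := hgi _ h3
  have h5 : IsIntegral O (e : L) := by
    rw [he]
    exact (((hint.add h1).add h2).add h3).add h4
  obtain ⟨r, hr⟩ := hinv _ ((hE _).1 e.2) h5
  have h6 : (r : E) = e := Subtype.ext hr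
  rw [← h6]
  exact r.2

end final

end Pool.Agent.MP_1b9aaa_al.T5
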