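import Pool.Agent.Lib.MP_1b9aaa_al.T5C
import Pool.Agent.Lib.MP_1b9aaa_al.T5V
import Pool.Agent.Lib.MP_1b9aaa_al.T5S

/-!
# MP_1b9aaa_al, T_5: assembly for all fields in which `-1` is a sum of squares

`val`: the integrality of the trace.  `eq_zero_I'`: T_5 for `i ∈ F`, no hypothesis.
`CoreN`: the abstract argument for `E` with an element of norm `-1`;
`eq_zero_N`: `CoreN` gives T_5 if `-1` is a sum of squares in `K`.
-/

set_option autoImplicit false

namespace Pool.Agent.MP_1b9aaa_al

open IsSteinberg Climb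

namespace Quin

universe u v

theorem val : Val.{u} := by
  intro L _ g t hg ht hgt E hE O hO Θ hΘ e he
  exact T5.mem_of_norm_one g t hg ht hgt E hE O hO Θ hΘ e he

/-- the abstract argument, `E` has an element of norm `-1` -/
def CoreN : Prop :=
  ∀ (E : Type u) [Field E] (t : E ≃+* E) (T : Type v) [AddCommGroup T] (H : E → T) (e E5 : E)
    (_ : Abs t H e E5) (_ : ∃ γ, γ * t γ = -1) (x : E), x ≠ 0 → H x = 0

section

variable {K : Type u} {T : Type v} [Field K] [AddCommGroup T] {g : K ≃+* K} {c : K → K → T}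

/-- **T_5 for `i ∈ F`, all characteristics** -/
theorem eq_zero_I' (hc : Good g c) (h5 : ∀ x, g (g (g (g (g x)))) = x)
    (h2T : ∀ t : T, t + t = 0 → t = 0) {i : K} (hgi : g i = i) (hi : i * i = -1) {y z : K}
    (hy : y ≠ 0) (hz : z ≠ 0) : c y z = 0 :=
  eq_zero_I val coreI hc h5 h2T hgi hi hy hz

/-- the dihedral maps for `X² - (1 + e²)` -/
theorem dih_coreN (hC : CoreN.{u, v}) (hc : Good g c)
    (h5 : ∀ x, g (g (g (g (g x)))) = x) (h2T : ∀ t : T, t + t = 0 → t = 0) (h2K : (2 : K) ≠ 0)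
    {e : K} (he : g e = e) {x a : K} (ha : g a = a) (hxa : x ≠ a)
    (hne : x * x - (1 + e * e) ≠ 0) : c (a - x) (x * x - (1 + e * e)) = 0 := by
  have hax : a - x ≠ 0 := sub_ne_zero.mpr (Ne.symm hxa)
  have hgd : g (1 + e * e) = 1 + e * e := by rw [map_add, map_one, map_mul, he]
  rcases finite_or_infinite (fixS g) with hfin | hinf
  · obtain ⟨h1, -⟩ := five_finrank h5
    have : Finite K := Module.finite_of_finite (fixS g)
    exact zero_of_finite hc.st hc.van hax hne
  by_cases hx : g x = x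
  · refine hc.van _ hax _ ?_ hne
    show g (x * x - (1 + e * e)) = x * x - (1 + e * e)
    rw [map_sub, map_mul, hx, hgd]
  by_cases hsq : ∃ s : K, s * s = 1 + e * e
  · obtain ⟨s, hs⟩ := hsq
    have hgs := root_mem h5 h2K hgd hs
    have hsp := split hc.st hc.van (x := x) (u := 0) (v := -(1 + e * e)) (r := s) (a := a) hx
      (zero_mem _) hgs ha (by rw [← hs]; ring)
    rw [show x ^ 2 + 0 * x + -(1 + e * e) = x * x - (1 + e * e) by ring] at hsp
    rw [show a - x = -(x - a) by ring, negl hc.st hc.van (sub_ne_zero.mpr hxa) hne, hsp]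
  · have hg0 : g 0 = 0 := map_zero g
    have hL : Fact (∀ r : K, r ^ 2 ≠ (1 + e * e) + 0 * r) := ⟨fun s h => hsq ⟨s, by
      rw [← pow_two, h]; ring⟩⟩
    have hE := factSG (a := 1 + e * e) (b := 0) hgd hg0
    have hA := absG val hc h5 h2T hgd hg0 (Or.inl h2K) hx
    have hH := hC _ _ _ _ _ _ hA ⟨⟨⟨e, he⟩, 1⟩, ?_⟩ ⟨⟨a, ha⟩, -1⟩ ?_
    · have e1 : L x (⟨⟨a, ha⟩, -1⟩ : QuadraticAlgebra (fixS g) (dS hgd) (dS hg0)) = a - x := by
        show a + ((-1 : fixS g) : K) * x = a - x
        push_cast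
        ring
      rw [H, e1, Qx_eqG] at hH
      rwa [show x * x - (1 + e * e) = x ^ 2 - 0 * x - (1 + e * e) by ring]
    · apply iotaG_inj hgd hg0
      rw [map_mul, tG_apply, iotaG_star, map_neg, map_one]
      have h1 : iotaG hgd hg0 ⟨⟨e, he⟩, 1⟩ = CG e + QuadraticAlgebra.omega := by
        have := mk_eq_CG (a := 1 + e * e) (b := 0) e 1
        show (⟨e, 1⟩ : QuadraticAlgebra K (1 + e * e) 0) = _
        rw [this]
        show CG e + CG 1 * QuadraticAlgebra.omega = _
        rw [map_one, one_mul]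
      have h2 := CG_a (a := 1 + e * e) (b := 0)
      rw [h1, star_add, star_CG, star_omG]
      rw [map_add, map_one, map_mul] at h2
      rw [map_zero] at h2 ⊢
      linear_combination h2
    · intro h
      have := congrArg QuadraticAlgebra.im h
      simp at this

/-- **T_5 if `-1` is a sum of squares in `K`**, all characteristics -/
theorem eq_zero_N (hC : CoreN.{u, v}) (hc : Good g c) (h5 : ∀ x, g (g (g (g (g x)))) = x)
    (h2T : ∀ t : T, t + t = 0 → t = 0) (hs : IsSumSq (-1 : K)) {y z : K} (hy : y ≠ 0)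
    (hz : z ≠ 0) : c y z = 0 := by
  by_cases h2K : (2 : K) = 0
  · exact eq_zero_I' hc h5 h2T (i := 1) (map_one g) (by linear_combination h2K) hy hz
  have hD : DihVan.{u} T 5 := by
    intro K _ g c h2K h5 hc e he x a ha hxa hne
    exact dih_coreN hC hc h5 h2T h2K he ha hxa hne
  refine eq_zero5_of_dih h2T hD h2K hc h5 ?_ hy hz
  have h := sumSq_fix h5 hs
  have hlist : ∀ s : fixS g, IsSumSq s → ∃ l : List K, (∀ a ∈ l, g a = a) ∧
      (l.map fun a => a * a).sum = (s : K) := by
    intro s hs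
    induction hs with
    | zero => exact ⟨[], by simp, by simp⟩
    | sq_add a hs ih =>
      obtain ⟨l, hl, hl'⟩ := ih
      refine ⟨(a : K) :: l, ?_, ?_⟩
      · intro b hb
        rcases List.mem_cons.mp hb with rfl | hb
        · exact a.2
        · exact hl b hb
      · rw [List.map_cons, List.sum_cons, hl']
        push_cast
        ring
  obtain ⟨l, hl, hl'⟩ := hlist _ h
  refine ⟨l, hl, ?_⟩
  rw [hl']
  push_cast
  rfl

end

end Quin

end Pool.Agent.MP_1b9aaa_al
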