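import Pool.Agent.Lib.MP_1b9aaa_al.Sx

/-!
# MP_1b9aaa_al, T_5: the second split member of a pencil of cubics

`q` quadratic, `pi` quintic, `b1, b2, b3` distinct points of `F`.  There are linear polynomials
`N1, N2, N3` (explicit) with `q N1 N2 N3 - k pi = w (X - b1)(X - b2)(X - b3)`, `deg w ≤ 2`.
Consequence: `c(x - a, w(x)) = c(x - a, q(x))` for all `a ∈ F`, if `pi(x) = 0`.
-/

set_option autoImplicit false

namespace Pool.Agent.MP_1b9aaa_al

open Polynomial IsSteinberg

namespace Pen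

variable {F : Type*} [Field F]

/-- the linear form `X` of the pencil: zero at `b2` -/
noncomputable def U (b1 b2 b3 : F) : F[X] := C (b3 - b1) * (X - C b2)

/-- the linear form `Y` of the pencil: zero at `b1` -/
noncomputable def V (b1 b2 b3 : F) : F[X] := C (b3 - b2) * (X - C b1)

/-- first root -/
noncomputable def N1 (b1 b2 b3 al be ga : F) : F[X] :=
  C (be - al) * U b1 b2 b3 - C (be + ga) * V b1 b2 b3

/-- second root -/
noncomputable def N2 (b1 b2 b3 al be ga : F) : F[X] :=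
  C (al + ga) * U b1 b2 b3 - C (al - be) * V b1 b2 b3

/-- third root -/
noncomputable def N3 (b1 b2 b3 al be ga : F) : F[X] :=
  C (al * (be + ga)) * U b1 b2 b3 - C (be * (al + ga)) * V b1 b2 b3

/-- the scalar -/
def kap (al be ga : F) : F := (be - al) * (al + ga) * (be + ga)

lemma deg_lin (r s : F) : (C r * (X - C s) : F[X]).natDegree ≤ 1 := by
  refine (natDegree_C_mul_le _ _).trans ?_
  rw [natDegree_X_sub_C]

lemma deg_N (b1 b2 b3 r s : F) : (C r * U b1 b2 b3 - C s * V b1 b2 b3).natDegree ≤ 1 := by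
  refine (natDegree_sub_le _ _).trans (max_le ?_ ?_)
  · exact (natDegree_C_mul_le _ _).trans (deg_lin _ _)
  · exact (natDegree_C_mul_le _ _).trans (deg_lin _ _)

/-- **the pencil identity** -/
theorem pencil {q p : F[X]} (hq : q.natDegree ≤ 2) (hp : p.natDegree ≤ 5) {b1 b2 b3 : F}
    (h12 : b1 ≠ b2) (h13 : b1 ≠ b3) (h23 : b2 ≠ b3) {al be ga : F}
    (h1 : al * ((b3 - b1) * (b1 - b2)) ^ 3 * q.eval b1 = p.eval b1)
    (h2 : be * ((b3 - b2) * (b2 - b1)) ^ 3 * q.eval b2 = p.eval b2)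
    (h3 : ga * ((b3 - b1) * (b3 - b2)) ^ 3 * q.eval b3 = p.eval b3) :
    ∃ w : F[X], w.natDegree ≤ 2 ∧
      q * (N1 b1 b2 b3 al be ga * N2 b1 b2 b3 al be ga * N3 b1 b2 b3 al be ga) -
        C (kap al be ga) * p = w * ((X - C b1) * (X - C b2) * (X - C b3)) := by
  obtain ⟨D, hD⟩ : ∃ D, D = q * (N1 b1 b2 b3 al be ga * N2 b1 b2 b3 al be ga *
      N3 b1 b2 b3 al be ga) - C (kap al be ga) * p := ⟨_, rfl⟩
  have hDdeg : D.natDegree ≤ 5 := by
    rw [hD]
    refine (natDegree_sub_le _ _).trans (max_le ?_ ?_)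
    · refine natDegree_mul_le.trans ?_
      have e1 : (N1 b1 b2 b3 al be ga).natDegree ≤ 1 := deg_N _ _ _ _ _
      have e2 : (N2 b1 b2 b3 al be ga).natDegree ≤ 1 := deg_N _ _ _ _ _
      have e3 : (N3 b1 b2 b3 al be ga).natDegree ≤ 1 := deg_N _ _ _ _ _
      have e4 := natDegree_mul_le (p := N1 b1 b2 b3 al be ga) (q := N2 b1 b2 b3 al be ga)
      have e5 := natDegree_mul_le (p := N1 b1 b2 b3 al be ga * N2 b1 b2 b3 al be ga)
        (q := N3 b1 b2 b3 al be ga)
      omega
    · exact (natDegree_C_mul_le _ _).trans hp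
  have r1 : D.IsRoot b1 := by
    rw [hD, IsRoot.def]
    simp only [eval_sub, eval_mul, eval_C, N1, N2, N3, U, V, eval_X, kap]
    linear_combination ((be - al) * (al + ga) * (be + ga)) * h1
  have r2 : D.IsRoot b2 := by
    rw [hD, IsRoot.def]
    simp only [eval_sub, eval_mul, eval_C, N1, N2, N3, U, V, eval_X, kap]
    linear_combination ((be - al) * (al + ga) * (be + ga)) * h2
  have r3 : D.IsRoot b3 := by
    rw [hD, IsRoot.def]
    simp only [eval_sub, eval_mul, eval_C, N1, N2, N3, U, V, eval_X, kap]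
    linear_combination ((be - al) * (al + ga) * (be + ga)) * h3
  obtain ⟨D1, hD1⟩ := dvd_iff_isRoot.2 r1
  have r2' : D1.IsRoot b2 := by
    rw [hD1, IsRoot.def, eval_mul, eval_sub, eval_X, eval_C] at r2
    exact (mul_eq_zero.1 r2).resolve_left (sub_ne_zero.2 (Ne.symm h12))
  obtain ⟨D2, hD2⟩ := dvd_iff_isRoot.2 r2'
  have r3' : D2.IsRoot b3 := by
    rw [hD1, hD2, IsRoot.def, eval_mul, eval_mul, eval_sub, eval_sub, eval_X, eval_C,
      eval_C] at r3
    rcases mul_eq_zero.1 r3 with h | h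
    · exact absurd h (sub_ne_zero.2 (Ne.symm h13))
    · exact (mul_eq_zero.1 h).resolve_left (sub_ne_zero.2 (Ne.symm h23))
  obtain ⟨D3, hD3⟩ := dvd_iff_isRoot.2 r3'
  have hfin : D = D3 * ((X - C b1) * (X - C b2) * (X - C b3)) := by
    rw [hD1, hD2, hD3]; ring
  refine ⟨D3, ?_, by rw [← hD, hfin]⟩
  by_cases h0 : D3 = 0
  · rw [h0]; simp
  · have m : ((X - C b1) * (X - C b2) * (X - C b3) : F[X]).Monic :=
      ((monic_X_sub_C _).mul (monic_X_sub_C _)).mul (monic_X_sub_C _)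
    have d3 : ((X - C b1) * (X - C b2) * (X - C b3) : F[X]).natDegree = 3 := by
      rw [((monic_X_sub_C b1).mul (monic_X_sub_C b2)).natDegree_mul (monic_X_sub_C b3),
        (monic_X_sub_C b1).natDegree_mul (monic_X_sub_C b2), natDegree_X_sub_C,
        natDegree_X_sub_C, natDegree_X_sub_C]
    have d4 : D.natDegree = D3.natDegree + 3 := by
      rw [hfin, mul_comm, m.natDegree_mul' h0, d3, add_comm]
    omega

end Pen

namespace Pen

variable {K T : Type*} [Field K] [AddCommGroup T] {c : K → K → T} {S : Subfield K}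

/-- a polynomial of degree `≤ 1` over `S` is nonzero at `x ∉ S` -/
lemma lin_ne {x : K} (hx : x ∉ S) {N : S[X]} (h1 : N.natDegree ≤ 1) (h0 : N ≠ 0) :
    aeval x N ≠ 0 := by
  obtain ⟨a, b, rfl⟩ := exists_eq_X_add_C_of_natDegree_le_one h1
  intro h
  simp only [map_add, map_mul, aeval_C, aeval_X] at h
  have ha : a ≠ 0 := by
    rintro rfl
    rw [map_zero, zero_mul, zero_add] at h
    have hb : b = 0 := (map_eq_zero_iff _ (algebraMap S K).injective).1 h
    rw [hb] at h0
    simp at h0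
  have ha' : algebraMap S K a ≠ 0 := (map_ne_zero_iff _ (algebraMap S K).injective).2 ha
  apply hx
  have e : x = ((-b / a : S) : K) := by
    have e1 : ((-b / a : S) : K) = -(algebraMap S K b) / algebraMap S K a := by
      push_cast
      rfl
    rw [e1, eq_div_iff ha']
    linear_combination h
  rw [e]
  exact (-b / a : S).2

/-- two linear polynomials pair trivially at `x` -/
lemma lin_lin (hc : IsSteinberg c) (hS : VanOn c S) {x : K} (hx : x ∉ S) {M N : S[X]}
    (hM : M.natDegree ≤ 1) (hM0 : M ≠ 0) (hN : N.natDegree ≤ 1) (hN0 : N ≠ 0) :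
    c (aeval x M) (aeval x N) = 0 := by
  have h1 := lin_ne hx hM hM0
  have h2 := lin_ne hx hN hN0
  obtain ⟨a, b, rfl⟩ := exists_eq_X_add_C_of_natDegree_le_one hM
  obtain ⟨a', b', rfl⟩ := exists_eq_X_add_C_of_natDegree_le_one hN
  refine hc.line hS (s := x) (p := algebraMap S K b) (q := algebraMap S K a)
    (r := algebraMap S K b') (t := algebraMap S K a') b.2 a.2 b'.2 a'.2 ?_ ?_ h1 h2
  · simp only [map_add, map_mul, aeval_C, aeval_X]; ring
  · simp only [map_add, map_mul, aeval_C, aeval_X]; ring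

/-- **consequence for the symbol**: `c(l(x), w(x)) = c(l(x), q(x))` for `l` linear -/
theorem pencil_symbol (hc : IsSteinberg c) (hS : VanOn c S) {x : K} (hx : x ∉ S)
    {q p w : S[X]} {b1 b2 b3 al be ga : S} (h12 : b1 ≠ b2) (h13 : b1 ≠ b3)
    (hp0 : aeval x p = 0) (hq0 : aeval x q ≠ 0) (hal : al ≠ 0) (hk : kap al be ga ≠ 0)
    (h : q * (N1 b1 b2 b3 al be ga * N2 b1 b2 b3 al be ga * N3 b1 b2 b3 al be ga) -
        C (kap al be ga) * p = w * ((X - C b1) * (X - C b2) * (X - C b3)))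
    {l : S[X]} (hl : l.natDegree ≤ 1) (hl0 : l ≠ 0) :
    aeval x w ≠ 0 ∧ c (aeval x l) (aeval x w) = c (aeval x l) (aeval x q) := by
  have hk1 : be - al ≠ 0 := fun e => hk (by rw [kap, e]; ring)
  have hk2 : al + ga ≠ 0 := fun e => hk (by rw [kap, e]; ring)
  have hk3 : be + ga ≠ 0 := fun e => hk (by rw [kap, e]; ring)
  have hD : (b3 - b1) * (b1 - b2) ≠ 0 :=
    mul_ne_zero (sub_ne_zero.2 (Ne.symm h13)) (sub_ne_zero.2 h12)
  have n1 : N1 b1 b2 b3 al be ga ≠ 0 := by
    intro e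
    have e1 := congrArg (eval b1) e
    simp only [N1, U, V, eval_sub, eval_mul, eval_C, eval_X, eval_zero] at e1
    exact mul_ne_zero hk1 hD (by linear_combination e1)
  have n2 : N2 b1 b2 b3 al be ga ≠ 0 := by
    intro e
    have e1 := congrArg (eval b1) e
    simp only [N2, U, V, eval_sub, eval_mul, eval_C, eval_X, eval_zero] at e1
    exact mul_ne_zero hk2 hD (by linear_combination e1)
  have n3 : N3 b1 b2 b3 al be ga ≠ 0 := by
    intro e
    have e1 := congrArg (eval b1) e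
    simp only [N3, U, V, eval_sub, eval_mul, eval_C, eval_X, eval_zero] at e1
    exact mul_ne_zero (mul_ne_zero hal hk3) hD (by linear_combination e1)
  have d1 : (N1 b1 b2 b3 al be ga).natDegree ≤ 1 := deg_N _ _ _ _ _
  have d2 : (N2 b1 b2 b3 al be ga).natDegree ≤ 1 := deg_N _ _ _ _ _
  have d3 : (N3 b1 b2 b3 al be ga).natDegree ≤ 1 := deg_N _ _ _ _ _
  have ex := congrArg (aeval x) h
  simp only [map_sub, map_mul, hp0, mul_zero, sub_zero] at ex
  have v1 := lin_ne hx d1 n1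
  have v2 := lin_ne hx d2 n2
  have v3 := lin_ne hx d3 n3
  have vl := lin_ne hx hl hl0
  have x1 : (X - C b1 : S[X]) ≠ 0 := X_sub_C_ne_zero b1
  have x2 : (X - C b2 : S[X]) ≠ 0 := X_sub_C_ne_zero b2
  have x3 : (X - C b3 : S[X]) ≠ 0 := X_sub_C_ne_zero b3
  have y1 := lin_ne hx (natDegree_X_sub_C b1).le x1
  have y2 := lin_ne hx (natDegree_X_sub_C b2).le x2
  have y3 := lin_ne hx (natDegree_X_sub_C b3).le x3
  simp only [map_sub] at y1 y2 y3
  have hw : aeval x w ≠ 0 := by
    intro e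
    rw [e, zero_mul] at ex
    exact mul_ne_zero hq0 (mul_ne_zero (mul_ne_zero v1 v2) v3) ex
  refine ⟨hw, ?_⟩
  have e2 := congrArg (c (aeval x l)) ex
  rw [hc.mul_right _ _ _ vl hq0 (mul_ne_zero (mul_ne_zero v1 v2) v3),
    hc.mul_right _ _ _ vl (mul_ne_zero v1 v2) v3, hc.mul_right _ _ _ vl v1 v2,
    hc.mul_right _ _ _ vl hw (mul_ne_zero (mul_ne_zero y1 y2) y3),
    hc.mul_right _ _ _ vl (mul_ne_zero y1 y2) y3, hc.mul_right _ _ _ vl y1 y2,
    lin_lin hc hS hx hl hl0 d1 n1, lin_lin hc hS hx hl hl0 d2 n2,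
    lin_lin hc hS hx hl hl0 d3 n3] at e2
  have z1 := lin_lin hc hS hx hl hl0 (natDegree_X_sub_C b1).le x1
  have z2 := lin_lin hc hS hx hl hl0 (natDegree_X_sub_C b2).le x2
  have z3 := lin_lin hc hS hx hl hl0 (natDegree_X_sub_C b3).le x3
  simp only [map_sub] at z1 z2 z3
  rw [z1, z2, z3] at e2
  simp only [add_zero] at e2
  exact e2.symm

end Pen

end Pool.Agent.MP_1b9aaa_al
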