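import Mathlib

/-! # T_5, unit lemmas (T5_helper62_lean.md, file T5End): the quantity `Q` of helper86 is a unit of
every valuation ring which contains the elements of norm one -/

set_option autoImplicit false

namespace Pool.Agent.MP_1b9aaa_al.T5Q

variable {E : Type*} [Field E]

section basic

variable (O : ValuationSubring E)

private theorem m_add {x y : E} (hx : x ∈ O.nonunits) (hy : y ∈ O.nonunits) :
    x + y ∈ O.nonunits := O.nonunits.add_mem hx hy

private theorem m_sub {x y : E} (hx : x ∈ O.nonunits) (hy : y ∈ O.nonunits) :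
    x - y ∈ O.nonunits := O.nonunits.sub_mem hx hy

private theorem m_mul {x y : E} (hx : x ∈ O) (hy : y ∈ O.nonunits) : x * y ∈ O.nonunits := by
  rw [ValuationSubring.mem_nonunits_iff] at hy ⊢
  rw [map_mul]
  exact mul_lt_one_of_nonneg_of_lt_one_right ((O.valuation_le_one_iff x).mpr hx) zero_le hy

private theorem m_prime {x y : E} (hx : x ∈ O) (hy : y ∈ O) (h : x * y ∈ O.nonunits) :
    x ∈ O.nonunits ∨ y ∈ O.nonunits := by
  rw [ValuationSubring.mem_nonunits_iff] at h ⊢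
  rw [ValuationSubring.mem_nonunits_iff]
  by_contra hn
  push Not at hn
  have h1 : O.valuation x = 1 := le_antisymm ((O.valuation_le_one_iff x).mpr hx) hn.1
  have h2 : O.valuation y = 1 := le_antisymm ((O.valuation_le_one_iff y).mpr hy) hn.2
  rw [map_mul, h1, h2, mul_one] at h
  exact lt_irrefl _ h

private theorem m_one : (1 : E) ∉ O.nonunits := by
  rw [ValuationSubring.mem_nonunits_iff, map_one]
  exact lt_irrefl _

private theorem m_O {x : E} (hx : x ∈ O.nonunits) : x ∈ O := O.nonunits_le hx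

private theorem nat_O (n : ℕ) : (n : E) ∈ O := natCast_mem O n

private theorem two_O : (2 : E) ∈ O := by exact_mod_cast nat_O O 2

end basic

/-- an element of a subring `B` which is a unit in all valuation rings above `B` is a unit of `B` -/
theorem inv_mem {B : Subring E} {β : E} (hβ : β ∈ B)
    (h : ∀ O : ValuationSubring E, (∀ x ∈ B, x ∈ O) → β ∉ O.nonunits) : β⁻¹ ∈ B := by
  by_contra hn
  obtain ⟨O, hBO, hI⟩ := Ideal.image_subset_nonunits_valuationSubring
    (Ideal.span {(⟨β, hβ⟩ : B)}) (by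
      rw [Ne, Ideal.span_singleton_eq_top]
      intro hu
      obtain ⟨u, hu⟩ := hu
      apply hn
      have h1 : (u : B) * ((u⁻¹ : Bˣ) : B) = 1 := u.mul_inv
      rw [hu] at h1
      have h2 : β * ((((u⁻¹ : Bˣ) : B)) : E) = 1 := congrArg Subtype.val h1
      rw [← eq_inv_of_mul_eq_one_right h2]
      exact Subtype.property _)
  exact h O (fun x hx => hBO hx) (hI ⟨⟨β, hβ⟩, Ideal.mem_span_singleton_self _, rfl⟩)

variable (t : E ≃+* E) (ht : ∀ x, t (t x) = x) (O : ValuationSubring E)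
  (hO : ∀ θ : E, θ * t θ = 1 → θ ∈ O)

include ht hO

/-- a valuation ring which contains the elements of norm one is stable -/
theorem t_mem {x : E} (hx : x ∈ O) : t x ∈ O := by
  by_cases h0 : x = 0
  · rw [h0, map_zero]; exact O.zero_mem
  · have h1 : t x ≠ 0 := fun h => h0 (t.map_eq_zero_iff.mp h)
    have : (t x / x) * t (t x / x) = 1 := by
      rw [map_div₀, ht]
      field_simp
    have h2 := O.mul_mem _ _ hx (hO _ this)
    rwa [mul_div_cancel₀ _ h0] at h2

/-- and so is its maximal ideal -/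
theorem t_nonunit {x : E} (hx : x ∈ O.nonunits) : t x ∈ O.nonunits := by
  rw [ValuationSubring.mem_nonunits_iff_or] at hx ⊢
  rcases hx with h | h
  · left; rw [h, map_zero]
  · right
    intro h1
    apply h
    have := t_mem t ht O hO h1
    rwa [map_inv₀, ht] at this

/-- an element of norm one which is congruent to a fixed element is congruent to its inverse -/
theorem sub_inv_of_congr {κ f : E} (hκ : κ * t κ = 1) (hf : t f = f) (h : κ - f ∈ O.nonunits) :
    κ - κ⁻¹ ∈ O.nonunits := by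
  have hi : t κ = κ⁻¹ := eq_inv_of_mul_eq_one_right hκ
  have h1 := t_nonunit t ht O hO h
  rw [map_sub, hf, hi] at h1
  have := m_sub O h h1
  have e : κ - f - (κ⁻¹ - f) = κ - κ⁻¹ := by ring
  rwa [e] at this

/-- if `2` is in the maximal ideal and `F` contains a primitive cube root of unity modulo the
maximal ideal, then an element of norm one is not congruent to such a root -/
theorem no_cube {κ f : E} (h2 : (2 : E) ∈ O.nonunits) (hκ : κ * t κ = 1) (hf : t f = f)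
    (hfO : f ∈ O) (hf3 : f * f + f + 1 ∈ O.nonunits) : κ * κ + κ + 1 ∉ O.nonunits := by
  intro h
  have hκO : κ ∈ O := hO κ hκ
  have hκ0 : κ ≠ 0 := left_ne_zero_of_mul_eq_one hκ
  have hi : t κ = κ⁻¹ := eq_inv_of_mul_eq_one_right hκ
  have hiO : κ⁻¹ ∈ O := hi ▸ t_mem t ht O hO hκO
  have h1 : (κ - f) * (κ - (-f - 1)) ∈ O.nonunits := by
    have e : (κ - f) * (κ - (-f - 1)) = (κ * κ + κ + 1) - (f * f + f + 1) := by ring
    rw [e]
    exact m_sub O h hf3
  have hg : t (-f - 1) = -f - 1 := by rw [map_sub, map_neg, hf, map_one]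
  have key : κ - κ⁻¹ ∈ O.nonunits := by
    rcases m_prime O (sub_mem hκO hfO) (sub_mem hκO (sub_mem (neg_mem hfO) O.one_mem)) h1
      with h3 | h3
    · exact sub_inv_of_congr t ht O hO hκ hf h3
    · exact sub_inv_of_congr t ht O hO hκ hg h3
  -- `κ² ≡ 1`, so `κ ≡ -2 ≡ 0`
  have h4 : κ * (κ - κ⁻¹) ∈ O.nonunits := m_mul O hκO key
  have h5 : κ ∈ O.nonunits := by
    have e : κ = ((κ * κ + κ + 1) - κ * (κ - κ⁻¹)) - 2 := by
      rw [mul_sub, mul_inv_cancel₀ hκ0]
      ring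
    rw [e]
    exact m_sub O (m_sub O h h4) h2
  have h6 := m_mul O hiO h5
  rw [inv_mul_cancel₀ hκ0] at h6
  exact m_one O h6

/-- `a² + b²` is a unit if `a, b` are fixed and coprime integers, for example -/
theorem sum_sq {i a b : E} (hi : i * i = -1) (ti : t i = -i) (ha : t a = a) (hb : t b = b)
    (haO : a ∈ O) (hbO : b ∈ O) (h : a * a + b * b ∈ O.nonunits) :
    2 * a ∈ O.nonunits ∧ 2 * b ∈ O.nonunits := by
  have hiU : i * t i = 1 := by rw [ti, mul_neg, hi, neg_neg]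
  have hiO : i ∈ O := hO i hiU
  have h1 : (a + i * b) * (a - i * b) ∈ O.nonunits := by
    have e : (a + i * b) * (a - i * b) = a * a - (i * i) * (b * b) := by ring
    rw [e, hi]
    have e2 : a * a - -1 * (b * b) = a * a + b * b := by ring
    rwa [e2]
  have t1 : t (a + i * b) = a - i * b := by rw [map_add, map_mul, ha, hb, ti]; ring
  have t2 : t (a - i * b) = a + i * b := by rw [map_sub, map_mul, ha, hb, ti]; ring
  have hib : i * b ∈ O := O.mul_mem _ _ hiO hbO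
  have key : a + i * b ∈ O.nonunits ∧ a - i * b ∈ O.nonunits := by
    rcases m_prime O (add_mem haO hib) (sub_mem haO hib) h1 with h3 | h3
    · exact ⟨h3, t1 ▸ t_nonunit t ht O hO h3⟩
    · exact ⟨t2 ▸ t_nonunit t ht O hO h3, h3⟩
  refine ⟨?_, ?_⟩
  · have := m_add O key.1 key.2
    have e : a + i * b + (a - i * b) = 2 * a := by ring
    rwa [e] at this
  · have := m_mul O hiO (m_sub O key.2 key.1)
    have e : i * (a - i * b - (a + i * b)) = -(i * i) * (2 * b) := by ring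
    rw [e, hi, neg_neg, one_mul] at this
    exact this

/-- no odd prime `p` with `p = a² + b²` is in the maximal ideal -/
theorem five {i : E} (hi : i * i = -1) (ti : t i = -i) : (5 : E) ∉ O.nonunits := by
  intro h
  have h2 : (2 : E) ∈ O := two_O O
  have h1 := sum_sq t ht O hO hi ti (a := 2) (b := 1) (map_ofNat t 2) (map_one t) h2 O.one_mem
    (by norm_num; exact h)
  have e : (1 : E) = 5 - 2 * (2 * 1) := by norm_num
  exact m_one O (e ▸ m_sub O h (m_mul O h2 h1.2))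

theorem ninetyseven {i : E} (hi : i * i = -1) (ti : t i = -i) : (97 : E) ∉ O.nonunits := by
  intro h
  have h4 : (4 : E) ∈ O := by exact_mod_cast nat_O O 4
  have h9 : (9 : E) ∈ O := by exact_mod_cast nat_O O 9
  have h12 : (12 : E) ∈ O := by exact_mod_cast nat_O O 12
  have h1 := sum_sq t ht O hO hi ti (a := 9) (b := 4) (map_ofNat t 9) (map_ofNat t 4) h9 h4
    (by norm_num; exact h)
  have e : (1 : E) = 97 - 12 * (2 * 4) := by norm_num
  exact m_one O (e ▸ m_sub O h (m_mul O h12 h1.2))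

omit ht hO in
private theorem mem_of_sq {x a : E} (ha : a ∈ O) (h : x * x = a) : x ∈ O := by
  rcases O.mem_or_inv_mem x with h1 | h1
  · exact h1
  · by_cases h0 : x = 0
    · rw [h0]; exact O.zero_mem
    · have e : x = a * x⁻¹ := by
        rw [← h]
        field_simp
      rw [e]
      exact O.mul_mem _ _ ha h1

omit ht hO in
private theorem r_mem {r : E} (hr : r * r = -11) : r ∈ O := by
  refine mem_of_sq O (a := -11) ?_ hr
  have : (11 : E) ∈ O := by exact_mod_cast nat_O O 11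
  exact neg_mem this

omit ht hO in
private theorem f_mem {r : E} (h2 : (2 : E) ≠ 0) (hr : r * r = -11) : (1 + r) / 2 ∈ O := by
  have e : (1 + r) / 2 * ((1 + r) / 2) = (1 + r) / 2 - 3 := by
    field_simp
    linear_combination hr
  rcases O.mem_or_inv_mem ((1 + r) / 2) with h1 | h1
  · exact h1
  · by_cases h0 : (1 + r) / 2 = 0
    · rw [h0]; exact O.zero_mem
    · have e2 : (1 + r) / 2 = 1 - 3 * ((1 + r) / 2)⁻¹ := by
        have e3 : (1 + r) / 2 = ((1 + r) / 2 * ((1 + r) / 2)) * ((1 + r) / 2)⁻¹ := by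
          rw [mul_assoc, mul_inv_cancel₀ h0, mul_one]
        calc (1 + r) / 2 = ((1 + r) / 2 * ((1 + r) / 2)) * ((1 + r) / 2)⁻¹ := e3
          _ = ((1 + r) / 2 - 3) * ((1 + r) / 2)⁻¹ := by rw [e]
          _ = 1 - 3 * ((1 + r) / 2)⁻¹ := by rw [sub_mul, mul_inv_cancel₀ h0]
      rw [e2]
      have h3 : (3 : E) ∈ O := by exact_mod_cast nat_O O 3
      exact sub_mem O.one_mem (O.mul_mem _ _ h3 h1)

private theorem no_cube' {r κ : E} (h20 : (2 : E) ≠ 0) (hr : r * r = -11) (tr : t r = r)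
    (hκ : κ * t κ = 1) (h2 : (2 : E) ∈ O.nonunits) : κ * κ + κ + 1 ∉ O.nonunits := by
  have hf := f_mem O h20 hr
  refine no_cube t ht O hO (f := (1 + r) / 2) h2 hκ ?_ hf ?_
  · rw [map_div₀, map_add, map_one, tr, map_ofNat]
  · have e : (1 + r) / 2 * ((1 + r) / 2) + (1 + r) / 2 + 1 = ((1 + r) / 2 - 1) * 2 := by
      field_simp
      linear_combination hr
    rw [e]
    exact m_mul O (sub_mem hf O.one_mem) h2

/-- (3a) `i ∈ F`, `F` contains `r = √-11`: `1 + s²` is a unit -/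
theorem unit_a {i r κ : E} (h20 : (2 : E) ≠ 0) (hi : i * i = -1) (ti : t i = i)
    (hr : r * r = -11) (tr : t r = r) (hκ : κ * t κ = 1) :
    1 + (κ - κ⁻¹) * (κ - κ⁻¹) ∉ O.nonunits := by
  intro h
  have hκO : κ ∈ O := hO κ hκ
  have hκ0 : κ ≠ 0 := left_ne_zero_of_mul_eq_one hκ
  have hk : t κ = κ⁻¹ := eq_inv_of_mul_eq_one_right hκ
  have hkO : κ⁻¹ ∈ O := hk ▸ t_mem t ht O hO hκO
  have hiO : i ∈ O := mem_of_sq O (neg_mem O.one_mem) hi
  have hs : κ - κ⁻¹ ∈ O := sub_mem hκO hkO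
  have his : i * (κ - κ⁻¹) ∈ O := O.mul_mem _ _ hiO hs
  have ts : t (κ - κ⁻¹) = -(κ - κ⁻¹) := by
    rw [map_sub, map_inv₀, hk, inv_inv]
    ring
  have t1 : t (1 + i * (κ - κ⁻¹)) = 1 - i * (κ - κ⁻¹) := by
    rw [map_add, map_mul, ts, ti, map_one]
    ring
  have t2 : t (1 - i * (κ - κ⁻¹)) = 1 + i * (κ - κ⁻¹) := by
    rw [map_sub, map_mul, ts, ti, map_one]
    ring
  have h1 : (1 + i * (κ - κ⁻¹)) * (1 - i * (κ - κ⁻¹)) ∈ O.nonunits := by
    have e : (1 + i * (κ - κ⁻¹)) * (1 - i * (κ - κ⁻¹)) =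
        1 - i * i * ((κ - κ⁻¹) * (κ - κ⁻¹)) := by ring
    rw [e, hi]
    have e2 : (1 : E) - -1 * ((κ - κ⁻¹) * (κ - κ⁻¹)) = 1 + (κ - κ⁻¹) * (κ - κ⁻¹) := by ring
    rwa [e2]
  have key : 1 + i * (κ - κ⁻¹) ∈ O.nonunits ∧ 1 - i * (κ - κ⁻¹) ∈ O.nonunits := by
    rcases m_prime O (add_mem O.one_mem his) (sub_mem O.one_mem his) h1 with h3 | h3
    · exact ⟨h3, t1 ▸ t_nonunit t ht O hO h3⟩
    · exact ⟨t2 ▸ t_nonunit t ht O hO h3, h3⟩
  have h2 : (2 : E) ∈ O.nonunits := by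
    have := m_add O key.1 key.2
    have e : 1 + i * (κ - κ⁻¹) + (1 - i * (κ - κ⁻¹)) = 2 := by ring
    rwa [e] at this
  have h3 : 1 - i ∈ O.nonunits := by
    have : (1 - i) * (1 - i) ∈ O.nonunits := by
      have e : (1 - i) * (1 - i) = (-i) * 2 := by linear_combination hi
      rw [e]
      exact m_mul O (neg_mem hiO) h2
    rcases m_prime O (sub_mem O.one_mem hiO) (sub_mem O.one_mem hiO) this with h | h <;> exact h
  refine no_cube' t ht O hO h20 hr tr hκ h2 ?_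
  have h4 := m_add O (m_mul O hκO (m_add O key.1 (m_mul O hs h3))) h2
  have e : κ * (1 + i * (κ - κ⁻¹) + (κ - κ⁻¹) * (1 - i)) + 2 = κ * κ + κ + 1 := by
    field_simp
    ring
  rwa [e] at h4

omit ht hO in
private theorem q_id {r s T : E} (hr : r * r = -11) (h25 : (25 : E) ≠ 0)
    (hT : T * T = s * s + 4) :
    1 + s * s + (1 + T) * ((23 - 6 * r) / 25) * (s * s) * (T - 1) =
      (1 + -(s * s) * ((-47 + 9 * r) * (25 : E)⁻¹)) *
        (1 + -(s * s) * ((-47 + 9 * r) * (25 : E)⁻¹)) +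
      (-(s * s) * ((29 + 12 * r) * (25 : E)⁻¹)) * (-(s * s) * ((29 + 12 * r) * (25 : E)⁻¹)) := by
  obtain ⟨u, hu⟩ : ∃ u : E, u = 25⁻¹ := ⟨_, rfl⟩
  have h1 : 25 * u = 1 := by rw [hu]; exact mul_inv_cancel₀ h25
  rw [div_eq_mul_inv, ← hu]
  linear_combination ((23 - 6 * r) * u * s ^ 2) * hT - (225 * u ^ 2) * s ^ 4 * hr +
    (-(s ^ 2 + s ^ 4 * u * (23 - 6 * r))) * h1

/-- (3b) `E = F(i)`, `F` contains `r = √-11`: helper86's `Q` is a unit -/
theorem unit_b {i r κ : E} (h20 : (2 : E) ≠ 0) (hi : i * i = -1) (ti : t i = -i)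
    (hr : r * r = -11) (tr : t r = r) (hκ : κ * t κ = 1) :
    1 + (κ - κ⁻¹) * (κ - κ⁻¹) + (1 + (κ + κ⁻¹)) * ((23 - 6 * r) / 25) *
      ((κ - κ⁻¹) * (κ - κ⁻¹)) * (κ + κ⁻¹ - 1) ∉ O.nonunits := by
  intro h
  have hκO : κ ∈ O := hO κ hκ
  have hκ0 : κ ≠ 0 := left_ne_zero_of_mul_eq_one hκ
  have hk : t κ = κ⁻¹ := eq_inv_of_mul_eq_one_right hκ
  have hkO : κ⁻¹ ∈ O := hk ▸ t_mem t ht O hO hκO
  have hiO : i ∈ O := mem_of_sq O (neg_mem O.one_mem) hi
  have hrO : r ∈ O := r_mem O hr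
  have hs : κ - κ⁻¹ ∈ O := sub_mem hκO hkO
  have hT : κ + κ⁻¹ ∈ O := add_mem hκO hkO
  have ts : t (κ - κ⁻¹) = -(κ - κ⁻¹) := by
    rw [map_sub, map_inv₀, hk, inv_inv]
    ring
  have n5 := five t ht O hO hi ti
  have h50 : (5 : E) ≠ 0 := fun e => n5 (e ▸ O.nonunits.zero_mem)
  have h5O : (5 : E)⁻¹ ∈ O := by
    by_contra hn
    exact n5 (O.mem_nonunits_iff_or.mpr (Or.inr hn))
  have hN : ∀ n : ℕ, (n : E) ∈ O := nat_O O
  have e25 : (25 : E) = 5 * 5 := by norm_num
  have h25 : (25 : E) ≠ 0 := by rw [e25]; exact mul_ne_zero h50 h50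
  have h25O : (25 : E)⁻¹ ∈ O := by
    rw [e25, mul_inv]
    exact O.mul_mem _ _ h5O h5O
  -- the two parts
  obtain ⟨s0, hs0⟩ : ∃ s0, s0 = -i * (κ - κ⁻¹) := ⟨_, rfl⟩
  have hs0t : t s0 = s0 := by rw [hs0, map_mul, map_neg, ts, ti]; ring
  have hs0O : s0 ∈ O := by rw [hs0]; exact O.mul_mem _ _ (neg_mem hiO) hs
  have hs02 : s0 * s0 = -((κ - κ⁻¹) * (κ - κ⁻¹)) := by
    rw [hs0]
    linear_combination ((κ - κ⁻¹) * (κ - κ⁻¹)) * hi
  obtain ⟨w1, hw1⟩ : ∃ w1, w1 = (-47 + 9 * r) * (25 : E)⁻¹ := ⟨_, rfl⟩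
  obtain ⟨w2, hw2⟩ : ∃ w2, w2 = (29 + 12 * r) * (25 : E)⁻¹ := ⟨_, rfl⟩
  have n47 : (47 : E) ∈ O := by exact_mod_cast hN 47
  have n9 : (9 : E) ∈ O := by exact_mod_cast hN 9
  have n29 : (29 : E) ∈ O := by exact_mod_cast hN 29
  have n12 : (12 : E) ∈ O := by exact_mod_cast hN 12
  have w1O : w1 ∈ O := by
    rw [hw1]
    exact O.mul_mem _ _ (add_mem (neg_mem n47) (O.mul_mem _ _ n9 hrO)) h25O
  have w2O : w2 ∈ O := by
    rw [hw2]
    exact O.mul_mem _ _ (add_mem n29 (O.mul_mem _ _ n12 hrO)) h25O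
  have tw1 : t w1 = w1 := by
    rw [hw1, map_mul, map_add, map_mul, map_neg, tr, map_inv₀, map_ofNat, map_ofNat, map_ofNat]
  have tw2 : t w2 = w2 := by
    rw [hw2, map_mul, map_add, map_mul, tr, map_inv₀, map_ofNat, map_ofNat, map_ofNat]
  have hs0s : s0 * s0 ∈ O := O.mul_mem _ _ hs0O hs0O
  have hQ : 1 + (κ - κ⁻¹) * (κ - κ⁻¹) + (1 + (κ + κ⁻¹)) * ((23 - 6 * r) / 25) *
      ((κ - κ⁻¹) * (κ - κ⁻¹)) * (κ + κ⁻¹ - 1) =
      (1 + s0 * s0 * w1) * (1 + s0 * s0 * w1) + (s0 * s0 * w2) * (s0 * s0 * w2) := by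
    rw [hs02, hw1, hw2]
    refine q_id hr h25 ?_
    field_simp
    ring
  rw [hQ] at h
  have hA : 1 + s0 * s0 * w1 ∈ O := add_mem O.one_mem (O.mul_mem _ _ hs0s w1O)
  have hB : s0 * s0 * w2 ∈ O := O.mul_mem _ _ hs0s w2O
  by_cases h2 : (2 : E) ∈ O.nonunits
  · -- residue characteristic 2
    refine no_cube' t ht O hO h20 hr tr hκ h2 ?_
    rw [← hQ] at h
    obtain ⟨T, hTe⟩ : ∃ T, T = κ + κ⁻¹ := ⟨_, rfl⟩
    have hX : (κ - κ⁻¹) * (κ - κ⁻¹) = T * T - 4 := by
      rw [hTe]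
      field_simp
      ring
    rw [← hTe] at hT
    rw [hX, ← hTe] at h
    have hP : (11 - 3 * r) * (T * T * T * T) - 2 * (T * T * T) + (-48 + 15 * r) * (T * T) - 2 * T +
        (8 - 12 * r) ∈ O := by
      have n11 : (11 : E) ∈ O := by exact_mod_cast hN 11
      have n3 : (3 : E) ∈ O := by exact_mod_cast hN 3
      have n2 : (2 : E) ∈ O := two_O O
      have n48 : (48 : E) ∈ O := by exact_mod_cast hN 48
      have n15 : (15 : E) ∈ O := by exact_mod_cast hN 15
      have n8 : (8 : E) ∈ O := by exact_mod_cast hN 8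
      have m := fun {a b : E} (ha : a ∈ O) (hb : b ∈ O) => O.mul_mem a b ha hb
      exact add_mem (sub_mem (add_mem (sub_mem (m (sub_mem n11 (m n3 hrO)) (m (m (m hT hT) hT) hT))
        (m n2 (m (m hT hT) hT))) (m (add_mem (neg_mem n48) (m n15 hrO)) (m hT hT))) (m n2 hT))
        (sub_mem n8 (m n12 hrO))
    have n25 : (25 : E) ∈ O := by exact_mod_cast hN 25
    have h4 : (1 + T) * (1 + T) * ((1 + T) * (1 + T)) ∈ O.nonunits := by
      have e : (1 + T) * (1 + T) * ((1 + T) * (1 + T)) =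
          25 * (1 + (T * T - 4) + (1 + T) * ((23 - 6 * r) / 25) * (T * T - 4) * (T - 1)) -
          ((11 - 3 * r) * (T * T * T * T) - 2 * (T * T * T) + (-48 + 15 * r) * (T * T) - 2 * T +
            (8 - 12 * r)) * 2 := by
        field_simp
        ring
      rw [e]
      exact m_sub O (m_mul O n25 h) (m_mul O hP h2)
    have h1T : 1 + T ∈ O := add_mem O.one_mem hT
    have h11 : (1 + T) * (1 + T) ∈ O := O.mul_mem _ _ h1T h1T
    have h5 : (1 + T) * (1 + T) ∈ O.nonunits := by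
      rcases m_prime O h11 h11 h4 with h | h <;> exact h
    have h6 : 1 + T ∈ O.nonunits := by
      rcases m_prime O h1T h1T h5 with h | h <;> exact h
    have h7 := m_mul O hκO h6
    have e : κ * (1 + T) = κ * κ + κ + 1 := by
      rw [hTe]
      field_simp
      ring
    rwa [e] at h7
  · obtain ⟨h3, h4⟩ := sum_sq t ht O hO hi ti (a := 1 + s0 * s0 * w1) (b := s0 * s0 * w2)
      (by rw [map_add, map_one, map_mul, map_mul, hs0t, tw1])
      (by rw [map_mul, map_mul, hs0t, tw2]) hA hB h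
    have h5 : s0 * s0 * w2 ∈ O.nonunits := by
      rcases m_prime O (two_O O) hB h4 with h | h
      · exact absurd h h2
      · exact h
    have h6 : 1 + s0 * s0 * w1 ∈ O.nonunits := by
      rcases m_prime O (two_O O) hA h3 with h | h
      · exact absurd h h2
      · exact h
    have n97 : (97 : E) ∈ O := by exact_mod_cast hN 97
    have h7 : 97 * (s0 * s0) ∈ O.nonunits := by
      have e : 97 * (s0 * s0) = (29 - 12 * r) * (s0 * s0 * w2) := by
        rw [hw2]
        field_simp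
        linear_combination (144 * (s0 * s0)) * hr
      rw [e]
      exact m_mul O (sub_mem n29 (O.mul_mem _ _ n12 hrO)) h5
    have h8 : s0 * s0 ∈ O.nonunits := by
      rcases m_prime O n97 hs0s h7 with h | h
      · exact absurd h (ninetyseven t ht O hO hi ti)
      · exact h
    have h9 := m_sub O h6 (m_mul O w1O h8)
    have e : 1 + s0 * s0 * w1 - w1 * (s0 * s0) = 1 := by ring
    rw [e] at h9
    exact m_one O h9

/-! ## The same for a subring `B` which contains the elements of norm one -/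

omit hO in
/-- (3a) -/
theorem inv_a {B : Subring E} (hB : ∀ θ : E, θ * t θ = 1 → θ ∈ B) {i r κ : E}
    (h20 : (2 : E) ≠ 0) (hi : i * i = -1) (ti : t i = i) (hr : r * r = -11) (tr : t r = r)
    (hκ : κ * t κ = 1) : (1 + (κ - κ⁻¹) * (κ - κ⁻¹))⁻¹ ∈ B := by
  have hk : t κ = κ⁻¹ := eq_inv_of_mul_eq_one_right hκ
  have hkB : κ⁻¹ ∈ B := hB _ (by rw [← hk, ht, mul_comm, hκ])
  have hs : κ - κ⁻¹ ∈ B := sub_mem (hB κ hκ) hkB
  exact inv_mem (add_mem B.one_mem (mul_mem hs hs)) fun O hBO =>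
    unit_a t ht O (fun θ hθ => hBO _ (hB θ hθ)) h20 hi ti hr tr hκ

omit ht hO in
/-- (3b), constants (helper62): `1/5` is in `B` -/
theorem inv5_mem {B : Subring E} (hB : ∀ θ : E, θ * t θ = 1 → θ ∈ B) {i : E}
    (hi : i * i = -1) (ti : t i = -i) (h5 : (5 : E) ≠ 0) : (5 : E)⁻¹ ∈ B := by
  have t5 : t (5 : E) = 5 := map_ofNat t 5
  have t3 : t (3 : E) = 3 := map_ofNat t 3
  have t4 : t (4 : E) = 4 := map_ofNat t 4
  have h1 : (3 + 4 * i) / 5 ∈ B := by
    refine hB _ ?_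
    rw [map_div₀, map_add, map_mul, t5, t3, t4, ti]
    field_simp
    linear_combination (-16) * hi
  have h2 : (3 - 4 * i) / 5 ∈ B := by
    refine hB _ ?_
    rw [map_div₀, map_sub, map_mul, t5, t3, t4, ti]
    field_simp
    linear_combination (-16) * hi
  have h3 := sub_mem (add_mem h1 h2) B.one_mem
  have e : (3 + 4 * i) / 5 + (3 - 4 * i) / 5 - 1 = (5 : E)⁻¹ := by
    field_simp
    ring
  rwa [e] at h3

omit ht hO in
/-- (3b), constants (helper62): `r` is in `B` -/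
theorem r_mem_B {B : Subring E} (hB : ∀ θ : E, θ * t θ = 1 → θ ∈ B) {i r : E}
    (hi : i * i = -1) (ti : t i = -i) (h5 : (5 : E) ≠ 0) (hr : r * r = -11) (tr : t r = r) :
    r ∈ B := by
  have t5 : t (5 : E) = 5 := map_ofNat t 5
  have t6 : t (6 : E) = 6 := map_ofNat t 6
  have hiB : i ∈ B := hB i (by rw [ti, mul_neg, hi, neg_neg])
  have h1 : (6 + r * i) / 5 ∈ B := by
    refine hB _ ?_
    rw [map_div₀, map_add, map_mul, t5, t6, tr, ti]
    field_simp
    linear_combination (-(r * r)) * hi + hr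
  have n5 : (5 : E) ∈ B := by exact_mod_cast natCast_mem B 5
  have n6 : (6 : E) ∈ B := by exact_mod_cast natCast_mem B 6
  have h2 := mul_mem (neg_mem hiB) (sub_mem (mul_mem n5 h1) n6)
  have e : -i * (5 * ((6 + r * i) / 5) - 6) = r := by
    field_simp
    linear_combination (-r) * hi
  rwa [e] at h2

omit ht hO in
/-- in the case `E = F(i)` one has `5 ≠ 0` -/
theorem five_ne {i : E} (h2 : (2 : E) ≠ 0) (hi : i * i = -1) (ti : t i = -i) : (5 : E) ≠ 0 := by
  intro h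
  have h1 : (i - 2) * (i + 2) = 0 := by linear_combination hi - h
  have key : t i = i := by
    rcases mul_eq_zero.mp h1 with h3 | h3
    · rw [sub_eq_zero.mp h3]; exact map_ofNat t 2
    · rw [eq_neg_of_add_eq_zero_left h3, map_neg]
      exact congrArg _ (map_ofNat t 2)
  have hi0 : i ≠ 0 := by
    intro h0
    rw [h0, mul_zero] at hi
    exact one_ne_zero (neg_eq_zero.mp hi.symm)
  have : 2 * i = 0 := by linear_combination (-1 : E) * key + ti
  rcases mul_eq_zero.mp this with h3 | h3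
  · exact h2 h3
  · exact hi0 h3

omit hO in
/-- (3b) -/
theorem inv_b {B : Subring E} (hB : ∀ θ : E, θ * t θ = 1 → θ ∈ B) {i r κ : E}
    (h20 : (2 : E) ≠ 0) (hi : i * i = -1) (ti : t i = -i) (hr : r * r = -11) (tr : t r = r)
    (hκ : κ * t κ = 1) :
    (1 + (κ - κ⁻¹) * (κ - κ⁻¹) + (1 + (κ + κ⁻¹)) * ((23 - 6 * r) / 25) *
      ((κ - κ⁻¹) * (κ - κ⁻¹)) * (κ + κ⁻¹ - 1))⁻¹ ∈ B := by
  have h50 := five_ne t h20 hi ti
  have h5 := inv5_mem t hB hi ti h50
  have hrB := r_mem_B t hB hi ti h50 hr tr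
  have hk : t κ = κ⁻¹ := eq_inv_of_mul_eq_one_right hκ
  have hkB : κ⁻¹ ∈ B := hB _ (by rw [← hk, ht, mul_comm, hκ])
  have hκB : κ ∈ B := hB κ hκ
  have hs : κ - κ⁻¹ ∈ B := sub_mem hκB hkB
  have hT : κ + κ⁻¹ ∈ B := add_mem hκB hkB
  have n6 : (6 : E) ∈ B := by exact_mod_cast natCast_mem B 6
  have n23 : (23 : E) ∈ B := by exact_mod_cast natCast_mem B 23
  have hN : (23 - 6 * r) / 25 ∈ B := by
    have e : (23 - 6 * r) / 25 = (23 - 6 * r) * ((5 : E)⁻¹ * (5 : E)⁻¹) := by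
      rw [div_eq_mul_inv, ← mul_inv]
      norm_num
    rw [e]
    exact mul_mem (sub_mem n23 (mul_mem n6 hrB)) (mul_mem h5 h5)
  refine inv_mem ?_ fun O hBO => unit_b t ht O (fun θ hθ => hBO _ (hB θ hθ)) h20 hi ti hr tr hκ
  exact add_mem (add_mem B.one_mem (mul_mem hs hs)) (mul_mem (mul_mem (mul_mem
    (add_mem B.one_mem hT) hN) (mul_mem hs hs)) (sub_mem hT B.one_mem))

end Pool.Agent.MP_1b9aaa_al.T5Q
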