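import Pool.Agent.Lib.MP_1b9aaa_al.T5Climb

/-!
# MP_1b9aaa_al, T_5: the tower with 2-integral constants (T5_end_helper35.md)

`P2 x`: `x` is in every valuation ring in which `2` is not a unit.  Input: `DihVan2` (the dihedral
maps for `X² - (1 + e²)` vanish if `e` is 2-integral) and `VanI` (all good symbols vanish if
`i ∈ F`).  Output `Tower.van`: all good symbols vanish if `-1` is a sum of squares of 2-integral
elements of `F`.  Tower: `s_j = √(1 + 4 (a_1² + ... + a_j²))`, `s_N² = -3`, then `√2`, `√(3/2)`.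
-/

set_option autoImplicit false

namespace Pool.Agent.MP_1b9aaa_al

open IsSteinberg

namespace Tower

universe u v

section P2

variable {F L : Type*} [Field F] [Field L]

/-- 2-integral elements -/
def P2 (x : F) : Prop := ∀ O : ValuationSubring F, (2 : F) ∈ O.nonunits → x ∈ O

/-- 2-adic units -/
def U2 (x : F) : Prop := ∀ O : ValuationSubring F, (2 : F) ∈ O.nonunits → x ∈ O ∧ x ∉ O.nonunits

lemma two_comap (φ : F →+* L) (O : ValuationSubring L) (h : (2 : L) ∈ O.nonunits) :
    (2 : F) ∈ (O.comap φ).nonunits := by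
  rw [ValuationSubring.mem_nonunits_iff_or] at h ⊢
  rcases h with h | h
  · left
    rw [← map_ofNat φ 2] at h
    exact (map_eq_zero φ).mp h
  · right
    intro h1
    apply h
    rw [ValuationSubring.mem_comap, map_inv₀, map_ofNat] at h1
    exact h1

lemma P2.map (φ : F →+* L) {x : F} (h : P2 x) : P2 (φ x) := fun O hO =>
  (ValuationSubring.mem_comap).mp (h (O.comap φ) (two_comap φ O hO))

lemma U2.map (φ : F →+* L) {x : F} (h : U2 x) : U2 (φ x) := by
  intro O hO
  obtain ⟨h1, h2⟩ := h (O.comap φ) (two_comap φ O hO)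
  refine ⟨(ValuationSubring.mem_comap).mp h1, ?_⟩
  intro h3
  apply h2
  rw [ValuationSubring.mem_nonunits_iff_or] at h3 ⊢
  rcases h3 with h3 | h3
  · left; exact (map_eq_zero φ).mp h3
  · right
    intro h4
    apply h3
    rw [ValuationSubring.mem_comap, map_inv₀] at h4
    exact h4

lemma mem_sq {O : ValuationSubring F} {x : F} (h : x * x ∈ O) : x ∈ O := by
  rcases O.mem_or_inv_mem x with h1 | h1
  · exact h1
  · by_cases h0 : x = 0
    · rw [h0]; exact O.zero_mem
    · have h2 := mul_mem h h1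
      rwa [mul_assoc, mul_inv_cancel₀ h0, mul_one] at h2

lemma non_mul {O : ValuationSubring F} {x y : F} (hx : x ∈ O) (hy : y ∈ O.nonunits) :
    x * y ∈ O.nonunits := by
  rw [ValuationSubring.mem_nonunits_iff] at hy ⊢
  rw [map_mul]
  exact mul_lt_one_of_nonneg_of_lt_one_right ((O.valuation_le_one_iff x).mpr hx) zero_le hy

lemma inv_O {O : ValuationSubring F} {x : F} (hx : x ∉ O.nonunits) : x⁻¹ ∈ O := by
  by_contra h
  exact hx (O.mem_nonunits_iff_or.2 (Or.inr h))

end P2

variable {T : Type v} [AddCommGroup T]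

/-- the restriction to the fixed fields -/
def mapS {K L : Type u} [Field K] [Field L] {g : K ≃+* K} {gL : L ≃+* L} (φ : K →+* L)
    (h : ∀ x, gL (φ x) = φ (g x)) : fixS g →+* fixS gL :=
  (φ.comp (fixS g).subtype).codRestrict (fixS gL) (fun x => by
    show gL (φ x) = φ x
    rw [h, x.2])

@[simp] lemma mapS_coe {K L : Type u} [Field K] [Field L] {g : K ≃+* K} {gL : L ≃+* L}
    (φ : K →+* L) (h : ∀ x, gL (φ x) = φ (g x)) (x : fixS g) :
    ((mapS φ h x : fixS gL) : L) = φ x := rfl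

/-- all dihedral maps for `X² - d` vanish -/
def DV {K : Type u} [Field K] (g : K ≃+* K) (c : K → K → T) (d : K) : Prop :=
  ∀ x a : K, g a = a → x ≠ a → x * x - d ≠ 0 → c (a - x) (x * x - d) = 0

/-- the dihedral maps for `X² - (1 + e²)` vanish if `e` is 2-integral -/
def DihVan2 (T : Type v) [AddCommGroup T] : Prop :=
  ∀ (K : Type u) [Field K] (g : K ≃+* K) (c : K → K → T), (2 : K) ≠ 0 → (∀ x, g^[5] x = x) →
    Good g c → ∀ e : fixS g, P2 e → DV g c (1 + e * e)

/-- all good symbols vanish if `i ∈ F` -/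
def VanI (T : Type v) [AddCommGroup T] : Prop :=
  ∀ (K : Type u) [Field K] (g : K ≃+* K) (c : K → K → T), (2 : K) ≠ 0 → (∀ x, g^[5] x = x) →
    Good g c → ∀ i : K, g i = i → i * i = -1 → ∀ a b : K, a ≠ 0 → b ≠ 0 → c a b = 0

lemma DV.scale {K : Type u} [Field K] {g : K ≃+* K} {c : K → K → T} (hc : Good g c) {d μ : K}
    (hμ : g μ = μ) (hμ0 : μ ≠ 0) (h : DV g c d) : DV g c (μ * μ * d) := by
  intro x a ha hxa hx
  have hax : a - x ≠ 0 := sub_ne_zero.mpr (Ne.symm hxa)
  have hx' : x * x - μ * μ * d = μ * μ * ((x / μ) * (x / μ) - d) := by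
    field_simp
  have hax' : a - x = μ * (a / μ - x / μ) := by field_simp
  have hne : (x / μ) * (x / μ) - d ≠ 0 := by
    intro h
    rw [hx', h, mul_zero] at hx
    exact hx rfl
  have hne2 : a / μ - x / μ ≠ 0 := by
    intro h
    rw [hax', h, mul_zero] at hax
    exact hax rfl
  have hμμ : g (μ * μ) = μ * μ := by rw [map_mul, hμ]
  rw [hx', hc.st.mul_right _ _ _ hax (mul_ne_zero hμ0 hμ0) hne,
    hc.van _ hax _ hμμ (mul_ne_zero hμ0 hμ0), zero_add, hax',
    hc.st.mul_left _ _ _ hμ0 hne2 hne, hc.st.van_left hc.van hμ hμ0 hne, zero_add]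
  refine h (x / μ) (a / μ) (by rw [map_div₀, ha, hμ]) ?_ hne
  intro h
  exact hne2 (sub_eq_zero.mpr h.symm)

/-- **One step of the tower.** -/
theorem step (h2 : ∀ t : T, t + t = 0 → t = 0) {K : Type u} [Field K] {g : K ≃+* K}
    {c : K → K → T} (h2K : (2 : K) ≠ 0) (hgm : ∀ x, g^[5] x = x) (hc : Good g c) {d : K}
    (hgd : g d = d) (hd0 : d ≠ 0) (hD : DV g c d)
    (H : ∀ (L : Type u) [Field L] (gL : L ≃+* L) (cL : L → L → T) (φ : K →+* L),
      (∀ x, gL (φ x) = φ (g x)) → (2 : L) ≠ 0 → (∀ x, gL^[5] x = x) → Good gL cL →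
      ∀ s : L, gL s = s → s * s = φ d → ∀ a b : L, a ≠ 0 → b ≠ 0 → cL a b = 0)
    {a b : K} (ha : a ≠ 0) (hb : b ≠ 0) : c a b = 0 := by
  by_cases hsq : ∃ s : K, g s = s ∧ s * s = d
  · obtain ⟨s, hs, hsd⟩ := hsq
    exact H K g c (RingHom.id K) (fun x => rfl) h2K hgm hc s hs hsd a b ha hb
  · have hns : ∀ r : K, r * r ≠ d := by
      intro r hr
      have h1 : (g r - r) * (g r + r) = 0 := by
        have : g r * g r = d := by rw [← map_mul, hr, hgd]
        linear_combination this - hr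
      rcases mul_eq_zero.mp h1 with h | h
      · exact hsq ⟨r, sub_eq_zero.mp h, hr⟩
      · have hgr : g r = -r := eq_neg_of_add_eq_zero_left h
        have hit : ∀ k : ℕ, g^[k] r = (-1) ^ k * r := by
          intro k
          induction k with
          | zero => simp
          | succ k ihk =>
            rw [Function.iterate_succ_apply', ihk, map_mul, map_pow, map_neg, map_one, hgr,
              pow_succ]
            ring
        have h3 := hgm r
        rw [hit, Odd.neg_one_pow (by decide)] at h3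
        have h4 : (2 : K) * r = 0 := by linear_combination -h3
        rcases mul_eq_zero.mp h4 with h5 | h5
        · exact h2K h5
        · rw [h5, mul_zero] at hr
          exact hd0 hr.symm
    have hfact : Fact (∀ r : K, r ^ 2 ≠ d + 0 * r) := ⟨fun r h => hns r (by
      rw [zero_mul, add_zero] at h
      rw [← h, pow_two])⟩
    have hqd := Climb.hq_of (K := K) (d := d)
    refine Climb.climb hc hgd h2 (fun x a ha hxa => hD x a ha hxa (hqd x)) ?_ ha hb
    intro c' hc' u' v' hu' hv'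
    have hiter : ∀ z : QuadraticAlgebra K d 0, (Climb.ext g hgd)^[5] z = z := by
      intro z
      rw [Climb.ext_iterate, hgm, hgm]
    let φ : K →+* QuadraticAlgebra K d 0 := algebraMap K (QuadraticAlgebra K d 0)
    have h2K' : (2 : QuadraticAlgebra K d 0) ≠ 0 := by
      have : φ 2 ≠ 0 := (map_ne_zero φ).mpr h2K
      rwa [map_ofNat] at this
    let w : QuadraticAlgebra K d 0 := ⟨0, 1⟩
    have hw : w * w = φ d := by
      apply QuadraticAlgebra.ext
      · show (0 : K) * 0 + d * 1 * 1 = d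
        ring
      · show (0 : K) * 1 + 1 * 0 + 0 * 1 * 1 = 0
        ring
    refine H (QuadraticAlgebra K d 0) (Climb.ext g hgd) c' φ ?_ h2K' hiter hc' w ?_ hw u' v' hu' hv'
    · intro x
      apply QuadraticAlgebra.ext
      · rfl
      · exact map_zero g
    · apply QuadraticAlgebra.ext
      · exact map_zero g
      · exact map_one g

/-- the dihedral maps for `1 + e²` if `e⁻¹` is 2-integral -/
lemma DV_inv (hD : DihVan2.{u} T) {K : Type u} [Field K] {g : K ≃+* K} {c : K → K → T}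
    (h2K : (2 : K) ≠ 0) (hgm : ∀ x, g^[5] x = x) (hc : Good g c) {e : fixS g} (he0 : e ≠ 0)
    (he : P2 e⁻¹) : DV g c (1 + e * e) := by
  have h1 := hD K g c h2K hgm hc e⁻¹ he
  have he0' : (e : K) ≠ 0 := fun h => he0 (Subtype.ext h)
  have h2 := DV.scale hc (μ := (e : K)) e.2 he0' h1
  have e1 : (e : K) * e * (1 + ((e⁻¹ : fixS g) : K) * ((e⁻¹ : fixS g) : K)) = 1 + e * e := by
    rw [show ((e⁻¹ : fixS g) : K) = (e : K)⁻¹ from rfl]
    field_simp
    ring
  rwa [e1] at h2

/-- `√(-3) ∈ F` -/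
theorem stage2 (h2 : ∀ t : T, t + t = 0 → t = 0) (hD : DihVan2.{u} T) (hI : VanI.{u} T)
    {K : Type u} [Field K] {g : K ≃+* K}
    {c : K → K → T} (h2K : (2 : K) ≠ 0) (hgm : ∀ x, g^[5] x = x) (hc : Good g c) {r : K}
    (hgr : g r = r) (hr : r * r = -3) {a b : K} (ha : a ≠ 0) (hb : b ≠ 0) : c a b = 0 := by
  have h11 : (1 : K) + 1 = 2 := by norm_num
  have hD1 : DV g c (1 + ((1 : fixS g) : K) * ((1 : fixS g) : K)) :=
    hD K g c h2K hgm hc 1 (fun O _ => O.one_mem)
  have e11 : 1 + ((1 : fixS g) : K) * ((1 : fixS g) : K) = 2 := by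
    rw [show ((1 : fixS g) : K) = 1 from rfl]; norm_num
  rw [e11] at hD1
  refine step h2 h2K hgm hc (d := 2) (map_ofNat g 2) h2K hD1 ?_ ha hb
  intro L _ gL cL φ hφ h2L hgL hcL q hq hqq a b ha hb
  rw [map_ofNat] at hqq
  have hq0 : q ≠ 0 := by
    rintro rfl
    rw [mul_zero] at hqq
    exact h2L hqq.symm
  by_cases h3 : (3 : L) = 0
  · exact hI L gL cL h2L hgL hcL q hq (by rw [hqq]; linear_combination h3) a b ha hb
  -- `e = 1 / √2`
  let q' : fixS gL := ⟨q, hq⟩
  have hq'0 : q' ≠ 0 := fun h => hq0 (congrArg Subtype.val h)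
  have hP : P2 ((q'⁻¹)⁻¹ : fixS gL) := by
    rw [inv_inv]
    intro O hO
    apply mem_sq
    have : q' * q' = 2 := Subtype.ext hqq
    rw [this]
    exact O.nonunits_le hO
  have hD2 := DV_inv hD h2L hgL hcL (inv_ne_zero hq'0) hP
  have hd : 1 + ((q'⁻¹ : fixS gL) : L) * ((q'⁻¹ : fixS gL) : L) = 3 / 2 := by
    rw [show ((q'⁻¹ : fixS gL) : L) = q⁻¹ from rfl, ← mul_inv, hqq]
    field_simp
    norm_num
  rw [hd] at hD2
  have hgd : gL (3 / 2) = 3 / 2 := by rw [map_div₀, map_ofNat, map_ofNat]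
  refine step h2 h2L hgL hcL (d := 3 / 2) hgd (div_ne_zero h3 h2L) hD2 ?_ ha hb
  intro M _ gM cM ψ hψ h2M hgM hcM s hs hss a b ha hb
  have hs3 : s * s = 3 / 2 := by rw [hss, map_div₀, map_ofNat, map_ofNat]
  have h3M : (3 : M) ≠ 0 := by
    have := (map_ne_zero ψ).mpr h3
    rwa [map_ofNat] at this
  have hs0 : s ≠ 0 := by
    rintro rfl
    rw [mul_zero] at hs3
    exact div_ne_zero h3M h2M hs3.symm
  have hqM : ψ q * ψ q = 2 := by rw [← map_mul, hqq, map_ofNat]
  have hqM0 : ψ q ≠ 0 := (map_ne_zero ψ).mpr hq0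
  have hrM : ψ (φ r) * ψ (φ r) = -3 := by
    rw [← map_mul, ← map_mul, hr, map_neg, map_neg, map_ofNat, map_ofNat]
  refine hI M gM cM h2M hgM hcM (ψ (φ r) / (ψ q * s)) ?_ ?_ a b ha hb
  · rw [map_div₀, map_mul, hψ, hψ, hφ, hgr, hq, hs]
  · have e : ψ (φ r) / (ψ q * s) * (ψ (φ r) / (ψ q * s)) =
        (ψ (φ r) * ψ (φ r)) / ((ψ q * ψ q) * (s * s)) := by
      field_simp
    rw [e, hrM, hqM, hs3]
    field_simp

/-- the tower `s_j = √(1 + 4 (a_1² + ... + a_j²))` -/
theorem stage1 (h2 : ∀ t : T, t + t = 0 → t = 0) (hD : DihVan2.{u} T) (hI : VanI.{u} T) (n : ℕ) :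
    ∀ (K : Type u) [Field K] (g : K ≃+* K) (c : K → K → T), (2 : K) ≠ 0 → (∀ x, g^[5] x = x) →
      Good g c → ∀ l : List (fixS g), l.length = n → (∀ a ∈ l, P2 a) → ∀ s : fixS g, s ≠ 0 → U2 s →
      s * s + 4 * (l.map fun a => a * a).sum = -3 → ∀ a b : K, a ≠ 0 → b ≠ 0 → c a b = 0 := by
  induction n with
  | zero =>
    intro K _ g c h2K hgm hc l hl _ s _ _ hsum a b ha hb
    rw [List.length_eq_zero_iff] at hl
    rw [hl, List.map_nil, List.sum_nil, mul_zero, add_zero] at hsum
    refine stage2 h2 hD hI h2K hgm hc (r := (s : K)) s.2 ?_ ha hb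
    have := congrArg (fixS g).subtype hsum
    rwa [map_mul, map_neg, map_ofNat] at this
  | succ n ih =>
    intro K _ g c h2K hgm hc l hl hP s hs0 hs hsum a b ha hb
    obtain ⟨a1, l, rfl⟩ : ∃ a1 l', l = a1 :: l' := by
      cases l with
      | nil => simp at hl
      | cons e l' => exact ⟨e, l', rfl⟩
    have hln : l.length = n := by simpa using hl
    have ha1 : P2 a1 := hP a1 (by simp)
    have hP' : ∀ a ∈ l, P2 a := fun a ha => hP a (by simp [ha])
    rw [List.map_cons, List.sum_cons] at hsum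
    obtain ⟨e, he⟩ : ∃ e : fixS g, e = 2 * a1 / s := ⟨_, rfl⟩
    have hPe : P2 e := by
      intro O hO
      rw [he, div_eq_mul_inv]
      exact mul_mem (mul_mem (O.nonunits_le hO) (ha1 O hO)) (inv_O (hs O hO).2)
    have hsK : (s : K) ≠ 0 := fun h => hs0 (Subtype.ext h)
    have heK : (e : K) = 2 * a1 / s := by rw [he]; rfl
    have hge : g (e : K) = e := e.2
    by_cases hd0 : 1 + (e : K) * e = 0
    · exact hI K g c h2K hgm hc e hge (by linear_combination hd0) a b ha hb
    refine step h2 h2K hgm hc (d := 1 + (e : K) * e) (by rw [map_add, map_one, map_mul, hge]) hd0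
      (hD K g c h2K hgm hc e hPe) ?_ ha hb
    intro L _ gL cL φ hφ h2L hgL hcL w hw hww a b ha hb
    -- the new `s`
    let ψ : fixS g →+* fixS gL := mapS φ hφ
    let w' : fixS gL := ⟨w, hw⟩
    have hww' : w' * w' = ψ (1 + e * e) := Subtype.ext hww
    have hd0' : ψ (1 + e * e) ≠ 0 := by
      rw [map_ne_zero]
      intro h
      apply hd0
      exact congrArg Subtype.val h
    have hw0 : w' ≠ 0 := by
      intro h
      rw [h, mul_zero] at hww'
      exact hd0' hww'.symm
    have hsq : (ψ s * w') * (ψ s * w') = ψ (s * s + 4 * (a1 * a1)) := by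
      have e1 : (ψ s * w') * (ψ s * w') = ψ (s * s) * (w' * w') := by rw [map_mul]; ring
      rw [e1, hww', ← map_mul]
      congr 1
      rw [he]
      field_simp
      ring
    have hU : U2 (ψ s * w') := by
      intro O hO
      have h1 := (U2.map ψ hs) O hO
      have h2' := (P2.map ψ ha1) O hO
      have h4 : ψ (s * s + 4 * (a1 * a1)) = ψ s * ψ s + (ψ a1 * ψ a1 * 2) * 2 := by
        rw [map_add, map_mul, map_mul, map_mul, map_ofNat]; ring
      have h5 : (ψ a1 * ψ a1 * 2) * 2 ∈ O.nonunits :=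
        non_mul (mul_mem (mul_mem h2' h2') (O.nonunits_le hO)) hO
      have h6 : (ψ s * w') * (ψ s * w') ∈ O := by
        rw [hsq, h4]
        exact add_mem (mul_mem h1.1 h1.1) (O.nonunits_le h5)
      have h7 := mem_sq h6
      refine ⟨h7, ?_⟩
      intro h8
      have h9 := non_mul h7 h8
      rw [hsq, h4] at h9
      have h10 : ψ s * ψ s ∈ O.nonunits := by
        have := O.nonunits.sub_mem h9 h5
        rwa [add_sub_cancel_right] at this
      have h11 := non_mul (inv_O h1.2) h10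
      rw [← mul_assoc, inv_mul_cancel₀ ((map_ne_zero ψ).mpr hs0), one_mul] at h11
      exact h1.2 h11
    refine ih L gL cL h2L hgL hcL (l.map ψ) (by simpa using hln) ?_ (ψ s * w')
      (mul_ne_zero ((map_ne_zero ψ).mpr hs0) hw0) hU ?_ a b ha hb
    · intro y hy
      obtain ⟨z, hz, rfl⟩ := List.mem_map.mp hy
      exact P2.map ψ (hP' z hz)
    · have e2 : ((l.map ψ).map fun a => a * a).sum = ψ ((l.map fun a => a * a).sum) := by
        rw [map_list_sum, List.map_map, List.map_map]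
        congr 1
        apply List.map_congr_left
        intro x _
        simp
      rw [e2, hsq]
      have e3 : s * s + 4 * (a1 * a1) + 4 * (l.map fun a => a * a).sum = -3 := by
        rw [← hsum]; ring
      have e4 := congrArg ψ e3
      simpa only [map_add, map_mul, map_neg, map_ofNat] using e4

/-- **The tower.** -/
theorem van (h2 : ∀ t : T, t + t = 0 → t = 0) (hD : DihVan2.{u} T) (hI : VanI.{u} T)
    {K : Type u} [Field K] {g : K ≃+* K} {c : K → K → T} (h2K : (2 : K) ≠ 0)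
    (hgm : ∀ x, g^[5] x = x) (hc : Good g c)
    (hl : ∃ l : List (fixS g), (∀ a ∈ l, P2 a) ∧ (l.map fun a => a * a).sum = -1) {a b : K}
    (ha : a ≠ 0) (hb : b ≠ 0) : c a b = 0 := by
  obtain ⟨l, hP, hsum⟩ := hl
  refine stage1 h2 hD hI l.length K g c h2K hgm hc l rfl hP 1 one_ne_zero ?_ ?_ a b ha hb
  · intro O _
    refine ⟨O.one_mem, ?_⟩
    rw [ValuationSubring.mem_nonunits_iff, map_one]
    exact lt_irrefl _
  · rw [hsum]
    ring

end Tower

end Pool.Agent.MP_1b9aaa_al
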