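import Pool.Agent.Lib.MP_1b9aaa_al.T5End

/-!
# MP_1b9aaa_al, T_5: the end for all `F` (helper4's argument), `g ∈ E` of norm `-1`

`g * t g = -1`, `κ = g²`.  `unit_Y`: `Y = 1 + κ + ... + κ^(2^j - 2)` is a unit at every valuation
ring containing the norm-one elements (`j` odd).  `prod_div_mem`: products of at least four
elements `κ^(2^i) + κ^(-2^i)` are divisible by `(κ - 1)²` in `B`.
-/

set_option autoImplicit false

namespace Pool.Agent.MP_1b9aaa_al

namespace T5Y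

open T5End

variable {E : Type*} [Field E]

section val

variable {O : ValuationSubring E} {t : E ≃+* E}

lemma two_mem (ht : ∀ x, t (t x) = x) (hU : ∀ x, x * t x = 1 → x ∈ O) {h : E}
    (hO : h ∈ O) (hN : h * t h = -1) (h1 : h ^ 2 - 1 ∈ O.nonunits) :
    (2 : E) ∈ O.nonunits := by
  have h2 : (h - 1) * (h - -1) ∈ O.nonunits := by
    have e : (h - 1) * (h - -1) = h ^ 2 - 1 := by ring
    rwa [e]
  have main : ∀ ε : E, ε ^ 2 = 1 → t ε = ε → ε ∈ O → h - ε ∈ O.nonunits →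
      (2 : E) ∈ O.nonunits := by
    intro ε hε htε hεO h3
    have h4 := t_nu ht hU h3
    rw [map_sub, htε] at h4
    have h5 := O.nonunits.neg_mem (O.nonunits.add_mem (mul_mem_nu hO h4) (mul_mem_nu hεO h3))
    have e : -(h * (t h - ε) + ε * (h - ε)) = 2 := by linear_combination -hN + hε
    rwa [e] at h5
  rcases prime_nu h2 with h3 | h3
  · exact main 1 (by ring) (map_one t) O.one_mem h3
  · exact main (-1) (by ring) (by rw [map_neg, map_one]) (O.neg_mem _ O.one_mem) h3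

/-- Frobenius modulo the maximal ideal. -/
lemma frob (h2 : (2 : E) ∈ O.nonunits) {a b : E} (ha : a ∈ O) (hb : b ∈ O) (n : ℕ) :
    (a + b) ^ 2 ^ n - (a ^ 2 ^ n + b ^ 2 ^ n) ∈ O.nonunits := by
  induction n with
  | zero =>
    have e : (a + b) ^ 2 ^ 0 - (a ^ 2 ^ 0 + b ^ 2 ^ 0) = 0 := by ring
    rw [e]
    exact O.nonunits.zero_mem
  | succ n ih =>
    have hA : a ^ 2 ^ n ∈ O := O.pow_mem ha _
    have hB : b ^ 2 ^ n ∈ O := O.pow_mem hb _
    have hC : (a + b) ^ 2 ^ n ∈ O := O.pow_mem (O.add_mem _ _ ha hb) _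
    have e : (a + b) ^ 2 ^ (n + 1) - (a ^ 2 ^ (n + 1) + b ^ 2 ^ (n + 1))
        = ((a + b) ^ 2 ^ n + (a ^ 2 ^ n + b ^ 2 ^ n)) *
            ((a + b) ^ 2 ^ n - (a ^ 2 ^ n + b ^ 2 ^ n)) + (a ^ 2 ^ n * b ^ 2 ^ n) * 2 := by
      rw [pow_succ 2 n, pow_mul, pow_mul, pow_mul]
      ring
    rw [e]
    exact O.nonunits.add_mem (mul_mem_nu (O.add_mem _ _ hC (O.add_mem _ _ hA hB)) ih)
      (mul_mem_nu (O.mul_mem _ _ hA hB) h2)

lemma pow_sub_one_mem {κ : E} (hκ : κ ∈ O) (h : κ - 1 ∈ O.nonunits) (n : ℕ) :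
    κ ^ n - 1 ∈ O.nonunits := by
  induction n with
  | zero => rw [pow_zero, sub_self]; exact O.nonunits.zero_mem
  | succ n ih =>
    have e : κ ^ (n + 1) - 1 = κ * (κ ^ n - 1) + (κ - 1) := by ring
    rw [e]
    exact O.nonunits.add_mem (mul_mem_nu hκ ih) h

/-- `Y` is a unit. -/
lemma unit_Y (ht : ∀ x, t (t x) = x) (hU : ∀ x, x * t x = 1 → x ∈ O) {g : E}
    (hN : g * t g = -1) {j : ℕ} (hj : Odd j) :
    ¬ (∑ i ∈ Finset.range (2 ^ j - 1), (g ^ 2) ^ i) ∈ O.nonunits := by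
  intro hY
  have hκ : g ^ 2 * t (g ^ 2) = 1 := by
    rw [map_pow, ← mul_pow, hN]
    ring
  have hκO : g ^ 2 ∈ O := hU _ hκ
  have hgO : g ∈ O := mem_of_sq_mem hκO
  have hyO : t (g ^ 2) ∈ O := hU _ (by rw [ht, mul_comm]; exact hκ)
  have hpos : 0 < 2 ^ j := pow_pos (by norm_num) j
  obtain ⟨N, hNj⟩ : ∃ N, N = 2 ^ j - 1 := ⟨_, rfl⟩
  have hN1 : N + 1 = 2 ^ j := by omega
  have hNodd : Odd N := by
    rw [← Nat.not_even_iff_odd]
    intro he
    have h1 : Even (2 ^ j) := (Nat.even_pow.mpr ⟨even_two, hj.pos.ne'⟩)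
    rw [← hN1] at h1
    exact (Nat.even_add_one.mp h1) he
  rw [← hNj] at hY
  obtain ⟨x, hx⟩ : ∃ x, x = g ^ 2 := ⟨_, rfl⟩
  obtain ⟨y, hy⟩ : ∃ y, y = t (g ^ 2) := ⟨_, rfl⟩
  have hxy : x * y = 1 := by rw [hx, hy]; exact hκ
  have htx : t x = y := by rw [hx, hy]
  have hty : t y = x := by rw [hx, hy, ht]
  rw [← hx] at hY hκO
  rw [← hy] at hyO
  by_cases h1 : x - 1 ∈ O.nonunits
  · have h2 : (2 : E) ∈ O.nonunits := two_mem ht hU hgO hN (by rw [← hx]; exact h1)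
    have h3 : (∑ i ∈ Finset.range N, x ^ i) - (N : E) ∈ O.nonunits := by
      have e : (∑ i ∈ Finset.range N, x ^ i) - (N : E) = ∑ i ∈ Finset.range N, (x ^ i - 1) := by
        rw [Finset.sum_sub_distrib]
        simp
      rw [e]
      exact sum_mem fun i _ => pow_sub_one_mem hκO h1 i
    have h4 := O.nonunits.sub_mem hY h3
    rw [sub_sub_cancel] at h4
    have h5 : ((2 : E)) ^ j ∈ O.nonunits := by
      obtain ⟨k, hk⟩ : ∃ k, j = k + 1 := ⟨j - 1, by have := hj.pos; omega⟩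
      rw [hk, pow_succ]
      exact mul_mem_nu (O.pow_mem (O.nonunits_subset h2) k) h2
    have h6 := O.nonunits.sub_mem h5 h4
    have e : (2 : E) ^ j - N = 1 := by
      have : ((N + 1 : ℕ) : E) = ((2 ^ j : ℕ) : E) := by rw [hN1]
      push_cast at this
      linear_combination -this
    rw [e] at h6
    exact one_not_mem h6
  · -- `x ^ N = 1` modulo the maximal ideal
    have hxN : x ^ N - 1 ∈ O.nonunits := by
      have e : x ^ N - 1 = (x - 1) * ∑ i ∈ Finset.range N, x ^ i := (mul_geom_sum x N).symm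
      rw [e]
      exact mul_mem_nu (O.sub_mem hκO O.one_mem) hY
    have h2 : (2 : E) ∈ O.nonunits := by
      apply two_mem ht hU (h := g ^ N) (O.pow_mem hgO N)
      · rw [map_pow, ← mul_pow, hN, hNodd.neg_one_pow]
      · have e : (g ^ N) ^ 2 = x ^ N := by rw [hx, ← pow_mul, ← pow_mul, mul_comm]
        rw [e]; exact hxN
    have hxQ : x ^ 2 ^ j - x ∈ O.nonunits := by
      have e : x ^ 2 ^ j - x = x * (x ^ N - 1) := by rw [← hN1, pow_succ]; ring
      rw [e]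
      exact mul_mem_nu hκO hxN
    have hyQ : y ^ 2 ^ j - y ∈ O.nonunits := by
      have := t_nu ht hU hxQ
      rwa [map_sub, map_pow, htx] at this
    have ht0O : x + y ∈ O := O.add_mem _ _ hκO hyO
    have ht0 : x + y ∉ O.nonunits := by
      intro h
      apply h1
      apply sq_nu
      have e : (x - 1) ^ 2 = x * (x + y) - x * 2 := by linear_combination -hxy
      rw [e]
      exact O.nonunits.sub_mem (mul_mem_nu hκO h) (mul_mem_nu hκO h2)
    have ht00 : x + y ≠ 0 := by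
      intro h
      apply ht0
      rw [h]
      exact O.nonunits.zero_mem
    obtain ⟨w, hw⟩ : ∃ w, w = (x + y)⁻¹ := ⟨_, rfl⟩
    have hwt : w * (x + y) = 1 := by rw [hw]; exact inv_mul_cancel₀ ht00
    have hwO : w ∈ O := by
      rw [hw, ← ValuationSubring.valuation_le_one_iff, map_inv₀]
      rw [ValuationSubring.mem_nonunits_iff] at ht0
      push Not at ht0
      exact inv_le_one_of_one_le₀ ht0
    have htw : t w = w := by rw [hw, map_inv₀, map_add, htx, hty, add_comm]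
    have hsQ : (x + y) ^ 2 ^ j - (x + y) ∈ O.nonunits := by
      have e : (x + y) ^ 2 ^ j - (x + y) = ((x + y) ^ 2 ^ j - (x ^ 2 ^ j + y ^ 2 ^ j)) +
          (x ^ 2 ^ j - x) + (y ^ 2 ^ j - y) := by ring
      rw [e]
      exact O.nonunits.add_mem (O.nonunits.add_mem (frob h2 hκO hyO j) hxQ) hyQ
    have hwQ : w ^ 2 ^ j - w ∈ O.nonunits := by
      have e1 : w ^ 2 ^ j * (x + y) ^ 2 ^ j = 1 := by rw [← mul_pow, hwt, one_pow]
      have e : w ^ 2 ^ j - w = -((w ^ 2 ^ j * w) * ((x + y) ^ 2 ^ j - (x + y))) := by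
        linear_combination (-(w ^ 2 ^ j)) * hwt + w * e1
      rw [e]
      exact O.nonunits.neg_mem (mul_mem_nu (O.mul_mem _ _ (O.pow_mem hwO _) hwO) hsQ)
    obtain ⟨z, hz⟩ : ∃ z, z = x * w := ⟨_, rfl⟩
    have hzO : z ∈ O := by rw [hz]; exact O.mul_mem _ _ hκO hwO
    have hz1O : 1 - z ∈ O := O.sub_mem O.one_mem hzO
    have htz : t z = 1 - z := by
      rw [hz, map_mul, htx, htw]
      linear_combination hwt
    have hzQ : z ^ 2 ^ j - z ∈ O.nonunits := by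
      have e : z ^ 2 ^ j - z = w ^ 2 ^ j * (x ^ 2 ^ j - x) + x * (w ^ 2 ^ j - w) := by
        rw [hz, mul_pow]; ring
      rw [e]
      exact O.nonunits.add_mem (mul_mem_nu (O.pow_mem hwO _) hxQ) (mul_mem_nu hκO hwQ)
    -- the Artin-Schreier trace
    have hAO : ∀ n, (∑ i ∈ Finset.range n, z ^ 2 ^ i) ∈ O :=
      fun n => sum_mem fun i _ => O.pow_mem hzO _
    have hA2 : ∀ n, (∑ i ∈ Finset.range n, z ^ 2 ^ i) ^ 2 -
        ((∑ i ∈ Finset.range n, z ^ 2 ^ i) + z ^ 2 ^ n - z) ∈ O.nonunits := by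
      intro n
      induction n with
      | zero =>
        have e : (∑ i ∈ Finset.range 0, z ^ 2 ^ i) ^ 2 -
            ((∑ i ∈ Finset.range 0, z ^ 2 ^ i) + z ^ 2 ^ 0 - z) = 0 := by simp
        rw [e]; exact O.nonunits.zero_mem
      | succ n ih =>
        have e : (∑ i ∈ Finset.range (n + 1), z ^ 2 ^ i) ^ 2 -
            ((∑ i ∈ Finset.range (n + 1), z ^ 2 ^ i) + z ^ 2 ^ (n + 1) - z) =
            ((∑ i ∈ Finset.range n, z ^ 2 ^ i) ^ 2 -
              ((∑ i ∈ Finset.range n, z ^ 2 ^ i) + z ^ 2 ^ n - z)) +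
            ((∑ i ∈ Finset.range n, z ^ 2 ^ i) * z ^ 2 ^ n) * 2 := by
          rw [Finset.sum_range_succ, pow_succ 2 n, pow_mul]
          ring
        rw [e]
        exact O.nonunits.add_mem ih (mul_mem_nu (O.mul_mem _ _ (hAO n) (O.pow_mem hzO _)) h2)
    obtain ⟨A, hA⟩ : ∃ A, A = ∑ i ∈ Finset.range j, z ^ 2 ^ i := ⟨_, rfl⟩
    have htA : t A + A - (j : E) ∈ O.nonunits := by
      have e : t A + A - (j : E) = ∑ i ∈ Finset.range j, ((1 - z) ^ 2 ^ i + z ^ 2 ^ i - 1) := by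
        rw [Finset.sum_sub_distrib, Finset.sum_add_distrib, hA, map_sum]
        simp [htz]
      rw [e]
      refine sum_mem fun i _ => ?_
      have h3 := O.nonunits.neg_mem (frob h2 hz1O hzO i)
      have e : -((1 - z + z) ^ 2 ^ i - ((1 - z) ^ 2 ^ i + z ^ 2 ^ i)) =
          (1 - z) ^ 2 ^ i + z ^ 2 ^ i - 1 := by
        rw [sub_add_cancel, one_pow]
        ring
      rwa [e] at h3
    have hAA : A * (A - 1) ∈ O.nonunits := by
      have h3 := O.nonunits.add_mem (hA2 j) hzQ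
      rw [← hA] at h3
      have e : A ^ 2 - (A + z ^ 2 ^ j - z) + (z ^ 2 ^ j - z) = A * (A - 1) := by ring
      rwa [e] at h3
    have hjm : (j : E) ∈ O.nonunits := by
      rcases prime_nu hAA with h3 | h3
      · have h4 := t_nu ht hU h3
        have h5 := O.nonunits.sub_mem (O.nonunits.add_mem h4 h3) htA
        rwa [sub_sub_cancel] at h5
      · have h4 := t_nu ht hU h3
        rw [map_sub, map_one] at h4
        have h5 := O.nonunits.add_mem (O.nonunits.sub_mem (O.nonunits.add_mem h4 h3) htA) h2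
        have e : t A - 1 + (A - 1) - (t A + A - (j : E)) + 2 = j := by ring
        rwa [e] at h5
    obtain ⟨k, hk⟩ := hj
    have h3 := O.nonunits.sub_mem hjm (mul_mem_nu (natCast_mem_O (O := O) k) h2)
    have e : (j : E) - (k : E) * 2 = 1 := by rw [hk]; push_cast; ring
    rw [e] at h3
    exact one_not_mem h3

end val

section ring

variable {t : E ≃+* E} {B : Subring E}

/-- `16/(κ - 1)² ∈ B`. -/
lemma sixteen_mem (hU : ∀ x, x * t x = 1 → x ∈ B) (ht : ∀ x, t (t x) = x) {g : E}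
    (hN : g * t g = -1) (h1 : g ^ 2 ≠ 1) : 16 * ((g ^ 2 - 1) ^ 2)⁻¹ ∈ B := by
  have hκ : g ^ 2 * t (g ^ 2) = 1 := by
    rw [map_pow, ← mul_pow, hN]
    ring
  have hκB : g ^ 2 ∈ B := hU _ hκ
  have hyB : t (g ^ 2) ∈ B := hU _ (by rw [ht, mul_comm]; exact hκ)
  obtain ⟨y, hy⟩ : ∃ y, y = t g := ⟨_, rfl⟩
  have hty : t y = g := by rw [hy, ht]
  rw [← hy] at hN
  rw [map_pow, ← hy] at hyB
  obtain ⟨T, hT⟩ : ∃ T, T = g + y := ⟨_, rfl⟩
  have hg0 : g ≠ 0 := by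
    rintro rfl
    rw [zero_mul] at hN
    exact one_ne_zero (neg_eq_zero.mp hN.symm)
  have hT0 : T ≠ 0 := by
    intro h
    apply h1
    rw [hT] at h
    linear_combination g * h - hN
  have hgm : g - 1 ≠ 0 := by
    intro h
    apply h1
    linear_combination (g + 1) * h
  have hgp : g + 1 ≠ 0 := by
    intro h
    apply h1
    linear_combination (g - 1) * h
  have hym : y - 1 ≠ 0 := by
    intro h
    have : (g - 1) * (y - 1) = 0 := by rw [h, mul_zero]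
    apply hT0
    rw [hT]
    linear_combination -this + hN
  have hρ : (g * (g + 1) / (g - 1)) * t (g * (g + 1) / (g - 1)) = 1 := by
    rw [map_div₀, map_mul, map_add, map_sub, map_one, ← hy]
    field_simp
    linear_combination (g * y - 1 + g + y) * hN
  have hρB := hU _ hρ
  have hρB' : t (g * (g + 1) / (g - 1)) ∈ B := hU _ (by rw [ht, mul_comm]; exact hρ)
  have h2B : (2 : E) ∈ B := by exact_mod_cast natCast_mem B 2
  have h8B : (8 : E) ∈ B := by exact_mod_cast natCast_mem B 8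
  have hT4 : T + 4 / T ∈ B := by
    have e : T + 4 / T = g * (g + 1) / (g - 1) + t (g * (g + 1) / (g - 1)) - 2 := by
      rw [map_div₀, map_mul, map_add, map_sub, map_one, ← hy]
      have hd : (g - 1) * (y - 1) = -T := by rw [hT]; linear_combination hN
      have e1 : g * (g + 1) / (g - 1) + y * (y + 1) / (y - 1)
          = (g * (g + 1) * (y - 1) + y * (y + 1) * (g - 1)) / (-T) := by
        rw [← hd]
        field_simp
      rw [e1]
      field_simp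
      rw [hT]
      linear_combination (g + y + 4) * hN
    rw [e]
    exact B.sub_mem (B.add_mem hρB hρB') h2B
  have hT2 : T ^ 2 ∈ B := by
    have e : T ^ 2 = g ^ 2 + y ^ 2 - 2 := by rw [hT]; linear_combination 2 * hN
    rw [e]
    exact B.sub_mem (B.add_mem hκB hyB) h2B
  have h16 : 16 * (T ^ 2)⁻¹ ∈ B := by
    have e : 16 * (T ^ 2)⁻¹ = (T + 4 / T) ^ 2 - T ^ 2 - 8 := by
      field_simp
      ring
    rw [e]
    exact B.sub_mem (B.sub_mem (B.pow_mem hT4 2) hT2) h8B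
  have e : 16 * ((g ^ 2 - 1) ^ 2)⁻¹ = y ^ 2 * (16 * (T ^ 2)⁻¹) := by
    have hy0 : y ≠ 0 := right_ne_zero_of_mul (a := g)
      (by rw [hN]; exact neg_ne_zero.mpr one_ne_zero)
    have e1 : g ^ 2 - 1 = g * T := by rw [hT]; linear_combination -hN
    have e2 : (y : E) ^ 2 = (g ^ 2)⁻¹ := by
      apply eq_inv_of_mul_eq_one_left
      linear_combination (g * y - 1) * hN
    rw [e1, e2]
    field_simp
  rw [e]
  exact B.mul_mem hyB h16

/-- the product of the `κ^(2^i) + κ^(-2^i)` -/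
lemma prod_form {κ y : E} (hκ : κ ∈ B) (hy : y ∈ B) (hκy : κ * y = 1) (M n : ℕ) :
    ∃ b ∈ B, (∏ i ∈ Finset.range n, (κ ^ 2 ^ (M + i) + y ^ 2 ^ (M + i))) =
      2 ^ n + (κ - 1) ^ 2 * b := by
  have h2B : (2 : E) ∈ B := by exact_mod_cast natCast_mem B 2
  induction n with
  | zero => exact ⟨0, B.zero_mem, by simp⟩
  | succ n ih =>
    obtain ⟨b, hb, hb'⟩ := ih
    obtain ⟨G, hG⟩ : ∃ G, G = ∑ i ∈ Finset.range (2 ^ (M + n)), κ ^ i := ⟨_, rfl⟩
    have hGB : G ∈ B := by rw [hG]; exact sum_mem fun i _ => B.pow_mem hκ i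
    have h1 : (κ - 1) * G = κ ^ 2 ^ (M + n) - 1 := by rw [hG]; exact mul_geom_sum κ _
    have h3 : κ ^ 2 ^ (M + n) * y ^ 2 ^ (M + n) = 1 := by rw [← mul_pow, hκy, one_pow]
    obtain ⟨p, hp⟩ : ∃ p, p = κ ^ 2 ^ (M + n) := ⟨_, rfl⟩
    obtain ⟨q, hq⟩ : ∃ q, q = y ^ 2 ^ (M + n) := ⟨_, rfl⟩
    have hqB : q ∈ B := by rw [hq]; exact B.pow_mem hy _
    rw [← hp] at h1 h3
    rw [← hq] at h3
    have h4 : p + q = 2 + (κ - 1) ^ 2 * (q * G ^ 2) := by
      have e : (κ - 1) ^ 2 * (q * G ^ 2) = q * (p - 1) ^ 2 := by rw [← h1]; ring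
      rw [e]
      linear_combination (2 - p) * h3
    refine ⟨2 ^ n * (q * G ^ 2) + 2 * b + (κ - 1) ^ 2 * b * (q * G ^ 2), ?_, ?_⟩
    · have hc : q * G ^ 2 ∈ B := B.mul_mem hqB (B.pow_mem hGB 2)
      refine B.add_mem (B.add_mem (B.mul_mem (B.pow_mem h2B n) hc) (B.mul_mem h2B hb)) ?_
      exact B.mul_mem (B.mul_mem (B.pow_mem (B.sub_mem hκ B.one_mem) 2) hb) hc
    · rw [Finset.prod_range_succ, hb', ← hp, ← hq, h4]
      ring

/-- `s(κ^(2^(M+n)))` as a product -/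
lemma tele {κ y : E} (M n : ℕ) :
    (κ ^ 2 ^ M - y ^ 2 ^ M) * (∏ i ∈ Finset.range n, (κ ^ 2 ^ (M + i) + y ^ 2 ^ (M + i))) =
      κ ^ 2 ^ (M + n) - y ^ 2 ^ (M + n) := by
  induction n with
  | zero => simp
  | succ n ih =>
    rw [Finset.prod_range_succ, ← mul_assoc, ih, ← Nat.add_assoc, pow_succ 2 (M + n), pow_mul,
      pow_mul]
    ring

end ring

section main

variable {T : Type*} [AddCommGroup T] {t : E ≃+* E} {H : E → T} {B : Subring E}
  {Per PT : AddSubgroup E}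

lemma two_pow_smul (h2T : ∀ a : T, a + a = 0 → a = 0) (n : ℕ) (a : T) (h : (2 ^ n : ℕ) • a = 0) :
    a = 0 := by
  induction n with
  | zero => simpa using h
  | succ n ih =>
    apply ih
    apply h2T
    rw [← two_nsmul, ← mul_nsmul, ← pow_succ, h]

lemma H_pow (D : Data t H B Per PT) {x : E} (hx : x ≠ 0) (n : ℕ) : H (x ^ n) = n • H x := by
  induction n with
  | zero => rw [pow_zero, D.H_one, zero_nsmul]
  | succ n ih => rw [pow_succ, D.hH _ _ (pow_ne_zero _ hx) hx, ih, succ_nsmul]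

/-- `H(g) = 0` if `g` has norm `-1`. -/
theorem H_norm_neg (D : Data t H B Per PT)
    (hP : ∀ p ∈ Per, ∀ ρ, ρ * t ρ = 1 → H (1 + p * (1 - ρ)) = 0)
    (hI : ∀ θ, θ * t θ = 1 → ∃ m : ℕ, ∀ b ∈ B, (θ ^ 2 ^ m - (θ ^ 2 ^ m)⁻¹) * b ∈ PT)
    {g : E} (hN : g * t g = -1) : H g = 0 := by
  have hg0 : g ≠ 0 := by
    rintro rfl
    rw [zero_mul] at hN
    exact one_ne_zero (neg_eq_zero.mp hN.symm)
  have hκ1 : g ^ 2 * t (g ^ 2) = 1 := by
    rw [map_pow, ← mul_pow, hN]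
    ring
  obtain ⟨κ, hκ⟩ : ∃ κ, κ = g ^ 2 := ⟨_, rfl⟩
  obtain ⟨y, hy⟩ : ∃ y, y = t (g ^ 2) := ⟨_, rfl⟩
  have hκy : κ * y = 1 := by rw [hκ, hy]; exact hκ1
  have htκ : t κ = y := by rw [hκ, hy]
  have hty : t y = κ := by rw [hκ, hy, D.ht]
  have hκ0 : κ ≠ 0 := left_ne_zero_of_mul_eq_one hκy
  have hy0 : y ≠ 0 := right_ne_zero_of_mul_eq_one hκy
  have hκB : κ ∈ B := D.hU κ (by rw [htκ]; exact hκy)
  have hyB : y ∈ B := D.hU y (by rw [hty, mul_comm]; exact hκy)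
  suffices hHκ : H κ = 0 by
    apply D.h2T
    rw [← D.hH _ _ hg0 hg0, ← sq, ← hκ, hHκ]
  by_cases hκ1' : κ = 1
  · rw [hκ1']; exact D.H_one
  have hκm : κ - 1 ≠ 0 := sub_ne_zero.mpr hκ1'
  obtain ⟨m0, hm0⟩ := hI κ (by rw [htκ]; exact hκy)
  -- `σ`
  obtain ⟨M, hM⟩ : ∃ M, M = m0 + 1 := ⟨_, rfl⟩
  have hk1 : κ ^ 2 ^ m0 * t (κ ^ 2 ^ m0) = 1 := by
    rw [map_pow, htκ, ← mul_pow, hκy, one_pow]
  have hσ : ∀ c ∈ B, t c = c → (κ ^ 2 ^ M - y ^ 2 ^ M) * c ∈ Per := by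
    intro c hc htc
    have h2 : (κ ^ 2 ^ m0)⁻¹ = t (κ ^ 2 ^ m0) := inv_eq_of_mul_eq_one_right hk1
    rw [h2] at hm0
    have h3 := D.per_sq hk1 hm0 hc htc
    have e : (κ ^ 2 ^ m0) ^ 2 - (t (κ ^ 2 ^ m0)) ^ 2 = κ ^ 2 ^ M - y ^ 2 ^ M := by
      rw [map_pow, htκ, hM, pow_succ 2 m0, pow_mul, pow_mul]
    rwa [e] at h3
  -- `j`, `N = 2^j - 1`, `m = 2^(j-1)`
  obtain ⟨n, hn⟩ : ∃ n, n = M + 4 := ⟨_, rfl⟩
  obtain ⟨j, hj⟩ : ∃ j, j = M + n + 1 := ⟨_, rfl⟩
  have hjodd : Odd j := ⟨M + 2, by omega⟩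
  obtain ⟨m, hm⟩ : ∃ m, m = 2 ^ (M + n) := ⟨_, rfl⟩
  have h2j : 2 ^ j = 2 * m := by rw [hj, hm, pow_succ]; ring
  have hmpos : 0 < m := by rw [hm]; exact pow_pos (by norm_num) _
  obtain ⟨N, hNj⟩ : ∃ N, N = 2 ^ j - 1 := ⟨_, rfl⟩
  have hN1 : N + 1 = 2 * m := by omega
  obtain ⟨Y, hY⟩ : ∃ Y, Y = ∑ i ∈ Finset.range N, κ ^ i := ⟨_, rfl⟩
  have hYB : Y ∈ B := by rw [hY]; exact sum_mem fun i _ => B.pow_mem hκB i
  obtain ⟨hY0, hYi⟩ := inv_mem hYB (fun O hO => by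
    rw [hY, hNj, hκ]
    exact unit_Y D.ht (fun x hx => hO (D.hU x hx)) hN hjodd)
  have hYκ : (κ - 1) * Y = κ ^ N - 1 := by rw [hY]; exact mul_geom_sum κ N
  have hκN : κ ^ N - 1 ≠ 0 := by rw [← hYκ]; exact mul_ne_zero hκm hY0
  -- `Π`
  obtain ⟨P, hPd⟩ : ∃ P, P = ∏ i ∈ Finset.range n, (κ ^ 2 ^ (M + i) + y ^ 2 ^ (M + i)) :=
    ⟨_, rfl⟩
  obtain ⟨b, hb, hb'⟩ := prod_form (B := B) hκB hyB hκy M n
  rw [← hPd] at hb'
  have htele := tele (κ := κ) (y := y) M n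
  rw [← hPd, ← hm] at htele
  have htP : t P = P := by
    rw [hPd, map_prod]
    refine Finset.prod_congr rfl fun i _ => ?_
    rw [map_add, map_pow, map_pow, htκ, hty, add_comm]
  have hPB : P * ((κ - 1) ^ 2)⁻¹ ∈ B := by
    have h16 := sixteen_mem (B := B) D.hU D.ht hN (by rw [← hκ]; exact hκ1')
    rw [← hκ] at h16
    have h2B : (2 : E) ∈ B := by exact_mod_cast natCast_mem B 2
    have e : P * ((κ - 1) ^ 2)⁻¹ = 2 ^ M * (16 * ((κ - 1) ^ 2)⁻¹) + b := by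
      rw [hb', hn, pow_add]
      field_simp
      ring
    rw [e]
    exact B.add_mem (B.mul_mem (B.pow_mem h2B _) h16) hb
  obtain ⟨r, hr⟩ : ∃ r, r = κ ^ m * (P * ((κ - 1) ^ 2)⁻¹) * Y⁻¹ := ⟨_, rfl⟩
  have hrB : r ∈ B := by
    rw [hr]
    exact B.mul_mem (B.mul_mem (B.pow_mem hκB m) hPB) hYi
  have hr1 : r * ((κ - 1) * (κ ^ N - 1)) = κ ^ m * P := by
    rw [hr, ← hYκ]
    field_simp
  have hpow : κ ^ (2 * m) * (y ^ N) = κ := by
    have e : κ ^ N * y ^ N = 1 := by rw [← mul_pow, hκy, one_pow]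
    rw [← hN1, pow_succ]
    linear_combination κ * e
  have hκym : κ ^ m * y ^ m = 1 := by rw [← mul_pow, hκy, one_pow]
  have hκ2m : κ ^ (2 * m) = κ * κ ^ N := by rw [← hN1, pow_succ]; ring
  have hκNy : κ ^ N * y ^ N = 1 := by rw [← mul_pow, hκy, one_pow]
  have htr : t r = r := by
    have h3 := congrArg t hr1
    rw [map_mul, map_mul, map_sub, map_sub, map_one, map_pow, htκ, map_mul, map_pow, htκ,
      htP] at h3
    have h4 : t r * ((κ - 1) * (κ ^ N - 1)) = r * ((κ - 1) * (κ ^ N - 1)) := by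
      have e1 : (κ - 1) * (κ ^ N - 1) = κ ^ (2 * m) * ((y - 1) * (y ^ N - 1)) := by
        rw [hκ2m]
        linear_combination (-(κ ^ N * (y ^ N - 1))) * hκy + (κ - 1) * hκNy
      have e2 : κ ^ (2 * m) = κ ^ m * κ ^ m := by rw [← pow_add]; congr 1; ring
      rw [hr1, e1]
      calc t r * (κ ^ (2 * m) * ((y - 1) * (y ^ N - 1)))
          = κ ^ (2 * m) * (t r * ((y - 1) * (y ^ N - 1))) := by ring
        _ = κ ^ m * P := by
            rw [h3, e2]
            linear_combination (κ ^ m * P) * hκym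
    exact mul_right_cancel₀ (mul_ne_zero hκm hκN) h4
  -- the period and (P)
  have hp := hσ r hrB htr
  have hH := hP _ hp κ (by rw [htκ]; exact hκy)
  obtain ⟨W, hW⟩ : ∃ W, W = 1 + (κ ^ 2 ^ M - y ^ 2 ^ M) * r * (1 - κ) := ⟨_, rfl⟩
  rw [← hW] at hH
  have hWY : W * Y = -κ ^ N := by
    have e1 : W * Y * ((κ - 1) * (κ - 1)) = -κ ^ N * ((κ - 1) * (κ - 1)) := by
      have e2 : (κ ^ 2 ^ M - y ^ 2 ^ M) * r * ((κ - 1) * (κ ^ N - 1)) = κ ^ (2 * m) - 1 := by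
        have e3 : κ ^ (2 * m) = κ ^ m * κ ^ m := by rw [← pow_add]; congr 1; ring
        rw [e3, mul_assoc, hr1]
        linear_combination κ ^ m * htele - hκym
      rw [hκ2m] at e2
      rw [hW]
      linear_combination (κ - 1) * (1 + (κ ^ 2 ^ M - y ^ 2 ^ M) * r * (1 - κ)) * hYκ -
        (κ - 1) * e2
    exact mul_right_cancel₀ (mul_ne_zero hκm hκm) e1
  have hW0 : W ≠ 0 := by
    rintro h
    rw [h, zero_mul] at hWY
    exact pow_ne_zero N hκ0 (neg_eq_zero.mp hWY.symm)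
  have hHY : H Y = N • H κ := by
    have e := congrArg H hWY
    rw [D.hH _ _ hW0 hY0, hH, zero_add, neg_eq_neg_one_mul,
      D.hH _ _ (neg_ne_zero.mpr one_ne_zero) (pow_ne_zero N hκ0),
      D.hF (-1) (neg_ne_zero.mpr one_ne_zero) (by rw [map_neg, map_one]), zero_add,
      H_pow D hκ0] at e
    exact e
  have htY : t Y * κ ^ (N - 1) = Y := by
    have h3 := congrArg t hYκ
    rw [map_mul, map_sub, map_sub, map_one, map_pow, htκ] at h3
    have e3 : κ * κ ^ (N - 1) = κ ^ N := by rw [← pow_succ']; congr 1; omega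
    have e1 : t Y * κ ^ (N - 1) * (κ - 1) = Y * (κ - 1) := by
      have e4 : κ - 1 = -(κ * (y - 1)) := by linear_combination hκy
      calc t Y * κ ^ (N - 1) * (κ - 1) = -((κ * κ ^ (N - 1)) * ((y - 1) * t Y)) := by
            rw [e4]; ring
        _ = -(κ ^ N * (y ^ N - 1)) := by rw [e3, h3]
        _ = Y * (κ - 1) := by linear_combination -hκNy - hYκ
    exact mul_right_cancel₀ hκm e1
  have htY0 : t Y ≠ 0 := fun h => hY0 ((map_eq_zero t).mp h)
  have hHY2 : H Y = -H Y + (N - 1) • H κ := by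
    conv_lhs => rw [← htY]
    rw [D.hH _ _ htY0 (pow_ne_zero _ hκ0), D.H_t hY0, H_pow D hκ0]
  apply two_pow_smul D.h2T j
  rw [h2j, ← hN1]
  rw [hHY] at hHY2
  have e5 : N • H κ + N • H κ = (N - 1) • H κ := by
    nth_rw 1 [hHY2]
    abel
  have e6 : N • H κ = (N - 1) • H κ + H κ := by
    conv_lhs => rw [show N = (N - 1) + 1 by omega, succ_nsmul]
  rw [succ_nsmul]
  have e7 : N • H κ + H κ + ((N - 1) • H κ) = N • H κ + N • H κ := by
    nth_rw 3 [e6]; abel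
  rw [e5] at e7
  have e8 := congrArg (fun z => z - (N - 1) • H κ) e7
  simpa using e8

/-- **The general end of T_5.** -/
theorem end_norm (D : Data t H B Per PT)
    (hP : ∀ p ∈ Per, ∀ ρ, ρ * t ρ = 1 → H (1 + p * (1 - ρ)) = 0)
    (hI : ∀ θ, θ * t θ = 1 → ∃ m : ℕ, ∀ b ∈ B, (θ ^ 2 ^ m - (θ ^ 2 ^ m)⁻¹) * b ∈ PT)
    {g : E} (hN : g * t g = -1) (x : E) (hx : x ≠ 0) : H x = 0 := by
  have hg0 : g ≠ 0 := by
    rintro rfl
    rw [zero_mul] at hN
    exact one_ne_zero (neg_eq_zero.mp hN.symm)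
  have hU : ∀ u, u * t u = 1 → H u = 0 := by
    intro u hu
    have hu0 : u ≠ 0 := left_ne_zero_of_mul_eq_one hu
    have h1 := H_norm_neg D hP hI hN
    have h3 := H_norm_neg D hP hI (g := g * u) (by
      rw [map_mul]
      linear_combination (g * t g) * hu + hN)
    rw [D.hH _ _ hg0 hu0, h1, zero_add] at h3
    exact h3
  have htx : t x ≠ 0 := fun h => hx ((map_eq_zero t).mp h)
  have h1 : H (x / t x) = 0 := hU _ (by rw [map_div₀, D.ht]; field_simp)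
  have h2 : H (x / t x * t x) = H x := by rw [div_mul_cancel₀ _ htx]
  rw [D.hH _ _ (div_ne_zero hx htx) htx, h1, D.H_t hx, zero_add] at h2
  apply D.h2T
  nth_rw 1 [← h2]
  exact neg_add_cancel _

end main

end T5Y

end Pool.Agent.MP_1b9aaa_al
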