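import Pool.Agent.Lib.MP_1b9aaa_al.T5KN
import Pool.Agent.Lib.MP_1b9aaa_al.T5N

/-!
# MP_1b9aaa_al, T_5: the final theorem

`Good.eq_zero5`: `g^5 = 1`, `-1` a sum of squares in `K`, no 2-torsion in `T`: every good symbol is
zero.  `Good.eq_zero_of_five`: symbols killed by an odd integer `n`, `ζ_n ∈ K`.
-/

set_option autoImplicit false

namespace Pool.Agent.MP_1b9aaa_al

universe u v

theorem Quin.coreN : Quin.CoreN.{u, v} := by
  intro E _ t T _ H e E5 A hγ x hx
  obtain ⟨γ, hγ⟩ := hγ
  by_cases hn : ∃ y, t y ≠ y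
  · obtain ⟨h0, D⟩ := A.dat hn
    rcases A.dataI D with h | DI
    · exact h x hx
    · exact T5N.main t A.ht H A.hH A.hF A.h2T D.BR (fun θ hθ => D.U1_mem_BR hθ) D.Per D.PT
        (fun l hl θ hθ => hl θ hθ) (fun p hp ρ hρ => D.H_one_add hp hρ)
        (fun θ hθ => by
          obtain ⟨m, hm⟩ := T5I.main DI hθ
          exact ⟨m, hm m le_rfl⟩) hγ x hx
  · push Not at hn
    exact A.hF x hx (hn x)

/-- **T_5.** A Steinberg symbol `c : K* × K* → T` (`T` without 2-torsion) which is zero on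
`K* × F*`, where `F` is the fixed field of an automorphism `g` of `K` with `g^5 = 1`, is zero, if
`-1` is a sum of squares in `K`. -/
theorem Good.eq_zero5 {K : Type u} {T : Type v} [Field K] [AddCommGroup T] {g : K ≃+* K}
    {c : K → K → T} (hc : Good g c) (h5 : ∀ x, g (g (g (g (g x)))) = x)
    (h2T : ∀ t : T, t + t = 0 → t = 0) (hs : IsSumSq (-1 : K)) {y z : K} (hy : y ≠ 0)
    (hz : z ≠ 0) : c y z = 0 :=
  Quin.eq_zero_N Quin.coreN hc h5 h2T hs hy hz

/-- A Steinberg symbol `c` on `K`, killed by an odd integer `n`, which is zero on `K* × F*`, where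
`F` is the fixed field of an automorphism `g` with `g^5 = 1`, is zero, if `K` contains a primitive
`n`-th root of unity. -/
theorem Good.eq_zero_of_five {K : Type u} {T : Type v} [Field K] [AddCommGroup T] {g : K ≃+* K}
    {c : K → K → T} (hc : Good g c) (h5 : ∀ x, g (g (g (g (g x)))) = x) {n : ℕ}
    (hn : Odd n) {ζ : K} (hζ : IsPrimitiveRoot ζ n)
    (hcn : ∀ u v, n • c u v = 0) {u v : K} (hu : u ≠ 0) (hv : v ≠ 0) :
    c u v = 0 := by
  by_cases h1 : n = 1
  · have := hcn u v
    rwa [h1, one_smul] at this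
  have h1n : 1 < n := by
    rcases hn with ⟨k, rfl⟩
    omega
  have hs := sumSq_root hn h1n hζ
  set S : AddSubgroup T := (nsmulAddMonoidHom (α := T) n).ker with hS
  set c' : K → K → S := fun u v => ⟨c u v, hcn u v⟩ with hc'
  have hg : Good g c' := by
    refine ⟨⟨?_, ?_, ?_⟩, ?_⟩
    · intro a b x ha hb hx
      exact Subtype.ext (hc.st.mul_left a b x ha hb hx)
    · intro x a b hx ha hb
      exact Subtype.ext (hc.st.mul_right x a b hx ha hb)
    · intro a ha h1
      exact Subtype.ext (hc.st.steinberg a ha h1)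
    · intro x hx f hf hf0
      exact Subtype.ext (hc.van x hx f hf hf0)
  have h2 : ∀ t : S, t + t = 0 → t = 0 := by
    rintro ⟨t, ht⟩ h
    apply Subtype.ext
    have h' : t + t = 0 := congrArg Subtype.val h
    have ht' : n • t = 0 := ht
    have h2 : (2 : ℕ) • t = 0 := by rw [two_nsmul]; exact h'
    have e1 := addOrderOf_dvd_of_nsmul_eq_zero h2
    have e2 := addOrderOf_dvd_of_nsmul_eq_zero ht'
    have e3 : addOrderOf t = 1 :=
      Nat.eq_one_of_dvd_coprimes ((Nat.coprime_two_left).mpr hn) e1 e2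
    exact AddMonoid.addOrderOf_eq_one_iff.mp e3
  have h := hg.eq_zero5 h5 h2 hs hu hv
  exact congrArg Subtype.val h

end Pool.Agent.MP_1b9aaa_al
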