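import Pool.Agent.Lib.MP_1b9aaa_al.T5Z

/-!
# MP_1b9aaa_al, T_10: definitions

`Ten.Dat`: a Steinberg symbol `c` on `K`, two commuting automorphisms `σ` (order 5) and `τ` (order 2),
`c (σ x) (σ y) = ω (c x y)`, `c (τ x) (τ y) = - c x y`, `c (x, f) = 0` for `f` fixed by `σ` and `τ`.
`Ten.Gen`: a Kummer generator `s`, `σ s = ζ s`, `τ s = s`.
-/

set_option autoImplicit false

namespace Pool.Agent.MP_1b9aaa_al.Ten

open IsSteinberg

/-- the symbol -/
structure Dat {K T : Type*} [Field K] [AddCommGroup T] (σ τ : K ≃+* K) (ω : T →+ T)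
    (c : K → K → T) : Prop where
  st : IsSteinberg c
  van : ∀ x, x ≠ 0 → ∀ f, σ f = f → τ f = f → f ≠ 0 → c x f = 0
  s5 : ∀ x, σ (σ (σ (σ (σ x)))) = x
  tt : ∀ x, τ (τ x) = x
  comm : ∀ x, σ (τ x) = τ (σ x)
  cs : ∀ x y, x ≠ 0 → y ≠ 0 → c (σ x) (σ y) = ω (c x y)
  ct : ∀ x y, x ≠ 0 → y ≠ 0 → c (τ x) (τ y) = - c x y
  hω : ∀ v, v + ω v + ω (ω v) + ω (ω (ω v)) + ω (ω (ω (ω v))) = 0
  h2T : ∀ v : T, v + v = 0 → v = 0
  h5T : ∀ v : T, v + v + v + v + v = 0 → v = 0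

/-- a Kummer generator `s` of `K` over the fixed field of `σ`, and of the fixed field of `τ` over `F` -/
structure Gen {K : Type*} [Field K] (σ τ : K ≃+* K) (ζ s : K) : Prop where
  hζ : ζ ^ 4 + ζ ^ 3 + ζ ^ 2 + ζ + 1 = 0
  sζ : σ ζ = ζ
  tζ : τ ζ = ζ
  s0 : s ≠ 0
  ss : σ s = ζ * s
  ts : τ s = s

/-- the ring generated by the elements of norm one -/
def NR {E : Type*} [Field E] (t : E ≃+* E) : Subring E := Subring.closure {θ | θ * t θ = 1}

/-- the ring generated by the elements of norm one and `φ` -/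
def NP {E : Type*} [Field E] (t : E ≃+* E) (φ : E) : Subring E :=
  Subring.closure ({θ | θ * t θ = 1} ∪ {φ})

/-- the subfield of all elements fixed by `σ` and `τ` -/
def fix2 {K : Type*} [Field K] (σ τ : K ≃+* K) : Subfield K := fixS σ ⊓ fixS τ

end Pool.Agent.MP_1b9aaa_al.Ten
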