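import Pool.Agent.Lib.MP_1b9aaa_al.TenE

/-!
# MP_1b9aaa_al, T_10: basic facts on the symbol, the linear block over `F`
-/

set_option autoImplicit false

namespace Pool.Agent.MP_1b9aaa_al.Ten

open IsSteinberg

namespace Dat

variable {K T : Type*} [Field K] [AddCommGroup T] {σ τ : K ≃+* K} {ω : T →+ T} {c : K → K → T}
  (D : Dat σ τ ω c)

include D

omit D in
private lemma B_ζ5 {ζ s : K} (G : Gen σ τ ζ s) : ζ ^ 5 = 1 := by
  linear_combination (ζ - 1) * G.hζ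

omit D in
private lemma B_s5 {ζ s : K} (G : Gen σ τ ζ s) : σ (s ^ 5) = s ^ 5 := by
  rw [map_pow, G.ss, mul_pow, B_ζ5 G, one_mul]

omit D in
private lemma B_t5 {ζ s : K} (G : Gen σ τ ζ s) : τ (s ^ 5) = s ^ 5 := by
  rw [map_pow, G.ts]

private lemma B_van : VanOn c (fix2 σ τ) := fun x hx f hf hf0 => D.van x hx f hf.1 hf.2 hf0

private lemma B_vanl {f y : K} (h1 : σ f = f) (h2 : τ f = f) (hf : f ≠ 0) (hy : y ≠ 0) :
    c f y = 0 := by
  rw [D.st.skew hf hy, D.van y hy f h1 h2 hf, neg_zero]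

/-- `c(L*, L*) = 0` -/
theorem LL {x y : K} (hx : σ x = x) (hy : σ y = y) (hx0 : x ≠ 0) (hy0 : y ≠ 0) : c x y = 0 := by
  have h := D.cs x y hx0 hy0
  rw [hx, hy] at h
  have h1 := D.hω (c x y)
  rw [← h, ← h, ← h, ← h] at h1
  exact D.h5T _ h1

/-- `c(M*, M*) = 0` -/
theorem MM {x y : K} (hx : τ x = x) (hy : τ y = y) (hx0 : x ≠ 0) (hy0 : y ≠ 0) : c x y = 0 := by
  have h := D.ct x y hx0 hy0
  rw [hx, hy] at h
  apply D.h2T
  nth_rewrite 1 [h]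
  exact neg_add_cancel _

/-- `c(s, *) = 0` -/
theorem gen {ζ s : K} (G : Gen σ τ ζ s) {y : K} (hy : y ≠ 0) : c s y = 0 := by
  have h5 : c (s ^ 5) y = 0 := B_vanl D (B_s5 G) (B_t5 G) (pow_ne_zero 5 G.s0) hy
  have e : s ^ 5 = s * s * s * s * s := by ring
  have s0 := G.s0
  rw [e, D.st.mul_left _ _ _ (mul_ne_zero (mul_ne_zero (mul_ne_zero s0 s0) s0) s0) s0 hy,
    D.st.mul_left _ _ _ (mul_ne_zero (mul_ne_zero s0 s0) s0) s0 hy,
    D.st.mul_left _ _ _ (mul_ne_zero s0 s0) s0 hy, D.st.mul_left _ _ _ s0 s0 hy] at h5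
  exact D.h5T _ h5

/-- `c(δ, *) = 0` for `τ δ = -δ`, `σ δ = δ` -/
theorem anti {δ y : K} (h0 : δ ≠ 0) (hs : σ δ = δ) (ht : τ δ = -δ) (hy : y ≠ 0) :
    c δ y = 0 := by
  have h1 : σ (δ * δ) = δ * δ := by rw [map_mul, hs]
  have h2 : τ (δ * δ) = δ * δ := by rw [map_mul, ht, neg_mul_neg]
  have h := B_vanl D h1 h2 (mul_ne_zero h0 h0) hy
  rw [D.st.mul_left _ _ _ h0 h0 hy] at h
  exact D.h2T _ h

omit D in
/-- powers of a generator -/
theorem _root_.Pool.Agent.MP_1b9aaa_al.Ten.Gen.sq {ζ s : K} (G : Gen σ τ ζ s) :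
    Gen σ τ (ζ ^ 2) (s ^ 2) := by
  refine ⟨?_, ?_, ?_, pow_ne_zero 2 G.s0, ?_, ?_⟩
  · linear_combination (ζ ^ 4 - ζ ^ 3 + ζ ^ 2 - ζ + 1) * G.hζ
  · rw [map_pow, G.sζ]
  · rw [map_pow, G.tζ]
  · rw [map_pow, G.ss, mul_pow]
  · rw [map_pow, G.ts]

omit D in
theorem _root_.Pool.Agent.MP_1b9aaa_al.Ten.Gen.cube {ζ s : K} (G : Gen σ τ ζ s) :
    Gen σ τ (ζ ^ 3) (s ^ 3) := by
  refine ⟨?_, ?_, ?_, pow_ne_zero 3 G.s0, ?_, ?_⟩
  · linear_combination (ζ ^ 8 - ζ ^ 7 + ζ ^ 5 - ζ ^ 4 + ζ ^ 3 - ζ + 1) * G.hζ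
  · rw [map_pow, G.sζ]
  · rw [map_pow, G.tζ]
  · rw [map_pow, G.ss, mul_pow]
  · rw [map_pow, G.ts]

omit D in
/-- no element fixed by `σ` is a value `s - k` etc. -/
theorem _root_.Pool.Agent.MP_1b9aaa_al.Ten.Gen.not_fixed {ζ s : K} (G : Gen σ τ ζ s)
    (h5 : (5 : K) ≠ 0) : σ s ≠ s := by
  intro h
  rw [G.ss] at h
  have h1 : ζ = 1 := mul_right_cancel₀ G.s0 (h.trans (one_mul s).symm)
  have h2 := G.hζ
  rw [h1] at h2
  apply h5
  linear_combination h2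

/-- multiplying both sides by a generator does not change the symbol -/
private lemma B_gg {ζ s : K} (G : Gen σ τ ζ s) {x y : K} (hx : x ≠ 0) (hy : y ≠ 0) :
    c (s * x) (s * y) = c x y := by
  have s0 := G.s0
  rw [D.st.mul_left _ _ _ s0 hx (mul_ne_zero s0 hy), gen D G (mul_ne_zero s0 hy), zero_add,
    D.st.mul_right _ _ _ hx s0 hy, D.st.skew hx s0, gen D G hx, neg_zero, zero_add]

omit D in
/-- elements `p + q s` with `p, q` fixed by `σ` -/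
private lemma B_ne {ζ s : K} (G : Gen σ τ ζ s) (h5 : (5 : K) ≠ 0) {p q : K} (hp : σ p = p)
    (hq : σ q = q) (h : p + q * s = 0) : p = 0 ∧ q = 0 := by
  by_cases hq0 : q = 0
  · rw [hq0, zero_mul, add_zero] at h
    exact ⟨h, hq0⟩
  · exfalso
    apply G.not_fixed h5
    have e : s = - p / q := by
      field_simp
      linear_combination h
    rw [e, map_div₀, map_neg, hp, hq]

private lemma B_edat (h2K : (2 : K) ≠ 0) (h5K : (5 : K) ≠ 0) {ζ s : K} (G : Gen σ τ ζ s)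
    {b δ : K} (hb : σ b = b) (hb' : τ b = b) (hb0 : b ≠ 0) (hs : σ δ = δ) (ht : τ δ = -δ)
    (h0 : δ ≠ 0) : EDat (fix2 σ τ) σ ω c (ζ + ζ ^ 4) δ (s - b * s⁻¹) := by
  have s0 := G.s0
  have z5 := B_ζ5 G
  have hζ := G.hζ
  have sζ := G.sζ
  have tζ := G.tζ
  have ζ0 : ζ ≠ 0 := by
    intro h
    rw [h] at z5
    norm_num at z5
  have zi : ζ⁻¹ = ζ ^ 4 := by
    rw [inv_eq_iff_eq_inv]
    exact eq_inv_of_mul_eq_one_left (by linear_combination z5)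
  have G2 := G.sq
  have hζS : ζ ∈ fix2 σ τ := ⟨sζ, tζ⟩
  have hbS : b ∈ fix2 σ τ := ⟨hb, hb'⟩
  have w1 : σ (s - b * s⁻¹) = ζ * s - ζ ^ 4 * b * s⁻¹ := by
    rw [map_sub, map_mul, map_inv₀, G.ss, hb, mul_inv, zi]
    ring
  have w2 : σ (σ (s - b * s⁻¹)) = ζ ^ 2 * s - ζ ^ 3 * b * s⁻¹ := by
    rw [w1, map_sub, map_mul, map_mul, map_mul, map_inv₀, map_pow, G.ss, hb, mul_inv, zi, sζ]
    linear_combination (- ζ ^ 3 * b * s⁻¹) * z5
  have w3 : σ (σ (σ (s - b * s⁻¹))) = ζ ^ 3 * s - ζ ^ 2 * b * s⁻¹ := by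
    rw [w2, map_sub, map_mul, map_mul, map_mul, map_inv₀, map_pow, map_pow, G.ss, hb, mul_inv,
      zi, sζ]
    linear_combination (- ζ ^ 2 * b * s⁻¹) * z5
  have w4 : σ (σ (σ (σ (s - b * s⁻¹)))) = ζ ^ 4 * s - ζ * b * s⁻¹ := by
    rw [w3, map_sub, map_mul, map_mul, map_mul, map_inv₀, map_pow, map_pow, G.ss, hb, mul_inv,
      zi, sζ]
    linear_combination (- ζ * b * s⁻¹) * z5
  have ss1 : s * s⁻¹ = 1 := mul_inv_cancel₀ s0
  -- `s w = s² - b` and its conjugates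
  have hne : ∀ p q : K, σ p = p → σ q = q → (q ≠ 0 ∨ p ≠ 0) → p + q * s ^ 2 ≠ 0 := by
    intro p q hp hq h h'
    obtain ⟨h1, h2⟩ := B_ne G2 h5K hp hq h'
    rcases h with h | h
    · exact h h2
    · exact h h1
  have w0 : s - b * s⁻¹ ≠ 0 := by
    intro h
    refine hne (-b) 1 (by rw [map_neg, hb]) (map_one σ) (Or.inl one_ne_zero) ?_
    linear_combination s * h + b * ss1
  have wσ0 : σ (s - b * s⁻¹) ≠ 0 := (map_ne_zero_iff σ σ.injective).mpr w0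
  have wσσ0 : σ (σ (s - b * s⁻¹)) ≠ 0 := (map_ne_zero_iff σ σ.injective).mpr wσ0
  have hn0 : (s - b * s⁻¹) ^ 2 - σ (s - b * s⁻¹) * σ (σ (σ (σ (s - b * s⁻¹)))) =
      - (b * (3 + (ζ + ζ ^ 4))) := by
    rw [w4, w1]
    linear_combination (- 2 * b + b * ζ ^ 2 + b * ζ ^ 8) * ss1 +
      (b * ζ ^ 3 - s ^ 2 - b ^ 2 * s⁻¹ ^ 2) * z5 + b * hζ
  have h3 : (3 + (ζ + ζ ^ 4)) * (2 - (ζ + ζ ^ 4)) = 5 := by
    linear_combination (-1 : K) * hζ - (ζ ^ 3 + 2) * z5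
  have h3' : 3 + (ζ + ζ ^ 4) ≠ 0 := by
    intro h
    rw [h, zero_mul] at h3
    exact h5K h3.symm
  have hφS : ζ + ζ ^ 4 ∈ fix2 σ τ := add_mem hζS (pow_mem hζS 4)
  have hnS : - (b * (3 + (ζ + ζ ^ 4))) ∈ fix2 σ τ :=
    neg_mem (mul_mem hbS (add_mem (by exact_mod_cast natCast_mem (fix2 σ τ) 3) hφS))
  have hn1 : - (b * (3 + (ζ + ζ ^ 4))) ≠ 0 := neg_ne_zero.mpr (mul_ne_zero hb0 h3')
  have ν0 : ζ - ζ ^ 4 ≠ 0 := by
    intro h
    apply h3'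
    linear_combination (-(ζ - ζ ^ 4)) * h + hζ + (ζ ^ 3 - 2) * z5
  have hu : ∀ f ∈ fix2 σ τ, σ (s - b * s⁻¹) - σ (σ (σ (σ (s - b * s⁻¹)))) -
      f * δ * (s - b * s⁻¹) ≠ 0 := by
    intro f hf h
    have hf1 : σ f = f := hf.1
    rw [w4, w1] at h
    have hp : σ ((ζ - ζ ^ 4 + f * δ) * b) = (ζ - ζ ^ 4 + f * δ) * b := by
      rw [map_mul, map_add, map_sub, map_pow, map_mul, sζ, hs, hb, hf1]
    have hq : σ (ζ - ζ ^ 4 - f * δ) = ζ - ζ ^ 4 - f * δ := by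
      rw [map_sub, map_sub, map_pow, map_mul, sζ, hs, hf1]
    have h' : (ζ - ζ ^ 4 + f * δ) * b + (ζ - ζ ^ 4 - f * δ) * s ^ 2 = 0 := by
      linear_combination s * h - (b * (ζ - ζ ^ 4 + f * δ)) * ss1
    obtain ⟨e1, e2⟩ := B_ne G2 h5K hp hq h'
    have e3 : ζ - ζ ^ 4 + f * δ = 0 := (mul_eq_zero.mp e1).resolve_right hb0
    apply mul_ne_zero h2K ν0
    linear_combination e2 + e3
  have tw : τ (s - b * s⁻¹) = s - b * s⁻¹ := by
    rw [map_sub, map_mul, map_inv₀, G.ts, hb']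
  have hNS : (s - b * s⁻¹) * σ (s - b * s⁻¹) * σ (σ (s - b * s⁻¹)) *
      σ (σ (σ (s - b * s⁻¹))) * σ (σ (σ (σ (s - b * s⁻¹)))) ∈ fix2 σ τ := by
    refine ⟨?_, ?_⟩
    · change σ _ = _
      rw [map_mul, map_mul, map_mul, map_mul, D.s5]
      ring
    · change τ _ = _
      rw [map_mul, map_mul, map_mul, map_mul]
      simp only [← D.comm, tw]
  have hN0 : (s - b * s⁻¹) * σ (s - b * s⁻¹) * σ (σ (s - b * s⁻¹)) *
      σ (σ (σ (s - b * s⁻¹))) * σ (σ (σ (σ (s - b * s⁻¹)))) ≠ 0 := by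
    have a3 : σ (σ (σ (s - b * s⁻¹))) ≠ 0 := (map_ne_zero_iff σ σ.injective).mpr wσσ0
    have a4 : σ (σ (σ (σ (s - b * s⁻¹)))) ≠ 0 := (map_ne_zero_iff σ σ.injective).mpr a3
    exact mul_ne_zero (mul_ne_zero (mul_ne_zero (mul_ne_zero w0 wσ0) wσσ0) a3) a4
  have V := B_van D
  refine
    { st := D.st
      van := V
      s5 := D.s5
      sS := fun x hx => hx.1
      cs := D.cs
      hω := D.hω
      h2T := D.h2T
      h5T := D.h5T
      h2K := h2K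
      hφS := hφS
      hφ := by linear_combination hζ + (ζ ^ 3 + 2) * z5
      sδ := hs
      hδ2 := ⟨by change σ _ = _; rw [map_pow, hs], by change τ _ = _; rw [map_pow, ht]; ring⟩
      hδ := ?_
      w0 := w0
      hw := by rw [w4, w1]; ring
      hw1 := ?_
      hw2 := ?_
      hn := by rw [hn0]; exact hn1
      sn := by rw [hn0]; exact hnS.1
      hwn := by rw [hn0]; exact V _ w0 _ hnS hn1
      hu := hu
      hun := fun f hf => by rw [hn0]; exact V _ (hu f hf) _ hnS hn1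
      huN := fun f hf => V _ (hu f hf) _ hNS hN0 }
  · intro h
    have h1 : τ δ = δ := h.2
    rw [ht] at h1
    apply mul_ne_zero h2K h0
    linear_combination -h1
  · rw [← B_gg D G w0 wσ0]
    refine D.st.line V (s := s ^ 2) (p := -b) (q := 1) (r := - (ζ ^ 4 * b)) (t := ζ)
      (neg_mem hbS) (one_mem _) (neg_mem (mul_mem (pow_mem hζS 4) hbS)) hζS ?_ ?_
      (mul_ne_zero s0 w0) (mul_ne_zero s0 wσ0)
    · linear_combination (-b) * ss1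
    · rw [w1]
      linear_combination (-(ζ ^ 4 * b)) * ss1
  · rw [← B_gg D G w0 wσσ0]
    refine D.st.line V (s := s ^ 2) (p := -b) (q := 1) (r := - (ζ ^ 3 * b)) (t := ζ ^ 2)
      (neg_mem hbS) (one_mem _) (neg_mem (mul_mem (pow_mem hζS 3) hbS)) (pow_mem hζS 2) ?_ ?_
      (mul_ne_zero s0 w0) (mul_ne_zero s0 wσσ0)
    · linear_combination (-b) * ss1
    · rw [w2]
      linear_combination (-(ζ ^ 3 * b)) * ss1

/-- **the linear block, squares**: `c(s² - b, L*) = 0`, `b ∈ F` -/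
theorem lin_sq (h2K : (2 : K) ≠ 0) (h5K : (5 : K) ≠ 0) {ζ s : K} (G : Gen σ τ ζ s) {b y : K}
    (hb : σ b = b) (hb' : τ b = b) (hy : σ y = y) (hy0 : y ≠ 0) : c (s ^ 2 - b) y = 0 := by
  have s0 := G.s0
  have hne : s ^ 2 - b ≠ 0 := by
    intro h
    apply G.sq.not_fixed h5K
    rw [sub_eq_zero.mp h, hb]
  by_cases hty : τ y = y
  · exact D.van _ hne y hy hty hy0
  by_cases hb0 : b = 0
  · rw [hb0, sub_zero]
    exact gen D G.sq hy0
  -- `y = p + q δ`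
  have hsδ : σ (y - τ y) = y - τ y := by
    rw [map_sub, D.comm, hy]
  have htδ : τ (y - τ y) = -(y - τ y) := by
    rw [map_sub, D.tt]
    ring
  have hδ0 : y - τ y ≠ 0 := sub_ne_zero.mpr (Ne.symm hty)
  have E := B_edat D h2K h5K G hb hb' hb0 hsδ htδ hδ0
  have h2S : (2 : K)⁻¹ ∈ fix2 σ τ :=
    inv_mem (by exact_mod_cast natCast_mem (fix2 σ τ) 2)
  have hpS : (2 : K)⁻¹ * (y + τ y) ∈ fix2 σ τ := by
    refine mul_mem h2S ⟨?_, ?_⟩
    · change σ _ = _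
      rw [map_add, D.comm, hy]
    · change τ _ = _
      rw [map_add, D.tt]
      ring
  have e : y = (2 : K)⁻¹ * (y + τ y) + (2 : K)⁻¹ * (y - τ y) := by
    field_simp
    ring
  have h := E.main hpS h2S (by rw [← e]; exact hy0)
  rw [← e] at h
  have e2 : s ^ 2 - b = s * (s - b * s⁻¹) := by
    field_simp
  rw [e2, D.st.mul_left _ _ _ s0 E.w0 hy0, gen D G hy0, h, zero_add]

/-- **the linear block**: `c(s - b, L*) = 0`, `b ∈ F` -/
theorem lin (h2K : (2 : K) ≠ 0) (h5K : (5 : K) ≠ 0) {ζ s : K} (G : Gen σ τ ζ s) {b y : K}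
    (hb : σ b = b) (hb' : τ b = b) (hy : σ y = y) (hy0 : y ≠ 0) : c (s - b) y = 0 := by
  have s0 := G.s0
  have hne : s - b ≠ 0 := by
    intro h
    apply G.not_fixed h5K
    rw [sub_eq_zero.mp h, hb]
  have h5 := B_s5 G
  have h5' := B_t5 G
  have h := lin_sq D h2K h5K G.cube (b := s ^ 5 * b) (y := y) (by rw [map_mul, h5, hb])
    (by rw [map_mul, h5', hb']) hy hy0
  have e : (s ^ 3) ^ 2 - s ^ 5 * b = s ^ 5 * (s - b) := by ring
  rw [e, D.st.mul_left _ _ _ (pow_ne_zero 5 s0) hne hy0,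
    B_vanl D h5 h5' (pow_ne_zero 5 s0) hy0, zero_add] at h
  exact h

end Dat

end Pool.Agent.MP_1b9aaa_al.Ten
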