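import Pool.Agent.Lib.MP_1b9aaa_al.TenA

/-!
# MP_1b9aaa_al, T_10: the other isotypic parts of a good symbol, `g^10 = 1`
-/

set_option autoImplicit false

namespace Pool.Agent.MP_1b9aaa_al.Ten

open IsSteinberg

variable {K : Type*} {T : Type*} [Field K] [AddCommGroup T] {g : K ≃+* K} {c : K → K → T}

/-- the automorphism of the fixed field of `τ` induced by an automorphism which commutes with `τ` -/
private def d0Res (τ ρ : K ≃+* K) (h : ∀ x, τ (ρ x) = ρ (τ x)) : fixS τ ≃+* fixS τ where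
  toFun x := ⟨ρ x, by
    have hx : τ (x : K) = x := x.2
    show τ (ρ (x : K)) = ρ (x : K)
    rw [h, hx]⟩
  invFun x := ⟨ρ.symm x, by
    have hx : τ (x : K) = x := x.2
    show τ (ρ.symm (x : K)) = ρ.symm (x : K)
    apply ρ.injective
    rw [← h, ρ.apply_symm_apply, hx]⟩
  left_inv x := Subtype.ext (ρ.symm_apply_apply _)
  right_inv x := Subtype.ext (ρ.apply_symm_apply _)
  map_mul' x y := Subtype.ext (map_mul ρ _ _)
  map_add' x y := Subtype.ext (map_add ρ _ _)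

/-- a sum of two Steinberg symbols -/
private theorem d0Add {c d : K → K → T} (hc : IsSteinberg c) (hd : IsSteinberg d) :
    IsSteinberg fun x y => c x y + d x y := by
  refine ⟨fun a b x ha hb hx => ?_, fun x a b hx ha hb => ?_, fun a ha h1 => ?_⟩
  · simp only [hc.mul_left a b x ha hb hx, hd.mul_left a b x ha hb hx]
    abel
  · simp only [hc.mul_right x a b hx ha hb, hd.mul_right x a b hx ha hb]
    abel
  · simp only [hc.steinberg a ha h1, hd.steinberg a ha h1, add_zero]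

/-- `c (x, y) + c (τ x, τ y) = 0` for `τ = g^5` -/
theorem plus (hc : Good g c) (h10 : ∀ x, g^[10] x = x) (h2T : ∀ v : T, v + v = 0 → v = 0)
    {i : K} (gi : g i = i) (hi : i * i = -1) {x y : K} (hx : x ≠ 0) (hy : y ≠ 0) :
    c x y + c (g^[5] x) (g^[5] y) = 0 := by
  have h10' : ∀ x, g (g (g (g (g (g (g (g (g (g x))))))))) = x := h10
  obtain ⟨τ, hτ⟩ : ∃ τ : K ≃+* K, ∀ x, τ x = g (g (g (g (g x)))) :=
    ⟨(((g.trans g).trans g).trans g).trans g, fun x => rfl⟩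
  obtain ⟨ρ, hρ⟩ : ∃ ρ : K ≃+* K, ∀ x, ρ x = g (g x) := ⟨g.trans g, fun x => rfl⟩
  have hcomm : ∀ x, τ (ρ x) = ρ (τ x) := fun x => by rw [hτ, hρ, hρ, hτ]
  have hττ : ∀ x, τ (τ x) = x := fun x => by rw [hτ, hτ, h10']
  -- the symbol is zero on the fixed field of `τ`
  have hMM : ∀ m n : K, τ m = m → τ n = n → m ≠ 0 → n ≠ 0 → c m n = 0 := by
    intro m n hm hn hm0 hn0
    set c' : fixS τ → fixS τ → T := fun x y => c x y with hc'
    have n0 : ∀ {z : fixS τ}, z ≠ 0 → (z : K) ≠ 0 := fun {z} hz h => hz (Subtype.ext h)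
    have hG : Good (d0Res τ ρ hcomm) c' := by
      refine ⟨⟨?_, ?_, ?_⟩, ?_⟩
      · intro a b x ha hb hx
        exact hc.st.mul_left _ _ _ (n0 ha) (n0 hb) (n0 hx)
      · intro x a b hx ha hb
        exact hc.st.mul_right _ _ _ (n0 hx) (n0 ha) (n0 hb)
      · intro a ha h1
        exact hc.st.steinberg _ (n0 ha) (fun h => h1 (Subtype.ext h))
      · intro x hx f hf hf0
        refine hc.van _ (n0 hx) _ ?_ (n0 hf0)
        show g (f : K) = f
        have e1 : g (g (f : K)) = f := by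
          rw [← hρ]
          exact congrArg Subtype.val (show d0Res τ ρ hcomm f = f from hf)
        have e2 : g (g (g (g (g (f : K))))) = f := by
          rw [← hτ]
          exact f.2
        rw [e1, e1] at e2
        exact e2
    have h5 : ∀ x, (d0Res τ ρ hcomm) (d0Res τ ρ hcomm (d0Res τ ρ hcomm (d0Res τ ρ hcomm
        (d0Res τ ρ hcomm x)))) = x := by
      intro x
      apply Subtype.ext
      show ρ (ρ (ρ (ρ (ρ (x : K))))) = x
      simp only [hρ, h10']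
    have hs : IsSumSq (-1 : fixS τ) := by
      have hiM : τ i = i := by rw [hτ, gi, gi, gi, gi, gi]
      have e : (-1 : fixS τ) = ⟨i, hiM⟩ * ⟨i, hiM⟩ := by
        apply Subtype.ext
        show (-1 : K) = i * i
        exact hi.symm
      rw [e]
      exact IsSumSq.mul_self _
    exact hG.eq_zero5 h5 h2T hs (y := ⟨m, hm⟩) (z := ⟨n, hn⟩)
      (fun h => hm0 (congrArg Subtype.val h)) (fun h => hn0 (congrArg Subtype.val h))
  set C : K → K → T := fun x y => c x y + tw τ c x y with hC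
  have hCs : IsSteinberg C := d0Add hc.st (hc.st.tw τ)
  have hCv : VanOn C (fixS τ) := by
    intro x hx f hf hf0
    have e1 : τ f = f := hf
    have hτx : τ x ≠ 0 := (map_ne_zero_iff τ τ.injective).mpr hx
    show c x f + c (τ x) (τ f) = 0
    rw [e1, ← hc.st.mul_left x (τ x) f hx hτx hf0]
    refine hMM _ _ ?_ e1 (mul_ne_zero hx hτx) hf0
    rw [map_mul, hττ, mul_comm]
  have key : C x y = 0 := by
    by_cases h : τ x = x
    · exact hCs.van_left hCv h hx hy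
    · obtain ⟨p, q, hp, hq, e⟩ := coords τ (s := x) (m := y) (hττ x) (hττ y) h
      exact hCs.line hCv (s := x) (p := 0) (q := 1) (r := p) (t := q)
        (zero_mem _) (one_mem _) hp hq (by ring) e hx hy
  have e1 : g^[5] x = τ x := (hτ x).symm
  have e2 : g^[5] y = τ y := (hτ y).symm
  rw [e1, e2]
  exact key

/-- `Σ_j c (σ^j x, σ^j y) = 0` for `σ = g²` -/
theorem norm5 (hc : Good g c) (h10 : ∀ x, g^[10] x = x) (h2T : ∀ v : T, v + v = 0 → v = 0)
    (h5T : ∀ v : T, v + v + v + v + v = 0 → v = 0)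
    {i : K} (gi : g i = i) (hi : i * i = -1) {x y : K} (hx : x ≠ 0) (hy : y ≠ 0) :
    c x y + c (g^[2] x) (g^[2] y) + c (g^[4] x) (g^[4] y) + c (g^[6] x) (g^[6] y) +
      c (g^[8] x) (g^[8] y) = 0 := by
  have h10' : ∀ x, g (g (g (g (g (g (g (g (g (g x))))))))) = x := h10
  obtain ⟨ρ, hρ⟩ : ∃ ρ : K ≃+* K, ∀ x, ρ x = g (g x) := ⟨g.trans g, fun x => rfl⟩
  have h5 : ∀ x, ρ (ρ (ρ (ρ (ρ x)))) = x := fun x => by simp only [hρ, h10']
  have r0 : ∀ {z : K}, z ≠ 0 → ρ z ≠ 0 := fun hz => (map_ne_zero_iff ρ ρ.injective).mpr hz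
  set C : K → K → T := fun x y => c x y + tw ρ c x y + tw ρ (tw ρ c) x y +
    tw ρ (tw ρ (tw ρ c)) x y + tw ρ (tw ρ (tw ρ (tw ρ c))) x y with hC
  have hCs : IsSteinberg C :=
    d0Add (d0Add (d0Add (d0Add hc.st (hc.st.tw ρ)) ((hc.st.tw ρ).tw ρ))
      (((hc.st.tw ρ).tw ρ).tw ρ)) ((((hc.st.tw ρ).tw ρ).tw ρ).tw ρ)
  have hCv : VanOn C (fixS ρ) := by
    intro x hx f hf hf0
    have e1 : ρ f = f := hf
    show c x f + c (ρ x) (ρ f) + c (ρ (ρ x)) (ρ (ρ f)) + c (ρ (ρ (ρ x))) (ρ (ρ (ρ f))) +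
      c (ρ (ρ (ρ (ρ x)))) (ρ (ρ (ρ (ρ f)))) = 0
    rw [e1, e1, e1, e1]
    have h1 := r0 hx
    have h2 := r0 h1
    have h3 := r0 h2
    have h4 := r0 h3
    rw [← hc.st.mul_left _ _ f hx h1 hf0, ← hc.st.mul_left _ _ f (mul_ne_zero hx h1) h2 hf0,
      ← hc.st.mul_left _ _ f (mul_ne_zero (mul_ne_zero hx h1) h2) h3 hf0,
      ← hc.st.mul_left _ _ f (mul_ne_zero (mul_ne_zero (mul_ne_zero hx h1) h2) h3) h4 hf0]
    refine hc.MM ?_ ?_ (mul_ne_zero (mul_ne_zero (mul_ne_zero (mul_ne_zero hx h1) h2) h3) h4) hf0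
    · rw [← hρ]
      simp only [map_mul, h5]
      ring
    · rw [← hρ]
      exact e1
  have hG : Good ρ C := ⟨hCs, hCv⟩
  have hs : IsSumSq (-1 : K) := by
    rw [← hi]
    exact IsSumSq.mul_self _
  have key := hG.eq_zero5 h5 h2T hs hx hy
  have e2 : ∀ z, g^[2] z = ρ z := fun z => (hρ z).symm
  have e4 : ∀ z, g^[4] z = ρ (ρ z) := fun z => by rw [hρ, hρ]; rfl
  have e6 : ∀ z, g^[6] z = ρ (ρ (ρ z)) := fun z => by rw [hρ, hρ, hρ]; rfl
  have e8 : ∀ z, g^[8] z = ρ (ρ (ρ (ρ z))) := fun z => by rw [hρ, hρ, hρ, hρ]; rfl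
  rw [e2, e2, e4, e4, e6, e6, e8, e8]
  exact key

end Pool.Agent.MP_1b9aaa_al.Ten
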