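import Pool.Agent.Lib.MP_1b9aaa_al.TenA
import Pool.Agent.Lib.MP_1b9aaa_al.T5Q

/-!
# MP_1b9aaa_al, T_10: `1/2` and `1/5` are in the ring generated by the elements of norm one, if
`ζ₅ ∈ F` and `L = F(√-m)`, `m = 11 mod 20`
-/

set_option autoImplicit false

namespace Pool.Agent.MP_1b9aaa_al.Ten

section

variable {E : Type*} [Field E] {O : ValuationSubring E}

private lemma nu_add {x y : E} (hx : x ∈ O.nonunits) (hy : y ∈ O.nonunits) :
    x + y ∈ O.nonunits := by
  rw [ValuationSubring.mem_nonunits_iff] at *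
  exact lt_of_le_of_lt (O.valuation.map_add x y) (max_lt hx hy)

private lemma nu_neg {x : E} (hx : x ∈ O.nonunits) : -x ∈ O.nonunits := by
  rw [ValuationSubring.mem_nonunits_iff] at *
  rwa [Valuation.map_neg]

private lemma nu_sub {x y : E} (hx : x ∈ O.nonunits) (hy : y ∈ O.nonunits) :
    x - y ∈ O.nonunits := by
  rw [sub_eq_add_neg]; exact nu_add hx (nu_neg hy)

private lemma nu_mul {x y : E} (hx : x ∈ O) (hy : y ∈ O.nonunits) : x * y ∈ O.nonunits := by
  rw [ValuationSubring.mem_nonunits_iff] at *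
  rw [map_mul]
  calc O.valuation x * O.valuation y ≤ 1 * O.valuation y := by
        gcongr
        exact (O.valuation_le_one_iff x).mpr hx
    _ = O.valuation y := one_mul _
    _ < 1 := hy

private lemma nu_prime {x y : E} (h : x * y ∈ O.nonunits) : x ∈ O.nonunits ∨ y ∈ O.nonunits := by
  by_contra hcon
  push Not at hcon
  rw [ValuationSubring.mem_nonunits_iff] at *
  simp only [ValuationSubring.mem_nonunits_iff, not_lt] at hcon
  rw [map_mul] at h
  have h1 : (1 : O.ValueGroup) ≤ O.valuation x * O.valuation y := by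
    calc (1 : O.ValueGroup) = 1 * 1 := (one_mul 1).symm
      _ ≤ O.valuation x * O.valuation y := mul_le_mul' hcon.1 hcon.2
  exact absurd h (not_lt.mpr h1)

private lemma nu_one : (1 : E) ∉ O.nonunits := by
  rw [ValuationSubring.mem_nonunits_iff, map_one]
  exact lt_irrefl _

private lemma nat_O (n : ℕ) : (n : E) ∈ O := natCast_mem O n

private lemma sq_O {x a : E} (ha : a ∈ O) (h : x * x = a) : x ∈ O := by
  rw [← ValuationSubring.valuation_le_one_iff] at *
  by_contra hx
  rw [not_le] at hx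
  have h1 : 1 < O.valuation (x * x) := by
    rw [map_mul]
    exact one_lt_mul'' hx hx
  rw [h] at h1
  exact absurd ha (not_le.mpr h1)

variable {t : E ≃+* E}

private lemma nu_t (tt : ∀ x, t (t x) = x) (hO : ∀ x ∈ NR t, x ∈ O) {x : E}
    (hx : x ∈ O.nonunits) : t x ∈ O.nonunits := by
  by_cases h0 : x = 0
  · rw [h0, map_zero, ← h0]; exact hx
  · have h1 : t x ≠ 0 := (map_ne_zero t).mpr h0
    have h2 : t x / x ∈ O := hO _ (Subring.subset_closure (by
      show t x / x * t (t x / x) = 1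
      rw [map_div₀, tt]; field_simp))
    have h3 : t x = t x / x * x := by field_simp
    rw [h3]
    exact nu_mul h2 hx

end

theorem inv_five'' {E : Type*} [Field E] {t : E ≃+* E} (tt : ∀ x, t (t x) = x) {m : ℕ}
    (hm : m % 20 = 11) {r : E} (hr : r ^ 2 = -(m : E)) (tr : t r = -r) : (5 : E)⁻¹ ∈ NR t := by
  refine T5Q.inv_mem (by exact_mod_cast natCast_mem (NR t) 5) fun O hO h5 => ?_
  obtain ⟨q, hq⟩ : ∃ q : ℕ, m = 5 * q + 1 := ⟨m / 5, by omega⟩
  -- `(r - 2)(r + 2) = - m - 4`
  have h1 : (r - 2) * (r + 2) ∈ O.nonunits := by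
    have e : (r - 2) * (r + 2) = -(((q + 1 : ℕ) : E) * 5) := by
      rw [hq] at hr
      push_cast at hr ⊢
      linear_combination hr
    rw [e]
    exact nu_neg (nu_mul (nat_O _) h5)
  have h2E : t (2 : E) = 2 := map_ofNat t 2
  have h4 : (4 : E) ∈ O.nonunits := by
    rcases nu_prime h1 with h | h
    · have h' := nu_t tt hO h
      rw [map_sub, tr, h2E] at h'
      have e : (4 : E) = -((r - 2) + (-r - 2)) := by ring
      rw [e]; exact nu_neg (nu_add h h')
    · have h' := nu_t tt hO h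
      rw [map_add, tr, h2E] at h'
      have e : (4 : E) = (r + 2) + (-r + 2) := by ring
      rw [e]; exact nu_add h h'
  apply nu_one (O := O)
  have e : (1 : E) = 5 - 4 := by norm_num
  rw [e]; exact nu_sub h5 h4

theorem inv_two'' {E : Type*} [Field E] {t : E ≃+* E} (tt : ∀ x, t (t x) = x)
    (h2 : (2 : E) ≠ 0) {m : ℕ} (hm : m % 20 = 11) {r φ : E} (hr : r ^ 2 = -(m : E))
    (tr : t r = -r) (hφ : φ ^ 2 = 1 - φ) (tφ : t φ = φ) : (2 : E)⁻¹ ∈ NR t := by
  refine T5Q.inv_mem (by exact_mod_cast natCast_mem (NR t) 2) fun O hO h2' => ?_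
  obtain ⟨q, hq⟩ : ∃ q : ℕ, m = 4 * q + 3 := ⟨m / 4, by omega⟩
  obtain ⟨θ, hθ⟩ : ∃ θ : E, θ = (-1 + r) / 2 := ⟨_, rfl⟩
  have hrθ : r = 2 * θ + 1 := by rw [hθ]; field_simp; ring
  have htθ : t θ = -1 - θ := by
    rw [hθ, map_div₀, map_add, map_neg, map_one, tr, map_ofNat]
    field_simp; ring
  have h4 : (4 : E) ≠ 0 := by
    have : (4 : E) = 2 * 2 := by norm_num
    rw [this]; exact mul_ne_zero h2 h2
  have hθ2 : θ * θ + θ + ((q + 1 : ℕ) : E) = 0 := by
    rw [hq, hrθ] at hr
    push_cast at hr ⊢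
    have : (4 : E) * (θ * θ + θ + (q + 1)) = 0 := by linear_combination hr
    exact (mul_eq_zero.mp this).resolve_left h4
  have hθO : θ ∈ O := by
    rcases O.mem_or_inv_mem θ with h | h
    · exact h
    · by_contra hn
      have h0 : θ ≠ 0 := by
        rintro rfl
        exact hn O.zero_mem
      apply hn
      have e : θ = -1 - ((q + 1 : ℕ) : E) * θ⁻¹ := by
        field_simp
        linear_combination hθ2
      rw [e]
      exact sub_mem (neg_mem O.one_mem) (mul_mem (nat_O _) h)
  -- the two cases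
  have key : ∀ ψ : E, t ψ = ψ → θ - ψ ∈ O.nonunits → False := by
    intro ψ tψ h
    have h' := nu_t tt hO h
    rw [map_sub, htθ, tψ] at h'
    apply nu_one (O := O)
    have e : (1 : E) = ((θ - ψ) - (-1 - θ - ψ)) - θ * 2 := by ring
    rw [e]
    exact nu_sub (nu_sub h h') (nu_mul hθO h2')
  have t1 : t (-1 : E) = -1 := by rw [map_neg, map_one]
  rcases Nat.even_or_odd (q + 1) with ⟨j, hj⟩ | ⟨j, hj⟩
  · have h1 : θ * (θ + 1) ∈ O.nonunits := by
      have e : θ * (θ + 1) = -((j : E) * 2) := by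
        have : ((q + 1 : ℕ) : E) = (j : E) * 2 := by rw [hj]; push_cast; ring
        linear_combination hθ2 - this
      rw [e]; exact nu_neg (nu_mul (nat_O _) h2')
    rcases nu_prime h1 with h | h
    · exact key 0 (map_zero t) (by rwa [sub_zero])
    · exact key (-1) t1 (by rwa [sub_neg_eq_add])
  · have h1 : (θ - φ) * (θ + φ + 1) ∈ O.nonunits := by
      have e : (θ - φ) * (θ + φ + 1) = -(((j + 1 : ℕ) : E) * 2) := by
        have : ((q + 1 : ℕ) : E) = 2 * (j : E) + 1 := by rw [hj]; push_cast; ring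
        push_cast
        linear_combination hθ2 - this - hφ
      rw [e]; exact nu_neg (nu_mul (nat_O _) h2')
    rcases nu_prime h1 with h | h
    · exact key φ tφ h
    · refine key (-φ - 1) (by rw [map_sub, map_neg, tφ, map_one]) ?_
      have e : θ - (-φ - 1) = θ + φ + 1 := by ring
      rw [e]; exact h

end Pool.Agent.MP_1b9aaa_al.Ten
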