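import Pool.Agent.Lib.MP_1b9aaa_al.TenM
import Pool.Agent.Lib.MP_1b9aaa_al.TenD0
import Pool.Agent.Lib.MP_1b9aaa_al.TenU3

/-!
# MP_1b9aaa_al, T_10: decomposition of a good symbol, `g^10 = 1`
-/

set_option autoImplicit false

namespace Pool.Agent.MP_1b9aaa_al.Ten

open IsSteinberg

variable {K : Type*} {T : Type*} [Field K] [AddCommGroup T] {g : K ≃+* K} {c : K → K → T}

/-- the quintuples of sum zero -/
private def dSum (T : Type*) [AddCommGroup T] : AddSubgroup (Fin 5 → T) where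
  carrier := {v | v 0 + v 1 + v 2 + v 3 + v 4 = 0}
  zero_mem' := by simp
  add_mem' {a b} ha hb := by
    have ha' : a 0 + a 1 + a 2 + a 3 + a 4 = 0 := ha
    have hb' : b 0 + b 1 + b 2 + b 3 + b 4 = 0 := hb
    show (a + b) 0 + (a + b) 1 + (a + b) 2 + (a + b) 3 + (a + b) 4 = 0
    simp only [Pi.add_apply]
    calc a 0 + b 0 + (a 1 + b 1) + (a 2 + b 2) + (a 3 + b 3) + (a 4 + b 4)
        = (a 0 + a 1 + a 2 + a 3 + a 4) + (b 0 + b 1 + b 2 + b 3 + b 4) := by abel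
      _ = 0 := by rw [ha', hb', add_zero]
  neg_mem' {a} ha := by
    have ha' : a 0 + a 1 + a 2 + a 3 + a 4 = 0 := ha
    show (-a) 0 + (-a) 1 + (-a) 2 + (-a) 3 + (-a) 4 = 0
    simp only [Pi.neg_apply]
    calc -a 0 + -a 1 + -a 2 + -a 3 + -a 4 = -(a 0 + a 1 + a 2 + a 3 + a 4) := by abel
      _ = 0 := by rw [ha', neg_zero]

/-- the cyclic shift -/
private def dShift (T : Type*) [AddCommGroup T] : dSum T →+ dSum T where
  toFun v := ⟨fun j => v.1 (j + 1), by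
    have h : v.1 0 + v.1 1 + v.1 2 + v.1 3 + v.1 4 = 0 := v.2
    show v.1 (0 + 1) + v.1 (1 + 1) + v.1 (2 + 1) + v.1 (3 + 1) + v.1 (4 + 1) = 0
    have e0 : (0 + 1 : Fin 5) = 1 := rfl
    have e1 : (1 + 1 : Fin 5) = 2 := rfl
    have e2 : (2 + 1 : Fin 5) = 3 := rfl
    have e3 : (3 + 1 : Fin 5) = 4 := rfl
    have e4 : (4 + 1 : Fin 5) = 0 := rfl
    rw [e0, e1, e2, e3, e4, ← h]
    abel⟩
  map_zero' := rfl
  map_add' _ _ := rfl

private theorem dShift_apply (v : dSum T) (j : Fin 5) : (dShift T v).1 j = v.1 (j + 1) := rfl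

private theorem dShift_sum (v : dSum T) :
    v + dShift T v + dShift T (dShift T v) + dShift T (dShift T (dShift T v)) +
      dShift T (dShift T (dShift T (dShift T v))) = 0 := by
  have h : v.1 0 + v.1 1 + v.1 2 + v.1 3 + v.1 4 = 0 := v.2
  apply Subtype.ext
  funext j
  show v.1 j + v.1 (j + 1) + v.1 (j + 1 + 1) + v.1 (j + 1 + 1 + 1) + v.1 (j + 1 + 1 + 1 + 1) = 0
  rw [← h]
  fin_cases j
  · rfl
  · show v.1 1 + v.1 2 + v.1 3 + v.1 4 + v.1 0 = v.1 0 + v.1 1 + v.1 2 + v.1 3 + v.1 4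
    abel
  · show v.1 2 + v.1 3 + v.1 4 + v.1 0 + v.1 1 = v.1 0 + v.1 1 + v.1 2 + v.1 3 + v.1 4
    abel
  · show v.1 3 + v.1 4 + v.1 0 + v.1 1 + v.1 2 = v.1 0 + v.1 1 + v.1 2 + v.1 3 + v.1 4
    abel
  · show v.1 4 + v.1 0 + v.1 1 + v.1 2 + v.1 3 = v.1 0 + v.1 1 + v.1 2 + v.1 3 + v.1 4
    abel

/-- **T_10** for `g` with `g^10 = 1` (`r = √-m`, `m = 11` mod 20, `g r = -r`; `ζ`, `i` roots of
unity of order 5, 4, fixed by `g`) -/
theorem eq_zero_ten (hc : Good g c) (h10 : ∀ x, g^[10] x = x)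
    (h2T : ∀ v : T, v + v = 0 → v = 0) (h5T : ∀ v : T, v + v + v + v + v = 0 → v = 0)
    (h2K : (2 : K) ≠ 0) (h5K : (5 : K) ≠ 0)
    {ζ i r : K} (hζ : ζ ^ 4 + ζ ^ 3 + ζ ^ 2 + ζ + 1 = 0) (gζ : g ζ = ζ)
    (hi : i * i = -1) (gi : g i = i) {m : ℕ} (hm : m % 20 = 11)
    (hr : r ^ 2 = -(m : K)) (gr : g r = -r) {x y : K} (hx : x ≠ 0) (hy : y ≠ 0) : c x y = 0 := by
  have h10' : ∀ x, g (g (g (g (g (g (g (g (g (g x))))))))) = x := h10
  obtain ⟨τ, hτ⟩ : ∃ τ : K ≃+* K, ∀ x, τ x = g (g (g (g (g x)))) :=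
    ⟨(((g.trans g).trans g).trans g).trans g, fun x => rfl⟩
  obtain ⟨σ, hσ⟩ : ∃ σ : K ≃+* K, ∀ x, σ x = g (g x) := ⟨g.trans g, fun x => rfl⟩
  have hcomm : ∀ x, σ (τ x) = τ (σ x) := fun x => by rw [hσ, hτ, hτ, hσ]
  have htt : ∀ x, τ (τ x) = x := fun x => by rw [hτ, hτ, h10']
  have h5 : ∀ x, σ (σ (σ (σ (σ x)))) = x := fun x => by simp only [hσ, h10']
  have s0 : ∀ {z : K}, z ≠ 0 → σ z ≠ 0 := fun hz => (map_ne_zero_iff σ σ.injective).mpr hz
  have t0 : ∀ {z : K}, z ≠ 0 → τ z ≠ 0 := fun hz => (map_ne_zero_iff τ τ.injective).mpr hz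
  -- iterates of `σ`
  have it : ∀ (j : ℕ) {z : K}, z ≠ 0 → σ^[j] z ≠ 0 := by
    intro j
    induction j with
    | zero => exact fun hz => hz
    | succ j ih =>
      intro z hz
      rw [Function.iterate_succ_apply']
      exact s0 (ih hz)
  have hsum : ∀ x y : K, x ≠ 0 → y ≠ 0 →
      c x y + c (σ x) (σ y) + c (σ (σ x)) (σ (σ y)) + c (σ (σ (σ x))) (σ (σ (σ y))) +
        c (σ (σ (σ (σ x)))) (σ (σ (σ (σ y)))) = 0 := by
    intro x y hx hy
    simp only [hσ]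
    exact norm5 hc h10 h2T h5T gi hi hx hy
  have hplus : ∀ x y : K, x ≠ 0 → y ≠ 0 → c (τ x) (τ y) = - c x y := by
    intro x y hx hy
    rw [hτ, hτ]
    exact (neg_eq_of_add_eq_zero_right (plus hc h10 h2T gi hi hx hy)).symm
  classical
  set C : K → K → dSum T := fun x y =>
    if h : x ≠ 0 ∧ y ≠ 0 then ⟨fun j => c (σ^[j] x) (σ^[j] y), hsum x y h.1 h.2⟩ else 0 with hC
  have hCv : ∀ {x y : K} (hx : x ≠ 0) (hy : y ≠ 0) (j : Fin 5),
      (C x y).1 j = c (σ^[j] x) (σ^[j] y) := by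
    intro x y hx hy j
    simp only [hC]
    rw [dif_pos ⟨hx, hy⟩]
  have hCst : IsSteinberg C := by
    refine ⟨fun a b x ha hb hx => ?_, fun x a b hx ha hb => ?_, fun a ha h1 => ?_⟩
    · apply Subtype.ext
      funext j
      show (C (a * b) x).1 j = (C a x).1 j + (C b x).1 j
      rw [hCv (mul_ne_zero ha hb) hx, hCv ha hx, hCv hb hx, iterate_map_mul]
      exact hc.st.mul_left _ _ _ (it _ ha) (it _ hb) (it _ hx)
    · apply Subtype.ext
      funext j
      show (C x (a * b)).1 j = (C x a).1 j + (C x b).1 j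
      rw [hCv hx (mul_ne_zero ha hb), hCv hx ha, hCv hx hb, iterate_map_mul]
      exact hc.st.mul_right _ _ _ (it _ hx) (it _ ha) (it _ hb)
    · apply Subtype.ext
      funext j
      show (C a (1 - a)).1 j = 0
      rw [hCv ha (sub_ne_zero.mpr (Ne.symm h1)), iterate_map_sub, iterate_map_one]
      refine hc.st.steinberg _ (it _ ha) ?_
      intro h
      apply h1
      have e : σ^[(j : ℕ)] a = σ^[(j : ℕ)] 1 := by rw [h, iterate_map_one]
      exact (σ.injective.iterate _) e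
  have D : Dat σ τ (dShift T) C := by
    refine ⟨hCst, ?_, h5, htt, hcomm, ?_, ?_, dShift_sum, ?_, ?_⟩
    · intro x hx f hf1 hf2 hf0
      have gf : g f = f := by
        have e1 : g (g f) = f := by rw [← hσ]; exact hf1
        have e2 : g (g (g (g (g f)))) = f := by rw [← hτ]; exact hf2
        rw [e1, e1] at e2
        exact e2
      apply Subtype.ext
      funext j
      show (C x f).1 j = 0
      rw [hCv hx hf0]
      have e : σ^[(j : ℕ)] f = f := Function.iterate_fixed hf1 _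
      rw [e]
      exact hc.van _ (it _ hx) _ gf hf0
    · intro x y hx hy
      apply Subtype.ext
      funext j
      show (C (σ x) (σ y)).1 j = (C x y).1 (j + 1)
      rw [hCv (s0 hx) (s0 hy), hCv hx hy]
      fin_cases j
      · rfl
      · rfl
      · rfl
      · rfl
      · show c (σ (σ (σ (σ (σ x))))) (σ (σ (σ (σ (σ y))))) = c x y
        rw [h5, h5]
    · intro x y hx hy
      apply Subtype.ext
      funext j
      show (C (τ x) (τ y)).1 j = - (C x y).1 j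
      rw [hCv (t0 hx) (t0 hy), hCv hx hy]
      have e : ∀ (n : ℕ) (z : K), σ^[n] (τ z) = τ (σ^[n] z) := by
        intro n
        induction n with
        | zero => exact fun z => rfl
        | succ n ih =>
          intro z
          rw [Function.iterate_succ_apply, Function.iterate_succ_apply, hcomm, ih]
      rw [e, e]
      exact hplus _ _ (it _ hx) (it _ hy)
    · intro v hv
      apply Subtype.ext
      funext j
      exact h2T _ (congrFun (congrArg Subtype.val hv) j)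
    · intro v hv
      apply Subtype.ext
      funext j
      exact h5T _ (congrFun (congrArg Subtype.val hv) j)
  -- the fields
  have fixσ : ∀ {z : K}, g z = z → σ z = z := fun hz => by rw [hσ, hz, hz]
  have fixτ : ∀ {z : K}, g z = z → τ z = z := fun hz => by rw [hτ, hz, hz, hz, hz, hz]
  have sr : σ r = r := by rw [hσ, gr, map_neg, gr, neg_neg]
  have tr : τ r = -r := by
    rw [hτ]
    simp only [gr, map_neg, neg_neg]
  have tt' : ∀ x, (tauL σ τ D.tt D.comm) ((tauL σ τ D.tt D.comm) x) = x :=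
    fun x => Subtype.ext (htt x)
  have h2E : (2 : fixS σ) ≠ 0 := fun h => h2K (congrArg Subtype.val h)
  have hrE : (⟨r, sr⟩ : fixS σ) ^ 2 = -(m : fixS σ) := Subtype.ext hr
  have trE : (tauL σ τ D.tt D.comm) (⟨r, sr⟩ : fixS σ) = -⟨r, sr⟩ := Subtype.ext tr
  have hφ : (ζ + ζ ^ 4) ^ 2 = 1 - (ζ + ζ ^ 4) := by
    linear_combination (ζ ^ 4 - ζ ^ 3 + 2 * ζ - 1) * hζ
  have gφ : g (ζ + ζ ^ 4) = ζ + ζ ^ 4 := by rw [map_add, map_pow, gζ]
  have hφE : (⟨ζ + ζ ^ 4, fixσ gφ⟩ : fixS σ) ^ 2 = 1 - ⟨ζ + ζ ^ 4, fixσ gφ⟩ := Subtype.ext hφ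
  have tφE : (tauL σ τ D.tt D.comm) (⟨ζ + ζ ^ 4, fixσ gφ⟩ : fixS σ) = ⟨ζ + ζ ^ 4, fixσ gφ⟩ :=
    Subtype.ext (fixτ gφ)
  have F : Fld σ τ D.tt D.comm i :=
    ⟨h2K, h5K, fixσ gi, fixτ gi, hi, inv_two'' tt' h2E hm hrE trE hφE tφE,
      inv_five'' tt' hm hrE trE⟩
  have key : C x y = 0 := D.main F hζ (fixσ gζ) (fixτ gζ) hx hy
  have e := hCv hx hy 0
  rw [key] at e
  exact e.symm

/-- the same for symbols killed by an integer prime to 10 -/
theorem eq_zero_of_ten (hc : Good g c) (h10 : ∀ x, g^[10] x = x) {n : ℕ}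
    (hn : Nat.Coprime 10 n) (hcn : ∀ u v, n • c u v = 0)
    (h2K : (2 : K) ≠ 0) (h5K : (5 : K) ≠ 0)
    {ζ i r : K} (hζ : ζ ^ 4 + ζ ^ 3 + ζ ^ 2 + ζ + 1 = 0) (gζ : g ζ = ζ)
    (hi : i * i = -1) (gi : g i = i) {m : ℕ} (hm : m % 20 = 11)
    (hr : r ^ 2 = -(m : K)) (gr : g r = -r) {x y : K} (hx : x ≠ 0) (hy : y ≠ 0) : c x y = 0 := by
  set S : AddSubgroup T := (nsmulAddMonoidHom (α := T) n).ker with hS
  set c' : K → K → S := fun u v => ⟨c u v, hcn u v⟩ with hc'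
  have hg : Good g c' := by
    refine ⟨⟨?_, ?_, ?_⟩, ?_⟩
    · intro a b x ha hb hx
      exact Subtype.ext (hc.st.mul_left a b x ha hb hx)
    · intro x a b hx ha hb
      exact Subtype.ext (hc.st.mul_right x a b hx ha hb)
    · intro a ha h1
      exact Subtype.ext (hc.st.steinberg a ha h1)
    · intro x hx f hf hf0
      exact Subtype.ext (hc.van x hx f hf hf0)
  have tors : ∀ (k : ℕ), Nat.Coprime k n → ∀ t : S, k • t = 0 → t = 0 := by
    rintro k hk ⟨t, ht⟩ h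
    apply Subtype.ext
    have h' : k • t = 0 := congrArg Subtype.val h
    have ht' : n • t = 0 := ht
    have h1 := addOrderOf_dvd_of_nsmul_eq_zero h'
    have h2 := addOrderOf_dvd_of_nsmul_eq_zero ht'
    have h3 : addOrderOf t = 1 := Nat.eq_one_of_dvd_coprimes hk h1 h2
    exact AddMonoid.addOrderOf_eq_one_iff.mp h3
  have h2 : ∀ t : S, t + t = 0 → t = 0 := by
    intro t ht
    exact tors 2 (Nat.Coprime.coprime_dvd_left ⟨5, rfl⟩ hn) t (by rw [two_nsmul]; exact ht)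
  have h5 : ∀ t : S, t + t + t + t + t = 0 → t = 0 := by
    intro t ht
    refine tors 5 (Nat.Coprime.coprime_dvd_left ⟨2, rfl⟩ hn) t ?_
    rw [succ_nsmul, succ_nsmul, succ_nsmul, two_nsmul]
    exact ht
  exact congrArg Subtype.val
    (eq_zero_ten hg h10 h2 h5 h2K h5K hζ gζ hi gi hm hr gr hx hy)

end Pool.Agent.MP_1b9aaa_al.Ten
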