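import Pool.Agent.Lib.MP_1b9aaa_al.TenA

/-!
# MP_1b9aaa_al, T_10: the first block (helper45), abstract form

`w` with `σ w + σ⁻¹ w = φ w`, `δ² ∈ S`.  Then `c(w, a + b δ) = 0` for `a, b ∈ S`.
-/

set_option autoImplicit false

namespace Pool.Agent.MP_1b9aaa_al.Ten

open IsSteinberg

/-- the data of the first block; `S` is a field (the ground field `F`) of elements fixed by `σ` -/
structure EDat {K T : Type*} [Field K] [AddCommGroup T] (S : Subfield K) (σ : K ≃+* K)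
    (ω : T →+ T) (c : K → K → T) (φ δ w : K) : Prop where
  st : IsSteinberg c
  van : VanOn c S
  s5 : ∀ x, σ (σ (σ (σ (σ x)))) = x
  sS : ∀ x ∈ S, σ x = x
  cs : ∀ x y, x ≠ 0 → y ≠ 0 → c (σ x) (σ y) = ω (c x y)
  hω : ∀ v, v + ω v + ω (ω v) + ω (ω (ω v)) + ω (ω (ω (ω v))) = 0
  h2T : ∀ v : T, v + v = 0 → v = 0
  h5T : ∀ v : T, v + v + v + v + v = 0 → v = 0
  h2K : (2 : K) ≠ 0
  hφS : φ ∈ S
  hφ : φ ^ 2 = 1 - φ
  sδ : σ δ = δ
  hδ2 : δ ^ 2 ∈ S
  hδ : δ ∉ S
  w0 : w ≠ 0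
  hw : σ w + σ (σ (σ (σ w))) = φ * w
  hw1 : c w (σ w) = 0
  hw2 : c w (σ (σ w)) = 0
  hn : w ^ 2 - σ w * σ (σ (σ (σ w))) ≠ 0
  sn : σ (w ^ 2 - σ w * σ (σ (σ (σ w)))) = w ^ 2 - σ w * σ (σ (σ (σ w)))
  hwn : c w (w ^ 2 - σ w * σ (σ (σ (σ w)))) = 0
  hu : ∀ f ∈ S, σ w - σ (σ (σ (σ w))) - f * δ * w ≠ 0
  hun : ∀ f ∈ S, c (σ w - σ (σ (σ (σ w))) - f * δ * w)
    (w ^ 2 - σ w * σ (σ (σ (σ w)))) = 0
  huN : ∀ f ∈ S, c (σ w - σ (σ (σ (σ w))) - f * δ * w)
    (w * σ w * σ (σ w) * σ (σ (σ w)) * σ (σ (σ (σ w)))) = 0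

/-! ### general facts -/

section gen

variable {K T : Type*} [Field K] [AddCommGroup T] {c : K → K → T} {S : Subfield K}

private lemma E_scl (hc : IsSteinberg c) (hS : VanOn c S) {k x y : K} (hk : k ∈ S) (hk0 : k ≠ 0)
    (hx : x ≠ 0) (hy : y ≠ 0) : c (k * x) y = c x y := by
  rw [hc.mul_left _ _ _ hk0 hx hy, hc.van_left hS hk hk0 hy, zero_add]

private lemma E_scr (hc : IsSteinberg c) (hS : VanOn c S) {k x y : K} (hk : k ∈ S) (hk0 : k ≠ 0)
    (hx : x ≠ 0) (hy : y ≠ 0) : c y (k * x) = c y x := by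
  rw [hc.mul_right _ _ _ hy hk0 hx, hS y hy k hk hk0, zero_add]

/-- `u = v + e` with `e ∈ S` -/
private lemma E_add (hc : IsSteinberg c) (hS : VanOn c S) {u v e : K} (hu : u ≠ 0) (hv : v ≠ 0)
    (he : e ∈ S) (h : u = v + e) : c u v = 0 :=
  hc.line hS (s := v) (p := e) (q := 1) (r := 0) (t := 1) he (one_mem _) (zero_mem _)
    (one_mem _) (by rw [h]; ring) (by ring) hu hv

/-- `u = A - B` -/
private lemma E_sub (hc : IsSteinberg c) (hS : VanOn c S) {u A B : K} (hu : u ≠ 0) (hA : A ≠ 0)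
    (hB : B ≠ 0) (h : u = A - B) : c A B = c A u - c B u := by
  have h1 := hc.three hS hA hu hB (show A = u + B by rw [h]; ring)
  rw [hc.skew hA hB, hc.skew hA hu, hc.skew hB hu]
  rw [hc.skew hu hB] at h1
  rw [hc.skew hB hu] at h1
  have h2 : c B A = c u A - c u B := by
    rw [neg_neg] at h1
    rw [h1]
    abel
  rw [h2]
  abel

end gen

variable {K T : Type*} [Field K] [AddCommGroup T] {S : Subfield K} {σ : K ≃+* K}
    {ω : T →+ T} {c : K → K → T} {φ δ w : K}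

private lemma E_fix (D : EDat S σ ω c φ δ w) {v : T} (h : ω v = v) : v = 0 := by
  have h1 := D.hω v
  rw [h, h, h, h] at h1
  exact D.h5T v h1

private lemma E_ω5 (D : EDat S σ ω c φ δ w) (v : T) : ω (ω (ω (ω (ω v)))) = v := by
  have h1 := D.hω v
  have h2 := D.hω (ω v)
  have h3 : ω (ω (ω (ω (ω v)))) - v = 0 := by
    calc ω (ω (ω (ω (ω v)))) - v = (ω v + ω (ω v) + ω (ω (ω v)) + ω (ω (ω (ω v))) +
          ω (ω (ω (ω (ω v))))) - (v + ω v + ω (ω v) + ω (ω (ω v)) + ω (ω (ω (ω v)))) := by abel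
      _ = 0 := by rw [h1, h2, sub_zero]
  exact sub_eq_zero.1 h3

private lemma E_φ0 (D : EDat S σ ω c φ δ w) : φ ≠ 0 := by
  intro h
  have := D.hφ
  rw [h] at this
  norm_num at this

private lemma E_δ0 (D : EDat S σ ω c φ δ w) : δ ≠ 0 := fun h => D.hδ (h ▸ zero_mem S)

/-- `c (x, f δ) = 0` -/
private lemma E_van (D : EDat S σ ω c φ δ w) {x f : K} (hx : x ≠ 0) (hf : f ∈ S) (hf0 : f ≠ 0) :
    c x (f * δ) = 0 := by
  have hδ0 := E_δ0 D
  rw [E_scr D.st D.van hf hf0 hδ0 hx]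
  apply D.h2T
  rw [← D.st.mul_right _ _ _ hx hδ0 hδ0, ← pow_two]
  exact D.van x hx _ D.hδ2 (pow_ne_zero 2 hδ0)

/-- `θ + f δ` is not zero for `θ ∈ S`, `θ ≠ 0` -/
private lemma E_ne (D : EDat S σ ω c φ δ w) {θ f : K} (hθ : θ ∈ S) (hθ0 : θ ≠ 0) (hf : f ∈ S) :
    θ + f * δ ≠ 0 := by
  intro h
  by_cases hf0 : f = 0
  · rw [hf0, zero_mul, add_zero] at h
    exact hθ0 h
  · apply D.hδ
    have e : δ = -θ / f := by
      field_simp
      linear_combination h
    rw [e]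
    exact div_mem (neg_mem hθ) hf

private lemma E_r1 (D : EDat S σ ω c φ δ w) : σ (σ w) = φ * σ w - w := by
  have h := congrArg σ D.hw
  rw [map_add, map_mul, D.s5, D.sS φ D.hφS] at h
  linear_combination h

private lemma E_r4 (D : EDat S σ ω c φ δ w) :
    σ (σ (σ w)) = φ * σ (σ (σ (σ w))) - w := by
  have h := congrArg (fun x => σ (σ (σ (σ x)))) D.hw
  simp only [map_add, map_mul, D.s5, D.sS φ D.hφS] at h
  linear_combination h

/-- the first relation -/
private lemma E_C1 (D : EDat S σ ω c φ δ w) {f : K} (hf : f ∈ S) :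
    c w (σ w - σ (σ (σ (σ w))) - f * δ * w) = 0 := by
  have hc := D.st
  have hS := D.van
  have h2S : (2 : K) ∈ S := by
    have : (2 : K) = 1 + 1 := by norm_num
    rw [this]
    exact add_mem (one_mem _) (one_mem _)
  have h4S : (4 : K) ∈ S := by
    have : (4 : K) = 2 * 2 := by norm_num
    rw [this]
    exact mul_mem h2S h2S
  have h20 := D.h2K
  have h40 : (4 : K) ≠ 0 := by
    have : (4 : K) = 2 * 2 := by norm_num
    rw [this]
    exact mul_ne_zero h20 h20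
  have hw0 := D.w0
  have hw10 : σ w ≠ 0 := (map_ne_zero_iff σ σ.injective).mpr hw0
  have hr1 := E_r1 D
  have hw4 : σ (σ (σ (σ w))) = φ * w - σ w := by linear_combination D.hw
  set n : K := w ^ 2 - σ w * σ (σ (σ (σ w))) with hn
  have hn0 : n ≠ 0 := D.hn
  have hsn : σ n = n := D.sn
  set u : K := σ w - σ (σ (σ (σ w))) - f * δ * w with hu
  have hu0 : u ≠ 0 := D.hu f hf
  set a : K := 2 * σ w / w with ha
  have haw : a * w = 2 * σ w := by rw [ha]; field_simp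
  have ha0 : a ≠ 0 := by
    rw [ha]
    exact div_ne_zero (mul_ne_zero h20 hw10) hw0
  have hσφ : σ φ = φ := D.sS φ D.hφS
  have hσf : σ f = f := D.sS f hf
  have hσa : σ a = 2 * φ - 4 / a := by
    have e2 : σ (2 : K) = 2 := map_ofNat σ 2
    have e : σ a = 2 * σ (σ w) / σ w := by
      rw [ha, map_div₀, map_mul, e2]
    rw [e, hr1, ha]
    field_simp
    ring
  set b : K := a - φ - f * δ with hb
  have hbw : b * w = u := by
    rw [hb, hu, hw4, sub_mul, sub_mul, haw]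
    ring
  have hb0 : b ≠ 0 := by
    intro h
    apply hu0
    rw [← hbw, h, zero_mul]
  set q : K := a ^ 2 - 2 * φ * a + 4 with hq
  have hqw : q * (w * w) = 4 * n := by
    have e : q * (w * w) = (a * w) ^ 2 - 2 * φ * w * (a * w) + 4 * w ^ 2 := by rw [hq]; ring
    rw [e, haw, hn, hw4]
    ring
  have hq0 : q ≠ 0 := by
    intro h
    rw [h, zero_mul] at hqw
    exact mul_ne_zero h40 hn0 hqw.symm
  set E : K := a * (φ - f * δ) - 4 with hE
  have hσb : σ b * a = E := by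
    rw [hb, map_sub, map_sub, map_mul, hσa, hσφ, hσf, D.sδ, hE]
    field_simp
    ring
  have hσb0 : σ b ≠ 0 := (map_ne_zero_iff σ σ.injective).mpr hb0
  have hE0 : E ≠ 0 := by
    rw [← hσb]
    exact mul_ne_zero hσb0 ha0
  have hσq : σ q * (a * a) = 4 * q := by
    have e2 : σ (2 : K) = 2 := map_ofNat σ 2
    have e4 : σ (4 : K) = 4 := map_ofNat σ 4
    rw [hq, map_add, map_sub, map_pow, map_mul, map_mul, hσa, hσφ, e2, e4]
    field_simp
    ring
  have hσq0 : σ q ≠ 0 := (map_ne_zero_iff σ σ.injective).mpr hq0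
  have hκ : φ - f * δ ≠ 0 := by
    have := E_ne D D.hφS (E_φ0 D) (neg_mem hf)
    intro h
    apply this
    linear_combination h
  -- symbols of `n`
  have hnw : c n w = 0 := by rw [hc.skew hn0 hw0, D.hwn, neg_zero]
  have hnw1 : c n (σ w) = 0 := by
    have := D.cs n w hn0 hw0
    rw [hsn, hnw, map_zero] at this
    exact this
  have hna : c n a = 0 := by
    have h := hc.mul_right n a w hn0 ha0 hw0
    rw [haw, E_scr hc hS h2S h20 hw10 hn0, hnw, hnw1, add_zero] at h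
    exact h.symm
  have hwa : c w a = 0 := by
    have h := hc.mul_right w a w hw0 ha0 hw0
    rw [haw, E_scr hc hS h2S h20 hw10 hw0, D.hw1, hc.self hS hw0, add_zero] at h
    exact h.symm
  have hqy : ∀ y, y ≠ 0 → c q y + (c w y + c w y) = c n y := by
    intro y hy
    have h := hc.mul_left q (w * w) y hq0 (mul_ne_zero hw0 hw0) hy
    rw [hqw, E_scl hc hS h4S h40 hn0 hy, hc.mul_left w w y hw0 hw0 hy] at h
    exact h.symm
  have hqa : c q a = 0 := by
    have h := hqy a ha0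
    rw [hwa, hna, add_zero, add_zero] at h
    exact h
  -- the three relations
  have R1 : c a E + c (φ - f * δ) E = 0 := by
    rw [← hc.mul_left _ _ _ ha0 hκ hE0]
    exact E_add hc hS (mul_ne_zero ha0 hκ) hE0 h4S (by rw [hE]; ring)
  have R2 : c (φ - f * δ) E + c b E = 0 := by
    rw [← hc.mul_left _ _ _ hκ hb0 hE0]
    have he : f * f * δ ^ 2 - φ ^ 2 + 4 ∈ S :=
      add_mem (sub_mem (mul_mem (mul_mem hf hf) D.hδ2) (pow_mem D.hφS 2)) h4S
    exact E_add hc hS (mul_ne_zero hκ hb0) hE0 he (by rw [hE, hb]; ring)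
  have R3 : c E q = c E (a * b) - c q (a * b) :=
    hc.three hS (mul_ne_zero ha0 hb0) hE0 hq0 (by rw [hE, hq, hb]; ring)
  rw [hc.mul_right _ _ _ hE0 ha0 hb0, hc.mul_right _ _ _ hq0 ha0 hb0, hqa, zero_add,
    hc.skew hE0 hq0, hc.skew hE0 ha0, hc.skew hE0 hb0] at R3
  have hab : c a E = c b E := by
    have : c a E - c b E = (c a E + c (φ - f * δ) E) - (c (φ - f * δ) E + c b E) := by abel
    rw [R1, R2, sub_zero] at this
    exact sub_eq_zero.1 this
  -- the action of `σ`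
  have hcs := D.cs q b hq0 hb0
  have h1 : c (σ q) (σ b) + (c a (σ b) + c a (σ b)) = c q (σ b) := by
    have h := hc.mul_left (σ q) (a * a) (σ b) hσq0 (mul_ne_zero ha0 ha0) hσb0
    rw [hσq, E_scl hc hS h4S h40 hq0 hσb0, hc.mul_left a a _ ha0 ha0 hσb0] at h
    exact h.symm
  have h2 : c a (σ b) = c a E := by
    have h := hc.mul_right a (σ b) a ha0 hσb0 ha0
    rw [hσb, hc.self hS ha0, add_zero] at h
    exact h.symm
  have h3 : c q (σ b) = c q E := by
    have h := hc.mul_right q (σ b) a hq0 hσb0 ha0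
    rw [hσb, hqa, add_zero] at h
    exact h.symm
  have h4 : ω (c q b) = c q b := by
    rw [← hcs]
    rw [h2, h3] at h1
    rw [← hab] at R3
    have e : c (σ q) (σ b) = c q E - (c a E + c a E) := by
      rw [← h1]
      abel
    rw [e]
    have e2 : c q E = c a E + c a E + c q b := by
      have : c q E = -(-c q E) := by abel
      rw [this, R3]
      abel
    rw [e2]
    abel
  have h5 : c q b = 0 := E_fix D h4
  have hnb : c n b = 0 := by
    have h := hc.mul_right n b w hn0 hb0 hw0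
    rw [hbw, hnw, add_zero, hc.skew hn0 hu0] at h
    have h' : c u n = 0 := D.hun f hf
    rw [h', neg_zero] at h
    exact h.symm
  have h6 : c w b = 0 := by
    apply D.h2T
    have h := hqy b hb0
    rw [h5, hnb, zero_add] at h
    exact h
  have h7 := hc.mul_right w b w hw0 hb0 hw0
  rw [hbw, h6, hc.self hS hw0, add_zero] at h7
  exact h7

/-- two linear forms, first kind -/
private lemma E_R1 (D : EDat S σ ω c φ δ w) {θ f k u v : K} (hθ : θ ∈ S) (hθ0 : θ ≠ 0)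
    (hf : f ∈ S) (hk : k ∈ S) (hk0 : k ≠ 0) (hu : u ≠ 0) (hv : v ≠ 0) (hwv : c w v = 0)
    (hwu : c w u = 0) (h : u = k * v - (θ + f * δ) * w) :
    c v (θ + f * δ) = c v u - c (θ + f * δ) u := by
  have hne := E_ne D hθ hθ0 hf
  have hw0 := D.w0
  have h1 := E_sub D.st D.van hu (mul_ne_zero hk0 hv) (mul_ne_zero hne hw0) h
  rw [E_scl D.st D.van hk hk0 hv (mul_ne_zero hne hw0), E_scl D.st D.van hk hk0 hv hu,
    D.st.mul_right _ _ _ hv hne hw0, D.st.mul_left _ _ _ hne hw0 hu, hwu, D.st.skew hv hw0, hwv,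
    neg_zero, add_zero, add_zero] at h1
  exact h1

/-- `c (θ - κ, z) = - c (θ + κ, z)` -/
private lemma E_conj (D : EDat S σ ω c φ δ w) {θ f z : K} (hθ : θ ∈ S) (hθ0 : θ ≠ 0)
    (hf : f ∈ S) (hz : z ≠ 0) : c (θ - f * δ) z = - c (θ + f * δ) z := by
  have hne := E_ne D hθ hθ0 hf
  have hne' : θ - f * δ ≠ 0 := by
    have := E_ne D hθ hθ0 (neg_mem hf)
    intro h
    apply this
    linear_combination h
  have h1 := D.st.mul_left _ _ _ hne' hne hz
  have h2 : (θ - f * δ) * (θ + f * δ) ∈ S := by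
    have e : (θ - f * δ) * (θ + f * δ) = θ ^ 2 - f ^ 2 * δ ^ 2 := by ring
    rw [e]
    exact sub_mem (pow_mem hθ 2) (mul_mem (pow_mem hf 2) D.hδ2)
  rw [D.st.van_left D.van h2 (mul_ne_zero hne' hne) hz] at h1
  exact eq_neg_of_add_eq_zero_left h1.symm

/-- two linear forms, second kind -/
private lemma E_R2 (D : EDat S σ ω c φ δ w) {θ f k u v : K} (hθ : θ ∈ S) (hθ0 : θ ≠ 0)
    (hf : f ∈ S) (hk : k ∈ S) (hk0 : k ≠ 0) (hu : u ≠ 0) (hv : v ≠ 0) (hwv : c w v = 0)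
    (hwu : c w u = 0) (h : u = (θ - f * δ) * w - k * v) :
    c v (θ + f * δ) = - c v u - c (θ + f * δ) u := by
  have hne := E_ne D hθ hθ0 hf
  have hne' : θ - f * δ ≠ 0 := by
    have := E_ne D hθ hθ0 (neg_mem hf)
    intro h
    apply this
    linear_combination h
  have hw0 := D.w0
  have h1 := E_sub D.st D.van hu (mul_ne_zero hne' hw0) (mul_ne_zero hk0 hv) h
  rw [E_scr D.st D.van hk hk0 hv (mul_ne_zero hne' hw0), E_scl D.st D.van hk hk0 hv hu,
    D.st.mul_left _ _ _ hne' hw0 hv, D.st.mul_left _ _ _ hne' hw0 hu, hwu, hwv,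
    add_zero, add_zero, E_conj D hθ hθ0 hf hv, E_conj D hθ hθ0 hf hu] at h1
  rw [D.st.skew hv hne, h1]
  abel

/-- the relation between two values of `χ` -/
private lemma E_rel (D : EDat S σ ω c φ δ w) {f : K} (hf : f ∈ S) :
    ω (c w (φ + f * δ)) - ω (ω (ω (ω (c w (φ + f * δ))))) +
      ω (ω (c w (-(2 + φ) + f * δ))) - ω (ω (ω (c w (-(2 + φ) + f * δ)))) = 0 := by
  have hc := D.st
  have hw0 := D.w0
  have hφ := D.hφ
  have ne : ∀ {x}, x ≠ 0 → σ x ≠ 0 := fun hx => (map_ne_zero_iff σ σ.injective).mpr hx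
  have hw10 := ne hw0
  have hw20 := ne hw10
  have hw30 := ne hw20
  have hw40 := ne hw30
  have h2S : (2 : K) ∈ S := by
    have : (2 : K) = 1 + 1 := by norm_num
    rw [this]
    exact add_mem (one_mem _) (one_mem _)
  have hθ : -(2 + φ) ∈ S := neg_mem (add_mem h2S D.hφS)
  have hφ1 : (1 + φ) * φ = 1 := by linear_combination hφ
  have h1φ : 1 + φ ≠ 0 := by
    intro h
    rw [h, zero_mul] at hφ1
    exact zero_ne_one hφ1
  have hθe : -(2 + φ) = -(1 + φ) ^ 2 := by linear_combination hφ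
  have hθ0 : -(2 + φ) ≠ 0 := by
    rw [hθe]
    exact neg_ne_zero.mpr (pow_ne_zero 2 h1φ)
  have hkS : 2 * (1 + φ) ∈ S := mul_mem h2S (add_mem (one_mem _) D.hφS)
  have hk0 : 2 * (1 + φ) ≠ 0 := mul_ne_zero D.h2K h1φ
  have hr1 := E_r1 D
  have hr4 := E_r4 D
  have hu0 := D.hu f hf
  have hC1 := E_C1 D hf
  have huN := D.huN f hf
  set u : K := σ w - σ (σ (σ (σ w))) - f * δ * w with hu
  -- the other symbols of the `w_i`
  have hw4 : c w (σ (σ (σ (σ w)))) = 0 := by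
    have h1 : c (σ w) w = 0 := by rw [hc.skew hw10 hw0, D.hw1, neg_zero]
    have h2 := D.cs _ _ hw10 hw0
    have h3 := D.cs _ _ hw20 hw10
    have h4 := D.cs _ _ hw30 hw20
    have h5 := D.cs _ _ hw40 hw30
    rw [D.s5, h4, h3, h2, h1, map_zero, map_zero, map_zero, map_zero] at h5
    exact h5
  have hw3 : c w (σ (σ (σ w))) = 0 := by
    have h1 : c (σ (σ w)) w = 0 := by rw [hc.skew hw20 hw0, D.hw2, neg_zero]
    have h2 := D.cs _ _ hw20 hw0
    have h3 := D.cs _ _ hw30 hw10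
    have h4 := D.cs _ _ hw40 hw20
    rw [D.s5, h3, h2, h1, map_zero, map_zero, map_zero] at h4
    exact h4
  have A1 := E_R1 D D.hφS (E_φ0 D) hf h2S D.h2K hu0 hw10 D.hw1 hC1
    (by rw [hu]; linear_combination -D.hw)
  have A4 := E_R2 D D.hφS (E_φ0 D) hf h2S D.h2K hu0 hw40 hw4 hC1
    (by rw [hu]; linear_combination D.hw)
  have A2 := E_R1 D hθ hθ0 hf hkS hk0 hu0 hw20 D.hw2 hC1
    (by rw [hu]; linear_combination -D.hw - 2 * σ w * hφ1 - 2 * (1 + φ) * hr1)
  have A3 := E_R2 D hθ hθ0 hf hkS hk0 hu0 hw30 hw3 hC1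
    (by
      rw [hu]
      linear_combination D.hw + 2 * σ (σ (σ (σ w))) * hφ1 + 2 * (1 + φ) * hr4)
  -- the values for fixed elements
  have hfix : ∀ z, z ≠ 0 → σ z = z → ∀ y, y ≠ 0 → c (σ y) z = ω (c y z) := by
    intro z hz hσ y hy
    have := D.cs y z hy hz
    rw [hσ] at this
    exact this
  have hσf : σ f = f := D.sS f hf
  have hz1 : σ (φ + f * δ) = φ + f * δ := by
    rw [map_add, map_mul, D.sS φ D.hφS, hσf, D.sδ]
  have hz2 : σ (-(2 + φ) + f * δ) = -(2 + φ) + f * δ := by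
    rw [map_add, map_mul, D.sS _ hθ, hσf, D.sδ]
  have hn1 := E_ne D D.hφS (E_φ0 D) hf
  have hn2 := E_ne D hθ hθ0 hf
  have B1 := hfix _ hn1 hz1 _ hw0
  have B4 := hfix _ hn1 hz1 _ hw30
  rw [hfix _ hn1 hz1 _ hw20, hfix _ hn1 hz1 _ hw10, B1] at B4
  have B2 := hfix _ hn2 hz2 _ hw10
  rw [hfix _ hn2 hz2 _ hw0] at B2
  have B3 := hfix _ hn2 hz2 _ hw20
  rw [B2] at B3
  rw [← B4, ← B3, ← B2, ← B1, A1, A4, A2, A3]
  -- the norm
  have N : c u (σ w) + c u (σ (σ w)) + c u (σ (σ (σ w))) + c u (σ (σ (σ (σ w)))) = 0 := by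
    rw [hc.mul_right _ _ _ hu0 (mul_ne_zero (mul_ne_zero (mul_ne_zero hw0 hw10) hw20) hw30) hw40,
      hc.mul_right _ _ _ hu0 (mul_ne_zero (mul_ne_zero hw0 hw10) hw20) hw30,
      hc.mul_right _ _ _ hu0 (mul_ne_zero hw0 hw10) hw20,
      hc.mul_right _ _ _ hu0 hw0 hw10, hc.skew hu0 hw0, hC1, neg_zero, zero_add] at huN
    exact huN
  rw [hc.skew hw10 hu0, hc.skew hw20 hu0, hc.skew hw30 hu0, hc.skew hw40 hu0]
  calc _ = -(c u (σ w) + c u (σ (σ w)) + c u (σ (σ (σ w))) + c u (σ (σ (σ (σ w))))) := by abel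
    _ = 0 := by rw [N, neg_zero]

/-- the relation in terms of `g (f) = χ (1 + f δ)` -/
private lemma E_g (D : EDat S σ ω c φ δ w) {f : K} (hf : f ∈ S) :
    c w (1 + (1 - 2 * φ) * f * δ) = ω (ω (c w (1 + f * δ))) + ω (ω (ω (c w (1 + f * δ)))) := by
  have hc := D.st
  have hS := D.van
  have hw0 := D.w0
  have hφ := D.hφ
  have h2S : (2 : K) ∈ S := by
    have : (2 : K) = 1 + 1 := by norm_num
    rw [this]
    exact add_mem (one_mem _) (one_mem _)
  have hθ : -(2 + φ) ∈ S := neg_mem (add_mem h2S D.hφS)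
  have hφ1 : (1 + φ) * φ = 1 := by linear_combination hφ
  have h1φ : 1 + φ ≠ 0 := by
    intro h
    rw [h, zero_mul] at hφ1
    exact zero_ne_one hφ1
  have hθe : -(2 + φ) = -(1 + φ) ^ 2 := by linear_combination hφ
  have hθ0 : -(2 + φ) ≠ 0 := by
    rw [hθe]
    exact neg_ne_zero.mpr (pow_ne_zero 2 h1φ)
  have hlS : (1 - 2 * φ) * f ∈ S := mul_mem (sub_mem (one_mem _) (mul_mem h2S D.hφS)) hf
  have hR := E_rel D (mul_mem D.hφS hf)
  have e1 : φ + φ * f * δ = φ * (1 + f * δ) := by ring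
  have e2 : -(2 + φ) + φ * f * δ = -(2 + φ) * (1 + (1 - 2 * φ) * f * δ) := by
    linear_combination (-2 * f * δ) * hφ
  rw [e1, e2, E_scr hc hS D.hφS (E_φ0 D) (E_ne D (one_mem _) one_ne_zero hf) hw0,
    E_scr hc hS hθ hθ0 (E_ne D (one_mem _) one_ne_zero hlS) hw0] at hR
  set A : T := c w (1 + f * δ) with hA
  set B : T := c w (1 + (1 - 2 * φ) * f * δ) with hB
  have w5 := E_ω5 D
  have hP : A + ω B + ω (ω (ω (ω B))) = 0 := by
    set P : T := A + ω B + ω (ω (ω (ω B))) with hP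
    have h1 : ω P = ω (ω (ω (ω P))) := by
      rw [← sub_eq_zero]
      rw [hP]
      simp only [map_add, w5]
      rw [← hR]
      abel
    have h2 : ω (ω P) = P := by
      have := congrArg ω h1
      rw [w5] at this
      exact this
    have h3 : ω P = P := by
      rw [h1, h2, h2]
    exact E_fix D h3
  have hA' : A = -(ω B + ω (ω (ω (ω B)))) := by
    rw [eq_neg_iff_add_eq_zero, ← hP]
    abel
  rw [hA']
  simp only [map_add, map_neg, w5]
  have h := D.hω B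
  calc B = -(-B) := by abel
    _ = -((B + ω B + ω (ω B) + ω (ω (ω B)) + ω (ω (ω (ω B)))) - B) := by
        rw [h, zero_sub]
    _ = _ := by abel

private lemma E_one (D : EDat S σ ω c φ δ w) {f : K} (hf : f ∈ S) : c w (1 + f * δ) = 0 := by
  by_cases hf0 : f = 0
  · rw [hf0, zero_mul, add_zero]
    exact D.st.one_right D.w0
  have hw0 := D.w0
  have hδ0 := E_δ0 D
  have hφ := D.hφ
  have h2S : (2 : K) ∈ S := by
    have : (2 : K) = 1 + 1 := by norm_num
    rw [this]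
    exact add_mem (one_mem _) (one_mem _)
  have hlS : 1 - 2 * φ ∈ S := sub_mem (one_mem _) (mul_mem h2S D.hφS)
  have hl0 : 1 - 2 * φ ≠ 0 := by
    intro h
    have h1 : -(2 + φ) * (1 - 2 * φ) = φ := by linear_combination 2 * hφ
    rw [h, mul_zero] at h1
    exact E_φ0 D h1.symm
  -- inversion
  have inv : ∀ a b : K, a ∈ S → b ∈ S → a ≠ 0 → a * b * δ ^ 2 = 1 →
      c w (1 + a * δ) = c w (1 + b * δ) := by
    intro a b ha hb ha0 hab
    have e : (1 + a * δ) = (1 + b * δ) * (a * δ) := by linear_combination -hab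
    rw [e, D.st.mul_right _ _ _ hw0 (E_ne D (one_mem _) one_ne_zero hb) (mul_ne_zero ha0 hδ0),
      E_van D hw0 ha ha0, add_zero]
  have hd0 : δ ^ 2 ≠ 0 := pow_ne_zero 2 hδ0
  set l : K := 1 - 2 * φ with hl
  set a : K := (l * f * δ ^ 2)⁻¹ with ha
  have haS : a ∈ S := inv_mem (mul_mem (mul_mem hlS hf) D.hδ2)
  have hprod : l * f * δ ^ 2 ≠ 0 := mul_ne_zero (mul_ne_zero hl0 hf0) hd0
  have ha0 : a ≠ 0 := inv_ne_zero hprod
  have i1 : c w (1 + a * δ) = c w (1 + l * f * δ) :=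
    inv a (l * f) haS (mul_mem hlS hf) ha0 (by rw [ha]; field_simp)
  have i2 : c w (1 + l * a * δ) = c w (1 + f * δ) :=
    inv (l * a) f (mul_mem hlS haS) hf (mul_ne_zero hl0 ha0) (by rw [ha]; field_simp)
  have g1 := E_g D hf
  have g2 := E_g D haS
  rw [← hl] at g1 g2
  rw [i1, i2, g1] at g2
  set G : T := c w (1 + f * δ) with hG
  have w5 := E_ω5 D
  simp only [map_add, w5] at g2
  have h := D.hω G
  have k1 : G + ω G + ω (ω (ω (ω G))) = 0 := by
    calc G + ω G + ω (ω (ω (ω G))) = (ω (ω (ω (ω G))) + G + (G + ω G)) - G := by abel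
      _ = 0 := by rw [← g2]; abel
  have k2 := congrArg ω k1
  have k3 := congrArg (fun x => ω (ω (ω (ω x)))) k1
  simp only [map_add, w5, map_zero] at k2 k3
  calc G = (ω G + ω (ω G) + G) + (ω (ω (ω (ω G))) + G + ω (ω (ω G))) -
        (G + ω G + ω (ω G) + ω (ω (ω G)) + ω (ω (ω (ω G)))) := by abel
    _ = 0 := by rw [k2, k3, h]; abel

/-- **the first block** -/
theorem EDat.main {K T : Type*} [Field K] [AddCommGroup T] {S : Subfield K} {σ : K ≃+* K}
    {ω : T →+ T} {c : K → K → T} {φ δ w : K} (D : EDat S σ ω c φ δ w) {p q : K} (hp : p ∈ S)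
    (hq : q ∈ S) (h : p + q * δ ≠ 0) : c w (p + q * δ) = 0 := by
  by_cases hp0 : p = 0
  · have hq0 : q ≠ 0 := by
      rintro rfl
      apply h
      rw [hp0]
      ring
    rw [hp0, zero_add]
    exact E_van D D.w0 hq hq0
  · have e : p + q * δ = p * (1 + q / p * δ) := by
      field_simp
    have hqp : q / p ∈ S := div_mem hq hp
    rw [e, E_scr D.st D.van hp hp0 (E_ne D (one_mem _) one_ne_zero hqp) D.w0]
    exact E_one D hqp

end Pool.Agent.MP_1b9aaa_al.Ten
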