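import Pool.Agent.Lib.MP_1b9aaa_al.TenLB
import Pool.Agent.Lib.MP_1b9aaa_al.T5Climb

/-!
# MP_1b9aaa_al, T_10: the first block over a quadratic extension `E = F(√d)`

`Climb.D c d` is the transfer symbol on `K(√d) = QuadraticAlgebra K d 0`.
-/

set_option autoImplicit false

namespace Pool.Agent.MP_1b9aaa_al.Ten

open IsSteinberg

variable {K T : Type*} [Field K] [AddCommGroup T] {σ τ : K ≃+* K} {ω : T →+ T} {c : K → K → T}

/-- the image of `F` in `K(√d)` -/
def SE (σ τ : K ≃+* K) (d : K) [Fact (∀ r : K, r ^ 2 ≠ d + 0 * r)] :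
    Subfield (QuadraticAlgebra K d 0) :=
  (fix2 σ τ).map (algebraMap K (QuadraticAlgebra K d 0))

/-- `D(s² - λ, e) = 0` for `λ ∈ L(√d)`, `e ∈ F(√d)` -/
theorem Dat.cl_D (D : Dat σ τ ω c) {i : K} (F : Fld σ τ D.tt D.comm i) {ζ s : K}
    (G : Gen σ τ ζ s) [Infinite (fixS σ)] {d : K} (hd : σ d = d) (hd' : τ d = d)
    [hq : Fact (∀ r : K, r ^ 2 ≠ d + 0 * r)] {l0 l1 e0 e1 : K} (h0 : σ l0 = l0) (h1 : σ l1 = l1)
    (he0 : σ e0 = e0) (he0' : τ e0 = e0) (he1 : σ e1 = e1) (he1' : τ e1 = e1)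
    (he : e0 ≠ 0 ∨ e1 ≠ 0) :
    Climb.D c d (⟨s ^ 2 - l0, -l1⟩ : QuadraticAlgebra K d 0) ⟨e0, e1⟩ = 0 := by
  have q1 : ∀ r : K, r * r ≠ d := fun r h => hq.out r (by rw [sq, h, zero_mul, add_zero])
  have q2 : ∀ r : K, r * r - d ≠ 0 := fun r h => q1 r (sub_eq_zero.1 h)
  have hs0 : s ^ 2 - l0 ≠ 0 := by
    intro h
    have h' : s ^ 2 = l0 := sub_eq_zero.1 h
    exact G.sq.not_fixed F.h5K (by rw [h', h0])
  have hz0 : (⟨s ^ 2 - l0, -l1⟩ : QuadraticAlgebra K d 0) ≠ 0 := by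
    intro h
    exact hs0 (by simpa using congrArg QuadraticAlgebra.re h)
  by_cases h1' : e1 = 0
  · rw [Climb.D_im0 (by exact h1')]
    refine D.van _ ?_ _ he0 he0' (he.resolve_right (fun h => h h1'))
    exact Climb.nm_ne q2 hz0
  · have hN : e0 * e0 - d * (e1 * e1) ≠ 0 := by
      have h := Climb.nm_ne q2 (w := (⟨e0, e1⟩ : QuadraticAlgebra K d 0)) (fun h => h1' (by
        simpa using congrArg QuadraticAlgebra.im h))
      exact h
    have hNs : σ (e0 * e0 - d * (e1 * e1)) = e0 * e0 - d * (e1 * e1) := by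
      simp only [map_sub, map_mul, he0, he1, hd]
    have hNt : τ (e0 * e0 - d * (e1 * e1)) = e0 * e0 - d * (e1 * e1) := by
      simp only [map_sub, map_mul, he0', he1', hd']
    by_cases h2 : l1 = 0
    · rw [Climb.D_0 (by exact h1') (by rw [h2, neg_zero])]
      exact D.van _ hs0 _ hNs hNt hN
    · have hl : -l1 ≠ 0 := neg_ne_zero.2 h2
      rw [Climb.D_1 (by exact h1') (by exact hl)]
      have hm : σ (e0 / e1) = e0 / e1 := by rw [map_div₀, he0, he1]
      have hm' : τ (e0 / e1) = e0 / e1 := by rw [map_div₀, he0', he1']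
      have hmd : e0 / e1 * (e0 / e1) - d ≠ 0 := q2 _
      have t1 : c (-l1) (e1 * e1 * (e0 / e1 * (e0 / e1) - d)) = 0 := by
        refine D.van _ hl _ ?_ ?_ (mul_ne_zero (mul_ne_zero h1' h1') hmd)
        · simp only [map_sub, map_mul, map_div₀, he0, he1, hd]
        · simp only [map_sub, map_mul, map_div₀, he0', he1', hd']
      have t2 : c ((s ^ 2 - l0) / -l1 * ((s ^ 2 - l0) / -l1) - d) e1 = 0 :=
        D.van _ (q2 _) _ he1 he1' h1'
      have t3 : Climb.Dq c d ((s ^ 2 - l0) / -l1) (e0 / e1) = 0 := by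
        unfold Climb.Dq
        split_ifs with h3
        · rfl
        · have h4 : e0 / e1 - (s ^ 2 - l0) / -l1 ≠ 0 := sub_ne_zero.2 (Ne.symm h3)
          rw [IsSteinberg.div_right D.st hmd (q2 _) h4,
            D.van _ h4 _ (by simp only [map_sub, map_mul, map_div₀, he0, he1, hd])
              (by simp only [map_sub, map_mul, map_div₀, he0', he1', hd']) hmd, zero_sub,
            neg_eq_zero]
          have h5 := D.cl F G.sq hd hd' q1 h0 h1 h2 hm hm' (z := (s ^ 2 - l0) / l1) rfl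
          have h6 : e0 / e1 - (s ^ 2 - l0) / -l1 = e0 / e1 + (s ^ 2 - l0) / l1 := by
            rw [div_neg, sub_neg_eq_add]
          have h7 : (s ^ 2 - l0) / -l1 * ((s ^ 2 - l0) / -l1) - d =
              ((s ^ 2 - l0) / l1) ^ 2 - d := by
            rw [div_neg]
            ring
          rw [h6, h7]
          exact h5
      show c (-l1) (e1 * e1 * (e0 / e1 * (e0 / e1) - d)) +
        c ((s ^ 2 - l0) / -l1 * ((s ^ 2 - l0) / -l1) - d) e1 +
        Climb.Dq c d ((s ^ 2 - l0) / -l1) (e0 / e1) = 0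
      rw [t1, t2, t3, add_zero, add_zero]

end Pool.Agent.MP_1b9aaa_al.Ten
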