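import Pool.Agent.Lib.MP_1b9aaa_al.TenF1

/-!
# MP_1b9aaa_al, T_10: the first block over a quadratic extension `E = F(√d)`, the data
-/

set_option autoImplicit false

namespace Pool.Agent.MP_1b9aaa_al.Ten

open IsSteinberg

variable {K T : Type*} [Field K] [AddCommGroup T] {σ τ : K ≃+* K} {ω : T →+ T} {c : K → K → T}

private lemma f2_van (D : Dat σ τ ω c) : VanOn c (fix2 σ τ) := by
  intro x hx f hf hf0
  rw [fix2, Subfield.mem_inf] at hf
  exact D.van x hx f hf.1 hf.2 hf0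

section quad

variable {d : K} [hq : Fact (∀ r : K, r ^ 2 ≠ d + 0 * r)]

omit [AddCommGroup T] in
private lemma f2_mem {x : QuadraticAlgebra K d 0} :
    x ∈ SE σ τ d ↔ ∃ k, σ k = k ∧ τ k = k ∧ (⟨k, 0⟩ : QuadraticAlgebra K d 0) = x := by
  rw [SE, Subfield.mem_map]
  constructor
  · rintro ⟨k, hk, rfl⟩
    rw [fix2, Subfield.mem_inf] at hk
    exact ⟨k, hk.1, hk.2, rfl⟩
  · rintro ⟨k, h1, h2, rfl⟩
    exact ⟨k, by rw [fix2, Subfield.mem_inf]; exact ⟨h1, h2⟩, rfl⟩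

omit [AddCommGroup T] hq in
private lemma f2_ext_eq {g : K ≃+* K} (hg : g d = d) {x : QuadraticAlgebra K d 0} :
    Climb.ext g hg x = x ↔ g x.re = x.re ∧ g x.im = x.im := by
  constructor
  · intro h
    exact ⟨congrArg QuadraticAlgebra.re h, congrArg QuadraticAlgebra.im h⟩
  · rintro ⟨h1, h2⟩
    exact QuadraticAlgebra.ext h1 h2

/-- the transfer symbol commutes with automorphisms -/
private lemma f2_comm {g : K ≃+* K} (hg : g d = d) {f : T →+ T}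
    (h : ∀ x y, x ≠ 0 → y ≠ 0 → c (g x) (g y) = f (c x y)) {x y : QuadraticAlgebra K d 0}
    (hx : x ≠ 0) (hy : y ≠ 0) :
    Climb.D c d (Climb.ext g hg x) (Climb.ext g hg y) = f (Climb.D c d x y) := by
  have hqd := Climb.hq_of (K := K) (d := d)
  have g0 : ∀ {a : K}, a ≠ 0 → g a ≠ 0 := fun {a} ha => (map_ne_zero_iff g g.injective).mpr ha
  have er : ∀ z : QuadraticAlgebra K d 0, (Climb.ext g hg z).re = g z.re := fun _ => rfl
  have ei : ∀ z : QuadraticAlgebra K d 0, (Climb.ext g hg z).im = g z.im := fun _ => rfl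
  have hN : ∀ z : QuadraticAlgebra K d 0, g z.re * g z.re - d * (g z.im * g z.im) =
      g (z.re * z.re - d * (z.im * z.im)) := by
    intro z
    simp only [map_sub, map_mul, hg]
  by_cases h1 : y.im = 0
  · rw [Climb.D_im0 h1, Climb.D_im0 (by rw [ei, h1, map_zero]), er, er, ei, hN,
      h _ _ (Climb.nm_ne hqd hx) (Climb.re_ne hy h1)]
  · have h1' : (Climb.ext g hg y).im ≠ 0 := g0 h1
    by_cases h2 : x.im = 0
    · rw [Climb.D_0 h1 h2, Climb.D_0 h1' (by rw [ei, h2, map_zero]), er, er, ei, hN,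
        h _ _ (Climb.re_ne hx h2) (Climb.nm_ne hqd hy)]
    · have h2' : (Climb.ext g hg x).im ≠ 0 := g0 h2
      rw [Climb.D_1 h1 h2, Climb.D_1 h1' h2', er, er, ei, ei]
      set μ := y.im
      set κ := x.im
      have hm : g y.re / g μ = g (y.re / μ) := (map_div₀ g _ _).symm
      have hl : g x.re / g κ = g (x.re / κ) := (map_div₀ g _ _).symm
      rw [hm, hl]
      set m := y.re / μ
      set l := x.re / κ
      simp only [Climb.EL]
      have e1 : g μ * g μ * (g m * g m - d) = g (μ * μ * (m * m - d)) := by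
        simp only [map_sub, map_mul, hg]
      have e2 : g l * g l - d = g (l * l - d) := by
        simp only [map_sub, map_mul, hg]
      have e3 : g m * g m - d = g (m * m - d) := by
        simp only [map_sub, map_mul, hg]
      have e4 : Climb.Dq c d (g l) (g m) = f (Climb.Dq c d l m) := by
        by_cases hlm : l = m
        · simp only [Climb.Dq, hlm, if_true, map_zero]
        · have hlm' : g l ≠ g m := fun e => hlm (g.injective e)
          simp only [Climb.Dq, if_neg hlm, if_neg hlm']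
          rw [e2, e3, ← map_sub, ← map_div₀,
            h _ _ (sub_ne_zero.mpr (Ne.symm hlm)) (div_ne_zero (hqd _) (hqd _))]
      rw [e1, e2, e4, h _ _ h2 (mul_ne_zero (mul_ne_zero h1 h1) (hqd _)), h _ _ (hqd _) h1,
        map_add, map_add]

/-- `D(L(√d)*, L(√d)*) = 0` -/
private lemma f2_L (D : Dat σ τ ω c) (hd : σ d = d) {x y : QuadraticAlgebra K d 0} (hx : x ≠ 0)
    (hy : y ≠ 0) (h1 : Climb.ext σ hd x = x) (h2 : Climb.ext σ hd y = y) :
    Climb.D c d x y = 0 := by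
  have h := f2_comm (c := c) hd D.cs hx hy
  rw [h1, h2] at h
  have h3 := D.hω (Climb.D c d x y)
  rw [← h, ← h, ← h, ← h] at h3
  exact D.h5T _ h3

/-- `D(M(√d)*, M(√d)*) = 0` -/
private lemma f2_M (D : Dat σ τ ω c) (hd' : τ d = d) {x y : QuadraticAlgebra K d 0} (hx : x ≠ 0)
    (hy : y ≠ 0) (h1 : Climb.ext τ hd' x = x) (h2 : Climb.ext τ hd' y = y) :
    Climb.D c d x y = 0 := by
  have h := f2_comm (c := c) (f := -(AddMonoidHom.id T)) hd' (fun x y hx hy => by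
    rw [D.ct x y hx hy]
    rfl) hx hy
  rw [h1, h2] at h
  have h3 : Climb.D c d x y = - Climb.D c d x y := h
  apply D.h2T
  nth_rewrite 1 [h3]
  exact neg_add_cancel _

/-- `D(s, *) = 0` -/
private lemma f2_s (D : Dat σ τ ω c) {ζ s : K} (G : Gen σ τ ζ s) {z : QuadraticAlgebra K d 0}
    (hz : z ≠ 0) : Climb.D c d ⟨s, 0⟩ z = 0 := by
  have hqd := Climb.hq_of (K := K) (d := d)
  by_cases h : z.im = 0
  · rw [Climb.D_im0 h]
    have e : (⟨s, 0⟩ : QuadraticAlgebra K d 0).re * (⟨s, 0⟩ : QuadraticAlgebra K d 0).re -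
        d * ((⟨s, 0⟩ : QuadraticAlgebra K d 0).im * (⟨s, 0⟩ : QuadraticAlgebra K d 0).im) =
        s * s := by
      show s * s - d * (0 * 0) = s * s
      ring
    rw [e, D.st.mul_left _ _ _ G.s0 G.s0 (Climb.re_ne hz h), D.gen G (Climb.re_ne hz h), add_zero]
  · rw [Climb.D_0 h rfl]
    exact D.gen G (Climb.nm_ne hqd hz)

end quad

/-- the abstract form -/
private theorem f2_abs {E : Type*} [Field E] {SS : Subfield E} {sg th : E ≃+* E} {C : E → E → T}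
    (st : IsSteinberg C) (van : VanOn C SS) (s5 : ∀ x, sg (sg (sg (sg (sg x)))) = x)
    (hSS : ∀ x ∈ SS, sg x = x) (hSS' : ∀ x ∈ SS, th x = x)
    (comm : ∀ x, th (sg x) = sg (th x))
    (cs : ∀ x y, x ≠ 0 → y ≠ 0 → C (sg x) (sg y) = ω (C x y))
    (hω : ∀ v, v + ω v + ω (ω v) + ω (ω (ω v)) + ω (ω (ω (ω v))) = 0)
    (h2T : ∀ v : T, v + v = 0 → v = 0) (h5T : ∀ v : T, v + v + v + v + v = 0 → v = 0)
    (h2E : (2 : E) ≠ 0) (h5E : (5 : E) ≠ 0) {Z S I Q Δ : E}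
    (hZ : Z ^ 4 + Z ^ 3 + Z ^ 2 + Z + 1 = 0) (hSI : S * I = 1)
    (sS : sg S = Z * S) (sI : sg I = Z ^ 4 * I) (sZ : sg Z = Z) (sQ : sg Q = Q)
    (sΔ : sg Δ = Δ) (tS : th S = S) (tI : th I = I) (tZ : th Z = Z) (tQ : th Q = Q)
    (tΔ : th Δ = -Δ) (hφS : Z + Z ^ 4 ∈ SS) (hΔ2 : Δ ^ 2 ∈ SS) (hQ0 : Q ≠ 0) (hΔ0 : Δ ≠ 0)
    (hL : ∀ x y, x ≠ 0 → y ≠ 0 → sg x = x → sg y = y → C x y = 0)
    (hM : ∀ x y, x ≠ 0 → y ≠ 0 → th x = x → th y = y → C x y = 0)
    (hs : ∀ z, z ≠ 0 → C S z = 0)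
    (hcl : ∀ l, sg l = l → ∀ e, e ≠ 0 → sg e = e → th e = e → C (S ^ 2 - l) e = 0) :
    EDat SS sg ω C (Z + Z ^ 4) Δ (S + Q * I) := by
  have hI0 : I ≠ 0 := right_ne_zero_of_mul_eq_one hSI
  have hS0 : S ≠ 0 := left_ne_zero_of_mul_eq_one hSI
  have hZ5 : Z ^ 5 = 1 := by linear_combination (Z - 1) * hZ
  have hZ0 : Z ≠ 0 := by
    rintro rfl
    norm_num at hZ5
  -- `S ^ 2` is not fixed
  have hne : ∀ l, sg l = l → S ^ 2 - l ≠ 0 := by
    intro l hl h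
    have h1 : S ^ 2 = l := sub_eq_zero.mp h
    have h2 : sg (S ^ 2) = S ^ 2 := by rw [h1, hl]
    rw [map_pow, sS] at h2
    have h3 : Z ^ 2 = 1 := by
      have h4 : (Z ^ 2 - 1) * S ^ 2 = 0 := by linear_combination h2
      exact sub_eq_zero.mp ((mul_eq_zero.mp h4).resolve_right (pow_ne_zero 2 hS0))
    have h4 : 3 + 2 * Z = 0 := by linear_combination hZ - (Z ^ 2 + Z + 2) * h3
    apply h5E
    linear_combination (2 * Z - 3) * h4 * (-1) + 4 * h3
  set W : E := S + Q * I with hW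
  have W0 : W ≠ 0 := by
    intro h
    refine hne (-Q) (by rw [map_neg, sQ]) ?_
    have : S ^ 2 - -Q = S * W := by rw [hW]; linear_combination (-Q) * hSI
    rw [this, h, mul_zero]
  have W1 : sg W = Z * S + Z ^ 4 * (Q * I) := by
    rw [hW, map_add, map_mul, sS, sI, sQ]
    ring
  have W2 : sg (sg W) = Z ^ 2 * S + Z ^ 3 * (Q * I) := by
    rw [W1]
    simp only [map_add, map_mul, map_pow, sS, sI, sQ, sZ]
    linear_combination (Z ^ 3 * Q * I) * hZ5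
  have W3 : sg (sg (sg W)) = Z ^ 3 * S + Z ^ 2 * (Q * I) := by
    rw [W2]
    simp only [map_add, map_mul, map_pow, sS, sI, sQ, sZ]
    linear_combination (Z ^ 2 * Q * I) * hZ5
  have W4 : sg (sg (sg (sg W))) = Z ^ 4 * S + Z * (Q * I) := by
    rw [W3]
    simp only [map_add, map_mul, map_pow, sS, sI, sQ, sZ]
    linear_combination (Z * Q * I) * hZ5
  have tW : th W = W := by
    rw [hW, map_add, map_mul, tS, tI, tQ]
  have sg0 : ∀ {x : E}, x ≠ 0 → sg x ≠ 0 := fun {x} hx => (map_ne_zero_iff sg sg.injective).mpr hx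
  -- the norm form
  have hn0 : W ^ 2 - sg W * sg (sg (sg (sg W))) = Q * (2 - Z ^ 2 - Z ^ 3) := by
    rw [W4, W1, hW]
    linear_combination (Q * (2 - Z ^ 2 - Z ^ 8)) * hSI +
      (-(S ^ 2 + Q ^ 2 * I ^ 2) - Q * Z ^ 3) * hZ5
  have hZZ : (2 : E) - Z ^ 2 - Z ^ 3 ≠ 0 := by
    intro h
    apply h5E
    linear_combination (2 - Z - Z ^ 4) * h + (-Z ^ 3 + Z + 1) * hZ
  have n0 : Q * (2 - Z ^ 2 - Z ^ 3) ≠ 0 := mul_ne_zero hQ0 hZZ
  have sn0 : sg (Q * (2 - Z ^ 2 - Z ^ 3)) = Q * (2 - Z ^ 2 - Z ^ 3) := by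
    simp only [map_mul, map_sub, map_pow, map_ofNat, sQ, sZ]
  have tn0 : th (Q * (2 - Z ^ 2 - Z ^ 3)) = Q * (2 - Z ^ 2 - Z ^ 3) := by
    simp only [map_mul, map_sub, map_pow, map_ofNat, tQ, tZ]
  -- `ν ≠ ± κ`
  have hν : Z - Z ^ 4 ≠ 0 := by
    intro h
    have h1 : Z ^ 3 = 1 := by
      have h2 : Z * (1 - Z ^ 3) = 0 := by linear_combination h
      exact (sub_eq_zero.mp ((mul_eq_zero.mp h2).resolve_left hZ0)).symm
    have h2 : Z = 1 := by
      have h3 : Z ^ 2 = 1 := by linear_combination hZ5 - Z ^ 2 * h1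
      linear_combination h1 - Z * h3
    apply h5E
    rw [h2] at hZ
    linear_combination hZ
  have hκ : ∀ f ∈ SS, Z - Z ^ 4 - f * Δ ≠ 0 ∧ Z - Z ^ 4 + f * Δ ≠ 0 := by
    intro f hf
    have tf := hSS' f hf
    constructor
    · intro h
      have h1 := congrArg th h
      simp only [map_sub, map_mul, map_pow, map_zero, tZ, tf, tΔ] at h1
      have h2 : 2 * (Z - Z ^ 4) = 0 := by linear_combination h + h1
      exact (mul_ne_zero h2E hν) h2
    · intro h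
      have h1 := congrArg th h
      simp only [map_sub, map_add, map_mul, map_pow, map_zero, tZ, tf, tΔ] at h1
      have h2 : 2 * (Z - Z ^ 4) = 0 := by linear_combination h + h1
      exact (mul_ne_zero h2E hν) h2
  have hU : ∀ f ∈ SS, ∃ l, sg l = l ∧ sg W - sg (sg (sg (sg W))) - f * Δ * W =
      (Z - Z ^ 4 - f * Δ) * (I * (S ^ 2 - l)) := by
    intro f hf
    obtain ⟨k1, k2⟩ := hκ f hf
    refine ⟨Q * (Z - Z ^ 4 + f * Δ) / (Z - Z ^ 4 - f * Δ), ?_, ?_⟩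
    · simp only [map_div₀, map_mul, map_add, map_sub, map_pow, sQ, sZ, sΔ, hSS f hf]
    · have e : ∀ ρ μ : E, ρ ≠ 0 →
          ρ * (I * (S ^ 2 - Q * μ / ρ)) = ρ * (I * S ^ 2) - I * (Q * μ) := by
        intro ρ μ hρ
        field_simp
      rw [e _ _ k1, W4, W1, hW]
      linear_combination (-(Z - Z ^ 4 - f * Δ) * S) * hSI
  have key : ∀ f ∈ SS, ∀ e, e ≠ 0 → sg e = e → th e = e →
      C (sg W - sg (sg (sg (sg W))) - f * Δ * W) e = 0 := by
    intro f hf e e0 se te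
    obtain ⟨l, hl, h⟩ := hU f hf
    obtain ⟨k1, k2⟩ := hκ f hf
    have sk : sg (Z - Z ^ 4 - f * Δ) = Z - Z ^ 4 - f * Δ := by
      simp only [map_mul, map_sub, map_pow, sZ, sΔ, hSS f hf]
    have hI : C I e = 0 := by
      have e1 : I = S⁻¹ := eq_inv_of_mul_eq_one_right hSI
      rw [e1, st.inv_left hS0 e0, hs e e0, neg_zero]
    rw [h, st.mul_left _ _ _ k1 (mul_ne_zero hI0 (hne l hl)) e0,
      st.mul_left _ _ _ hI0 (hne l hl) e0, hL _ _ k1 e0 sk se, hI, hcl l hl e e0 se te]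
    simp
  have N0 : W * sg W * sg (sg W) * sg (sg (sg W)) * sg (sg (sg (sg W))) ≠ 0 :=
    mul_ne_zero (mul_ne_zero (mul_ne_zero (mul_ne_zero W0 (sg0 W0)) (sg0 (sg0 W0)))
      (sg0 (sg0 (sg0 W0)))) (sg0 (sg0 (sg0 (sg0 W0))))
  exact {
    st := st
    van := van
    s5 := s5
    sS := hSS
    cs := cs
    hω := hω
    h2T := h2T
    h5T := h5T
    h2K := h2E
    hφS := hφS
    hφ := by linear_combination (Z ^ 4 - Z ^ 3 + 2 * Z - 1) * hZ
    sδ := sΔ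
    hδ2 := hΔ2
    hδ := by
      intro h
      have h1 := hSS' Δ h
      rw [tΔ] at h1
      have h2 : 2 * Δ = 0 := by linear_combination -h1
      exact (mul_ne_zero h2E hΔ0) h2
    w0 := W0
    hw := by
      rw [W4, W1, hW]
      linear_combination (-(Z ^ 3 * (Q * I) * 0)) * hZ5
    hw1 := hM _ _ W0 (sg0 W0) tW (by rw [comm, tW])
    hw2 := hM _ _ W0 (sg0 (sg0 W0)) tW (by rw [comm, comm, tW])
    hn := by rw [hn0]; exact n0
    sn := by rw [hn0]; exact sn0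
    hwn := by rw [hn0]; exact hM _ _ W0 n0 tW tn0
    hu := by
      intro f hf
      obtain ⟨l, hl, h⟩ := hU f hf
      rw [h]
      exact mul_ne_zero (hκ f hf).1 (mul_ne_zero hI0 (hne l hl))
    hun := by
      intro f hf
      rw [hn0]
      exact key f hf _ n0 sn0 tn0
    huN := by
      intro f hf
      refine key f hf _ N0 ?_ ?_
      · simp only [map_mul, s5]
        ring
      · simp only [map_mul, comm, tW] }

/-- the data of the first block over `F(√d)`, for `w = s + q s⁻¹`, `q ∈ F(√d)` -/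
theorem Dat.edat (D : Dat σ τ ω c) {i : K} (F : Fld σ τ D.tt D.comm i) {ζ s : K}
    (G : Gen σ τ ζ s) [Infinite (fixS σ)] {d : K} (hd : σ d = d) (hd' : τ d = d)
    [hq : Fact (∀ r : K, r ^ 2 ≠ d + 0 * r)] {δ : K} (sδ : σ δ = δ) (tδ : τ δ = -δ) (hδ : δ ≠ 0)
    {q0 q1 : K} (h0 : σ q0 = q0) (h0' : τ q0 = q0) (h1 : σ q1 = q1) (h1' : τ q1 = q1)
    (h10 : q1 ≠ 0) :
    EDat (SE σ τ d) (Climb.ext σ hd) ω (Climb.D c d)
      (⟨ζ + ζ ^ 4, 0⟩ : QuadraticAlgebra K d 0) ⟨δ, 0⟩ ⟨s + q0 * s⁻¹, q1 * s⁻¹⟩ := by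
  have hvan := f2_van D
  have hqd := Climb.hq_of (K := K) (d := d)
  have hζ5 : ζ ^ 5 = 1 := by linear_combination (ζ - 1) * G.hζ
  have sinv : σ s⁻¹ = ζ ^ 4 * s⁻¹ := by
    rw [map_inv₀, G.ss, mul_inv]
    have : ζ⁻¹ = ζ ^ 4 := by
      apply inv_eq_of_mul_eq_one_right
      linear_combination hζ5
    rw [this]
  have tinv : τ s⁻¹ = s⁻¹ := by rw [map_inv₀, G.ts]
  have hcoe : ∀ a b : K, (⟨a, 0⟩ : QuadraticAlgebra K d 0) * ⟨b, 0⟩ = ⟨a * b, 0⟩ := by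
    intro a b
    apply QuadraticAlgebra.ext <;> simp
  have hpow : ∀ (a : K) (n : ℕ), (⟨a, 0⟩ : QuadraticAlgebra K d 0) ^ n = ⟨a ^ n, 0⟩ := by
    intro a n
    induction n with
    | zero => rw [pow_zero, pow_zero]; rfl
    | succ n ih => rw [pow_succ, pow_succ, ih, hcoe]
  have hw : (⟨s + q0 * s⁻¹, q1 * s⁻¹⟩ : QuadraticAlgebra K d 0) =
      ⟨s, 0⟩ + ⟨q0, q1⟩ * ⟨s⁻¹, 0⟩ := by
    apply QuadraticAlgebra.ext <;> simp
  have hφ : (⟨ζ + ζ ^ 4, 0⟩ : QuadraticAlgebra K d 0) = ⟨ζ, 0⟩ + ⟨ζ, 0⟩ ^ 4 := by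
    rw [hpow]
    apply QuadraticAlgebra.ext <;> simp
  have hcast : ∀ n : ℕ, ((n : QuadraticAlgebra K d 0)).re = (n : K) := fun n => by
    simp
  rw [hw, hφ]
  refine f2_abs (th := Climb.ext τ hd') (Climb.D_isSteinberg D.st hvan) ?_ ?_ ?_ ?_ ?_ ?_ D.hω
    D.h2T D.h5T ?_ ?_ ?_ ?_ ?_ ?_ ?_ ?_ ?_ ?_ ?_ ?_ ?_ ?_ ?_ ?_ ?_ ?_ ?_ ?_ ?_ ?_
  · intro x hx f hf hf0
    obtain ⟨k, k1, k2, rfl⟩ := f2_mem.1 hf
    rw [Climb.D_im0 rfl]
    exact D.van _ (Climb.nm_ne hqd hx) _ k1 k2 (Climb.re_ne hf0 rfl)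
  · intro x
    apply QuadraticAlgebra.ext
    · exact D.s5 _
    · exact D.s5 _
  · intro x hx
    obtain ⟨k, k1, k2, rfl⟩ := f2_mem.1 hx
    exact (f2_ext_eq hd).2 ⟨k1, map_zero σ⟩
  · intro x hx
    obtain ⟨k, k1, k2, rfl⟩ := f2_mem.1 hx
    exact (f2_ext_eq hd').2 ⟨k2, map_zero τ⟩
  · intro x
    apply QuadraticAlgebra.ext
    · exact (D.comm _).symm
    · exact (D.comm _).symm
  · intro x y hx hy
    exact f2_comm hd D.cs hx hy
  · intro h
    apply F.h2K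
    have h' := congrArg QuadraticAlgebra.re h
    have := hcast 2
    push_cast at this
    rw [this] at h'
    exact h'
  · intro h
    apply F.h5K
    have h' := congrArg QuadraticAlgebra.re h
    have := hcast 5
    push_cast at this
    rw [this] at h'
    exact h'
  · rw [hpow, hpow, hpow]
    apply QuadraticAlgebra.ext
    · exact G.hζ
    · show (0 : K) + 0 + 0 + 0 + 0 = 0
      ring
  · rw [hcoe, mul_inv_cancel₀ G.s0]
    rfl
  · rw [hcoe]
    exact QuadraticAlgebra.ext G.ss (map_zero σ)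
  · rw [hpow, hcoe]
    exact QuadraticAlgebra.ext sinv (map_zero σ)
  · exact (f2_ext_eq hd).2 ⟨G.sζ, map_zero σ⟩
  · exact (f2_ext_eq hd).2 ⟨h0, h1⟩
  · exact (f2_ext_eq hd).2 ⟨sδ, map_zero σ⟩
  · exact (f2_ext_eq hd').2 ⟨G.ts, map_zero τ⟩
  · exact (f2_ext_eq hd').2 ⟨tinv, map_zero τ⟩
  · exact (f2_ext_eq hd').2 ⟨G.tζ, map_zero τ⟩
  · exact (f2_ext_eq hd').2 ⟨h0', h1'⟩
  · apply QuadraticAlgebra.ext
    · exact tδ
    · show τ 0 = -0
      rw [map_zero, neg_zero]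
  · rw [← hφ]
    exact f2_mem.2 ⟨ζ + ζ ^ 4, by rw [map_add, map_pow, G.sζ], by rw [map_add, map_pow, G.tζ], rfl⟩
  · rw [hpow]
    exact f2_mem.2 ⟨δ ^ 2, by rw [map_pow, sδ], by rw [map_pow, tδ, neg_sq], rfl⟩
  · exact fun h => h10 (congrArg QuadraticAlgebra.im h)
  · exact fun h => hδ (congrArg QuadraticAlgebra.re h)
  · exact fun x y hx hy h1 h2 => f2_L D hd hx hy h1 h2
  · exact fun x y hx hy h1 h2 => f2_M D hd' hx hy h1 h2
  · exact fun z hz => f2_s D G hz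
  · intro l hl e he se te
    obtain ⟨l1, l2⟩ := (f2_ext_eq hd).1 hl
    obtain ⟨a1, a2⟩ := (f2_ext_eq hd).1 se
    obtain ⟨b1, b2⟩ := (f2_ext_eq hd').1 te
    have e1 : (⟨s, 0⟩ : QuadraticAlgebra K d 0) ^ 2 - l = ⟨s ^ 2 - l.re, -l.im⟩ := by
      rw [hpow]
      apply QuadraticAlgebra.ext
      · rfl
      · show 0 - l.im = -l.im
        rw [zero_sub]
    rw [e1]
    refine D.cl_D F G hd hd' l1 l2 a1 b1 a2 b2 ?_
    by_contra hcon
    push Not at hcon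
    exact he (QuadraticAlgebra.ext hcon.1 hcon.2)

end Pool.Agent.MP_1b9aaa_al.Ten
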