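import Pool.Agent.Lib.MP_1b9aaa_al.TenF2

/-!
# MP_1b9aaa_al, T_10: the first block over a quadratic extension `E = F(√d)`, quadratics in s squared
-/

set_option autoImplicit false

namespace Pool.Agent.MP_1b9aaa_al.Ten

open IsSteinberg

variable {K T : Type*} [Field K] [AddCommGroup T] {σ τ : K ≃+* K} {ω : T →+ T} {c : K → K → T}

/-- `c(s, L*) = 0` -/
private lemma TenF3_s (D : Dat σ τ ω c) {i : K} (F : Fld σ τ D.tt D.comm i) {ζ s : K}
    (G : Gen σ τ ζ s) {y : K} (hy : σ y = y) (hy0 : y ≠ 0) : c s y = 0 := by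
  have h := D.lblock F G (map_zero σ) hy hy0
  rwa [sub_zero] at h

/-- `c(s⁴ + u s² + v, L*) = 0` for `u, v ∈ F` with `u² - 4v` not a square in `K` -/
theorem Dat.quad_irr (D : Dat σ τ ω c) {i : K} (F : Fld σ τ D.tt D.comm i) {ζ s : K}
    (G : Gen σ τ ζ s) [Infinite (fixS σ)] {δ : K} (sδ : σ δ = δ) (tδ : τ δ = -δ) (hδ : δ ≠ 0)
    {u v y : K} (hu : σ u = u) (hu' : τ u = u) (hv : σ v = v) (hv' : τ v = v)
    (hq : ∀ r : K, r * r ≠ u ^ 2 - 4 * v) (hy : σ y = y) (hy0 : y ≠ 0) :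
    c (s ^ 4 + u * s ^ 2 + v) y = 0 := by
  have h2K := F.h2K
  have s0 := G.s0
  have s2 : σ (2 : K) = 2 := map_ofNat σ 2
  have t2 : τ (2 : K) = 2 := map_ofNat τ 2
  have s4 : σ (4 : K) = 4 := map_ofNat σ 4
  have t4 : τ (4 : K) = 4 := map_ofNat τ 4
  have h4K : (4 : K) ≠ 0 := by
    have : (4 : K) = 2 * 2 := by norm_num
    rw [this]
    exact mul_ne_zero h2K h2K
  set d : K := u ^ 2 - 4 * v with hdd
  have hd : σ d = d := by rw [hdd, map_sub, map_mul, map_pow, hu, hv, s4]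
  have hd' : τ d = d := by rw [hdd, map_sub, map_mul, map_pow, hu', hv', t4]
  have hF : Fact (∀ r : K, r ^ 2 ≠ d + 0 * r) := ⟨fun r h => hq r (by
    rw [← sq, h, zero_mul, add_zero])⟩
  have hE := D.edat F G hd hd' sδ tδ hδ (q0 := u / 2) (q1 := 1 / 2)
    (by rw [map_div₀, hu, s2]) (by rw [map_div₀, hu', t2]) (by rw [map_div₀, map_one, s2])
    (by rw [map_div₀, map_one, t2]) (one_div_ne_zero h2K)
  -- the value `y = p + q δ`
  have hp1 : σ ((y + τ y) / 2) = (y + τ y) / 2 := by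
    rw [map_div₀, map_add, s2, D.comm, hy]
  have hp2 : τ ((y + τ y) / 2) = (y + τ y) / 2 := by
    rw [map_div₀, map_add, t2, D.tt, add_comm]
  have hq1 : σ ((y - τ y) / (2 * δ)) = (y - τ y) / (2 * δ) := by
    rw [map_div₀, map_sub, map_mul, s2, D.comm, hy, sδ]
  have hq2 : τ ((y - τ y) / (2 * δ)) = (y - τ y) / (2 * δ) := by
    rw [map_div₀, map_sub, map_mul, t2, D.tt, tδ, mul_neg, div_neg, ← neg_div, neg_sub]
  have hpS : (⟨(y + τ y) / 2, 0⟩ : QuadraticAlgebra K d 0) ∈ SE σ τ d :=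
    ⟨(y + τ y) / 2, ⟨hp1, hp2⟩, rfl⟩
  have hqS : (⟨(y - τ y) / (2 * δ), 0⟩ : QuadraticAlgebra K d 0) ∈ SE σ τ d :=
    ⟨(y - τ y) / (2 * δ), ⟨hq1, hq2⟩, rfl⟩
  have e : (⟨(y + τ y) / 2, 0⟩ : QuadraticAlgebra K d 0) +
      ⟨(y - τ y) / (2 * δ), 0⟩ * ⟨δ, 0⟩ = ⟨y, 0⟩ := by
    apply QuadraticAlgebra.ext
    · simp only [QuadraticAlgebra.re_add, QuadraticAlgebra.re_mul, mul_zero, add_zero]
      field_simp
      ring
    · simp only [QuadraticAlgebra.im_add, QuadraticAlgebra.im_mul, mul_zero, add_zero, zero_mul]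
  have hne : (⟨y, 0⟩ : QuadraticAlgebra K d 0) ≠ 0 := fun h =>
    hy0 (congrArg QuadraticAlgebra.re h)
  have h := hE.main hpS hqS (by rw [e]; exact hne)
  rw [e, Climb.D_im0 rfl] at h
  -- the norm of `w`
  have hw0 : (⟨s + u / 2 * s⁻¹, 1 / 2 * s⁻¹⟩ : QuadraticAlgebra K d 0) ≠ 0 := by
    intro h0
    have h1 : 1 / 2 * s⁻¹ = 0 := congrArg QuadraticAlgebra.im h0
    exact mul_ne_zero (one_div_ne_zero h2K) (inv_ne_zero s0) h1
  have hN := Climb.nm_ne (Climb.hq_of (K := K) (d := d)) hw0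
  have e2 : s ^ 4 + u * s ^ 2 + v = s * s * ((s + u / 2 * s⁻¹) * (s + u / 2 * s⁻¹) -
      d * (1 / 2 * s⁻¹ * (1 / 2 * s⁻¹))) := by
    rw [hdd]
    field_simp
    ring
  rw [e2, D.st.mul_left _ _ _ (mul_ne_zero s0 s0) hN hy0, D.st.mul_left _ _ _ s0 s0 hy0,
    TenF3_s D F G hy hy0, add_zero, zero_add]
  exact h

/-- `c(s⁴ + u s² + v, L*) = 0` for all `u, v ∈ F` -/
theorem Dat.quad (D : Dat σ τ ω c) {i : K} (F : Fld σ τ D.tt D.comm i) {ζ s : K}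
    (G : Gen σ τ ζ s) [Infinite (fixS σ)] {δ : K} (sδ : σ δ = δ) (tδ : τ δ = -δ) (hδ : δ ≠ 0)
    {u v y : K} (hu : σ u = u) (hu' : τ u = u) (hv : σ v = v) (hv' : τ v = v)
    (hy : σ y = y) (hy0 : y ≠ 0) : c (s ^ 4 + u * s ^ 2 + v) y = 0 := by
  by_cases hq : ∀ r : K, r * r ≠ u ^ 2 - 4 * v
  · exact D.quad_irr F G sδ tδ hδ hu hu' hv hv' hq hy hy0
  push Not at hq
  obtain ⟨r, hr⟩ := hq
  have h2K := F.h2K
  have s2 : σ (2 : K) = 2 := map_ofNat σ 2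
  have s4 : σ (4 : K) = 4 := map_ofNat σ 4
  have hrs : σ r * σ r = r * r := by
    rw [← map_mul, hr, map_sub, map_mul, map_pow, hu, hv, s4]
  have hr1 : σ r = r := by
    rcases mul_self_eq_mul_self_iff.1 hrs with h | h
    · exact h
    · have h5 := D.s5 r
      rw [h, map_neg, h, neg_neg, h, map_neg, h, neg_neg, h] at h5
      have h6 : (2 : K) * r = 0 := by linear_combination -h5
      have h7 : r = 0 := (mul_eq_zero.1 h6).resolve_left h2K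
      rw [h7, map_zero]
  have k1 : σ ((-u + r) / 2) = (-u + r) / 2 := by rw [map_div₀, map_add, map_neg, hu, hr1, s2]
  have k2 : σ ((-u - r) / 2) = (-u - r) / 2 := by rw [map_div₀, map_sub, map_neg, hu, hr1, s2]
  have n : ∀ k : K, σ k = k → s ^ 2 - k ≠ 0 := by
    intro k hk h
    have h' : s ^ 2 = k := sub_eq_zero.1 h
    exact G.sq.not_fixed F.h5K (by rw [h', hk])
  have e : s ^ 4 + u * s ^ 2 + v = (s ^ 2 - (-u + r) / 2) * (s ^ 2 - (-u - r) / 2) := by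
    field_simp
    linear_combination hr
  rw [e, D.st.mul_left _ _ _ (n _ k1) (n _ k2) hy0, D.lblock F G.sq k1 hy hy0,
    D.lblock F G.sq k2 hy hy0, add_zero]

end Pool.Agent.MP_1b9aaa_al.Ten
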