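import Pool.Agent.Lib.MP_1b9aaa_al.TenA

/-!
# MP_1b9aaa_al, T_10: the group of unipotent periods, general form

As `T5G`, but the homomorphism `H : E* → T` need not be trivial on the fixed field of `t`, and the
family of symmetries is `u ↦ G u - z A t u`, `z` of norm one, for arbitrary `G`, `A`.
-/

set_option autoImplicit false

namespace Pool.Agent.MP_1b9aaa_al.Ten

open T5 (U1)

/-- a field with an involution and a homomorphism -/
structure Inv {E T : Type*} [Field E] [AddCommGroup T] (t : E ≃+* E) (H : E → T) : Prop where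
  tt : ∀ x, t (t x) = x
  ntriv : ∃ x : E, t x ≠ x
  hmul : ∀ x y, x ≠ 0 → y ≠ 0 → H (x * y) = H x + H y
  h2T : ∀ a : T, a + a = 0 → a = 0

namespace Inv

variable {E T : Type*} [Field E] [AddCommGroup T] {t : E ≃+* E} {H : E → T}

theorem sym_ne (D : Inv t H) {a b : E} (h : a * t a - b * t b ≠ 0) {u : E} (hu : u ≠ 0) :
    a * u + b * t u ≠ 0 := by
  intro h1
  have h2 : t a * t u + t b * u = 0 := by
    have := congrArg t h1
    simpa [D.tt] using this
  have h3 : (a * t a - b * t b) * u = 0 := by linear_combination t a * h1 - b * h2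
  exact (mul_ne_zero h hu) h3

theorem per_ne (D : Inv t H) {p : E} (hp : t p = -p) {u : E} (hu : u ≠ 0) :
    u + p * (u - t u) ≠ 0 := by
  have := D.sym_ne (a := 1 + p) (b := -p) (u := u) (by
    rw [map_add, map_neg, map_one, hp]
    intro h
    exact one_ne_zero (α := E) (by linear_combination h)) hu
  intro h
  exact this (by linear_combination h)

/-- periods: `H (u + p (u - t u)) = H u` -/
def Per (D : Inv t H) : AddSubgroup E where
  carrier := {p | t p = -p ∧ ∀ u, u ≠ 0 → H (u + p * (u - t u)) = H u}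
  zero_mem' := ⟨by simp, by simp⟩
  add_mem' := by
    rintro p q ⟨hp, hp'⟩ ⟨hq, hq'⟩
    refine ⟨by rw [map_add, hp, hq]; ring, fun u hu => ?_⟩
    have h1 := hp' (u + q * (u - t u)) (D.per_ne hq hu)
    rw [hq' u hu] at h1
    rw [← h1]
    congr 1
    simp only [map_add, map_mul, map_sub, D.tt, hq]
    ring
  neg_mem' := by
    rintro p ⟨hp, hp'⟩
    have hp2 : t (-p) = - (-p) := by rw [map_neg, hp]
    refine ⟨hp2, fun u hu => ?_⟩
    have h1 := hp' (u + (-p) * (u - t u)) (D.per_ne hp2 hu)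
    rw [← h1]
    congr 1
    simp only [map_add, map_mul, map_sub, map_neg, D.tt, hp]
    ring

/-- `PT` : all `l` such that `s(l θ)` is a period for all `θ` of norm one -/
def PT (D : Inv t H) : AddSubgroup E where
  carrier := {l | ∀ θ, U1 t θ → l * θ - t (l * θ) ∈ D.Per}
  zero_mem' := fun θ _ => by simp
  add_mem' := by
    intro a b ha hb θ hθ
    have := D.Per.add_mem (ha θ hθ) (hb θ hθ)
    have e1 : (a + b) * θ - t ((a + b) * θ) = a * θ - t (a * θ) + (b * θ - t (b * θ)) := by
      rw [add_mul, map_add]; ring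
    rw [e1]; exact this
  neg_mem' := by
    intro a ha θ hθ
    have := D.Per.neg_mem (ha θ hθ)
    have e1 : (-a) * θ - t ((-a) * θ) = -(a * θ - t (a * θ)) := by
      rw [neg_mul, map_neg]; ring
    rw [e1]; exact this

theorem mem_Per (D : Inv t H) {p : E} :
    p ∈ D.Per ↔ t p = -p ∧ ∀ u, u ≠ 0 → H (u + p * (u - t u)) = H u := Iff.rfl

theorem mem_PT (D : Inv t H) {l : E} : l ∈ D.PT ↔ ∀ θ, U1 t θ → l * θ - t (l * θ) ∈ D.Per :=
  Iff.rfl

/-- the ring of multipliers of `PT` -/
def BR (D : Inv t H) : Subring E where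
  carrier := {b | ∀ l ∈ D.PT, b * l ∈ D.PT}
  zero_mem' := fun l _ => by simp
  one_mem' := fun l hl => by simpa using hl
  add_mem' := by
    intro a b ha hb l hl
    rw [add_mul]
    exact D.PT.add_mem (ha l hl) (hb l hl)
  mul_mem' := by
    intro a b ha hb l hl
    rw [mul_assoc]
    exact ha _ (hb l hl)
  neg_mem' := by
    intro a ha l hl
    rw [neg_mul]
    exact D.PT.neg_mem (ha l hl)

theorem mem_BR (D : Inv t H) {b : E} : b ∈ D.BR ↔ ∀ l ∈ D.PT, b * l ∈ D.PT := Iff.rfl

private theorem h1 (D : Inv t H) : H 1 = 0 := by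
  have h := D.hmul 1 1 one_ne_zero one_ne_zero
  rw [mul_one] at h
  exact (left_eq_add.mp h)

private theorem hm1 (D : Inv t H) : H (-1) = 0 := by
  have h := D.hmul (-1) (-1) (neg_ne_zero.mpr one_ne_zero) (neg_ne_zero.mpr one_ne_zero)
  rw [neg_mul_neg, mul_one, D.h1] at h
  exact D.h2T _ h.symm

private theorem hinv (D : Inv t H) {x : E} (hx : x ≠ 0) : H x⁻¹ = - H x := by
  have h := D.hmul x x⁻¹ hx (inv_ne_zero hx)
  rw [mul_inv_cancel₀ hx, D.h1] at h
  exact (neg_eq_of_add_eq_zero_right h.symm).symm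

private theorem hdiv (D : Inv t H) {x y : E} (hx : x ≠ 0) (hy : y ≠ 0) :
    H (x / y) = H x - H y := by
  rw [div_eq_mul_inv, D.hmul _ _ hx (inv_ne_zero hy), D.hinv hy, sub_eq_add_neg]

private theorem exists_hilbert (D : Inv t H) {ρ : E} (hρ : U1 t ρ) :
    ∃ u, u ≠ 0 ∧ t u = ρ * u := by
  by_cases h : ρ = -1
  · obtain ⟨x, hx⟩ := D.ntriv
    refine ⟨x - t x, sub_ne_zero.mpr (Ne.symm hx), ?_⟩
    rw [h, map_sub, D.tt]
    ring
  · refine ⟨1 + t ρ, ?_, ?_⟩
    · intro h1
      have h2 : t (1 + t ρ) = 0 := by rw [h1, map_zero]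
      rw [map_add, map_one, D.tt] at h2
      exact h (by linear_combination h2)
    · rw [map_add, map_one, D.tt]
      unfold T5.U1 at hρ
      linear_combination -hρ

/-- fixed elements which multiply `Per` into itself are in `B` -/
private theorem mem_BR_of_fix (D : Inv t H) {m : E} (hm : t m = m)
    (h : ∀ p ∈ D.Per, m * p ∈ D.Per) : m ∈ D.BR := by
  intro l hl θ hθ
  have := h _ (hl θ hθ)
  have e1 : m * l * θ - t (m * l * θ) = m * (l * θ - t (l * θ)) := by
    simp only [map_mul, hm]; ring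
  rw [e1]; exact this

private theorem sym_per (D : Inv t H) (a b : E) {q : E} (hq : t q = -q) (u : E) :
    a * (u + q * (u - t u)) + b * t (u + q * (u - t u)) =
      (a * u + b * t u) + q * (u - t u) * (a + b) := by
  rw [map_add, map_mul, map_sub, D.tt, hq]
  ring

/-- conjugation of a period by a symmetry -/
private theorem per_conj (D : Inv t H) {a b : E} {k : T} (h : T5.Sym t H a b k) {p : E}
    (hp : p ∈ D.Per) : p * ((a + b) * t (a + b)) / (a * t a - b * t b) ∈ D.Per := by
  obtain ⟨hd, hs⟩ := h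
  obtain ⟨hp1, hp2⟩ := hp
  have hr : a + b ≠ 0 := by simpa using D.sym_ne hd (one_ne_zero (α := E))
  have hr' : t (a + b) ≠ 0 := (map_ne_zero t).mpr hr
  have htd : t (a * t a - b * t b) = a * t a - b * t b := by
    simp only [map_sub, map_mul, D.tt]; ring
  have hq : t (p * ((a + b) * t (a + b)) / (a * t a - b * t b)) =
      -(p * ((a + b) * t (a + b)) / (a * t a - b * t b)) := by
    rw [map_div₀, htd, map_mul, map_mul, D.tt, hp1]
    ring
  refine ⟨hq, fun u hu => ?_⟩
  -- `v = δ φ⁻¹(r u)`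
  set δ := a * t a - b * t b with hδ
  set r := a + b with hrd
  set v := (t a * (r * u) - b * (t r * t u)) / δ with hv
  have htv : t v = (a * (t r * t u) - t b * (r * u)) / δ := by
    rw [hv, map_div₀, htd]
    simp only [map_sub, map_mul, D.tt]
  have hra : t r = t a + t b := by rw [hrd, map_add]
  have e1 : a * v + b * t v = r * u := by
    rw [htv, hv]
    field_simp
    rw [hδ]
    ring
  have e2 : v - t v = (r * t r) * (u - t u) / δ := by
    rw [htv, hv, hra, hrd]
    field_simp
    ring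
  have hv0 : v ≠ 0 := by
    intro h
    rw [h, map_zero, mul_zero, mul_zero, add_zero] at e1
    exact (mul_ne_zero hr hu) e1.symm
  have h1 := hp2 v hv0
  have h2 := hs _ (D.per_ne hp1 hv0)
  rw [h1] at h2
  have h3 := hs v hv0
  rw [← h3, e1] at h2
  have e3 : a * (v + p * (v - t v)) + b * t (v + p * (v - t v)) =
      r * (u + p * (r * t r) / δ * (u - t u)) := by
    rw [D.sym_per a b hp1, e1, e2, ← hrd]
    field_simp
  rw [e3] at h2
  rw [D.hmul _ _ hr (D.per_ne hq hu), D.hmul _ _ hr hu] at h2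
  exact add_left_cancel h2

/-- conjugation of a period by the inverse of a symmetry -/
private theorem per_conj' (D : Inv t H) {a b : E} {k : T} (h : T5.Sym t H a b k) {p : E}
    (hp : p ∈ D.Per) : p * (a * t a - b * t b) / ((a + b) * t (a + b)) ∈ D.Per := by
  obtain ⟨hd, hs⟩ := h
  obtain ⟨hp1, hp2⟩ := hp
  have hr : a + b ≠ 0 := by simpa using D.sym_ne hd (one_ne_zero (α := E))
  have hr' : t (a + b) ≠ 0 := (map_ne_zero t).mpr hr
  have htd : t (a * t a - b * t b) = a * t a - b * t b := by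
    simp only [map_sub, map_mul, D.tt]; ring
  have hq : t (p * (a * t a - b * t b) / ((a + b) * t (a + b))) =
      -(p * (a * t a - b * t b) / ((a + b) * t (a + b))) := by
    rw [map_div₀, map_mul, htd, map_mul, D.tt, hp1]
    rw [mul_comm (t (a + b)) (a + b)]
    ring
  refine ⟨hq, fun u hu => ?_⟩
  set δ := a * t a - b * t b with hδ
  set r := a + b with hrd
  have hra : t r = t a + t b := by rw [hrd, map_add]
  set w := (a * u + b * t u) / r with hw
  have hw0 : w ≠ 0 := div_ne_zero (D.sym_ne hd hu) hr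
  have htw : t w = (t a * t u + t b * u) / t r := by
    rw [hw, map_div₀]
    simp only [map_add, map_mul, D.tt]
  have e2 : w - t w = δ * (u - t u) / (r * t r) := by
    rw [htw, hw]
    field_simp
    rw [hδ, hra, hrd]
    ring
  have h1 := hp2 w hw0
  have h2 := hs _ (D.per_ne hq hu)
  have e3 : a * (u + p * δ / (r * t r) * (u - t u)) + b * t (u + p * δ / (r * t r) * (u - t u)) =
      r * (w + p * (w - t w)) := by
    rw [D.sym_per a b hq, e2, hw, ← hrd]
    field_simp
  rw [e3, D.hmul _ _ hr (D.per_ne hp1 hw0), h1] at h2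
  have h3 := hs u hu
  rw [hw, D.hdiv (D.sym_ne hd hu) hr, h3] at h2
  have h4 : H u + k = H (u + p * δ / (r * t r) * (u - t u)) + k := by
    rw [← h2]; abel
  exact (add_right_cancel h4).symm

theorem U1_mem_BR (D : Inv t H) {θ : E} (hθ : U1 t θ) : θ ∈ D.BR := by
  intro l hl θ' hθ'
  have := hl (θ * θ') (hθ.mul hθ')
  rw [show θ * l * θ' = l * (θ * θ') by ring]
  exact this

theorem PT_t (D : Inv t H) {l : E} (hl : l ∈ D.PT) : t l ∈ D.PT := by
  intro θ hθ
  have h := D.Per.neg_mem (hl (t θ) (hθ.conj D.tt))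
  have e1 : t l * θ - t (t l * θ) = -(l * t θ - t (l * t θ)) := by
    simp only [map_mul, D.tt]; ring
  rw [e1]; exact h

/-- (P) -/
theorem H_one_add (D : Inv t H) {p ρ : E} (hp : p ∈ D.Per) (hρ : U1 t ρ) :
    H (1 + p * (1 - ρ)) = 0 := by
  obtain ⟨u, hu, hu'⟩ := D.exists_hilbert hρ
  have h1 := hp.2 u hu
  have h2 := D.per_ne hp.1 hu
  have e1 : u + p * (u - t u) = u * (1 + p * (1 - ρ)) := by rw [hu']; ring
  rw [e1] at h1 h2
  rw [D.hmul _ _ hu (right_ne_zero_of_mul h2)] at h1
  exact add_eq_left.mp h1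

/-- the converse of (P) -/
theorem per_of (D : Inv t H) {p : E} (hp : t p = -p)
    (h : ∀ ρ, U1 t ρ → H (1 + p * (1 - ρ)) = 0) : p ∈ D.Per := by
  refine ⟨hp, fun u hu => ?_⟩
  have h2 := D.per_ne hp hu
  have e1 : u + p * (u - t u) = u * (1 + p * (1 - t u / u)) := by
    field_simp
  rw [e1] at h2 ⊢
  rw [D.hmul _ _ hu (right_ne_zero_of_mul h2), h _ (T5.U1.div_self' D.tt hu), add_zero]

section family

variable (D : Inv t H) {G A : E} {h0 : T} (hA : A ≠ 0)
  (hs : ∀ z, U1 t z → G - z * A ≠ 0 → H (G - z * A) = h0)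

include D hA hs

private theorem sym_phi {z : E} (hz : U1 t z) (hd : G * t G - A * t A ≠ 0) :
    T5.Sym t H G (-(z * A)) h0 := by
  have _ := hA
  have hd' : G * t G - -(z * A) * t (-(z * A)) ≠ 0 := by
    intro h
    apply hd
    rw [← h]
    rw [map_neg, map_mul]
    unfold T5.U1 at hz
    linear_combination A * t A * hz
  refine ⟨hd', fun u hu => ?_⟩
  have h1 := D.sym_ne hd' hu
  have hz' : U1 t (z * (t u / u)) := hz.mul (T5.U1.div_self' D.tt hu)
  have e1 : G * u + -(z * A) * t u = u * (G - z * (t u / u) * A) := by field_simp; ring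
  rw [e1] at h1 ⊢
  rw [D.hmul _ _ hu (right_ne_zero_of_mul h1), hs _ hz' (right_ne_zero_of_mul h1)]

/-- if `N G = N A` then `H = 0` on the elements of norm one -/
theorem zero_of_d (hd : G * t G - A * t A = 0) {x : E} (hx : U1 t x) : H x = 0 := by
  have hA' : t A ≠ 0 := (map_ne_zero t).mpr hA
  have hz : U1 t (G / A) := by
    unfold T5.U1
    rw [map_div₀, div_mul_div_comm, div_eq_one_iff_eq (mul_ne_zero hA hA')]
    linear_combination hd
  have hG0 : G ≠ 0 := by
    intro h
    rw [h, zero_div] at hz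
    exact hz.ne rfl
  have hk : ∀ w, U1 t w → w ≠ 1 → H (1 - w) = h0 - H G := by
    intro w hw hw1
    have e1 : G - G / A * w * A = G * (1 - w) := by field_simp
    have e2 : G * (1 - w) ≠ 0 := mul_ne_zero hG0 (sub_ne_zero.mpr (Ne.symm hw1))
    have h1 := hs (G / A * w) (hz.mul hw) (by rw [e1]; exact e2)
    rw [e1, D.hmul _ _ hG0 (right_ne_zero_of_mul e2)] at h1
    rw [← h1]; abel
  by_cases h : x = -1
  · rw [h]
    exact D.hm1
  · have hw : U1 t (-x) := hx.neg
    have hw1 : -x ≠ 1 := by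
      intro h1
      exact h (by linear_combination -h1)
    have hi1 : (-x)⁻¹ ≠ 1 := by
      intro h1
      exact hw1 (inv_eq_one.mp h1)
    have a1 : (1 : E) - -x ≠ 0 := sub_ne_zero.mpr (Ne.symm hw1)
    have a2 : (1 : E) - (-x)⁻¹ ≠ 0 := sub_ne_zero.mpr (Ne.symm hi1)
    have hx0 := hx.ne
    have e3 : (1 - -x) * (1 - -x) = x * ((1 - -x) * (1 - (-x)⁻¹)) := by
      rw [inv_neg]
      field_simp
      ring
    have e4 := D.hmul _ _ a1 a1
    rw [e3, D.hmul _ _ hx0 (mul_ne_zero a1 a2), D.hmul _ _ a1 a2, hk _ hw hw1,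
      hk _ hw.inv hi1] at e4
    exact add_eq_right.mp e4

/-- `N (G - z A) / (N G - N A) ∈ B` -/
theorem norm_div_mem (hd : G * t G - A * t A ≠ 0) {z : E} (hz : U1 t z) :
    (G - z * A) * t (G - z * A) / (G * t G - A * t A) ∈ D.BR := by
  have h := D.sym_phi hA hs hz hd
  have e1 : G * t G - -(z * A) * t (-(z * A)) = G * t G - A * t A := by
    rw [map_neg, map_mul]
    unfold T5.U1 at hz
    linear_combination -A * t A * hz
  refine D.mem_BR_of_fix ?_ fun p hp => ?_
  · simp only [map_div₀, map_sub, map_mul, D.tt]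
    ring
  · have h1 := D.per_conj h hp
    rw [e1, ← sub_eq_add_neg] at h1
    convert h1 using 1
    ring

/-- `(N G - N A) / N (G - z A) ∈ B` -/
theorem div_norm_mem (hd : G * t G - A * t A ≠ 0) {z : E} (hz : U1 t z) :
    (G * t G - A * t A) / ((G - z * A) * t (G - z * A)) ∈ D.BR := by
  have h := D.sym_phi hA hs hz hd
  have e1 : G * t G - -(z * A) * t (-(z * A)) = G * t G - A * t A := by
    rw [map_neg, map_mul]
    unfold T5.U1 at hz
    linear_combination -A * t A * hz
  refine D.mem_BR_of_fix ?_ fun p hp => ?_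
  · simp only [map_div₀, map_sub, map_mul, D.tt]
    ring
  · have h1 := D.per_conj' h hp
    rw [e1, ← sub_eq_add_neg] at h1
    convert h1 using 1
    ring

/-- `A G / (N G - N A) ∈ PT` -/
theorem AG_mem (hd : G * t G - A * t A ≠ 0) : A * G / (G * t G - A * t A) ∈ D.PT := by
  intro θ hθ
  have hphi : ∀ z, U1 t z → ∀ u, u ≠ 0 → H (G * u - z * A * t u) = H u + h0 := by
    intro z hz u hu
    have := (D.sym_phi hA hs hz hd).2 u hu
    rw [← this]
    congr 1
    ring
  have hphi0 : ∀ z, U1 t z → ∀ u, u ≠ 0 → G * u - z * A * t u ≠ 0 := by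
    intro z hz u hu
    have := D.sym_ne (D.sym_phi hA hs hz hd).1 hu
    intro h
    apply this
    linear_combination h
  have hA' : t A ≠ 0 := (map_ne_zero t).mpr hA
  have hθ0 := hθ.ne
  have hθt := hθ.map_eq
  set δ := G * t G - A * t A with hδ
  have htδ : t δ = δ := by
    rw [hδ]; simp only [map_sub, map_mul, D.tt]; ring
  by_cases hG0 : G = 0
  · have : A * G / δ * θ - t (A * G / δ * θ) = 0 := by rw [hG0]; simp
    rw [this]
    exact D.Per.zero_mem
  have hG' : t G ≠ 0 := (map_ne_zero t).mpr hG0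
  set k := G * θ / t A with hk
  have hk0 : k ≠ 0 := div_ne_zero (mul_ne_zero hG0 hθ0) hA'
  have htk : t k = t G * θ⁻¹ / A := by rw [hk, map_div₀, map_mul, D.tt, hθt]
  have htk0 : t k ≠ 0 := (map_ne_zero t).mpr hk0
  have hk1 : k ≠ 1 := by
    intro h
    have h1 : G * θ = t A := by rw [hk, div_eq_one_iff_eq hA'] at h; exact h
    have h2 : t G * θ⁻¹ = A := by
      have := congrArg t h1
      rw [map_mul, D.tt, hθt] at this
      exact this
    apply hd
    have h3 : A * t A = G * t G := by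
      rw [← h1, ← h2]
      field_simp
    rw [hδ, h3, sub_self]
  have h1k : (1 : E) - k ≠ 0 := sub_ne_zero.mpr (Ne.symm hk1)
  have h1k' : (1 : E) - t k ≠ 0 := by
    have := (map_ne_zero t).mpr h1k
    rwa [map_sub, map_one] at this
  -- the two rotations
  set y := (1 - k) / (1 - t k) with hy
  set x := t k / k * y with hx
  have hty : U1 t y := by
    have := T5.U1.div_self D.tt h1k
    rwa [map_sub, map_one] at this
  have htx : U1 t x := (T5.U1.div_self' D.tt hk0).mul hty
  have hx0 := htx.ne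
  have hy0 := hty.ne
  have hz1 : U1 t (θ / x) := by
    rw [div_eq_mul_inv]; exact hθ.mul htx.inv
  have hz2 : U1 t (θ / y) := by
    rw [div_eq_mul_inv]; exact hθ.mul hty.inv
  -- main identity
  have hq : t (A * G / δ * θ - t (A * G / δ * θ)) = -(A * G / δ * θ - t (A * G / δ * θ)) := by
    rw [map_sub, D.tt]; ring
  set q := A * G / δ * θ - t (A * G / δ * θ) with hqd
  have hq1 : δ * q = A * t A * (k - t k) := by
    rw [hqd, map_mul, map_div₀, htδ, map_mul, hθt, htk, hk]
    field_simp
  have key : ∀ u, u ≠ 0 → H (u + q * (u - t u)) = H x + H u := by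
    intro u hu
    set v := t G * u + θ / y * A * t u with hv
    have htv : t v = G * t u + (θ / y)⁻¹ * t A * u := by
      rw [hv, map_add, map_mul, map_mul, map_mul, D.tt, D.tt, hz2.map_eq]
    have e1 : G * v - θ / y * A * t v = δ * u := by
      rw [htv, hv, hδ]
      field_simp
      ring
    have hv0 : v ≠ 0 := by
      intro h
      rw [h, map_zero, mul_zero, mul_zero, sub_zero] at e1
      exact (mul_ne_zero hd hu) e1.symm
    have e2 : x * (G * v - θ / x * A * t v) = δ * (u + q * (u - t u)) := by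
      have e3 : δ * (u + q * (u - t u)) = δ * u + A * t A * (k - t k) * (u - t u) := by
        rw [mul_add, ← mul_assoc, hq1]
      rw [e3, htv, hv, hδ]
      exact T5.key_id hk0 htk0 hθ0 h1k h1k' (by rw [hk]; field_simp) (by rw [htk]; field_simp)
        hy hx
    have e4 := hphi _ hz2 v hv0
    rw [e1, D.hmul _ _ hd hu] at e4
    have e5 := hphi _ hz1 v hv0
    have e6 := hphi0 _ hz1 v hv0
    have e7 : H (x * (G * v - θ / x * A * t v)) = H x + (H v + h0) := by
      rw [D.hmul _ _ hx0 e6, e5]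
    rw [e2, D.hmul _ _ hd (D.per_ne hq hu), ← e4] at e7
    have e8 : H δ + H (u + q * (u - t u)) = H δ + (H x + H u) := by
      rw [e7]; abel
    exact add_left_cancel e8
  have hx1 : H x = 0 := by
    have := key 1 one_ne_zero
    rw [map_one, sub_self, mul_zero, add_zero] at this
    exact add_eq_right.mp this.symm
  refine ⟨hq, fun u hu => ?_⟩
  rw [key u hu, hx1, zero_add]

end family

end Inv

end Pool.Agent.MP_1b9aaa_al.Ten
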