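import Pool.Agent.Lib.MP_1b9aaa_al.T5G
import Pool.Agent.Lib.MP_1b9aaa_al.T5I
import Pool.Agent.Lib.MP_1b9aaa_al.T5N

/-!
# MP_1b9aaa_al, T_10: the group of symmetries of a dihedral map, abstract part

Variant of T5G in which `H` need not be trivial on the fixed elements of the involution `t`.
`E` a field with an involution `t`, `H : E* → T` a homomorphism which satisfies the relation `star`
below.  We define the group `Per` of unipotent periods of `H`, the group `PT` and the ring `B`, and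
prove the properties used in the ideal argument.  Result (`t_eq`): `H (t x) = H x` if `E` has an
element of norm `-1`.
-/

set_option autoImplicit false

namespace Pool.Agent.MP_1b9aaa_al.T5X

open T5

variable {E T : Type*} [Field E] [AddCommGroup T]

/-- the data: an involution `t`, a homomorphism `H` and the relation `star` -/
structure Dat (t : E ≃+* E) (H : E → T) (e E5 : E) (h0 : T) : Prop where
  tt : ∀ x, t (t x) = x
  ntriv : ∃ x : E, t x ≠ x
  hmul : ∀ x y, x ≠ 0 → y ≠ 0 → H (x * y) = H x + H y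
  h2T : ∀ a : T, a + a = 0 → a = 0
  u5 : U1 t E5
  star : ∀ μ ν s z, U1 t μ → U1 t ν → U1 t s → U1 t z → μ * ν = s * s →
    e + E5 * μ - z * (1 + ν) ≠ 0 → H (e + E5 * μ - z * (1 + ν)) = h0


namespace Dat

variable {t : E ≃+* E} {H : E → T} {e E5 : E} {h0 : T} (D : Dat t H e E5 h0)

include D

theorem h1 : H 1 = 0 := by
  have h := D.hmul 1 1 one_ne_zero one_ne_zero
  rw [one_mul] at h
  exact left_eq_add.mp h

theorem hneg1 : H (-1) = 0 := by
  have h0 : (-1 : E) ≠ 0 := neg_ne_zero.mpr one_ne_zero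
  have h := D.hmul (-1) (-1) h0 h0
  rw [neg_mul_neg, one_mul, D.h1] at h
  exact D.h2T _ h.symm

theorem hneg {x : E} (hx : x ≠ 0) : H (-x) = H x := by
  have h := D.hmul (-1) x (neg_ne_zero.mpr one_ne_zero) hx
  rw [D.hneg1, zero_add, neg_one_mul] at h
  exact h

theorem hinv {x : E} (hx : x ≠ 0) : H x⁻¹ = - H x := by
  have h := D.hmul x x⁻¹ hx (inv_ne_zero hx)
  rw [mul_inv_cancel₀ hx, D.h1] at h
  exact (neg_eq_of_add_eq_zero_right h.symm).symm

theorem hdiv {x y : E} (hx : x ≠ 0) (hy : y ≠ 0) : H (x / y) = H x - H y := by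
  rw [div_eq_mul_inv, D.hmul _ _ hx (inv_ne_zero hy), D.hinv hy, sub_eq_add_neg]

theorem skew : ∃ α : E, α ≠ 0 ∧ t α = -α := by
  obtain ⟨x, hx⟩ := D.ntriv
  refine ⟨x - t x, sub_ne_zero.mpr (Ne.symm hx), ?_⟩
  rw [map_sub, D.tt]
  ring

/-- `H (t x) = H x` as soon as `H (1 - z)` is the same for all `z ≠ 1` of norm one -/
theorem t_eq_of_const {k : T} (hk : ∀ z, U1 t z → z ≠ 1 → H (1 - z) = k) {x : E} (hx : x ≠ 0) :
    H (t x) = H x := by
  have htx : t x ≠ 0 := (map_ne_zero t).mpr hx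
  have a1 : ∀ z, U1 t z → z ≠ 1 → H z = 0 := by
    intro z hz h1
    have hz0 := hz.ne
    have h1' : t z ≠ 1 := by
      intro h
      apply h1
      have := congrArg t h
      rwa [D.tt, map_one] at this
    have e1 : (1 : E) - t z ≠ 0 := sub_ne_zero.mpr (Ne.symm h1')
    have e2 : 1 - z = -(z * (1 - t z)) := by
      unfold U1 at hz
      linear_combination -hz
    have e3 := hk z hz h1
    rw [e2, D.hneg (mul_ne_zero hz0 e1), D.hmul _ _ hz0 e1, hk _ (hz.conj D.tt) h1'] at e3
    exact add_eq_right.mp e3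
  by_cases h : x / t x = 1
  · rw [div_eq_one_iff_eq htx] at h
    rw [← h]
  · have h2 := a1 _ (U1.div_self D.tt hx) h
    rw [D.hdiv hx htx] at h2
    exact (sub_eq_zero.mp h2).symm

end Dat

namespace Dat

variable {t : E ≃+* E} {H : E → T} {e E5 : E} {h0 : T} (D : Dat t H e E5 h0)

include D

theorem sym_ne {a b : E} (h : a * t a - b * t b ≠ 0) {u : E} (hu : u ≠ 0) :
    a * u + b * t u ≠ 0 := by
  intro h1
  have h2 : t a * t u + t b * u = 0 := by
    have := congrArg t h1
    simpa [D.tt] using this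
  have h3 : (a * t a - b * t b) * u = 0 := by linear_combination t a * h1 - b * h2
  exact (mul_ne_zero h hu) h3

theorem per_ne {p : E} (hp : t p = -p) {u : E} (hu : u ≠ 0) : u + p * (u - t u) ≠ 0 := by
  have := D.sym_ne (a := 1 + p) (b := -p) (u := u) (by
    rw [map_add, map_neg, map_one, hp]
    intro h
    exact one_ne_zero (α := E) (by linear_combination h)) hu
  intro h
  exact this (by linear_combination h)

/-- period group -/
def Per (_D : Dat t H e E5 h0) : AddSubgroup E where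
  carrier := {p | IsPer t H p}
  zero_mem' := ⟨by simp, by simp⟩
  add_mem' := by
    rintro p q ⟨hp, hp'⟩ ⟨hq, hq'⟩
    refine ⟨by rw [map_add, hp, hq]; ring, fun u hu => ?_⟩
    have h1 := hp' (u + q * (u - t u)) (_D.per_ne hq hu)
    rw [hq' u hu] at h1
    rw [← h1]
    congr 1
    simp only [map_add, map_mul, map_sub, _D.tt, hq]
    ring
  neg_mem' := by
    rintro p ⟨hp, hp'⟩
    have hp2 : t (-p) = - (-p) := by rw [map_neg, hp]
    refine ⟨hp2, fun u hu => ?_⟩
    have h1 := hp' (u + (-p) * (u - t u)) (_D.per_ne hp2 hu)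
    rw [← h1]
    congr 1
    simp only [map_add, map_mul, map_sub, map_neg, _D.tt, hp]
    ring

theorem mem_Per {p : E} : p ∈ D.Per ↔ IsPer t H p := Iff.rfl

/-- `PT` : all `l` such that `s(l θ)` is a period for all `θ` of norm one -/
def PT (_D : Dat t H e E5 h0) : AddSubgroup E where
  carrier := {l | ∀ θ, U1 t θ → l * θ - t (l * θ) ∈ _D.Per}
  zero_mem' := fun θ _ => by simp
  add_mem' := by
    intro a b ha hb θ hθ
    have := _D.Per.add_mem (ha θ hθ) (hb θ hθ)
    have e1 : (a + b) * θ - t ((a + b) * θ) = a * θ - t (a * θ) + (b * θ - t (b * θ)) := by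
      rw [add_mul, map_add]; ring
    rw [e1]; exact this
  neg_mem' := by
    intro a ha θ hθ
    have := _D.Per.neg_mem (ha θ hθ)
    have e1 : (-a) * θ - t ((-a) * θ) = -(a * θ - t (a * θ)) := by
      rw [neg_mul, map_neg]; ring
    rw [e1]; exact this

theorem mem_PT {l : E} : l ∈ D.PT ↔ ∀ θ, U1 t θ → l * θ - t (l * θ) ∈ D.Per := Iff.rfl

/-- the ring `B` of multipliers of `PT` -/
def BR (_D : Dat t H e E5 h0) : Subring E where
  carrier := {b | ∀ l ∈ _D.PT, b * l ∈ _D.PT}
  zero_mem' := fun l _ => by simp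
  one_mem' := fun l hl => by simpa using hl
  add_mem' := by
    intro a b ha hb l hl
    rw [add_mul]
    exact _D.PT.add_mem (ha l hl) (hb l hl)
  mul_mem' := by
    intro a b ha hb l hl
    rw [mul_assoc]
    exact ha _ (hb l hl)
  neg_mem' := by
    intro a ha l hl
    rw [neg_mul]
    exact _D.PT.neg_mem (ha l hl)

theorem mem_BR {b : E} : b ∈ D.BR ↔ ∀ l ∈ D.PT, b * l ∈ D.PT := Iff.rfl

theorem BR_mul {b l : E} (hb : b ∈ D.BR) (hl : l ∈ D.PT) : b * l ∈ D.PT := hb l hl

theorem U1_mem_BR {θ : E} (hθ : U1 t θ) : θ ∈ D.BR := by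
  intro l hl θ' hθ'
  have := hl (θ * θ') (hθ.mul hθ')
  rw [show θ * l * θ' = l * (θ * θ') by ring]
  exact this

theorem PT_t {l : E} (hl : l ∈ D.PT) : t l ∈ D.PT := by
  intro θ hθ
  have h := D.Per.neg_mem (hl (t θ) (hθ.conj D.tt))
  have e1 : t l * θ - t (t l * θ) = -(l * t θ - t (l * t θ)) := by
    simp only [map_mul, D.tt]; ring
  rw [e1]; exact h

theorem BR_t {b : E} (hb : b ∈ D.BR) : t b ∈ D.BR := by
  intro l hl
  have h := D.PT_t (hb _ (D.PT_t hl))
  rwa [map_mul, D.tt] at h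

/-- fixed elements which multiply `Per` into itself are in `B` -/
theorem mem_BR_of_fix {m : E} (hm : t m = m) (h : ∀ p ∈ D.Per, m * p ∈ D.Per) : m ∈ D.BR := by
  intro l hl θ hθ
  have := h _ (hl θ hθ)
  have e1 : m * l * θ - t (m * l * θ) = m * (l * θ - t (l * θ)) := by
    simp only [map_mul, hm]; ring
  rw [e1]; exact this

theorem exists_hilbert {ρ : E} (hρ : U1 t ρ) : ∃ u, u ≠ 0 ∧ t u = ρ * u := by
  by_cases h : ρ = -1
  · obtain ⟨α, h0, h1⟩ := D.skew
    exact ⟨α, h0, by rw [h1, h]; ring⟩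
  · refine ⟨1 + t ρ, ?_, ?_⟩
    · intro h1
      have h2 : t (1 + t ρ) = 0 := by rw [h1, map_zero]
      rw [map_add, map_one, D.tt] at h2
      exact h (by linear_combination h2)
    · rw [map_add, map_one, D.tt]
      unfold U1 at hρ
      linear_combination -hρ

/-- (P) -/
theorem H_one_add {p ρ : E} (hp : p ∈ D.Per) (hρ : U1 t ρ) : H (1 + p * (1 - ρ)) = 0 := by
  obtain ⟨u, hu, hu'⟩ := D.exists_hilbert hρ
  have h1 := hp.2 u hu
  have h2 := D.per_ne hp.1 hu
  have e1 : u + p * (u - t u) = u * (1 + p * (1 - ρ)) := by rw [hu']; ring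
  rw [e1] at h1 h2
  rw [D.hmul _ _ hu (right_ne_zero_of_mul h2)] at h1
  exact add_eq_left.mp h1

theorem sym_per (a b : E) {q : E} (hq : t q = -q) (u : E) :
    a * (u + q * (u - t u)) + b * t (u + q * (u - t u)) =
      (a * u + b * t u) + q * (u - t u) * (a + b) := by
  rw [map_add, map_mul, map_sub, D.tt, hq]
  ring

/-- conjugation of a period by a symmetry -/
theorem per_conj {a b : E} {k : T} (h : Sym t H a b k) {p : E} (hp : p ∈ D.Per) :
    p * ((a + b) * t (a + b)) / (a * t a - b * t b) ∈ D.Per := by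
  obtain ⟨hd, hs⟩ := h
  obtain ⟨hp1, hp2⟩ := hp
  have hr : a + b ≠ 0 := by simpa using D.sym_ne hd (one_ne_zero (α := E))
  have hr' : t (a + b) ≠ 0 := (map_ne_zero t).mpr hr
  have htd : t (a * t a - b * t b) = a * t a - b * t b := by
    simp only [map_sub, map_mul, D.tt]; ring
  have hq : t (p * ((a + b) * t (a + b)) / (a * t a - b * t b)) =
      -(p * ((a + b) * t (a + b)) / (a * t a - b * t b)) := by
    rw [map_div₀, htd, map_mul, map_mul, D.tt, hp1]
    ring
  refine ⟨hq, fun u hu => ?_⟩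
  -- `v = δ φ⁻¹(r u)`
  set δ := a * t a - b * t b with hδ
  set r := a + b with hrd
  set v := (t a * (r * u) - b * (t r * t u)) / δ with hv
  have htv : t v = (a * (t r * t u) - t b * (r * u)) / δ := by
    rw [hv, map_div₀, htd]
    simp only [map_sub, map_mul, D.tt]
  have hra : t r = t a + t b := by rw [hrd, map_add]
  have e1 : a * v + b * t v = r * u := by
    rw [htv, hv]
    field_simp
    rw [hδ]
    ring
  have e2 : v - t v = (r * t r) * (u - t u) / δ := by
    rw [htv, hv, hra, hrd]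
    field_simp
    ring
  have hv0 : v ≠ 0 := by
    intro h
    rw [h, map_zero, mul_zero, mul_zero, add_zero] at e1
    exact (mul_ne_zero hr hu) e1.symm
  have h1 := hp2 v hv0
  have h2 := hs _ (D.per_ne hp1 hv0)
  rw [h1] at h2
  have h3 := hs v hv0
  rw [← h3, e1] at h2
  have e3 : a * (v + p * (v - t v)) + b * t (v + p * (v - t v)) =
      r * (u + p * (r * t r) / δ * (u - t u)) := by
    rw [D.sym_per a b hp1, e1, e2, ← hrd]
    field_simp
  rw [e3] at h2
  rw [D.hmul _ _ hr (D.per_ne hq hu), D.hmul _ _ hr hu] at h2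
  exact add_left_cancel h2

/-- conjugation of a period by the inverse of a symmetry -/
theorem per_conj' {a b : E} {k : T} (h : Sym t H a b k) {p : E} (hp : p ∈ D.Per) :
    p * (a * t a - b * t b) / ((a + b) * t (a + b)) ∈ D.Per := by
  obtain ⟨hd, hs⟩ := h
  obtain ⟨hp1, hp2⟩ := hp
  have hr : a + b ≠ 0 := by simpa using D.sym_ne hd (one_ne_zero (α := E))
  have hr' : t (a + b) ≠ 0 := (map_ne_zero t).mpr hr
  have htd : t (a * t a - b * t b) = a * t a - b * t b := by
    simp only [map_sub, map_mul, D.tt]; ring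
  have hq : t (p * (a * t a - b * t b) / ((a + b) * t (a + b))) =
      -(p * (a * t a - b * t b) / ((a + b) * t (a + b))) := by
    rw [map_div₀, map_mul, htd, map_mul, D.tt, hp1]
    rw [mul_comm (t (a + b)) (a + b)]
    ring
  refine ⟨hq, fun u hu => ?_⟩
  set δ := a * t a - b * t b with hδ
  set r := a + b with hrd
  have hra : t r = t a + t b := by rw [hrd, map_add]
  set w := (a * u + b * t u) / r with hw
  have hw0 : w ≠ 0 := div_ne_zero (D.sym_ne hd hu) hr
  have htw : t w = (t a * t u + t b * u) / t r := by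
    rw [hw, map_div₀]
    simp only [map_add, map_mul, D.tt]
  have e2 : w - t w = δ * (u - t u) / (r * t r) := by
    rw [htw, hw]
    field_simp
    rw [hδ, hra, hrd]
    ring
  have h1 := hp2 w hw0
  have h2 := hs _ (D.per_ne hq hu)
  have e3 : a * (u + p * δ / (r * t r) * (u - t u)) + b * t (u + p * δ / (r * t r) * (u - t u)) =
      r * (w + p * (w - t w)) := by
    rw [D.sym_per a b hq, e2, hw, ← hrd]
    field_simp
  rw [e3, D.hmul _ _ hr (D.per_ne hp1 hw0), h1] at h2
  have h3 := hs u hu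
  rw [hw, D.hdiv (D.sym_ne hd hu) hr, h3] at h2
  have h4 : H u + k = H (u + p * δ / (r * t r) * (u - t u)) + k := by
    rw [← h2]; abel
  exact (add_right_cancel h4).symm

end Dat

namespace Dat

variable {t : E ≃+* E} {H : E → T} {e E5 : E} {h0 : T} (D : Dat t H e E5 h0)

include D

section family

variable {μ ν s : E} (hμ : U1 t μ) (hν : U1 t ν) (hs : U1 t s) (hμν : μ * ν = s * s)

include hμ hν hs hμν

/-- if some `d = N G - N A` vanishes then `H (t x) = H x` -/
theorem t_eq_of_d (hA : 1 + ν ≠ 0)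
    (hd : (e + E5 * μ) * t (e + E5 * μ) - (1 + ν) * t (1 + ν) = 0) {x : E} (hx : x ≠ 0) :
    H (t x) = H x := by
  set G := e + E5 * μ with hG
  set A := 1 + ν with hAd
  have hA' : t A ≠ 0 := (map_ne_zero t).mpr hA
  have hz : U1 t (G / A) := by
    unfold U1
    rw [map_div₀, div_mul_div_comm, div_eq_one_iff_eq (mul_ne_zero hA hA')]
    linear_combination hd
  have hG0 : G ≠ 0 := by
    intro h
    rw [h, zero_div] at hz
    exact hz.ne rfl
  refine D.t_eq_of_const (k := h0 - H G) (fun z hz1 hz2 => ?_) hx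
  have e1 : G - G / A * z * A = G * (1 - z) := by field_simp
  have e2 : G * (1 - z) ≠ 0 := mul_ne_zero hG0 (sub_ne_zero.mpr (Ne.symm hz2))
  have h1 := D.star μ ν s (G / A * z) hμ hν hs (hz.mul hz1) hμν (by rw [← hG, ← hAd, e1]; exact e2)
  rw [← hG, ← hAd, e1, D.hmul _ _ hG0 (right_ne_zero_of_mul e2)] at h1
  rw [← h1]; abel

theorem sym_phi {z : E} (hz : U1 t z)
    (hd : (e + E5 * μ) * t (e + E5 * μ) - (1 + ν) * t (1 + ν) ≠ 0) :
    Sym t H (e + E5 * μ) (-(z * (1 + ν))) h0 := by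
  have hd' : (e + E5 * μ) * t (e + E5 * μ) - -(z * (1 + ν)) * t (-(z * (1 + ν))) ≠ 0 := by
    intro h
    apply hd
    rw [← h]
    rw [map_neg, map_mul]
    unfold U1 at hz
    linear_combination (1 + ν) * t (1 + ν) * hz
  refine ⟨hd', fun u hu => ?_⟩
  have h1 := D.sym_ne hd' hu
  have hz' : U1 t (z * (t u / u)) := hz.mul (U1.div_self' D.tt hu)
  have e1 : (e + E5 * μ) * u + -(z * (1 + ν)) * t u =
      u * (e + E5 * μ - z * (t u / u) * (1 + ν)) := by field_simp; ring
  rw [e1] at h1 ⊢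
  rw [D.hmul _ _ hu (right_ne_zero_of_mul h1),
    D.star μ ν s _ hμ hν hs hz' hμν (right_ne_zero_of_mul h1)]

/-- `N (G - z A) / d ∈ B` -/
theorem norm_div_mem {z : E} (hz : U1 t z)
    (hd : (e + E5 * μ) * t (e + E5 * μ) - (1 + ν) * t (1 + ν) ≠ 0) :
    (e + E5 * μ - z * (1 + ν)) * t (e + E5 * μ - z * (1 + ν)) /
      ((e + E5 * μ) * t (e + E5 * μ) - (1 + ν) * t (1 + ν)) ∈ D.BR := by
  have h := D.sym_phi hμ hν hs hμν hz hd
  have e1 : (e + E5 * μ) * t (e + E5 * μ) - -(z * (1 + ν)) * t (-(z * (1 + ν))) =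
      (e + E5 * μ) * t (e + E5 * μ) - (1 + ν) * t (1 + ν) := by
    rw [map_neg, map_mul]
    unfold U1 at hz
    linear_combination -(1 + ν) * t (1 + ν) * hz
  refine D.mem_BR_of_fix ?_ fun p hp => ?_
  · simp only [map_div₀, map_sub, map_mul, D.tt]
    ring
  · have h1 := D.per_conj h hp
    rw [e1, ← sub_eq_add_neg] at h1
    convert h1 using 1
    ring

/-- `d / N (G - z A) ∈ B` -/
theorem div_norm_mem {z : E} (hz : U1 t z)
    (hd : (e + E5 * μ) * t (e + E5 * μ) - (1 + ν) * t (1 + ν) ≠ 0) :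
    ((e + E5 * μ) * t (e + E5 * μ) - (1 + ν) * t (1 + ν)) /
      ((e + E5 * μ - z * (1 + ν)) * t (e + E5 * μ - z * (1 + ν))) ∈ D.BR := by
  have h := D.sym_phi hμ hν hs hμν hz hd
  have e1 : (e + E5 * μ) * t (e + E5 * μ) - -(z * (1 + ν)) * t (-(z * (1 + ν))) =
      (e + E5 * μ) * t (e + E5 * μ) - (1 + ν) * t (1 + ν) := by
    rw [map_neg, map_mul]
    unfold U1 at hz
    linear_combination -(1 + ν) * t (1 + ν) * hz
  refine D.mem_BR_of_fix ?_ fun p hp => ?_
  · simp only [map_div₀, map_sub, map_mul, D.tt]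
    ring
  · have h1 := D.per_conj' h hp
    rw [e1, ← sub_eq_add_neg] at h1
    convert h1 using 1
    ring

/-- `A G / d ∈ PT` -/
theorem AG_mem (hA : 1 + ν ≠ 0)
    (hd : (e + E5 * μ) * t (e + E5 * μ) - (1 + ν) * t (1 + ν) ≠ 0) :
    (1 + ν) * (e + E5 * μ) /
      ((e + E5 * μ) * t (e + E5 * μ) - (1 + ν) * t (1 + ν)) ∈ D.PT := by
  intro θ hθ
  have hphi : ∀ z, U1 t z → ∀ u, u ≠ 0 →
      H ((e + E5 * μ) * u - z * (1 + ν) * t u) = H u + h0 := by
    intro z hz u hu
    have := (D.sym_phi hμ hν hs hμν hz hd).2 u hu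
    rw [← this]
    congr 1
    ring
  have hphi0 : ∀ z, U1 t z → ∀ u, u ≠ 0 → (e + E5 * μ) * u - z * (1 + ν) * t u ≠ 0 := by
    intro z hz u hu
    have := D.sym_ne (D.sym_phi hμ hν hs hμν hz hd).1 hu
    intro h
    apply this
    linear_combination h
  set G := e + E5 * μ with hG
  set A := 1 + ν with hAd
  have hA' : t A ≠ 0 := (map_ne_zero t).mpr hA
  have hθ0 := hθ.ne
  have hθt := hθ.map_eq
  set δ := G * t G - A * t A with hδ
  have htδ : t δ = δ := by
    rw [hδ]; simp only [map_sub, map_mul, D.tt]; ring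
  by_cases hG0 : G = 0
  · have : A * G / δ * θ - t (A * G / δ * θ) = 0 := by rw [hG0]; simp
    rw [this]
    exact D.Per.zero_mem
  have hG' : t G ≠ 0 := (map_ne_zero t).mpr hG0
  set k := G * θ / t A with hk
  have hk0 : k ≠ 0 := div_ne_zero (mul_ne_zero hG0 hθ0) hA'
  have htk : t k = t G * θ⁻¹ / A := by rw [hk, map_div₀, map_mul, D.tt, hθt]
  have htk0 : t k ≠ 0 := (map_ne_zero t).mpr hk0
  have hk1 : k ≠ 1 := by
    intro h
    have h1 : G * θ = t A := by rw [hk, div_eq_one_iff_eq hA'] at h; exact h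
    have h2 : t G * θ⁻¹ = A := by
      have := congrArg t h1
      rw [map_mul, D.tt, hθt] at this
      exact this
    apply hd
    have h3 : A * t A = G * t G := by
      rw [← h1, ← h2]
      field_simp
    rw [hδ, h3, sub_self]
  have h1k : (1 : E) - k ≠ 0 := sub_ne_zero.mpr (Ne.symm hk1)
  have h1k' : (1 : E) - t k ≠ 0 := by
    have := (map_ne_zero t).mpr h1k
    rwa [map_sub, map_one] at this
  -- the two rotations
  set y := (1 - k) / (1 - t k) with hy
  set x := t k / k * y with hx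
  have hty : U1 t y := by
    have := U1.div_self D.tt h1k
    rwa [map_sub, map_one] at this
  have htx : U1 t x := (U1.div_self' D.tt hk0).mul hty
  have hx0 := htx.ne
  have hy0 := hty.ne
  have hz1 : U1 t (θ / x) := by
    rw [div_eq_mul_inv]; exact hθ.mul htx.inv
  have hz2 : U1 t (θ / y) := by
    rw [div_eq_mul_inv]; exact hθ.mul hty.inv
  -- main identity
  have hq : t (A * G / δ * θ - t (A * G / δ * θ)) = -(A * G / δ * θ - t (A * G / δ * θ)) := by
    rw [map_sub, D.tt]; ring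
  set q := A * G / δ * θ - t (A * G / δ * θ) with hqd
  have hq1 : δ * q = A * t A * (k - t k) := by
    rw [hqd, map_mul, map_div₀, htδ, map_mul, hθt, htk, hk]
    field_simp
  have key : ∀ u, u ≠ 0 → H (u + q * (u - t u)) = H x + H u := by
    intro u hu
    set v := t G * u + θ / y * A * t u with hv
    have htv : t v = G * t u + (θ / y)⁻¹ * t A * u := by
      rw [hv, map_add, map_mul, map_mul, map_mul, D.tt, D.tt, hz2.map_eq]
    have e1 : G * v - θ / y * A * t v = δ * u := by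
      rw [htv, hv, hδ]
      field_simp
      ring
    have hv0 : v ≠ 0 := by
      intro h
      rw [h, map_zero, mul_zero, mul_zero, sub_zero] at e1
      exact (mul_ne_zero hd hu) e1.symm
    have e2 : x * (G * v - θ / x * A * t v) = δ * (u + q * (u - t u)) := by
      have e3 : δ * (u + q * (u - t u)) = δ * u + A * t A * (k - t k) * (u - t u) := by
        rw [mul_add, ← mul_assoc, hq1]
      rw [e3, htv, hv, hδ]
      exact key_id hk0 htk0 hθ0 h1k h1k' (by rw [hk]; field_simp) (by rw [htk]; field_simp) hy hx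
    have e4 := hphi _ hz2 v hv0
    rw [e1, D.hmul _ _ hd hu] at e4
    have e5 := hphi _ hz1 v hv0
    have e6 := hphi0 _ hz1 v hv0
    have e7 : H (x * (G * v - θ / x * A * t v)) = H x + (H v + h0) := by
      rw [D.hmul _ _ hx0 e6, e5]
    rw [e2, D.hmul _ _ hd (D.per_ne hq hu), ← e4] at e7
    refine add_left_cancel (a := H δ) ?_
    rw [e7]
    abel
  have hx1 : H x = 0 := by
    have := key 1 one_ne_zero
    rw [map_one, sub_self, mul_zero, add_zero] at this
    exact add_eq_right.mp this.symm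
  refine ⟨hq, fun u hu => ?_⟩
  rw [key u hu, hx1, zero_add]

end family

/-- the data of `T5I` -/
theorem data (hval : ∀ O : ValuationSubring E, (∀ θ, θ * t θ = 1 → θ ∈ O) → e ∈ O)
    (hne : ∃ x, x ≠ 0 ∧ H (t x) ≠ H x) : T5I.Data t D.BR D.PT e E5 := by
  have hd : ∀ μ ν s, μ * t μ = 1 → ν * t ν = 1 → s * t s = 1 → μ * ν = s * s → 1 + ν ≠ 0 →
      (e + E5 * μ) * t (e + E5 * μ) - (1 + ν) * t (1 + ν) ≠ 0 := by
    intro μ ν s hμ hν hs h hA hd
    obtain ⟨x, hx, hx'⟩ := hne
    exact hx' (D.t_eq_of_d hμ hν hs h hA hd hx)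
  exact ⟨D.tt, fun b hb l hl => D.BR_mul hb hl, fun θ hθ => D.U1_mem_BR hθ, D.u5, hval, hd,
    fun μ ν s hμ hν hs h hA => D.AG_mem hμ hν hs h hA (hd μ ν s hμ hν hs h hA),
    fun μ ν s z hμ hν hs hz h hA => D.norm_div_mem hμ hν hs h hz (hd μ ν s hμ hν hs h hA)⟩

/-- **the end**: `H (t x) = H x` if `E` has an element of norm `-1` -/
theorem t_eq (hval : ∀ O : ValuationSubring E, (∀ θ, θ * t θ = 1 → θ ∈ O) → e ∈ O)
    {g : E} (hg : g * t g = -1) {x : E} (hx : x ≠ 0) : H (t x) = H x := by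
  by_contra hne
  have DI := D.data hval ⟨x, hx, hne⟩
  have tne : ∀ y : E, y ≠ 0 → t y ≠ 0 := fun y hy => (map_ne_zero t).mpr hy
  have h := T5N.main t D.tt (fun y => H y - H (t y))
    (fun y z hy hz => by
      show H (y * z) - H (t (y * z)) = H y - H (t y) + (H z - H (t z))
      rw [map_mul, D.hmul _ _ hy hz, D.hmul _ _ (tne _ hy) (tne _ hz)]
      abel)
    (fun y _ hy => by
      show H y - H (t y) = 0
      rw [hy, sub_self]) D.h2T D.BR (fun θ hθ => D.U1_mem_BR hθ) D.Per D.PT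
    (fun l hl θ hθ => hl θ hθ)
    (fun p hp ρ hρ => by
      show H (1 + p * (1 - ρ)) - H (t (1 + p * (1 - ρ))) = 0
      have h1 := D.H_one_add hp hρ
      have h2 := D.H_one_add (D.Per.neg_mem hp) (U1.conj (t := t) D.tt hρ)
      have h3 : t (1 + p * (1 - ρ)) = 1 + -p * (1 - t ρ) := by
        rw [map_add, map_mul, map_sub, map_one, hp.1]
      rw [h3, h1, h2, sub_self])
    (fun θ hθ => by
      obtain ⟨m, hm⟩ := T5I.main DI hθ
      exact ⟨m, hm m le_rfl⟩) hg x hx
  exact hne (sub_eq_zero.mp h).symm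

end Dat

end Pool.Agent.MP_1b9aaa_al.T5X
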