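import Pool.Agent.Lib.MP_1b9aaa_al.T5KN
import Pool.Agent.Lib.MP_1b9aaa_al.XG
import Pool.Agent.Lib.MP_1b9aaa_al.XH

/-!
# MP_1b9aaa_al, T_10: the T_5 machine over a base on which the symbol need not vanish

`K` a field with an automorphism `g`, `g⁵ = 1`, `S` the fixed field of `g`, `i ∈ S`, `c` a Steinberg
symbol on `K` with values in a group without 2-torsion, `x ∈ K \ S` such that the `S`-linear forms
in `x` are mutually orthogonal (`Orth`).
* `half`: for an irreducible quadratic `q = X² - bX - a` over `S` with root `ω`, the homomorphism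
  `H(e) = c(l_e(x), q(x))` on `S(ω)*` satisfies `H(ē) = H(e)`;
* `two_rel`: `2 c(k - x, q(x)) = c(q(k), q(x))` for all `k ∈ S` and all monic quadratics `q` over
  `S` with `q(k) ≠ 0`.
-/

set_option autoImplicit false

namespace Pool.Agent.MP_1b9aaa_al

open IsSteinberg Climb

namespace QuinX

open Quin

universe u v

section

variable {E : Type u} [Field E] {t : E ≃+* E} {T : Type v} [AddCommGroup T] {H : E → T} {e E5 : E}

/-- from 5-tuples to the data of XG -/
theorem dat (ht : ∀ x, t (t x) = x) (hH : ∀ x y, x ≠ 0 → y ≠ 0 → H (x * y) = H x + H y)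
    (h2T : ∀ a : T, a + a = 0 → a = 0) (hE5 : E5 * t E5 = 1)
    (hs5 : ∀ e1 e2 e3 e4 e5 f1 f2 f3 f4 f5 : E, e1 * t e1 = 1 → e2 * t e2 = 1 → e3 * t e3 = 1 →
      e4 * t e4 = 1 → e5 * t e5 = 1 → f1 * t f1 = 1 → f2 * t f2 = 1 → f3 * t f3 = 1 →
      f4 * t f4 = 1 → f5 * t f5 = 1 → e1 * e2 * e3 * e4 * e5 = E5 → f1 * f2 * f3 * f4 * f5 = E5 →
      e1 + e2 + e3 + e4 + e5 - e ≠ 0 → f1 + f2 + f3 + f4 + f5 - e ≠ 0 →
      H (e1 + e2 + e3 + e4 + e5 - e) = H (f1 + f2 + f3 + f4 + f5 - e))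
    (hn : ∃ x, t x ≠ x) : ∃ h0, T5X.Dat t H e E5 h0 := by
  have hneg1 : H (-1) = 0 := by
    have h0 : (-1 : E) ≠ 0 := neg_ne_zero.mpr one_ne_zero
    have h1 := hH 1 1 one_ne_zero one_ne_zero
    rw [one_mul] at h1
    have h := hH (-1) (-1) h0 h0
    rw [neg_mul_neg, one_mul, left_eq_add.mp h1] at h
    exact h2T _ h.symm
  have hneg : ∀ x : E, x ≠ 0 → H (-x) = H x := by
    intro x hx
    rw [show -x = (-1) * x by ring, hH _ _ (neg_ne_zero.mpr one_ne_zero) hx, hneg1, zero_add]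
  have U1ne : ∀ x : E, x * t x = 1 → x ≠ 0 := by
    rintro x hx rfl
    rw [zero_mul] at hx
    exact zero_ne_one hx
  have mulU : ∀ x y : E, x * t x = 1 → y * t y = 1 → x * y * t (x * y) = 1 := by
    intro x y hx hy
    rw [map_mul]
    linear_combination (y * t y) * hx + hy
  have negU : ∀ x : E, x * t x = 1 → -x * t (-x) = 1 := by
    intro x hx
    rw [map_neg]
    linear_combination hx
  have invU : ∀ x : E, x * t x = 1 → x⁻¹ * t x⁻¹ = 1 := by
    intro x hx
    rw [map_inv₀, ← mul_inv, hx, inv_one]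
  -- the comparison of two families
  have key : ∀ μ ν s z μ' ν' s' z' : E, μ * t μ = 1 → ν * t ν = 1 → s * t s = 1 → z * t z = 1 →
      μ * ν = s * s → μ' * t μ' = 1 → ν' * t ν' = 1 → s' * t s' = 1 → z' * t z' = 1 →
      μ' * ν' = s' * s' → e + E5 * μ - z * (1 + ν) ≠ 0 → e + E5 * μ' - z' * (1 + ν') ≠ 0 →
      H (e + E5 * μ - z * (1 + ν)) = H (e + E5 * μ' - z' * (1 + ν')) := by
    intro μ ν s z μ' ν' s' z' hμ hν hs hz h hμ' hν' hs' hz' h' hne hne'
    have e1 : z + z * ν + -(E5 * μ) + (z * s)⁻¹ + -(z * s)⁻¹ - e = -(e + E5 * μ - z * (1 + ν)) := by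
      ring
    have e2 : z' + z' * ν' + -(E5 * μ') + (z' * s')⁻¹ + -(z' * s')⁻¹ - e =
      -(e + E5 * μ' - z' * (1 + ν')) := by ring
    have := hs5 z (z * ν) (-(E5 * μ)) (z * s)⁻¹ (-(z * s)⁻¹) z' (z' * ν') (-(E5 * μ'))
      (z' * s')⁻¹ (-(z' * s')⁻¹) hz (mulU _ _ hz hν) (negU _ (mulU _ _ hE5 hμ))
      (invU _ (mulU _ _ hz hs)) (negU _ (invU _ (mulU _ _ hz hs))) hz' (mulU _ _ hz' hν')
      (negU _ (mulU _ _ hE5 hμ')) (invU _ (mulU _ _ hz' hs'))
      (negU _ (invU _ (mulU _ _ hz' hs'))) (five_prod (U1ne _ hz) (U1ne _ hs) h)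
      (five_prod (U1ne _ hz') (U1ne _ hs') h') (by rw [e1]; exact neg_ne_zero.mpr hne)
      (by rw [e2]; exact neg_ne_zero.mpr hne')
    rwa [e1, e2, hneg _ hne, hneg _ hne'] at this
  by_cases hex : ∃ μ ν s z : E, μ * t μ = 1 ∧ ν * t ν = 1 ∧ s * t s = 1 ∧ z * t z = 1 ∧
      μ * ν = s * s ∧ e + E5 * μ - z * (1 + ν) ≠ 0
  · obtain ⟨μ', ν', s', z', hμ', hν', hs', hz', h', hne'⟩ := hex
    exact ⟨H (e + E5 * μ' - z' * (1 + ν')), ht, hn, hH, h2T, hE5,
      fun μ ν s z hμ hν hs hz h hne =>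
        key μ ν s z μ' ν' s' z' hμ hν hs hz h hμ' hν' hs' hz' h' hne hne'⟩
  · exact ⟨0, ht, hn, hH, h2T, hE5, fun μ ν s z hμ hν hs hz h hne =>
      absurd ⟨μ, ν, s, z, hμ, hν, hs, hz, h, hne⟩ hex⟩

end

section

variable {K : Type u} {T : Type v} [Field K] [AddCommGroup T] {g : K ≃+* K} {c : K → K → T}
  {a b : K}

/-- symbols of finite fields -/
lemma zero_of_finite [Finite K] (hc : IsSteinberg c) (h2T : ∀ t : T, t + t = 0 → t = 0) {u v : K}
    (hu : u ≠ 0) (hv : v ≠ 0) : c u v = 0 := by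
  classical
  obtain ⟨z, hz⟩ := IsCyclic.exists_generator (α := Kˣ)
  have hz0 : (z : K) ≠ 0 := z.ne_zero
  have hzz := self2 hc h2T hz0
  have pl : ∀ (n : ℕ) (w : K), w ≠ 0 → c ((z : K) ^ n) w = n • c z w := by
    intro n w hw
    induction n with
    | zero => rw [pow_zero, hc.one_left hw, zero_smul]
    | succ n ih => rw [pow_succ, hc.mul_left _ _ _ (pow_ne_zero n hz0) hz0 hw, ih, succ_nsmul]
  have pr : ∀ (n : ℕ) (w : K), w ≠ 0 → c w ((z : K) ^ n) = n • c w z := by
    intro n w hw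
    induction n with
    | zero => rw [pow_zero, zero_smul, hc.one_right hw]
    | succ n ih => rw [pow_succ, hc.mul_right _ _ _ hw (pow_ne_zero n hz0) hz0, ih, succ_nsmul]
  have hex : ∀ w : K, w ≠ 0 → ∃ n : ℕ, (z : K) ^ n = w := by
    intro w hw
    have h := hz (Units.mk0 w hw)
    rw [← mem_powers_iff_mem_zpowers] at h
    obtain ⟨n, hn⟩ := h
    refine ⟨n, ?_⟩
    have := congrArg (fun y : Kˣ => (y : K)) hn
    simpa using this
  obtain ⟨n, rfl⟩ := hex u hu
  obtain ⟨m, rfl⟩ := hex v hv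
  rw [pl n _ hv, pr m _ hz0, hzz, smul_zero, smul_zero]

/-- **`H(ē) = H(e)`** -/
theorem half (hc : IsSteinberg c) (h2T : ∀ t : T, t + t = 0 → t = 0)
    (h5 : ∀ x, g (g (g (g (g x)))) = x) (ha : g a = a) (hb : g b = b)
    [hL : Fact (∀ r : K, r ^ 2 ≠ a + b * r)] {i : K} (hgi : g i = i) (hi : i * i = -1) {x : K}
    (hx : g x ≠ x) (hO : Orth c (fixS g) x)
    {e : QuadraticAlgebra (fixS g) (dS ha) (dS hb)} (he : e ≠ 0) :
    H c x (star e) = H c x e := by
  have hE := factSG (a := a) (b := b) ha hb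
  have hxS : x ∉ fixS g := hx
  have hQ : Qx (dS ha) (dS hb) x ≠ 0 := by
    rw [Qx_eqG]
    intro h
    apply hL.out x
    linear_combination h
  rcases finite_or_infinite (fixS g) with hfin | hinf
  · obtain ⟨h1, -⟩ := five_finrank h5
    have : Finite K := Module.finite_of_finite (fixS g)
    rw [H, H, zero_of_finite hc h2T (L_ne hxS (star_ne_zero.mpr he)) hQ,
      zero_of_finite hc h2T (L_ne hxS he) hQ]
  by_cases hδ : (QuadraticAlgebra.omega - star QuadraticAlgebra.omega :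
      QuadraticAlgebra (fixS g) (dS ha) (dS hb)) = 0
  · -- inseparable
    have h1 := congrArg QuadraticAlgebra.im hδ
    have h2 := congrArg QuadraticAlgebra.re hδ
    simp only [QuadraticAlgebra.im_sub, QuadraticAlgebra.im_star, QuadraticAlgebra.omega_im,
      QuadraticAlgebra.re_sub, QuadraticAlgebra.re_star, QuadraticAlgebra.omega_re,
      QuadraticAlgebra.im_zero, QuadraticAlgebra.re_zero] at h1 h2
    have hst : star e = e := by
      refine QuadraticAlgebra.ext ?_ ?_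
      · rw [QuadraticAlgebra.re_star]
        linear_combination (-e.im) * h2
      · rw [QuadraticAlgebra.im_star]
        linear_combination (-e.im) * h1
    rw [hst]
  have hP0 := Q0_ne ha hb h5 x
  by_cases hn : ∃ y : QuadraticAlgebra (fixS g) (dS ha) (dS hb), tG (dS ha) (dS hb) y ≠ y
  · obtain ⟨h0, D⟩ := dat (t := tG (dS ha) (dS hb)) (H := H c x)
      (e := Av (Q0 ha hb h5 x) (Q1 ha hb h5 x)) (E5 := star (Q0 ha hb h5 x) / Q0 ha hb h5 x)
      (fun z => _root_.star_star z) (fun y z hy hz => H_mul hc h2T hO hxS hQ hy hz) h2T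
      (U1.star_div hP0)
      (fun e1 e2 e3 e4 e5 f1 f2 f3 f4 f5 h1 h2 h3 h4 h5' k1 k2 k3 k4 k5 he hf hG hG' =>
        QuinX.star_star hc h2T hO hxS hQ hδ hP0 (hPG ha hb h5 x) h1 h2 h3 h4 h5' k1 k2 k3 k4 k5
          he hf hG hG') hn
    refine D.t_eq (fun O hO' => hvalG val h5 ha hb x O hO')
      (g := QuadraticAlgebra.C ⟨i, hgi⟩) ?_ he
    have e1 : tG (dS ha) (dS hb) (QuadraticAlgebra.C ⟨i, hgi⟩) = QuadraticAlgebra.C ⟨i, hgi⟩ := by
      show star (QuadraticAlgebra.C _) = QuadraticAlgebra.C _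
      ext <;> simp
    rw [e1]
    apply iotaG_inj ha hb
    rw [map_mul, map_neg, map_one]
    have h1 : iotaG ha hb (QuadraticAlgebra.C ⟨i, hgi⟩) = CG i := rfl
    rw [h1, ← map_mul, hi, map_neg, map_one]
  · push Not at hn
    have := hn e
    rw [tG_apply] at this
    rw [this]

/-- `2 c(k - x, q(x)) = c(q(k), q(x))` -/
theorem two_rel (hc : IsSteinberg c) (h2T : ∀ t : T, t + t = 0 → t = 0)
    (h5 : ∀ x, g (g (g (g (g x)))) = x) (ha : g a = a) (hb : g b = b) {i : K} (hgi : g i = i)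
    (hi : i * i = -1) {x : K} (hx : g x ≠ x) (hO : Orth c (fixS g) x) {k : K} (hk : g k = k)
    (hqk : k ^ 2 - b * k - a ≠ 0) :
    c (k - x) (x ^ 2 - b * x - a) + c (k - x) (x ^ 2 - b * x - a) =
      c (k ^ 2 - b * k - a) (x ^ 2 - b * x - a) := by
  have lin : ∀ r : K, g r = r → x - r ≠ 0 := fun r hr h => hx (by
    rw [sub_eq_zero.mp h, hr])
  have hkx : k - x ≠ 0 := by
    rw [← neg_sub]
    exact neg_ne_zero.mpr (lin k hk)
  by_cases hroot : ∃ s : K, s ^ 2 = a + b * s
  · obtain ⟨s, hs⟩ := hroot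
    by_cases hgs : g s = s
    · have hgs' : g (b - s) = b - s := by rw [map_sub, hb, hgs]
      have e1 : x ^ 2 - b * x - a = (x - s) * (x - (b - s)) := by linear_combination hs
      have z1 : ∀ r : K, g r = r → c (k - x) (x - r) = 0 := by
        intro r hr
        have := hO k (-1) (-r) 1 hk (neg_mem (one_mem _)) (neg_mem hr) (one_mem _)
          (by rw [show k + -1 * x = k - x by ring]; exact hkx)
          (by rw [show -r + 1 * x = x - r by ring]; exact lin r hr)
        rwa [show k + -1 * x = k - x by ring, show -r + 1 * x = x - r by ring] at this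
      have hqg : g (k ^ 2 - b * k - a) = k ^ 2 - b * k - a := by
        simp only [map_sub, map_pow, map_mul, hk, hb, ha]
      have z2 : ∀ r : K, g r = r → c (k ^ 2 - b * k - a) (x - r) = 0 := by
        intro r hr
        have := hO (k ^ 2 - b * k - a) 0 (-r) 1 hqg (zero_mem _) (neg_mem hr) (one_mem _)
          (by rw [zero_mul, add_zero]; exact hqk)
          (by rw [show -r + 1 * x = x - r by ring]; exact lin r hr)
        rwa [zero_mul, add_zero, show -r + 1 * x = x - r by ring] at this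
      rw [e1, hc.mul_right _ _ _ hkx (lin s hgs) (lin _ hgs'),
        hc.mul_right _ _ _ hqk (lin s hgs) (lin _ hgs'), z1 s hgs, z1 _ hgs', z2 s hgs,
        z2 _ hgs', add_zero, add_zero]
    · exfalso
      have := five_quad h5 (x := s) hgs (p := -a) (q := -b) (r := 1)
        (by show g (-a) = -a; rw [map_neg, ha]) (by show g (-b) = -b; rw [map_neg, hb])
        (one_mem _) (by linear_combination hs)
      exact one_ne_zero this.2.2
  · have hL : Fact (∀ r : K, r ^ 2 ≠ a + b * r) := ⟨fun s h => hroot ⟨s, h⟩⟩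
    have hE := factSG (a := a) (b := b) ha hb
    have hxS : x ∉ fixS g := hx
    have hQ : Qx (dS ha) (dS hb) x ≠ 0 := by
      rw [Qx_eqG]
      intro h
      apply hL.out x
      linear_combination h
    obtain ⟨e, he⟩ : ∃ e : QuadraticAlgebra (fixS g) (dS ha) (dS hb), e = ⟨⟨k, hk⟩, -1⟩ := ⟨_, rfl⟩
    have he0 : e ≠ 0 := by
      intro h
      have := congrArg QuadraticAlgebra.im h
      rw [he] at this
      simp at this
    have h1 := half hc h2T h5 ha hb hgi hi hx hO he0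
    have h2 := H_mul hc h2T hO hxS hQ he0 (star_ne_zero.mpr he0)
    rw [h1] at h2
    have e1 : L x e = k - x := by
      rw [he]
      show k + ((-1 : fixS g) : K) * x = k - x
      push_cast
      ring
    have e2 : L x (e * star e) = k ^ 2 - b * k - a := by
      rw [he]
      simp only [L, QuadraticAlgebra.re_mul, QuadraticAlgebra.im_mul, QuadraticAlgebra.re_star,
        QuadraticAlgebra.im_star]
      push_cast
      simp only [dS]
      ring
    rw [H, H, e1, e2, Qx_eqG] at h2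
    exact h2.symm

end

end QuinX

end Pool.Agent.MP_1b9aaa_al
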