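import Pool.Agent.Lib.MP_1b9aaa_al.TenG
import Pool.Agent.Lib.MP_1b9aaa_al.XK

/-!
# MP_1b9aaa_al, T_10: the T_5 machine for a homomorphism `H` which need not be trivial on the
fixed field
-/

set_option autoImplicit false

namespace Pool.Agent.MP_1b9aaa_al.Ten

open T5 (U1)

/-- the relation between 5-tuples; `H` is not assumed to be trivial on the fixed elements -/
structure Abs {E : Type*} [Field E] (t : E ≃+* E) {T : Type*} [AddCommGroup T] (H : E → T)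
    (e E5 : E) : Prop where
  ht : ∀ x, t (t x) = x
  hn : ∃ x, t x ≠ x
  hH : ∀ x y, x ≠ 0 → y ≠ 0 → H (x * y) = H x + H y
  h2T : ∀ a : T, a + a = 0 → a = 0
  hE5 : E5 * t E5 = 1
  hs : ∀ e1 e2 e3 e4 e5 f1 f2 f3 f4 f5 : E, e1 * t e1 = 1 → e2 * t e2 = 1 → e3 * t e3 = 1 →
      e4 * t e4 = 1 → e5 * t e5 = 1 → f1 * t f1 = 1 → f2 * t f2 = 1 → f3 * t f3 = 1 →
      f4 * t f4 = 1 → f5 * t f5 = 1 → e1 * e2 * e3 * e4 * e5 = E5 → f1 * f2 * f3 * f4 * f5 = E5 →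
      e1 + e2 + e3 + e4 + e5 - e ≠ 0 → f1 + f2 + f3 + f4 + f5 - e ≠ 0 →
      H (e1 + e2 + e3 + e4 + e5 - e) = H (f1 + f2 + f3 + f4 + f5 - e)
  hval : ∀ O : ValuationSubring E, (∀ θ, θ * t θ = 1 → θ ∈ O) → e ∈ O

/-- the end, by `T5N.main` applied to `x ↦ H x - H (t x)` -/
theorem Abs.main {E : Type*} [Field E] {t : E ≃+* E} {T : Type*} [AddCommGroup T] {H : E → T}
    {e E5 : E} (A : Abs t H e E5) (hγ : ∃ γ, γ * t γ = -1) {x : E} (hx : x * t x = 1) :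
    H x = 0 := by
  obtain ⟨γ, hγ⟩ := hγ
  obtain ⟨h0, D⟩ := QuinX.dat A.ht A.hH A.h2T A.hE5 A.hs A.hn
  obtain ⟨u, hu, hu'⟩ := D.exists_hilbert (ρ := x) hx
  have hx0 : x ≠ 0 := by
    rintro rfl
    rw [zero_mul] at hx
    exact zero_ne_one hx
  have h1 := D.t_eq A.hval hγ hu
  rw [hu', A.hH _ _ hx0 hu] at h1
  exact add_eq_right.mp h1

end Pool.Agent.MP_1b9aaa_al.Ten
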