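import Pool.Agent.Lib.MP_1b9aaa_al.TenA

/-!
# MP_1b9aaa_al, T_10: the relation (**) over `S`, when the linear forms in `x` over `S` are
mutually orthogonal (but `c` need not vanish on `K* × S*`)

`Quin.H c x e = c (L x e) (Q x)` is a homomorphism on `S(ω)*`, not nec. trivial on `S*`.
-/

set_option autoImplicit false

namespace Pool.Agent.MP_1b9aaa_al.Ten

open IsSteinberg Quin

/-- the linear forms in `x` over `S` are mutually orthogonal -/
structure Lin {K T : Type*} [Field K] [AddCommGroup T] (c : K → K → T) (S : Subfield K) (x : K) :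
    Prop where
  st : IsSteinberg c
  neg : ∀ y, y ≠ 0 → c (-1) y = 0
  lin : ∀ p q r u, p ∈ S → q ∈ S → r ∈ S → u ∈ S → p + q * x ≠ 0 → r + u * x ≠ 0 →
    c (p + q * x) (r + u * x) = 0

variable {K T : Type*} [Field K] [AddCommGroup T] {c : K → K → T} {S : Subfield K} {a b : S}
  [hE : Fact (∀ r : S, r ^ 2 ≠ a + b * r)]

omit hE in
private lemma Lin.negl {x : K} (hL : Lin c S x) {u v : K} (hu : u ≠ 0) (hv : v ≠ 0) :
    c (-1 * u) v = c u v := by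
  rw [hL.st.mul_left _ _ _ (neg_ne_zero.mpr one_ne_zero) hu hv, hL.neg v hv, zero_add]

omit hE in
private lemma Lin.negr {x : K} (hL : Lin c S x) {u v : K} (hu : u ≠ 0) (hv : v ≠ 0) :
    c v (-1 * u) = c v u := by
  rw [hL.st.mul_right _ _ _ hv (neg_ne_zero.mpr one_ne_zero) hu,
    hL.st.skew hv (neg_ne_zero.mpr one_ne_zero), hL.neg v hv, neg_zero, zero_add]

omit hE in
private lemma Lin.self' {x : K} (hL : Lin c S x) {u : K} (hu : u ≠ 0) : c u u = 0 := by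
  have h := hL.st.neg_self hu
  rw [show (-u : K) = -1 * u by ring, hL.negr hu hu] at h
  exact h

omit hE in
private lemma Lin.three' {x : K} (hL : Lin c S x) {u v w : K} (hu : u ≠ 0)
    (hv : v ≠ 0) (hw : w ≠ 0) (h : u = v + w) : c v w = c v u - c w u := by
  have hc := hL.st
  have h1 : v / u ≠ 0 := div_ne_zero hv hu
  have h2 : w / u ≠ 0 := div_ne_zero hw hu
  have h3 : w / u = 1 - v / u := by
    rw [eq_sub_iff_add_eq, ← add_div, add_comm, ← h, div_self hu]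
  have h4 : v / u ≠ 1 := by
    intro h5
    rw [h5, sub_self] at h3
    exact h2 h3
  have h5 := hc.steinberg _ h1 h4
  rw [← h3, hc.div_left hv hu h2, hc.div_right hw hu hv, hc.div_right hw hu hu,
    hL.self' hu, sub_zero, hc.skew hu hw, sub_neg_eq_add] at h5
  rw [sub_add_eq_add_sub, sub_eq_zero] at h5
  rw [← h5, add_sub_cancel_right]

omit hE in
private lemma Lin.lline {x : K} (hL : Lin c S x) (hx : x ∉ S)
    {e e' : QuadraticAlgebra S a b} (he : e ≠ 0) (he' : e' ≠ 0) : c (L x e) (L x e') = 0 :=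
  hL.lin _ _ _ _ e.re.2 e.im.2 e'.re.2 e'.im.2 (L_ne hx he) (L_ne hx he')

theorem Lin.H_mul {x : K} (hL : Lin c S x) (hx : x ∉ S) (hQ : Qx a b x ≠ 0)
    {e e' : QuadraticAlgebra S a b} (he : e ≠ 0) (he' : e' ≠ 0) :
    H c x (e * e') = H c x e + H c x e' := by
  have hc := hL.st
  have h0 : e * e' ≠ 0 := mul_ne_zero he he'
  have n1 := L_ne hx he
  have n2 := L_ne hx he'
  have n3 := L_ne hx h0
  have hm := L_mul x e e'
  simp only [H]
  rw [← hc.mul_left _ _ _ n1 n2 hQ]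
  set κ : K := ((e.im * e'.im : S) : K) with hκ
  by_cases hk : κ = 0
  · rw [hm, hk, zero_mul, add_zero]
  · have hkC : L x (QuadraticAlgebra.C (e.im * e'.im) : QuadraticAlgebra S a b) = κ := L_C x _
    have hC0 : (QuadraticAlgebra.C (e.im * e'.im) : QuadraticAlgebra S a b) ≠ 0 := by
      intro h
      rw [h] at hkC
      apply hk
      rw [← hkC]
      simp [L]
    have k3 : c (L x (e * e')) κ = 0 := by rw [← hkC]; exact hL.lline hx h0 hC0
    have k1 : c (L x e) κ = 0 := by rw [← hkC]; exact hL.lline hx he hC0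
    have k2 : c (L x e') κ = 0 := by rw [← hkC]; exact hL.lline hx he' hC0
    have nQ : κ * Qx a b x ≠ 0 := mul_ne_zero hk hQ
    have n12 := mul_ne_zero n1 n2
    have h3 := hL.three' n12 n3 nQ hm
    have z1 : c (L x (e * e')) (L x e * L x e') = 0 := by
      rw [hc.mul_right _ _ _ n3 n1 n2, hL.lline hx h0 he, hL.lline hx h0 he', add_zero]
    have z2 : c (L x e * L x e') κ = 0 := by
      rw [hc.mul_left _ _ _ n1 n2 hk, k1, k2, add_zero]
    rw [z1, zero_sub, hc.mul_right _ _ _ n3 hk hQ, k3, zero_add, hc.skew nQ n12, neg_neg,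
      hc.mul_right _ _ _ n12 hk hQ, z2, zero_add] at h3
    exact h3

/-- **R3**: `2 H(G) = H(P_0) + H(l)` (or `H(G) = H(P_0)` if `l = 0`). -/
private lemma Lin.R3 {x : K} (hL : Lin c S x) (hx : x ∉ S) (hQ : Qx a b x ≠ 0)
    {P0 P1 P2 : QuadraticAlgebra S a b}
    (hP : L x P0 + Qx a b x * L x P1 + Qx a b x ^ 2 * L x P2 = 0)
    {l1 l2 l3 l4 l5 : QuadraticAlgebra S a b} (h1 : l1 ≠ 0) (h2 : l2 ≠ 0) (h3 : l3 ≠ 0)
    (h4 : l4 ≠ 0) (h5 : l5 ≠ 0) (hprod : l1 * l2 * (l3 * l4 * l5) = P0)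
    (hG : Gv P1 l1 l2 l3 l4 l5 ≠ 0) :
    (lv P1 P2 l1 l2 (l3 * l4 * l5) = 0 → H c x (Gv P1 l1 l2 l3 l4 l5) = H c x P0) ∧
    (lv P1 P2 l1 l2 (l3 * l4 * l5) ≠ 0 → H c x (Gv P1 l1 l2 l3 l4 l5) +
      H c x (Gv P1 l1 l2 l3 l4 l5) = H c x P0 + H c x (lv P1 P2 l1 l2 (l3 * l4 * l5))) := by
  have hc := hL.st
  have h12 : l1 * l2 ≠ 0 := mul_ne_zero h1 h2
  have h34 : l3 * l4 ≠ 0 := mul_ne_zero h3 h4
  have h345 : l3 * l4 * l5 ≠ 0 := mul_ne_zero h34 h5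
  set μ := Gv P1 l1 l2 l3 l4 l5 / (l1 * l2) with hμ
  have hμ0 : μ ≠ 0 := div_ne_zero hG h12
  have hμG : l1 * l2 * μ = Gv P1 l1 l2 l3 l4 l5 := by rw [hμ]; field_simp
  have hrel := rel3 hP h1 h2 hprod
  rw [← hμ] at hrel
  set l := lv P1 P2 l1 l2 (l3 * l4 * l5) with hl
  set Q := Qx a b x with hQd
  have n1 := L_ne hx h1
  have n2 := L_ne hx h2
  have n3 := L_ne hx h3
  have n4 := L_ne hx h4
  have n5 := L_ne hx h5
  have nμ := L_ne hx hμ0
  set U : K := L x l1 * L x l2 * (L x l3 * L x l4 * L x l5) with hU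
  set V : K := L x l1 * L x l2 * L x μ with hV
  have nU : U ≠ 0 := mul_ne_zero (mul_ne_zero n1 n2) (mul_ne_zero (mul_ne_zero n3 n4) n5)
  have nV : V ≠ 0 := mul_ne_zero (mul_ne_zero n1 n2) nμ
  -- `c(U,Q) = H(P0)`, `c(V,Q) = H(G)`
  have cU : c U Q = H c x P0 := by
    rw [← hprod, hL.H_mul hx hQ h12 h345, hL.H_mul hx hQ h1 h2, hL.H_mul hx hQ h34 h5,
      hL.H_mul hx hQ h3 h4]
    rw [hU, hc.mul_left _ _ _ (mul_ne_zero n1 n2) (mul_ne_zero (mul_ne_zero n3 n4) n5) hQ,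
      hc.mul_left _ _ _ n1 n2 hQ, hc.mul_left _ _ _ (mul_ne_zero n3 n4) n5 hQ,
      hc.mul_left _ _ _ n3 n4 hQ]
    rfl
  have cV : c V Q = H c x (Gv P1 l1 l2 l3 l4 l5) := by
    rw [← hμG, hL.H_mul hx hQ h12 hμ0, hL.H_mul hx hQ h1 h2]
    rw [hV, hc.mul_left _ _ _ (mul_ne_zero n1 n2) nμ hQ, hc.mul_left _ _ _ n1 n2 hQ]
    rfl
  -- linear forms are orthogonal to `U` and `V`
  have cUl : ∀ e : QuadraticAlgebra S a b, e ≠ 0 → c U (L x e) = 0 := by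
    intro e he
    have ne := L_ne hx he
    rw [hU, hc.mul_left _ _ _ (mul_ne_zero n1 n2) (mul_ne_zero (mul_ne_zero n3 n4) n5) ne,
      hc.mul_left _ _ _ n1 n2 ne, hc.mul_left _ _ _ (mul_ne_zero n3 n4) n5 ne,
      hc.mul_left _ _ _ n3 n4 ne, hL.lline hx h1 he, hL.lline hx h2 he,
      hL.lline hx h3 he, hL.lline hx h4 he, hL.lline hx h5 he]
    simp
  have cVl : ∀ e : QuadraticAlgebra S a b, e ≠ 0 → c V (L x e) = 0 := by
    intro e he
    have ne := L_ne hx he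
    rw [hV, hc.mul_left _ _ _ (mul_ne_zero n1 n2) nμ ne, hc.mul_left _ _ _ n1 n2 ne,
      hL.lline hx h1 he, hL.lline hx h2 he, hL.lline hx hμ0 he]
    simp
  have cUV : c U V = 0 := by
    have e1 : c U V = c U (L x l1) + c U (L x l2) + c U (L x μ) := by
      rw [hV, hc.mul_right _ _ _ nU (mul_ne_zero n1 n2) nμ, hc.mul_right _ _ _ nU n1 n2]
    rw [e1, cUl _ h1, cUl _ h2, cUl _ hμ0, add_zero, add_zero]
  have hrel' : U + Q * V + Q ^ 2 * L x l = 0 := by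
    rw [hU, hV]; linear_combination hrel
  have m1S : (-1 : K) ∈ S := neg_mem (one_mem S)
  have m10 : (-1 : K) ≠ 0 := neg_ne_zero.mpr one_ne_zero
  constructor
  · intro hl0
    have hLl : L x l = 0 := by rw [hl0]; simp [L]
    have e1 : U = (-1) * (Q * V) := by
      rw [hLl] at hrel'; linear_combination hrel'
    rw [← cU, e1, hL.negl (mul_ne_zero hQ nV) hQ, hc.mul_left _ _ _ hQ nV hQ,
      hL.self' hQ, zero_add, cV]
  · intro hl0
    have nl := L_ne hx hl0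
    have nQl : Q * (Q * L x l) ≠ 0 := mul_ne_zero hQ (mul_ne_zero hQ nl)
    have nW : (-1) * (Q * (Q * L x l)) ≠ 0 := mul_ne_zero m10 nQl
    have nQV : Q * V ≠ 0 := mul_ne_zero hQ nV
    have h3t := hL.three' nW nU nQV (by linear_combination -hrel')
    rw [hL.negr nQl nU, hL.negr nQl nQV,
      hc.mul_right _ _ _ nU hQ nV, cUV, add_zero] at h3t
    have t1 : c U (Q * (Q * L x l)) = c U Q + c U Q := by
      rw [hc.mul_right _ _ _ nU hQ (mul_ne_zero hQ nl), hc.mul_right _ _ _ nU hQ nl, cUl _ hl0,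
        add_zero]
    have t2 : c (Q * V) (Q * (Q * L x l)) = c V Q + c V Q - H c x l := by
      rw [hc.mul_left _ _ _ hQ nV nQl,
        hc.mul_right _ _ _ hQ hQ (mul_ne_zero hQ nl), hc.mul_right _ _ _ hQ hQ nl,
        hc.mul_right _ _ _ nV hQ (mul_ne_zero hQ nl), hc.mul_right _ _ _ nV hQ nl, cVl _ hl0,
        hL.self' hQ, hc.skew hQ nl]
      simp only [H, ← hQd]
      abel
    rw [t1, t2, cU, cV] at h3t
    linear_combination (norm := abel) h3t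

private lemma Lin.exch {x : K} (hL : Lin c S x) (h2T : ∀ t : T, t + t = 0 → t = 0)
    (hx : x ∉ S) (hQ : Qx a b x ≠ 0) {P0 P1 P2 : QuadraticAlgebra S a b}
    (hP : L x P0 + Qx a b x * L x P1 + Qx a b x ^ 2 * L x P2 = 0)
    {l1 l2 l3 l4 l5 l3' l4' l5' : QuadraticAlgebra S a b} (h1 : l1 ≠ 0) (h2 : l2 ≠ 0)
    (h3 : l3 ≠ 0) (h4 : l4 ≠ 0) (h5 : l5 ≠ 0) (h3' : l3' ≠ 0) (h4' : l4' ≠ 0) (h5' : l5' ≠ 0)
    (hprod : l1 * l2 * (l3 * l4 * l5) = P0) (hprod' : l1 * l2 * (l3' * l4' * l5') = P0)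
    (hG : Gv P1 l1 l2 l3 l4 l5 ≠ 0) (hG' : Gv P1 l1 l2 l3' l4' l5' ≠ 0) :
    H c x (Gv P1 l1 l2 l3 l4 l5) = H c x (Gv P1 l1 l2 l3' l4' l5') := by
  have h12 : l1 * l2 ≠ 0 := mul_ne_zero h1 h2
  have hm : l3' * l4' * l5' = l3 * l4 * l5 := mul_left_cancel₀ h12 (by rw [hprod, hprod'])
  obtain ⟨r1, r2⟩ := hL.R3 hx hQ hP h1 h2 h3 h4 h5 hprod hG
  obtain ⟨s1, s2⟩ := hL.R3 hx hQ hP h1 h2 h3' h4' h5' hprod' hG'
  rw [hm] at s1 s2
  by_cases hl : lv P1 P2 l1 l2 (l3 * l4 * l5) = 0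
  · rw [r1 hl, s1 hl]
  · have e := (r2 hl).trans (s2 hl).symm
    have e2 : (H c x (Gv P1 l1 l2 l3 l4 l5) - H c x (Gv P1 l1 l2 l3' l4' l5')) +
        (H c x (Gv P1 l1 l2 l3 l4 l5) - H c x (Gv P1 l1 l2 l3' l4' l5')) = 0 := by
      linear_combination (norm := abel) e
    exact sub_eq_zero.mp (h2T _ e2)

private lemma Lin.exU {x : K} (hL : Lin c S x) (h2T : ∀ t : T, t + t = 0 → t = 0)
    (hx : x ∉ S) (hQ : Qx a b x ≠ 0)
    (hδ : (QuadraticAlgebra.omega - star QuadraticAlgebra.omega : QuadraticAlgebra S a b) ≠ 0)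
    {P0 P1 P2 : QuadraticAlgebra S a b} (hP0 : P0 ≠ 0)
    (hP : L x P0 + Qx a b x * L x P1 + Qx a b x ^ 2 * L x P2 = 0)
    {e1 e2 e3 e4 e5 e3' e4' e5' : QuadraticAlgebra S a b} (h1 : U1 e1) (h2 : U1 e2)
    (h3 : U1 e3) (h4 : U1 e4) (h5 : U1 e5) (h3' : U1 e3') (h4' : U1 e4') (h5' : U1 e5')
    (hprod : e1 * e2 * (e3 * e4 * e5) = star P0 / P0)
    (hprod' : e1 * e2 * (e3' * e4' * e5') = star P0 / P0)
    (hG : e1 + e2 + e3 + e4 + e5 - Av P0 P1 ≠ 0)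
    (hG' : e1 + e2 + e3' + e4' + e5' - Av P0 P1 ≠ 0) :
    H c x (e1 + e2 + e3 + e4 + e5 - Av P0 P1) = H c x (e1 + e2 + e3' + e4' + e5' - Av P0 P1) := by
  obtain ⟨l1, n1, f1⟩ := hil hδ h1
  obtain ⟨l2, n2, f2⟩ := hil hδ h2
  obtain ⟨l3, l4, l5, n3, n4, n5, f3, f4, f5, hl⟩ := lift3 hδ hP0 n1 n2 f1 f2 h3 h4 h5 hprod
  obtain ⟨k3, k4, k5, m3, m4, m5, g3, g4, g5, hk⟩ := lift3 hδ hP0 n1 n2 f1 f2 h3' h4' h5' hprod'
  have hδ2 : (QuadraticAlgebra.omega - star QuadraticAlgebra.omega :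
      QuadraticAlgebra S a b) ^ 2 ≠ 0 := pow_ne_zero 2 hδ
  have E1 := G_eq (P1 := P1) n1 n2 n3 n4 n5 hl
  have E2 := G_eq (P1 := P1) n1 n2 m3 m4 m5 hk
  rw [f1, f2, f3, f4, f5] at E1
  rw [f1, f2, g3, g4, g5] at E2
  have G1 : Gv P1 l1 l2 l3 l4 l5 ≠ 0 := by
    intro h
    rw [h, mul_zero] at E1
    exact mul_ne_zero hP0 hG E1.symm
  have G2 : Gv P1 l1 l2 k3 k4 k5 ≠ 0 := by
    intro h
    rw [h, mul_zero] at E2
    exact mul_ne_zero hP0 hG' E2.symm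
  have hex := hL.exch h2T hx hQ hP n1 n2 n3 n4 n5 m3 m4 m5 hl hk G1 G2
  have H1 := congrArg (H c x) E1
  have H2 := congrArg (H c x) E2
  rw [hL.H_mul hx hQ hδ2 G1, hL.H_mul hx hQ hP0 hG] at H1
  rw [hL.H_mul hx hQ hδ2 G2, hL.H_mul hx hQ hP0 hG'] at H2
  rw [hex, H2] at H1
  exact (add_left_cancel H1).symm

/-- **(**)** -/
theorem Lin.star_star [Infinite S] {x : K} (hL : Lin c S x)
    (h2T : ∀ t : T, t + t = 0 → t = 0) (hx : x ∉ S) (hQ : Qx a b x ≠ 0)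
    (hδ : (QuadraticAlgebra.omega - star QuadraticAlgebra.omega : QuadraticAlgebra S a b) ≠ 0)
    {P0 P1 P2 : QuadraticAlgebra S a b} (hP0 : P0 ≠ 0)
    (hP : L x P0 + Qx a b x * L x P1 + Qx a b x ^ 2 * L x P2 = 0)
    {e1 e2 e3 e4 e5 f1 f2 f3 f4 f5 : QuadraticAlgebra S a b} (h1 : U1 e1) (h2 : U1 e2)
    (h3 : U1 e3) (h4 : U1 e4) (h5 : U1 e5) (k1 : U1 f1) (k2 : U1 f2) (k3 : U1 f3) (k4 : U1 f4)
    (k5 : U1 f5)
    (he : e1 * e2 * e3 * e4 * e5 = star P0 / P0) (hf : f1 * f2 * f3 * f4 * f5 = star P0 / P0)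
    (hG : e1 + e2 + e3 + e4 + e5 - Av P0 P1 ≠ 0) (hG' : f1 + f2 + f3 + f4 + f5 - Av P0 P1 ≠ 0) :
    H c x (e1 + e2 + e3 + e4 + e5 - Av P0 P1) = H c x (f1 + f2 + f3 + f4 + f5 - Av P0 P1) := by
  set E5 : QuadraticAlgebra S a b := star P0 / P0 with hE5
  have hE5U : U1 E5 := U1.star_div hP0
  have n1 := h1.ne
  have n2 := h2.ne
  have m1 := k1.ne
  have m2 := k2.ne
  have m3 := k3.ne
  have m4 := k4.ne
  have m5 := k5.ne
  set X0 : QuadraticAlgebra S a b := E5 / (e1 * e2 * f3 * f4) with hX0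
  have hX0U : U1 X0 := hE5U.div (((h1.mul h2).mul k3).mul k4)
  have nX0 := hX0U.ne
  obtain ⟨w, hw, hw1, hw2⟩ := exists_w hδ (α := f3) (β := e1 + e2 + f4 - Av P0 P1) (γ := X0)
    (α' := f3) (β' := f1 + f2 + f4 - Av P0 P1) (γ' := f5) m3 m3
  have nw := hw.ne
  have g3U : U1 (w * f3) := hw.mul k3
  have gXU : U1 (X0 / w) := hX0U.div hw
  have g5U : U1 (f5 / w) := k5.div hw
  -- first move
  have step1 := hL.exU h2T hx hQ hδ hP0 hP h1 h2 h3 h4 h5 g3U k4 gXU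
    (by rw [← hE5, ← he]; ring)
    (by
      have : e1 * e2 * (w * f3 * f4 * (X0 / w)) = e1 * e2 * f3 * f4 * X0 := by field_simp
      rw [this, ← hE5, hX0]; field_simp) hG
    (by
      intro h
      apply hw1
      have h' := congrArg (fun z => z * w) h
      simp only [zero_mul] at h'
      rw [← h']; field_simp; ring)
  -- second move: keep the third and fourth
  have hB : w * f3 + f4 + f1 + f2 + f5 / w - Av P0 P1 ≠ 0 := by
    intro h
    apply hw2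
    have h' := congrArg (fun z => z * w) h
    simp only [zero_mul] at h'
    rw [← h']; field_simp; ring
  have hA : w * f3 + f4 + e1 + e2 + X0 / w - Av P0 P1 ≠ 0 := by
    intro h
    apply hw1
    have h' := congrArg (fun z => z * w) h
    simp only [zero_mul] at h'
    rw [← h']; field_simp; ring
  have step2 := hL.exU h2T hx hQ hδ hP0 hP g3U k4 h1 h2 gXU k1 k2 g5U
    (by
      have : w * f3 * f4 * (e1 * e2 * (X0 / w)) = e1 * e2 * f3 * f4 * X0 := by field_simp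
      rw [this, ← hE5, hX0]; field_simp)
    (by
      have : w * f3 * f4 * (f1 * f2 * (f5 / w)) = f1 * f2 * f3 * f4 * f5 := by field_simp
      rw [this, ← hE5, hf]) hA hB
  have step3 := hL.exU h2T hx hQ hδ hP0 hP k1 k2 g3U k4 g5U k3 k4 k5
    (by
      have : f1 * f2 * (w * f3 * f4 * (f5 / w)) = f1 * f2 * f3 * f4 * f5 := by field_simp
      rw [this, ← hE5, hf])
    (by rw [← hE5, ← hf]; ring)
    (by
      have : f1 + f2 + w * f3 + f4 + f5 / w - Av P0 P1 =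
        w * f3 + f4 + f1 + f2 + f5 / w - Av P0 P1 := by ring
      rw [this]; exact hB) hG'
  rw [step1, ← step3]
  have r1 : e1 + e2 + w * f3 + f4 + X0 / w - Av P0 P1 =
      w * f3 + f4 + e1 + e2 + X0 / w - Av P0 P1 := by ring
  have r2 : f1 + f2 + w * f3 + f4 + f5 / w - Av P0 P1 =
      w * f3 + f4 + f1 + f2 + f5 / w - Av P0 P1 := by ring
  rw [r1, r2, step2]

end Pool.Agent.MP_1b9aaa_al.Ten
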