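import Pool.Agent.Lib.MP_1b9aaa_al.TenL1

/-!
# MP_1b9aaa_al, T_10: the L-block, the involution (helper85)
-/

set_option autoImplicit false

namespace Pool.Agent.MP_1b9aaa_al.Ten

namespace LDat

variable {E T : Type*} [Field E] [AddCommGroup T] {t : E ≃+* E} {H : E → T} {ω : T →+ T}
  {ζ k a : E}

private theorem TenI_z5 (D : LDat t H ω ζ k a) : ζ ^ 5 = 1 := by
  have h := D.hζ
  linear_combination (ζ - 1) * h

private theorem TenI_tφ (D : LDat t H ω ζ k a) {φ : E}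
    (hφ : φ = ζ + ζ ^ 4 ∨ φ = ζ ^ 2 + ζ ^ 3) : t φ = φ := by
  rcases hφ with h | h <;> rw [h, map_add] <;> simp only [map_pow, D.tζ]

private theorem TenI_φ (D : LDat t H ω ζ k a) {φ : E}
    (hφ : φ = ζ + ζ ^ 4 ∨ φ = ζ ^ 2 + ζ ^ 3) : φ * (φ + 1) = 1 := by
  have h := D.hζ
  rcases hφ with h' | h' <;> rw [h']
  · linear_combination (ζ ^ 4 - ζ ^ 3 + 2 * ζ - 1) * h
  · linear_combination (ζ ^ 2 + ζ - 1) * h

private theorem TenI_φ0 (D : LDat t H ω ζ k a) {φ : E}
    (hφ : φ = ζ + ζ ^ 4 ∨ φ = ζ ^ 2 + ζ ^ 3) : φ ≠ 0 := by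
  intro h
  have h1 := TenI_φ D hφ
  rw [h, zero_mul] at h1
  exact zero_ne_one h1

private theorem TenI_k0 (D : LDat t H ω ζ k a) : k ≠ 0 := by
  intro h
  exact D.hk (by rw [h, map_zero])

private theorem TenI_tk0 (D : LDat t H ω ζ k a) : t k ≠ 0 := (map_ne_zero t).2 (TenI_k0 D)

/-- the discriminant is not zero: otherwise `k = ζ^j (k + t k)/φ` is fixed -/
theorem disc (D : LDat t H ω ζ k a) {φ : E} (hφ : φ = ζ + ζ ^ 4 ∨ φ = ζ ^ 2 + ζ ^ 3) :
    (k + t k) ^ 2 - φ ^ 2 * (k * t k) ≠ 0 := by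
  intro h0
  have hz5 := TenI_z5 D
  have hφ0 := TenI_φ0 D hφ
  have key : ∀ z : E, t z = z → φ * k - z * (k + t k) ≠ 0 := by
    intro z hz h
    have h1 := congrArg t h
    rw [map_sub, map_mul, map_mul, TenI_tφ D hφ, hz, map_add, D.tt, map_zero] at h1
    have h2 : φ * (t k - k) = 0 := by linear_combination h1 - h
    rcases mul_eq_zero.1 h2 with h3 | h3
    · exact hφ0 h3
    · exact D.hk (sub_eq_zero.1 h3)
  rcases hφ with h | h
  · have h4 : (φ * k - ζ * (k + t k)) * (φ * k - ζ ^ 4 * (k + t k)) = 0 := by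
      have e : (φ * k - ζ * (k + t k)) * (φ * k - ζ ^ 4 * (k + t k)) =
          φ ^ 2 * k ^ 2 - φ * (ζ + ζ ^ 4) * k * (k + t k) + ζ ^ 5 * (k + t k) ^ 2 := by ring
      rw [e, ← h, hz5]
      linear_combination h0
    rcases mul_eq_zero.1 h4 with h5 | h5
    · exact key ζ D.tζ h5
    · exact key (ζ ^ 4) (by rw [map_pow, D.tζ]) h5
  · have h4 : (φ * k - ζ ^ 2 * (k + t k)) * (φ * k - ζ ^ 3 * (k + t k)) = 0 := by
      have e : (φ * k - ζ ^ 2 * (k + t k)) * (φ * k - ζ ^ 3 * (k + t k)) =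
          φ ^ 2 * k ^ 2 - φ * (ζ ^ 2 + ζ ^ 3) * k * (k + t k) + ζ ^ 5 * (k + t k) ^ 2 := by ring
      rw [e, ← h, hz5]
      linear_combination h0
    rcases mul_eq_zero.1 h4 with h5 | h5
    · exact key (ζ ^ 2) (by rw [map_pow, D.tζ]) h5
    · exact key (ζ ^ 3) (by rw [map_pow, D.tζ]) h5

private theorem TenI_ne (D : LDat t H ω ζ k a) {f m : E} (hf : t f = f) (hm : t m = m)
    (h : f ≠ 0 ∨ m ≠ 0) : f * k - m ≠ 0 := by
  intro h0
  have h1 := congrArg t h0
  rw [map_sub, map_mul, hf, hm, map_zero] at h1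
  have h2 : f * (t k - k) = 0 := by linear_combination h1 - h0
  rcases mul_eq_zero.1 h2 with h3 | h3
  · rw [h3, zero_mul, zero_sub, neg_eq_zero] at h0
    rcases h with h | h
    · exact h h3
    · exact h h0
  · exact D.hk (sub_eq_zero.1 h3)

private theorem TenI_ne' (D : LDat t H ω ζ k a) {z l : E} (hz : t z = z) (hl : t l = l) :
    k - z * l ≠ 0 := by
  have h := TenI_ne D (f := 1) (m := z * l) (map_one t) (by rw [map_mul, hz, hl])
    (Or.inl one_ne_zero)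
  rwa [one_mul] at h

private theorem TenI_tN (D : LDat t H ω ζ k a) : t (k * t k) = k * t k := by
  rw [map_mul, D.tt, mul_comm]

private theorem TenI_HN (D : LDat t H ω ζ k a) : H (k * t k) = 0 :=
  D.hfix _ (mul_ne_zero (TenI_k0 D) (TenI_tk0 D)) (TenI_tN D)

/-- one product of two linear forms -/
private theorem TenI_B1 (D : LDat t H ω ζ k a) {l z z' φ : E} (hl : t l = l) (hz : t z = z)
    (hz' : t z' = z') (hzz : z * z' = 1) (hφ : φ = z + z') :
    k * t k * k - φ * (k * t k) * l + l ^ 2 * t k ≠ 0 ∧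
      H (k * t k * k - φ * (k * t k) * l + l ^ 2 * t k) = H (k - z * l) + H (k - z' * l) := by
  have h1 := TenI_ne' D hz hl
  have h2 := TenI_ne' D hz' hl
  have hk0 := TenI_k0 D
  have htk0 := TenI_tk0 D
  have hN : k * t k ≠ 0 := mul_ne_zero hk0 htk0
  have e : k * t k * ((k - z * l) * (k - z' * l)) =
      k * (k * t k * k - φ * (k * t k) * l + l ^ 2 * t k) := by
    rw [hφ]
    linear_combination (k * t k * l ^ 2) * hzz
  have h3 : k * (k * t k * k - φ * (k * t k) * l + l ^ 2 * t k) ≠ 0 := by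
    rw [← e]
    exact mul_ne_zero hN (mul_ne_zero h1 h2)
  have h4 := right_ne_zero_of_mul h3
  refine ⟨h4, ?_⟩
  have h5 := congrArg H e
  rw [D.hmul _ _ hN (mul_ne_zero h1 h2), D.hmul _ _ h1 h2, D.hmul _ _ hk0 h4, D.Hk,
    TenI_HN D, zero_add, zero_add] at h5
  exact h5.symm

private theorem TenI_B (D : LDat t H ω ζ k a) {φ : E}
    (hφ : φ = ζ + ζ ^ 4 ∨ φ = ζ ^ 2 + ζ ^ 3) :
    ∃ Ω : T →+ T, (∀ v, Ω v = 0 → v = 0) ∧ ∀ l, t l = l →
      k * t k * k - φ * (k * t k) * l + l ^ 2 * t k ≠ 0 ∧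
      H (k * t k * k - φ * (k * t k) * l + l ^ 2 * t k) = Ω (H (k - l)) := by
  have hz5 := TenI_z5 D
  rcases hφ with h | h
  · refine ⟨ω.comp ω + ω.comp (ω.comp ω), fun v hv => D.inj23 hv, fun l hl => ?_⟩
    obtain ⟨h1, h2⟩ := TenI_B1 D (z := ζ) (z' := ζ ^ 4) hl D.tζ (by rw [map_pow, D.tζ])
      (by rw [← hz5]; ring) h
    exact ⟨h1, h2.trans (D.B14 hl)⟩
  · refine ⟨ω + ω.comp (ω.comp (ω.comp ω)), fun v hv => D.inj14 hv, fun l hl => ?_⟩
    obtain ⟨h1, h2⟩ := TenI_B1 D (z := ζ ^ 2) (z' := ζ ^ 3) hl (by rw [map_pow, D.tζ])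
      (by rw [map_pow, D.tζ]) (by rw [← hz5]; ring) h
    exact ⟨h1, h2.trans (D.B23 hl)⟩

/-- `H (q k - p) = H (k - l)` with `q = φ l - S`, `p = S l - φ N`; and `H (k - l) = 0` if `q = 0` -/
private theorem TenI_core (D : LDat t H ω ζ k a) {φ : E}
    (hφ : φ = ζ + ζ ^ 4 ∨ φ = ζ ^ 2 + ζ ^ 3) {l : E} (hl : t l = l) :
    H ((φ * l - (k + t k)) * k - ((k + t k) * l - φ * (k * t k))) = H (k - l) ∧
      (φ * l - (k + t k) = 0 → H (k - l) = 0) := by
  obtain ⟨Ω, hΩ, hB⟩ := TenI_B D hφ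
  have hd := D.disc hφ
  have htφ := TenI_tφ D hφ
  have hk0 := TenI_k0 D
  have htk0 := TenI_tk0 D
  have hS : t (k + t k) = k + t k := by rw [map_add, D.tt, add_comm]
  have hN := TenI_tN D
  have htd : t ((k + t k) ^ 2 - φ ^ 2 * (k * t k)) = (k + t k) ^ 2 - φ ^ 2 * (k * t k) := by
    rw [map_sub, map_pow, hS, map_mul, hN, map_pow, htφ]
  have hHd := D.hfix _ hd htd
  have hq : t (φ * l - (k + t k)) = φ * l - (k + t k) := by
    rw [map_sub, map_mul, htφ, hl, hS]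
  have hp : t ((k + t k) * l - φ * (k * t k)) = (k + t k) * l - φ * (k * t k) := by
    rw [map_sub, map_mul, map_mul, htφ, hl, hS, hN]
  have e : (φ * l - (k + t k)) ^ 2 * (k * t k * k) -
      φ * (k * t k) * (((k + t k) * l - φ * (k * t k)) * (φ * l - (k + t k))) +
      ((k + t k) * l - φ * (k * t k)) ^ 2 * t k =
      ((k + t k) ^ 2 - φ ^ 2 * (k * t k)) *
        (k * t k * k - φ * (k * t k) * l + l ^ 2 * t k) := by
    ring
  obtain ⟨hBl, hBl'⟩ := hB l hl
  generalize hqq : φ * l - (k + t k) = q at *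
  generalize hpp : (k + t k) * l - φ * (k * t k) = p at *
  by_cases hq0 : q = 0
  · have h1 : p ^ 2 * t k = ((k + t k) ^ 2 - φ ^ 2 * (k * t k)) *
        (k * t k * k - φ * (k * t k) * l + l ^ 2 * t k) := by
      rw [← e, hq0]
      ring
    have h2 : p ^ 2 * t k ≠ 0 := by
      rw [h1]
      exact mul_ne_zero hd hBl
    have hp2 : p ^ 2 ≠ 0 := left_ne_zero_of_mul h2
    have hp0 : p ≠ 0 := fun h => hp2 (by rw [h]; ring)
    have h3 := congrArg H h1
    rw [D.hmul _ _ hp2 htk0, D.hmul _ _ hd hBl, hHd, zero_add, D.Ht hk0, D.Hk, neg_zero, add_zero,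
      D.hfix _ hp2 (by rw [map_pow, hp]), hBl'] at h3
    have h4 : H (k - l) = 0 := hΩ _ h3.symm
    refine ⟨?_, fun _ => h4⟩
    rw [hq0, zero_mul, zero_sub, h4]
    exact D.hfix _ (neg_ne_zero.2 hp0) (by rw [map_neg, hp])
  · refine ⟨?_, fun h => absurd h hq0⟩
    have hpq : t (p / q) = p / q := by rw [map_div₀, hp, hq]
    obtain ⟨hBp, hBp'⟩ := hB (p / q) hpq
    have hq2 : q ^ 2 ≠ 0 := pow_ne_zero 2 hq0
    have h1 : q ^ 2 * (k * t k * k - φ * (k * t k) * (p / q) + (p / q) ^ 2 * t k) =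
        ((k + t k) ^ 2 - φ ^ 2 * (k * t k)) *
        (k * t k * k - φ * (k * t k) * l + l ^ 2 * t k) := by
      rw [← e]
      field_simp
    have h2 := congrArg H h1
    rw [D.hmul _ _ hq2 hBp, D.hmul _ _ hd hBl, hHd, zero_add,
      D.hfix _ hq2 (by rw [map_pow, hq]), zero_add, hBp', hBl'] at h2
    have h3 : H (k - p / q) = H (k - l) := by
      apply sub_eq_zero.1
      apply hΩ
      rw [map_sub, h2, sub_self]
    have h4 : k - p / q ≠ 0 := by
      have h := TenI_ne' D (z := 1) (map_one t) hpq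
      rwa [one_mul] at h
    have h5 : q * k - p = q * (k - p / q) := by
      field_simp
    rw [h5, D.hmul _ _ hq0 h4, D.hfix _ hq0 hq, zero_add, h3]

/-- the homogeneous form -/
private theorem TenI_core' (D : LDat t H ω ζ k a) {φ : E}
    (hφ : φ = ζ + ζ ^ 4 ∨ φ = ζ ^ 2 + ζ ^ 3) {f m : E} (hf : t f = f) (hm : t m = m)
    (h0 : f ≠ 0 ∨ m ≠ 0) :
    (φ * m - (k + t k) * f) * k - ((k + t k) * m - φ * (k * t k) * f) ≠ 0 ∧
    H ((φ * m - (k + t k) * f) * k - ((k + t k) * m - φ * (k * t k) * f)) = H (f * k - m) := by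
  have htφ := TenI_tφ D hφ
  have hφ0 := TenI_φ0 D hφ
  have hd := D.disc hφ
  have hS : t (k + t k) = k + t k := by rw [map_add, D.tt, add_comm]
  have hN := TenI_tN D
  have hne : (φ * m - (k + t k) * f) * k - ((k + t k) * m - φ * (k * t k) * f) ≠ 0 := by
    refine TenI_ne D (by rw [map_sub, map_mul, map_mul, htφ, hm, hS, hf])
      (by rw [map_sub, map_mul, map_mul, map_mul, htφ, hm, hS, hf, hN]) ?_
    by_contra hcon
    rw [not_or, not_not, not_not] at hcon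
    obtain ⟨c1, c2⟩ := hcon
    have h1 : ((k + t k) ^ 2 - φ ^ 2 * (k * t k)) * f = 0 := by
      linear_combination φ * c2 - (k + t k) * c1
    have hf0 : f = 0 := (mul_eq_zero.1 h1).resolve_left hd
    rw [hf0, mul_zero, sub_zero] at c1
    have hm0 : m = 0 := (mul_eq_zero.1 c1).resolve_left hφ0
    rcases h0 with h | h
    · exact h hf0
    · exact h hm0
  refine ⟨hne, ?_⟩
  by_cases hf0 : f = 0
  · have hm0 : m ≠ 0 := h0.resolve_left (fun h => h hf0)
    have hl : t ((k + t k) / φ) = (k + t k) / φ := by rw [map_div₀, hS, htφ]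
    have h1 := (TenI_core D hφ hl).2 (by field_simp; ring)
    have h2 : k - (k + t k) / φ ≠ 0 := by
      have h := TenI_ne' D (z := 1) (map_one t) hl
      rwa [one_mul] at h
    have e : (φ * m - (k + t k) * f) * k - ((k + t k) * m - φ * (k * t k) * f) =
        (m * φ) * (k - (k + t k) / φ) := by
      rw [hf0]
      field_simp
      ring
    rw [e, D.hmul _ _ (mul_ne_zero hm0 hφ0) h2, h1, add_zero,
      D.hfix _ (mul_ne_zero hm0 hφ0) (by rw [map_mul, hm, htφ]), hf0, zero_mul, zero_sub,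
      D.hfix _ (neg_ne_zero.2 hm0) (by rw [map_neg, hm])]
  · have hl : t (m / f) = m / f := by rw [map_div₀, hm, hf]
    have h1 := (TenI_core D hφ hl).1
    have e : (φ * m - (k + t k) * f) * k - ((k + t k) * m - φ * (k * t k) * f) =
        f * ((φ * (m / f) - (k + t k)) * k - ((k + t k) * (m / f) - φ * (k * t k))) := by
      field_simp
    have e2 : f * k - m = f * (k - m / f) := by field_simp
    rw [e] at hne ⊢
    have h2 : k - m / f ≠ 0 := by
      have h := TenI_ne' D (z := 1) (map_one t) hl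
      rwa [one_mul] at h
    rw [D.hmul _ _ hf0 (right_ne_zero_of_mul hne), h1, e2, D.hmul _ _ hf0 h2]

/-- the involution: with `N = k t k`, `S = k + t k`, `φ` one of `ζ + ζ⁴`, `ζ² + ζ³` -/
theorem involution (D : LDat t H ω ζ k a) {φ : E} (hφ : φ = ζ + ζ ^ 4 ∨ φ = ζ ^ 2 + ζ ^ 3)
    {u : E} (hu : u ≠ 0) :
    H ((2 * φ * (k * t k) - (k + t k) ^ 2) * u + (2 - φ) * k * (k + t k) * t u) = H u := by
  have hkt : k - t k ≠ 0 := sub_ne_zero.2 (fun h => D.hk h.symm)
  obtain ⟨f, hf⟩ : ∃ f, f = (u - t u) / (k - t k) := ⟨_, rfl⟩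
  have hfe : f * (k - t k) = u - t u := by rw [hf]; field_simp
  have hft : t f = f := by
    rw [hf, map_div₀, map_sub, map_sub, D.tt, D.tt, ← neg_sub u, ← neg_sub k, neg_div_neg_eq]
  obtain ⟨m, hm⟩ : ∃ m, m = f * k - u := ⟨_, rfl⟩
  have hmt : t m = m := by
    rw [hm, map_sub, map_mul, hft]
    linear_combination -hfe
  have hu' : u = f * k - m := by rw [hm]; ring
  have htu : t u = f * t k - m := by rw [hu', map_sub, map_mul, hft, hmt]
  have h0 : f ≠ 0 ∨ m ≠ 0 := by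
    by_contra hcon
    rw [not_or, not_not, not_not] at hcon
    apply hu
    rw [hu', hcon.1, hcon.2]
    ring
  obtain ⟨h1, h2⟩ := TenI_core' D hφ hft hmt h0
  have e : (2 * φ * (k * t k) - (k + t k) ^ 2) * u + (2 - φ) * k * (k + t k) * t u =
      (k - t k) * ((φ * m - (k + t k) * f) * k - ((k + t k) * m - φ * (k * t k) * f)) := by
    rw [htu, hu']
    ring
  rw [e, D.hmul _ _ hkt h1, h2, ← hu', D.Hanti hkt (Or.inr (by rw [map_sub, D.tt]; ring)),
    zero_add]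

end LDat

end Pool.Agent.MP_1b9aaa_al.Ten
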