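import Pool.Agent.Lib.MP_1b9aaa_al.TenG2
import Pool.Agent.Lib.MP_1b9aaa_al.TenH

/-!
# MP_1b9aaa_al, T_10: the characters `X_ρ` vanish on the elements of norm one
-/

set_option autoImplicit false

namespace Pool.Agent.MP_1b9aaa_al.Ten

open IsSteinberg Quin

/-- `a`, `b` fixed by `g`, `X² - b X - a` irreducible over `K`, linear forms in `x` over
`S = K^g` mutually orthogonal: `c (e(x), x² - b x - a) = 0` for every linear form `e` over `S`
whose value `e(ω)` at the root `ω` has norm one -/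
theorem Lin.norm_one {K T : Type*} [Field K] [AddCommGroup T] {c : K → K → T} {g : K ≃+* K}
    {x : K} (hL : Lin c (fixS g) x) (h5 : ∀ x, g (g (g (g (g x)))) = x)
    (h2T : ∀ t : T, t + t = 0 → t = 0) (h2K : (2 : K) ≠ 0) [Infinite (fixS g)]
    {i : K} (hgi : g i = i) (hi : i * i = -1) {a b : K} (ha : g a = a) (hb : g b = b)
    (hq : ∀ r : K, r ^ 2 ≠ a + b * r) (hx : g x ≠ x)
    {e0 e1 : K} (h0 : g e0 = e0) (h1 : g e1 = e1) (hN : e0 ^ 2 + b * e0 * e1 - a * e1 ^ 2 = 1) :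
    c (e0 + e1 * x) (x ^ 2 - b * x - a) = 0 := by
  have hK : Fact (∀ r : K, r ^ 2 ≠ a + b * r) := ⟨hq⟩
  have hE := factSG (a := a) (b := b) ha hb
  have hxS : x ∉ fixS g := hx
  have hQ : Qx (dS ha) (dS hb) x ≠ 0 := by
    rw [Qx_eqG]
    intro h
    apply hq x
    linear_combination h
  have hδ : (QuadraticAlgebra.omega - star QuadraticAlgebra.omega :
      QuadraticAlgebra (fixS g) (dS ha) (dS hb)) ≠ 0 := by
    rcases hdel_ne (S := fixS g) (a := dS ha) (b := dS hb) with h | ⟨h, -⟩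
    · exact h
    · exfalso
      apply h2K
      have := congrArg (fun z : fixS g => (z : K)) h
      push_cast at this
      exact this
  have hP0 := Q0_ne ha hb h5 x
  have A : Ten.Abs (tG (dS ha) (dS hb)) (H c x) (Av (Q0 ha hb h5 x) (Q1 ha hb h5 x))
      (star (Q0 ha hb h5 x) / Q0 ha hb h5 x) :=
    ⟨fun z => _root_.star_star z,
      ⟨QuadraticAlgebra.omega, fun h => hδ (sub_eq_zero.2 (Eq.symm h))⟩,
      fun y z hy hz => hL.H_mul hxS hQ hy hz, h2T, U1.star_div hP0,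
      fun e1 e2 e3 e4 e5 f1 f2 f3 f4 f5 h1 h2 h3 h4 h5' k1 k2 k3 k4 k5 he hf hG hG' =>
        hL.star_star h2T hxS hQ hδ hP0 (hPG ha hb h5 x) h1 h2 h3 h4 h5' k1 k2 k3 k4 k5
          he hf hG hG',
      fun O hO => hvalG val h5 ha hb x O hO⟩
  have hγ : ∃ γ : QuadraticAlgebra (fixS g) (dS ha) (dS hb), γ * tG (dS ha) (dS hb) γ = -1 := by
    refine ⟨QuadraticAlgebra.C ⟨i, hgi⟩, ?_⟩
    apply iotaG_inj ha hb
    have h2 : tG (dS ha) (dS hb) (QuadraticAlgebra.C (⟨i, hgi⟩ : fixS g)) =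
        QuadraticAlgebra.C (⟨i, hgi⟩ : fixS g) := by
      show star (QuadraticAlgebra.C _) = QuadraticAlgebra.C _
      ext <;> simp
    rw [h2, map_mul, map_neg, map_one]
    have h1 : iotaG ha hb (QuadraticAlgebra.C (⟨i, hgi⟩ : fixS g)) = CG i := rfl
    rw [h1, ← map_mul, hi, map_neg, map_one]
  have hN' : (⟨⟨e0, h0⟩, ⟨e1, h1⟩⟩ : QuadraticAlgebra (fixS g) (dS ha) (dS hb)) *
      tG (dS ha) (dS hb) ⟨⟨e0, h0⟩, ⟨e1, h1⟩⟩ = 1 := by
    rw [tG_apply]
    apply iotaG_inj ha hb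
    apply QuadraticAlgebra.ext
    · show e0 * (e0 + b * e1) + a * e1 * (-e1) = 1
      linear_combination hN
    · show e0 * (-e1) + e1 * (e0 + b * e1) + b * e1 * (-e1) = 0
      ring
  exact A.main hγ hN'

/-- (CL): for `d` fixed by `g`, not a square in `K`, `z = (x - l0)/l1` and `m`, with
`c (m² - d, *) = 0`: `c (m + z, z² - d) = 0` -/
theorem Lin.cl {K T : Type*} [Field K] [AddCommGroup T] {c : K → K → T} {g : K ≃+* K}
    {x : K} (hL : Lin c (fixS g) x) (h5 : ∀ x, g (g (g (g (g x)))) = x)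
    (h2T : ∀ t : T, t + t = 0 → t = 0) (h2K : (2 : K) ≠ 0) [Infinite (fixS g)]
    {i : K} (hgi : g i = i) (hi : i * i = -1) {d : K} (hd : g d = d)
    (hq : ∀ r : K, r * r ≠ d) (hx : g x ≠ x)
    {l0 l1 m z : K} (h0 : g l0 = l0) (h1 : g l1 = l1) (h10 : l1 ≠ 0) (hm : g m = m)
    (hmd : ∀ y, y ≠ 0 → c (m ^ 2 - d) y = 0) (hz : z = (x - l0) / l1) :
    c (m + z) (z ^ 2 - d) = 0 := by
  have hst := hL.st
  set a : K := l1 ^ 2 * d - l0 ^ 2 with ha_def
  set b : K := 2 * l0 with hb_def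
  have ha : g a = a := by
    rw [ha_def, map_sub, map_mul, map_pow, map_pow, h0, h1, hd]
  have hb : g b = b := by
    rw [hb_def, map_mul, h0, map_ofNat]
  have hq' : ∀ r : K, r ^ 2 ≠ a + b * r := by
    intro r hr
    apply hq ((r - l0) / l1)
    rw [div_mul_div_comm, div_eq_iff (mul_ne_zero h10 h10)]
    rw [ha_def, hb_def] at hr
    linear_combination hr
  have hK : Fact (∀ r : K, r ^ 2 ≠ a + b * r) := ⟨hq'⟩
  have hE := factSG (a := a) (b := b) ha hb
  have hxS : x ∉ fixS g := hx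
  -- the value of the quadratic
  have hQ : x ^ 2 - b * x - a ≠ 0 := by
    intro h
    apply hq' x
    linear_combination h
  set Q : K := x ^ 2 - b * x - a with hQ_def
  set e0 : K := m * l1 - l0 with he0
  have hge0 : g e0 = e0 := by rw [he0, map_sub, map_mul, hm, h0, h1]
  set n : K := l1 ^ 2 * (m ^ 2 - d) with hn_def
  have hmd0 : m ^ 2 - d ≠ 0 := by
    intro h
    apply hq m
    linear_combination h
  have hn0 : n ≠ 0 := mul_ne_zero (pow_ne_zero 2 h10) hmd0
  have hgn : g n = n := by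
    rw [hn_def, map_mul, map_pow, map_sub, map_pow, h1, hm, hd]
  -- the element of norm one
  have hne := hL.norm_one h5 h2T h2K hgi hi ha hb hq' hx (e0 := (e0 ^ 2 + a) / n)
    (e1 := (2 * e0 + b) / n)
    (by rw [map_div₀, map_add, map_pow, hge0, ha, hgn])
    (by rw [map_div₀, map_add, map_mul, map_ofNat, hge0, hb, hgn])
    (by
      have h : (e0 ^ 2 + a) ^ 2 + b * (e0 ^ 2 + a) * (2 * e0 + b) - a * (2 * e0 + b) ^ 2 =
          n ^ 2 := by
        rw [hn_def, he0, ha_def, hb_def]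
        ring
      have h' : ((e0 ^ 2 + a) / n) ^ 2 + b * ((e0 ^ 2 + a) / n) * ((2 * e0 + b) / n) -
          a * ((2 * e0 + b) / n) ^ 2 =
          ((e0 ^ 2 + a) ^ 2 + b * (e0 ^ 2 + a) * (2 * e0 + b) - a * (2 * e0 + b) ^ 2) /
            n ^ 2 := by
        field_simp
      rw [h', h, div_self (pow_ne_zero 2 hn0)])
  have hgQ0 : g (e0 ^ 2 + a) = e0 ^ 2 + a := by rw [map_add, map_pow, hge0, ha]
  have hgQ1 : g (2 * e0 + b) = 2 * e0 + b := by rw [map_add, map_mul, map_ofNat, hge0, hb]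
  set y : K := e0 + 1 * x with hy_def
  have hy0 : y ≠ 0 := by
    intro h
    apply hxS
    have : x = -e0 := by linear_combination h
    rw [this]
    exact neg_mem (show e0 ∈ fixS g from hge0)
  set Y : K := (e0 ^ 2 + a) + (2 * e0 + b) * x with hY_def
  have hyY : y ^ 2 = Q + Y := by
    rw [hy_def, hQ_def, hY_def]
    ring
  have hYn : (e0 ^ 2 + a) / n + (2 * e0 + b) / n * x = Y / n := by
    rw [hY_def]
    field_simp
  rw [hYn] at hne
  have hY0 : Y ≠ 0 := by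
    intro h
    have h2 : (e0 ^ 2 + a) ^ 2 + b * (e0 ^ 2 + a) * (2 * e0 + b) - a * (2 * e0 + b) ^ 2 =
        n ^ 2 := by
      rw [hn_def, he0, ha_def, hb_def]
      ring
    by_cases hz1 : 2 * e0 + b = 0
    · have hz0 : e0 ^ 2 + a = 0 := by
        rw [hY_def, hz1] at h
        linear_combination h
      rw [hz0, hz1] at h2
      apply pow_ne_zero 2 hn0
      rw [← h2]
      ring
    · apply hxS
      have : x = -(e0 ^ 2 + a) / (2 * e0 + b) := by
        rw [eq_div_iff hz1]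
        rw [hY_def] at h
        linear_combination h
      rw [this]
      exact div_mem (neg_mem (show e0 ^ 2 + a ∈ fixS g from hgQ0))
        (show 2 * e0 + b ∈ fixS g from hgQ1)
  have hy2 : y ^ 2 ≠ 0 := pow_ne_zero 2 hy0
  have hy2' : ∀ w, w ≠ 0 → c w (y ^ 2) = c w y + c w y := by
    intro w hw
    rw [pow_two, hst.mul_right _ _ _ hw hy0 hy0]
  have hy2'' : ∀ w, w ≠ 0 → c (y ^ 2) w = c y w + c y w := by
    intro w hw
    rw [pow_two, hst.mul_left _ _ _ hy0 hy0 hw]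
  -- the Steinberg relation for `Y / y ^ 2` and `Q / y ^ 2`
  have hS : c (Y / y ^ 2) (Q / y ^ 2) = 0 := by
    have h1 : 1 - Y / y ^ 2 = Q / y ^ 2 := by
      rw [eq_div_iff hy2, sub_mul, div_mul_cancel₀ _ hy2, hyY]
      ring
    rw [← h1]
    apply hst.steinberg _ (div_ne_zero hY0 hy2)
    intro h2
    rw [h2, sub_self] at h1
    exact div_ne_zero hQ hy2 h1.symm
  have hYy : c Y y = 0 :=
    hL.lin _ _ _ _ hgQ0 hgQ1 hge0 (one_mem _) hY0 hy0
  have hyy : c y y = 0 :=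
    hL.lin _ _ _ _ hge0 (one_mem _) hge0 (one_mem _) hy0 hy0
  have hYQ : c Y Q = c n Q := by
    rw [hst.div_left hY0 hn0 hQ] at hne
    exact sub_eq_zero.1 hne
  rw [hst.div_left hY0 hy2 (div_ne_zero hQ hy2), hst.div_right hQ hy2 hY0,
    hst.div_right hQ hy2 hy2, hy2' _ hY0, hy2' _ hy2, hy2'' _ hQ, hy2'' _ hy0, hYy, hyy, hYQ] at hS
  have hnQ : c n Q = c l1 Q + c l1 Q := by
    rw [hn_def, hst.mul_left _ _ _ (pow_ne_zero 2 h10) hmd0 hQ, hmd Q hQ, add_zero, pow_two,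
      hst.mul_left _ _ _ h10 h10 hQ]
  have hfin : c y Q - c l1 Q = 0 := by
    apply h2T
    rw [hnQ] at hS
    have : c y Q - c l1 Q + (c y Q - c l1 Q) =
        -(c l1 Q + c l1 Q - (0 + 0) - (c y Q + c y Q - (0 + 0 + (0 + 0)))) := by abel
    rw [this, hS, neg_zero]
  have hyl : c y l1 = 0 := by
    have h := hL.lin e0 1 l1 0 hge0 (one_mem _) h1 (zero_mem _) hy0
      (by rw [zero_mul, add_zero]; exact h10)
    rwa [zero_mul, add_zero] at h
  have hll : c l1 l1 = 0 := by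
    have h := hL.lin l1 0 l1 0 h1 (zero_mem _) h1 (zero_mem _)
      (by rw [zero_mul, add_zero]; exact h10) (by rw [zero_mul, add_zero]; exact h10)
    rwa [zero_mul, add_zero] at h
  have e1 : m + z = y / l1 := by
    rw [hz, hy_def, he0]
    field_simp
    ring
  have e2 : z ^ 2 - d = Q / (l1 * l1) := by
    rw [hz, hQ_def, ha_def, hb_def]
    field_simp
    ring
  have hl2 : l1 * l1 ≠ 0 := mul_ne_zero h10 h10
  rw [e1, e2, hst.div_left hy0 h10 (div_ne_zero hQ hl2), hst.div_right hQ hl2 hy0,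
    hst.div_right hQ hl2 h10, hst.mul_right _ _ _ hy0 h10 h10, hst.mul_right _ _ _ h10 h10 h10,
    hyl, hll, add_zero, sub_zero, sub_zero, hfin]

end Pool.Agent.MP_1b9aaa_al.Ten
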