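import Pool.Agent.Lib.MP_1b9aaa_al.TenL4a

/-!
# MP_1b9aaa_al, T_10: the L-block, Step 1 of the descent
-/

set_option autoImplicit false

namespace Pool.Agent.MP_1b9aaa_al.Ten

variable {E T : Type*} [Field E] [AddCommGroup T] {t : E ≃+* E} {H : E → T} {ω : T →+ T}
  {ζ k a : E} {PT : AddSubgroup E} {R : Subring E} {i φ κ : E}

private theorem TenL4_tne (D : LDat t H ω ζ k a) {x : E} (hx : x ≠ 0) : t x ≠ 0 := by
  intro h
  apply hx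
  have h1 := congrArg t h
  rwa [D.tt, map_zero] at h1

private theorem TenL4_k (D : LDat t H ω ζ k a) : k ≠ 0 := by
  intro h
  apply D.hk'
  rw [h, map_zero, neg_zero]

/-- Lemma K for a quotient -/
private theorem TenL4_pair (D : LDat t H ω ζ k a) (P : PDat t H PT R i φ) {m : E}
    (hm : ∀ b ∈ R, m * b ∈ PT) {A B b : E} (hA : A ≠ 0) (hB : B ≠ 0) (hb : b ∈ R)
    (h : A * t B = (1 + m * b) * (t A * B)) : H A = H B := by
  have htA := TenL4_tne D hA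
  have htB := TenL4_tne D hB
  have hu1 : 1 + m * b = A * t B / (t A * B) := by
    rw [eq_div_iff (mul_ne_zero htA hB)]
    exact h.symm
  have hu0 : 1 + m * b ≠ 0 := by
    rw [hu1]
    exact div_ne_zero (mul_ne_zero hA htB) (mul_ne_zero htA hB)
  have hn : (1 + m * b) * t (1 + m * b) = 1 := by
    rw [hu1, map_div₀, map_mul, map_mul, D.tt, D.tt]
    field_simp
  have h1 : H (1 + m * b) = 0 := P.lemK hm hn hb rfl
  have h2 : H A + H (t B) = H (1 + m * b) + (H (t A) + H B) := by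
    rw [← D.hmul A (t B) hA htB, ← D.hmul (t A) B htA hB,
      ← D.hmul _ _ hu0 (mul_ne_zero htA hB), h]
  rw [h1, D.Ht hA, D.Ht hB] at h2
  have h3 : (H A - H B) + (H A - H B) = 0 := by
    rw [show (H A - H B) + (H A - H B) = (H A + -H B) - (0 + (-H A + H B)) by abel, h2, sub_self]
  exact sub_eq_zero.1 (D.h2T _ h3)

private theorem TenL4_Z (h2 : (2 : E) ≠ 0) (hζ : ζ ^ 4 + ζ ^ 3 + ζ ^ 2 + ζ + 1 = 0)
    (hφ : φ = ζ + ζ ^ 4) {q y l : E} (hκ0 : κ ≠ 0) (hk : k = κ * q)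
    (hl : l = q * (κ - 1) / 2 * y) :
    (k - ζ * l) * (k - ζ ^ 4 * l) =
      q ^ 2 * κ / 4 * (4 * κ - 2 * φ * (κ - 1) * y + (κ - 1) ^ 2 * y ^ 2 * κ⁻¹) ∧
    (q + ζ * l) * (q + ζ ^ 4 * l) =
      q ^ 2 / 4 * (4 + 2 * φ * (κ - 1) * y + (κ - 1) ^ 2 * y ^ 2) := by
  have h4 : (4 : E) ≠ 0 := by
    have : (4 : E) = 2 * 2 := by norm_num
    rw [this]
    exact mul_ne_zero h2 h2
  have h5 : ζ ^ 5 = 1 := by linear_combination (ζ - 1) * hζ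
  have e1 : (k - ζ * l) * (k - ζ ^ 4 * l) = k ^ 2 - φ * k * l + l ^ 2 := by
    rw [hφ]
    linear_combination l ^ 2 * h5
  have e2 : (q + ζ * l) * (q + ζ ^ 4 * l) = q ^ 2 + φ * q * l + l ^ 2 := by
    rw [hφ]
    linear_combination l ^ 2 * h5
  rw [e1, e2, hk, hl]
  constructor
  · field_simp
    ring
  · field_simp
    ring

private theorem TenL4_i (h2 : (2 : E) ≠ 0) {q Y x h C : E} (hY : Y = 1 - x * h)
    (n1 : a - q ≠ 0) (n2 : a + q ≠ 0) (n3 : a - q * Y ≠ 0)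
    (hC : C = -(h * 2⁻¹ * (((a + q) / (a - q) - 1) * ((a + q * Y) / (a - q * Y) + 1) *
      ((a - q) / (a + q))))) :
    (a - q) * (a + q * Y) = (1 + x * C) * ((a + q) * (a - q * Y)) := by
  have e1 : (a + q) / (a - q) - 1 = 2 * q / (a - q) := by
    field_simp
    ring
  have e2 : (a + q * Y) / (a - q * Y) + 1 = 2 * a / (a - q * Y) := by
    field_simp
    ring
  have e3 : C * ((a + q) * (a - q * Y)) = -(2 * h * a * q) := by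
    rw [hC, e1, e2]
    field_simp
  rw [add_mul, mul_assoc, e3]
  linear_combination 2 * a * q * hY

private theorem TenL4_ii {q x d n d₀ n₀ z tz z₀ tz₀ C c : E}
    (hz : z = q * κ * n) (htz : tz = q * d) (hz₀ : z₀ = q * κ * n₀) (htz₀ : tz₀ = q * d₀)
    (hd : d ≠ 0) (hn₀ : n₀ ≠ 0) (hc : n * d₀ - d * n₀ = x * c) (hC : C = c * d⁻¹ * n₀⁻¹) :
    z * tz₀ = (1 + x * C) * (tz * z₀) := by
  have e1 : C * (d * n₀) = c := by
    rw [hC]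
    field_simp
  rw [hz, htz, hz₀, htz₀]
  linear_combination q ^ 2 * κ * hc - x * q ^ 2 * κ * e1

/-- **Step 1** -/
theorem step1 (D : LDat t H ω ζ k a) (P : PDat t H PT R i φ) (hφ : φ = ζ + ζ ^ 4)
    (hκ : κ = k / t k) {N : ℕ} (hN : ∀ b ∈ R, (1 + κ) ^ (N + 1) * b ∈ PT) {r b : E}
    (hb : b ∈ R) (hr : r = (1 + κ) ^ N * b) (tr : t r = -r)
    (h0 : 1 + (κ - 1) ^ 2 / κ * r ≠ 0) : H (1 + (κ - 1) ^ 2 / κ * r) = 0 := by
  have hk0 := TenL4_k D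
  have htk0 := TenL4_tne D hk0
  have h2 := D.h2
  have h4 : (4 : E) ≠ 0 := by
    have : (4 : E) = 2 * 2 := by norm_num
    rw [this]
    exact mul_ne_zero h2 h2
  have hκ0 : κ ≠ 0 := by
    rw [hκ]
    exact div_ne_zero hk0 htk0
  have tκ : t κ = κ⁻¹ := by rw [hκ, map_div₀, D.tt, inv_div]
  have hκκ : κ * t κ = 1 := by rw [tκ, mul_inv_cancel₀ hκ0]
  have hκR : κ ∈ R := P.hU κ hκκ
  have hκR' : κ⁻¹ ∈ R := by
    rw [← tκ]
    exact P.hRt _ hκR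
  have hkq : k = κ * t k := by
    rw [hκ]
    field_simp
  obtain ⟨x, hx⟩ : ∃ x, x = (κ - κ⁻¹) * r := ⟨_, rfl⟩
  obtain ⟨b₁, hb₁⟩ : ∃ b₁, b₁ = (κ - 1) * κ⁻¹ * b := ⟨_, rfl⟩
  have hb₁R : b₁ ∈ R := by
    rw [hb₁]
    exact R.mul_mem (R.mul_mem (R.sub_mem hκR R.one_mem) hκR') hb
  have hx1 : x = (1 + κ) ^ (N + 1) * b₁ := by
    rw [hx, hb₁, hr, pow_succ]
    field_simp
    ring
  have tx : t x = x := by
    rw [hx, map_mul, map_sub, map_inv₀, tκ, tr, inv_inv]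
    ring
  have h1κR : 1 + κ ∈ R := R.add_mem R.one_mem hκR
  have hxR : x ∈ R := by
    rw [hx1]
    exact R.mul_mem (R.pow_mem h1κR _) hb₁R
  obtain ⟨l₀, hl₀⟩ : ∃ l₀, l₀ = (k - t k) / 2 := ⟨_, rfl⟩
  obtain ⟨l, hl⟩ : ∃ l, l = l₀ * (1 - x) := ⟨_, rfl⟩
  obtain ⟨k₀, hk₀⟩ : ∃ k₀, k₀ = (k + t k) / 2 := ⟨_, rfl⟩
  have t2 : t 2 = 2 := map_ofNat t 2
  have tl₀ : t l₀ = -l₀ := by
    rw [hl₀, map_div₀, map_sub, D.tt, t2]
    ring
  have tl : t l = -l := by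
    rw [hl, map_mul, map_sub, map_one, tx, tl₀]
    ring
  have tk₀ : t k₀ = k₀ := by
    rw [hk₀, map_div₀, map_add, D.tt, t2]
    ring
  have hk₀0 : k₀ ≠ 0 := by
    intro h
    apply D.hk'
    rw [hk₀, div_eq_zero_iff] at h
    rcases h with h | h
    · linear_combination h
    · exact absurd h h2
  have e1 : k - l₀ = k₀ := by
    rw [hl₀, hk₀]
    field_simp
    ring
  have hl₀q : l₀ = t k * (κ - 1) / 2 := by
    rw [hl₀]
    nth_rewrite 1 [hkq]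
    ring
  have hk₀q : k₀ = t k * (κ + 1) / 2 := by
    rw [hk₀]
    nth_rewrite 1 [hkq]
    ring
  have e2 : k - l = k₀ * (1 + (κ - 1) ^ 2 / κ * r) := by
    rw [hl, show k - l₀ * (1 - x) = (k - l₀) + l₀ * x by ring, e1, hx, hl₀q, hk₀q]
    field_simp
    ring
  -- the products
  have hlne : ∀ m : E, t m = -m → ∀ z : E, t z = z → k - z * m ≠ 0 := by
    intro m hm z hz h
    apply D.hk'
    have h1 : k = z * m := sub_eq_zero.1 h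
    rw [h1, map_mul, hm, hz]
    ring
  have tζ4 : t (ζ ^ 4) = ζ ^ 4 := by rw [map_pow, D.tζ]
  have hlm : H (a - l ^ 5) = H (a - l₀ ^ 5) := by
    have hA1 := D.ha l₀ (Or.inr tl₀)
    have hA2 := D.ha l (Or.inr tl)
    have hA3 : a + l₀ ^ 5 ≠ 0 := by
      have h := D.ha (-l₀) (Or.inr (by rw [map_neg, tl₀]))
      intro h'
      exact h (by linear_combination h')
    have hA4 : a + l ^ 5 ≠ 0 := by
      have h := D.ha (-l) (Or.inr (by rw [map_neg, tl]))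
      intro h'
      exact h (by linear_combination h')
    have tA1 : t (a - l₀ ^ 5) = a + l₀ ^ 5 := by
      rw [map_sub, map_pow, D.ta, tl₀]
      ring
    have tA2 : t (a - l ^ 5) = a + l ^ 5 := by
      rw [map_sub, map_pow, D.ta, tl]
      ring
    have tA3 : t (a + l₀ ^ 5) = a - l₀ ^ 5 := by rw [← tA1, D.tt]
    have tA4 : t (a + l ^ 5) = a - l ^ 5 := by rw [← tA2, D.tt]
    have r1 : (a + l ^ 5) / (a - l ^ 5) ∈ R := by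
      apply P.hU
      rw [map_div₀, tA2, tA4]
      field_simp
    have r2 : (a + l₀ ^ 5) / (a - l₀ ^ 5) ∈ R := by
      apply P.hU
      rw [map_div₀, tA1, tA3]
      field_simp
    have r3 : (a - l₀ ^ 5) / (a + l₀ ^ 5) ∈ R := by
      apply P.hU
      rw [map_div₀, tA1, tA3]
      field_simp
    have h5R : ∀ n : ℕ, (n : E) ∈ R := fun n => natCast_mem R n
    obtain ⟨h, hh⟩ : ∃ h, h = 5 - 10 * x + 10 * x ^ 2 - 5 * x ^ 3 + x ^ 4 := ⟨_, rfl⟩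
    have hhR : h ∈ R := by
      have h5 : (5 : E) ∈ R := by exact_mod_cast h5R 5
      have h10 : (10 : E) ∈ R := by exact_mod_cast h5R 10
      rw [hh]
      exact R.add_mem (R.sub_mem (R.add_mem (R.sub_mem h5 (R.mul_mem h10 hxR))
        (R.mul_mem h10 (R.pow_mem hxR 2))) (R.mul_mem h5 (R.pow_mem hxR 3))) (R.pow_mem hxR 4)
    obtain ⟨C, hC⟩ : ∃ C, C = -(h * 2⁻¹ * (((a + l₀ ^ 5) / (a - l₀ ^ 5) - 1) *
      ((a + l ^ 5) / (a - l ^ 5) + 1) * ((a - l₀ ^ 5) / (a + l₀ ^ 5)))) := ⟨_, rfl⟩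
    have hCR : C ∈ R := by
      rw [hC]
      exact R.neg_mem (R.mul_mem (R.mul_mem hhR P.h2R)
        (R.mul_mem (R.mul_mem (R.sub_mem r2 R.one_mem) (R.add_mem r1 R.one_mem)) r3))
    have hl5 : l ^ 5 = l₀ ^ 5 * (1 - x) ^ 5 := by rw [hl, mul_pow]
    refine (TenL4_pair D P hN (A := a - l₀ ^ 5) (B := a - l ^ 5) (b := b₁ * C) hA1 hA2
      (R.mul_mem hb₁R hCR) ?_).symm
    rw [tA1, tA2, show (1 + κ) ^ (N + 1) * (b₁ * C) = x * C by rw [hx1]; ring]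
    rw [hl5] at hC hA2 ⊢
    exact TenL4_i h2 (h := h) (by rw [hh]; ring) hA1 hA3 hA2 hC
  have hB : H ((k - ζ * l) * (k - ζ ^ 4 * l)) = H ((k - ζ * l₀) * (k - ζ ^ 4 * l₀)) := by
    have hZ : ∀ m : E, t m = -m → (k - ζ * m) * (k - ζ ^ 4 * m) ≠ 0 := fun m hm =>
      mul_ne_zero (hlne m hm ζ D.tζ) (hlne m hm _ tζ4)
    have tZ : ∀ m : E, t m = -m → t ((k - ζ * m) * (k - ζ ^ 4 * m)) =
        (t k + ζ * m) * (t k + ζ ^ 4 * m) := by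
      intro m hm
      rw [map_mul, map_sub, map_sub, map_mul, map_mul, tζ4, D.tζ, hm]
      ring
    have hl1 : l = t k * (κ - 1) / 2 * (1 - x) := by rw [hl, hl₀q]
    have hl2 : l₀ = t k * (κ - 1) / 2 * 1 := by rw [hl₀q, mul_one]
    obtain ⟨z1, z2⟩ := TenL4_Z h2 D.hζ hφ hκ0 hkq hl1
    obtain ⟨z3, z4⟩ := TenL4_Z h2 D.hζ hφ hκ0 hkq hl2
    have hbx : (1 + κ) ^ N * b₁ ∈ R := R.mul_mem (R.pow_mem h1κR _) hb₁R
    obtain ⟨u1, u2⟩ := unit_den P D.hζ D.tζ hφ hκκ hbx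
      (show x = (1 + κ) * ((1 + κ) ^ N * b₁) by rw [hx1, pow_succ]; ring) tx
    obtain ⟨u3, u4⟩ := unit_den P D.hζ D.tζ hφ hκκ (x := 0) R.zero_mem
      (show (0 : E) = (1 + κ) * 0 by rw [mul_zero]) (map_zero t)
    rw [sub_zero] at u3 u4
    obtain ⟨d, hd⟩ : ∃ d, d = 4 + 2 * φ * (κ - 1) * (1 - x) + (κ - 1) ^ 2 * (1 - x) ^ 2 :=
      ⟨_, rfl⟩
    obtain ⟨d₀, hd₀⟩ : ∃ d₀, d₀ = 4 + 2 * φ * (κ - 1) * 1 + (κ - 1) ^ 2 * 1 ^ 2 := ⟨_, rfl⟩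
    obtain ⟨n, hn⟩ : ∃ n, n = 4 * κ - 2 * φ * (κ - 1) * (1 - x) +
      (κ - 1) ^ 2 * (1 - x) ^ 2 * κ⁻¹ := ⟨_, rfl⟩
    obtain ⟨n₀, hn₀⟩ : ∃ n₀, n₀ = 4 * κ - 2 * φ * (κ - 1) * 1 +
      (κ - 1) ^ 2 * 1 ^ 2 * κ⁻¹ := ⟨_, rfl⟩
    rw [← hd] at u1 u2 z2
    rw [← hd₀] at u3 u4 z4
    rw [← hn] at z1
    rw [← hn₀] at z3
    have tφ : t φ = φ := P.tφ
    have t4 : t 4 = 4 := map_ofNat t 4
    have hnd : n₀ = κ * t d₀ := by
      rw [hn₀, hd₀]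
      simp only [map_add, map_mul, map_sub, map_pow, map_one, tκ, tφ, t2, t4]
      field_simp
      ring
    have td₀ : t d₀ ≠ 0 := TenL4_tne D u4
    have hn₀0 : n₀ ≠ 0 := by
      rw [hnd]
      exact mul_ne_zero hκ0 td₀
    have hn₀R : n₀⁻¹ ∈ R := by
      rw [hnd, mul_inv, ← map_inv₀]
      exact R.mul_mem hκR' (P.hRt _ u3)
    obtain ⟨c, hc⟩ : ∃ c, c = (8 * φ * κ * (κ - 1) + 4 * κ * (κ - 1) ^ 2 + 8 * φ * (κ - 1) -
      4 * (κ - 1) ^ 2 * κ⁻¹) - (4 * (κ - 1) ^ 2 * κ⁻¹ + 2 * φ * (κ - 1) ^ 3 * κ⁻¹ -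
      4 * κ * (κ - 1) ^ 2 + 2 * φ * (κ - 1) ^ 3) * (1 - x) := ⟨_, rfl⟩
    have hcR : c ∈ R := by
      have hN' : ∀ n : ℕ, (n : E) ∈ R := fun n => natCast_mem R n
      have h2' : (2 : E) ∈ R := by exact_mod_cast hN' 2
      have h4' : (4 : E) ∈ R := by exact_mod_cast hN' 4
      have h8' : (8 : E) ∈ R := by exact_mod_cast hN' 8
      have hκ1 : κ - 1 ∈ R := R.sub_mem hκR R.one_mem
      have hφR := P.hφR
      rw [hc]
      exact R.sub_mem (R.sub_mem (R.add_mem (R.add_mem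
        (R.mul_mem (R.mul_mem (R.mul_mem h8' hφR) hκR) hκ1)
        (R.mul_mem (R.mul_mem h4' hκR) (R.pow_mem hκ1 2)))
        (R.mul_mem (R.mul_mem h8' hφR) hκ1))
        (R.mul_mem (R.mul_mem h4' (R.pow_mem hκ1 2)) hκR'))
        (R.mul_mem (R.add_mem (R.sub_mem (R.add_mem
          (R.mul_mem (R.mul_mem h4' (R.pow_mem hκ1 2)) hκR')
          (R.mul_mem (R.mul_mem (R.mul_mem h2' hφR) (R.pow_mem hκ1 3)) hκR'))
          (R.mul_mem (R.mul_mem h4' hκR) (R.pow_mem hκ1 2)))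
          (R.mul_mem (R.mul_mem h2' hφR) (R.pow_mem hκ1 3))) (R.sub_mem R.one_mem hxR))
    have hc1 : n * d₀ - d * n₀ = x * c := by
      rw [hn, hd, hd₀, hn₀, hc]
      field_simp
      ring
    obtain ⟨C, hC⟩ : ∃ C, C = c * d⁻¹ * n₀⁻¹ := ⟨_, rfl⟩
    refine TenL4_pair D P hN (b := b₁ * C) (hZ l tl) (hZ l₀ tl₀)
      (R.mul_mem hb₁R (by rw [hC]; exact R.mul_mem (R.mul_mem hcR u1) hn₀R)) ?_
    rw [tZ l tl, tZ l₀ tl₀, z1, z2, z3, z4,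
      show (1 + κ) ^ (N + 1) * (b₁ * C) = x * C by rw [hx1]; ring]
    exact TenL4_ii (κ := κ) (q := (t k) ^ 2 / 4) (by ring) rfl (by ring) rfl u2 hn₀0 hc1 hC
  have key := D.T3 tl tl₀ hlm hB
  rw [e1, e2, D.hmul _ _ hk₀0 h0, D.hfix k₀ hk₀0 tk₀, zero_add] at key
  exact key

/-- one step of the descent -/
theorem descent (D : LDat t H ω ζ k a) (P : PDat t H PT R i φ) (hφ : φ = ζ + ζ ^ 4)
    (hκ : κ = k / t k) {N : ℕ} (hN : ∀ b ∈ R, (1 + κ) ^ (N + 1) * b ∈ PT) :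
    ∀ b ∈ R, (1 + κ) ^ N * b ∈ PT := by
  intro b hb
  have hk0 := TenL4_k D
  have htk0 := TenL4_tne D hk0
  have hκ0 : κ ≠ 0 := by
    rw [hκ]
    exact div_ne_zero hk0 htk0
  have tκ : t κ = κ⁻¹ := by rw [hκ, map_div₀, D.tt, inv_div]
  have hκκ : κ * t κ = 1 := by rw [tκ, mul_inv_cancel₀ hκ0]
  have hκR : κ ∈ R := P.hU κ hκκ
  have hκR' : κ⁻¹ ∈ R := by
    rw [← tκ]
    exact P.hRt _ hκR
  have h1κR : 1 + κ ∈ R := R.add_mem R.one_mem hκR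
  have hSR : (κ - 1) ^ 2 / κ ∈ R := by
    rw [div_eq_mul_inv]
    exact R.mul_mem (R.pow_mem (R.sub_mem hκR R.one_mem) 2) hκR'
  have tS : t ((κ - 1) ^ 2 / κ) = (κ - 1) ^ 2 / κ := by
    rw [map_div₀, map_pow, map_sub, map_one, tκ]
    field_simp
    ring
  have hstep : ∀ x ∈ {x : E | ∃ b ∈ R, x = (1 + κ) ^ N * b}, (κ - 1) ^ 2 / κ * x ∈ PT := by
    intro x hx
    refine P.step2 hSR tS (J := {x : E | ∃ b ∈ R, x = (1 + κ) ^ N * b}) ?_ ?_ ?_ ?_ ?_ hx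
    · rintro _ ⟨b, hb, rfl⟩
      exact R.mul_mem (R.pow_mem h1κR _) hb
    · rintro c hc _ ⟨b, hb, rfl⟩
      exact ⟨c * b, R.mul_mem hc hb, by ring⟩
    · rintro _ ⟨b, hb, rfl⟩ _ ⟨c, hc, rfl⟩
      exact ⟨b - c, R.sub_mem hb hc, by ring⟩
    · rintro _ ⟨b, hb, rfl⟩
      refine ⟨(κ⁻¹) ^ N * t b, R.mul_mem (R.pow_mem hκR' _) (P.hRt _ hb), ?_⟩
      rw [map_mul, map_pow, map_add, map_one, tκ, ← mul_assoc, ← mul_pow]
      congr 2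
      field_simp
      ring
    · rintro r ⟨b, hb, hr⟩ tr h0
      exact step1 D P hφ hκ hN hb hr tr h0
  have h4 : (4 : E) ≠ 0 := by
    have : (4 : E) = 2 * 2 := by norm_num
    rw [this]
    exact mul_ne_zero D.h2 D.h2
  have hb4 : b * (2⁻¹ * 2⁻¹) ∈ R := R.mul_mem hb (R.mul_mem P.h2R P.h2R)
  have h1 := hstep ((1 + κ) ^ N * (b * (2⁻¹ * 2⁻¹))) ⟨_, hb4, rfl⟩
  have h3 := hN ((1 + κ) * κ⁻¹ * (b * (2⁻¹ * 2⁻¹)))
    (R.mul_mem (R.mul_mem h1κR hκR') hb4)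
  have e : (1 + κ) ^ N * b = (1 + κ) ^ (N + 1) * ((1 + κ) * κ⁻¹ * (b * (2⁻¹ * 2⁻¹))) -
      (κ - 1) ^ 2 / κ * ((1 + κ) ^ N * (b * (2⁻¹ * 2⁻¹))) := by
    have h2 := D.h2
    rw [pow_succ]
    field_simp
    ring
  rw [e]
  exact PT.sub_mem h3 h1

end Pool.Agent.MP_1b9aaa_al.Ten
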