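import Pool.Agent.Lib.MP_1b9aaa_al.TenL2
import Pool.Agent.Lib.MP_1b9aaa_al.TenL4

/-!
# MP_1b9aaa_al, T_10: the L-block, abstract end
-/

set_option autoImplicit false

namespace Pool.Agent.MP_1b9aaa_al.Ten

private theorem TenL_NR_le {E : Type*} [Field E] (t : E ≃+* E) (φ : E) : NR t ≤ NP t φ :=
  Subring.closure_mono Set.subset_union_left

private theorem TenL_NP_t {E : Type*} [Field E] {t : E ≃+* E} {φ : E} (tt : ∀ x, t (t x) = x)
    (tφ : t φ = φ) : ∀ b ∈ NP t φ, t b ∈ NP t φ := by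
  intro b hb
  have hle : NP t φ ≤ (NP t φ).comap (t : E →+* E) := by
    unfold NP
    rw [Subring.closure_le]
    rintro y (hy | hy)
    · have hy' : y * t y = 1 := hy
      change t y ∈ Subring.closure ({θ | θ * t θ = 1} ∪ {φ})
      apply Subring.subset_closure
      left
      change t y * t (t y) = 1
      rw [tt, mul_comm]
      exact hy'
    · have hy' : y = φ := hy
      change t y ∈ Subring.closure ({θ | θ * t θ = 1} ∪ {φ})
      rw [hy', tφ]
      exact Subring.subset_closure (Or.inr rfl)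
  exact hle hb

private theorem TenL_three {E : Type*} [Field E] (t : E ≃+* E) (φ : E) : (3 : E) ∈ NP t φ := by
  have h : (3 : E) = 1 + 1 + 1 := by norm_num
  rw [h]
  exact (NP t φ).add_mem ((NP t φ).add_mem (NP t φ).one_mem (NP t φ).one_mem) (NP t φ).one_mem

/-- **the L-block** -/
theorem LDat.main {E T : Type*} [Field E] [AddCommGroup T] {t : E ≃+* E} {H : E → T} {ω : T →+ T}
    {ζ k a : E} (D : LDat t H ω ζ k a) (hi2 : (2 : E)⁻¹ ∈ NR t) (hi5 : (5 : E)⁻¹ ∈ NR t)
    {i : E} (ti : t i = i) (hi : i * i = -1) {x : E} (hx : x ≠ 0) :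
    H x = 0 := by
  have hζ5 : ζ ^ 5 = 1 := by linear_combination (ζ - 1) * D.hζ
  have hφ2 : (ζ + ζ ^ 4) ^ 2 = 1 - (ζ + ζ ^ 4) := by
    linear_combination (2 + ζ ^ 3) * hζ5 + D.hζ
  have tφ : t (ζ + ζ ^ 4) = ζ + ζ ^ 4 := by
    rw [map_add, map_pow, D.tζ]
  have h5e : (2 - (ζ + ζ ^ 4)) * (3 + (ζ + ζ ^ 4)) = 5 := by
    linear_combination -hφ2
  have h50 : 2 - (ζ + ζ ^ 4) ≠ 0 := by
    intro h
    rw [h, zero_mul] at h5e
    exact D.h5 h5e.symm
  have hφR : ζ + ζ ^ 4 ∈ NP t (ζ + ζ ^ 4) := Subring.subset_closure (Or.inr rfl)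
  have h5inv : (2 - (ζ + ζ ^ 4))⁻¹ = (3 + (ζ + ζ ^ 4)) * (5 : E)⁻¹ := by
    apply inv_eq_of_mul_eq_one_right
    rw [← mul_assoc, h5e, mul_inv_cancel₀ D.h5]
  have P : PDat t H D.inv.PT (NP t (ζ + ζ ^ 4)) i (ζ + ζ ^ 4) :=
    { tt := D.tt
      hmul := D.hmul
      hfix := D.hfix
      h2T := D.h2T
      hU := fun θ hθ => Subring.subset_closure (Or.inl hθ)
      hRt := TenL_NP_t D.tt tφ
      h2 := D.h2
      h2R := TenL_NR_le t _ hi2
      ti := ti
      hi := hi
      hφ := hφ2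
      tφ := tφ
      hφR := hφR
      h5 := by
        rw [h5inv]
        exact (NP t (ζ + ζ ^ 4)).mul_mem ((NP t (ζ + ζ ^ 4)).add_mem (TenL_three t _) hφR)
          (TenL_NR_le t _ hi5)
      h50 := h50
      per := by
        intro l hl ρ hρ
        have h1 := (D.inv.mem_PT).1 hl 1 (by
          change (1 : E) * t 1 = 1
          rw [map_one, mul_one])
        rw [mul_one] at h1
        exact D.inv.H_one_add h1 hρ
      of_per := by
        intro l hl
        rw [D.inv.mem_PT]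
        intro θ hθ
        refine D.inv.per_of ?_ fun ρ hρ => hl θ hθ ρ hρ
        rw [map_sub, D.tt]
        ring }
  have s5 := D.start hi2 hi5 (κ := k / t k) rfl
  have s4 := descent D P rfl rfl (N := 4) s5
  have s3 := descent D P rfl rfl (N := 3) s4
  have s2 := descent D P rfl rfl (N := 2) s3
  have s1 := descent D P rfl rfl (N := 1) s2
  have s0 := descent D P rfl rfl (N := 0) s1
  refine P.fin (fun b hb => ?_) hx
  have := s0 b hb
  rwa [pow_zero, one_mul] at this

end Pool.Agent.MP_1b9aaa_al.Ten
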