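import Pool.Agent.Lib.MP_1b9aaa_al.TenG

/-!
# MP_1b9aaa_al, T_10: the L-block, the two- and three-term relations

`H = L_k = c(s - k, *)` on `E* = L*`, `t` the involution of `L / F`.
-/

set_option autoImplicit false

namespace Pool.Agent.MP_1b9aaa_al.Ten

/-- the data of the L-block -/
structure LDat {E T : Type*} [Field E] [AddCommGroup T] (t : E ≃+* E) (H : E → T)
    (ω : T →+ T) (ζ k a : E) : Prop where
  tt : ∀ x, t (t x) = x
  hmul : ∀ x y, x ≠ 0 → y ≠ 0 → H (x * y) = H x + H y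
  hfix : ∀ x, x ≠ 0 → t x = x → H x = 0
  h2T : ∀ v : T, v + v = 0 → v = 0
  h5T : ∀ v : T, v + v + v + v + v = 0 → v = 0
  hω : ∀ v, v + ω v + ω (ω v) + ω (ω (ω v)) + ω (ω (ω (ω v))) = 0
  h2 : (2 : E) ≠ 0
  h5 : (5 : E) ≠ 0
  hζ : ζ ^ 4 + ζ ^ 3 + ζ ^ 2 + ζ + 1 = 0
  tζ : t ζ = ζ
  hk : t k ≠ k
  hk' : t k ≠ -k
  ta : t a = a
  ha : ∀ l, (t l = l ∨ t l = -l) → a - l ^ 5 ≠ 0
  A0 : ∀ l, (t l = l ∨ t l = -l) → H (k - l) + H (k - ζ * l) + H (k - ζ ^ 2 * l) +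
    H (k - ζ ^ 3 * l) + H (k - ζ ^ 4 * l) = H (a - l ^ 5)
  A1 : ∀ l, (t l = l ∨ t l = -l) → H (k - l) + ω (H (k - ζ * l)) + ω (ω (H (k - ζ ^ 2 * l))) +
    ω (ω (ω (H (k - ζ ^ 3 * l)))) + ω (ω (ω (ω (H (k - ζ ^ 4 * l))))) = 0

namespace LDat

variable {E T : Type*} [Field E] [AddCommGroup T] {t : E ≃+* E} {H : E → T} {ω : T →+ T}
  {ζ k a : E}

/-- `a ≠ 0`; `l = 0` in `A0` -/
theorem Hk (D : LDat t H ω ζ k a) : H k = 0 := by
  have h0 : t (0 : E) = 0 ∨ t (0 : E) = -0 := Or.inl (map_zero t)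
  have h := D.A0 0 h0
  have ha := D.ha 0 h0
  rw [zero_pow (by norm_num), sub_zero] at h ha
  simp only [mul_zero, sub_zero] at h
  rw [D.hfix a ha D.ta] at h
  exact D.h5T _ h

/-- an anti-fixed element has `H = 0` -/
theorem Hanti (D : LDat t H ω ζ k a) {l : E} (hl : l ≠ 0) (h : t l = l ∨ t l = -l) :
    H l = 0 := by
  have h1 : t (l * l) = l * l := by
    rw [map_mul]
    rcases h with h | h <;> rw [h]
    ring
  have h2 := D.hfix (l * l) (mul_ne_zero hl hl) h1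
  rw [D.hmul l l hl hl] at h2
  exact D.h2T _ h2

theorem Ht (D : LDat t H ω ζ k a) {x : E} (hx : x ≠ 0) : H (t x) = - H x := by
  have hx' : t x ≠ 0 := (map_ne_zero t).2 hx
  have h1 : t (t x * x) = t x * x := by
    rw [map_mul, D.tt, mul_comm]
  have h2 := D.hfix (t x * x) (mul_ne_zero hx' hx) h1
  rw [D.hmul _ _ hx' hx] at h2
  exact eq_neg_of_add_eq_zero_left h2

private theorem TenL1_w5 (D : LDat t H ω ζ k a) (v : T) : ω (ω (ω (ω (ω v)))) = v := by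
  have h1 := D.hω v
  have h2 := D.hω (ω v)
  have h3 : ω (ω (ω (ω (ω v)))) - v =
      (ω v + ω (ω v) + ω (ω (ω v)) + ω (ω (ω (ω v))) + ω (ω (ω (ω (ω v))))) -
      (v + ω v + ω (ω v) + ω (ω (ω v)) + ω (ω (ω (ω v)))) := by abel
  rw [h2, h1, sub_zero] at h3
  exact sub_eq_zero.1 h3

private theorem TenL1_pp (D : LDat t H ω ζ k a) (v : T) :
    ω (ω (ω (ω v) + ω (ω (ω v)))) + ω (ω (ω (ω (ω v) + ω (ω (ω v))))) =
      v - (ω (ω v) + ω (ω (ω v))) := by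
  have h1 := D.hω v
  simp only [map_add]
  rw [TenL1_w5 D]
  have h3 : ω (ω (ω (ω v))) + v + (v + ω v) - (v - (ω (ω v) + ω (ω (ω v)))) =
      v + ω v + ω (ω v) + ω (ω (ω v)) + ω (ω (ω (ω v))) := by abel
  rw [h1] at h3
  exact sub_eq_zero.1 h3

/-- solution of the linear equations -/
private theorem TenL1_core (D : LDat t H ω ζ k a) {F P Q e : T} (h1 : F + P + Q = e)
    (h2 : F + F + (ω P + ω (ω (ω (ω P)))) + (ω (ω Q) + ω (ω (ω Q))) = 0) :
    P + P + P + P + P =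
      (ω (ω F) + ω (ω (ω F))) + (ω (ω F) + ω (ω (ω F))) + (ω (ω F) + ω (ω (ω F))) +
      (ω (ω F) + ω (ω (ω F))) + (ω (ω F) + ω (ω (ω F))) + (e + e - (ω (ω e) + ω (ω (ω e)))) := by
  have hQ : Q = e - F - P := by rw [← h1]; abel
  have hP := D.hω P
  have h3 : F + F - P - (ω (ω P) + ω (ω (ω P))) - (ω (ω P) + ω (ω (ω P))) +
      (ω (ω e) + ω (ω (ω e))) - (ω (ω F) + ω (ω (ω F))) = 0 := by
    have h4 : F + F - P - (ω (ω P) + ω (ω (ω P))) - (ω (ω P) + ω (ω (ω P))) +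
      (ω (ω e) + ω (ω (ω e))) - (ω (ω F) + ω (ω (ω F))) =
      (F + F + (ω P + ω (ω (ω (ω P)))) + (ω (ω Q) + ω (ω (ω Q)))) -
      (P + ω P + ω (ω P) + ω (ω (ω P)) + ω (ω (ω (ω P)))) := by
      rw [hQ]
      simp only [map_sub]
      abel
    rw [h4, h2, hP, sub_zero]
  have h5 : (ω (ω F) + ω (ω (ω F))) + (ω (ω F) + ω (ω (ω F))) -
      (ω (ω P) + ω (ω (ω P))) - (P - (ω (ω P) + ω (ω (ω P)))) -
      (P - (ω (ω P) + ω (ω (ω P)))) + (e - (ω (ω e) + ω (ω (ω e)))) -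
      (F - (ω (ω F) + ω (ω (ω F)))) = 0 := by
    have h6 := congrArg (fun v => ω (ω v) + ω (ω (ω v))) h3
    simp only [map_zero, add_zero] at h6
    rw [← TenL1_pp D P, ← TenL1_pp D e, ← TenL1_pp D F]
    rw [← h6]
    simp only [map_sub, map_add]
    abel
  have h7 : (ω (ω F) + ω (ω (ω F))) + (ω (ω F) + ω (ω (ω F))) + (ω (ω F) + ω (ω (ω F))) +
      (ω (ω F) + ω (ω (ω F))) + (ω (ω F) + ω (ω (ω F))) +
      (e + e - (ω (ω e) + ω (ω (ω e)))) - (P + P + P + P + P) =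
      (F + F - P - (ω (ω P) + ω (ω (ω P))) - (ω (ω P) + ω (ω (ω P))) +
      (ω (ω e) + ω (ω (ω e))) - (ω (ω F) + ω (ω (ω F)))) +
      ((ω (ω F) + ω (ω (ω F))) + (ω (ω F) + ω (ω (ω F))) -
      (ω (ω P) + ω (ω (ω P))) - (P - (ω (ω P) + ω (ω (ω P)))) -
      (P - (ω (ω P) + ω (ω (ω P)))) + (e - (ω (ω e) + ω (ω (ω e)))) -
      (F - (ω (ω F) + ω (ω (ω F))))) +
      ((ω (ω F) + ω (ω (ω F))) + (ω (ω F) + ω (ω (ω F))) -
      (ω (ω P) + ω (ω (ω P))) - (P - (ω (ω P) + ω (ω (ω P)))) -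
      (P - (ω (ω P) + ω (ω (ω P)))) + (e - (ω (ω e) + ω (ω (ω e)))) -
      (F - (ω (ω F) + ω (ω (ω F))))) := by
    abel
  rw [h3, h5, add_zero, add_zero] at h7
  exact (sub_eq_zero.1 h7).symm

private theorem TenL1_ne (D : LDat t H ω ζ k a) {l z : E} (h : t l = l ∨ t l = -l)
    (hz : t z = z) : k - z * l ≠ 0 := by
  intro h0
  have hk : k = z * l := sub_eq_zero.1 h0
  have h1 : t k = z * t l := by rw [hk, map_mul, hz]
  rcases h with h | h
  · exact D.hk (by rw [h1, h, ← hk])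
  · exact D.hk' (by rw [h1, h, hk]; ring)

private theorem TenL1_k0 (D : LDat t H ω ζ k a) : k ≠ 0 := by
  intro h
  exact D.hk (by rw [h, map_zero])

private theorem TenL1_z5 (D : LDat t H ω ζ k a) : ζ ^ 5 = 1 := by
  have h := D.hζ
  linear_combination (ζ - 1) * h

private theorem TenL1_z0 (D : LDat t H ω ζ k a) : ζ ≠ 0 := by
  intro h
  have h1 := TenL1_z5 D
  rw [h, zero_pow (by norm_num)] at h1
  exact zero_ne_one h1

/-- `k - z N / t l` and `k - l / z` -/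
private theorem TenL1_flip (D : LDat t H ω ζ k a) {l z z' : E} (hl : l ≠ 0)
    (h : t l = l ∨ t l = -l) (hz : t z = z) (hz' : t z' = z') (hzz : z * z' = 1) :
    H (k - z * (k * t k / t l)) = -H (k - z' * l) := by
  have htl : t l ≠ 0 := (map_ne_zero t).2 hl
  have hk0 := TenL1_k0 D
  have hz0 : z ≠ 0 := left_ne_zero_of_mul_eq_one hzz
  have hne := TenL1_ne D h hz'
  have hne' : t (k - z' * l) ≠ 0 := (map_ne_zero t).2 hne
  have e1 : k - z * (k * t k / t l) = k * ((-z / t l) * t (k - z' * l)) := by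
    rw [map_sub, map_mul, hz']
    field_simp
    linear_combination (-(t l)) * hzz
  have hs : -z / t l ≠ 0 := div_ne_zero (neg_ne_zero.2 hz0) htl
  have hs' : t (-z / t l) = -z / t l ∨ t (-z / t l) = -(-z / t l) := by
    rw [map_div₀, map_neg, hz, D.tt]
    rcases h with h | h
    · left
      rw [h]
    · right
      rw [h, div_neg, neg_neg]
  rw [e1, D.hmul _ _ hk0 (mul_ne_zero hs hne'), D.hmul _ _ hs hne', D.Hk, D.Hanti hs hs', zero_add,
    zero_add, D.Ht hne]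

/-- `ω² + ω³` is injective, `ω + ω⁴` is injective -/
theorem inj23 (D : LDat t H ω ζ k a) {v : T} (h : ω (ω v) + ω (ω (ω v)) = 0) : v = 0 := by
  have h1 := D.hω v
  have h2 := congrArg ω h
  have h3 := congrArg (fun u => ω (ω (ω (ω u)))) h
  simp only [map_add, map_zero] at h2 h3
  rw [TenL1_w5 D] at h3
  have h4 : v = (v + ω v + ω (ω v) + ω (ω (ω v)) + ω (ω (ω (ω v)))) -
      (ω (ω (ω v)) + ω (ω (ω (ω v)))) - (ω v + ω (ω v)) := by abel
  rw [h1, h2, h3, sub_zero, sub_zero] at h4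
  exact h4

theorem inj14 (D : LDat t H ω ζ k a) {v : T} (h : ω v + ω (ω (ω (ω v))) = 0) : v = 0 := by
  have h1 := D.hω v
  have h2 := congrArg (fun u => ω (ω u)) h
  have h3 := congrArg (fun u => ω (ω (ω u))) h
  simp only [map_add, map_zero] at h2 h3
  rw [TenL1_w5 D] at h2 h3
  have h4 : v = (v + ω v + ω (ω v) + ω (ω (ω v)) + ω (ω (ω (ω v)))) -
      (ω (ω (ω v)) + ω v) - (ω (ω (ω (ω v))) + ω (ω v)) := by abel
  rw [h1, h2, h3, sub_zero, sub_zero] at h4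
  exact h4

/-- the second form of `A1` -/
theorem A1' (D : LDat t H ω ζ k a) {l : E} (h : t l = l ∨ t l = -l) :
    H (k - l) + ω (H (k - ζ ^ 4 * l)) + ω (ω (H (k - ζ ^ 3 * l))) +
      ω (ω (ω (H (k - ζ ^ 2 * l)))) + ω (ω (ω (ω (H (k - ζ * l))))) = 0 := by
  by_cases hl : l = 0
  · subst hl
    simp only [mul_zero, sub_zero, D.Hk, map_zero, add_zero]
  · have hz5 := TenL1_z5 D
    have hm : t (k * t k / t l) = k * t k / t l ∨ t (k * t k / t l) = -(k * t k / t l) := by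
      rw [map_div₀, map_mul, D.tt, D.tt, mul_comm (t k) k]
      rcases h with h | h
      · left
        rw [h]
      · right
        rw [h, div_neg, neg_neg]
    have h1 := D.A1 _ hm
    have f0 := TenL1_flip D hl h (map_one t) (map_one t) (one_mul 1)
    have f1 := TenL1_flip D (z := ζ) (z' := ζ ^ 4) hl h D.tζ (by rw [map_pow, D.tζ])
      (by rw [← hz5]; ring)
    have f2 := TenL1_flip D (z := ζ ^ 2) (z' := ζ ^ 3) hl h (by rw [map_pow, D.tζ])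
      (by rw [map_pow, D.tζ]) (by rw [← hz5]; ring)
    have f3 := TenL1_flip D (z := ζ ^ 3) (z' := ζ ^ 2) hl h (by rw [map_pow, D.tζ])
      (by rw [map_pow, D.tζ]) (by rw [← hz5]; ring)
    have f4 := TenL1_flip D (z := ζ ^ 4) (z' := ζ) hl h (by rw [map_pow, D.tζ]) D.tζ
      (by rw [← hz5]; ring)
    rw [one_mul, one_mul] at f0
    rw [f0, f1, f2, f3, f4] at h1
    simp only [map_neg] at h1
    rw [← neg_eq_zero, ← h1]
    abel

private theorem TenL1_sum (D : LDat t H ω ζ k a) {l : E} (h : t l = l ∨ t l = -l) :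
    H (k - l) + H (k - l) + (ω (H (k - ζ * l) + H (k - ζ ^ 4 * l)) +
      ω (ω (ω (ω (H (k - ζ * l) + H (k - ζ ^ 4 * l)))))) +
      (ω (ω (H (k - ζ ^ 2 * l) + H (k - ζ ^ 3 * l))) +
        ω (ω (ω (H (k - ζ ^ 2 * l) + H (k - ζ ^ 3 * l))))) = 0 := by
  have h1 := D.A1 l h
  have h2 := D.A1' h
  have h3 : H (k - l) + H (k - l) + (ω (H (k - ζ * l) + H (k - ζ ^ 4 * l)) +
      ω (ω (ω (ω (H (k - ζ * l) + H (k - ζ ^ 4 * l)))))) +
      (ω (ω (H (k - ζ ^ 2 * l) + H (k - ζ ^ 3 * l))) +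
        ω (ω (ω (H (k - ζ ^ 2 * l) + H (k - ζ ^ 3 * l))))) =
      (H (k - l) + ω (H (k - ζ * l)) + ω (ω (H (k - ζ ^ 2 * l))) +
        ω (ω (ω (H (k - ζ ^ 3 * l)))) + ω (ω (ω (ω (H (k - ζ ^ 4 * l)))))) +
      (H (k - l) + ω (H (k - ζ ^ 4 * l)) + ω (ω (H (k - ζ ^ 3 * l))) +
        ω (ω (ω (H (k - ζ ^ 2 * l)))) + ω (ω (ω (ω (H (k - ζ * l)))))) := by
    simp only [map_add]
    abel
  rw [h3, h1, h2, add_zero]

private theorem TenL1_P (D : LDat t H ω ζ k a) {l : E} (h : t l = l ∨ t l = -l) :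
    (H (k - ζ * l) + H (k - ζ ^ 4 * l)) + (H (k - ζ * l) + H (k - ζ ^ 4 * l)) +
      (H (k - ζ * l) + H (k - ζ ^ 4 * l)) + (H (k - ζ * l) + H (k - ζ ^ 4 * l)) +
      (H (k - ζ * l) + H (k - ζ ^ 4 * l)) =
      (ω (ω (H (k - l))) + ω (ω (ω (H (k - l))))) + (ω (ω (H (k - l))) + ω (ω (ω (H (k - l))))) +
      (ω (ω (H (k - l))) + ω (ω (ω (H (k - l))))) + (ω (ω (H (k - l))) + ω (ω (ω (H (k - l))))) +
      (ω (ω (H (k - l))) + ω (ω (ω (H (k - l))))) + (H (a - l ^ 5) + H (a - l ^ 5) -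
        (ω (ω (H (a - l ^ 5))) + ω (ω (ω (H (a - l ^ 5)))))) :=
  TenL1_core D (F := H (k - l)) (P := H (k - ζ * l) + H (k - ζ ^ 4 * l))
    (Q := H (k - ζ ^ 2 * l) + H (k - ζ ^ 3 * l)) (e := H (a - l ^ 5))
    (by rw [← D.A0 l h]; abel) (TenL1_sum D h)

private theorem TenL1_five (D : LDat t H ω ζ k a) {u v : T}
    (h : u + u + u + u + u = v + v + v + v + v) : u = v := by
  apply sub_eq_zero.1
  apply D.h5T
  have h1 : u - v + (u - v) + (u - v) + (u - v) + (u - v) =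
      (u + u + u + u + u) - (v + v + v + v + v) := by abel
  rw [h1, h, sub_self]

private theorem TenL1_e0 (D : LDat t H ω ζ k a) {l : E} (h : t l = l) : H (a - l ^ 5) = 0 :=
  D.hfix _ (D.ha l (Or.inl h)) (by rw [map_sub, D.ta, map_pow, h])

/-- for `l ∈ F` -/
theorem B14 (D : LDat t H ω ζ k a) {l : E} (h : t l = l) :
    H (k - ζ * l) + H (k - ζ ^ 4 * l) = ω (ω (H (k - l))) + ω (ω (ω (H (k - l)))) := by
  have h1 := TenL1_P D (Or.inl h)
  rw [TenL1_e0 D h] at h1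
  simp only [map_zero, add_zero, sub_zero] at h1
  exact TenL1_five D h1

/-- for `l ∈ F` -/
theorem B23 (D : LDat t H ω ζ k a) {l : E} (h : t l = l) :
    H (k - ζ ^ 2 * l) + H (k - ζ ^ 3 * l) = ω (H (k - l)) + ω (ω (ω (ω (H (k - l))))) := by
  have h1 := D.B14 h
  have h2 := D.A0 l (Or.inl h)
  have h3 := D.hω (H (k - l))
  rw [TenL1_e0 D h] at h2
  have h4 : H (k - ζ ^ 2 * l) + H (k - ζ ^ 3 * l) - (ω (H (k - l)) +
      ω (ω (ω (ω (H (k - l)))))) =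
      (H (k - l) + H (k - ζ * l) + H (k - ζ ^ 2 * l) + H (k - ζ ^ 3 * l) +
        H (k - ζ ^ 4 * l)) - (H (k - ζ * l) + H (k - ζ ^ 4 * l)) -
      (H (k - l) + ω (H (k - l)) + ω (ω (H (k - l))) + ω (ω (ω (H (k - l)))) +
        ω (ω (ω (ω (H (k - l)))))) + (ω (ω (H (k - l))) + ω (ω (ω (H (k - l))))) := by abel
  rw [h2, h3, h1, sub_zero, zero_sub, neg_add_cancel] at h4
  exact sub_eq_zero.1 h4

/-- (3T) for two anti-fixed elements `l`, `m` with the same value of `H (a - l ^ 5)` -/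
theorem T3 (D : LDat t H ω ζ k a) {l m : E} (h : t l = -l) (h' : t m = -m)
    (hlm : H (a - l ^ 5) = H (a - m ^ 5))
    (hB : H ((k - ζ * l) * (k - ζ ^ 4 * l)) = H ((k - ζ * m) * (k - ζ ^ 4 * m))) :
    H (k - l) = H (k - m) := by
  have h1 := TenL1_P D (Or.inr h)
  have h2 := TenL1_P D (Or.inr h')
  have z4 : t (ζ ^ 4) = ζ ^ 4 := by rw [map_pow, D.tζ]
  rw [D.hmul _ _ (TenL1_ne D (Or.inr h) D.tζ) (TenL1_ne D (Or.inr h) z4),
    D.hmul _ _ (TenL1_ne D (Or.inr h') D.tζ) (TenL1_ne D (Or.inr h') z4)] at hB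
  rw [hB, hlm, h2] at h1
  have h3 := TenL1_five D (add_right_cancel h1)
  refine (sub_eq_zero.1 (D.inj23 ?_)).symm
  simp only [map_sub]
  rw [← sub_eq_zero] at h3
  rw [← h3]
  abel

end LDat

end Pool.Agent.MP_1b9aaa_al.Ten
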