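import Pool.Agent.Lib.MP_1b9aaa_al.TenB
import Pool.Agent.Lib.MP_1b9aaa_al.TenL1

/-!
# MP_1b9aaa_al, T_10: the relations A0, A1 for `H = c(s - k, *)` on `L = K^σ`
-/

set_option autoImplicit false

namespace Pool.Agent.MP_1b9aaa_al.Ten

open IsSteinberg

/-- `τ` restricted to `L = K^σ` -/
def tauL {K : Type*} [Field K] (σ τ : K ≃+* K) (tt : ∀ x, τ (τ x) = x)
    (comm : ∀ x, σ (τ x) = τ (σ x)) : fixS σ ≃+* fixS σ where
  toFun x := ⟨τ x, by
    show σ (τ x) = τ x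
    rw [comm, show σ (x : K) = x from x.2]⟩
  invFun x := ⟨τ x, by
    show σ (τ x) = τ x
    rw [comm, show σ (x : K) = x from x.2]⟩
  left_inv x := Subtype.ext (tt x)
  right_inv x := Subtype.ext (tt x)
  map_mul' x y := Subtype.ext (map_mul τ (x : K) (y : K))
  map_add' x y := Subtype.ext (map_add τ (x : K) (y : K))

variable {K T : Type*} [Field K] [AddCommGroup T] {σ τ : K ≃+* K} {ω : T →+ T} {c : K → K → T}

private theorem L0_z5 {ζ s : K} (G : Gen σ τ ζ s) : ζ ^ 5 = 1 := by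
  linear_combination (ζ - 1) * G.hζ

private theorem L0_z0 {ζ s : K} (G : Gen σ τ ζ s) : ζ ≠ 0 := by
  intro h
  have h1 := L0_z5 G
  rw [h, zero_pow (by norm_num)] at h1
  exact zero_ne_one h1

private theorem L0_sne (h5K : (5 : K) ≠ 0) {ζ s : K} (G : Gen σ τ ζ s) {p : K}
    (hp : σ p = p) : s - p ≠ 0 := by
  intro h
  have h1 : s = p := sub_eq_zero.1 h
  exact G.not_fixed h5K (by rw [h1]; exact hp)

private theorem L0_fac {ζ s : K} (G : Gen σ τ ζ s) (l : K) :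
    s ^ 5 - l ^ 5 = (s - l) * ((s - ζ * l) * ((s - ζ ^ 2 * l) * ((s - ζ ^ 3 * l) *
      (s - ζ ^ 4 * l)))) := by
  have h5 := L0_z5 G
  have h := G.hζ
  have e1 : (s - ζ * l) * (s - ζ ^ 4 * l) = s ^ 2 - (ζ + ζ ^ 4) * (s * l) + l ^ 2 := by
    linear_combination l ^ 2 * h5
  have e2 : (s - ζ ^ 2 * l) * (s - ζ ^ 3 * l) =
      s ^ 2 + (1 + ζ + ζ ^ 4) * (s * l) + l ^ 2 := by
    linear_combination l ^ 2 * h5 - s * l * h
  have e3 : (ζ + ζ ^ 4) * (1 + ζ + ζ ^ 4) = 1 := by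
    linear_combination (2 + ζ ^ 3) * h5 + h
  calc s ^ 5 - l ^ 5 = (s - l) * ((s ^ 2 - (ζ + ζ ^ 4) * (s * l) + l ^ 2) *
        (s ^ 2 + (1 + ζ + ζ ^ 4) * (s * l) + l ^ 2)) := by
        linear_combination (s - l) * (s * l) ^ 2 * e3
    _ = _ := by
        rw [← e1, ← e2]
        ring

/-- `c(s - p, s - q)` for `p`, `q` in `L` -/
private theorem L0_pair (D : Dat σ τ ω c) (h5K : (5 : K) ≠ 0) {ζ s : K} (G : Gen σ τ ζ s)
    {p q : K} (hp : σ p = p) (hq : σ q = q) (hpq : q - p ≠ 0) :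
    c (s - p) (s - q) = c (s - p) (q - p) - c (s - q) (q - p) := by
  have hS : VanOn c (fix2 σ τ) := fun x hx f hf hf0 => D.van x hx f hf.1 hf.2 hf0
  have h := D.st.three hS (u := s - p) (v := s - q) (w := q - p) (L0_sne h5K G hp)
    (L0_sne h5K G hq) hpq (by ring)
  rw [D.st.skew hpq (L0_sne h5K G hp)] at h
  rw [D.st.skew (L0_sne h5K G hp) (L0_sne h5K G hq), h]
  abel

/-- `L_{ζ⁴ p} = ω L_p` -/
private theorem L0_om (D : Dat σ τ ω c) (h5K : (5 : K) ≠ 0) {ζ s : K} (G : Gen σ τ ζ s)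
    {p y : K} (hp : σ p = p) (hy : σ y = y) (hy0 : y ≠ 0) :
    c (s - ζ ^ 4 * p) y = ω (c (s - p) y) := by
  have hS : VanOn c (fix2 σ τ) := fun x hx f hf hf0 => D.van x hx f hf.1 hf.2 hf0
  have hz : ζ ∈ fix2 σ τ := ⟨G.sζ, G.tζ⟩
  have h := D.cs (s - p) y (L0_sne h5K G hp) hy0
  have hp4 : σ (ζ ^ 4 * p) = ζ ^ 4 * p := by rw [map_mul, map_pow, G.sζ, hp]
  have e : σ (s - p) = ζ * (s - ζ ^ 4 * p) := by
    rw [map_sub, G.ss, hp]
    linear_combination p * L0_z5 G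
  rw [e, hy, D.st.mul_left _ _ _ (L0_z0 G) (L0_sne h5K G hp4) hy0,
    D.st.van_left hS hz (L0_z0 G) hy0, zero_add] at h
  exact h

/-- `c(s - k, L*) = 0` for `k ∈ F` and for `k ∈ F δ` -/
private theorem L0_easy (D : Dat σ τ ω c) (h2K : (2 : K) ≠ 0) (h5K : (5 : K) ≠ 0) {ζ s : K}
    (G : Gen σ τ ζ s) {k y : K} (hk : σ k = k) (hk1 : τ k = k ∨ τ k = -k) (hy : σ y = y)
    (hy0 : y ≠ 0) : c (s - k) y = 0 := by
  rcases hk1 with hk1 | hk1
  · exact D.lin h2K h5K G hk hk1 hy hy0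
  · have hnk : σ (-k) = -k := by rw [map_neg, hk]
    have h1 : s - k ≠ 0 := L0_sne h5K G hk
    have h2 : s - -k ≠ 0 := L0_sne h5K G hnk
    have hty : τ y ≠ 0 := (map_ne_zero τ).2 hy0
    have h3 := D.ct (s - k) y h1 hy0
    rw [map_sub, G.ts, hk1] at h3
    have h4 : c (s - -k) (y * τ y) = 0 := by
      refine D.van _ h2 _ ?_ ?_ (mul_ne_zero hy0 hty)
      · rw [map_mul, D.comm, hy]
      · rw [map_mul, D.tt, mul_comm]
    rw [D.st.mul_right _ _ _ h2 hy0 hty, h3] at h4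
    have h5 := D.lin_sq h2K h5K G (b := k ^ 2) (y := y) (by rw [map_pow, hk])
      (by rw [map_pow, hk1]; ring) hy hy0
    have e : s ^ 2 - k ^ 2 = (s - k) * (s - -k) := by ring
    rw [e, D.st.mul_left _ _ _ h1 h2 hy0] at h5
    apply D.h2T
    have h6 : c (s - k) y + c (s - k) y =
        (c (s - k) y + c (s - -k) y) - (c (s - -k) y + -c (s - k) y) := by abel
    rw [h6, h4, h5, sub_zero]

/-- the data of the L-block -/
theorem Dat.ldat (D : Dat σ τ ω c) (h2K : (2 : K) ≠ 0) (h5K : (5 : K) ≠ 0) {ζ s : K}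
    (G : Gen σ τ ζ s) {k : K} (hk : σ k = k) (hk1 : τ k ≠ k) (hk2 : τ k ≠ -k) :
    LDat (tauL σ τ D.tt D.comm) (fun y : fixS σ => c (s - k) y) ω
      (⟨ζ, G.sζ⟩ : fixS σ) ⟨k, hk⟩ ⟨s ^ 5, by
        show σ (s ^ 5) = s ^ 5
        have h := G.hζ
        rw [map_pow, G.ss]
        linear_combination (s ^ 5 * (ζ - 1)) * h⟩ := by
  have hS : VanOn c (fix2 σ τ) := fun x hx f hf hf0 => D.van x hx f hf.1 hf.2 hf0
  have hz5 := L0_z5 G
  have hz0 := L0_z0 G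
  have hsk : s - k ≠ 0 := L0_sne h5K G hk
  -- powers of `ζ`
  have zs : ∀ i : ℕ, σ (ζ ^ i) = ζ ^ i := fun i => by rw [map_pow, G.sζ]
  have zt : ∀ i : ℕ, τ (ζ ^ i) = ζ ^ i := fun i => by rw [map_pow, G.tζ]
  have zne : ∀ i : ℕ, ζ ^ i ≠ 0 := fun i => pow_ne_zero _ hz0
  -- `k - ζ ^ i l ≠ 0`
  have kne : ∀ (i : ℕ) (l : K), (τ l = l ∨ τ l = -l) → k - ζ ^ i * l ≠ 0 := by
    intro i l hl h0
    have h1 : k = ζ ^ i * l := sub_eq_zero.1 h0
    have h2 : τ k = ζ ^ i * τ l := by rw [h1, map_mul, zt]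
    rcases hl with hl | hl
    · exact hk1 (by rw [h2, hl, ← h1])
    · exact hk2 (by rw [h2, hl, h1]; ring)
  -- `c(s - k, s - ζ ^ i l) = H(k - ζ ^ i l)`
  have p1 : ∀ (i : ℕ) (l : K), σ l = l → (τ l = l ∨ τ l = -l) →
      c (s - k) (s - ζ ^ i * l) = c (s - k) (k - ζ ^ i * l) := by
    intro i l hl hl'
    have hm : σ (ζ ^ i * l) = ζ ^ i * l := by rw [map_mul, zs, hl]
    have hm' : τ (ζ ^ i * l) = ζ ^ i * l ∨ τ (ζ ^ i * l) = -(ζ ^ i * l) := by
      rw [map_mul, zt]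
      rcases hl' with h | h
      · left
        rw [h]
      · right
        rw [h]
        ring
    have h0 := kne i l hl'
    have h1 : ζ ^ i * l - k ≠ 0 := by
      rw [← neg_sub]
      exact neg_ne_zero.2 h0
    rw [L0_pair D h5K G hk hm h1, L0_easy D h2K h5K G hm hm' (by rw [map_sub, hm, hk]) h1,
      sub_zero]
    have e : ζ ^ i * l - k = (-1) * (k - ζ ^ i * l) := by ring
    rw [e, D.st.mul_right _ _ _ hsk (neg_ne_zero.2 one_ne_zero) h0,
      D.van _ hsk (-1) (by rw [map_neg, map_one]) (by rw [map_neg, map_one])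
        (neg_ne_zero.2 one_ne_zero), zero_add]
  -- `c(s - l, s - ζ ^ j k) = - L_{ζ ^ j k}(k - ζ ^ i l)` if `ζ ^ j ζ ^ i = 1`
  have p2 : ∀ (i j : ℕ) (l : K), ζ ^ j * ζ ^ i = 1 → σ l = l → (τ l = l ∨ τ l = -l) →
      c (s - l) (s - ζ ^ j * k) = - c (s - ζ ^ j * k) (k - ζ ^ i * l) := by
    intro i j l hij hl hl'
    have hm : σ (ζ ^ j * k) = ζ ^ j * k := by rw [map_mul, zs, hk]
    have h0 := kne i l hl'
    have e : ζ ^ j * k - l = ζ ^ j * (k - ζ ^ i * l) := by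
      linear_combination l * hij
    have h1 : ζ ^ j * k - l ≠ 0 := by
      rw [e]
      exact mul_ne_zero (zne j) h0
    have hsm : s - ζ ^ j * k ≠ 0 := L0_sne h5K G hm
    rw [L0_pair D h5K G hl hm h1, L0_easy D h2K h5K G hl hl' (by rw [map_sub, hm, hl]) h1,
      zero_sub, e, D.st.mul_right _ _ _ hsm (zne j) h0,
      D.van _ hsm (ζ ^ j) (zs j) (zt j) (zne j), zero_add]
  refine ⟨fun x => Subtype.ext (D.tt x), ?_, ?_, D.h2T, D.h5T, D.hω, ?_, ?_, ?_, ?_, ?_, ?_, ?_,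
    ?_, ?_, ?_⟩
  · intro x y hx hy
    exact D.st.mul_right _ _ _ hsk (fun h => hx (Subtype.ext h)) (fun h => hy (Subtype.ext h))
  · intro x hx hfx
    exact D.van _ hsk _ x.2 (congrArg Subtype.val hfx) (fun h => hx (Subtype.ext h))
  · intro h
    exact h2K (congrArg Subtype.val h)
  · intro h
    exact h5K (congrArg Subtype.val h)
  · exact Subtype.ext G.hζ
  · exact Subtype.ext G.tζ
  · intro h
    exact hk1 (congrArg Subtype.val h)
  · intro h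
    exact hk2 (congrArg Subtype.val h)
  · refine Subtype.ext ?_
    show τ (s ^ 5) = s ^ 5
    rw [map_pow, G.ts]
  · intro l hl h
    have h1 : s ^ 5 - (l : K) ^ 5 = 0 := congrArg Subtype.val h
    have hm : ∀ i : ℕ, s - ζ ^ i * (l : K) ≠ 0 := fun i =>
      L0_sne h5K G (by rw [map_mul, zs, show σ (l : K) = l from l.2])
    have hm0 := hm 0
    have hm1 := hm 1
    rw [pow_zero, one_mul] at hm0
    rw [pow_one] at hm1
    rw [L0_fac G] at h1
    exact mul_ne_zero hm0 (mul_ne_zero hm1 (mul_ne_zero (hm 2) (mul_ne_zero (hm 3) (hm 4)))) h1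
  · intro l hl
    have hl1 : σ (l : K) = l := l.2
    have hl2 : τ (l : K) = l ∨ τ (l : K) = -l := by
      rcases hl with h | h
      · exact Or.inl (congrArg Subtype.val h)
      · exact Or.inr (congrArg Subtype.val h)
    have hm : ∀ i : ℕ, s - ζ ^ i * (l : K) ≠ 0 := fun i =>
      L0_sne h5K G (by rw [map_mul, zs, hl1])
    have hm0 := hm 0
    have hm1 := hm 1
    have q0 := p1 0 l hl1 hl2
    have q1 := p1 1 l hl1 hl2
    rw [pow_zero, one_mul] at hm0 q0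
    rw [pow_one] at hm1 q1
    show c (s - k) (k - l) + c (s - k) (k - ζ * l) + c (s - k) (k - ζ ^ 2 * l) +
      c (s - k) (k - ζ ^ 3 * l) + c (s - k) (k - ζ ^ 4 * l) = c (s - k) (s ^ 5 - (l : K) ^ 5)
    rw [L0_fac G, D.st.mul_right _ _ _ hsk hm0 (mul_ne_zero hm1 (mul_ne_zero (hm 2)
      (mul_ne_zero (hm 3) (hm 4)))), D.st.mul_right _ _ _ hsk hm1 (mul_ne_zero (hm 2)
      (mul_ne_zero (hm 3) (hm 4))), D.st.mul_right _ _ _ hsk (hm 2)
      (mul_ne_zero (hm 3) (hm 4)), D.st.mul_right _ _ _ hsk (hm 3) (hm 4), q0, q1,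
      p1 2 l hl1 hl2, p1 3 l hl1 hl2, p1 4 l hl1 hl2]
    abel
  · intro l hl
    have hl1 : σ (l : K) = l := l.2
    have hl2 : τ (l : K) = l ∨ τ (l : K) = -l := by
      rcases hl with h | h
      · exact Or.inl (congrArg Subtype.val h)
      · exact Or.inr (congrArg Subtype.val h)
    have hsl : s - (l : K) ≠ 0 := L0_sne h5K G hl1
    have hmk : ∀ i : ℕ, s - ζ ^ i * k ≠ 0 := fun i =>
      L0_sne h5K G (by rw [map_mul, zs, hk])
    have hm0 := hmk 0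
    have hm1 := hmk 1
    have kl : ∀ i : ℕ, σ (k - ζ ^ i * (l : K)) = k - ζ ^ i * (l : K) := fun i => by
      rw [map_sub, map_mul, zs, hk, hl1]
    -- the product
    have hprod : c (s - (l : K)) (s ^ 5 - k ^ 5) = 0 := by
      refine L0_easy D h2K h5K G hl1 hl2 ?_ ?_
      · rw [map_sub, map_pow, map_pow, G.ss, hk]
        linear_combination (s ^ 5) * hz5
      · rw [L0_fac G]
        rw [pow_zero, one_mul] at hm0
        rw [pow_one] at hm1
        exact mul_ne_zero hm0 (mul_ne_zero hm1 (mul_ne_zero (hmk 2)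
          (mul_ne_zero (hmk 3) (hmk 4))))
    have q0 := p2 0 0 l (by rw [pow_zero, one_mul]) hl1 hl2
    have q1 := p2 4 1 l (by rw [← pow_add, hz5]) hl1 hl2
    have q2 := p2 3 2 l (by rw [← pow_add, hz5]) hl1 hl2
    have q3 := p2 2 3 l (by rw [← pow_add, hz5]) hl1 hl2
    have q4 := p2 1 4 l (by rw [← pow_add, hz5]) hl1 hl2
    rw [pow_zero, one_mul] at hm0
    rw [pow_zero, one_mul, one_mul] at q0
    rw [pow_one] at hm1 q1 q4
    rw [L0_fac G, D.st.mul_right _ _ _ hsl hm0 (mul_ne_zero hm1 (mul_ne_zero (hmk 2)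
      (mul_ne_zero (hmk 3) (hmk 4)))), D.st.mul_right _ _ _ hsl hm1 (mul_ne_zero (hmk 2)
      (mul_ne_zero (hmk 3) (hmk 4))), D.st.mul_right _ _ _ hsl (hmk 2)
      (mul_ne_zero (hmk 3) (hmk 4)), D.st.mul_right _ _ _ hsl (hmk 3) (hmk 4), q0, q1, q2, q3,
      q4] at hprod
    -- the powers of `ω`
    have w1 : ∀ y : K, σ y = y → y ≠ 0 → c (s - ζ ^ 4 * k) y = ω (c (s - k) y) :=
      fun y hy hy0 => L0_om D h5K G hk hy hy0
    have w2 : ∀ y : K, σ y = y → y ≠ 0 → c (s - ζ ^ 3 * k) y = ω (ω (c (s - k) y)) := by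
      intro y hy hy0
      have e : ζ ^ 3 * k = ζ ^ 4 * (ζ ^ 4 * k) := by
        linear_combination (-(ζ ^ 3 * k)) * hz5
      rw [e, L0_om D h5K G (by rw [map_mul, zs, hk]) hy hy0, w1 y hy hy0]
    have w3 : ∀ y : K, σ y = y → y ≠ 0 → c (s - ζ ^ 2 * k) y = ω (ω (ω (c (s - k) y))) := by
      intro y hy hy0
      have e : ζ ^ 2 * k = ζ ^ 4 * (ζ ^ 3 * k) := by
        linear_combination (-(ζ ^ 2 * k)) * hz5
      rw [e, L0_om D h5K G (by rw [map_mul, zs, hk]) hy hy0, w2 y hy hy0]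
    have w4 : ∀ y : K, σ y = y → y ≠ 0 →
        c (s - ζ * k) y = ω (ω (ω (ω (c (s - k) y)))) := by
      intro y hy hy0
      have e : ζ * k = ζ ^ 4 * (ζ ^ 2 * k) := by
        linear_combination (-(ζ * k)) * hz5
      rw [e, L0_om D h5K G (by rw [map_mul, zs, hk]) hy hy0, w3 y hy hy0]
    have k1 := kne 1 l hl2
    have s1 := kl 1
    rw [pow_one] at k1 s1
    rw [w1 _ s1 k1, w2 _ (kl 2) (kne 2 l hl2), w3 _ (kl 3) (kne 3 l hl2),
      w4 _ (kl 4) (kne 4 l hl2)] at hprod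
    show c (s - k) (k - l) + ω (c (s - k) (k - ζ * l)) + ω (ω (c (s - k) (k - ζ ^ 2 * l))) +
      ω (ω (ω (c (s - k) (k - ζ ^ 3 * l)))) +
      ω (ω (ω (ω (c (s - k) (k - ζ ^ 4 * l))))) = 0
    rw [← neg_eq_zero, ← hprod]
    abel

/-- `c(s - k, L*) = 0` for `k ∈ F` and for `k ∈ F δ` -/
theorem Dat.easy (D : Dat σ τ ω c) (h2K : (2 : K) ≠ 0) (h5K : (5 : K) ≠ 0) {ζ s : K}
    (G : Gen σ τ ζ s) {k y : K} (hk : σ k = k) (hk1 : τ k = k ∨ τ k = -k) (hy : σ y = y)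
    (hy0 : y ≠ 0) : c (s - k) y = 0 :=
  L0_easy D h2K h5K G hk hk1 hy hy0

end Pool.Agent.MP_1b9aaa_al.Ten
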