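import Pool.Agent.Lib.MP_1b9aaa_al.TenI

/-!
# MP_1b9aaa_al, T_10: the L-block, the start of the descent

`κ = k / t k`.  `(1 + κ) ^ 5 NP ⊆ PT`.
-/

set_option autoImplicit false

namespace Pool.Agent.MP_1b9aaa_al.Ten

namespace LDat

variable {E T : Type*} [Field E] [AddCommGroup T] {t : E ≃+* E} {H : E → T} {ω : T →+ T}
  {ζ k a : E}

theorem inv (D : LDat t H ω ζ k a) : Inv t H := ⟨D.tt, ⟨k, D.hk⟩, D.hmul, D.h2T⟩

private theorem TenL2_z5 (D : LDat t H ω ζ k a) : ζ ^ 5 = 1 := by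
  have h := D.hζ
  linear_combination (ζ - 1) * h

private theorem TenL2_phi (D : LDat t H ω ζ k a) {φ : E}
    (hφ : φ = ζ + ζ ^ 4 ∨ φ = ζ ^ 2 + ζ ^ 3) : φ ^ 2 = 1 - φ ∧ t φ = φ ∧ 2 - φ ≠ 0 := by
  have h := D.hζ
  have h5 := TenL2_z5 D
  have h1 : φ ^ 2 = 1 - φ := by
    rcases hφ with hφ | hφ
    · rw [hφ]
      linear_combination (2 + ζ ^ 3) * h5 + h
    · rw [hφ]
      linear_combination (2 + ζ) * h5 + h
  have h2 : t φ = φ := by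
    rcases hφ with hφ | hφ
    · rw [hφ, map_add, map_pow, D.tζ]
    · rw [hφ, map_add, map_pow, map_pow, D.tζ]
  refine ⟨h1, h2, fun h0 => D.h5 ?_⟩
  linear_combination (3 + φ) * h0 + h1

private theorem TenL2_k0 (D : LDat t H ω ζ k a) : k ≠ 0 := by
  intro h
  exact D.hk (by rw [h, map_zero])

private theorem TenL2_S0 (D : LDat t H ω ζ k a) : k + t k ≠ 0 := by
  intro h
  exact D.hk' (eq_neg_of_add_eq_zero_right h)

/-- Hilbert 90 -/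
private theorem TenL2_hilbert (D : LDat t H ω ζ k a) {ρ : E} (hρ : T5.U1 t ρ) :
    ∃ u, u ≠ 0 ∧ t u = ρ * u := by
  by_cases h : ρ = -1
  · refine ⟨k - t k, sub_ne_zero.mpr (Ne.symm D.hk), ?_⟩
    rw [h, map_sub, D.tt]
    ring
  · refine ⟨1 + t ρ, ?_, ?_⟩
    · intro h1
      have h2 : t (1 + t ρ) = 0 := by rw [h1, map_zero]
      rw [map_add, map_one, D.tt] at h2
      exact h (by linear_combination h2)
    · rw [map_add, map_one, D.tt]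
      unfold T5.U1 at hρ
      linear_combination -hρ

/-- the family -/
private theorem TenL2_fam (D : LDat t H ω ζ k a) {φ : E}
    (hφ : φ = ζ + ζ ^ 4 ∨ φ = ζ ^ 2 + ζ ^ 3) {G A : E}
    (hG : G = 2 * φ * (k * t k) - (k + t k) ^ 2) (hA : A = -((2 - φ) * k * (k + t k))) :
    ∀ z, T5.U1 t z → G - z * A ≠ 0 → H (G - z * A) = 0 := by
  intro z hz h0
  obtain ⟨u, hu, hu'⟩ := TenL2_hilbert D hz
  have h1 := D.involution hφ hu
  have e1 : (2 * φ * (k * t k) - (k + t k) ^ 2) * u + (2 - φ) * k * (k + t k) * t u =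
      u * (G - z * A) := by
    rw [hu', hG, hA]
    ring
  rw [e1, D.hmul _ _ hu h0] at h1
  exact add_eq_left.mp h1

/-- the two memberships for one `φ`; `s0 = (1 + κ)² / κ` -/
theorem start_one (D : LDat t H ω ζ k a) {φ κ s0 : E}
    (hφ : φ = ζ + ζ ^ 4 ∨ φ = ζ ^ 2 + ζ ^ 3) (hκ : κ = k / t k) (hs : s0 = (1 + κ) ^ 2 / κ) :
    (s0 - 4) * (s0 - φ ^ 2) ≠ 0 ∧
      (2 - φ) * (s0 - 2 * φ) * (1 + κ) / ((s0 - 4) * (s0 - φ ^ 2)) ∈ D.inv.PT ∧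
      4 * (s0 - 2 * φ) ^ 2 / ((s0 - 4) * (s0 - φ ^ 2)) ∈ D.inv.BR := by
  have hk0 := TenL2_k0 D
  have hS0 := TenL2_S0 D
  have htk : t k ≠ 0 := (map_ne_zero t).2 hk0
  obtain ⟨h1, h2, h3⟩ := TenL2_phi D hφ
  have hd := D.disc hφ
  obtain ⟨G, hG⟩ : ∃ G, G = 2 * φ * (k * t k) - (k + t k) ^ 2 := ⟨_, rfl⟩
  obtain ⟨A, hA⟩ : ∃ A, A = -((2 - φ) * k * (k + t k)) := ⟨_, rfl⟩
  have hfam := TenL2_fam D hφ hG hA
  have hA0 : A ≠ 0 := by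
    rw [hA]
    exact neg_ne_zero.2 (mul_ne_zero (mul_ne_zero h3 hk0) hS0)
  have hs' : s0 = (k + t k) ^ 2 / (k * t k) := by
    rw [hs, hκ]
    field_simp
    ring
  have htG : t G = G := by
    rw [hG]
    simp only [map_sub, map_mul, map_pow, map_add, D.tt, h2, map_ofNat]
    ring
  have htA : t A = -((2 - φ) * t k * (k + t k)) := by
    rw [hA]
    simp only [map_neg, map_sub, map_mul, map_add, D.tt, h2, map_ofNat]
    ring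
  have hdd : G * t G - A * t A =
      ((k + t k) ^ 2 - 4 * (k * t k)) * ((k + t k) ^ 2 - φ ^ 2 * (k * t k)) := by
    rw [htG, htA, hG, hA]
    ring
  have hk4 : (k + t k) ^ 2 - 4 * (k * t k) ≠ 0 := by
    have h4 : (k + t k) ^ 2 - 4 * (k * t k) = (k - t k) ^ 2 := by ring
    rw [h4]
    exact pow_ne_zero 2 (sub_ne_zero.2 (Ne.symm D.hk))
  have hd0 : G * t G - A * t A ≠ 0 := by
    rw [hdd]
    exact mul_ne_zero hk4 hd
  have hden : (s0 - 4) * (s0 - φ ^ 2) =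
      ((k + t k) ^ 2 - 4 * (k * t k)) * ((k + t k) ^ 2 - φ ^ 2 * (k * t k)) /
        (k * t k) ^ 2 := by
    rw [hs']
    field_simp
  have hden0 : (s0 - 4) * (s0 - φ ^ 2) ≠ 0 := by
    rw [hden]
    exact div_ne_zero (mul_ne_zero hk4 hd) (pow_ne_zero 2 (mul_ne_zero hk0 htk))
  refine ⟨hden0, ?_, ?_⟩
  · have h4 := D.inv.AG_mem hA0 hfam hd0
    have e1 : A * G / (G * t G - A * t A) =
        (2 - φ) * (s0 - 2 * φ) * (1 + κ) / ((s0 - 4) * (s0 - φ ^ 2)) := by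
      rw [div_eq_div_iff hd0 hden0, hden, hdd, hs', hκ, hG, hA]
      field_simp
      ring
    rw [e1] at h4
    exact h4
  · have z1 : T5.U1 t (1 : E) := T5.U1.one
    have h4 := D.inv.norm_div_mem hA0 hfam hd0 z1
    have h5 := D.inv.norm_div_mem hA0 hfam hd0 z1.neg
    have h6 := D.inv.BR.add_mem (D.inv.BR.add_mem h4 h5)
      (D.inv.BR.add_mem D.inv.BR.one_mem D.inv.BR.one_mem)
    have e1 : (G - 1 * A) * t (G - 1 * A) / (G * t G - A * t A) +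
        (G - -1 * A) * t (G - -1 * A) / (G * t G - A * t A) + (1 + 1) =
        4 * (s0 - 2 * φ) ^ 2 / ((s0 - 4) * (s0 - φ ^ 2)) := by
      have e2 : (G - 1 * A) * t (G - 1 * A) / (G * t G - A * t A) +
          (G - -1 * A) * t (G - -1 * A) / (G * t G - A * t A) + (1 + 1) =
          4 * (G * t G) / (G * t G - A * t A) := by
        rw [eq_div_iff hd0]
        field_simp
        simp only [map_sub, map_neg]
        ring
      rw [e2, div_eq_div_iff hd0 hden0, hden, hdd, htG, hs', hG]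
      field_simp
      ring
    rw [e1] at h6
    exact h6

private theorem TenL2_NR_BR (D : LDat t H ω ζ k a) : NR t ≤ D.inv.BR :=
  Subring.closure_le.2 fun _ hθ => D.inv.U1_mem_BR hθ

private theorem TenL2_NP {E : Type*} [Field E] {t : E ≃+* E} {φ : E} (h1 : φ ^ 2 = 1 - φ) :
    ∀ b ∈ NP t φ, ∃ x ∈ NR t, ∃ y ∈ NR t, b = x + y * φ := by
  intro b hb
  unfold NP at hb
  induction hb using Subring.closure_induction with
  | mem x hx =>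
    rcases hx with hx | hx
    · exact ⟨x, Subring.subset_closure hx, 0, (NR t).zero_mem, by ring⟩
    · rw [Set.mem_singleton_iff] at hx
      exact ⟨0, (NR t).zero_mem, 1, (NR t).one_mem, by rw [hx]; ring⟩
  | zero => exact ⟨0, (NR t).zero_mem, 0, (NR t).zero_mem, by ring⟩
  | one => exact ⟨1, (NR t).one_mem, 0, (NR t).zero_mem, by ring⟩
  | add x y _ _ hx hy =>
    obtain ⟨x1, hx1, x2, hx2, rfl⟩ := hx
    obtain ⟨y1, hy1, y2, hy2, rfl⟩ := hy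
    exact ⟨x1 + y1, (NR t).add_mem hx1 hy1, x2 + y2, (NR t).add_mem hx2 hy2, by ring⟩
  | neg x _ hx =>
    obtain ⟨x1, hx1, x2, hx2, rfl⟩ := hx
    exact ⟨-x1, (NR t).neg_mem hx1, -x2, (NR t).neg_mem hx2, by ring⟩
  | mul x y _ _ hx hy =>
    obtain ⟨x1, hx1, x2, hx2, rfl⟩ := hx
    obtain ⟨y1, hy1, y2, hy2, rfl⟩ := hy
    refine ⟨x1 * y1 + x2 * y2, (NR t).add_mem ((NR t).mul_mem hx1 hy1) ((NR t).mul_mem hx2 hy2),
      x1 * y2 + x2 * y1 - x2 * y2, (NR t).sub_mem ((NR t).add_mem ((NR t).mul_mem hx1 hy2)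
        ((NR t).mul_mem hx2 hy1)) ((NR t).mul_mem hx2 hy2), ?_⟩
    linear_combination x2 * y2 * h1

/-- the start of the descent -/
theorem start (D : LDat t H ω ζ k a) (hi2 : (2 : E)⁻¹ ∈ NR t) (hi5 : (5 : E)⁻¹ ∈ NR t)
    {κ : E} (hκ : κ = k / t k) :
    ∀ b ∈ NP t (ζ + ζ ^ 4), (1 + κ) ^ 5 * b ∈ D.inv.PT := by
  have hk0 := TenL2_k0 D
  have htk : t k ≠ 0 := (map_ne_zero t).2 hk0
  have hκ0 : κ ≠ 0 := by rw [hκ]; exact div_ne_zero hk0 htk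
  have hκ1 : κ * t κ = 1 := by
    rw [hκ, map_div₀, D.tt]
    field_simp
  have hκR : κ ∈ NR t := Subring.subset_closure hκ1
  have htκ : t κ = κ⁻¹ := eq_inv_of_mul_eq_one_right hκ1
  have hκR' : κ⁻¹ ∈ NR t := by
    apply Subring.subset_closure
    show κ⁻¹ * t κ⁻¹ = 1
    rw [map_inv₀, ← mul_inv, hκ1, inv_one]
  obtain ⟨φ, hφ⟩ : ∃ φ, φ = ζ + ζ ^ 4 := ⟨_, rfl⟩
  obtain ⟨ψ, hψ⟩ : ∃ ψ, ψ = ζ ^ 2 + ζ ^ 3 := ⟨_, rfl⟩
  obtain ⟨s0, hs⟩ : ∃ s0, s0 = (1 + κ) ^ 2 / κ := ⟨_, rfl⟩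
  obtain ⟨hφ2, _, hφ3⟩ := TenL2_phi D (Or.inl hφ)
  obtain ⟨hψ2, _, hψ3⟩ := TenL2_phi D (Or.inr hψ)
  have hψφ : ψ = -1 - φ := by
    rw [hψ, hφ]
    linear_combination D.hζ
  obtain ⟨a0, a1, a2⟩ := D.start_one (Or.inl hφ) hκ hs
  obtain ⟨b0, b1, _⟩ := D.start_one (Or.inr hψ) hκ hs
  have hBR := TenL2_NR_BR D
  have n2 : (2 : E) ≠ 0 := D.h2
  have n5 : (5 : E) ≠ 0 := D.h5
  have m2 : (2 : E) ∈ NR t := by
    have := (NR t).add_mem (NR t).one_mem (NR t).one_mem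
    rwa [one_add_one_eq_two] at this
  have m4 : (4 : E) ∈ NR t := by
    have := (NR t).add_mem m2 m2
    have e : (2 : E) + 2 = 4 := by norm_num
    rwa [e] at this
  have m3 : (3 : E) ∈ NR t := by
    have := (NR t).add_mem m2 (NR t).one_mem
    have e : (2 : E) + 1 = 3 := by norm_num
    rwa [e] at this
  have hs0R : s0 ∈ NR t := by
    have e : s0 = κ + 2 + κ⁻¹ := by
      rw [hs]
      field_simp
      ring
    rw [e]
    exact (NR t).add_mem ((NR t).add_mem hκR m2) hκR'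
  -- the factor `(s0 - 4) (s0² - 3 s0 + 1)`
  have hfR : (s0 - 4) * (s0 ^ 2 - 3 * s0 + 1) ∈ NR t :=
    (NR t).mul_mem ((NR t).sub_mem hs0R m4) ((NR t).add_mem ((NR t).sub_mem
      ((NR t).pow_mem hs0R 2) ((NR t).mul_mem m3 hs0R)) (NR t).one_mem)
  have hf1 : (s0 - 4) * (s0 ^ 2 - 3 * s0 + 1) =
      ((s0 - 4) * (s0 - φ ^ 2)) * (s0 - 2 - φ) := by
    linear_combination (s0 - 4) * (s0 - φ - 1) * hφ2
  have hf2 : (s0 - 4) * (s0 ^ 2 - 3 * s0 + 1) =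
      ((s0 - 4) * (s0 - ψ ^ 2)) * (s0 - 2 - ψ) := by
    linear_combination (s0 - 4) * (s0 - ψ - 1) * hψ2
  have pg : (2 - φ) * (s0 - 2 * φ) * (s0 - 2 - φ) * (1 + κ) ∈ D.inv.PT := by
    have h := (D.inv.mem_BR.1 (hBR hfR)) _ a1
    have e : (s0 - 4) * (s0 ^ 2 - 3 * s0 + 1) *
        ((2 - φ) * (s0 - 2 * φ) * (1 + κ) / ((s0 - 4) * (s0 - φ ^ 2))) =
        (2 - φ) * (s0 - 2 * φ) * (s0 - 2 - φ) * (1 + κ) := by
      rw [hf1, mul_div_assoc', div_eq_iff a0]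
      ring
    rw [e] at h
    exact h
  have pg' : (2 - ψ) * (s0 - 2 * ψ) * (s0 - 2 - ψ) * (1 + κ) ∈ D.inv.PT := by
    have h := (D.inv.mem_BR.1 (hBR hfR)) _ b1
    have e : (s0 - 4) * (s0 ^ 2 - 3 * s0 + 1) *
        ((2 - ψ) * (s0 - 2 * ψ) * (1 + κ) / ((s0 - 4) * (s0 - ψ ^ 2))) =
        (2 - ψ) * (s0 - 2 * ψ) * (s0 - 2 - ψ) * (1 + κ) := by
      rw [hf2, mul_div_assoc', div_eq_iff b0]
      ring
    rw [e] at h
    exact h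
  have qg : 4 * (s0 - 2 * φ) ^ 2 * (s0 - 2 - φ) ∈ D.inv.BR := by
    have h := D.inv.BR.mul_mem (hBR hfR) a2
    have e : (s0 - 4) * (s0 ^ 2 - 3 * s0 + 1) *
        (4 * (s0 - 2 * φ) ^ 2 / ((s0 - 4) * (s0 - φ ^ 2))) =
        4 * (s0 - 2 * φ) ^ 2 * (s0 - 2 - φ) := by
      rw [hf1, mul_div_assoc', div_eq_iff a0]
      ring
    rw [e] at h
    exact h
  -- `φ s0² ∈ BR`
  have rg : φ * s0 ^ 2 ∈ D.inv.BR := by
    have h4 : (5 : E)⁻¹ * ((2 : E)⁻¹ * (2 : E)⁻¹) ∈ NR t :=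
      (NR t).mul_mem hi5 ((NR t).mul_mem hi2 hi2)
    have h5 : 4 * (s0 ^ 3 - 2 * s0 ^ 2 + (4 + 4) * s0 - 4) ∈ NR t :=
      (NR t).mul_mem m4 ((NR t).sub_mem ((NR t).add_mem ((NR t).sub_mem
        ((NR t).pow_mem hs0R 3) ((NR t).mul_mem m2 ((NR t).pow_mem hs0R 2)))
        ((NR t).mul_mem ((NR t).add_mem m4 m4) hs0R)) m4)
    have h6 := D.inv.BR.mul_mem (hBR h4) (D.inv.BR.sub_mem (hBR h5) qg)
    have e : (5 : E)⁻¹ * ((2 : E)⁻¹ * (2 : E)⁻¹) *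
        (4 * (s0 ^ 3 - 2 * s0 ^ 2 + (4 + 4) * s0 - 4) -
          4 * (s0 - 2 * φ) ^ 2 * (s0 - 2 - φ)) = φ * s0 ^ 2 := by
      have e1 : 4 * (s0 ^ 3 - 2 * s0 ^ 2 + (4 + 4) * s0 - 4) -
          4 * (s0 - 2 * φ) ^ 2 * (s0 - 2 - φ) = 5 * (2 * 2) * (φ * s0 ^ 2) := by
        linear_combination (-(32 * s0) + 16 * (φ + 1)) * hφ2
      rw [e1]
      field_simp
    rw [e] at h6
    exact h6
  -- `(1 + κ) ^ 4 NP ⊆ BR`
  have hs4 : (1 + κ) ^ 4 = s0 ^ 2 * κ ^ 2 := by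
    rw [hs]
    field_simp
  have hNP : ∀ b ∈ NP t φ, (1 + κ) ^ 4 * b ∈ D.inv.BR := by
    intro b hb
    obtain ⟨x, hx, y, hy, rfl⟩ := TenL2_NP hφ2 b hb
    have e : (1 + κ) ^ 4 * (x + y * φ) = (1 + κ) ^ 4 * x + y * κ ^ 2 * (φ * s0 ^ 2) := by
      rw [mul_add]
      congr 1
      rw [hs4]
      ring
    rw [e]
    exact D.inv.BR.add_mem (hBR ((NR t).mul_mem ((NR t).pow_mem
      ((NR t).add_mem (NR t).one_mem hκR) 4) hx))
      (D.inv.BR.mul_mem (hBR ((NR t).mul_mem hy ((NR t).pow_mem hκR 2))) rg)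
  have hle : NR t ≤ NP t φ := Subring.closure_mono Set.subset_union_left
  have hφN : φ ∈ NP t φ := Subring.subset_closure (Set.mem_union_right _ (Set.mem_singleton φ))
  have m9 : (9 : E) ∈ NR t := by
    have := (NR t).mul_mem m3 m3
    have e : (3 : E) * 3 = 9 := by norm_num
    rwa [e] at this
  have hc : 3 * s0 - 4 - 9 * φ ∈ NP t φ :=
    (NP t φ).sub_mem ((NP t φ).sub_mem (hle ((NR t).mul_mem m3 hs0R)) (hle m4))
      ((NP t φ).mul_mem (hle m9) hφN)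
  have h12 : 1 + 2 * φ ∈ NP t φ :=
    (NP t φ).add_mem (NP t φ).one_mem ((NP t φ).mul_mem (hle m2) hφN)
  have h3p : 3 + φ ∈ NP t φ := (NP t φ).add_mem (hle m3) hφN
  have h2m : 2 - φ ∈ NP t φ := (NP t φ).sub_mem (hle m2) hφN
  have hα : 9 * (3 + φ) * (5 : E)⁻¹ +
      (3 * s0 - 4 - 9 * φ) * (1 + 2 * φ) * (3 + φ) * ((5 : E)⁻¹ * (5 : E)⁻¹) ∈ NP t φ :=
    (NP t φ).add_mem ((NP t φ).mul_mem ((NP t φ).mul_mem (hle m9) h3p) (hle hi5))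
      ((NP t φ).mul_mem ((NP t φ).mul_mem ((NP t φ).mul_mem hc h12) h3p)
        (hle ((NR t).mul_mem hi5 hi5)))
  have hβ : -((3 * s0 - 4 - 9 * φ) * (1 + 2 * φ) * (2 - φ) * ((5 : E)⁻¹ * (5 : E)⁻¹)) ∈
      NP t φ :=
    (NP t φ).neg_mem ((NP t φ).mul_mem ((NP t φ).mul_mem ((NP t φ).mul_mem hc h12) h2m)
        (hle ((NR t).mul_mem hi5 hi5)))
  intro b hb
  rw [← hφ] at hb
  have x1 := (D.inv.mem_BR.1 (hNP _ ((NP t φ).mul_mem hα hb))) _ pg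
  have x2 := (D.inv.mem_BR.1 (hNP _ ((NP t φ).mul_mem hβ hb))) _ pg'
  have x3 := D.inv.PT.add_mem x1 x2
  have x4 := (D.inv.mem_BR.1 (hBR ((NR t).mul_mem hi5 hi2))) _ x3
  have e : (5 : E)⁻¹ * (2 : E)⁻¹ * ((1 + κ) ^ 4 * ((9 * (3 + φ) * (5 : E)⁻¹ +
      (3 * s0 - 4 - 9 * φ) * (1 + 2 * φ) * (3 + φ) * ((5 : E)⁻¹ * (5 : E)⁻¹)) * b) *
      ((2 - φ) * (s0 - 2 * φ) * (s0 - 2 - φ) * (1 + κ)) +
      (1 + κ) ^ 4 * (-((3 * s0 - 4 - 9 * φ) * (1 + 2 * φ) * (2 - φ) *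
      ((5 : E)⁻¹ * (5 : E)⁻¹)) * b) *
      ((2 - ψ) * (s0 - 2 * ψ) * (s0 - 2 - ψ) * (1 + κ))) = (1 + κ) ^ 5 * b := by
    have e1 : (9 * (3 + φ) * (5 : E)⁻¹ +
        (3 * s0 - 4 - 9 * φ) * (1 + 2 * φ) * (3 + φ) * ((5 : E)⁻¹ * (5 : E)⁻¹)) *
        ((2 - φ) * (s0 - 2 * φ) * (s0 - 2 - φ)) +
        (-((3 * s0 - 4 - 9 * φ) * (1 + 2 * φ) * (2 - φ) * ((5 : E)⁻¹ * (5 : E)⁻¹))) *
        ((2 - ψ) * (s0 - 2 * ψ) * (s0 - 2 - ψ)) = 5 * 2 := by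
      obtain ⟨v, hv⟩ : ∃ v, v = (5 : E)⁻¹ := ⟨_, rfl⟩
      have k0 : 5 * v = 1 := by rw [hv]; exact mul_inv_cancel₀ n5
      have k1 : (2 - φ) * (3 + φ) = 5 := by linear_combination -hφ2
      have k2 : (1 + 2 * φ) * (1 + 2 * φ) = 5 := by linear_combination 4 * hφ2
      have k3 : (s0 - 2 * φ) * (s0 - 2 - φ) - (s0 - 2 * ψ) * (s0 - 2 - ψ) =
          (1 + 2 * φ) * (2 - 3 * s0) := by
        rw [hψφ]
        ring
      have k4 : 9 * ((s0 - 2 * φ) * (s0 - 2 - φ)) + (3 * s0 - 4 - 9 * φ) * (2 - 3 * s0) =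
          10 := by
        linear_combination 18 * hφ2
      have k5 : (2 : E) - ψ = 3 + φ := by
        rw [hψφ]
        ring
      rw [k5, ← hv]
      linear_combination (9 * v * ((s0 - 2 * φ) * (s0 - 2 - φ)) +
        (3 * s0 - 4 - 9 * φ) * (1 + 2 * φ) * v ^ 2 * ((s0 - 2 * φ) * (s0 - 2 - φ) -
        (s0 - 2 * ψ) * (s0 - 2 - ψ))) * k1 +
        5 * (3 * s0 - 4 - 9 * φ) * (1 + 2 * φ) * v ^ 2 * k3 +
        5 * (3 * s0 - 4 - 9 * φ) * v ^ 2 * (2 - 3 * s0) * k2 +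
        (9 * ((s0 - 2 * φ) * (s0 - 2 - φ)) +
          (3 * s0 - 4 - 9 * φ) * (2 - 3 * s0) * (5 * v + 1)) * k0 + k4
    calc _ = (5 : E)⁻¹ * (2 : E)⁻¹ * ((9 * (3 + φ) * (5 : E)⁻¹ +
        (3 * s0 - 4 - 9 * φ) * (1 + 2 * φ) * (3 + φ) * ((5 : E)⁻¹ * (5 : E)⁻¹)) *
        ((2 - φ) * (s0 - 2 * φ) * (s0 - 2 - φ)) +
        (-((3 * s0 - 4 - 9 * φ) * (1 + 2 * φ) * (2 - φ) * ((5 : E)⁻¹ * (5 : E)⁻¹))) *
        ((2 - ψ) * (s0 - 2 * ψ) * (s0 - 2 - ψ))) * ((1 + κ) ^ 5 * b) := by ring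
      _ = (1 + κ) ^ 5 * b := by
        rw [e1]
        field_simp
  rw [e] at x4
  exact x4

end LDat

end Pool.Agent.MP_1b9aaa_al.Ten
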