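import Pool.Agent.Lib.MP_1b9aaa_al.TenL1
import Pool.Agent.Lib.MP_1b9aaa_al.T5Q

/-!
# MP_1b9aaa_al, T_10: the L-block, one step of the descent

`κ = k / t k`, `R = NP t φ`, `φ = ζ + ζ⁴`, `2⁻¹, 5⁻¹ ∈ R`, `i ∈ F`.
If `(1 + κ) ^ (N+1) R ⊆ PT` then `(1 + κ) ^ N R ⊆ PT`.
-/

set_option autoImplicit false

namespace Pool.Agent.MP_1b9aaa_al.Ten

/-- abstract setting of the end: only the properties of `PT` -/
structure PDat {E T : Type*} [Field E] [AddCommGroup T] (t : E ≃+* E) (H : E → T)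
    (PT : AddSubgroup E) (R : Subring E) (i φ : E) : Prop where
  tt : ∀ x, t (t x) = x
  hmul : ∀ x y, x ≠ 0 → y ≠ 0 → H (x * y) = H x + H y
  hfix : ∀ x, x ≠ 0 → t x = x → H x = 0
  h2T : ∀ v : T, v + v = 0 → v = 0
  hU : ∀ θ, θ * t θ = 1 → θ ∈ R
  hRt : ∀ b ∈ R, t b ∈ R
  h2 : (2 : E) ≠ 0
  h2R : (2 : E)⁻¹ ∈ R
  ti : t i = i
  hi : i * i = -1
  hφ : φ ^ 2 = 1 - φ
  tφ : t φ = φ
  hφR : φ ∈ R
  h5 : (2 - φ)⁻¹ ∈ R
  h50 : 2 - φ ≠ 0
  /-- `l ∈ PT` gives periods -/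
  per : ∀ l ∈ PT, ∀ ρ, ρ * t ρ = 1 → H (1 + (l - t l) * (1 - ρ)) = 0
  /-- conversely -/
  of_per : ∀ l, (∀ θ, θ * t θ = 1 → ∀ ρ, ρ * t ρ = 1 →
    H (1 + (l * θ - t (l * θ)) * (1 - ρ)) = 0) → l ∈ PT

namespace PDat

variable {E T : Type*} [Field E] [AddCommGroup T] {t : E ≃+* E} {H : E → T}
  {PT : AddSubgroup E} {R : Subring E} {i φ : E}

private theorem TenL3_add {O : ValuationSubring E} {x y : E} (hx : x ∈ O.nonunits)
    (hy : y ∈ O.nonunits) : x + y ∈ O.nonunits := O.nonunits.add_mem hx hy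

private theorem TenL3_sub {O : ValuationSubring E} {x y : E} (hx : x ∈ O.nonunits)
    (hy : y ∈ O.nonunits) : x - y ∈ O.nonunits := O.nonunits.sub_mem hx hy

private theorem TenL3_mul {O : ValuationSubring E} {x y : E} (hx : x ∈ O)
    (hy : y ∈ O.nonunits) : x * y ∈ O.nonunits := by
  rw [ValuationSubring.mem_nonunits_iff] at hy ⊢
  rw [map_mul]
  exact mul_lt_one_of_nonneg_of_lt_one_right ((O.valuation_le_one_iff x).mpr hx) zero_le hy

private theorem TenL3_prime {O : ValuationSubring E} {x y : E} (hx : x ∈ O) (hy : y ∈ O)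
    (h : x * y ∈ O.nonunits) : x ∈ O.nonunits ∨ y ∈ O.nonunits := by
  rw [ValuationSubring.mem_nonunits_iff] at h ⊢
  rw [ValuationSubring.mem_nonunits_iff]
  by_contra hn
  push Not at hn
  have h1 : O.valuation x = 1 := le_antisymm ((O.valuation_le_one_iff x).mpr hx) hn.1
  have h2 : O.valuation y = 1 := le_antisymm ((O.valuation_le_one_iff y).mpr hy) hn.2
  rw [map_mul, h1, h2, mul_one] at h
  exact lt_irrefl _ h

private theorem TenL3_one {O : ValuationSubring E} : (1 : E) ∉ O.nonunits := by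
  rw [ValuationSubring.mem_nonunits_iff, map_one]
  exact lt_irrefl _

private theorem TenL3_i {O : ValuationSubring E} {i : E} (hi : i * i = -1) : i ∈ O := by
  rcases O.mem_or_inv_mem i with h | h
  · exact h
  · have h1 : i⁻¹ = -i := by
      apply inv_eq_of_mul_eq_one_right
      rw [mul_neg, hi, neg_neg]
    rw [h1] at h
    simpa using neg_mem h

/-- a valuation ring above `R` is `t`-stable -/
theorem nonunit_t (D : PDat t H PT R i φ) {O : ValuationSubring E} (hO : ∀ x ∈ R, x ∈ O) {x : E}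
    (hx : x ∈ O.nonunits) : t x ∈ O.nonunits :=
  T5Q.t_nonunit t D.tt O (fun θ hθ => hO θ (D.hU θ hθ)) hx

/-- for `z ∈ R` such that `z`, `t z` generate the unit ideal, `z² + (t z)²` is a unit of `R` -/
theorem unit_sq (D : PDat t H PT R i φ) {z : E} (hz : z ∈ R)
    (h : ∀ O : ValuationSubring E, (∀ x ∈ R, x ∈ O) → ¬ (z ∈ O.nonunits ∧ t z ∈ O.nonunits)) :
    (z ^ 2 + (t z) ^ 2)⁻¹ ∈ R ∧ z ^ 2 + (t z) ^ 2 ≠ 0 := by
  have key : ∀ O : ValuationSubring E, (∀ x ∈ R, x ∈ O) → z ^ 2 + (t z) ^ 2 ∉ O.nonunits := by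
    intro O hO hn
    apply h O hO
    have hzO : z ∈ O := hO _ hz
    have htO : t z ∈ O := hO _ (D.hRt _ hz)
    have hiO : i ∈ O := TenL3_i D.hi
    have h2O : (2 : E)⁻¹ ∈ O := hO _ D.h2R
    have e : z ^ 2 + (t z) ^ 2 = (z + i * t z) * (z - i * t z) := by
      linear_combination (t z) ^ 2 * D.hi
    rw [e] at hn
    have hi2 : i * t z ∈ O := O.mul_mem _ _ hiO htO
    rcases TenL3_prime (add_mem hzO hi2) (sub_mem hzO hi2) hn with h1 | h1
    · have h3 := D.nonunit_t hO h1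
      rw [map_add, map_mul, D.ti, D.tt] at h3
      have h4 := TenL3_mul hiO h3
      have e1 : z = (2 : E)⁻¹ * (z + i * t z - i * (t z + i * z)) := by
        have := D.h2
        field_simp
        linear_combination z * D.hi
      have e2 : t z = (2 : E)⁻¹ * (t z + i * z - i * (z + i * t z)) := by
        have := D.h2
        field_simp
        linear_combination (t z) * D.hi
      refine ⟨?_, ?_⟩
      · rw [e1]
        exact TenL3_mul h2O (TenL3_sub h1 h4)
      · rw [e2]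
        exact TenL3_mul h2O (TenL3_sub h3 (TenL3_mul hiO h1))
    · have h3 := D.nonunit_t hO h1
      rw [map_sub, map_mul, D.ti, D.tt] at h3
      have e1 : z = (2 : E)⁻¹ * (z - i * t z + i * (t z - i * z)) := by
        have := D.h2
        field_simp
        linear_combination z * D.hi
      have e2 : t z = (2 : E)⁻¹ * (t z - i * z + i * (z - i * t z)) := by
        have := D.h2
        field_simp
        linear_combination (t z) * D.hi
      refine ⟨?_, ?_⟩
      · rw [e1]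
        exact TenL3_mul h2O (TenL3_add h1 (TenL3_mul hiO h3))
      · rw [e2]
        exact TenL3_mul h2O (TenL3_add h3 (TenL3_mul hiO h1))
  refine ⟨T5Q.inv_mem (R.add_mem (R.pow_mem hz 2) (R.pow_mem (D.hRt _ hz) 2)) key, ?_⟩
  intro h0
  apply key ⊤ (fun x _ => ValuationSubring.mem_top x)
  rw [h0, ValuationSubring.mem_nonunits_iff, map_zero]
  exact zero_lt_one

private theorem TenL3_Hsq (D : PDat t H PT R i φ) {z c r : E} (hc : c ≠ 0) (tc : t c = c)
    (hr : r ≠ 0) (h : z ^ 2 = c * r) (hH : H r = 0) : H z = 0 := by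
  have hz : z ≠ 0 := by
    intro h0
    rw [h0, zero_pow two_ne_zero] at h
    exact mul_ne_zero hc hr h.symm
  apply D.h2T
  rw [← D.hmul z z hz hz, ← pow_two, h, D.hmul _ _ hc hr, D.hfix _ hc tc, hH, add_zero]

/-- **Lemma K** -/
theorem lemK (D : PDat t H PT R i φ) {m : E} (hm : ∀ b ∈ R, m * b ∈ PT) {u b : E}
    (hu : u * t u = 1) (hb : b ∈ R) (h : u = 1 + m * b) : H u = 0 := by
  have huR : u ∈ R := D.hU _ hu
  have hu0 : u ≠ 0 := left_ne_zero_of_mul_eq_one hu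
  have htR : t u ∈ R := D.hRt _ huR
  obtain ⟨hi, h0⟩ := D.unit_sq huR (by
    rintro O hO ⟨h1, -⟩
    have h2 := TenL3_mul (hO _ htR) h1
    rw [mul_comm, hu] at h2
    exact TenL3_one h2)
  set w := u ^ 2 + (t u) ^ 2 with hw
  have tw : t w = w := by
    rw [hw, map_add, map_pow, map_pow, D.tt]
    ring
  have h2 := D.h2
  have hl : (u ^ 2 - 1) / (2 * w) ∈ PT := by
    have e : (u ^ 2 - 1) / (2 * w) = m * (b * (u + 1) * (2⁻¹ * w⁻¹)) := by
      have e1 : u ^ 2 - 1 = m * b * (u + 1) := by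
        linear_combination (u + 1) * h
      rw [e1]
      field_simp
    rw [e]
    exact hm _ (R.mul_mem (R.mul_mem hb (R.add_mem huR R.one_mem)) (R.mul_mem D.h2R hi))
  have h3 := D.per _ hl (-1) (by rw [map_neg, map_one]; ring)
  have e2 : 1 + ((u ^ 2 - 1) / (2 * w) - t ((u ^ 2 - 1) / (2 * w))) * (1 - -1) =
      2 * u ^ 2 / w := by
    rw [map_div₀, map_mul, tw, map_sub, map_pow, map_one, show t 2 = 2 from map_ofNat t 2]
    field_simp
    rw [hw]
    ring
  rw [e2] at h3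
  have h4 : 2 * u ^ 2 / w ≠ 0 := div_ne_zero (mul_ne_zero h2 (pow_ne_zero 2 hu0)) h0
  refine TenL3_Hsq D (c := w / 2) (div_ne_zero h0 h2) ?_ h4 ?_ h3
  · rw [map_div₀, tw, show t 2 = 2 from map_ofNat t 2]
  · field_simp

/-- **Step 2**: `S` fixed, `J` an ideal of `R` (stable under `t`); if `H (1 + S r) = 0` for all
anti-fixed `r ∈ J` with `1 + S r ≠ 0`, then `S J ⊆ PT`. -/
theorem step2 (D : PDat t H PT R i φ) {S : E} (hS : S ∈ R) (tS : t S = S) {J : Set E}
    (hJR : ∀ x ∈ J, x ∈ R) (hJ : ∀ b ∈ R, ∀ x ∈ J, b * x ∈ J) (hJs : ∀ x ∈ J, ∀ y ∈ J, x - y ∈ J)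
    (hJt : ∀ x ∈ J, t x ∈ J)
    (h : ∀ r ∈ J, t r = -r → 1 + S * r ≠ 0 → H (1 + S * r) = 0) {x : E} (hx : x ∈ J) :
    S * x ∈ PT := by
  apply D.of_per
  intro θ hθ ρ hρ
  have hθR := D.hU _ hθ
  have hρR := D.hU _ hρ
  have htR := D.hRt _ hρR
  have h2 := D.h2
  have hxθ : θ * x ∈ J := hJ _ hθR _ hx
  set y := θ * x - t (θ * x) with hy
  have hyJ : y ∈ J := hJs _ hxθ _ (hJt _ hxθ)
  have ty : t y = -y := by
    rw [hy, map_sub, D.tt]
    ring
  have e1 : S * x * θ - t (S * x * θ) = S * y := by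
    rw [hy, map_mul, map_mul, map_mul, tS]
    ring
  rw [e1]
  set p := S * y with hp
  have tp : t p = -p := by
    rw [hp, map_mul, tS, ty]
    ring
  have hpR : p ∈ R := R.mul_mem hS (hJR _ hyJ)
  set z := 1 + p * (1 - ρ) with hz
  have hzR : z ∈ R := R.add_mem R.one_mem (R.mul_mem hpR (R.sub_mem R.one_mem hρR))
  have tz : t z = 1 - p * (1 - t ρ) := by
    rw [hz, map_add, map_one, map_mul, tp, map_sub, map_one]
    ring
  obtain ⟨hi, h0⟩ := D.unit_sq hzR (by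
    rintro O hO ⟨h3, h4⟩
    have h5 : 1 - ρ ∈ O.nonunits := by
      have e : 1 - ρ = z - ρ * t z := by
        rw [tz, hz]
        linear_combination p * hρ
      rw [e]
      exact TenL3_sub h3 (TenL3_mul (hO _ hρR) h4)
    have h6 : (1 : E) = z - p * (1 - ρ) := by
      rw [hz]
      ring
    apply TenL3_one (O := O)
    rw [h6]
    exact TenL3_sub h3 (TenL3_mul (hO _ hpR) h5))
  set w := z ^ 2 + (t z) ^ 2 with hw
  have tw : t w = w := by
    rw [hw, map_add, map_pow, map_pow, D.tt]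
    ring
  set q := (2 - ρ - t ρ) * (2 - p * (ρ - t ρ)) * w⁻¹ with hq
  have hqR : q ∈ R := R.mul_mem (R.mul_mem
    (R.sub_mem (R.sub_mem (ofNat_mem R 2) hρR) htR)
    (R.sub_mem (ofNat_mem R 2) (R.mul_mem hpR (R.sub_mem hρR htR)))) hi
  have tq : t q = q := by
    rw [hq, map_mul, map_mul, map_sub, map_sub, map_sub, map_mul, map_sub, map_inv₀, tw, tp,
      D.tt, show t 2 = 2 from map_ofNat t 2]
    ring
  have e2 : w * (1 + S * (q * y)) = 2 * z ^ 2 := by
    have e3 : w * (1 + S * (q * y)) = w + p * (2 - ρ - t ρ) * (2 - p * (ρ - t ρ)) := by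
      rw [hq, hp]
      field_simp
    rw [e3, hw, tz, hz]
    ring
  have hz0 : z ≠ 0 := by
    intro h3
    apply h0
    rw [hw, h3, map_zero]
    ring
  have h3 : 1 + S * (q * y) ≠ 0 := by
    intro h4
    rw [h4, mul_zero] at e2
    exact mul_ne_zero h2 (pow_ne_zero 2 hz0) e2.symm
  have h4 := h (q * y) (hJ _ hqR _ hyJ) (by rw [map_mul, tq, ty]; ring) h3
  refine TenL3_Hsq D (c := w / 2) (div_ne_zero h0 h2) ?_ h3 ?_ h4
  · rw [map_div₀, tw, show t 2 = 2 from map_ofNat t 2]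
  · field_simp
    linear_combination -e2

/-- `A[φ] ⊆ PT` gives `H = 0` -/
theorem fin (D : PDat t H PT R i φ) (h : ∀ b ∈ R, b ∈ PT) {x : E} (hx : x ≠ 0) : H x = 0 := by
  have key : ∀ u, u * t u = 1 → H u = 0 := fun u hu =>
    D.lemK (m := 1) (fun b hb => by rw [one_mul]; exact h b hb) hu
      (R.sub_mem (D.hU _ hu) R.one_mem) (by ring)
  have htx : t x ≠ 0 := (map_ne_zero t).mpr hx
  have h1 : H (x * (t x)⁻¹) = 0 := key _ (by
    rw [map_mul, map_inv₀, D.tt]
    field_simp)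
  have h2 : H (x * t x) = 0 := D.hfix _ (mul_ne_zero hx htx) (by rw [map_mul, D.tt, mul_comm])
  apply D.h2T
  rw [← D.hmul x x hx hx]
  have e : x * x = (x * (t x)⁻¹) * (x * t x) := by
    field_simp
  rw [e, D.hmul _ _ (mul_ne_zero hx (inv_ne_zero htx)) (mul_ne_zero hx htx), h1, h2, add_zero]

end PDat

end Pool.Agent.MP_1b9aaa_al.Ten
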