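import Pool.Agent.Lib.MP_1b9aaa_al.TenL3

/-!
# MP_1b9aaa_al, T_10: the L-block, a unit
-/

set_option autoImplicit false

namespace Pool.Agent.MP_1b9aaa_al.Ten

variable {E T : Type*} [Field E] [AddCommGroup T] {t : E ≃+* E} {H : E → T}
  {ζ : E} {PT : AddSubgroup E} {R : Subring E} {i φ κ : E}

private theorem TenL4a_sub (O : ValuationSubring E) {x y : E} (hx : x ∈ O.nonunits)
    (hy : y ∈ O.nonunits) : x - y ∈ O.nonunits := O.nonunits.sub_mem hx hy

private theorem TenL4a_add (O : ValuationSubring E) {x y : E} (hx : x ∈ O.nonunits)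
    (hy : y ∈ O.nonunits) : x + y ∈ O.nonunits := O.nonunits.add_mem hx hy

private theorem TenL4a_mul (O : ValuationSubring E) {x y : E} (hx : x ∈ O)
    (hy : y ∈ O.nonunits) : x * y ∈ O.nonunits := by
  rw [ValuationSubring.mem_nonunits_iff] at hy ⊢
  rw [map_mul]
  exact mul_lt_one_of_nonneg_of_lt_one_right ((O.valuation_le_one_iff x).mpr hx) zero_le hy

private theorem TenL4a_prime (O : ValuationSubring E) {x y : E} (hx : x ∈ O) (hy : y ∈ O)
    (h : x * y ∈ O.nonunits) : x ∈ O.nonunits ∨ y ∈ O.nonunits := by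
  rw [ValuationSubring.mem_nonunits_iff] at h ⊢
  rw [ValuationSubring.mem_nonunits_iff]
  by_contra hn
  push Not at hn
  have h1 : O.valuation x = 1 := le_antisymm ((O.valuation_le_one_iff x).mpr hx) hn.1
  have h2 : O.valuation y = 1 := le_antisymm ((O.valuation_le_one_iff y).mpr hy) hn.2
  rw [map_mul, h1, h2, mul_one] at h
  exact lt_irrefl _ h

private theorem TenL4a_one (O : ValuationSubring E) : (1 : E) ∉ O.nonunits := by
  rw [ValuationSubring.mem_nonunits_iff, map_one]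
  exact lt_irrefl _

/-- the quantity is a unit in every valuation ring above `R` -/
private theorem TenL4a_unit (P : PDat t H PT R i φ)
    (hζ : ζ ^ 4 + ζ ^ 3 + ζ ^ 2 + ζ + 1 = 0)
    (tζ : t ζ = ζ) (hφ : φ = ζ + ζ ^ 4) (hκ : κ * t κ = 1) {x b : E} (hb : b ∈ R)
    (hx : x = (1 + κ) * b) (tx : t x = x) (O : ValuationSubring E) (hO : ∀ x ∈ R, x ∈ O) :
    4 + 2 * φ * (κ - 1) * (1 - x) + (κ - 1) ^ 2 * (1 - x) ^ 2 ∉ O.nonunits := by
  intro h
  have h20 := P.h2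
  have h5 : ζ ^ 5 = 1 := by linear_combination (ζ - 1) * hζ
  have hζ0 : ζ ≠ 0 := by
    intro h0
    rw [h0, zero_pow (by norm_num)] at h5
    exact zero_ne_one h5
  have hκR : κ ∈ R := P.hU κ hκ
  have hκO : κ ∈ O := hO κ hκR
  have hκ0 : κ ≠ 0 := left_ne_zero_of_mul_eq_one hκ
  have tκ : t κ = κ⁻¹ := eq_inv_of_mul_eq_one_right hκ
  have hκiO : κ⁻¹ ∈ O := tκ ▸ hO _ (P.hRt κ hκR)
  have h2i : (2 : E)⁻¹ ∈ O := hO _ P.h2R
  have hφO : φ ∈ O := hO φ P.hφR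
  have hbO : b ∈ O := hO b hb
  have h1O : (1 : E) ∈ O := O.one_mem
  have h2O : (2 : E) ∈ O := by exact_mod_cast natCast_mem O 2
  have h4O : (4 : E) ∈ O := by exact_mod_cast natCast_mem O 4
  have hxO : x ∈ O := by
    rw [hx]
    exact O.mul_mem _ _ (add_mem h1O hκO) hbO
  have hζO : ζ ∈ O := by
    rcases O.mem_or_inv_mem ζ with h1 | h1
    · exact h1
    · have e : ζ = ζ⁻¹ ^ 4 := by
        field_simp
        exact h5
      rw [e]
      exact pow_mem h1 4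
  have h52 : 2 - φ ∉ O.nonunits := by
    intro h1
    have h2 := TenL4a_mul O (hO _ P.h5) h1
    rw [inv_mul_cancel₀ P.h50] at h2
    exact TenL4a_one O h2
  obtain ⟨y, hy⟩ : ∃ y, y = 1 - x := ⟨_, rfl⟩
  have hyO : y ∈ O := by
    rw [hy]
    exact sub_mem h1O hxO
  have ty : t y = y := by rw [hy, map_sub, map_one, tx]
  rw [← hy] at h
  obtain ⟨q, hq⟩ : ∃ q : E, q = 2⁻¹ := ⟨_, rfl⟩
  have h2q : 2 * q = 1 := by
    rw [hq]
    exact mul_inv_cancel₀ h20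
  have hqO : q ∈ O := by
    rw [hq]
    exact h2i
  have tq : t q = q := by rw [hq, map_inv₀, map_ofNat]
  obtain ⟨S, hS⟩ : ∃ S, S = (κ - 1) ^ 2 * κ⁻¹ * (q * q) := ⟨_, rfl⟩
  have hSO : S ∈ O := by
    rw [hS]
    exact O.mul_mem _ _ (O.mul_mem _ _ (pow_mem (sub_mem hκO h1O) 2) hκiO) (O.mul_mem _ _ hqO hqO)
  have tS : t S = S := by
    rw [hS]
    simp only [map_mul, map_pow, map_sub, map_inv₀, map_one, tκ, tq, inv_inv]
    field_simp
    ring
  have hS1 : 1 + S = (κ + 1) * ((κ + 1) * κ⁻¹ * (q * q)) := by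
    have e : κ * κ⁻¹ = 1 := mul_inv_cancel₀ hκ0
    rw [hS]
    linear_combination (-(4 * q * q)) * e - (1 + 2 * q) * h2q
  have hSκ : κ * S = (κ - 1) ^ 2 * (q * q) := by
    rw [hS]
    field_simp
  obtain ⟨D1, hD1⟩ : ∃ D1, D1 = 1 + S * y ^ 2 := ⟨_, rfl⟩
  obtain ⟨D2, hD2⟩ : ∃ D2, D2 = 1 - φ * y - S * y ^ 2 := ⟨_, rfl⟩
  have hSy : S * y ^ 2 ∈ O := O.mul_mem _ _ hSO (pow_mem hyO 2)
  have hD1O : D1 ∈ O := by
    rw [hD1]
    exact add_mem h1O hSy
  have hD2O : D2 ∈ O := by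
    rw [hD2]
    exact sub_mem (sub_mem h1O (O.mul_mem _ _ hφO hyO)) hSy
  have tD1 : t D1 = D1 := by rw [hD1, map_add, map_one, map_mul, map_pow, tS, ty]
  have tD2 : t D2 = D2 := by
    rw [hD2, map_sub, map_sub, map_one, map_mul, map_mul, map_pow, tS, ty, P.tφ]
  have hk1 : κ * (D1 - D2) + (D1 + D2) ∈ O.nonunits := by
    have e : κ * (D1 - D2) + (D1 + D2) =
        q * (4 + 2 * φ * (κ - 1) * y + (κ - 1) ^ 2 * y ^ 2) := by
      rw [hD1, hD2]
      linear_combination (2 * y ^ 2) * hSκ + (-2 - φ * (κ - 1) * y + (κ - 1) ^ 2 * y ^ 2 * q) * h2q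
    rw [e]
    exact TenL4a_mul O hqO h
  have hk2 : D1 - D2 + κ * (D1 + D2) ∈ O.nonunits := by
    have h1 := TenL4a_mul O hκO (P.nonunit_t hO hk1)
    have e : κ * t (κ * (D1 - D2) + (D1 + D2)) = D1 - D2 + κ * (D1 + D2) := by
      rw [map_add, map_mul, map_sub, map_add, tκ, tD1, tD2]
      field_simp
    rwa [e] at h1
  have hA : (κ + 1) * D1 ∈ O.nonunits := by
    have h1 := TenL4a_mul O hqO (TenL4a_add O hk1 hk2)
    have e : q * (κ * (D1 - D2) + (D1 + D2) + (D1 - D2 + κ * (D1 + D2))) = (κ + 1) * D1 := by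
      linear_combination ((κ + 1) * D1) * h2q
    rwa [e] at h1
  have hB : (κ - 1) * D2 ∈ O.nonunits := by
    have h1 := TenL4a_mul O hqO (TenL4a_sub O hk2 hk1)
    have e : q * (D1 - D2 + κ * (D1 + D2) - (κ * (D1 - D2) + (D1 + D2))) = (κ - 1) * D2 := by
      linear_combination ((κ - 1) * D2) * h2q
    rwa [e] at h1
  have hA' := TenL4a_prime O (add_mem hκO h1O) hD1O hA
  rcases TenL4a_prime O (sub_mem hκO h1O) hD2O hB with h3 | h3
  · rcases hA' with h4 | h4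
    · have h6 := TenL4a_mul O hqO (TenL4a_sub O h4 h3)
      have e : q * (κ + 1 - (κ - 1)) = 1 := by linear_combination h2q
      rw [e] at h6
      exact TenL4a_one O h6
    · have h6 : S * y ^ 2 ∈ O.nonunits := by
        have e : S * y ^ 2 = (κ - 1) * κ⁻¹ * (q * q) * y ^ 2 * (κ - 1) := by
          rw [hS]
          ring
        rw [e]
        exact TenL4a_mul O (O.mul_mem _ _ (O.mul_mem _ _ (O.mul_mem _ _ (sub_mem hκO h1O) hκiO)
          (O.mul_mem _ _ hqO hqO)) (pow_mem hyO 2)) h3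
      have h7 := TenL4a_sub O h4 h6
      rw [hD1, add_sub_cancel_right] at h7
      exact TenL4a_one O h7
  · rcases hA' with h4 | h4
    · apply h52
      have h6 : (φ * b + S * (2 - x) * b - (κ + 1) * κ⁻¹ * (q * q)) * (κ + 1) ∈ O.nonunits := by
        refine TenL4a_mul O (sub_mem (add_mem (O.mul_mem _ _ hφO hbO)
          (O.mul_mem _ _ (O.mul_mem _ _ hSO (sub_mem h2O hxO)) hbO)) ?_) h4
        exact O.mul_mem _ _ (O.mul_mem _ _ (add_mem hκO h1O) hκiO) (O.mul_mem _ _ hqO hqO)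
      have h7 := TenL4a_sub O h3 h6
      have e : D2 - (φ * b + S * (2 - x) * b - (κ + 1) * κ⁻¹ * (q * q)) * (κ + 1) = 2 - φ := by
        rw [hD2, hy]
        linear_combination (φ + S * (2 - x)) * hx - hS1
      rwa [e] at h7
    · have hF : φ ^ 2 + 4 * S ∈ O.nonunits := by
        have h6 : 4 * D1 - (φ * y + 2) * (D1 + D2) ∈ O.nonunits :=
          TenL4a_sub O (TenL4a_mul O h4O h4) (TenL4a_mul O (add_mem (O.mul_mem _ _ hφO hyO) h2O)
            (TenL4a_add O h4 h3))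
        have h7 : (φ ^ 2 + 4 * S) * D1 - S * (4 * D1 - (φ * y + 2) * (D1 + D2)) ∈ O.nonunits :=
          TenL4a_sub O (TenL4a_mul O (add_mem (pow_mem hφO 2) (O.mul_mem _ _ h4O hSO)) h4)
            (TenL4a_mul O hSO h6)
        have e : (φ ^ 2 + 4 * S) * D1 - S * (4 * D1 - (φ * y + 2) * (D1 + D2)) =
            φ ^ 2 + 4 * S := by
          rw [hD1, hD2]
          ring
        rwa [e] at h7
      have hG : (κ + ζ ^ 2) * (κ + ζ ^ 3) ∈ O.nonunits := by
        have h6 := TenL4a_mul O hκO hF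
        have e : κ * (φ ^ 2 + 4 * S) = (κ + ζ ^ 2) * (κ + ζ ^ 3) := by
          rw [hφ]
          linear_combination 4 * hSκ + ((κ - 1) ^ 2 * (1 + 2 * q)) * h2q +
            (κ * (2 + ζ ^ 3) - 1) * h5
        rwa [e] at h6
      have hζ2 : ζ ^ 2 ∈ O := pow_mem hζO 2
      have hζ3 : ζ ^ 3 ∈ O := pow_mem hζO 3
      have key : κ + ζ ^ 2 ∈ O.nonunits ∧ κ + ζ ^ 3 ∈ O.nonunits := by
        rcases TenL4a_prime O (add_mem hκO hζ2) (add_mem hκO hζ3) hG with h6 | h6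
        · refine ⟨h6, ?_⟩
          have h7 := TenL4a_mul O (O.mul_mem _ _ hκO hζ3) (P.nonunit_t hO h6)
          have e : κ * ζ ^ 3 * t (κ + ζ ^ 2) = κ + ζ ^ 3 := by
            rw [map_add, map_pow, tκ, tζ]
            have e1 : κ * κ⁻¹ = 1 := mul_inv_cancel₀ hκ0
            linear_combination ζ ^ 3 * e1 + κ * h5
          rwa [e] at h7
        · refine ⟨?_, h6⟩
          have h7 := TenL4a_mul O (O.mul_mem _ _ hκO hζ2) (P.nonunit_t hO h6)
          have e : κ * ζ ^ 2 * t (κ + ζ ^ 3) = κ + ζ ^ 2 := by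
            rw [map_add, map_pow, tκ, tζ]
            have e1 : κ * κ⁻¹ = 1 := mul_inv_cancel₀ hκ0
            linear_combination ζ ^ 2 * e1 + κ * h5
          rwa [e] at h7
      apply h52
      have h6 := TenL4a_mul O (O.mul_mem _ _ (sub_mem h1O (pow_mem hζO 4)) hζ3)
        (TenL4a_sub O key.1 key.2)
      have e : (1 - ζ ^ 4) * ζ ^ 3 * (κ + ζ ^ 2 - (κ + ζ ^ 3)) = 2 - φ := by
        rw [hφ]
        linear_combination (1 - ζ ^ 4) * (1 - ζ) * h5 + h5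
      rwa [e] at h6

/-- the unit: `4 + 2 φ (κ - 1) y + (κ - 1)² y²` for `y = 1 - x`, `x ∈ (1 + κ) R` fixed -/
theorem unit_den (P : PDat t H PT R i φ) (hζ : ζ ^ 4 + ζ ^ 3 + ζ ^ 2 + ζ + 1 = 0)
    (tζ : t ζ = ζ) (hφ : φ = ζ + ζ ^ 4) (hκ : κ * t κ = 1) {x b : E} (hb : b ∈ R)
    (hx : x = (1 + κ) * b) (tx : t x = x) :
    (4 + 2 * φ * (κ - 1) * (1 - x) + (κ - 1) ^ 2 * (1 - x) ^ 2)⁻¹ ∈ R ∧
    4 + 2 * φ * (κ - 1) * (1 - x) + (κ - 1) ^ 2 * (1 - x) ^ 2 ≠ 0 := by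
  have hκR : κ ∈ R := P.hU κ hκ
  have hκ1 : κ - 1 ∈ R := R.sub_mem hκR R.one_mem
  have h2R : (2 : E) ∈ R := by exact_mod_cast natCast_mem R 2
  have h4R : (4 : E) ∈ R := by exact_mod_cast natCast_mem R 4
  have hyR : 1 - x ∈ R := by
    rw [hx]
    exact R.sub_mem R.one_mem (R.mul_mem (R.add_mem R.one_mem hκR) hb)
  refine ⟨T5Q.inv_mem ?_ fun O hO => TenL4a_unit P hζ tζ hφ hκ hb hx tx O hO, ?_⟩
  · exact R.add_mem (R.add_mem h4R (R.mul_mem (R.mul_mem (R.mul_mem h2R P.hφR) hκ1) hyR))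
      (R.mul_mem (R.pow_mem hκ1 2) (R.pow_mem hyR 2))
  · intro h0
    have h1 := TenL4a_unit P hζ tζ hφ hκ hb hx tx ⊤ fun _ _ => ValuationSubring.mem_top _
    rw [h0] at h1
    exact h1 (ValuationSubring.nonunits _).zero_mem

end Pool.Agent.MP_1b9aaa_al.Ten
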