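import Pool.Agent.Lib.MP_1b9aaa_al.TenL0
import Pool.Agent.Lib.MP_1b9aaa_al.TenL
import Pool.Agent.Lib.MP_1b9aaa_al.TenJ

/-!
# MP_1b9aaa_al, T_10: the L-block and its consequences
-/

set_option autoImplicit false

namespace Pool.Agent.MP_1b9aaa_al.Ten

open IsSteinberg

/-- hypotheses on the fields -/
structure Fld {K : Type*} [Field K] (σ τ : K ≃+* K) (tt : ∀ x, τ (τ x) = x)
    (comm : ∀ x, σ (τ x) = τ (σ x)) (i : K) : Prop where
  h2K : (2 : K) ≠ 0
  h5K : (5 : K) ≠ 0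
  si : σ i = i
  ti : τ i = i
  hi : i * i = -1
  inv2 : (2 : fixS σ)⁻¹ ∈ NR (tauL σ τ tt comm)
  inv5 : (5 : fixS σ)⁻¹ ∈ NR (tauL σ τ tt comm)

variable {K T : Type*} [Field K] [AddCommGroup T] {σ τ : K ≃+* K} {ω : T →+ T} {c : K → K → T}

/-- **the L-block** -/
theorem Dat.lblock (D : Dat σ τ ω c) {i : K} (F : Fld σ τ D.tt D.comm i) {ζ s : K}
    (G : Gen σ τ ζ s) {k y : K} (hk : σ k = k) (hy : σ y = y) (hy0 : y ≠ 0) :
    c (s - k) y = 0 := by
  by_cases hk1 : τ k = k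
  · exact D.easy F.h2K F.h5K G hk (Or.inl hk1) hy hy0
  by_cases hk2 : τ k = -k
  · exact D.easy F.h2K F.h5K G hk (Or.inr hk2) hy hy0
  have hL := D.ldat F.h2K F.h5K G hk hk1 hk2
  have hx : (⟨y, hy⟩ : fixS σ) ≠ 0 := by
    intro h
    exact hy0 (congrArg Subtype.val h)
  exact hL.main F.inv2 F.inv5 (i := (⟨i, F.si⟩ : fixS σ)) (Subtype.ext F.ti)
    (Subtype.ext F.hi) hx

private theorem TenLB_vanOn (D : Dat σ τ ω c) : VanOn c (fix2 σ τ) :=
  fun x hx f hf hf0 => D.van x hx f hf.1 hf.2 hf0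

private theorem TenLB_LL (D : Dat σ τ ω c) {x y : K} (hx : σ x = x) (hy : σ y = y) (hx0 : x ≠ 0)
    (hy0 : y ≠ 0) : c x y = 0 := by
  have h1 : ω (c x y) = c x y := by
    rw [← D.cs x y hx0 hy0, hx, hy]
  have h2 := D.hω (c x y)
  simp only [h1] at h2
  exact D.h5T _ h2

private theorem TenLB_ss (F5 : (5 : K) ≠ 0) {ζ s : K} (G : Gen σ τ ζ s) : σ s ≠ s := by
  intro h
  rw [G.ss] at h
  have h1 : ζ = 1 := by
    have h2 : (ζ - 1) * s = 0 := by linear_combination h
    rcases mul_eq_zero.1 h2 with h3 | h3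
    · exact sub_eq_zero.1 h3
    · exact absurd h3 G.s0
  have h4 := G.hζ
  rw [h1] at h4
  apply F5
  linear_combination h4

/-- a linear form in `s` over `L` is orthogonal to `L` -/
private theorem TenLB_lin (D : Dat σ τ ω c) {i : K} (F : Fld σ τ D.tt D.comm i) {ζ s : K}
    (G : Gen σ τ ζ s) {p q y : K} (hp : σ p = p) (hq : σ q = q) (h : p + q * s ≠ 0)
    (hy : σ y = y) (hy0 : y ≠ 0) : c (p + q * s) y = 0 := by
  by_cases hq0 : q = 0
  · have h1 : p + q * s = p := by rw [hq0]; ring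
    rw [h1] at h ⊢
    exact TenLB_LL D hp hy h hy0
  · have h1 : p + q * s = q * (s - (-(p / q))) := by field_simp; ring
    have h2 : σ (-(p / q)) = -(p / q) := by rw [map_neg, map_div₀, hp, hq]
    have h3 : s - (-(p / q)) ≠ 0 := by
      intro h4
      apply h
      rw [h1, h4, mul_zero]
    rw [h1, D.st.mul_left _ _ _ hq0 h3 hy0, TenLB_LL D hq hy hq0 hy0,
      D.lblock F G h2 hy hy0, add_zero]

/-- linear forms in `s` over `L` are mutually orthogonal -/
theorem Dat.linL (D : Dat σ τ ω c) {i : K} (F : Fld σ τ D.tt D.comm i) {ζ s : K}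
    (G : Gen σ τ ζ s) : Lin c (fixS σ) s where
  st := D.st
  neg y hy := by
    rw [D.st.skew (neg_ne_zero.2 one_ne_zero) hy,
      D.van y hy (-1) (by rw [map_neg, map_one]) (by rw [map_neg, map_one])
        (neg_ne_zero.2 one_ne_zero), neg_zero]
  lin p q r u hp hq hr hu hA hB := by
    have hS := TenLB_vanOn D
    have hp' : σ p = p := hp
    have hq' : σ q = q := hq
    have hr' : σ r = r := hr
    have hu' : σ u = u := hu
    by_cases hq0 : q = 0
    · have h1 : p + q * s = p := by rw [hq0]; ring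
      rw [h1] at hA ⊢
      rw [D.st.skew hA hB, TenLB_lin D F G hr' hu' hB hp' hA, neg_zero]
    by_cases hu0 : u = 0
    · have h1 : r + u * s = r := by rw [hu0]; ring
      rw [h1] at hB ⊢
      exact TenLB_lin D F G hp' hq' hA hr' hB
    set A : K := p + q * s with hAdef
    set B : K := r + u * s with hBdef
    have hAL : ∀ y, σ y = y → y ≠ 0 → c A y = 0 := fun y hy hy0 =>
      TenLB_lin D F G hp' hq' hA hy hy0
    have hBL : ∀ y, σ y = y → y ≠ 0 → c B y = 0 := fun y hy hy0 =>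
      TenLB_lin D F G hr' hu' hB hy hy0
    have hLA : ∀ y, σ y = y → y ≠ 0 → c y A = 0 := fun y hy hy0 => by
      rw [D.st.skew hy0 hA, hAL y hy hy0, neg_zero]
    have hLB : ∀ y, σ y = y → y ≠ 0 → c y B = 0 := fun y hy hy0 => by
      rw [D.st.skew hy0 hB, hBL y hy hy0, neg_zero]
    have huA : u * A ≠ 0 := mul_ne_zero hu0 hA
    have hqB : q * B ≠ 0 := mul_ne_zero hq0 hB
    have hmain : c (u * A) (q * B) = c A B := by
      rw [D.st.mul_left _ _ _ hu0 hA hqB, D.st.mul_right _ _ _ hu0 hq0 hB,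
        D.st.mul_right _ _ _ hA hq0 hB, TenLB_LL D hu' hq' hu0 hq0, hLB u hu' hu0,
        hAL q hq' hq0, add_zero, zero_add, zero_add]
    have hrel : u * A = (u * p - q * r) + q * B := by rw [hAdef, hBdef]; ring
    have he : σ (u * p - q * r) = u * p - q * r := by
      rw [map_sub, map_mul, map_mul, hp', hq', hr', hu']
    by_cases he0 : u * p - q * r = 0
    · rw [he0, zero_add] at hrel
      rw [← hmain, ← hrel]
      exact D.st.self hS huA
    · have h3 := D.st.three hS huA he0 hqB hrel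
      have h4 : c (u * p - q * r) (q * B) = 0 := by
        rw [D.st.mul_right _ _ _ he0 hq0 hB, TenLB_LL D he hq' he0 hq0, hLB _ he he0, add_zero]
      have h5 : c (u * p - q * r) (u * A) = 0 := by
        rw [D.st.mul_right _ _ _ he0 hu0 hA, TenLB_LL D he hu' he0 hu0, hLA _ he he0, add_zero]
      rw [h4, h5, zero_sub] at h3
      have h6 : c (q * B) (u * A) = 0 := neg_eq_zero.1 h3.symm
      rw [← hmain, D.st.skew huA hqB, h6, neg_zero]

/-- (CL): `d ∈ F` not a square in `K`, `z = (s - l0)/l1`, `m ∈ F` -/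
theorem Dat.cl (D : Dat σ τ ω c) {i : K} (F : Fld σ τ D.tt D.comm i) {ζ s : K}
    (G : Gen σ τ ζ s) [Infinite (fixS σ)] {d : K} (hd : σ d = d) (hd' : τ d = d)
    (hq : ∀ r : K, r * r ≠ d) {l0 l1 m z : K} (h0 : σ l0 = l0) (h1 : σ l1 = l1) (h10 : l1 ≠ 0)
    (hm : σ m = m) (hm' : τ m = m) (hz : z = (s - l0) / l1) : c (m + z) (z ^ 2 - d) = 0 := by
  refine (D.linL F G).cl D.s5 D.h2T F.h2K F.si F.hi hd hq (TenLB_ss F.h5K G) h0 h1 h10 hm
    (fun y hy => ?_) hz
  have h2 : m ^ 2 - d ≠ 0 := by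
    intro h
    apply hq m
    linear_combination h
  rw [D.st.skew h2 hy, D.van y hy (m ^ 2 - d) (by rw [map_sub, map_pow, hm, hd])
    (by rw [map_sub, map_pow, hm', hd']) h2, neg_zero]

end Pool.Agent.MP_1b9aaa_al.Ten
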