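import Pool.Agent.Lib.MP_1b9aaa_al.TenA

/-!
# MP_1b9aaa_al, T_10: Padé in `M = K^τ`
-/

set_option autoImplicit false

namespace Pool.Agent.MP_1b9aaa_al.Ten

variable {K : Type*} [Field K] {σ τ : K ≃+* K}

/-- Padé: every element of `M* = (K^τ)*` is a quotient of two polynomials of degree `≤ 2` in `s²`
over `F` -/
theorem pade_M (s5 : ∀ x, σ (σ (σ (σ (σ x)))) = x) (tt : ∀ x, τ (τ x) = x)
    (comm : ∀ x, σ (τ x) = τ (σ x)) {x m : K} (hx : τ x = x) (hx' : σ x ≠ x) (hm : τ m = m) :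
    ∃ a0 a1 a2 b0 b1 b2 : K, (∀ z ∈ ({a0, a1, a2, b0, b1, b2} : Set K), σ z = z ∧ τ z = z) ∧
      b0 + b1 * x + b2 * x ^ 2 ≠ 0 ∧
      m * (b0 + b1 * x + b2 * x ^ 2) = a0 + a1 * x + a2 * x ^ 2 := by
  classical
  have hxS : x ∉ fixS σ := hx'
  obtain ⟨hF, hr⟩ := five_finrank s5
  let f : Fin 6 → K := ![1, x, x ^ 2, m, m * x, m * x ^ 2]
  have hdep : ¬ LinearIndependent (fixS σ) f := by
    intro h
    have := h.fintype_card_le_finrank
    rw [Fintype.card_fin] at this
    omega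
  rw [Fintype.not_linearIndependent_iff] at hdep
  obtain ⟨a, ha, i, hi⟩ := hdep
  simp only [f, Fin.sum_univ_six, Matrix.cons_val_zero, Matrix.cons_val_one, Matrix.cons_val,
    Algebra.smul_def] at ha
  have key : ∀ b : fixS σ, algebraMap (fixS σ) K b = (b : K) := fun b => rfl
  simp only [key] at ha
  have hax : τ (a 0) + τ (a 1) * x + τ (a 2) * x ^ 2 +
      m * (τ (a 3) + τ (a 4) * x + τ (a 5) * x ^ 2) = 0 := by
    have h1 := congrArg τ ha
    simp only [map_add, map_mul, map_pow, map_one, map_zero, hx, hm] at h1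
    linear_combination h1
  -- a relation with coefficients fixed by both automorphisms
  obtain ⟨b, hb, hb0, hrel⟩ : ∃ b : Fin 6 → K, (∀ j, σ (b j) = b j ∧ τ (b j) = b j) ∧
      (∃ j, b j ≠ 0) ∧ b 0 + b 1 * x + b 2 * x ^ 2 + m * (b 3 + b 4 * x + b 5 * x ^ 2) = 0 := by
    have hsa : ∀ j, σ (a j : K) = a j := fun j => (a j).2
    have hst : ∀ j, σ (τ (a j : K)) = τ (a j : K) := fun j => by rw [comm, hsa]
    by_cases hall : ∀ j, (a j : K) + τ (a j) = 0
    · have hneg : ∀ j, τ (a j : K) = -(a j : K) := fun j => by linear_combination hall j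
      refine ⟨fun j => (a i : K) * a j, fun j => ⟨?_, ?_⟩, ⟨i, ?_⟩, ?_⟩
      · simp only [map_mul, hsa]
      · simp only [map_mul, hneg]
        ring
      · have h1 : (a i : K) ≠ 0 := fun h => hi (Subtype.ext h)
        exact mul_ne_zero h1 h1
      · simp only
        linear_combination (a i : K) * ha
    · push Not at hall
      obtain ⟨j0, hj0⟩ := hall
      refine ⟨fun j => (a j : K) + τ (a j), fun j => ⟨?_, ?_⟩, ⟨j0, hj0⟩, ?_⟩
      · simp only [map_add, hsa, hst]
      · simp only [map_add, tt]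
        ring
      · simp only
        linear_combination ha + hax
  have hbS : ∀ j, b j ∈ fixS σ := fun j => (hb j).1
  have hB0 : b 3 + b 4 * x + b 5 * x ^ 2 ≠ 0 := by
    intro hB
    have hA : b 0 + b 1 * x + b 2 * x ^ 2 = 0 := by
      rw [hB, mul_zero, add_zero] at hrel
      exact hrel
    obtain ⟨h0, h1, h2⟩ := five_quad s5 hxS (hbS 0) (hbS 1) (hbS 2) hA
    obtain ⟨h3, h4, h5⟩ := five_quad s5 hxS (hbS 3) (hbS 4) (hbS 5) hB
    obtain ⟨j, hj⟩ := hb0
    apply hj
    fin_cases j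
    · exact h0
    · exact h1
    · exact h2
    · exact h3
    · exact h4
    · exact h5
  refine ⟨-b 0, -b 1, -b 2, b 3, b 4, b 5, ?_, hB0, ?_⟩
  · intro z hz
    simp only [Set.mem_insert_iff, Set.mem_singleton_iff] at hz
    rcases hz with rfl | rfl | rfl | rfl | rfl | rfl
    · rw [map_neg, map_neg, (hb 0).1, (hb 0).2]
      exact ⟨rfl, rfl⟩
    · rw [map_neg, map_neg, (hb 1).1, (hb 1).2]
      exact ⟨rfl, rfl⟩
    · rw [map_neg, map_neg, (hb 2).1, (hb 2).2]
      exact ⟨rfl, rfl⟩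
    · exact hb 3
    · exact hb 4
    · exact hb 5
  · linear_combination hrel

end Pool.Agent.MP_1b9aaa_al.Ten
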