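import Pool.Agent.Lib.MP_1b9aaa_al.TenF3
import Pool.Agent.Lib.MP_1b9aaa_al.TenM0

/-!
# MP_1b9aaa_al, T_10: the end for the symbol
-/

set_option autoImplicit false

namespace Pool.Agent.MP_1b9aaa_al.Ten

open IsSteinberg

variable {K : Type*} {T : Type*} [Field K] [AddCommGroup T] {σ τ : K ≃+* K} {ω : T →+ T}
  {c : K → K → T}

private theorem TenM_FL (D : Dat σ τ ω c) {f y : K} (hf : σ f = f) (hf' : τ f = f)
    (hf0 : f ≠ 0) (hy0 : y ≠ 0) : c f y = 0 := by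
  rw [D.st.skew hf0 hy0, D.van y hy0 f hf hf' hf0, neg_zero]

private theorem TenM_pow5 {ζ : K} (h : ζ ^ 4 + ζ ^ 3 + ζ ^ 2 + ζ + 1 = 0) : ζ ^ 5 = 1 := by
  linear_combination (ζ - 1) * h

private theorem TenM_gen2 {ζ s : K} (G : Gen σ τ ζ s) : Gen σ τ (ζ ^ 2) (s ^ 2) where
  hζ := by
    have h := G.hζ
    have h5 := TenM_pow5 h
    linear_combination (ζ ^ 3 + ζ) * h5 + h
  sζ := by rw [map_pow, G.sζ]
  tζ := by rw [map_pow, G.tζ]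
  s0 := pow_ne_zero 2 G.s0
  ss := by rw [map_pow, G.ss, mul_pow]
  ts := by rw [map_pow, G.ts]

private theorem TenM_s2 (h5 : (5 : K) ≠ 0) {ζ s : K} (G : Gen σ τ ζ s) : σ (s ^ 2) ≠ s ^ 2 := by
  intro h
  have G2 := TenM_gen2 G
  rw [G2.ss] at h
  have h1 : ζ ^ 2 = 1 := by
    have h2 : (ζ ^ 2 - 1) * s ^ 2 = 0 := by linear_combination h
    rcases mul_eq_zero.1 h2 with h3 | h3
    · exact sub_eq_zero.1 h3
    · exact absurd h3 G2.s0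
  have h4 := G2.hζ
  rw [h1] at h4
  apply h5
  linear_combination h4

/-- polynomials of degree at most two in `s²` over `F` -/
private theorem TenM_poly (D : Dat σ τ ω c) {i : K} (F : Fld σ τ D.tt D.comm i) {ζ s : K}
    (G : Gen σ τ ζ s) [Infinite (fixS σ)] {δ : K} (sδ : σ δ = δ) (tδ : τ δ = -δ) (hδ : δ ≠ 0)
    {a0 a1 a2 y : K} (h0 : σ a0 = a0) (h0' : τ a0 = a0) (h1 : σ a1 = a1) (h1' : τ a1 = a1)
    (h2 : σ a2 = a2) (h2' : τ a2 = a2) (hne : a0 + a1 * s ^ 2 + a2 * (s ^ 2) ^ 2 ≠ 0)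
    (hy : σ y = y) (hy0 : y ≠ 0) : c (a0 + a1 * s ^ 2 + a2 * (s ^ 2) ^ 2) y = 0 := by
  by_cases ha2 : a2 = 0
  · by_cases ha1 : a1 = 0
    · have e : a0 + a1 * s ^ 2 + a2 * (s ^ 2) ^ 2 = a0 := by rw [ha2, ha1]; ring
      rw [e] at hne ⊢
      exact TenM_FL D h0 h0' hne hy0
    · have e : a0 + a1 * s ^ 2 + a2 * (s ^ 2) ^ 2 = a1 * (s ^ 2 - (-(a0 / a1))) := by
        rw [ha2]; field_simp; ring
      have h4 : s ^ 2 - (-(a0 / a1)) ≠ 0 := by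
        intro h5
        apply hne
        rw [e, h5, mul_zero]
      rw [e, D.st.mul_left _ _ _ ha1 h4 hy0, TenM_FL D h1 h1' ha1 hy0,
        D.lblock F (TenM_gen2 G) (by rw [map_neg, map_div₀, h0, h1]) hy hy0, add_zero]
  · have e : a0 + a1 * s ^ 2 + a2 * (s ^ 2) ^ 2 =
        a2 * (s ^ 4 + (a1 / a2) * s ^ 2 + a0 / a2) := by field_simp; ring
    have h4 : s ^ 4 + (a1 / a2) * s ^ 2 + a0 / a2 ≠ 0 := by
      intro h5
      apply hne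
      rw [e, h5, mul_zero]
    rw [e, D.st.mul_left _ _ _ ha2 h4 hy0, TenM_FL D h2 h2' ha2 hy0,
      D.quad F G sδ tδ hδ (by rw [map_div₀, h1, h2]) (by rw [map_div₀, h1', h2'])
        (by rw [map_div₀, h0, h2]) (by rw [map_div₀, h0', h2']) hy hy0, add_zero]

/-- `c(M*, L*) = 0` -/
theorem Dat.ML (D : Dat σ τ ω c) {i : K} (F : Fld σ τ D.tt D.comm i) {ζ s : K}
    (G : Gen σ τ ζ s) [Infinite (fixS σ)] {δ : K} (sδ : σ δ = δ) (tδ : τ δ = -δ) (hδ : δ ≠ 0)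
    {m y : K} (hm : τ m = m) (hm0 : m ≠ 0) (hy : σ y = y) (hy0 : y ≠ 0) : c m y = 0 := by
  obtain ⟨a0, a1, a2, b0, b1, b2, hab, hB, hrel⟩ := pade_M D.s5 D.tt D.comm (x := s ^ 2)
    (by rw [map_pow, G.ts]) (TenM_s2 F.h5K G) hm
  have k0 := hab a0 (by simp)
  have k1 := hab a1 (by simp)
  have k2 := hab a2 (by simp)
  have l0 := hab b0 (by simp)
  have l1 := hab b1 (by simp)
  have l2 := hab b2 (by simp)
  have hA : a0 + a1 * s ^ 2 + a2 * (s ^ 2) ^ 2 ≠ 0 := by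
    rw [← hrel]
    exact mul_ne_zero hm0 hB
  have e1 := TenM_poly D F G sδ tδ hδ k0.1 k0.2 k1.1 k1.2 k2.1 k2.2 hA hy hy0
  have e2 := TenM_poly D F G sδ tδ hδ l0.1 l0.2 l1.1 l1.2 l2.1 l2.2 hB hy hy0
  rw [← hrel, D.st.mul_left _ _ _ hm0 hB hy0, e2, add_zero] at e1
  exact e1

/-- `c(K*, L*) = 0` -/
theorem Dat.KL (D : Dat σ τ ω c) {i : K} (F : Fld σ τ D.tt D.comm i) {ζ s : K}
    (G : Gen σ τ ζ s) [Infinite (fixS σ)] {δ : K} (sδ : σ δ = δ) (tδ : τ δ = -δ) (hδ : δ ≠ 0)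
    {x y : K} (hx0 : x ≠ 0) (hy : σ y = y) (hy0 : y ≠ 0) : c x y = 0 := by
  have ht : ∀ {z : K}, z ≠ 0 → τ z ≠ 0 := fun {z} hz => (map_ne_zero_iff τ τ.injective).mpr hz
  have hty : σ (τ y) = τ y := by rw [D.comm, hy]
  have hxt := ht hx0
  have hyt := ht hy0
  have hM : τ (x * τ x) = x * τ x := by rw [map_mul, D.tt, mul_comm]
  have h1 := D.ML F G sδ tδ hδ hM (mul_ne_zero hx0 hxt) hy hy0
  rw [D.st.mul_left _ _ _ hx0 hxt hy0] at h1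
  have h2 := D.ML F G sδ tδ hδ hM (mul_ne_zero hx0 hxt) hty hyt
  rw [D.st.mul_left _ _ _ hx0 hxt hyt, D.ct x y hx0 hy0] at h2
  -- `c x (τ y) = c x y`
  have h3 : c x (τ y) = c x y := by
    have := h2
    rwa [add_neg_eq_zero] at this
  have h4 : c x (y * τ y) = 0 := D.van x hx0 _ (by rw [map_mul, hy, hty])
    (by rw [map_mul, D.tt, mul_comm]) (mul_ne_zero hy0 hyt)
  rw [D.st.mul_right _ _ _ hx0 hy0 hyt, h3] at h4
  exact D.h2T _ h4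

private theorem TenM_delta (D : Dat σ τ ω c) {x : K} (hx : τ x ≠ x) :
    ∃ δ : K, σ δ = δ ∧ τ δ = -δ ∧ δ ≠ 0 := by
  obtain ⟨d, hd⟩ : ∃ d, d = x - τ x := ⟨_, rfl⟩
  have hd0 : d ≠ 0 := by
    rw [hd]
    exact fun h => hx (sub_eq_zero.1 h).symm
  have htd : τ d = -d := by rw [hd, map_sub, D.tt]; ring
  have hs : ∀ {z : K}, z ≠ 0 → σ z ≠ 0 := fun {z} hz => (map_ne_zero_iff σ σ.injective).mpr hz
  have hc : ∀ z, τ (σ z) = σ (τ z) := fun z => (D.comm z).symm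
  refine ⟨d * σ d * σ (σ d) * σ (σ (σ d)) * σ (σ (σ (σ d))), ?_, ?_, ?_⟩
  · simp only [map_mul, D.s5]
    ring
  · simp only [map_mul, hc, htd, map_neg]
    ring
  · exact mul_ne_zero (mul_ne_zero (mul_ne_zero (mul_ne_zero hd0 (hs hd0)) (hs (hs hd0)))
      (hs (hs (hs hd0)))) (hs (hs (hs (hs hd0))))

private theorem TenM_x (D : Dat σ τ ω c) (h2K : (2 : K) ≠ 0) {δ : K} (sδ : σ δ = δ)
    (tδ : τ δ = -δ) (hδ : δ ≠ 0) {y : K} (hy : σ y ≠ y) : ∃ x : K, τ x = x ∧ σ x ≠ x := by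
  by_contra hcon
  push Not at hcon
  apply hy
  have h1 : σ (y + τ y) = y + τ y := hcon _ (by rw [map_add, D.tt, add_comm])
  have h2 : σ ((y - τ y) / δ) = (y - τ y) / δ := hcon _ (by
    rw [map_div₀, map_sub, D.tt, tδ, div_neg, ← neg_div, neg_sub])
  rw [map_div₀, sδ, div_left_inj' hδ] at h2
  have h3 : (2 : K) * σ y = 2 * y := by
    rw [map_add] at h1
    rw [map_sub] at h2
    linear_combination h1 + h2
  exact mul_left_cancel₀ h2K h3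

private theorem TenM_res (D : Dat σ τ ω c) {a x : K} (ha : a ^ 5 = 1) (sa : σ a = a)
    (ta : τ a = a) (hx : τ x = x) :
    σ (x + a ^ 4 * σ x + a ^ 3 * σ (σ x) + a ^ 2 * σ (σ (σ x)) + a * σ (σ (σ (σ x)))) =
      a * (x + a ^ 4 * σ x + a ^ 3 * σ (σ x) + a ^ 2 * σ (σ (σ x)) + a * σ (σ (σ (σ x)))) ∧
    τ (x + a ^ 4 * σ x + a ^ 3 * σ (σ x) + a ^ 2 * σ (σ (σ x)) + a * σ (σ (σ (σ x)))) =
      x + a ^ 4 * σ x + a ^ 3 * σ (σ x) + a ^ 2 * σ (σ (σ x)) + a * σ (σ (σ (σ x))) := by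
  have hc : ∀ z, τ (σ z) = σ (τ z) := fun z => (D.comm z).symm
  constructor
  · simp only [map_add, map_mul, map_pow, sa, D.s5]
    linear_combination (-σ x) * ha
  · simp only [map_add, map_mul, map_pow, ta, hc, hx]

private theorem TenM_gen (D : Dat σ τ ω c) (h5K : (5 : K) ≠ 0) {ζ : K}
    (hζ : ζ ^ 4 + ζ ^ 3 + ζ ^ 2 + ζ + 1 = 0) (sζ : σ ζ = ζ) (tζ : τ ζ = ζ) {x : K}
    (hx : τ x = x) (hx' : σ x ≠ x) : ∃ s, Gen σ τ ζ s := by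
  have h5 := TenM_pow5 hζ
  obtain ⟨r, hr⟩ : ∃ r : K → K, ∀ a, r a = x + a ^ 4 * σ x + a ^ 3 * σ (σ x) +
      a ^ 2 * σ (σ (σ x)) + a * σ (σ (σ (σ x))) := ⟨_, fun _ => rfl⟩
  have hres : ∀ j : ℕ, σ (r (ζ ^ j)) = ζ ^ j * r (ζ ^ j) ∧ τ (r (ζ ^ j)) = r (ζ ^ j) := by
    intro j
    rw [hr]
    exact TenM_res D (by rw [← pow_mul, mul_comm, pow_mul, h5, one_pow])
      (by rw [map_pow, sζ]) (by rw [map_pow, tζ]) hx
  have key : ∀ j k : ℕ, ζ ^ (j * k) = ζ → r (ζ ^ j) ≠ 0 → ∃ s, Gen σ τ ζ s := by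
    intro j k hjk h0
    refine ⟨r (ζ ^ j) ^ k, hζ, sζ, tζ, pow_ne_zero _ h0, ?_, ?_⟩
    · rw [map_pow, (hres j).1, mul_pow, ← pow_mul, hjk]
    · rw [map_pow, (hres j).2]
  by_cases k1 : r (ζ ^ 1) = 0
  swap
  · exact key 1 1 (by norm_num) k1
  by_cases k2 : r (ζ ^ 2) = 0
  swap
  · exact key 2 3 (by
      have : ζ ^ (2 * 3) = ζ ^ 5 * ζ := by ring
      rw [this, h5, one_mul]) k2
  by_cases k3 : r (ζ ^ 3) = 0
  swap
  · exact key 3 2 (by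
      have : ζ ^ (3 * 2) = ζ ^ 5 * ζ := by ring
      rw [this, h5, one_mul]) k3
  by_cases k4 : r (ζ ^ 4) = 0
  swap
  · exact key 4 4 (by
      have : ζ ^ (4 * 4) = (ζ ^ 5) ^ 3 * ζ := by ring
      rw [this, h5, one_pow, one_mul]) k4
  exfalso
  apply hx'
  have hsum : r (ζ ^ 1) + r (ζ ^ 2) + r (ζ ^ 3) + r (ζ ^ 4) + r 1 = 5 * x := by
    simp only [hr]
    have p6 : ζ ^ 6 = ζ := by linear_combination ζ * h5
    have p8 : ζ ^ 8 = ζ ^ 3 := by linear_combination ζ ^ 3 * h5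
    have p9 : ζ ^ 9 = ζ ^ 4 := by linear_combination ζ ^ 4 * h5
    have p12 : ζ ^ 12 = ζ ^ 2 := by
      have : ζ ^ 12 = (ζ ^ 5) ^ 2 * ζ ^ 2 := by ring
      rw [this, h5]; ring
    have p16 : ζ ^ 16 = ζ := by
      have : ζ ^ 16 = (ζ ^ 5) ^ 3 * ζ := by ring
      rw [this, h5]; ring
    linear_combination (σ x + σ (σ x) + σ (σ (σ x)) + σ (σ (σ (σ x)))) * hζ +
      σ x * (p8 + p12 + p16) + σ (σ x) * (p6 + p9 + p12) +
      σ (σ (σ x)) * (p6 + p8)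
  rw [k1, k2, k3, k4, zero_add, zero_add, zero_add, zero_add] at hsum
  have hs1 : σ (r 1) = r 1 := by
    have h := (hres 0).1
    rwa [pow_zero, one_mul] at h
  rw [hsum, map_mul, map_ofNat] at hs1
  exact mul_left_cancel₀ h5K hs1

/-- **T_10 for the faithful part** -/
theorem Dat.main (D : Dat σ τ ω c) {i : K} (F : Fld σ τ D.tt D.comm i) {ζ : K}
    (hζ : ζ ^ 4 + ζ ^ 3 + ζ ^ 2 + ζ + 1 = 0) (sζ : σ ζ = ζ) (tζ : τ ζ = ζ)
    {x y : K} (hx0 : x ≠ 0) (hy0 : y ≠ 0) : c x y = 0 := by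
  by_cases hτ : ∀ z, τ z = z
  · have h1 := D.ct x y hx0 hy0
    rw [hτ, hτ] at h1
    exact D.h2T _ (add_eq_zero_iff_eq_neg.2 h1)
  by_cases hσ : ∀ z, σ z = z
  · have h1 := D.cs x y hx0 hy0
    rw [hσ, hσ] at h1
    have h2 := D.hω (c x y)
    simp only [← h1] at h2
    exact D.h5T _ h2
  push Not at hτ hσ
  obtain ⟨z, hz⟩ := hτ
  obtain ⟨w, hw⟩ := hσ
  obtain ⟨δ, sδ, tδ, hδ⟩ := TenM_delta D hz
  obtain ⟨u, hu, hu'⟩ := TenM_x D F.h2K sδ tδ hδ hw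
  obtain ⟨s, G⟩ := TenM_gen D F.h5K hζ sζ tζ hu hu'
  rcases finite_or_infinite (fixS σ) with hfin | hinf
  · obtain ⟨h1, -⟩ := five_finrank D.s5
    have : Finite K := Module.finite_of_finite (fixS σ)
    exact Quin.zero_of_finite D.st (S := fix2 σ τ)
      (fun x hx f hf hf0 => D.van x hx f hf.1 hf.2 hf0) hx0 hy0
  · have hG : Good σ c := ⟨D.st, fun x hx f hf hf0 => D.KL F G sδ tδ hδ hx hf hf0⟩
    exact hG.eq_zero5 D.s5 D.h2T (by rw [← F.hi]; exact IsSumSq.mul_self i) hx0 hy0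

end Pool.Agent.MP_1b9aaa_al.Ten
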