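import Mathlib

/-!
# MP_1b9aaa_al, T_10: `F(ζ_n)` and `√-p`, `p` a prime divisor of `n`, `p = 3 mod 4`
-/

set_option autoImplicit false

namespace Pool.Agent.MP_1b9aaa_al.Ten

/-- the Gauss sum -/
theorem exists_sqrt' {K : Type*} [Field K] (h2 : (2 : K) ≠ 0) {p : ℕ} (hp : p.Prime)
    (hp4 : p % 4 = 3) {ζ : K} (hζ : IsPrimitiveRoot ζ p) :
    ∃ r : K, r ^ 2 = -(p : K) ∧ ∀ g : K ≃+* K, g ζ = ζ⁻¹ → g r = -r := by
  have : Fact p.Prime := ⟨hp⟩
  have hp2 : p ≠ 2 := by rintro rfl; norm_num at hp4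
  have hchar : ringChar (ZMod p) ≠ 2 := by rw [ZMod.ringChar_zmod_n]; exact hp2
  set χ0 := quadraticChar (ZMod p) with hχ0
  set χ : MulChar (ZMod p) K := χ0.ringHomComp (Int.castRingHom K) with hχ
  set ψ : AddChar (ZMod p) K := AddChar.zmodChar p hζ.pow_eq_one with hψ
  have hψp : ψ.IsPrimitive := AddChar.zmodChar_primitive_of_primitive_root p hζ
  have hneg : χ0 (-1) = -1 := by
    rw [hχ0, quadraticChar_neg_one hchar, ZMod.card]
    rw [ZMod.χ₄_nat_three_mod_four hp4]
  have hneg' : χ (-1) = -1 := by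
    rw [hχ, MulChar.ringHomComp_apply, hneg]
    simp
  have hquad : χ.IsQuadratic := (quadraticChar_isQuadratic (ZMod p)).comp _
  have hne : χ ≠ 1 := by
    intro h
    rw [h] at hneg'
    have h1 : (1 : MulChar (ZMod p) K) (-1) = 1 := MulChar.one_apply (isUnit_one.neg)
    rw [h1] at hneg'
    apply h2
    linear_combination hneg'
  refine ⟨gaussSum χ ψ, ?_, ?_⟩
  · rw [gaussSum_sq hne hquad hψp, hneg', ZMod.card]
    ring
  · intro g hg
    have h1 : g (gaussSum χ ψ) = gaussSum χ ψ⁻¹ := by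
      simp only [gaussSum, map_sum, map_mul]
      refine Finset.sum_congr rfl fun a _ => ?_
      have e1 : g (χ a) = χ a := by
        rw [hχ, MulChar.ringHomComp_apply]
        simp
      have e2 : g (ψ a) = ψ⁻¹ a := by
        rw [AddChar.inv_apply', hψ, AddChar.zmodChar_apply, map_pow, hg, inv_pow]
      rw [e1, e2]
    have h3 := gaussSum_mulShift χ ψ (-1 : (ZMod p)ˣ)
    have e3 : AddChar.mulShift ψ ((-1 : (ZMod p)ˣ) : ZMod p) = ψ⁻¹ := by
      rw [Units.val_neg, Units.val_one, AddChar.inv_mulShift]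
    rw [e3, Units.val_neg, Units.val_one, hneg'] at h3
    rw [h1]
    linear_combination -h3

/-- `K = F(ζ)`, `ζ` a primitive `n`-th root of unity, every prime divisor of `n` is `11 mod 20`,
`γ` an automorphism over `F` with `γ^10 = 1`: then `γ^5 = 1`, or `γ` maps some `r` with
`r² = -m`, `m = 11 mod 20`, to `-r` -/
theorem odd_or_sqrt' {F K : Type*} [Field F] [Field K] [Algebra F K] {n : ℕ} (hn0 : n ≠ 0)
    (hn : ∀ p, p.Prime → p ∣ n → p % 20 = 11) (h2 : (2 : K) ≠ 0) {ζ : K}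
    (hζ : IsPrimitiveRoot ζ n) (hgen : IntermediateField.adjoin F {ζ} = ⊤)
    (γ : K ≃ₐ[F] K) (h10 : γ ^ 10 = 1) :
    γ ^ 5 = 1 ∨ ∃ (m : ℕ) (r : K), m % 20 = 11 ∧ r ^ 2 = -(m : K) ∧ γ r = -r := by
  set h : K ≃ₐ[F] K := γ ^ 5 with hh
  have hh2 : h * h = 1 := by rw [hh, ← pow_add]; exact h10
  have : NeZero n := ⟨hn0⟩
  obtain ⟨w, -, hw⟩ := hζ.eq_pow_of_pow_eq_one (ξ := h ζ)
    (by rw [← map_pow, hζ.pow_eq_one, map_one])
  by_cases h1 : h ζ = ζ
  · left
    have hle : (⊤ : IntermediateField F K) ≤ IntermediateField.fixedField (Subgroup.zpowers h) := by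
      rw [← hgen, IntermediateField.adjoin_le_iff]
      intro x hx
      rw [Set.mem_singleton_iff] at hx
      subst hx
      rw [SetLike.mem_coe, IntermediateField.mem_fixedField_iff]
      intro f hf
      obtain ⟨z, rfl⟩ := Subgroup.mem_zpowers_iff.mp hf
      have hstab : h ∈ MulAction.stabilizer (K ≃ₐ[F] K) x := h1
      exact Subgroup.zpow_mem _ hstab z
    ext x
    have hx := hle (IntermediateField.mem_top (x := x))
    rw [IntermediateField.mem_fixedField_iff] at hx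
    exact hx h (Subgroup.mem_zpowers h)
  · right
    -- a prime `p ∣ n` with `h ζ_p = ζ_p⁻¹`
    have hw2 : ζ ^ (w * w) = ζ := by
      have e : (h * h) ζ = ζ := by rw [hh2]; rfl
      rw [AlgEquiv.mul_apply, ← hw, map_pow, ← hw, ← pow_mul] at e
      exact e
    have hne : NeZero ((n : ℕ) : K) := hζ.neZero'
    have hdvd : (n : ℤ) ∣ ((w : ℤ) - 1) * ((w : ℤ) + 1) := by
      rw [← hζ.zpow_eq_one_iff_dvd]
      have e : ((w : ℤ) - 1) * ((w : ℤ) + 1) = ((w * w : ℕ) : ℤ) - 1 := by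
        push_cast; ring
      rw [e, zpow_sub_one₀ (hζ.ne_zero hn0), zpow_natCast, hw2,
        mul_inv_cancel₀ (hζ.ne_zero hn0)]
    have hgcd : Int.gcd (w + 1 : ℤ) n ≠ 1 := by
      intro hg
      have h3 : IsCoprime ((n : ℕ) : ℤ) ((w : ℤ) + 1) := by
        rw [isCoprime_comm]
        exact Int.isCoprime_iff_gcd_eq_one.mpr hg
      have h4 : (n : ℤ) ∣ (w : ℤ) - 1 := h3.dvd_of_dvd_mul_right hdvd
      rw [← hζ.zpow_eq_one_iff_dvd, zpow_sub_one₀ (hζ.ne_zero hn0), zpow_natCast] at h4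
      apply h1
      rw [← hw]
      have h5 := congrArg (fun x => x * ζ) h4
      simp only [one_mul] at h5
      rw [mul_assoc, inv_mul_cancel₀ (hζ.ne_zero hn0), mul_one] at h5
      exact h5
    obtain ⟨p, hp, hpd⟩ := Nat.exists_prime_and_dvd hgcd
    have hpn : p ∣ n := by
      have h3 : (p : ℤ) ∣ ((n : ℕ) : ℤ) := by
        exact (Int.natCast_dvd_natCast.mpr hpd).trans (Int.gcd_dvd_right _ _)
      exact_mod_cast h3
    have hpw : p ∣ w + 1 := by
      have h3 : (p : ℤ) ∣ ((w : ℤ) + 1) :=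
        (Int.natCast_dvd_natCast.mpr hpd).trans (Int.gcd_dvd_left _ _)
      exact_mod_cast h3
    have hp11 := hn p hp hpn
    obtain ⟨q, hq⟩ := hpn
    have hζp : IsPrimitiveRoot (ζ ^ q) p := hζ.pow (Nat.pos_of_ne_zero hn0) (by rw [hq, mul_comm])
    obtain ⟨r, hr, hgr⟩ := exists_sqrt' h2 hp (by omega) hζp
    have hhr : h r = -r := by
      refine hgr (h : K ≃+* K) ?_
      show h (ζ ^ q) = (ζ ^ q)⁻¹
      obtain ⟨j, hj⟩ := hpw
      have e1 : (ζ ^ q) ^ (w + 1) = 1 := by rw [hj, pow_mul, hζp.pow_eq_one, one_pow]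
      have e2 : h (ζ ^ q) = (ζ ^ q) ^ w := by
        rw [map_pow, ← hw, ← pow_mul, ← pow_mul, mul_comm]
      rw [e2]
      rw [pow_succ] at e1
      exact eq_inv_of_mul_eq_one_left e1
    have hp0 : (p : K) ≠ 0 := by
      intro h0
      apply hne.out
      rw [hq, Nat.cast_mul, h0, zero_mul]
    have hr0 : r ≠ 0 := by
      rintro rfl
      apply hp0
      linear_combination hr
    refine ⟨p, r, hp11, hr, ?_⟩
    have h3 : (γ r - r) * (γ r + r) = 0 := by
      have h4 : (γ r) ^ 2 = r ^ 2 := by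
        rw [← map_pow, hr, map_neg, map_natCast]
      linear_combination h4
    rcases mul_eq_zero.mp h3 with h4 | h4
    · exfalso
      have h5 : γ r = r := sub_eq_zero.mp h4
      have h6 : h r = r := by
        rw [hh]
        show (γ ^ 5) r = r
        have e : ∀ j : ℕ, (γ ^ j) r = r := by
          intro j
          induction j with
          | zero => rfl
          | succ j ih => rw [pow_succ, AlgEquiv.mul_apply, h5, ih]
        exact e 5
      rw [hhr] at h6
      apply mul_ne_zero h2 hr0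
      linear_combination -h6
    · exact eq_neg_of_add_eq_zero_left h4

end Pool.Agent.MP_1b9aaa_al.Ten
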