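import Pool.Agent.Lib.MP_1b9aaa_al.TenA

/-!
# MP_1b9aaa_al, T_10: `1/2` is a sum of elements of norm one, if `ζ₅ ∈ F` and `L = F(√-11)`
-/

set_option autoImplicit false

namespace Pool.Agent.MP_1b9aaa_al.Ten

/-- `β = (-1 + r)/2 - φ`, `β t β = 4`, `β / t β + t β / β = -3/4` -/
theorem inv_two' {E : Type*} [Field E] {t : E ≃+* E} (tt : ∀ x, t (t x) = x) (h2 : (2 : E) ≠ 0)
    {r φ : E} (hr : r ^ 2 = -11) (tr : t r = -r) (hφ : φ ^ 2 = 1 - φ) (tφ : t φ = φ) :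
    (2 : E)⁻¹ ∈ NR t := by
  have h4 : (4 : E) ≠ 0 := by
    have : (4 : E) = 2 * 2 := by norm_num
    rw [this]; exact mul_ne_zero h2 h2
  obtain ⟨β, hβ⟩ : ∃ β : E, β = (-1 + r) / 2 - φ := ⟨_, rfl⟩
  have htβ : t β = (-1 - r) / 2 - φ := by
    rw [hβ, map_sub, map_div₀, map_add, map_neg, map_one, tr, tφ, map_ofNat]
    ring
  have hN : β * t β = 4 := by
    rw [htβ, hβ]
    field_simp
    linear_combination -hr + 4 * hφ
  have hβ0 : β ≠ 0 := by
    intro h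
    rw [h, zero_mul] at hN
    exact h4 hN.symm
  have htβ0 : t β ≠ 0 := by
    intro h
    rw [h, mul_zero] at hN
    exact h4 hN.symm
  have hu : β / t β ∈ NR t := Subring.subset_closure (by
    show β / t β * t (β / t β) = 1
    rw [map_div₀, tt]; field_simp)
  have hu' : t β / β ∈ NR t := Subring.subset_closure (by
    show t β / β * t (t β / β) = 1
    rw [map_div₀, tt]; field_simp)
  have hs : β / t β + t β / β = -3 / 4 := by
    have e1 : β / t β + t β / β = ((β + t β) ^ 2 - 2 * (β * t β)) / (β * t β) := by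
      field_simp; ring
    rw [e1, hN, htβ, hβ]
    field_simp
    linear_combination 16 * hφ
  have h1 : (4 : E)⁻¹ ∈ NR t := by
    have e : (4 : E)⁻¹ = 1 + (β / t β + t β / β) := by
      rw [hs]; field_simp; norm_num
    rw [e]
    exact add_mem (one_mem _) (add_mem hu hu')
  have e : (2 : E)⁻¹ = 4⁻¹ + 4⁻¹ := by
    field_simp; norm_num
  rw [e]
  exact add_mem h1 h1

/-- roots of unity from a primitive 20-th root of unity -/
theorem roots20 {F : Type*} [Field F] {z : F} (hz : IsPrimitiveRoot z 20) :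
    (2 : F) ≠ 0 ∧ (5 : F) ≠ 0 ∧
    ∃ ζ i : F, ζ ^ 4 + ζ ^ 3 + ζ ^ 2 + ζ + 1 = 0 ∧ i * i = -1 := by
  have h5 : IsPrimitiveRoot (z ^ 4) 5 := hz.pow (by norm_num) (by norm_num)
  have h4 : IsPrimitiveRoot (z ^ 5) 4 := hz.pow (by norm_num) (by norm_num)
  have h2' : IsPrimitiveRoot (z ^ 10) 2 := hz.pow (by norm_num) (by norm_num)
  have n5 : z ^ 4 ≠ 1 := h5.ne_one (by norm_num)
  have n4 : z ^ 10 ≠ 1 := h2'.ne_one (by norm_num)
  have e20 : z ^ 20 = 1 := hz.pow_eq_one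
  have hζ : (z ^ 4) ^ 4 + (z ^ 4) ^ 3 + (z ^ 4) ^ 2 + z ^ 4 + 1 = 0 := by
    have h : (z ^ 4 - 1) * ((z ^ 4) ^ 4 + (z ^ 4) ^ 3 + (z ^ 4) ^ 2 + z ^ 4 + 1) = 0 := by
      linear_combination e20
    exact (mul_eq_zero.mp h).resolve_left (sub_ne_zero.mpr n5)
  have hi : z ^ 10 = -1 := by
    have h : (z ^ 10 - 1) * (z ^ 10 + 1) = 0 := by linear_combination e20
    exact eq_neg_of_add_eq_zero_left ((mul_eq_zero.mp h).resolve_left (sub_ne_zero.mpr n4))
  refine ⟨?_, ?_, z ^ 4, z ^ 5, hζ, by rw [← hi]; ring⟩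
  · intro h
    apply n4
    rw [hi]
    linear_combination -h
  · intro h
    apply n5
    have h1 : (z ^ 4 - 1) ^ 4 = 0 := by
      linear_combination hζ - ((z ^ 4) ^ 3 - (z ^ 4) ^ 2 + z ^ 4) * h
    exact sub_eq_zero.mp (pow_eq_zero_iff (by norm_num) |>.mp h1)

end Pool.Agent.MP_1b9aaa_al.Ten
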