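import Pool.Agent.Lib.MP_1b9aaa_al.MainG
import Pool.Agent.Lib.MP_1b9aaa_al.TenD
import Pool.Agent.Lib.MP_1b9aaa_al.TenR2
import Pool.Agent.Lib.MP_1b9aaa_al.TenU2

/-!
# MP_1b9aaa_al, T_10: from symbols to algebras

`abelian_splittingT`: as `abelian_splittingG`, but the vanishing theorem is only needed for the
automorphisms of `K / F`.
-/

set_option autoImplicit false

open scoped TensorProduct

namespace Pool.Agent.MP_1b9aaa_al

theorem abelian_splittingT (F : Type) [Field F] {n m : ℕ} (hn : Odd n) (hm : Nat.Coprime m n)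
    (hm0 : m ≠ 0) (K : Type) [Field K]
    [Algebra F K] [FiniteDimensional F K] [IsGalois F K] [IsCyclic (K ≃ₐ[F] K)]
    (hdm : Module.finrank F K ∣ m)
    (hV : ∀ γ : K ≃ₐ[F] K, (∀ x, γ^[m] x = x) → Van K (γ : K ≃+* K) n)
    {ζ : K} (hζ : IsPrimitiveRoot ζ n) (A : Type) [Ring A]
    [Algebra F A] [FiniteDimensional F A] (hA : cls K (K ⊗[F] A) ∈ symClasses K n ζ) :
    ∃ (L : Type) (_ : Field L) (_ : Algebra F L),
      FiniteDimensional F L ∧ IsGalois F L ∧ (∀ σ τ : L ≃ₐ[F] L, σ * τ = τ * σ) ∧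
      ∃ r : ℕ, Nonempty ((L ⊗[F] A) ≃ₐ[L] Matrix (Fin r) (Fin r) L) := by
  have hn0 : n ≠ 0 := by rintro rfl; exact absurd hn (by decide)
  have : NeZero n := ⟨hn0⟩
  obtain ⟨γ, hγ⟩ := IsCyclic.exists_generator (α := K ≃ₐ[F] K)
  have hγm : γ ^ m = 1 := by
    have h1 : γ ^ Nat.card (K ≃ₐ[F] K) = 1 := pow_card_eq_one'
    rw [IsGalois.card_aut_eq_finrank] at h1
    obtain ⟨d, hd⟩ := hdm
    rw [hd, pow_mul, h1, one_pow]
  have hpow : ∀ (i : ℕ) (x : K), (γ ^ i) x = γ^[i] x := by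
    intro i
    induction i with
    | zero => exact fun x => rfl
    | succ i ih =>
      intro x
      rw [pow_succ, AlgEquiv.mul_apply, ih, Function.iterate_succ_apply]
  have hγm' : ∀ x : K, γ^[m] x = x := by
    intro x
    rw [← hpow, hγm]
    rfl
  have hγ' : ∀ σ : K ≃ₐ[F] K, ∃ a : ℕ, σ = γ ^ a := by
    intro σ
    obtain ⟨z, hz⟩ := Subgroup.mem_zpowers_iff.mp (hγ σ)
    have hmz : (m : ℤ) ≠ 0 := by exact_mod_cast hm0
    refine ⟨(z % m).toNat, ?_⟩
    rw [← hz]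
    have h1 : z = m * (z / m) + z % m := (Int.mul_ediv_add_emod z m).symm
    have h2 : γ ^ z = γ ^ (z % m) := by
      conv_lhs => rw [h1]
      rw [zpow_add, zpow_mul]
      have : γ ^ (m : ℤ) = 1 := by rw [zpow_natCast]; exact hγm
      rw [this, one_zpow, one_mul]
    rw [h2, ← zpow_natCast, Int.toNat_of_nonneg (Int.emod_nonneg z hmz)]
  have hab : ∀ σ τ : K ≃ₐ[F] K, σ * τ = τ * σ := by
    intro σ τ
    obtain ⟨a, rfl⟩ := hγ' σ
    obtain ⟨b, rfl⟩ := hγ' τ
    rw [← pow_add, ← pow_add, add_comm]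
  -- the cyclotomic exponent
  obtain ⟨i, -, hi⟩ := hζ.eq_pow_of_pow_eq_one (ξ := γ ζ)
    (by rw [← map_pow, hζ.pow_eq_one, map_one])
  set w : ℕ := i + n with hw
  have hγζ : γ ζ = ζ ^ w := by rw [hw, pow_add, hζ.pow_eq_one, mul_one, hi]
  have hw1 : 1 ≤ w := by omega
  have hiter : ∀ k : ℕ, γ^[k] ζ = ζ ^ (w ^ k) := by
    intro k
    induction k with
    | zero => rw [pow_zero, pow_one]; rfl
    | succ k ih =>
      rw [Function.iterate_succ_apply', ih, map_pow, hγζ, ← pow_mul, ← pow_succ']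
  have hj : ∃ j : ℕ, w ^ m = 1 + n * j := by
    have h1 : ζ ^ (w ^ m) = ζ := by rw [← hiter, hγm']
    have h2 : 1 ≤ w ^ m := Nat.one_le_pow _ _ hw1
    have h3 : ζ ^ (w ^ m - 1) = 1 := by
      have h4 : ζ ^ (w ^ m - 1) * ζ = ζ := by
        rw [← pow_succ, Nat.sub_add_cancel h2, h1]
      have hζ0 : ζ ≠ 0 := hζ.ne_zero hn0
      exact mul_right_cancel₀ hζ0 (by rw [h4, one_mul])
    obtain ⟨j, hj⟩ := hζ.dvd_of_pow_eq_one _ h3
    exact ⟨j, by omega⟩
  obtain ⟨j, hj⟩ := hj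
  -- the abelian closure
  let E := SeparableClosure F
  let ι0 : K →ₐ[F] E := IsSepClosed.lift
  let ι : K →ₐ[F] (abS F E) := ι0.codRestrict (abS F E).toSubalgebra
    (fun x => range_abS hab ι0 x)
  have hι : ∀ x, ((ι x : abS F E) : E) = ι0 x := fun x => rfl
  let g : K ≃+* K := γ
  have hgγ : ∀ (i : ℕ) (x : K), g^[i] x = γ^[i] x := fun i x => rfl
  have hΩ : ∀ κ : K, κ ≠ 0 → ∃ θ : abS F E, θ ^ n =
      (ι : K →+* abS F E) (∏ i ∈ Finset.range m, (g^[i] κ) ^ (w ^ (m - i))) := by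
    intro κ hκ
    have hζE : IsPrimitiveRoot (ι0 ζ) n := hζ.map_of_injective ι0.injective
    have : NeZero (n : E) := hζE.neZero'
    set κ' : K := ∏ i ∈ Finset.range m, (γ^[i] κ) ^ (w ^ (m - i)) with hκ'
    obtain ⟨θ, hθ⟩ := IsSepClosed.exists_pow_nat_eq (ι0 κ') n
    have hit : ∀ i, γ^[i] κ ≠ 0 := fun i => iter_ne g hκ i
    have hκ0 : κ' ≠ 0 := Finset.prod_ne_zero_iff.mpr fun i _ => pow_ne_zero _ (hit i)
    have hrel : γ κ' = κ' ^ w * ((κ ^ (w * j))⁻¹) ^ n := by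
      set a : ℕ → K := fun i => (γ^[i] κ) ^ (w ^ (m + 1 - i)) with haD
      have e1 : γ κ' = ∏ i ∈ Finset.range m, a (i + 1) := by
        rw [hκ', map_prod]
        refine Finset.prod_congr rfl fun i hi => ?_
        simp only [haD]
        have e : γ (γ^[i] κ) = γ^[i + 1] κ := (Function.iterate_succ_apply' _ _ _).symm
        rw [map_pow, e, Nat.add_sub_add_right]
      have e2 : κ' ^ w = ∏ i ∈ Finset.range m, a i := by
        rw [hκ', ← Finset.prod_pow]
        refine Finset.prod_congr rfl fun i hi => ?_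
        simp only [haD]
        have him : i ≤ m := (Finset.mem_range.mp hi).le
        rw [← pow_mul, ← pow_succ, Nat.sub_add_comm him]
      have e3 : a 0 = κ ^ w * (κ ^ (w * j)) ^ n := by
        simp only [haD, Function.iterate_zero, id_eq, Nat.sub_zero]
        rw [← pow_mul, ← pow_add, pow_succ, hj]
        congr 1
        ring
      have e4 : a m = κ ^ w := by
        simp only [haD]
        rw [hγm', Nat.add_sub_cancel_left, pow_one]
      have e5 : (∏ i ∈ Finset.range m, a i) * a m = (∏ i ∈ Finset.range m, a (i + 1)) * a 0 := by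
        rw [← Finset.prod_range_succ, Finset.prod_range_succ']
      have hne : (κ ^ (w * j)) ^ n ≠ 0 := pow_ne_zero _ (pow_ne_zero _ hκ)
      have hne' : κ ^ w ≠ 0 := pow_ne_zero _ hκ
      rw [← e1, ← e2, e3, e4] at e5
      rw [inv_pow]
      field_simp
      have e6 : κ' ^ w * κ ^ w = γ κ' * (κ ^ (w * j)) ^ n * κ ^ w := by rw [e5]; ring
      exact (mul_right_cancel₀ hne' e6).symm
    have hθΩ : θ ∈ abS F E := kummer_abS γ hγ' ι0 hn0 hζ hγζ hκ0 hrel hθ
    exact ⟨⟨θ, hθΩ⟩, Subtype.ext hθ⟩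
  choose β hβ using fun i : ℕ => exists_bcM (emb (ι : K →+* abS F E) g i)
  have hβs : ∀ i a b, β i (sy n ζ a b) = sy n (emb (ι : K →+* abS F E) g i ζ)
      (emb (ι : K →+* abS F E) g i a) (emb (ι : K →+* abS F E) g i b) := by
    intro i a b
    rw [sy, hβ]
    exact sy_bc _
  have hkey := fun {a b : K} (ha : a ≠ 0) (hb : b ≠ 0) =>
    keyG (m := m) hn hζ (ι : K →+* abS F E) g (hV γ hγm') hγζ hj hΩ β hβs ha hb
  -- on all classes of symbol algebras
  have hall : ∀ x ∈ symClasses K n ζ, ∏ i ∈ Finset.range m, β i x = 1 ∧ x ^ n = 1 := by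
    intro x hx
    induction hx using Submonoid.closure_induction with
    | mem x h =>
      obtain ⟨a, b, ha, hb, rfl⟩ := h
      exact ⟨hkey ha hb, sy_tors hn0 hζ ha hb⟩
    | one => simp
    | mul x y _ _ hx hy =>
      refine ⟨?_, by rw [mul_pow, hx.2, hy.2, one_mul]⟩
      simp only [map_mul]
      rw [Finset.prod_mul_distrib, hx.1, hy.1, one_mul]
  obtain ⟨hx1, hx2⟩ := hall _ hA
  have hbase : ∀ i, β i (cls K (K ⊗[F] A)) = cls (abS F E) ((abS F E) ⊗[F] A) := by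
    intro i
    rw [hβ]
    refine bc_tower _ ?_ A
    intro x
    have hgx : g (algebraMap F K x) = algebraMap F K x := γ.commutes x
    rw [emb_fix _ g hgx]
    exact ι.commutes x
  set α : BrM (abS F E) := cls (abS F E) ((abS F E) ⊗[F] A) with hα
  have hαm : α ^ m = 1 := by
    rw [← hx1, Finset.prod_congr rfl fun i _ => hbase i, Finset.prod_const, Finset.card_range]
  have hαn : α ^ n = 1 := by
    rw [← hbase 0, ← map_pow, hx2, map_one]
  have hα1 : α = 1 := by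
    have h1 := orderOf_dvd_of_pow_eq_one hαm
    have h2 := orderOf_dvd_of_pow_eq_one hαn
    have h4 : orderOf α = 1 := Nat.eq_one_of_dvd_coprimes hm h1 h2
    exact orderOf_eq_one_iff.mp h4
  obtain ⟨m', r, hm', hr, ⟨e⟩⟩ := Quotient.exact (s := alSetoid (abS F E)) hα1
  obtain ⟨r', ⟨e'⟩⟩ := matrix_of_matrix hm' hr e
  obtain ⟨L, hL, hLf, ⟨e''⟩⟩ := descent (abS F E) e'
  obtain ⟨hG, hc⟩ := abS_sub L hL
  exact ⟨L, inferInstance, inferInstance, hLf, hG, hc, r', ⟨e''⟩⟩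

/-- the theorem for all `n` whose prime divisors are `11 mod 20` -/
theorem Ten.final (F K A : Type) [Field F] [Field K] [Ring A] [Algebra F K] [Algebra F A]
    [FiniteDimensional F K] [FiniteDimensional F A] [IsGalois F K] [IsCyclic (K ≃ₐ[F] K)]
    {n : ℕ} (hn0 : n ≠ 0) (hn : ∀ p, p.Prime → p ∣ n → p % 20 = 11)
    (h10 : Module.finrank F K ∣ 10) {ζ : K}
    (hζ : IsPrimitiveRoot ζ n) (hgen : IntermediateField.adjoin F {ζ} = ⊤) {z : F}
    (hz : IsPrimitiveRoot z 20) (hA : cls K (K ⊗[F] A) ∈ symClasses K n ζ) :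
    ∃ (L : Type) (_ : Field L) (_ : Algebra F L),
      FiniteDimensional F L ∧ IsGalois F L ∧ (∀ σ τ : L ≃ₐ[F] L, σ * τ = τ * σ) ∧
      ∃ r : ℕ, Nonempty ((L ⊗[F] A) ≃ₐ[L] Matrix (Fin r) (Fin r) L) := by
  have hm : Nat.Coprime 10 n := by
    by_contra hg
    obtain ⟨p, hp, h1, h2⟩ := Nat.Prime.not_coprime_iff_dvd.mp hg
    have h3 := hn p hp h2
    have h4 : p ≤ 10 := Nat.le_of_dvd (by norm_num) h1
    omega
  have hodd : Odd n := by
    rw [← Nat.coprime_two_left]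
    exact Nat.Coprime.coprime_dvd_left ⟨5, rfl⟩ hm
  obtain ⟨h2F, h5F, ζ₅, i, h1, h2⟩ := Ten.roots20 hz
  have h2K : (2 : K) ≠ 0 := by
    have e : algebraMap F K 2 = 2 := map_ofNat _ 2
    rw [← e]
    exact (map_ne_zero (algebraMap F K)).mpr h2F
  have h5K : (5 : K) ≠ 0 := by
    have e : algebraMap F K 5 = 5 := map_ofNat _ 5
    rw [← e]
    exact (map_ne_zero (algebraMap F K)).mpr h5F
  refine abelian_splittingT F hodd hm (by norm_num) K h10 ?_ hζ A hA
  intro γ hγ T _ c hc hcn u v hu hv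
  have hpow : ∀ (i : ℕ) (x : K), (γ ^ i) x = γ^[i] x := by
    intro i
    induction i with
    | zero => exact fun x => rfl
    | succ i ih =>
      intro x
      rw [pow_succ, AlgEquiv.mul_apply, ih, Function.iterate_succ_apply]
  have hγ10 : γ ^ 10 = 1 := by
    ext x
    rw [hpow, hγ]
    rfl
  rcases Ten.odd_or_sqrt' hn0 hn h2K hζ hgen γ hγ10 with h5 | ⟨m, r, hm11, hr, gr⟩
  · have h5' : ∀ x : K, γ (γ (γ (γ (γ x)))) = x := by
      intro x
      have h := hpow 5 x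
      rw [h5] at h
      exact h.symm
    exact hc.eq_zero_of_five h5' hodd hζ hcn hu hv
  · refine Ten.eq_zero_of_ten hc hγ hm hcn h2K h5K (ζ := algebraMap F K ζ₅)
      (i := algebraMap F K i) (r := r) ?_ (γ.commutes _) ?_
      (γ.commutes _) hm11 hr gr hu hv
    · rw [← map_zero (algebraMap F K), ← h1]
      simp only [map_add, map_pow, map_one]
    · rw [← map_mul, h2, map_neg, map_one]

end Pool.Agent.MP_1b9aaa_al
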