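import Mathlib

/-!
# MP_1b9aaa_al, T_10: `F(ζ_{11^k})` and `√-11`
-/

set_option autoImplicit false

namespace Pool.Agent.MP_1b9aaa_al.Ten

/-- the Gauss sum: a field with a primitive 11-th root of unity `ζ` contains `r` with `r² = -11`,
and every automorphism `g` with `g ζ = ζ⁻¹` maps `r` to `-r` -/
theorem exists_sqrt {K : Type*} [Field K] {ζ : K} (hζ : IsPrimitiveRoot ζ 11) :
    ∃ r : K, r ^ 2 = -11 ∧ ∀ g : K ≃+* K, g ζ = ζ⁻¹ → g r = -r := by
  have h1 := hζ.geom_sum_eq_zero (by norm_num)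
  simp only [Finset.sum_range_succ, Finset.sum_range_zero, pow_zero, pow_one, zero_add] at h1
  have h11 : ζ ^ 11 = 1 := hζ.pow_eq_one
  have hinv : ζ⁻¹ = ζ ^ 10 := by
    have h0 : ζ ≠ 0 := by
      rintro rfl
      norm_num at h11
    field_simp
    rw [← h11]
  refine ⟨2 * (ζ + ζ ^ 3 + ζ ^ 4 + ζ ^ 5 + ζ ^ 9) + 1, ?_, ?_⟩
  · have e : ζ ^ 10 = -(1 + ζ + ζ ^ 2 + ζ ^ 3 + ζ ^ 4 + ζ ^ 5 + ζ ^ 6 + ζ ^ 7 + ζ ^ 8 + ζ ^ 9) := by
      linear_combination h1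
    have e12 : ζ ^ 12 = ζ := by linear_combination ζ * h11
    have e13 : ζ ^ 13 = ζ ^ 2 := by linear_combination ζ ^ 2 * h11
    have e14 : ζ ^ 14 = ζ ^ 3 := by linear_combination ζ ^ 3 * h11
    have e18 : ζ ^ 18 = ζ ^ 7 := by linear_combination ζ ^ 7 * h11
    have e0 : (2 * (ζ + ζ ^ 3 + ζ ^ 4 + ζ ^ 5 + ζ ^ 9) + 1) ^ 2
        = 4 * (ζ ^ 2 + ζ ^ 6 + ζ ^ 8 + ζ ^ 10 + ζ ^ 18 + 2 * (ζ ^ 4 + ζ ^ 5 + ζ ^ 6 + ζ ^ 10
          + ζ ^ 7 + ζ ^ 8 + ζ ^ 12 + ζ ^ 9 + ζ ^ 13 + ζ ^ 14))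
          + 4 * (ζ + ζ ^ 3 + ζ ^ 4 + ζ ^ 5 + ζ ^ 9) + 1 := by ring
    rw [e0, e12, e13, e14, e18, e]
    ring
  · intro g hg
    have hg' : g ζ = ζ ^ 10 := hg.trans hinv
    simp only [map_add, map_mul, map_pow, map_one, map_ofNat, hg']
    have p3 : (ζ ^ 10) ^ 3 = ζ ^ 8 := by
      linear_combination (ζ ^ 19 + ζ ^ 8) * h11
    have p4 : (ζ ^ 10) ^ 4 = ζ ^ 7 := by
      linear_combination (ζ ^ 29 + ζ ^ 18 + ζ ^ 7) * h11
    have p5 : (ζ ^ 10) ^ 5 = ζ ^ 6 := by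
      linear_combination (ζ ^ 39 + ζ ^ 28 + ζ ^ 17 + ζ ^ 6) * h11
    have p9 : (ζ ^ 10) ^ 9 = ζ ^ 2 := by
      linear_combination (ζ ^ 79 + ζ ^ 68 + ζ ^ 57 + ζ ^ 46 + ζ ^ 35 + ζ ^ 24 + ζ ^ 13
        + ζ ^ 2) * h11
    rw [p3, p4, p5, p9]
    linear_combination 2 * h1

private theorem tenR_pm {k : ℕ} {m : ℕ} (h : 11 ^ k ∣ (m * m - 1 : ℤ)) :
    (11 ^ k : ℤ) ∣ (m : ℤ) - 1 ∨ (11 ^ k : ℤ) ∣ (m : ℤ) + 1 := by
  have hp : Prime (11 : ℤ) := by
    rw [Int.prime_iff_natAbs_prime]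
    norm_num
  have h' : (11 ^ k : ℤ) ∣ ((m : ℤ) - 1) * ((m : ℤ) + 1) := by
    have : ((m : ℤ) - 1) * ((m : ℤ) + 1) = m * m - 1 := by ring
    rw [this]
    exact_mod_cast h
  by_cases h1 : (11 : ℤ) ∣ (m : ℤ) - 1
  · left
    have h2 : ¬ (11 : ℤ) ∣ (m : ℤ) + 1 := by
      intro h2
      omega
    exact hp.pow_dvd_of_dvd_mul_right k h2 h'
  · right
    exact hp.pow_dvd_of_dvd_mul_left k h1 h'

/-- `K = F(ζ)`, `ζ` a primitive `11^k`-th root of unity, `γ` an automorphism over `F` with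
`γ^10 = 1`: then `γ^5 = 1`, or `γ` maps some `r` with `r² = -11` to `-r` -/
theorem odd_or_sqrt {F K : Type*} [Field F] [Field K] [Algebra F K] {k : ℕ} (hk : k ≠ 0) {ζ : K}
    (hζ : IsPrimitiveRoot ζ (11 ^ k)) (hgen : IntermediateField.adjoin F {ζ} = ⊤)
    (γ : K ≃ₐ[F] K) (h10 : γ ^ 10 = 1) :
    γ ^ 5 = 1 ∨ ∃ r : K, r ^ 2 = -11 ∧ γ r = -r := by
  have hpos : 0 < 11 ^ k := by positivity
  have : NeZero (11 ^ k) := ⟨hpos.ne'⟩
  set h : K ≃ₐ[F] K := γ ^ 5 with hh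
  have hh2 : h * h = 1 := by
    rw [hh, ← pow_add]
    exact h10
  have hroot : (h ζ) ^ (11 ^ k) = 1 := by rw [← map_pow, hζ.pow_eq_one, map_one]
  obtain ⟨m, hm, hmζ⟩ := hζ.eq_pow_of_pow_eq_one hroot
  have hζ0 : ζ ≠ 0 := hζ.ne_zero hpos.ne'
  have hmm : ζ ^ (m * m) = ζ := by
    have e1 : h (h ζ) = ζ := by
      have := congrArg (fun f : K ≃ₐ[F] K => f ζ) hh2
      simpa [AlgEquiv.mul_apply] using this
    rw [← hmζ, map_pow, ← hmζ, ← pow_mul] at e1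
    exact e1
  have hdvd : ((11 ^ k : ℕ) : ℤ) ∣ ((m : ℤ) * m - 1) := by
    rw [← hζ.zpow_eq_one_iff_dvd]
    rw [zpow_sub₀ hζ0, zpow_one]
    have : ζ ^ ((m : ℤ) * m) = ζ ^ (m * m) := by
      rw [← zpow_natCast]
      push_cast
      rfl
    rw [this, hmm, div_self hζ0]
  rcases tenR_pm (k := k) (m := m) (by exact_mod_cast hdvd) with h1 | h1
  · left
    have hfix : h ζ = ζ := by
      rw [← hmζ]
      have h2 : ζ ^ ((m : ℤ) - 1) = 1 := by
        rw [hζ.zpow_eq_one_iff_dvd]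
        exact_mod_cast h1
      rw [zpow_sub₀ hζ0, zpow_one, zpow_natCast, div_eq_one_iff_eq hζ0] at h2
      exact h2
    have hle : IntermediateField.adjoin F {ζ} ≤
        IntermediateField.fixedField (Subgroup.zpowers h) := by
      rw [IntermediateField.adjoin_le_iff]
      rintro x hx
      rw [Set.mem_singleton_iff] at hx
      subst hx
      rw [SetLike.mem_coe, IntermediateField.mem_fixedField_iff]
      intro f hf
      obtain ⟨n, rfl⟩ := Subgroup.mem_zpowers_iff.mp hf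
      have hs : h ∈ MulAction.stabilizer (K ≃ₐ[F] K) x := hfix
      exact (MulAction.stabilizer (K ≃ₐ[F] K) x).zpow_mem hs n
    rw [hgen] at hle
    ext x
    have hx := hle (show x ∈ (⊤ : IntermediateField F K) from trivial)
    rw [IntermediateField.mem_fixedField_iff] at hx
    exact hx h (Subgroup.mem_zpowers h)
  · right
    obtain ⟨j, rfl⟩ : ∃ j, k = j + 1 := ⟨k - 1, by omega⟩
    have h11 : IsPrimitiveRoot (ζ ^ (11 ^ j)) 11 := hζ.pow hpos (by rw [pow_succ])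
    obtain ⟨r, hr, hg⟩ := exists_sqrt h11
    refine ⟨r, hr, ?_⟩
    have hinv : h ζ = ζ⁻¹ := by
      rw [← hmζ]
      have h2 : ζ ^ ((m : ℤ) + 1) = 1 := by
        rw [hζ.zpow_eq_one_iff_dvd]
        exact_mod_cast h1
      rw [zpow_add₀ hζ0, zpow_one, zpow_natCast] at h2
      exact eq_inv_of_mul_eq_one_left h2
    have hhr : h r = -r := by
      have := hg h.toRingEquiv (by
        change h (ζ ^ 11 ^ j) = _
        rw [map_pow, hinv, inv_pow])
      exact this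
    have hγ2 : (γ r) ^ 2 = r ^ 2 := by
      rw [← map_pow, hr, map_neg, map_ofNat]
    rcases sq_eq_sq_iff_eq_or_eq_neg.mp hγ2 with h3 | h3
    · have : ∀ n : ℕ, (γ ^ n) r = r := by
        intro n
        induction n with
        | zero => simp
        | succ n ih => rw [pow_succ, AlgEquiv.mul_apply, h3, ih]
      have h4 := this 5
      rw [← hh, hhr] at h4
      rw [h3, h4]
    · exact h3

/-- roots of unity from a primitive 60-th root of unity -/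
theorem roots60 {F : Type*} [Field F] {z : F} (hz : IsPrimitiveRoot z 60) :
    (2 : F) ≠ 0 ∧ (5 : F) ≠ 0 ∧
    ∃ ζ i w : F, ζ ^ 4 + ζ ^ 3 + ζ ^ 2 + ζ + 1 = 0 ∧ i * i = -1 ∧ w ^ 2 + w + 1 = 0 := by
  have hne : NeZero ((60 : ℕ) : F) := hz.neZero'
  have h60 : ((60 : ℕ) : F) ≠ 0 := hne.out
  have h60' : (60 : F) ≠ 0 := by exact_mod_cast h60
  refine ⟨?_, ?_, z ^ 12, z ^ 15, z ^ 20, ?_, ?_, ?_⟩
  · intro h
    apply h60'
    linear_combination 30 * h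
  · intro h
    apply h60'
    linear_combination 12 * h
  · have h5 : IsPrimitiveRoot (z ^ 12) 5 := hz.pow (by norm_num) (by norm_num)
    have := h5.geom_sum_eq_zero (by norm_num)
    simp only [Finset.sum_range_succ, Finset.sum_range_zero, pow_zero, pow_one, zero_add] at this
    linear_combination this
  · have h4 : IsPrimitiveRoot (z ^ 30) 2 := hz.pow (by norm_num) (by norm_num)
    have := h4.eq_neg_one_of_two_right
    rw [← this]
    ring
  · have h3 : IsPrimitiveRoot (z ^ 20) 3 := hz.pow (by norm_num) (by norm_num)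
    have := h3.geom_sum_eq_zero (by norm_num)
    simp only [Finset.sum_range_succ, Finset.sum_range_zero, pow_zero, pow_one, zero_add] at this
    linear_combination this

end Pool.Agent.MP_1b9aaa_al.Ten
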