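import Pool.Agent.Lib.MP_1b9aaa_al.TenA

/-!
# MP_1b9aaa_al, T_10: `1/2` and `1/5` are sums of elements of norm one

`r² = -11`, `t r = -r`; `w` a primitive cube root of unity fixed by `t`.
-/

set_option autoImplicit false

namespace Pool.Agent.MP_1b9aaa_al.Ten

/-- an element `b` with `b + t b = a` and `b t b = n` gives `(a² - 2 n) / n` in the ring -/
private theorem TenU_key {E : Type*} [Field E] {t : E ≃+* E} (tt : ∀ x, t (t x) = x)
    {b a n : E} (hs : b + t b = a) (hn : b * t b = n) (h0 : n ≠ 0) :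
    (a ^ 2 - 2 * n) * n⁻¹ ∈ NR t := by
  have hb : b ≠ 0 := by
    rintro rfl
    exact h0 (by rw [← hn, zero_mul])
  have htb : t b ≠ 0 := by
    intro h
    exact h0 (by rw [← hn, h, mul_zero])
  have h1 : b * (t b)⁻¹ ∈ NR t := by
    refine Subring.subset_closure ?_
    show b * (t b)⁻¹ * t (b * (t b)⁻¹) = 1
    rw [map_mul, map_inv₀, tt]
    field_simp
  have h2 : t b * b⁻¹ ∈ NR t := by
    refine Subring.subset_closure ?_
    show t b * b⁻¹ * t (t b * b⁻¹) = 1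
    rw [map_mul, map_inv₀, tt]
    field_simp
  have h3 : (a ^ 2 - 2 * n) * n⁻¹ = b * (t b)⁻¹ + t b * b⁻¹ := by
    subst hs
    subst hn
    field_simp
    ring
  rw [h3]
  exact add_mem h1 h2

/-- `β = (5 + √33)/2`, `√33 = r (2 w + 1)`, `β t β = -2`, `β / t β + t β / β = -29/2` -/
theorem inv_two {E : Type*} [Field E] {t : E ≃+* E} (tt : ∀ x, t (t x) = x) (h2 : (2 : E) ≠ 0)
    {r w : E} (hr : r ^ 2 = -11) (tr : t r = -r) (hw : w ^ 2 + w + 1 = 0) (tw : t w = w) :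
    (2 : E)⁻¹ ∈ NR t := by
  have t2 : t 2 = 2 := map_ofNat t 2
  have t5 : t 5 = 5 := map_ofNat t 5
  have t1 : t 1 = 1 := map_one t
  have hw2 : (2 * w + 1) ^ 2 = -3 := by linear_combination 4 * hw
  have htb : t ((5 + r * (2 * w + 1)) * 2⁻¹) = (5 - r * (2 * w + 1)) * 2⁻¹ := by
    simp only [map_mul, map_add, map_inv₀, t2, t5, t1, tr, tw]
    ring
  have hs : (5 + r * (2 * w + 1)) * 2⁻¹ + t ((5 + r * (2 * w + 1)) * 2⁻¹) = 5 := by
    rw [htb]
    field_simp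
    ring
  have hn : (5 + r * (2 * w + 1)) * 2⁻¹ * t ((5 + r * (2 * w + 1)) * 2⁻¹) = -2 := by
    rw [htb]
    have h4 : (5 + r * (2 * w + 1)) * (5 - r * (2 * w + 1)) = -8 := by
      linear_combination (-(2 * w + 1) ^ 2) * hr + 11 * hw2
    calc (5 + r * (2 * w + 1)) * 2⁻¹ * ((5 - r * (2 * w + 1)) * 2⁻¹)
        = (5 + r * (2 * w + 1)) * (5 - r * (2 * w + 1)) * (2⁻¹ * 2⁻¹) := by ring
      _ = -8 * (2⁻¹ * 2⁻¹) := by rw [h4]
      _ = -2 := by field_simp; norm_num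
  have h := TenU_key tt hs hn (neg_ne_zero.2 h2)
  have h15 : (15 : E) ∈ NR t := ofNat_mem (NR t) 15
  have h3 : (2 : E)⁻¹ = (5 ^ 2 - 2 * -2) * (-2)⁻¹ + 15 := by
    field_simp
    norm_num
  rw [h3]
  exact add_mem h h15

/-- `π = (3 + r)/2`, `π t π = 5`, `π / t π + t π / π = -1/5` -/
theorem inv_five {E : Type*} [Field E] {t : E ≃+* E} (tt : ∀ x, t (t x) = x) (h2 : (2 : E) ≠ 0)
    (h5 : (5 : E) ≠ 0) {r : E} (hr : r ^ 2 = -11) (tr : t r = -r) : (5 : E)⁻¹ ∈ NR t := by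
  have t2 : t 2 = 2 := map_ofNat t 2
  have t3 : t 3 = 3 := map_ofNat t 3
  have htb : t ((3 + r) * 2⁻¹) = (3 - r) * 2⁻¹ := by
    simp only [map_mul, map_add, map_inv₀, t2, t3, tr]
    ring
  have hs : (3 + r) * 2⁻¹ + t ((3 + r) * 2⁻¹) = 3 := by
    rw [htb]
    field_simp
    ring
  have hn : (3 + r) * 2⁻¹ * t ((3 + r) * 2⁻¹) = 5 := by
    rw [htb]
    have h4 : (3 + r) * (3 - r) = 20 := by linear_combination -hr
    calc (3 + r) * 2⁻¹ * ((3 - r) * 2⁻¹)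
        = (3 + r) * (3 - r) * (2⁻¹ * 2⁻¹) := by ring
      _ = 20 * (2⁻¹ * 2⁻¹) := by rw [h4]
      _ = 5 := by field_simp; norm_num
  have h := TenU_key tt hs hn h5
  have h3 : (5 : E)⁻¹ = -((3 ^ 2 - 2 * 5) * 5⁻¹) := by
    field_simp
    norm_num
  rw [h3]
  exact neg_mem h

end Pool.Agent.MP_1b9aaa_al.Ten
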